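import Pool.Agent.PKM.St1
import Pool.Agent.BSL.ORD
import Pool.Agent.BSL.CUT

/-!
# OR2: the covariances of the limit field, if there is no loss of mass
-/

set_option autoImplicit false

open Complex MeasureTheory Filter Topology Set
open UpperHalfPlane hiding I
open scoped ContDiff MatrixGroups ProbabilityTheory ENNReal

namespace PKM

open QE QE.NC QJ U3 NFP BSL

noncomputable section

namespace OR2

/-! ### Pure probability -/

/-- the truncation -/
def chi (L u : ℝ) : ℝ := max (-L) (min u L)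

lemma chi_cont (L : ℝ) : Continuous (chi L) :=
  continuous_const.max (continuous_id.min continuous_const)

lemma chi_abs {L : ℝ} (hL : 0 ≤ L) (u : ℝ) : |chi L u| ≤ L := by
  unfold chi
  rw [abs_le]
  exact ⟨le_max_left _ _, max_le (by linarith) (min_le_right _ _)⟩

lemma ptw {L : ℝ} (hL : 0 ≤ L) (s t : ℝ) :
    |s * t - chi L (s * t)| ≤ ((s ^ 2 - min (s ^ 2) L) + (t ^ 2 - min (t ^ 2) L)) / 2 := by
  have h1 : |s * t| ≤ (s ^ 2 + t ^ 2) / 2 := by
    rw [abs_le]
    constructor <;> nlinarith [sq_nonneg (s + t), sq_nonneg (s - t)]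
  obtain ⟨h2, h3⟩ := abs_le.1 h1
  have ha : 0 ≤ s ^ 2 - min (s ^ 2) L := sub_nonneg.2 (min_le_left _ _)
  have hb : 0 ≤ t ^ 2 - min (t ^ 2) L := sub_nonneg.2 (min_le_left _ _)
  have ha' : s ^ 2 - L ≤ s ^ 2 - min (s ^ 2) L := by linarith [min_le_right (s ^ 2) L]
  have hb' : t ^ 2 - L ≤ t ^ 2 - min (t ^ 2) L := by linarith [min_le_right (t ^ 2) L]
  unfold chi
  rcases le_total (s * t) L with h4 | h4
  · rw [min_eq_left h4]
    rcases le_total (-L) (s * t) with h5 | h5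
    · rw [max_eq_right h5, sub_self, abs_zero]
      linarith
    · rw [max_eq_left h5, abs_of_nonpos (by linarith)]
      linarith
  · rw [min_eq_right h4, max_eq_right (by linarith), abs_of_nonneg (by linarith)]
    linarith

lemma mul_int {Ω : Type*} [MeasurableSpace Ω] {P : Measure Ω} {f g : Ω → ℝ}
    (hf : Measurable f) (hg : Measurable g) (hf2 : Integrable (fun o => f o ^ 2) P)
    (hg2 : Integrable (fun o => g o ^ 2) P) : Integrable (fun o => f o * g o) P := by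
  refine Integrable.mono' (g := fun o => f o ^ 2 + g o ^ 2) (hf2.add hg2)
    (hf.mul hg).aestronglyMeasurable (Eventually.of_forall fun o => ?_)
  rw [Real.norm_eq_abs, abs_le]
  constructor <;> nlinarith [sq_nonneg (f o + g o), sq_nonneg (f o - g o), sq_nonneg (f o),
    sq_nonneg (g o)]

lemma min_int {Ω : Type*} [MeasurableSpace Ω] {P : Measure Ω} [IsFiniteMeasure P] {f : Ω → ℝ}
    (hf : Measurable f) {L : ℝ} (hL : 0 ≤ L) : Integrable (fun o => min (f o ^ 2) L) P := by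
  refine Integrable.of_bound ((hf.pow_const 2).min measurable_const).aestronglyMeasurable L
    (Eventually.of_forall fun o => ?_)
  rw [Real.norm_of_nonneg (le_min (sq_nonneg _) hL)]
  exact min_le_right _ _

lemma diff {Ω : Type*} [MeasurableSpace Ω] {P : Measure Ω} [IsFiniteMeasure P] {f g : Ω → ℝ}
    (hf : Measurable f) (hg : Measurable g) (hf2 : Integrable (fun o => f o ^ 2) P)
    (hg2 : Integrable (fun o => g o ^ 2) P) {L : ℝ} (hL : 0 ≤ L) :
    |∫ o, f o * g o ∂P - ∫ o, chi L (f o * g o) ∂P|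
      ≤ ((∫ o, f o ^ 2 ∂P - ∫ o, min (f o ^ 2) L ∂P)
        + (∫ o, g o ^ 2 ∂P - ∫ o, min (g o ^ 2) L ∂P)) / 2 := by
  have h1 := mul_int hf hg hf2 hg2
  have h2 : Integrable (fun o => chi L (f o * g o)) P :=
    Integrable.of_bound ((chi_cont L).measurable.comp (hf.mul hg)).aestronglyMeasurable L
      (Eventually.of_forall fun o => chi_abs hL _)
  have h3 := min_int (P := P) hf hL
  have h4 := min_int (P := P) hg hL
  have e1 : ((∫ o, f o ^ 2 ∂P - ∫ o, min (f o ^ 2) L ∂P)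
        + (∫ o, g o ^ 2 ∂P - ∫ o, min (g o ^ 2) L ∂P)) / 2
      = ∫ o, ((f o ^ 2 - min (f o ^ 2) L) + (g o ^ 2 - min (g o ^ 2) L)) / 2 ∂P := by
    rw [integral_div]
    congr 1
    rw [← integral_sub hf2 h3, ← integral_sub hg2 h4]
    exact (integral_add (hf2.sub h3) (hg2.sub h4)).symm
  rw [e1, ← integral_sub h1 h2]
  refine (abs_integral_le_integral_abs).trans ?_
  refine integral_mono (h1.sub h2).abs (((hf2.sub h3).add (hg2.sub h4)).div_const 2) fun o => ?_
  exact ptw hL _ _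

lemma tail {Ω : Type*} [MeasurableSpace Ω] {P : Measure Ω} [IsFiniteMeasure P] {f : Ω → ℝ}
    (hf : Measurable f) (hf2 : Integrable (fun o => f o ^ 2) P) :
    Tendsto (fun k : ℕ => ∫ o, f o ^ 2 ∂P - ∫ o, min (f o ^ 2) (k : ℝ) ∂P) atTop (𝓝 0) := by
  have h1 : Tendsto (fun k : ℕ => ∫ o, min (f o ^ 2) (k : ℝ) ∂P) atTop
      (𝓝 (∫ o, f o ^ 2 ∂P)) := by
    refine tendsto_integral_of_dominated_convergence (fun o => f o ^ 2)
      (fun k => ((hf.pow_const 2).min measurable_const).aestronglyMeasurable) hf2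
      (fun k => Eventually.of_forall fun o => ?_) (Eventually.of_forall fun o => ?_)
    · rw [Real.norm_of_nonneg (le_min (sq_nonneg _) (Nat.cast_nonneg _))]
      exact min_le_left _ _
    · refine tendsto_const_nhds.congr' ?_
      obtain ⟨N, hN⟩ := exists_nat_ge (f o ^ 2)
      filter_upwards [eventually_ge_atTop N] with k hk
      rw [min_eq_left (hN.trans (Nat.cast_le.2 hk))]
  have h2 := (tendsto_const_nhds (x := ∫ o, f o ^ 2 ∂P)).sub h1
  rwa [sub_self] at h2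

/-- the limit of the covariances -/
lemma cov {S Ω : Type*} [MeasurableSpace S] [MeasurableSpace Ω] {P₀ : Measure S} {P : Measure Ω}
    [IsFiniteMeasure P₀] [IsFiniteMeasure P] {X Y : ℕ → S → ℝ} {f g : Ω → ℝ} {c : ℝ}
    (hX : ∀ᶠ n in atTop, Measurable (X n) ∧ ∃ b, ∀ s, |X n s| ≤ b)
    (hY : ∀ᶠ n in atTop, Measurable (Y n) ∧ ∃ b, ∀ s, |Y n s| ≤ b)
    (hf : Measurable f) (hg : Measurable g) (hf2 : Integrable (fun o => f o ^ 2) P)
    (hg2 : Integrable (fun o => g o ^ 2) P)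
    (lX : Tendsto (fun n => ∫ s, X n s ^ 2 ∂P₀) atTop (𝓝 (∫ o, f o ^ 2 ∂P)))
    (lY : Tendsto (fun n => ∫ s, Y n s ^ 2 ∂P₀) atTop (𝓝 (∫ o, g o ^ 2 ∂P)))
    (lXY : Tendsto (fun n => ∫ s, X n s * Y n s ∂P₀) atTop (𝓝 c))
    (mX : ∀ L : ℝ, 0 ≤ L → Tendsto (fun n => ∫ s, min (X n s ^ 2) L ∂P₀) atTop
      (𝓝 (∫ o, min (f o ^ 2) L ∂P)))
    (mY : ∀ L : ℝ, 0 ≤ L → Tendsto (fun n => ∫ s, min (Y n s ^ 2) L ∂P₀) atTop
      (𝓝 (∫ o, min (g o ^ 2) L ∂P)))
    (mXY : ∀ L : ℝ, 0 ≤ L → Tendsto (fun n => ∫ s, chi L (X n s * Y n s) ∂P₀) atTop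
      (𝓝 (∫ o, chi L (f o * g o) ∂P))) :
    Integrable (fun o => f o * g o) P ∧ ∫ o, f o * g o ∂P = c := by
  refine ⟨mul_int hf hg hf2 hg2, ?_⟩
  have key : ∀ k : ℕ, |∫ o, f o * g o ∂P - c|
      ≤ (∫ o, f o ^ 2 ∂P - ∫ o, min (f o ^ 2) (k : ℝ) ∂P)
        + (∫ o, g o ^ 2 ∂P - ∫ o, min (g o ^ 2) (k : ℝ) ∂P) := by
    intro k
    have hk : (0 : ℝ) ≤ k := Nat.cast_nonneg k
    have h1 := diff hf hg hf2 hg2 hk
    have h2 : |c - ∫ o, chi k (f o * g o) ∂P|
        ≤ ((∫ o, f o ^ 2 ∂P - ∫ o, min (f o ^ 2) (k : ℝ) ∂P)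
          + (∫ o, g o ^ 2 ∂P - ∫ o, min (g o ^ 2) (k : ℝ) ∂P)) / 2 := by
      have l1 : Tendsto (fun n => |∫ s, X n s * Y n s ∂P₀ - ∫ s, chi k (X n s * Y n s) ∂P₀|)
          atTop (𝓝 |c - ∫ o, chi k (f o * g o) ∂P|) := (lXY.sub (mXY k hk)).abs
      have l2 : Tendsto (fun n => ((∫ s, X n s ^ 2 ∂P₀ - ∫ s, min (X n s ^ 2) (k : ℝ) ∂P₀)
          + (∫ s, Y n s ^ 2 ∂P₀ - ∫ s, min (Y n s ^ 2) (k : ℝ) ∂P₀)) / 2) atTop
          (𝓝 (((∫ o, f o ^ 2 ∂P - ∫ o, min (f o ^ 2) (k : ℝ) ∂P)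
          + (∫ o, g o ^ 2 ∂P - ∫ o, min (g o ^ 2) (k : ℝ) ∂P)) / 2)) :=
        ((lX.sub (mX k hk)).add (lY.sub (mY k hk))).div_const 2
      refine le_of_tendsto_of_tendsto l1 l2 ?_
      filter_upwards [hX, hY] with n ⟨a1, b1, a2⟩ ⟨a3, b3, a4⟩
      have sqi : ∀ {Z : S → ℝ} {b : ℝ}, Measurable Z → (∀ s, |Z s| ≤ b) →
          Integrable (fun s => Z s ^ 2) P₀ := by
        intro Z b hZ hb
        refine Integrable.of_bound (hZ.pow_const 2).aestronglyMeasurable (b ^ 2)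
          (Eventually.of_forall fun s => ?_)
        rw [Real.norm_of_nonneg (sq_nonneg _), ← sq_abs]
        exact pow_le_pow_left₀ (abs_nonneg _) (hb s) 2
      exact diff a1 a3 (sqi a1 a2) (sqi a3 a4) hk
    have h3 := abs_sub_le (∫ o, f o * g o ∂P) (∫ o, chi k (f o * g o) ∂P) c
    rw [abs_sub_comm c] at h2
    linarith
  have l3 := (tail hf hf2).add (tail hg hg2)
  rw [add_zero] at l3
  have h4 : |∫ o, f o * g o ∂P - c| ≤ 0 :=
    ge_of_tendsto l3 (Eventually.of_forall key)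
  exact sub_eq_zero.1 (abs_nonpos_iff.1 h4)

/-- equal laws -/
lemma law {Ω : Type} [MeasurableSpace Ω] {P : Measure Ω} [IsProbabilityMeasure P]
    {F : ℂ → Ω → ℝ} (hF : ∀ x, Measurable (F x)) (h : Same P F) (x : ℂ) :
    P.map (F x) = P.map (F 0) := by
  have i1 : IsProbabilityMeasure (P.map (F x)) := Measure.isProbabilityMeasure_map (hF x).aemeasurable
  have i2 : IsProbabilityMeasure (P.map (F 0)) := Measure.isProbabilityMeasure_map (hF 0).aemeasurable
  let p1 : ProbabilityMeasure ℝ := ⟨P.map (F x), i1⟩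
  let p2 : ProbabilityMeasure ℝ := ⟨P.map (F 0), i2⟩
  have h1 : Tendsto (fun _ : ℕ => p1) atTop (𝓝 p2) := by
    rw [tendsto_iff_forall_lipschitz_integral_tendsto]
    rintro f ⟨C, hC⟩ ⟨L, hL⟩
    have hm : Measurable f := hL.continuous.measurable
    have h2 : ∫ w, f w ∂(P.map (F x)) = ∫ w, f w ∂(P.map (F 0)) := by
      rw [integral_map (hF x).aemeasurable hm.aestronglyMeasurable,
        integral_map (hF 0).aemeasurable hm.aestronglyMeasurable]
      refine h x f (max (L : ℝ) (|f 0| + C)) ?_ ?_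
      · intro s t
        have h3 := hL.dist_le_mul s t
        rw [Real.dist_eq, Real.dist_eq] at h3
        exact h3.trans (mul_le_mul_of_nonneg_right (le_max_left _ _) (abs_nonneg _))
      · intro t
        have h3 := hC t 0
        rw [Real.dist_eq] at h3
        have h4 := abs_sub_abs_le_abs_sub (f t) (f 0)
        exact le_trans (by linarith) (le_max_right _ _)
    show Tendsto (fun _ : ℕ => ∫ w, f w ∂(P.map (F x))) atTop (𝓝 (∫ w, f w ∂(P.map (F 0))))
    rw [h2]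
    exact tendsto_const_nhds
  have h2 : p2 = p1 := tendsto_nhds_unique h1 tendsto_const_nhds
  exact congrArg (fun q : ProbabilityMeasure ℝ => (q : Measure ℝ)) h2.symm

variable {Γ : Subgroup SL(2, ℝ)} {D : Set ℍ} {ρ : ℍ → ℝ} {φ : ℕ → ℍ → ℝ} {m : ℕ → ℝ}

/-- the waves are measurable and bounded -/
lemma wav (hS : Sur Γ D ρ φ m) {k : ℕ} (x : Fin k → ℂ) : ∀ᶠ n in atTop, ∃ b, ∀ i,
    Measurable (Berry.rWave ρ (φ n) (m n) (x i)) ∧
      ∀ p, |Berry.rWave ρ (φ n) (m n) (x i) p| ≤ b := by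
  filter_upwards [UIF.wc hS x] with n hn
  obtain ⟨b, hb⟩ := Berry.bdd_of_cocompact (UIF.phi_cont hS n)
    (fun γ hγ z => hS.eig.invariant n γ hγ z) hS.fac.cpt
  exact ⟨b, fun i => ⟨(hn i).measurable, fun p => hb _⟩⟩

/-- the second moments of the waves -/
lemma mom [Countable Γ] (hS : Sur Γ D ρ φ m) (x y : ℂ) :
    Tendsto (fun n => ∫ p, Berry.rWave ρ (φ n) (m n) x p * Berry.rWave ρ (φ n) (m n) y p
      ∂(Berry.rFrameProb ρ D)) atTop (𝓝 (Berry.waveK (x - y))) := by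
  obtain ⟨ζ, hζ⟩ := t_CUT Γ D ρ hS.mD hS.fd hS.fac
  have b := (ORD.pts hS hζ.test).2 ![x, y]
  simp only [ORD.mass hS hζ, mul_one, Matrix.cons_val_zero, Matrix.cons_val_one] at b
  have b2 := b.add_const (Berry.waveK (x - y))
  simp only [sub_add_cancel, zero_add] at b2
  refine b2.congr' ?_
  filter_upwards [wav hS ![x, y]] with n hn
  obtain ⟨c, hc⟩ := hn
  have hx := hc 0
  have hy := hc 1
  simp only [Matrix.cons_val_zero, Matrix.cons_val_one] at hx hy
  have hg := UIF.geo hS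
  have hP : IsProbabilityMeasure (ProbabilityTheory.cond (Berry.area ρ) D) := area_prob hg
  have hc0 : 0 ≤ c := (abs_nonneg _).trans (hx.2 (UpperHalfPlane.I, 0))
  have hGm : Measurable fun p : ℍ × ℝ => Berry.rWave ρ (φ n) (m n) x p
      * Berry.rWave ρ (φ n) (m n) y p := hx.1.mul hy.1
  have hGb : ∀ p : ℍ × ℝ, ‖Berry.rWave ρ (φ n) (m n) x p * Berry.rWave ρ (φ n) (m n) y p‖
      ≤ c * c := by
    intro p
    rw [norm_mul]
    exact mul_le_mul (hx.2 p) (hy.2 p) (norm_nonneg _) hc0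
  have ef : ∀ z, angProd ρ (φ n) (m n) ![x, y] z
      = ∫ t, Berry.rWave ρ (φ n) (m n) x (z, t) * Berry.rWave ρ (φ n) (m n) y (z, t) ∂ang := by
    intro z
    unfold angProd
    simp only [Fin.prod_univ_two, Matrix.cons_val_zero, Matrix.cons_val_one]
  have hfm : Measurable (angProd ρ (φ n) (m n) ![x, y]) := by
    have h1 : Measurable fun z => ∫ t, Berry.rWave ρ (φ n) (m n) x (z, t)
        * Berry.rWave ρ (φ n) (m n) y (z, t) ∂ang :=
      (hGm.stronglyMeasurable.integral_prod_right').measurable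
    have h2 : angProd ρ (φ n) (m n) ![x, y] = fun z => ∫ t, Berry.rWave ρ (φ n) (m n) x (z, t)
        * Berry.rWave ρ (φ n) (m n) y (z, t) ∂ang := funext ef
    rw [h2]
    exact h1
  have hfb : ∀ z, ‖angProd ρ (φ n) (m n) ![x, y] z‖ ≤ c * c := by
    intro z
    rw [ef]
    have h2 : ‖∫ t, Berry.rWave ρ (φ n) (m n) x (z, t) * Berry.rWave ρ (φ n) (m n) y (z, t) ∂ang‖
        ≤ c * c * ang.real univ :=
      norm_integral_le_of_norm_le_const (Eventually.of_forall fun t => hGb _)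
    simpa using h2
  have hfD : IntegrableOn (angProd ρ (φ n) (m n) ![x, y]) D (volume : Measure ℍ) := by
    have : IsFiniteMeasure ((volume : Measure ℍ).restrict D) :=
      ⟨by rw [Measure.restrict_apply_univ]; exact hg.fin.lt_top⟩
    exact Integrable.of_bound hfm.aestronglyMeasurable (c * c) (Eventually.of_forall hfb)
  have hfi := angProd_inv (Γ := Γ) (φ := φ n) (fun γ hγ z => hS.eig.invariant n γ hγ z) hS.fac.inv
    (m n) ![x, y]
  rw [(hζ.int _ hfm hfD hfi).2]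
  unfold Berry.rFrameProb Berry.rAvg
  rw [integral_prod]
  · exact integral_congr_ae (Eventually.of_forall fun z => ef z)
  · exact Integrable.of_bound hGm.aestronglyMeasurable (c * c) (Eventually.of_forall hGb)

end OR2

open OR2 in
/-- **OR2**: the covariances of the limit field, if there is no loss of mass. -/
theorem t_OR2 (hSta : StmtSta) : StmtOr2 := by
  intro Γ _ D ρ φ m hS Ω _ P _ F hFm hF h1 x y
  have hsame := hSta Γ D ρ φ m hS Ω P F hFm hF
  have hg := UIF.geo hS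
  have hP : IsProbabilityMeasure (Berry.rFrameProb ρ D) := Berry.rFrameProb_isProb hg
  have i0 : Integrable (fun o => F 0 o ^ 2) P := by
    by_contra h
    rw [integral_undef h] at h1
    exact zero_ne_one h1
  have i1 : ∀ x, Integrable (fun o => F x o ^ 2) P ∧ ∫ o, F x o ^ 2 ∂P = 1 := by
    intro x
    have h2 := law hFm hsame x
    have hm : Measurable fun u : ℝ => u ^ 2 := measurable_id.pow_const 2
    have h3 : Integrable (fun u : ℝ => u ^ 2) (P.map (F 0)) :=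
      (integrable_map_measure hm.aestronglyMeasurable (hFm 0).aemeasurable).2 i0
    have h4 : Integrable (fun u : ℝ => u ^ 2) (P.map (F x)) := by
      rw [h2]
      exact h3
    refine ⟨(integrable_map_measure hm.aestronglyMeasurable (hFm x).aemeasurable).1 h4, ?_⟩
    have h5 : ∫ u, u ^ 2 ∂(P.map (F x)) = ∫ o, F x o ^ 2 ∂P :=
      integral_map (hFm x).aemeasurable hm.aestronglyMeasurable
    have h6 : ∫ u, u ^ 2 ∂(P.map (F 0)) = ∫ o, F 0 o ^ 2 ∂P :=
      integral_map (hFm 0).aemeasurable hm.aestronglyMeasurable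
    rw [← h5, h2, h6, h1]
  have hw : ∀ x : ℂ, ∀ᶠ n in atTop, Measurable (Berry.rWave ρ (φ n) (m n) x) ∧
      ∃ b, ∀ p, |Berry.rWave ρ (φ n) (m n) x p| ≤ b := by
    intro x
    filter_upwards [wav hS ![x]] with n hn
    obtain ⟨b, hb⟩ := hn
    exact ⟨(hb 0).1, b, (hb 0).2⟩
  have hl : ∀ x : ℂ, Tendsto (fun n => ∫ p, Berry.rWave ρ (φ n) (m n) x p ^ 2
      ∂(Berry.rFrameProb ρ D)) atTop (𝓝 (∫ o, F x o ^ 2 ∂P)) := by
    intro x
    have h2 := mom hS x x
    rw [sub_self, Berry.waveK_zero] at h2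
    rw [(i1 x).2]
    refine h2.congr fun n => ?_
    exact integral_congr_ae (Eventually.of_forall fun p => (sq _).symm)
  have hmi : ∀ x : ℂ, ∀ L : ℝ, 0 ≤ L → Tendsto (fun n => ∫ p,
      min (Berry.rWave ρ (φ n) (m n) x p ^ 2) L ∂(Berry.rFrameProb ρ D)) atTop
      (𝓝 (∫ o, min (F x o ^ 2) L ∂P)) := by
    intro x L hL
    refine hF 1 ![x] (fun t => min (t 0 ^ 2) L) ?_ ⟨L, fun t => ?_⟩
    · exact ((continuous_apply 0).pow 2).min continuous_const
    · rw [abs_of_nonneg (le_min (sq_nonneg _) hL)]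
      exact min_le_right _ _
  refine cov (hw x) (hw y) (hFm x) (hFm y) (i1 x).1 (i1 y).1 (hl x) (hl y) (mom hS x y)
    (hmi x) (hmi y) ?_
  intro L hL
  refine hF 2 ![x, y] (fun t => chi L (t 0 * t 1)) ?_ ⟨L, fun t => chi_abs hL _⟩
  exact (chi_cont L).comp ((continuous_apply 0).mul (continuous_apply 1))

end

end PKM
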