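import Pool.Agent.PKM.St1
import Pool.Agent.BSL.STR

/-!
# The semiclassical measure of a sequence with equidistributed mass (module DEN)
-/

set_option autoImplicit false

open Complex MeasureTheory Filter Topology Set
open UpperHalfPlane hiding I
open scoped ContDiff MatrixGroups ProbabilityTheory ENNReal

namespace PKM

open QE QE.NC QJ U3 NFP BSL

noncomputable section

namespace DEN

lemma test_re {U : Set ℂ} {χ : ℂ → ℂ} (hχ : Test U χ) : Test U (fun z => ((χ z).re : ℂ)) := by
  have hs : Function.support (fun z => ((χ z).re : ℂ)) ⊆ Function.support χ := by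
    intro z hz h0
    apply hz
    show ((χ z).re : ℂ) = 0
    rw [h0]; simp
  exact ⟨Complex.ofRealCLM.contDiff.comp (Complex.reCLM.contDiff.comp hχ.smooth),
    hχ.supp.mono hs, (closure_mono hs).trans hχ.sub⟩

lemma test_im {U : Set ℂ} {χ : ℂ → ℂ} (hχ : Test U χ) : Test U (fun z => ((χ z).im : ℂ)) := by
  have hs : Function.support (fun z => ((χ z).im : ℂ)) ⊆ Function.support χ := by
    intro z hz h0
    apply hz
    show ((χ z).im : ℂ) = 0
    rw [h0]; simp
  exact ⟨Complex.ofRealCLM.contDiff.comp (Complex.imCLM.contDiff.comp hχ.smooth),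
    hχ.supp.mono hs, (closure_mono hs).trans hχ.sub⟩

variable {φ : ℕ → ℍ → ℝ}

lemma integrable_mul (hs : SmoothSeq UH (ph φ)) (n : ℕ) {ζ : ℂ → ℂ} (hζ : Test UH ζ) :
    Integrable (fun z => ζ z * (ph φ n z * ph φ n z)) := by
  have hK : IsCompact (tsupport ζ) := hζ.supp
  have c1 : ContinuousOn (fun z => ζ z * (ph φ n z * ph φ n z)) (tsupport ζ) := by
    refine (hζ.smooth.continuous.continuousOn).mul (ContinuousOn.mul ?_ ?_)
    · exact (hs n).continuousOn.mono hζ.sub
    · exact (hs n).continuousOn.mono hζ.sub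
  have h1 : IntegrableOn (fun z => ζ z * (ph φ n z * ph φ n z)) (tsupport ζ) :=
    c1.integrableOn_compact hK
  rwa [integrableOn_iff_integrable_of_support_subset] at h1
  intro z hz
  by_contra hn
  apply hz
  show ζ z * (ph φ n z * ph φ n z) = 0
  rw [image_eq_zero_of_notMem_tsupport hn, zero_mul]

lemma real_int (n : ℕ) (ψ : ℂ → ℝ) :
    ∫ z, (ψ z : ℂ) * (ph φ n z * ph φ n z) = ((∫ z, ψ z * φ n (ofComplex z) ^ 2 : ℝ) : ℂ) := by
  rw [← integral_complex_ofReal]
  refine integral_congr_ae (Eventually.of_forall fun z => ?_)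
  beta_reduce
  unfold ph
  push_cast
  ring

/-- convergence for complex test functions -/
lemma lim (hs : SmoothSeq UH (ph φ))
    (h : ∀ ψ : ℂ → ℝ, Test UH (fun z => (ψ z : ℂ)) →
      Tendsto (fun n => ∫ z, ψ z * φ n (ofComplex z) ^ 2) atTop (𝓝 (∫ z, ψ z)))
    {ζ : ℂ → ℂ} (hζ : Test UH ζ) :
    Tendsto (fun n => ∫ z, ζ z * (ph φ n z * ph φ n z)) atTop (𝓝 (∫ z, ζ z)) := by
  have t1 := h (fun z => (ζ z).re) (test_re hζ)
  have t2 := h (fun z => (ζ z).im) (test_im hζ)
  have t1' := (Complex.continuous_ofReal.tendsto _).comp t1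
  have t2' := ((Complex.continuous_ofReal.tendsto _).comp t2).mul_const Complex.I
  have t3 := t1'.add t2'
  have hζi : Integrable ζ := hζ.smooth.continuous.integrable_of_hasCompactSupport hζ.supp
  have e0 : ((∫ z, (ζ z).re : ℝ) : ℂ) + ((∫ z, (ζ z).im : ℝ) : ℂ) * Complex.I = ∫ z, ζ z := by
    have := integral_re_add_im hζi
    simpa using this
  rw [e0] at t3
  refine t3.congr fun n => ?_
  simp only [Function.comp_apply]
  rw [← real_int, ← real_int, ← integral_mul_const, ← integral_add]
  · refine integral_congr_ae (Eventually.of_forall fun z => ?_)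
    beta_reduce
    have : ζ z = ((ζ z).re : ℂ) + ((ζ z).im : ℂ) * Complex.I := (Complex.re_add_im _).symm
    rw [show ζ z * (ph φ n z * ph φ n z) = (((ζ z).re : ℂ) + ((ζ z).im : ℂ) * Complex.I)
      * (ph φ n z * ph φ n z) by rw [← this]]
    ring
  · exact integrable_mul hs n (test_re hζ)
  · exact (integrable_mul hs n (test_im hζ)).mul_const _

end DEN

open DEN in
/-- **DEN**: the semiclassical measure of a sequence with equidistributed mass. -/
theorem t_DEN : StmtDen := by
  intro ρ φ m μ hρ hL heq hμ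
  have hc := NFP.STRUCT.cont_rho hρ
  have hsm := hL.smooth
  set u : ℂ → ℂ := fun _ => 1 with hu
  have hum : Measurable u := measurable_const
  have hul : LocL2 UH u := fun K hK _ => by
    have hfin : IsFiniteMeasure ((volume : Measure ℂ).restrict K) :=
      ⟨by rw [Measure.restrict_apply_univ]; exact hK.measure_lt_top⟩
    exact memLp_const 1
  -- the identity for test functions
  have hid : ∀ ζ : ℂ → ℂ, Test UH ζ → ∫ z, ζ z * u z
      = ∫ p : ℍ × S1, ζ p.1 * ((p.1.im ^ 2 * Real.exp (-(2 * ρ p.1)) : ℝ) : ℂ) ∂μ := by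
    intro ζ hζ
    have t1 := DEN.lim hsm heq hζ
    have t3 := BSL.STR.mass hρ hL hμ hζ
    simp only [hu, mul_one]
    exact tendsto_nhds_unique t1 t3
  have hreal : ∀ᵐ z ∂((volume : Measure ℂ).restrict UH), 0 ≤ (u z).re ∧ (u z).im = 0 :=
    Eventually.of_forall fun z => by simp [hu]
  -- the marginal
  have hfst : ∀ K : Set ℍ, IsCompact K → μ.map Prod.fst K < ⊤ := by
    intro K hK
    rw [Measure.map_apply measurable_fst hK.measurableSet]
    have e : (Prod.fst ⁻¹' K : Set (ℍ × S1)) = K ×ˢ univ := by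
      ext p
      simp
    rw [e]
    exact hμ.fin K hK
  have hmarg := marg ρ (μ.map Prod.fst) u hc hfst hum hul hreal (by
    intro ζ hζ
    rw [hid ζ hζ, integral_map measurable_fst.aemeasurable]
    refine Continuous.aestronglyMeasurable ?_
    refine Continuous.mul (hζ.smooth.continuous.comp UpperHalfPlane.continuous_coe) ?_
    refine continuous_ofReal.comp (Continuous.mul ?_ ?_)
    · exact UpperHalfPlane.continuous_im.pow 2
    · exact Real.continuous_exp.comp (continuous_const.mul hc).neg)
  -- the kernel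
  obtain ⟨κ, hκ, hκμ⟩ := ker ρ μ (fun z => max (u z).re 0) hc hμ.fin
    ((Complex.measurable_re.comp (hum.comp measurable_coe)).max measurable_const)
    (fun z => le_max_right _ _) hmarg
  have hκf : ∀ z, κ z univ < ⊤ := fun z => by
    rw [hκ z]
    exact ENNReal.ofReal_lt_top
  have hone : ∀ z, ma κ z = 1 := by
    intro z
    unfold ma
    rw [hκ, ENNReal.toReal_ofReal (le_max_right _ _)]
    simp [hu]
  refine ⟨κ, ⟨fun z => ⟨hκf z⟩, fun K hK hKU => ?_, ?_⟩, hκμ, Eventually.of_forall hone⟩
  · have : (fun z => ((ma κ z : ℝ) : ℂ)) = u := by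
      funext z
      rw [hone z]
      simp [hu]
    rw [this]
    exact hul K hK hKU
  · rw [← hκμ]
    exact hμ

end

end PKM
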