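import Pool.Agent.PKM.St1
import Pool.Agent.BSL.TAY
import Pool.Agent.BSL.PTF
import Pool.Agent.BSL.ROTP
import Pool.Agent.BSL.ROTG

/-!
# PKM, module ANG: the mean over the angle of the squares of the local waves, in `L¹`
-/

open Complex MeasureTheory Filter Topology Set
open UpperHalfPlane hiding I
open scoped ContDiff MatrixGroups ProbabilityTheory ENNReal

namespace PKM

open QE QE.NC QJ U3 NFP BSL

noncomputable section

namespace ANGx

variable {ρ : ℍ → ℝ} {φ : ℕ → ℍ → ℝ} {m : ℕ → ℝ} {V : Set ℂ} {σ : ℂ → ℝ} {φ' : ℕ → ℂ → ℂ}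

/-- the values of the local waves (part of the proof of `PTF.ang_eq`) -/
theorem val (hρ : ContDiffOn ℝ ∞ (ro ρ) UH) (A : Agree V UH (gr ρ) (hh m) (ph φ) σ φ')
    {K : Set ℂ} (hK : IsCompact K) (hKV : K ⊆ V) (x : ℂ) :
    ∀ᶠ n in atTop, ∀ t : ℝ, ∀ z ∈ K, (Berry.rWave ρ (φ n) (m n) x (ofComplex z, t) : ℂ)
      = φ' n (BSL.dp σ (hh m) n z (frXi (hh m) (em ρ) x n t z)) := by
  have hKU : K ⊆ HH := hKV.trans A.sub
  have hpos : ∀ n, 0 < hh m n := A.loc.hpos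
  have hlim : Tendsto (hh m) atTop (𝓝 0) := A.loc.hlim
  have hmpos : ∀ n, 0 < m n := fun n => one_div_pos.1 (hpos n)
  have heS := PTF.em_smooth hρ
  have haC : Continuous (ex σ (-1)) := (contDiff_ex A.loc.sm (-1)).continuous
  obtain ⟨A₀, hA₀⟩ := hK.exists_bound_of_continuousOn (f := ex σ (-1)) haC.continuousOn
  obtain ⟨M, hM⟩ := hK.exists_bound_of_continuousOn (heS.continuousOn.mono hKU)
  set A' := |A₀| with hA'
  set M' := |M| with hM'
  have hA2 : ∀ z ∈ K, ‖ex σ (-1) z‖ ≤ A' := fun z hz => (hA₀ z hz).trans (le_abs_self A₀)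
  have hM2 : ∀ z ∈ K, |em ρ z| ≤ M' := fun z hz => (hM z hz).trans (le_abs_self M)
  have hA0 : 0 ≤ A' := abs_nonneg _
  have hM0 : 0 ≤ M' := abs_nonneg _
  set X : ℝ := ‖x‖ with hX
  have hX0 : 0 ≤ X := norm_nonneg _
  obtain ⟨δ, hδ, hδV⟩ := hK.exists_cthickening_subset_open A.op hKV
  have hlim2 : ∀ᶠ n in atTop, ∀ t, ∀ z ∈ K,
      ‖frXi (hh m) (em ρ) x n t z - uu t ^ 2 * x‖ ≤ 1 := (PTF.dis hρ A hK hKV x).lim 1 one_pos
  have hsmall : ∀ᶠ n in atTop, hh m n * (X * M') < 1 := by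
    have := hlim.mul_const (X * M')
    rw [zero_mul] at this
    exact this.eventually_lt_const (by norm_num)
  have hsmall2 : ∀ᶠ n in atTop, hh m n * (A' * (X + 1)) < δ := by
    have := hlim.mul_const (A' * (X + 1))
    rw [zero_mul] at this
    exact this.eventually_lt_const hδ
  filter_upwards [hlim2, hsmall, hsmall2] with n n2 n3 n4
  have hn := (hpos n).le
  -- the displaced points stay in `V`
  have hmem : ∀ t, ∀ z ∈ K, BSL.dp σ (hh m) n z (frXi (hh m) (em ρ) x n t z) ∈ V := by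
    intro t z hz
    refine hδV (Metric.mem_cthickening_of_dist_le _ z δ K hz ?_)
    unfold BSL.dp
    rw [dist_eq_norm, add_sub_cancel_left, norm_mul, norm_mul, Complex.norm_real,
      Real.norm_of_nonneg hn]
    have h1 : ‖frXi (hh m) (em ρ) x n t z‖ ≤ X + 1 := by
      have e2 : frXi (hh m) (em ρ) x n t z
          = (frXi (hh m) (em ρ) x n t z - uu t ^ 2 * x) + uu t ^ 2 * x := by ring
      rw [e2]
      refine (norm_add_le _ _).trans ?_
      rw [norm_mul (uu t ^ 2), norm_pow, norm_uu, one_pow, one_mul]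
      have := n2 t z hz
      linarith
    calc hh m n * (‖ex σ (-1) z‖ * ‖frXi (hh m) (em ρ) x n t z‖)
        ≤ hh m n * (A' * (X + 1)) := by
          have := hA2 z hz
          gcongr
      _ ≤ δ := n4.le
  intro t z hz
  have hx1 : ‖x / ((m n * Real.exp (ρ (ofComplex z)) : ℝ) : ℂ)‖ < 1 := by
    have e1 : x / ((m n * Real.exp (ρ (ofComplex z)) : ℝ) : ℂ)
        = x * ((hh m n * em ρ z : ℝ) : ℂ) := by
      have e2 : (hh m n * em ρ z : ℝ) = (m n * Real.exp (ρ (ofComplex z)))⁻¹ := by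
        simp only [hh, QE.em]
        rw [Real.exp_neg, mul_inv, one_div]
      rw [e2, Complex.ofReal_inv, div_eq_mul_inv]
    rw [e1, norm_mul, Complex.norm_real, Real.norm_eq_abs, abs_mul, abs_of_pos (hpos n)]
    have e3 := hM2 z hz
    calc ‖x‖ * (hh m n * |em ρ z|) ≤ X * (hh m n * M') := by gcongr
      _ = hh m n * (X * M') := by ring
      _ < 1 := n3
  have h1 := rWave_eq_disp (hmpos n) x t (hKU hz) hx1 (n := n) (h := hh m) rfl
    (a := ex σ (-1)) (PTF.a_eq A (hKV hz)) (φ := φ n)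
  rw [h1, A.eφ n _ (hmem t z hz)]
  unfold ph BSL.dp QE.em
  rw [mul_assoc]

/-- orthogonality of the characters of the circle -/
theorem parseval (s : Finset ℤ) (c : ℤ → ℂ) :
    ∫ t, ‖∑ j ∈ s, (uu t ^ 2) ^ j * c j‖ ^ 2 ∂ang = ∑ j ∈ s, ‖c j‖ ^ 2 := by
  apply Complex.ofReal_injective
  refine (integral_ofReal (𝕜 := ℂ) (μ := ang)
    (f := fun t : ℝ => ‖∑ j ∈ s, (uu t ^ 2) ^ j * c j‖ ^ 2)).symm.trans ?_
  have e1 : ∀ t : ℝ, ((‖∑ j ∈ s, (uu t ^ 2) ^ j * c j‖ ^ 2 : ℝ) : ℂ) =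
      ∑ j ∈ s, ∑ k ∈ s, (uu t ^ 2) ^ (j - k) * (c j * (starRingEnd ℂ) (c k)) := by
    intro t
    have hu : ‖uu t ^ 2‖ = 1 := by rw [norm_pow, norm_uu, one_pow]
    have hu0 : uu t ^ 2 ≠ 0 := pow_ne_zero _ (uu_ne t)
    have h1 := Complex.mul_conj' (∑ j ∈ s, (uu t ^ 2) ^ j * c j)
    rw [Complex.ofReal_pow, ← h1, map_sum, Finset.sum_mul_sum]
    refine Finset.sum_congr rfl fun j _ => Finset.sum_congr rfl fun k _ => ?_
    rw [map_mul, map_zpow₀, ← Complex.inv_eq_conj hu, zpow_sub₀ hu0, inv_zpow]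
    ring
  have hi : ∀ j : ℤ, Integrable (fun t => (uu t ^ 2) ^ j) ang := by
    intro j
    have e6 : (fun t => (uu t ^ 2) ^ j) = fun t => uu t ^ (2 * j) := by
      funext t
      rw [zpow_mul, zpow_ofNat]
    rw [e6]
    refine Integrable.of_bound (continuous_uu_zpow _).aestronglyMeasurable 1
      (Eventually.of_forall fun t => ?_)
    rw [norm_zpow, norm_uu, one_zpow]
  have e5 : ∀ j : ℤ, ∫ t, (uu t ^ 2) ^ j ∂ang = if j = 0 then 1 else 0 := by
    intro j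
    have := QE.ang_zpow_mul (q := 2) (by norm_num) j
    simpa only [zpow_ofNat] using this
  have e7 : ∫ t, ((‖∑ j ∈ s, (uu t ^ 2) ^ j * c j‖ ^ 2 : ℝ) : ℂ) ∂ang =
      ∑ j ∈ s, ∑ k ∈ s, (if j - k = 0 then 1 else 0) * (c j * (starRingEnd ℂ) (c k)) := by
    simp only [e1]
    rw [integral_finsetSum _ fun j _ => integrable_finsetSum _ fun k _ => (hi _).mul_const _]
    refine Finset.sum_congr rfl fun j _ => ?_
    rw [integral_finsetSum _ fun k _ => (hi _).mul_const _]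
    refine Finset.sum_congr rfl fun k _ => ?_
    rw [integral_mul_const, e5]
  refine e7.trans ?_
  rw [Complex.ofReal_sum]
  refine Finset.sum_congr rfl fun j hj => ?_
  rw [Finset.sum_eq_single j]
  · rw [sub_self, if_pos rfl, one_mul, Complex.mul_conj', Complex.ofReal_pow]
  · intro k _ hk
    rw [if_neg (sub_ne_zero.2 (Ne.symm hk)), zero_mul]
  · intro h
    exact absurd hj h

theorem sq_diff {a b : ℂ} {Q M ε : ℝ} (hM : ‖a‖ + ‖b‖ ≤ M * Q) (h : ‖a - b‖ ≤ ε * Q) :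
    |‖a‖ ^ 2 - ‖b‖ ^ 2| ≤ ε * M * (Q ^ 2) := by
  have h1 : ‖a‖ ^ 2 - ‖b‖ ^ 2 = (‖a‖ - ‖b‖) * (‖a‖ + ‖b‖) := by ring
  rw [h1, abs_mul, abs_of_nonneg (by positivity : 0 ≤ ‖a‖ + ‖b‖)]
  have h2 := (abs_norm_sub_norm_le a b).trans h
  have h3 : 0 ≤ ‖a‖ + ‖b‖ := by positivity
  calc |‖a‖ - ‖b‖| * (‖a‖ + ‖b‖) ≤ (ε * Q) * (M * Q) :=
        mul_le_mul h2 hM h3 ((norm_nonneg _).trans h)
    _ = _ := by ring

end ANGx

open ANGx in
/-- ANG -/
theorem t_ANG : StmtAng := by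
  intro Γ D ρ φ m S V σ φ' A K hK hKV x ε hε
  have hρ := S.fac.smooth
  obtain ⟨L, hL, hTay⟩ := tAY V σ (hh m) φ' A.loc K hK hKV (‖x‖ + 1)
  obtain ⟨N₁, hN₁⟩ := hTay 1 one_pos
  obtain ⟨C₁, hC₁0, hC₁⟩ := ROTP.Tay_bd A.loc hK hKV hL N₁ (‖x‖ + 1)
  obtain ⟨B, hB⟩ := ROTG.Mn_bdd A.loc hK hKV hL.le
  set M : ℝ := 2 * C₁ + 3 with hM
  have hM0 : 0 < M := by linarith
  set ε₁ : ℝ := min 1 (ε / (M * |B| + 1)) with hε₁
  have hε₁0 : 0 < ε₁ := lt_min one_pos (by positivity)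
  have hε₁1 : ε₁ ≤ 1 := min_le_left _ _
  have hε₁2 : ε₁ * M * |B| ≤ ε := by
    have h2 : ε₁ ≤ ε / (M * |B| + 1) := min_le_right _ _
    rw [le_div_iff₀ (by positivity)] at h2
    nlinarith
  obtain ⟨N₀, hN₀⟩ := hTay (ε₁ / 2) (by positivity)
  refine ⟨N₀, fun N hN => ?_⟩
  obtain ⟨δ, hδ, hmod⟩ := ROTP.Tay_mod A.loc hK hKV hL N (‖x‖ + 1) (ε := ε₁ / 2) (by positivity)
  have hdis := PTF.dis hρ A hK hKV x
  filter_upwards [hN₁ N₁ le_rfl, hC₁, hB, hN₀ N hN, hmod, hdis.lim (min δ 1) (lt_min hδ one_pos),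
    hdis.cont, val hρ A hK hKV x] with n n1 n2 n3 n4 n5 n6 n7 n8
  have hφc : Continuous (φ' n) := (A.loc.smφ n).continuous
  have hux : ∀ t, ‖uu t ^ 2 * x‖ = ‖x‖ := fun t => by
    rw [norm_mul, norm_pow, norm_uu, one_pow, one_mul]
  have hξR : ∀ t, ∀ z ∈ K, ‖frXi (hh m) (em ρ) x n t z‖ ≤ ‖x‖ + 1 := by
    intro t z hz
    have h2 := (n6 t z hz).trans (min_le_right _ _)
    have h3 := norm_le_norm_add_norm_sub' (frXi (hh m) (em ρ) x n t z) (uu t ^ 2 * x)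
    have h4 := hux t
    linarith
  have hcl : ∀ t, ∀ z ∈ K, ‖φ' n (BSL.dp σ (hh m) n z (frXi (hh m) (em ρ) x n t z))
      - TayE σ (hh m) φ' N n z (uu t ^ 2 * x)‖ ≤ ε₁ * √(Mn L (hh m) φ' n z) := by
    intro t z hz
    have h2 := (n4 z hz _ (hξR t z hz)).2
    have h3 := n5 z hz (frXi (hh m) (em ρ) x n t z) (uu t ^ 2 * x) (hξR t z hz)
      (by rw [hux]; linarith) ((n6 t z hz).trans (min_le_left _ _))
    have h5 := norm_add_le (φ' n (BSL.dp σ (hh m) n z (frXi (hh m) (em ρ) x n t z))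
      - TayE σ (hh m) φ' N n z (frXi (hh m) (em ρ) x n t z))
      (TayE σ (hh m) φ' N n z (frXi (hh m) (em ρ) x n t z)
        - TayE σ (hh m) φ' N n z (uu t ^ 2 * x))
    rw [sub_add_sub_cancel] at h5
    linarith
  have hv : ∀ t, ∀ z ∈ K, ‖φ' n (BSL.dp σ (hh m) n z (frXi (hh m) (em ρ) x n t z))‖
      ≤ (C₁ + 1) * √(Mn L (hh m) φ' n z) := by
    intro t z hz
    have h2 := (n1 z hz _ (hξR t z hz)).2
    have h3 := n2 z hz _ (hξR t z hz)
    have h4 := norm_le_norm_add_norm_sub' (φ' n (BSL.dp σ (hh m) n z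
      (frXi (hh m) (em ρ) x n t z))) (TayE σ (hh m) φ' N₁ n z (frXi (hh m) (em ρ) x n t z))
    linarith
  have hb : ∀ t, ∀ z ∈ K, ‖TayE σ (hh m) φ' N n z (uu t ^ 2 * x)‖
      ≤ (C₁ + 2) * √(Mn L (hh m) φ' n z) := by
    intro t z hz
    have h2 := hcl t z hz
    have h3 := hv t z hz
    have h4 := norm_le_norm_add_norm_sub (φ' n (BSL.dp σ (hh m) n z
      (frXi (hh m) (em ρ) x n t z))) (TayE σ (hh m) φ' N n z (uu t ^ 2 * x))
    have h5 := Real.sqrt_nonneg (Mn L (hh m) φ' n z)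
    have h6 := mul_le_mul_of_nonneg_right hε₁1 h5
    linarith
  have hpt : ∀ z ∈ K, |angProd ρ (φ n) (m n) (fun _ : Fin 2 => x) (ofComplex z)
      - ∑ j ∈ Finset.Icc (-(N : ℤ)) N, ‖kap1 N j x‖ ^ 2 * ‖E σ (hh m) φ' j n z‖ ^ 2|
      ≤ ε₁ * M * Mn L (hh m) φ' n z := by
    intro z hz
    have hMn1 : 1 ≤ Mn L (hh m) φ' n z := one_le_Mn L n z
    have hsq : √(Mn L (hh m) φ' n z) ^ 2 = Mn L (hh m) φ' n z := Real.sq_sqrt (by linarith)
    have e1 : angProd ρ (φ n) (m n) (fun _ : Fin 2 => x) (ofComplex z) =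
        ∫ t, ‖φ' n (BSL.dp σ (hh m) n z (frXi (hh m) (em ρ) x n t z))‖ ^ 2 ∂ang := by
      unfold angProd
      refine integral_congr_ae (Eventually.of_forall fun t => ?_)
      beta_reduce
      rw [← n8 t z hz, Complex.norm_real, Fin.prod_univ_two, Real.norm_eq_abs, sq_abs, sq]
    have e2 : ∑ j ∈ Finset.Icc (-(N : ℤ)) N, ‖kap1 N j x‖ ^ 2 * ‖E σ (hh m) φ' j n z‖ ^ 2 =
        ∫ t, ‖TayE σ (hh m) φ' N n z (uu t ^ 2 * x)‖ ^ 2 ∂ang := by
      have h1 := parseval (Finset.Icc (-(N : ℤ)) N) (fun j => kap1 N j x * E σ (hh m) φ' j n z)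
      have h2 : ∀ t : ℝ, TayE σ (hh m) φ' N n z (uu t ^ 2 * x) =
          ∑ j ∈ Finset.Icc (-(N : ℤ)) N, (uu t ^ 2) ^ j * (kap1 N j x * E σ (hh m) φ' j n z) := by
        intro t
        rw [ROTP.Tay_rot (by rw [norm_pow, norm_uu, one_pow])]
        exact Finset.sum_congr rfl fun j _ => by ring
      simp only [h2]
      rw [h1]
      exact Finset.sum_congr rfl fun j _ => by rw [norm_mul, mul_pow]
    have c1 : Continuous fun t : ℝ =>
        φ' n (BSL.dp σ (hh m) n z (frXi (hh m) (em ρ) x n t z)) := by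
      have h1 : ContinuousOn (fun p : ℝ × ℂ =>
          BSL.dp σ (hh m) n p.2 (frXi (hh m) (em ρ) x n p.1 p.2)) (univ ×ˢ K) :=
        ROTP.dp_cont (ξ := frXi (hh m) (em ρ) x) A.loc.sm n7
      have h2 := h1.comp (Continuous.prodMk_left z).continuousOn (s := univ)
        fun t _ => ⟨mem_univ _, hz⟩
      exact hφc.comp (continuousOn_univ.1 h2)
    have c2 : Continuous fun t : ℝ => TayE σ (hh m) φ' N n z (uu t ^ 2 * x) := by
      have h1 := ROTP.Tay_cont (h := hh m) A.loc.sm A.loc.smφ N n x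
      have h2 := h1.comp (Continuous.prodMk_left z)
      exact h2
    have i1 : Integrable (fun t : ℝ =>
        ‖φ' n (BSL.dp σ (hh m) n z (frXi (hh m) (em ρ) x n t z))‖ ^ 2) ang := by
      refine Integrable.of_bound (c1.norm.pow 2).aestronglyMeasurable
        (((C₁ + 1) * √(Mn L (hh m) φ' n z)) ^ 2) (Eventually.of_forall fun t => ?_)
      rw [Real.norm_of_nonneg (by positivity)]
      exact pow_le_pow_left₀ (norm_nonneg _) (hv t z hz) 2
    have i2 : Integrable (fun t : ℝ =>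
        ‖TayE σ (hh m) φ' N n z (uu t ^ 2 * x)‖ ^ 2) ang := by
      refine Integrable.of_bound (c2.norm.pow 2).aestronglyMeasurable
        (((C₁ + 2) * √(Mn L (hh m) φ' n z)) ^ 2) (Eventually.of_forall fun t => ?_)
      rw [Real.norm_of_nonneg (by positivity)]
      exact pow_le_pow_left₀ (norm_nonneg _) (hb t z hz) 2
    rw [e1, e2, ← integral_sub i1 i2, ← Real.norm_eq_abs]
    have h3 : ∀ t : ℝ, ‖‖φ' n (BSL.dp σ (hh m) n z (frXi (hh m) (em ρ) x n t z))‖ ^ 2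
        - ‖TayE σ (hh m) φ' N n z (uu t ^ 2 * x)‖ ^ 2‖ ≤ ε₁ * M * Mn L (hh m) φ' n z := by
      intro t
      have h4 := sq_diff (M := M) (Q := √(Mn L (hh m) φ' n z)) (by
        have h5 := hv t z hz
        have h6 := hb t z hz
        rw [hM]
        linarith) (hcl t z hz)
      rw [hsq] at h4
      exact h4
    have h7 := norm_integral_le_of_norm_le_const (μ := ang) (Eventually.of_forall h3)
    simpa using h7
  have hMc : Continuous (Mn L (hh m) φ' n) := continuous_Mn (fun n => (A.loc.smφ n).continuous) L n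
  have hint : IntegrableOn (fun z => ε₁ * M * Mn L (hh m) φ' n z) K :=
    (continuous_const.mul hMc).continuousOn.integrableOn_compact hK
  calc ∫ z in K, |angProd ρ (φ n) (m n) (fun _ : Fin 2 => x) (ofComplex z)
        - ∑ j ∈ Finset.Icc (-(N : ℤ)) N, ‖kap1 N j x‖ ^ 2 * ‖E σ (hh m) φ' j n z‖ ^ 2|
      ≤ ∫ z in K, ε₁ * M * Mn L (hh m) φ' n z :=
        integral_mono_of_nonneg (Eventually.of_forall fun z => abs_nonneg _) hint
          ((ae_restrict_iff' hK.measurableSet).2 (Eventually.of_forall hpt))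
    _ = ε₁ * M * ∫ z in K, Mn L (hh m) φ' n z := integral_const_mul _ _
    _ ≤ ε₁ * M * |B| := mul_le_mul_of_nonneg_left (n3.trans (le_abs_self B)) (by positivity)
    _ ≤ ε := hε₁2

end

end PKM
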