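import Pool.Agent.PKM.St1
import Pool.Agent.BSL.TAY
import Pool.Agent.BSL.CUT
import Pool.Agent.BSL.UIF
import Pool.Agent.BSL.PTF
import Pool.Agent.BSL.ROTG
import Pool.Agent.BSL.ROTP

/-!
# CTN: the local waves are equicontinuous in the mean square (helper20)
-/

set_option autoImplicit false

open Complex MeasureTheory Filter Topology Set
open UpperHalfPlane hiding I
open scoped ContDiff MatrixGroups ProbabilityTheory ENNReal

namespace PKM

open QE QE.NC QJ U3 NFP BSL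

noncomputable section

namespace CTN

variable {Γ : Subgroup SL(2, ℝ)} {D : Set ℍ} {ρ : ℍ → ℝ} {φ : ℕ → ℍ → ℝ} {m : ℕ → ℝ}

/-- the points stay in the upper half plane, uniformly for bounded points -/
lemma ptU (hS : Sur Γ D ρ φ m) (R : ℝ) : ∀ᶠ n in atTop, ∀ x : ℂ, ‖x‖ ≤ R → ∀ z : ℍ,
    ‖x / ((m n * Real.exp (ρ z) : ℝ) : ℂ)‖ < 1 := by
  obtain ⟨B, hB⟩ := Berry.bdd_of_cocompact (UIF.rho_cont hS) hS.fac.inv hS.fac.cpt
  filter_upwards [hS.eig.tendsto.eventually_gt_atTop (R * Real.exp B)] with n hn x hx z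
  have hm : 0 < m n := lt_of_lt_of_le one_pos (hS.one n)
  rw [norm_div, Complex.norm_real, Real.norm_of_nonneg (by positivity),
    div_lt_one (mul_pos hm (Real.exp_pos _))]
  have h1 : Real.exp (-B) ≤ Real.exp (ρ z) := Real.exp_le_exp.2 (abs_le.1 (hB z)).1
  calc ‖x‖ ≤ R := hx
    _ = R * Real.exp B * Real.exp (-B) := by
        rw [mul_assoc, ← Real.exp_add, add_neg_cancel, Real.exp_zero, mul_one]
    _ < m n * Real.exp (-B) := by gcongr
    _ ≤ m n * Real.exp (ρ z) := by gcongr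

/-- the waves are continuous, uniformly for bounded points -/
lemma wcU (hS : Sur Γ D ρ φ m) (R : ℝ) :
    ∀ᶠ n in atTop, ∀ x : ℂ, ‖x‖ ≤ R → Continuous (Berry.rWave ρ (φ n) (m n) x) := by
  filter_upwards [ptU hS R] with n hn x hx
  exact rWave_continuous (UIF.phi_cont hS n) (UIF.rho_cont hS) (hn x hx)
    (lt_of_lt_of_le one_pos (hS.one n)).ne'

/-- the average over the angle of a function of two waves is invariant -/
lemma ang_inv2 {f : ℍ → ℝ} (hf : ∀ γ ∈ Γ, ∀ z, f (γ • z) = f z)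
    (hρ : ∀ γ ∈ Γ, ∀ z, ρ (γ • z) = ρ z) (c : ℝ) (x y : ℂ) (G : ℝ → ℝ → ℝ) : ∀ γ ∈ Γ, ∀ z,
    ∫ t, G (Berry.rWave ρ f c x (γ • z, t)) (Berry.rWave ρ f c y (γ • z, t)) ∂ang
      = ∫ t, G (Berry.rWave ρ f c x (z, t)) (Berry.rWave ρ f c y (z, t)) ∂ang := by
  intro γ hγ z
  obtain ⟨α, hα⟩ := Berry.mul_frame γ z
  have hper : Function.Periodic (fun θ => G (Berry.rWave ρ f c x (γ • z, θ))
      (Berry.rWave ρ f c y (γ • z, θ))) (2 * Real.pi) := by
    intro θ
    unfold Berry.rWave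
    simp only [Berry.frame_periodic]
  rw [← ang_shift hper α]
  congr 1; funext θ
  unfold Berry.rWave
  simp only
  rw [← hα θ, mul_smul, mul_smul, hf γ hγ, hf γ hγ, hρ γ hγ]

/-- the mean square of a combination of two waves -/
lemma mean [Countable Γ] (hS : Sur Γ D ρ φ m) {ζ : ℂ → ℝ} (hζ : CutF Γ D ρ ζ) {K : Set ℂ}
    (hK : IsCompact K) (hζK : ∀ z, z ∉ K → ζ z = 0) {B : ℝ} (hB : ∀ z, ζ z ≤ B) {n : ℕ} {x y : ℂ}
    (hx : Continuous (Berry.rWave ρ (φ n) (m n) x))
    (hy : Continuous (Berry.rWave ρ (φ n) (m n) y)) (c : ℝ) {M : ℂ → ℝ} (hM : Continuous M)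
    (hb : ∀ z ∈ K, ∀ t : ℝ, (Berry.rWave ρ (φ n) (m n) x (ofComplex z, t)
      - c * Berry.rWave ρ (φ n) (m n) y (ofComplex z, t)) ^ 2 ≤ M z) :
    ∫ p, (Berry.rWave ρ (φ n) (m n) x p - c * Berry.rWave ρ (φ n) (m n) y p) ^ 2
      ∂(Berry.rFrameProb ρ D) ≤ B * ∫ z in K, M z := by
  have hg := UIF.geo hS
  set G : ℍ × ℝ → ℝ := fun p => (Berry.rWave ρ (φ n) (m n) x p
    - c * Berry.rWave ρ (φ n) (m n) y p) ^ 2 with hG
  have hGc : Continuous G := (hx.sub (continuous_const.mul hy)).pow 2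
  have hGm : Measurable G := hGc.measurable
  -- boundedness
  obtain ⟨b, hbb⟩ := Berry.bdd_of_cocompact (UIF.phi_cont hS n)
    (fun γ hγ z => hS.eig.invariant n γ hγ z) hS.fac.cpt
  have hw : ∀ (x : ℂ) (p : ℍ × ℝ), |Berry.rWave ρ (φ n) (m n) x p| ≤ b := fun x p => hbb _
  have hb0 : 0 ≤ b := (abs_nonneg _).trans (hw 0 (UpperHalfPlane.I, 0))
  have hGb : ∀ p, ‖G p‖ ≤ (b + |c| * b) ^ 2 := by
    intro p
    rw [hG, norm_pow]
    refine pow_le_pow_left₀ (norm_nonneg _) ?_ 2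
    refine (norm_sub_le _ _).trans (add_le_add (hw _ _) ?_)
    rw [norm_mul]
    exact mul_le_mul_of_nonneg_left (hw _ _) (abs_nonneg _)
  set b' : ℝ := (b + |c| * b) ^ 2 with hb'
  set f : ℍ → ℝ := fun z => ∫ t, G (z, t) ∂ang with hf
  have hfm : Measurable f := (hGm.stronglyMeasurable.integral_prod_right').measurable
  have hfb : ∀ z, |f z| ≤ b' := by
    intro z
    have h2 : ‖f z‖ ≤ b' * ang.real univ :=
      norm_integral_le_of_norm_le_const (Eventually.of_forall fun t => hGb _)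
    simpa using h2
  have hfD : IntegrableOn f D (volume : Measure ℍ) := by
    have : IsFiniteMeasure ((volume : Measure ℍ).restrict D) :=
      ⟨by rw [Measure.restrict_apply_univ]; exact hg.fin.lt_top⟩
    exact Integrable.of_bound hfm.aestronglyMeasurable b' (Eventually.of_forall hfb)
  have hfi : ∀ γ ∈ Γ, ∀ z, f (γ • z) = f z := ang_inv2 (f := φ n)
    (fun γ hγ z => hS.eig.invariant n γ hγ z) hS.fac.inv (m n) x y (fun s t => (s - c * t) ^ 2)
  obtain ⟨h3, h4⟩ := hζ.int f hfm hfD hfi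
  have e1 : ∫ p, G p ∂(Berry.rFrameProb ρ D) = Berry.rAvg ρ D f := by
    have : IsProbabilityMeasure (ProbabilityTheory.cond (Berry.area ρ) D) := area_prob hg
    unfold Berry.rFrameProb Berry.rAvg
    rw [integral_prod]
    exact Integrable.of_bound hGm.aestronglyMeasurable b' (Eventually.of_forall fun p => hGb _)
  rw [e1, ← h4]
  have e2 : ∫ z, ζ z * f (ofComplex z) = ∫ z in K, ζ z * f (ofComplex z) := by
    rw [setIntegral_eq_integral_of_forall_compl_eq_zero]
    intro z hz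
    rw [hζK z hz, zero_mul]
  rw [e2, ← integral_const_mul]
  refine setIntegral_mono_on h3.integrableOn
    ((continuous_const.mul hM).continuousOn.integrableOn_compact hK) hK.measurableSet
    fun z hz => ?_
  have h5 : f (ofComplex z) ≤ M z := by
    have h6 : Integrable (fun t => G (ofComplex z, t)) ang :=
      Integrable.of_bound (hGc.comp (Continuous.prodMk_right _)).aestronglyMeasurable b'
        (Eventually.of_forall fun t => hGb _)
    calc f (ofComplex z) ≤ ∫ _t : ℝ, M z ∂ang := integral_mono h6 (integrable_const _)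
          fun t => hb z hz t
      _ = M z := by simp
  have h7 : 0 ≤ f (ofComplex z) := integral_nonneg fun t => sq_nonneg _
  calc ζ z * f (ofComplex z) ≤ B * f (ofComplex z) := mul_le_mul_of_nonneg_right (hB z) h7
    _ ≤ B * M z := mul_le_mul_of_nonneg_left h5 ((hζ.nonneg z).trans (hB z))

variable {V K : Set ℂ} {σ : ℂ → ℝ} {φ' : ℕ → ℂ → ℂ}

/-- the displacements, uniformly for bounded points -/
lemma disU (hρ : ContDiffOn ℝ ∞ (ro ρ) UH) (A : Agree V UH (gr ρ) (hh m) (ph φ) σ φ')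
    (hK : IsCompact K) (hKV : K ⊆ V) {R : ℝ} (hR : 0 ≤ R) {ε : ℝ} (hε : 0 < ε) :
    ∀ᶠ n in atTop, ∀ x : ℂ, ‖x‖ ≤ R → ∀ t, ∀ z ∈ K,
      ‖frXi (hh m) (em ρ) x n t z - uu t ^ 2 * x‖ ≤ ε := by
  have hKU : K ⊆ HH := hKV.trans A.sub
  have hpos : ∀ n, 0 < hh m n := A.loc.hpos
  have hlim : Tendsto (hh m) atTop (𝓝 0) := A.loc.hlim
  have heS := PTF.em_smooth hρ
  obtain ⟨M₀, hM₀⟩ := hK.exists_bound_of_continuousOn (heS.continuousOn.mono hKU)
  set M := |M₀| with hMdef
  have hM0 : 0 ≤ M := abs_nonneg _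
  have hM : ∀ z ∈ K, |em ρ z| ≤ M := fun z hz => (hM₀ z hz).trans (le_abs_self M₀)
  have hsmall : ∀ᶠ n in atTop, hh m n * (R * M) < 1 / 2 := by
    have := hlim.mul_const (R * M)
    rw [zero_mul] at this
    exact this.eventually_lt_const (by norm_num)
  have ht : Tendsto (fun n => 2 * R * (hh m n * (R * M))) atTop (𝓝 0) := by
    have := (hlim.mul_const (R * M)).const_mul (2 * R)
    simpa using this
  filter_upwards [hsmall, ht.eventually_lt_const hε] with n hn hn2 x hx t z hz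
  have hhn := (hpos n).le
  have hx0 := norm_nonneg x
  set c := (hh m n : ℂ) * x * uu t * Real.sin t * em ρ z with hc
  have h1 : ‖c‖ ≤ hh m n * (R * M) := by
    have h2 := norm_c_le hhn x t
    rw [hc, norm_mul _ ((em ρ z : ℝ) : ℂ), Complex.norm_real, Real.norm_eq_abs, ← mul_assoc]
    refine mul_le_mul (h2.trans ?_) (hM z hz) (abs_nonneg _) (by positivity)
    gcongr
  have h2 : 1 / 2 ≤ ‖1 + c‖ := by
    have h3 := norm_sub_norm_le (1 : ℂ) (-c)
    rw [norm_one, norm_neg, sub_neg_eq_add] at h3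
    linarith
  have hne : (1 + c) ≠ 0 := by
    intro h0; rw [h0, norm_zero] at h2; linarith
  have e1 : frXi (hh m) (em ρ) x n t z - uu t ^ 2 * x = -(x * uu t ^ 2 * c / (1 + c)) := by
    have e0 : frXi (hh m) (em ρ) x n t z = x * uu t ^ 2 / (1 + c) := rfl
    rw [e0]
    field_simp
    ring
  rw [e1, norm_neg, norm_div, norm_mul, norm_mul, norm_pow, norm_uu, one_pow, mul_one,
    div_le_iff₀ (by linarith)]
  calc ‖x‖ * ‖c‖ ≤ R * (hh m n * (R * M)) := by gcongr
    _ = (2 * R * (hh m n * (R * M))) * (1 / 2) := by ring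
    _ ≤ ε * ‖1 + c‖ := mul_le_mul hn2.le h2 (by norm_num) hε.le

/-- the displacements are bounded -/
lemma disB {R : ℝ} {x ξ : ℂ} {t : ℝ} (hx : ‖x‖ ≤ R) (h : ‖ξ - uu t ^ 2 * x‖ ≤ 1) :
    ‖ξ‖ ≤ R + 1 := by
  have e2 : ξ = (ξ - uu t ^ 2 * x) + uu t ^ 2 * x := by ring
  rw [e2]
  refine (norm_add_le _ _).trans ?_
  rw [norm_mul (uu t ^ 2), norm_pow, norm_uu, one_pow, one_mul]
  linarith

/-- the values of the waves in a chart, uniformly for bounded points -/
lemma valU (hS : Sur Γ D ρ φ m) (A : Agree V UH (gr ρ) (hh m) (ph φ) σ φ')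
    (hKV : K ⊆ V) (R : ℝ) :
    ∀ᶠ n in atTop, ∀ x : ℂ, ‖x‖ ≤ R → ∀ t, ∀ z ∈ K,
      dp σ (hh m) n z (frXi (hh m) (em ρ) x n t z) ∈ V →
      (Berry.rWave ρ (φ n) (m n) x (ofComplex z, t) : ℂ)
        = φ' n (dp σ (hh m) n z (frXi (hh m) (em ρ) x n t z)) := by
  have hKU : K ⊆ HH := hKV.trans A.sub
  filter_upwards [ptU hS R] with n n1 x hx t z hz hV
  have hm : 0 < m n := lt_of_lt_of_le one_pos (hS.one n)
  have h1 := rWave_eq_disp hm x t (hKU hz) (n1 x hx _) (n := n) (h := hh m) rfl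
    (a := ex σ (-1)) (PTF.a_eq A (hKV hz)) (φ := φ n)
  rw [h1, A.eφ n _ hV]
  unfold ph dp QE.em
  rw [mul_assoc]

end CTN

open CTN in
/-- **CTN** -/
theorem t_CTN : StmtCtn := by
  intro Γ _ D ρ φ m hS R₀
  obtain ⟨ζ, hζ⟩ := t_CUT Γ D ρ hS.mD hS.fd hS.fac
  set K : Set ℂ := tsupport (fun z => (ζ z : ℂ)) with hKdef
  have hK : IsCompact K := hζ.test.supp
  obtain ⟨V, F', σ, φ', hKV, -, -, -, A⟩ := stmtLcz UH (gr ρ) (hh m) (ph φ) isOpen_UH
    (U3.WGA.contDiffOn_gr hS.fac.smooth) (fun z hz => U3.WGA.gr_pos hz) hS.loc K hK hζ.test.sub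
  set R : ℝ := |R₀| with hRdef
  have hR : 0 ≤ R := abs_nonneg _
  have hRR : ∀ x : ℂ, ‖x‖ ≤ R₀ → ‖x‖ ≤ R := fun x hx => hx.trans (le_abs_self _)
  have H : LocB V σ (hh m) φ' := A.loc
  have hζc : Continuous ζ := by
    have := Complex.continuous_re.comp hζ.test.smooth.continuous
    exact this
  have hζ0 : ∀ z, z ∉ K → ζ z = 0 := by
    intro z hz
    have h1 : ((ζ z : ℝ) : ℂ) = 0 := by
      by_contra hne
      exact hz (subset_tsupport (fun z => (ζ z : ℂ)) hne)
    exact_mod_cast h1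
  obtain ⟨B₀, hB₀⟩ := hK.exists_bound_of_continuousOn hζc.continuousOn
  set B : ℝ := max B₀ 0 with hBdef
  have hB0 : 0 ≤ B := le_max_right _ _
  have hB : ∀ z, ζ z ≤ B := by
    intro z
    by_cases hz : z ∈ K
    · exact ((le_abs_self _).trans (hB₀ z hz)).trans (le_max_left _ _)
    · rw [hζ0 z hz]
      exact le_max_right _ _
  obtain ⟨L, hL, hTay⟩ := tAY V σ (hh m) φ' H K hK hKV (R + 1)
  obtain ⟨N₁, hN₁⟩ := hTay 1 one_pos
  obtain ⟨C₁, hC₁0, hC₁⟩ := ROTP.Tay_bd H hK hKV hL N₁ (R + 1)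
  obtain ⟨C₂, hC₂⟩ := ROTG.Mn_bdd H hK hKV hL.le
  have hMc : ∀ n, Continuous (Mn L (hh m) φ' n) :=
    continuous_Mn (fun n => (H.smφ n).continuous) L
  have hsq : ∀ n z, √(Mn L (hh m) φ' n z) ^ 2 = Mn L (hh m) φ' n z := fun n z =>
    Real.sq_sqrt (zero_le_one.trans (one_le_Mn L n z))
  have hD1 := disU hS.fac.smooth A hK hKV hR one_pos
  refine ⟨⟨B * ((C₁ + 1) ^ 2 * |C₂|), ?_⟩, fun η hη => ?_⟩
  · filter_upwards [hN₁ N₁ le_rfl, hC₁, hC₂, hD1, wcU hS R, valU hS A hKV R]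
      with n n1 n2 n3 n4 n5 n6 x hx
    have hxR := hRR x hx
    have key := mean hS hζ hK hζ0 hB (n5 x hxR) (n5 x hxR) 0
      (M := fun z => (C₁ + 1) ^ 2 * Mn L (hh m) φ' n z) (continuous_const.mul (hMc n))
      (fun z hz t => by
        have h1 := disB hxR (n4 x hxR t z hz)
        obtain ⟨h2, h3⟩ := n1 z hz _ h1
        have h4 := n2 z hz _ h1
        have h5 : ‖(Berry.rWave ρ (φ n) (m n) x (ofComplex z, t) : ℂ)‖
            ≤ (C₁ + 1) * √(Mn L (hh m) φ' n z) := by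
          rw [n6 x hxR t z hz h2]
          have h6 := norm_le_norm_add_norm_sub' (φ' n (dp σ (hh m) n z
            (frXi (hh m) (em ρ) x n t z))) (TayE σ (hh m) φ' N₁ n z
            (frXi (hh m) (em ρ) x n t z))
          linarith
        rw [Complex.norm_real, Real.norm_eq_abs] at h5
        rw [zero_mul, sub_zero, ← sq_abs]
        calc |Berry.rWave ρ (φ n) (m n) x (ofComplex z, t)| ^ 2
            ≤ ((C₁ + 1) * √(Mn L (hh m) φ' n z)) ^ 2 := pow_le_pow_left₀ (abs_nonneg _) h5 2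
          _ = _ := by rw [mul_pow, hsq])
    simp only [zero_mul, sub_zero] at key
    refine key.trans ?_
    rw [integral_const_mul]
    have := n3.trans (le_abs_self C₂)
    gcongr
  · set ε : ℝ := √(η / (9 * (B * |C₂| + 1))) with hεdef
    have hden : 0 < 9 * (B * |C₂| + 1) := by positivity
    have hε : 0 < ε := Real.sqrt_pos.2 (div_pos hη hden)
    have hε2 : 9 * ε ^ 2 * (B * |C₂|) ≤ η := by
      rw [hεdef, Real.sq_sqrt (div_pos hη hden).le]
      have h1 : 0 ≤ B * |C₂| := by positivity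
      have h2 : 9 * (η / (9 * (B * |C₂| + 1))) * (B * |C₂|)
          = η * ((B * |C₂|) / (B * |C₂| + 1)) := by
        field_simp
      rw [h2]
      have h3 : (B * |C₂|) / (B * |C₂| + 1) ≤ 1 := by
        rw [div_le_one (by positivity)]
        linarith
      calc η * ((B * |C₂|) / (B * |C₂| + 1)) ≤ η * 1 := by gcongr
        _ = η := mul_one _
    obtain ⟨N, hN⟩ := hTay ε hε
    obtain ⟨δ, hδ, hmod⟩ := ROTP.Tay_mod H hK hKV hL N (R + 1) hε
    refine ⟨δ / 3, by positivity, ?_⟩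
    filter_upwards [hN N le_rfl, hmod, hC₂, hD1, wcU hS R, valU hS A hKV R,
      disU hS.fac.smooth A hK hKV hR (show 0 < δ / 3 by positivity)]
      with n n1 n2 n3 n4 n5 n6 n7 x y hx hy hxy
    have hxR := hRR x hx
    have hyR := hRR y hy
    have key := mean hS hζ hK hζ0 hB (n5 x hxR) (n5 y hyR) 1
      (M := fun z => 9 * ε ^ 2 * Mn L (hh m) φ' n z) (continuous_const.mul (hMc n))
      (fun z hz t => by
        have hx1 := disB hxR (n4 x hxR t z hz)
        have hy1 := disB hyR (n4 y hyR t z hz)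
        obtain ⟨hx2, hx3⟩ := n1 z hz _ hx1
        obtain ⟨hy2, hy3⟩ := n1 z hz _ hy1
        set ξ := frXi (hh m) (em ρ) x n t z with hξ
        set υ := frXi (hh m) (em ρ) y n t z with hυ
        have h1 : ‖ξ - υ‖ ≤ δ := by
          have h2 := n7 x hxR t z hz
          have h3 := n7 y hyR t z hz
          have e : ξ - υ = (ξ - uu t ^ 2 * x) - (υ - uu t ^ 2 * y) + uu t ^ 2 * (x - y) := by
            ring
          have h4 : ‖uu t ^ 2 * (x - y)‖ = ‖x - y‖ := by
            rw [norm_mul, norm_pow, norm_uu, one_pow, one_mul]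
          rw [e]
          refine (norm_add_le _ _).trans ?_
          have h5 := norm_sub_le (ξ - uu t ^ 2 * x) (υ - uu t ^ 2 * y)
          rw [h4]
          linarith
        have h2 := n2 z hz ξ υ hx1 hy1 h1
        have h5 : ‖((Berry.rWave ρ (φ n) (m n) x (ofComplex z, t)
            - 1 * Berry.rWave ρ (φ n) (m n) y (ofComplex z, t) : ℝ) : ℂ)‖
            ≤ 3 * ε * √(Mn L (hh m) φ' n z) := by
          rw [one_mul, Complex.ofReal_sub, n6 x hxR t z hz hx2, n6 y hyR t z hz hy2]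
          have e : φ' n (dp σ (hh m) n z ξ) - φ' n (dp σ (hh m) n z υ)
              = (φ' n (dp σ (hh m) n z ξ) - TayE σ (hh m) φ' N n z ξ)
                + (TayE σ (hh m) φ' N n z ξ - TayE σ (hh m) φ' N n z υ)
                - (φ' n (dp σ (hh m) n z υ) - TayE σ (hh m) φ' N n z υ) := by ring
          rw [e]
          refine (norm_sub_le _ _).trans ?_
          refine (add_le_add (norm_add_le _ _) le_rfl).trans ?_
          linarith
        rw [Complex.norm_real, Real.norm_eq_abs] at h5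
        rw [← sq_abs]
        calc |Berry.rWave ρ (φ n) (m n) x (ofComplex z, t)
            - 1 * Berry.rWave ρ (φ n) (m n) y (ofComplex z, t)| ^ 2
            ≤ (3 * ε * √(Mn L (hh m) φ' n z)) ^ 2 := pow_le_pow_left₀ (abs_nonneg _) h5 2
          _ = 9 * ε ^ 2 * √(Mn L (hh m) φ' n z) ^ 2 := by ring
          _ = _ := by rw [hsq])
    simp only [one_mul] at key
    refine key.trans ?_
    rw [integral_const_mul]
    have h8 := n3.trans (le_abs_self C₂)
    calc B * (9 * ε ^ 2 * ∫ z in K, Mn L (hh m) φ' n z) ≤ B * (9 * ε ^ 2 * |C₂|) := by gcongr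
      _ = 9 * ε ^ 2 * (B * |C₂|) := by ring
      _ ≤ η := hε2

end

end PKM
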