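import Pool.Agent.PKM.St1
import Pool.Agent.BSL.ORD

/-!
# Domination in measure (module PKM_DMN)
-/

set_option autoImplicit false

open Complex MeasureTheory Filter Topology Set
open UpperHalfPlane hiding I
open scoped ContDiff MatrixGroups ProbabilityTheory ENNReal

namespace PKM

open QE QE.NC QJ U3 NFP BSL

noncomputable section

namespace DMN

variable {Γ : Subgroup SL(2, ℝ)} {D : Set ℍ} {ρ : ℍ → ℝ} {φ : ℕ → ℍ → ℝ} {m : ℕ → ℝ}

/-- a continuous function times `ζ` is integrable, and the integral is bounded by the one over `K` -/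
lemma integrable_mul {ζ f : ℂ → ℝ} {K : Set ℂ} (hK : IsCompact K) (hζ : Continuous ζ)
    (h0 : ∀ z, z ∉ K → ζ z = 0) (hf : ContinuousOn f K) : Integrable (fun z => ζ z * f z) := by
  have h1 : IntegrableOn (fun z => ζ z * f z) K := (hζ.continuousOn.mul hf).integrableOn_compact hK
  refine (integrableOn_iff_integrable_of_support_subset ?_).1 h1
  intro z hz
  by_contra h
  exact hz (by simp only [h0 z h, zero_mul])

lemma integral_le {ζ f : ℂ → ℝ} {K : Set ℂ} {B : ℝ} (hK : IsCompact K) (hζ : Continuous ζ)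
    (h0 : ∀ z, z ∉ K → ζ z = 0) (hB : ∀ z, ζ z ≤ B) (hf : ContinuousOn f K)
    (hf0 : ∀ z, 0 ≤ f z) : ∫ z, ζ z * f z ≤ B * ∫ z in K, f z := by
  have e : ∫ z, ζ z * f z = ∫ z in K, ζ z * f z := by
    rw [setIntegral_eq_integral_of_forall_compl_eq_zero]
    intro z hz
    rw [h0 z hz, zero_mul]
  rw [e, ← integral_const_mul]
  refine setIntegral_mono_on ((hζ.continuousOn.mul hf).integrableOn_compact hK)
    ((continuousOn_const.mul hf).integrableOn_compact hK) hK.measurableSet fun z _ => ?_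
  exact mul_le_mul_of_nonneg_right (hB z) (hf0 z)

/-- Cauchy-Schwarz for a weighted sum -/
lemma sq_sum_le {ι : Type*} (s : Finset ι) (w a : ι → ℝ) (hw : ∀ i ∈ s, 0 ≤ w i) :
    (∑ i ∈ s, w i * a i) ^ 2 ≤ (∑ i ∈ s, w i) * ∑ i ∈ s, w i * a i ^ 2 := by
  refine Finset.sum_sq_le_sum_mul_sum_of_sq_le_mul s hw
    (fun i hi => mul_nonneg (hw i hi) (sq_nonneg _)) fun i _ => le_of_eq ?_
  ring

end DMN

open DMN in
/-- **DMN**: `φₙ²` is dominated by the sum of a function which is bounded in `L²` and a function which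
is small in `L¹`. -/
theorem t_DMN (h1 : StmtPrb) (h2 : StmtEqd) (h3 : StmtDen) (h4 : StmtJbd) (h5 : StmtAng)
    (h6 : StmtWev) : StmtDmn := by
  intro Γ _ D ρ φ m hS Ω _ P _ F hFm hF hL μ hμ ζ hζ
  have hE := h2 Γ D ρ φ m hS Ω P F hFm hF hL
  obtain ⟨s, hSem, -, hma⟩ := h3 ρ φ m μ hS.fac.smooth hS.loc hE hμ
  set K : Set ℂ := tsupport (fun z => (ζ z : ℂ)) with hKdef
  have hK : IsCompact K := hζ.test.supp
  have hKU : K ⊆ UH := hζ.test.sub
  have hKm : MeasurableSet K := hK.measurableSet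
  obtain ⟨V, F', σ, φ', hKV, -, -, -, hA⟩ := stmtLcz UH (gr ρ) (hh m) (ph φ) isOpen_UH
    (U3.WGA.contDiffOn_gr hS.fac.smooth) (fun z hz => U3.WGA.gr_pos hz) hS.loc K hK hζ.test.sub
  have hζV : Test V (fun z => (ζ z : ℂ)) := ⟨hζ.test.smooth, hζ.test.supp, hKV⟩
  have hζc : Continuous ζ := by
    have := Complex.continuous_re.comp hζ.test.smooth.continuous
    exact this
  have hζ0 : ∀ z, z ∉ K → ζ z = 0 := by
    intro z hz
    have h1 : ((ζ z : ℝ) : ℂ) = 0 := by
      by_contra hne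
      exact hz (subset_tsupport (fun z => (ζ z : ℂ)) hne)
    exact_mod_cast h1
  obtain ⟨B, hB0, hB⟩ : ∃ B : ℝ, 0 ≤ B ∧ ∀ z, ζ z ≤ B := by
    obtain ⟨B, hB⟩ := hK.exists_bound_of_continuousOn hζc.continuousOn
    refine ⟨max B 0, le_max_right _ _, fun z => ?_⟩
    by_cases hz : z ∈ K
    · exact ((le_abs_self _).trans (hB z hz)).trans (le_max_left _ _)
    · rw [hζ0 z hz]
      exact le_max_right _ _
  -- the total mass
  have hζi : Integrable ζ := by
    have := integrable_mul (f := fun _ => (1 : ℝ)) hK hζc hζ0 continuousOn_const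
    simpa using this
  have hζ1 : ∫ z, ζ z = 1 := by
    refine tendsto_nhds_unique (hE ζ hζ.test) ?_
    simp only [ORD.mass hS hζ]
    exact tendsto_const_nhds
  have hma1 : ∫ z, ζ z * ma s z ^ 2 = 1 := by
    rw [← hζ1]
    refine integral_congr_ae ?_
    have h7 : ∀ᵐ z ∂(volume : Measure ℂ), z ∈ UH → ma s z = 1 :=
      (ae_restrict_iff' isOpen_UH.measurableSet).1 hma
    filter_upwards [h7] with z hz
    by_cases hzK : z ∈ K
    · rw [hz (hKU hzK), one_pow, mul_one]
    · rw [hζ0 z hzK, zero_mul]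
  refine ⟨1850, fun ε hε => ?_⟩
  obtain ⟨r, c, x, hc0, hc1, -, hQ1⟩ := h1 Γ D ρ φ m hS Ω P F hFm hF hL ζ hζ (ε / 20)
    (by positivity)
  -- the weights
  set δ : ℝ := ε / (20 * (B + 1)) with hδ
  have hδ0 : 0 < δ := by positivity
  have hAN : ∀ i, ∃ N₀ : ℕ, ∀ N ≥ N₀, ∀ᶠ n in atTop,
      ∫ z in K, |angProd ρ (φ n) (m n) (fun _ : Fin 2 => x i) (ofComplex z)
        - ∑ j ∈ Finset.Icc (-(N : ℤ)) N, ‖kap1 N j (x i)‖ ^ 2 * ‖E σ (hh m) φ' j n z‖ ^ 2| ≤ δ :=
    fun i => h5 Γ D ρ φ m hS V σ φ' hA K hK hKV (x i) δ hδ0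
  choose N₀ hN₀ using hAN
  set W : ℕ → ℝ := fun N => ∑ i, c i * wEv N (x i) with hW
  have hWl : Tendsto W atTop (𝓝 (∑ i, c i * ((1 + Berry.waveK (2 * x i)) / 2))) :=
    tendsto_finsetSum _ fun i _ => (h6.1 (x i)).const_mul _
  have hWlo : 1 / 4 ≤ ∑ i, c i * ((1 + Berry.waveK (2 * x i)) / 2) := by
    calc (1 / 4 : ℝ) = ∑ i, c i * (1 / 4) := by rw [← Finset.sum_mul, hc1, one_mul]
      _ ≤ _ := Finset.sum_le_sum fun i _ => by
        refine mul_le_mul_of_nonneg_left ?_ (hc0 i)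
        have := h6.2 (2 * x i)
        linarith
  have hWhi : ∑ i, c i * ((1 + Berry.waveK (2 * x i)) / 2) ≤ 1 := by
    calc _ ≤ ∑ i, c i * 1 := Finset.sum_le_sum fun i _ => by
          refine mul_le_mul_of_nonneg_left ?_ (hc0 i)
          have := Berry.waveK_abs_le (2 * x i)
          have := (abs_le.1 this).2
          linarith
      _ = 1 := by rw [← Finset.sum_mul, hc1, one_mul]
  obtain ⟨N, hN1, hN2, hN3⟩ : ∃ N : ℕ, (∀ i, N₀ i ≤ N) ∧ 1 / 5 ≤ W N ∧ W N ≤ 2 := by
    have e1 : ∀ᶠ N in atTop, ∀ i, N₀ i ≤ N := eventually_all.2 fun i => eventually_ge_atTop _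
    have e2 : ∀ᶠ N in atTop, 1 / 5 < W N := hWl.eventually (lt_mem_nhds (by linarith))
    have e3 : ∀ᶠ N in atTop, W N < 2 := hWl.eventually (gt_mem_nhds (by linarith))
    obtain ⟨N, hN⟩ := (e1.and (e2.and e3)).exists
    exact ⟨N, hN.1, hN.2.1.le, hN.2.2.le⟩
  set I : Finset ℤ := Finset.Icc (-(N : ℤ)) N with hI
  set I₂ : Finset ℤ := I.filter (fun j => Even j) with hI₂
  set w : ℤ → ℝ := fun j => ∑ i, c i * ‖kap1 N j (x i)‖ ^ 2 with hw
  have hw0 : ∀ j, 0 ≤ w j := fun j => Finset.sum_nonneg fun i _ =>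
    mul_nonneg (hc0 i) (sq_nonneg _)
  have hWw : W N = ∑ j ∈ I₂, w j := by
    simp only [hW, hw, wEv, Finset.mul_sum]
    rw [Finset.sum_comm]
  have hev : ∀ᶠ n in atTop, ∀ j ∈ I₂,
      ∫ z, ζ z * (‖E σ (hh m) φ' 0 n z‖ ^ 2 - ‖E σ (hh m) φ' j n z‖ ^ 2) ^ 2 ≤ 9 := by
    rw [Finset.eventually_all]
    intro j hj
    have h8 := h4 Γ D ρ φ m s hS hSem V σ φ' hA ζ hζV hζ.nonneg j (Finset.mem_filter.1 hj).2 1
      one_pos
    rw [hma1] at h8
    filter_upwards [h8] with n hn
    linarith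
  have hang : ∀ᶠ n in atTop, ∀ i, Continuous (angProd ρ (φ n) (m n) (fun _ : Fin 2 => x i)) := by
    filter_upwards [UIF.pt hS x] with n hn i
    exact angProd_continuous (UIF.phi_cont hS n) (UIF.rho_cont hS) (fun _ => hn i)
      (lt_of_lt_of_le one_pos (hS.one n)).ne'
  filter_upwards [hQ1, eventually_all.2 fun i => hN₀ i N (hN1 i), hev, hang] with n g1 g2 g3 g4
  -- the functions
  set Ej : ℤ → ℂ → ℝ := fun j z => ‖E σ (hh m) φ' j n z‖ ^ 2 with hEj
  have hEc : ∀ j, Continuous (Ej j) := fun j =>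
    ((E3Z.contDiff_E hA.loc.sm hA.loc.smφ j n).continuous.norm).pow 2
  set Ai : Fin r → ℂ → ℝ := fun i z => angProd ρ (φ n) (m n) (fun _ : Fin 2 => x i) (ofComplex z)
    with hAi
  have hAc : ∀ i, ContinuousOn (Ai i) K := by
    intro i z hz
    have h9 : ContinuousAt (ofComplex : ℂ → ℍ) z :=
      (contMDiffAt_ofComplex (n := 0) (hKU hz)).continuousAt
    exact ((g4 i).continuousAt.comp h9).continuousWithinAt
  set Q : ℂ → ℝ := fun z => ∑ i, c i * Ai i z with hQ
  set S : ℂ → ℝ := fun z => ∑ j ∈ I, w j * Ej j z with hSdef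
  set T : ℂ → ℝ := fun z => ∑ j ∈ I₂, w j * (Ej 0 z - Ej j z) with hT
  have hQc : ContinuousOn Q K := continuousOn_finsetSum _ fun i _ => continuousOn_const.mul (hAc i)
  have hSc : Continuous S := continuous_finsetSum _ fun j _ => continuous_const.mul (hEc j)
  have hTc : Continuous T := continuous_finsetSum _ fun j _ =>
    continuous_const.mul ((hEc 0).sub (hEc j))
  set d : ℂ → ℝ := fun z => 5 * (|T z| + 1) with hd
  set e : ℂ → ℝ := fun z => 5 * (|Q z - 1| + |Q z - S z|) with he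
  have hdc : Continuous d := continuous_const.mul (hTc.abs.add continuous_const)
  have hec1 : ContinuousOn (fun z => |Q z - 1|) K := (hQc.sub continuousOn_const).abs
  have hec2 : ContinuousOn (fun z => |Q z - S z|) K := (hQc.sub hSc.continuousOn).abs
  have hec : ContinuousOn e K := continuousOn_const.mul (hec1.add hec2)
  have hd0 : ∀ z, 0 ≤ d z := fun z =>
    mul_nonneg (by norm_num) (add_nonneg (abs_nonneg _) zero_le_one)
  have he0 : ∀ z, 0 ≤ e z := fun z =>
    mul_nonneg (by norm_num) (add_nonneg (abs_nonneg _) (abs_nonneg _))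
  refine ⟨d, e, hd0, he0,
    integrable_mul hK hζc hζ0 (hdc.pow 2).continuousOn, integrable_mul hK hζc hζ0 hec, ?_, ?_, ?_⟩
  · -- the domination
    intro z hz
    have k1 : φ n (ofComplex z) ^ 2 = Ej 0 z := by
      have k2 : E σ (hh m) φ' 0 n z = φ' n z := rfl
      simp only [hEj]
      rw [k2, hA.eφ n z (hKV hz)]
      simp only [ph, Complex.norm_real, Real.norm_eq_abs, sq_abs]
    have k3 : W N * Ej 0 z = T z + ∑ j ∈ I₂, w j * Ej j z := by
      rw [hWw, Finset.sum_mul]
      simp only [hT]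
      rw [← Finset.sum_add_distrib]
      exact Finset.sum_congr rfl fun j _ => by ring
    have k4 : ∑ j ∈ I₂, w j * Ej j z ≤ S z :=
      Finset.sum_le_sum_of_subset_of_nonneg (Finset.filter_subset _ _) fun j _ _ =>
        mul_nonneg (hw0 j) (sq_nonneg _)
    have k5 : S z ≤ 1 + |Q z - 1| + |Q z - S z| := by
      have a1 := neg_abs_le (Q z - S z)
      have a2 := le_abs_self (Q z - 1)
      linarith
    have k6 : T z ≤ |T z| := le_abs_self _
    have k7 : 0 ≤ Ej 0 z := sq_nonneg _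
    rw [k1]
    simp only [hd, he]
    nlinarith
  · -- the bound in the mean square
    have k1 : ∫ z, ζ z * T z ^ 2 ≤ 36 := by
      have a1 : ∀ z, ζ z * T z ^ 2 ≤ W N * ∑ j ∈ I₂, w j * (ζ z * (Ej 0 z - Ej j z) ^ 2) := by
        intro z
        have := sq_sum_le I₂ w (fun j => Ej 0 z - Ej j z) (fun j _ => hw0 j)
        rw [← hWw] at this
        calc ζ z * T z ^ 2 ≤ ζ z * (W N * ∑ j ∈ I₂, w j * (Ej 0 z - Ej j z) ^ 2) :=
              mul_le_mul_of_nonneg_left this (hζ.nonneg z)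
          _ = W N * ∑ j ∈ I₂, w j * (ζ z * (Ej 0 z - Ej j z) ^ 2) := by
              rw [Finset.mul_sum, Finset.mul_sum, Finset.mul_sum]
              exact Finset.sum_congr rfl fun j _ => by ring
      have i1 : ∀ j, Integrable fun z => ζ z * (Ej 0 z - Ej j z) ^ 2 := fun j =>
        integrable_mul hK hζc hζ0 (((hEc 0).sub (hEc j)).pow 2).continuousOn
      have i2 : Integrable fun z => W N * ∑ j ∈ I₂, w j * (ζ z * (Ej 0 z - Ej j z) ^ 2) :=
        (integrable_finsetSum _ fun j _ => (i1 j).const_mul _).const_mul _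
      calc ∫ z, ζ z * T z ^ 2 ≤ ∫ z, W N * ∑ j ∈ I₂, w j * (ζ z * (Ej 0 z - Ej j z) ^ 2) :=
            integral_mono (integrable_mul hK hζc hζ0 (hTc.pow 2).continuousOn) i2 a1
        _ = W N * ∑ j ∈ I₂, w j * ∫ z, ζ z * (Ej 0 z - Ej j z) ^ 2 := by
            rw [integral_const_mul, integral_finsetSum _ fun j _ => (i1 j).const_mul _]
            simp only [integral_const_mul]
        _ ≤ W N * ∑ j ∈ I₂, w j * 9 := by
            refine mul_le_mul_of_nonneg_left ?_ (by linarith)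
            exact Finset.sum_le_sum fun j hj => mul_le_mul_of_nonneg_left (g3 j hj) (hw0 j)
        _ = W N * (W N * 9) := by rw [← Finset.sum_mul, ← hWw]
        _ ≤ 36 := by nlinarith
    have i1 : Integrable fun z => ζ z * T z ^ 2 := integrable_mul hK hζc hζ0 (hTc.pow 2).continuousOn
    calc ∫ z, ζ z * d z ^ 2 ≤ ∫ z, (50 * (ζ z * T z ^ 2) + 50 * ζ z) := by
          refine integral_mono (integrable_mul hK hζc hζ0 (hdc.pow 2).continuousOn)
            ((i1.const_mul _).add (hζi.const_mul _)) fun z => ?_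
          beta_reduce
          have b1 : d z ^ 2 ≤ 50 * T z ^ 2 + 50 := by
            simp only [hd]
            have b2 := sq_abs (T z)
            nlinarith [sq_nonneg (|T z| - 1)]
          have b3 := mul_le_mul_of_nonneg_left b1 (hζ.nonneg z)
          linarith
      _ = 50 * (∫ z, ζ z * T z ^ 2) + 50 * ∫ z, ζ z := by
          rw [integral_add (i1.const_mul _) (hζi.const_mul _), integral_const_mul,
            integral_const_mul]
      _ ≤ 1850 := by
          rw [hζ1]
          linarith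
  · -- the bound in the mean
    have i1 : Integrable fun z => ζ z * |Q z - 1| := integrable_mul hK hζc hζ0 hec1
    have i2 : Integrable fun z => ζ z * |Q z - S z| := integrable_mul hK hζc hζ0 hec2
    have k0 : ∀ z, Q z - S z = ∑ i, c i * (Ai i z
        - ∑ j ∈ I, ‖kap1 N j (x i)‖ ^ 2 * Ej j z) := by
      intro z
      simp only [hQ, hSdef, hw, mul_sub, Finset.sum_sub_distrib, Finset.mul_sum, Finset.sum_mul]
      rw [Finset.sum_comm (s := I)]
      congr 1
      exact Finset.sum_congr rfl fun i _ => Finset.sum_congr rfl fun j _ => by ring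
    have k1 : ∫ z in K, |Q z - S z| ≤ δ := by
      have c1 : ∀ i, ContinuousOn (fun z => |Ai i z - ∑ j ∈ I, ‖kap1 N j (x i)‖ ^ 2 * Ej j z|) K :=
        fun i => ((hAc i).sub (continuous_finsetSum _ fun j _ =>
          continuous_const.mul (hEc j)).continuousOn).abs
      have j1 : ∀ i, Integrable (fun z => c i * |Ai i z - ∑ j ∈ I, ‖kap1 N j (x i)‖ ^ 2 * Ej j z|)
          (volume.restrict K) := fun i => ((c1 i).integrableOn_compact hK).const_mul _
      calc ∫ z in K, |Q z - S z|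
          ≤ ∫ z in K, ∑ i, c i * |Ai i z - ∑ j ∈ I, ‖kap1 N j (x i)‖ ^ 2 * Ej j z| := by
            refine integral_mono (hec2.integrableOn_compact hK)
              (integrable_finsetSum _ fun i _ => j1 i) fun z => ?_
            beta_reduce
            rw [k0 z]
            refine (Finset.abs_sum_le_sum_abs _ _).trans (le_of_eq ?_)
            exact Finset.sum_congr rfl fun i _ => by rw [abs_mul, abs_of_nonneg (hc0 i)]
        _ = ∑ i, c i * ∫ z in K, |Ai i z - ∑ j ∈ I, ‖kap1 N j (x i)‖ ^ 2 * Ej j z| := by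
            rw [integral_finsetSum _ fun i _ => j1 i]
            simp only [integral_const_mul]
        _ ≤ ∑ i, c i * δ := Finset.sum_le_sum fun i _ => mul_le_mul_of_nonneg_left (g2 i) (hc0 i)
        _ = δ := by rw [← Finset.sum_mul, hc1, one_mul]
    have k2 : ∫ z, ζ z * |Q z - S z| ≤ B * δ :=
      (integral_le hK hζc hζ0 hB hec2 fun z => abs_nonneg _).trans
        (mul_le_mul_of_nonneg_left k1 hB0)
    have k3 : B * δ ≤ ε / 20 := by
      rw [hδ]
      rw [← mul_div_assoc, div_le_div_iff₀ (by positivity) (by norm_num)]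
      nlinarith
    calc ∫ z, ζ z * e z = ∫ z, (5 * (ζ z * |Q z - 1|) + 5 * (ζ z * |Q z - S z|)) := by
          refine integral_congr_ae (Eventually.of_forall fun z => ?_)
          simp only [he]
          ring
      _ = 5 * (∫ z, ζ z * |Q z - 1|) + 5 * ∫ z, ζ z * |Q z - S z| := by
          rw [integral_add (i1.const_mul _) (i2.const_mul _), integral_const_mul,
            integral_const_mul]
      _ ≤ ε := by
          have : ∫ z, ζ z * |Q z - 1| ≤ ε / 20 := g1
          linarith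

end

end PKM
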