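import Pool.Agent.PKM.St1
import Pool.Agent.BSL.CUT
import Pool.Agent.BSL.ORD

/-!
# EQD: the mass is equidistributed (helper89)
-/

set_option autoImplicit false

open Complex MeasureTheory Filter Topology Set
open UpperHalfPlane hiding I
open scoped ContDiff MatrixGroups ProbabilityTheory ENNReal

namespace PKM

open QE QE.NC QJ U3 NFP BSL

noncomputable section

theorem t_EQD (hP : StmtPrb) : StmtEqd := by
  intro Γ _ D ρ φ m hS Ω _ P _ F hF hL hLL ψ hψ
  obtain ⟨ζ, hζ⟩ := t_CUT Γ D ρ hS.mD hS.fd hS.fac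
  have hψ1 : Continuous ψ := by
    have := Complex.continuous_re.comp hψ.smooth.continuous
    exact this
  have hψ2 : HasCompactSupport ψ := by
    have := hψ.supp
    unfold HasCompactSupport at this ⊢
    rwa [BSL.ORD.tsup] at this
  have hψ3 : tsupport ψ ⊆ UH := by
    have := hψ.sub
    rwa [BSL.ORD.tsup] at this
  have hK : IsCompact (tsupport ψ) := hψ2
  obtain ⟨B, hB⟩ := hψ2.exists_bound_of_continuous hψ1
  have hB0 : 0 ≤ B := (norm_nonneg _).trans (hB 0)
  obtain ⟨C, hC0, hC⟩ := QE.loc_le (UIF.geo hS) (UIF.rho_cont hS) hS.fac.cpt hK hψ3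
  have hBC : 0 ≤ B * C := mul_nonneg hB0 hC0
  rw [Metric.tendsto_nhds]
  intro ε hε
  have hδ : 0 < ε / (2 * (B * C + 1)) := by positivity
  obtain ⟨r, c, x, -, hc1, -, h2⟩ := hP Γ D ρ φ m hS Ω P F hF hL hLL ζ hζ _ hδ
  have hi : ∀ i, Tendsto (fun n => c i *
      ((∫ z, ψ z * angProd ρ (φ n) (m n) (fun _ : Fin 2 => x i) (ofComplex z))
        - ∫ z, ψ z * φ n (ofComplex z) ^ 2)) atTop (𝓝 0) := by
    intro i
    have h3 := ((ORD.pts hS hψ).2 (fun _ : Fin 2 => x i)).const_mul (c i)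
    simp only [sub_self, Berry.waveK_zero, one_mul, mul_zero] at h3
    exact h3
  have hs : Tendsto (fun n => ∑ i, c i *
      ((∫ z, ψ z * angProd ρ (φ n) (m n) (fun _ : Fin 2 => x i) (ofComplex z))
        - ∫ z, ψ z * φ n (ofComplex z) ^ 2)) atTop (𝓝 0) := by
    have h3 := tendsto_finsetSum (Finset.univ : Finset (Fin r)) fun i _ => hi i
    simpa using h3
  have hs2 := (Metric.tendsto_nhds.1 hs) (ε / 2) (by positivity)
  filter_upwards [hs2, h2, UIF.pt hS x] with n hn1 hn2 hn3
  have hm0 : m n ≠ 0 := (lt_of_lt_of_le one_pos (hS.one n)).ne'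
  have hac : ∀ i, Continuous (angProd ρ (φ n) (m n) (fun _ : Fin 2 => x i)) := fun i =>
    angProd_continuous (UIF.phi_cont hS n) (UIF.rho_cont hS) (fun _ => hn3 i) hm0
  have hgc : Continuous fun z => ∑ i, c i * angProd ρ (φ n) (m n) (fun _ : Fin 2 => x i) z :=
    continuous_finset_sum _ fun i _ => continuous_const.mul (hac i)
  have hfc : Continuous fun z =>
      |∑ i, c i * angProd ρ (φ n) (m n) (fun _ : Fin 2 => x i) z - 1| :=
    (hgc.sub continuous_const).abs
  have hfi : ∀ γ ∈ Γ, ∀ z,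
      |∑ i, c i * angProd ρ (φ n) (m n) (fun _ : Fin 2 => x i) (γ • z) - 1| =
        |∑ i, c i * angProd ρ (φ n) (m n) (fun _ : Fin 2 => x i) z - 1| := by
    intro γ hγ z
    simp only [angProd_inv (hS.eig.invariant n) hS.fac.inv (m n) _ γ hγ z]
  obtain ⟨b, hb⟩ := Berry.bdd_of_cocompact hfc hfi hS.fac.cpt
  have hfD : IntegrableOn (fun z =>
      |∑ i, c i * angProd ρ (φ n) (m n) (fun _ : Fin 2 => x i) z - 1|) D
        (volume : Measure ℍ) := by
    have : IsFiniteMeasure ((volume : Measure ℍ).restrict D) :=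
      ⟨by rw [Measure.restrict_apply_univ]; exact (UIF.geo hS).fin.lt_top⟩
    exact Integrable.of_bound hfc.measurable.aestronglyMeasurable b (Eventually.of_forall hb)
  have hav : Berry.rAvg ρ D (fun z =>
      |∑ i, c i * angProd ρ (φ n) (m n) (fun _ : Fin 2 => x i) z - 1|) ≤
        ε / (2 * (B * C + 1)) := by
    rw [← (hζ.int _ hfc.measurable hfD hfi).2]
    exact hn2
  have hloc := hC _ hfc (fun z => abs_nonneg _) hfi
  have int1 : ∀ g : ℍ → ℝ, Continuous g → Integrable fun z => ψ z * g (ofComplex z) := by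
    intro g hg
    exact (Surf.continuous_cut_mul hψ1 hψ3 hg).integrable_of_hasCompactSupport hψ2.mul_right
  have e1 : ∑ i, c i * (∫ z, ψ z * angProd ρ (φ n) (m n) (fun _ : Fin 2 => x i) (ofComplex z)) =
      ∫ z, ψ z * ∑ i, c i * angProd ρ (φ n) (m n) (fun _ : Fin 2 => x i) (ofComplex z) := by
    have h3 : ∀ i, c i * (∫ z, ψ z * angProd ρ (φ n) (m n) (fun _ : Fin 2 => x i)
        (ofComplex z)) = ∫ z, c i * (ψ z * angProd ρ (φ n) (m n) (fun _ : Fin 2 => x i)
          (ofComplex z)) := fun i => (integral_const_mul _ _).symm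
    simp only [h3]
    rw [← integral_finset_sum _ fun i _ => (int1 _ (hac i)).const_mul (c i)]
    refine integral_congr_ae (Eventually.of_forall fun z => ?_)
    beta_reduce
    rw [Finset.mul_sum]
    exact Finset.sum_congr rfl fun i _ => by ring
  have e2 : (∫ z, ψ z * ∑ i, c i * angProd ρ (φ n) (m n) (fun _ : Fin 2 => x i) (ofComplex z))
      - ∫ z, ψ z = ∫ z, ψ z *
        (∑ i, c i * angProd ρ (φ n) (m n) (fun _ : Fin 2 => x i) (ofComplex z) - 1) := by
    rw [← integral_sub (int1 _ hgc) (hψ1.integrable_of_hasCompactSupport hψ2)]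
    refine integral_congr_ae (Eventually.of_forall fun z => ?_)
    beta_reduce
    ring
  have e3 : |∫ z, ψ z *
      (∑ i, c i * angProd ρ (φ n) (m n) (fun _ : Fin 2 => x i) (ofComplex z) - 1)| ≤
        B * (C * (ε / (2 * (B * C + 1)))) := by
    have h3 : ∫ z, ψ z *
        (∑ i, c i * angProd ρ (φ n) (m n) (fun _ : Fin 2 => x i) (ofComplex z) - 1) =
        ∫ z in tsupport ψ, ψ z *
        (∑ i, c i * angProd ρ (φ n) (m n) (fun _ : Fin 2 => x i) (ofComplex z) - 1) := by
      rw [setIntegral_eq_integral_of_forall_compl_eq_zero]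
      intro z hz
      rw [image_eq_zero_of_notMem_tsupport hz, zero_mul]
    have hco : ContinuousOn (fun z : ℂ =>
        |∑ i, c i * angProd ρ (φ n) (m n) (fun _ : Fin 2 => x i) (ofComplex z) - 1|)
          (tsupport ψ) := by
      intro z hz
      exact ((hfc.continuousAt).comp
        (contMDiffAt_ofComplex (n := 0) (hψ3 hz)).continuousAt).continuousWithinAt
    rw [h3, ← Real.norm_eq_abs]
    calc _ ≤ ∫ z in tsupport ψ, B *
          |∑ i, c i * angProd ρ (φ n) (m n) (fun _ : Fin 2 => x i) (ofComplex z) - 1| := by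
          refine norm_integral_le_of_norm_le ((hco.integrableOn_compact hK).const_mul _)
            (Eventually.of_forall fun z => ?_)
          rw [norm_mul, Real.norm_eq_abs (_ - 1)]
          exact mul_le_mul_of_nonneg_right (hB z) (abs_nonneg _)
      _ = B * ∫ z in tsupport ψ,
          |∑ i, c i * angProd ρ (φ n) (m n) (fun _ : Fin 2 => x i) (ofComplex z) - 1| :=
          integral_const_mul _ _
      _ ≤ B * (C * (ε / (2 * (B * C + 1)))) :=
          mul_le_mul_of_nonneg_left (hloc.trans (mul_le_mul_of_nonneg_left hav hC0)) hB0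
  have e4 : B * (C * (ε / (2 * (B * C + 1)))) ≤ ε / 2 := by
    have h3 : B * (C * (ε / (2 * (B * C + 1)))) = (B * C / (B * C + 1)) * (ε / 2) := by
      field_simp
    rw [h3]
    have h4 : B * C / (B * C + 1) ≤ 1 := (div_le_one (by positivity)).2 (by linarith)
    nlinarith
  have e5 : ∑ i, c i *
      ((∫ z, ψ z * angProd ρ (φ n) (m n) (fun _ : Fin 2 => x i) (ofComplex z))
        - ∫ z, ψ z * φ n (ofComplex z) ^ 2) =
      (∫ z, ψ z * ∑ i, c i * angProd ρ (φ n) (m n) (fun _ : Fin 2 => x i) (ofComplex z))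
        - ∫ z, ψ z * φ n (ofComplex z) ^ 2 := by
    simp only [mul_sub, Finset.sum_sub_distrib]
    rw [e1, ← Finset.sum_mul, hc1, one_mul]
  rw [dist_zero_right, Real.norm_eq_abs, e5] at hn1
  rw [Real.dist_eq]
  have e6 : (∫ z, ψ z * φ n (ofComplex z) ^ 2) - ∫ z, ψ z =
      -((∫ z, ψ z * ∑ i, c i * angProd ρ (φ n) (m n) (fun _ : Fin 2 => x i) (ofComplex z))
        - ∫ z, ψ z * φ n (ofComplex z) ^ 2) +
      ((∫ z, ψ z * ∑ i, c i * angProd ρ (φ n) (m n) (fun _ : Fin 2 => x i) (ofComplex z))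
        - ∫ z, ψ z) := by ring
  rw [e6]
  refine (abs_add_le _ _).trans_lt ?_
  rw [abs_neg, e2]
  linarith

end

end PKM
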