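import Pool.Agent.PKM.St1
import Pool.Agent.BSL.AllE

/-!
# Module H00: the fourth moment is at most the Gaussian one
-/

set_option autoImplicit false

open Complex MeasureTheory Filter Topology Set
open UpperHalfPlane hiding I
open scoped ContDiff MatrixGroups ProbabilityTheory ENNReal

namespace PKM

open QE QE.NC QJ U3 NFP BSL

noncomputable section

open BSL.CORE BSL.FLE in
/-- **H00** -/
theorem t_H00 : StmtH00 := by
  intro Γ _ ρ hρ hρΓ D hDm hD hK φ m hφ hs hnorm Ω _ P _ F hFm hF hF2 hF4 hH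
  have hfac : Fac Γ ρ := ⟨hρ, hρΓ, hK⟩
  obtain ⟨κ, hκ⟩ : ∃ κ, κ = ∫ o, F 0 o ^ 4 ∂P := ⟨_, rfl⟩
  rw [← hκ]
  have hid : Tendsto (fun n : ℕ => n) atTop atTop := tendsto_id
  obtain ⟨l, s, hl, T⟩ := exists_dat ffl_closed hρ hρΓ hDm hD hK hφ hs hnorm hFm hF hF2 hF4 hid
  have hF' : FLim ρ D (fun n => φ (l n)) (fun n => m (l n)) P F := FLA.fLim_comp hF hl
  obtain ⟨g1, g2⟩ := kap_closed Γ D ρ _ _ T.sur Ω P F hFm hF' hF2 hF4 s T.sem
  have d : DirE Γ D ρ s κ := by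
    rw [hκ]
    exact ⟨hDm, hD, hfac, T.sem.fin, lfr_closed Γ ρ _ _ s hfac T.sur.loc T.sem
      (fun n => T.sur.eig.invariant n), T.sq, T.one, T.dw, g1, g2⟩
  have hord : StmtOrd := t_ORD t_WTS t_CUT trg_closed t_DOM t_UIA
  obtain ⟨o1, o2⟩ := hord Γ D ρ _ _ T.sur Ω P F hFm hF' hF2 hF4
  have f4 : ∀ a b c d : ℂ, Integrable (fun o => F a o * F b o * F c o * F d o) P ∧
      ∫ o, F a o * F b o * F c o * F d o ∂P = fourF ρ D s κ ![a, b, c, d] := by
    intro a b c d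
    have := T.four ![a, b, c, d]
    rw [← hκ] at this
    simpa [Fin.prod_univ_four] using this
  obtain ⟨u1, u2, -⟩ := hul_closed Γ D ρ s κ d 0 (fun ε hε => by
    obtain ⟨r, c, x, hc, hle⟩ := hH ε hε
    refine ⟨r, c, x, hc, ?_⟩
    rw [var_eq (G := fourF ρ D s κ) o2 f4 c x 0 hc] at hle
    linarith)
  rw [Berry.waveK_zero, one_pow, one_mul] at u2
  linarith

end

end PKM
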