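import Pool.Agent.PKM.St1
import Pool.Agent.CRM.Fin
import Pool.Agent.CRN.FinalQ
import Pool.Agent.CRN.QUO
import Pool.Agent.BSL.JLW
import Pool.Agent.BSL.FFL

/-!
# The differences of the squares of the even jets are bounded in `L²` (module JBD)
-/

open Complex MeasureTheory Filter Topology Set
open UpperHalfPlane hiding I
open scoped ContDiff MatrixGroups ProbabilityTheory ENNReal

namespace PKM

open QE QE.NC QJ U3 NFP BSL

noncomputable section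

namespace JBD

/-! ### the circle -/

lemma s2_eq (t : S1) : CRM.s2 (t : ℂ) = (t : ℂ).im ^ 2 := by
  have ht : ‖(t : ℂ)‖ = 1 := mem_sphere_zero_iff_norm.mp t.2
  have h1 : ‖(t : ℂ) ^ 2‖ = 1 := by rw [norm_pow, ht, one_pow]
  have h2 := CRN.QUO.norm_sub_one_sq h1
  have h3 : (t : ℂ).re * (t : ℂ).re + (t : ℂ).im * (t : ℂ).im = 1 := by
    have h4 := Complex.normSq_apply (t : ℂ)
    rw [Complex.normSq_eq_norm_sq, ht] at h4
    linarith
  unfold CRM.s2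
  rw [h2, pow_two (t : ℂ), Complex.mul_re]
  linarith

lemma im_gk_le (t : S1) {j : ℤ} (hj : Even j) :
    (t : ℂ).im ^ 2 * CRM.gk j (t : ℂ) ≤ 2 := by
  have ht : ‖(t : ℂ)‖ = 1 := mem_sphere_zero_iff_norm.mp t.2
  rw [← s2_eq, ← CRN.QUO.key ht (Int.even_iff.1 hj)]
  have h1 : |((t : ℂ) ^ j).re| ≤ 1 := by
    refine (Complex.abs_re_le_norm _).trans ?_
    rw [norm_zpow, ht, one_zpow]
  unfold CRM.ck
  linarith [neg_abs_le ((t : ℂ) ^ j).re]

lemma gk_nonneg (j : ℤ) (t : ℂ) : 0 ≤ CRM.gk j t := by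
  unfold CRM.gk
  positivity

lemma gk_neg {j : ℤ} (hj : Even j) (t : ℂ) : CRM.gk (-j) t = CRM.gk j t := by
  obtain ⟨m, rfl⟩ := hj
  unfold CRM.gk
  have e1 : (-(m + m) / 2).natAbs = ((m + m) / 2).natAbs := by omega
  rw [e1]

lemma lk_one {j : ℤ} (hj : Even j) (t : ℂ) :
    CRM.lk (fun i => (CRM.gk i t : ℂ)) 0 0 j (-j) = ((-2 * CRM.gk j t : ℝ) : ℂ) := by
  have hj' := hj
  obtain ⟨m, rfl⟩ := hj
  unfold CRM.lk
  rw [if_pos ⟨by omega, by omega, by omega⟩, zero_add, zero_add, zero_add]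
  beta_reduce
  rw [IDENT.gk_zero, gk_neg hj']
  push_cast
  ring

lemma lk_two {j : ℤ} (hj : Even j) (t : ℂ) :
    CRM.lk (fun i => (CRM.gk i t : ℂ)) j (-j) j (-j) = ((-CRM.gk (2 * j) t : ℝ) : ℂ) := by
  obtain ⟨m, rfl⟩ := hj
  unfold CRM.lk
  rw [if_pos ⟨by omega, by omega, by omega⟩, add_neg_cancel]
  beta_reduce
  rw [IDENT.gk_zero, two_mul]
  push_cast
  ring

lemma cl_one {j : ℤ} (hj : Even j) : cl4 0 0 j (-j) = 1 := by
  obtain ⟨m, rfl⟩ := hj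
  unfold cl4
  rw [if_pos ⟨by omega, by omega, by omega⟩]

lemma cl_two {j : ℤ} (hj : Even j) : cl4 j (-j) j (-j) = 1 := by
  obtain ⟨m, rfl⟩ := hj
  unfold cl4
  rw [if_pos ⟨by omega, by omega, by omega⟩]

/-! ### the mass -/

section

variable {ρ : ℍ → ℝ} {s : ProbabilityTheory.Kernel ℍ S1}

lemma ma_cof (s : ProbabilityTheory.Kernel ℍ S1) (z : ℂ) :
    ((ma s z : ℝ) : ℂ) = cof (s (ofComplex z)) 0 := by
  have h1 := FFL.um_zero s z
  unfold um at h1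
  rw [zpow_zero, one_mul] at h1
  exact h1.symm

lemma mass_lt (hρ : Continuous ρ) (hs : ∀ z, IsFiniteMeasure (s z))
    (hl : LocL2 UH (fun z => (ma s z : ℂ))) {K : Set ℍ} (hK : IsCompact K) :
    ∫⁻ z in K, (s z univ) ^ 2 ∂(Berry.area ρ) < ⊤ :=
  IDENT.mass_fin hρ hs hl (Eventually.of_forall fun z => ma_cof s z) hK

lemma mass_int (hρ : Continuous ρ) (hs : ∀ z, IsFiniteMeasure (s z))
    (hl : LocL2 UH (fun z => (ma s z : ℂ))) (K : Set ℍ) (hK : IsCompact K) :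
    IntegrableOn (fun z => (s z univ).toReal ^ 2) K (Berry.area ρ) := by
  refine ⟨(((s.measurable_coe MeasurableSet.univ).ennreal_toReal).pow_const
    2).aestronglyMeasurable, ?_⟩
  refine lt_of_le_of_lt (le_of_eq ?_) (mass_lt hρ hs hl hK)
  refine lintegral_congr fun z => ?_
  have := hs z
  rw [← ofReal_norm, Real.norm_of_nonneg (sq_nonneg _), ENNReal.ofReal_pow
    ENNReal.toReal_nonneg, ENNReal.ofReal_toReal (measure_ne_top _ _)]

lemma pm_fmc (hρ : Continuous ρ) (hs : ∀ z, IsFiniteMeasure (s z))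
    (hl : LocL2 UH (fun z => (ma s z : ℂ))) : IsFiniteMeasureOnCompacts (IDENT.pm ρ s) := by
  constructor
  intro S hS
  have hK : IsCompact ((fun p : (ℍ × S1) × S1 => p.1.1) '' S) :=
    hS.image (continuous_fst.comp continuous_fst)
  refine lt_of_le_of_lt (measure_mono (t := ((((fun p : (ℍ × S1) × S1 => p.1.1) '' S)
    ×ˢ univ) ×ˢ univ)) ?_) ?_
  · intro p hp
    exact ⟨⟨mem_image_of_mem _ hp, mem_univ _⟩, mem_univ _⟩
  · rw [IDENT.pm_pre hs hK.measurableSet]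
    exact mass_lt hρ hs hl hK

/-- continuous functions which vanish outside of the points over a compact set -/
lemma pm_intg (hρ : Continuous ρ) (hs : ∀ z, IsFiniteMeasure (s z))
    (hl : LocL2 UH (fun z => (ma s z : ℂ))) {G : (ℍ × S1) × S1 → ℝ} (hG : Continuous G)
    {K : Set ℂ} (hK : IsCompact K) (hKU : K ⊆ UH)
    (h0 : ∀ p : (ℍ × S1) × S1, (p.1.1 : ℂ) ∉ K → G p = 0) : Integrable G (IDENT.pm ρ s) := by
  have := pm_fmc hρ hs hl
  refine hG.integrable_of_hasCompactSupport ?_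
  refine HasCompactSupport.intro (((IDENT.cpt_pre hK hKU).prod isCompact_univ).prod
    isCompact_univ) fun p hp => ?_
  exact h0 p fun hh => hp ⟨⟨hh, mem_univ _⟩, mem_univ _⟩

lemma gr_inv (ρ : ℍ → ℝ) (z : ℍ) :
    (gr ρ z)⁻¹ = z.im ^ 2 * Real.exp (-(2 * ρ z)) := by
  unfold gr
  rw [ofComplex_apply, Real.exp_neg]
  have h3 : ((z : ℂ)).im = z.im := rfl
  rw [h3, inv_div]
  rfl

lemma cont_grinv (hρ : Continuous ρ) : Continuous fun z : ℍ => (gr ρ z)⁻¹ := by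
  simp only [gr_inv]
  exact (UpperHalfPlane.continuous_im.pow 2).mul
    (Real.continuous_exp.comp (continuous_const.mul hρ).neg)

lemma grinv_nonneg (ρ : ℍ → ℝ) (z : ℍ) : 0 ≤ (gr ρ z)⁻¹ := by
  rw [gr_inv]
  positivity

lemma cont_zeta {ζ : ℂ → ℝ} {U : Set ℂ} (hζ : Test U (fun z => (ζ z : ℂ))) : Continuous ζ := by
  have h1 : ζ = fun z => ((ζ z : ℂ)).re := by
    funext z
    exact (Complex.ofReal_re _).symm
  rw [h1]
  exact Complex.continuous_re.comp hζ.smooth.continuous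

/-- the total mass over the pairs of directions, in the plane -/
lemma pm_mass (hρ : Continuous ρ) (hs : ∀ z, IsFiniteMeasure (s z))
    (hl : LocL2 UH (fun z => (ma s z : ℂ))) {ζ : ℂ → ℝ} (hζ : Test UH (fun z => (ζ z : ℂ))) :
    ∫ p, ζ p.1.1 * (gr ρ p.1.1)⁻¹ ∂(IDENT.pm ρ s) = ∫ z, ζ z * ma s z ^ 2 := by
  have hsf := STRUCT.sfinite s fun z => measure_lt_top _ _
  have hF : Integrable (fun p : (ℍ × S1) × S1 => ζ p.1.1 * (gr ρ p.1.1)⁻¹) (IDENT.pm ρ s) := by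
    refine pm_intg hρ hs hl ?_ hζ.supp hζ.sub fun p hp => ?_
    · exact ((cont_zeta hζ).comp (UpperHalfPlane.continuous_coe.comp
        (continuous_fst.comp continuous_fst))).mul
        ((cont_grinv hρ).comp (continuous_fst.comp continuous_fst))
    · have := image_eq_zero_of_notMem_tsupport hp
      have h1 : ζ p.1.1 = 0 := Complex.ofReal_eq_zero.1 this
      rw [h1, zero_mul]
  unfold IDENT.pm at hF ⊢
  rw [Measure.integral_compProd hF]
  have hF2 : Integrable (fun q : ℍ × S1 => ∫ _w' : S1, ζ q.1 * (gr ρ q.1)⁻¹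
      ∂((s.comap Prod.fst measurable_fst : ProbabilityTheory.Kernel (ℍ × S1) S1) q))
      ((Berry.area ρ) ⊗ₘ s) := by
    have h1 := hF.integral_compProd
    exact h1
  rw [Measure.integral_compProd hF2]
  have e1 : ∀ z : ℍ, ∫ w : S1, ∫ _w' : S1, ζ z * (gr ρ z)⁻¹
      ∂((s.comap Prod.fst measurable_fst : ProbabilityTheory.Kernel (ℍ × S1) S1) (z, w)) ∂(s z)
      = ζ z * (gr ρ z)⁻¹ * (s z univ).toReal ^ 2 := by
    intro z
    have h1 : ∀ w : S1, ∫ _w' : S1, ζ z * (gr ρ z)⁻¹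
        ∂((s.comap Prod.fst measurable_fst : ProbabilityTheory.Kernel (ℍ × S1) S1) (z, w))
        = (s z univ).toReal * (ζ z * (gr ρ z)⁻¹) := by
      intro w
      rw [integral_const, smul_eq_mul]
      rfl
    simp only [h1]
    rw [integral_const, smul_eq_mul]
    have h2 : (s z).real univ = (s z univ).toReal := rfl
    rw [h2]
    ring
  have e2 : ∫ z : ℍ, ∫ w : S1, ∫ _w' : S1, ζ z * (gr ρ z)⁻¹
      ∂((s.comap Prod.fst measurable_fst : ProbabilityTheory.Kernel (ℍ × S1) S1) (z, w)) ∂(s z)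
      ∂(Berry.area ρ) = ∫ z : ℍ, ζ z * (gr ρ z)⁻¹ * (s z univ).toReal ^ 2 ∂(Berry.area ρ) :=
    integral_congr_ae (Eventually.of_forall e1)
  refine Eq.trans e2 ?_
  have e3 := STRUCT.integral_plane hρ hζ (fun z => (((s z univ).toReal ^ 2 : ℝ) : ℂ))
  apply Complex.ofReal_injective
  rw [← integral_complex_ofReal, ← integral_complex_ofReal]
  have e4 : ∫ z : ℂ, ((ζ z * ma s z ^ 2 : ℝ) : ℂ) =
      ∫ z, (ζ z : ℂ) * (((s (ofComplex z) univ).toReal ^ 2 : ℝ) : ℂ) := by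
    refine integral_congr_ae (Eventually.of_forall fun z => ?_)
    beta_reduce
    unfold ma
    push_cast
    rfl
  rw [e4, e3]
  refine integral_congr_ae (Eventually.of_forall fun z => ?_)
  beta_reduce
  rw [gr_inv]
  push_cast
  rfl

/-- the bound for the crossing measure -/
lemma cross_le (hρ : Continuous ρ) (hs : ∀ z, IsFiniteMeasure (s z))
    (hl : LocL2 UH (fun z => (ma s z : ℂ))) {ζ : ℂ → ℝ} (hζ : Test UH (fun z => (ζ z : ℂ)))
    (h0 : ∀ z, 0 ≤ ζ z) {j : ℤ} (hj : Even j) :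
    ∫ p : ℍ × S1, ζ p.1 * (gr ρ p.1)⁻¹ * CRM.gk j p.2 ∂(crossS ρ s)
      ≤ 2 * ∫ z, ζ z * ma s z ^ 2 := by
  have hcG : Continuous fun p : ℍ × S1 => ζ p.1 * (gr ρ p.1)⁻¹ * CRM.gk j p.2 :=
    (((cont_zeta hζ).comp (UpperHalfPlane.continuous_coe.comp continuous_fst)).mul
      ((cont_grinv hρ).comp continuous_fst)).mul
      ((IDENT.cont_gk j).comp (continuous_subtype_val.comp continuous_snd))
  have hz : ∀ z : ℍ, (z : ℂ) ∉ tsupport (fun z => (ζ z : ℂ)) → ζ z = 0 := fun z hz =>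
    Complex.ofReal_eq_zero.1 (image_eq_zero_of_notMem_tsupport (f := fun z => (ζ z : ℂ)) hz)
  have e : crossS ρ s = Measure.map IDENT.qq ((IDENT.pm ρ s).withDensity
    fun p => ENNReal.ofReal (((p.1.2 / p.2 : S1) : ℂ).im ^ 2)) := rfl
  rw [e, integral_map IDENT.cont_qq.measurable.aemeasurable hcG.aestronglyMeasurable,
    integral_withDensity_eq_integral_toReal_smul IDENT.cont_im.measurable.ennreal_ofReal
      (Eventually.of_forall fun p => ENNReal.ofReal_lt_top), ← pm_mass hρ hs hl hζ,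
    ← integral_const_mul]
  have e1 : ∀ p : (ℍ × S1) × S1, (ENNReal.ofReal (((p.1.2 / p.2 : S1) : ℂ).im ^ 2)).toReal •
      (ζ (IDENT.qq p).1 * (gr ρ (IDENT.qq p).1)⁻¹ * CRM.gk j (IDENT.qq p).2) =
      ((p.1.2 / p.2 : S1) : ℂ).im ^ 2 *
        (ζ p.1.1 * (gr ρ p.1.1)⁻¹ * CRM.gk j (p.1.2 / p.2 : S1)) := by
    intro p
    rw [ENNReal.toReal_ofReal (sq_nonneg _), smul_eq_mul]
    rfl
  simp only [e1]
  refine integral_mono ?_ ?_ fun p => ?_
  · refine pm_intg hρ hs hl (IDENT.cont_im.mul (hcG.comp IDENT.cont_qq)) hζ.supp hζ.sub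
      fun p hp => ?_
    have h1 := hz _ hp
    show _ * (ζ p.1.1 * _ * _) = 0
    rw [h1, zero_mul, zero_mul, mul_zero]
  · refine (pm_intg hρ hs hl ?_ hζ.supp hζ.sub fun p hp => ?_).const_mul 2
    · exact ((cont_zeta hζ).comp (UpperHalfPlane.continuous_coe.comp
        (continuous_fst.comp continuous_fst))).mul
        ((cont_grinv hρ).comp (continuous_fst.comp continuous_fst))
    · rw [hz _ hp, zero_mul]
  · beta_reduce
    have h1 := im_gk_le (p.1.2 / p.2 : S1) hj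
    have h2 : 0 ≤ ζ p.1.1 * (gr ρ p.1.1)⁻¹ := mul_nonneg (h0 _) (grinv_nonneg ρ _)
    have h3 := mul_le_mul_of_nonneg_left h1 h2
    linarith

/-- the integral in the limit -/
lemma lim_le (hρ : Continuous ρ) (hs : ∀ z, IsFiniteMeasure (s z))
    (hl : LocL2 UH (fun z => (ma s z : ℂ))) {ζ : ℂ → ℝ} (hζ : Test UH (fun z => (ζ z : ℂ)))
    (h0 : ∀ z, 0 ≤ ζ z) {j : ℤ} (hj : Even j)
    (hfin : ∀ K : Set ℍ, IsCompact K → crossS ρ s (K ×ˢ univ) < ⊤) :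
    ((∫ p : ℍ × S1, (ζ p.1 : ℂ) * (((gr ρ p.1)⁻¹ : ℝ) : ℂ)
        * CRM.lk (fun i => (CRM.gk i p.2 : ℂ)) j (-j) j (-j) ∂(crossS ρ s))
      - 2 * ∫ p : ℍ × S1, (ζ p.1 : ℂ) * (((gr ρ p.1)⁻¹ : ℝ) : ℂ)
        * CRM.lk (fun i => (CRM.gk i p.2 : ℂ)) 0 0 j (-j) ∂(crossS ρ s)).re
      ≤ 8 * ∫ z, ζ z * ma s z ^ 2 := by
  have hfm := IDENT.fmc hfin
  have hz : ∀ z : ℍ, (z : ℂ) ∉ tsupport (fun z => (ζ z : ℂ)) → ζ z = 0 := fun z hz =>
    Complex.ofReal_eq_zero.1 (image_eq_zero_of_notMem_tsupport (f := fun z => (ζ z : ℂ)) hz)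
  have hcG : ∀ i : ℤ, Continuous fun p : ℍ × S1 => ζ p.1 * (gr ρ p.1)⁻¹ * CRM.gk i p.2 := fun i =>
    (((cont_zeta hζ).comp (UpperHalfPlane.continuous_coe.comp continuous_fst)).mul
      ((cont_grinv hρ).comp continuous_fst)).mul
      ((IDENT.cont_gk i).comp (continuous_subtype_val.comp continuous_snd))
  have hi : ∀ i : ℤ, Integrable (fun p : ℍ × S1 => ζ p.1 * (gr ρ p.1)⁻¹ * CRM.gk i p.2)
      (crossS ρ s) := by
    intro i
    refine (hcG i).integrable_of_hasCompactSupport ?_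
    refine HasCompactSupport.intro ((IDENT.cpt_pre hζ.supp hζ.sub).prod isCompact_univ)
      fun p hp => ?_
    have h1 : ζ p.1 = 0 := hz _ fun hh => hp ⟨hh, mem_univ _⟩
    rw [h1, zero_mul, zero_mul]
  have e1 : ∫ p : ℍ × S1, (ζ p.1 : ℂ) * (((gr ρ p.1)⁻¹ : ℝ) : ℂ)
        * CRM.lk (fun i => (CRM.gk i p.2 : ℂ)) j (-j) j (-j) ∂(crossS ρ s) =
      ((-∫ p : ℍ × S1, ζ p.1 * (gr ρ p.1)⁻¹ * CRM.gk (2 * j) p.2 ∂(crossS ρ s) : ℝ) : ℂ) := by
    rw [← integral_neg, ← integral_complex_ofReal]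
    refine integral_congr_ae (Eventually.of_forall fun p => ?_)
    beta_reduce
    rw [lk_two hj]
    push_cast
    ring
  have e2 : ∫ p : ℍ × S1, (ζ p.1 : ℂ) * (((gr ρ p.1)⁻¹ : ℝ) : ℂ)
        * CRM.lk (fun i => (CRM.gk i p.2 : ℂ)) 0 0 j (-j) ∂(crossS ρ s) =
      ((-2 * ∫ p : ℍ × S1, ζ p.1 * (gr ρ p.1)⁻¹ * CRM.gk j p.2 ∂(crossS ρ s) : ℝ) : ℂ) := by
    rw [← integral_const_mul, ← integral_complex_ofReal]
    refine integral_congr_ae (Eventually.of_forall fun p => ?_)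
    beta_reduce
    rw [lk_one hj]
    push_cast
    ring
  rw [e1, e2]
  have e3 : (((-∫ p : ℍ × S1, ζ p.1 * (gr ρ p.1)⁻¹ * CRM.gk (2 * j) p.2 ∂(crossS ρ s) : ℝ) : ℂ)
      - 2 * ((-2 * ∫ p : ℍ × S1, ζ p.1 * (gr ρ p.1)⁻¹ * CRM.gk j p.2 ∂(crossS ρ s) : ℝ) : ℂ)).re
      = -(∫ p : ℍ × S1, ζ p.1 * (gr ρ p.1)⁻¹ * CRM.gk (2 * j) p.2 ∂(crossS ρ s))
        + 4 * ∫ p : ℍ × S1, ζ p.1 * (gr ρ p.1)⁻¹ * CRM.gk j p.2 ∂(crossS ρ s) := by
    have h1 : (2 : ℂ) = ((2 : ℝ) : ℂ) := by norm_num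
    rw [h1, ← Complex.ofReal_mul, ← Complex.ofReal_sub, Complex.ofReal_re]
    ring
  rw [e3]
  have h1 : 0 ≤ ∫ p : ℍ × S1, ζ p.1 * (gr ρ p.1)⁻¹ * CRM.gk (2 * j) p.2 ∂(crossS ρ s) :=
    integral_nonneg fun p => mul_nonneg (mul_nonneg (h0 _) (grinv_nonneg ρ _)) (gk_nonneg _ _)
  have h2 := cross_le hρ hs hl hζ h0 hj
  linarith

end

/-! ### the jets -/

/-- the square of the difference in terms of the four-jet integrals -/
lemma jet_eq {V : Set ℂ} {σ : ℂ → ℝ} {h : ℕ → ℝ} {φ : ℕ → ℂ → ℂ} (L : LocB V σ h φ) {ζ : ℂ → ℝ}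
    (hζ : Test V (fun z => (ζ z : ℂ))) {j : ℤ} (hj : Even j) (n : ℕ) :
    ((∫ z, ζ z * (‖E σ h φ 0 n z‖ ^ 2 - ‖E σ h φ j n z‖ ^ 2) ^ 2 : ℝ) : ℂ)
      = (E4 σ h φ (fun z => (ζ z : ℂ)) j (-j) j (-j) n
          - cl4 j (-j) j (-j) * E4 σ h φ (fun z => (ζ z : ℂ)) 0 0 0 0 n)
        - 2 * (E4 σ h φ (fun z => (ζ z : ℂ)) 0 0 j (-j) n
          - cl4 0 0 j (-j) * E4 σ h φ (fun z => (ζ z : ℂ)) 0 0 0 0 n) := by
  rw [cl_one hj, cl_two hj, one_mul]
  have hcE : ∀ i : ℤ, Continuous (E σ h φ i n) := fun i => (smE L i n).continuous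
  have hI : ∀ a b c d : ℤ, Integrable (fun z => (ζ z : ℂ) *
      (E σ h φ a n z * E σ h φ b n z * E σ h φ c n z * E σ h φ d n z)) := by
    intro a b c d
    refine Continuous.integrable_of_hasCompactSupport ?_ (hζ.supp.mul_right)
    exact hζ.smooth.continuous.mul ((((hcE a).mul (hcE b)).mul (hcE c)).mul (hcE d))
  have hn : ∀ i : ℤ, Even i → ∀ z, ((‖E σ h φ i n z‖ ^ 2 : ℝ) : ℂ)
      = E σ h φ i n z * E σ h φ (-i) n z := by
    intro i hi z
    rw [← Complex.normSq_eq_norm_sq, ← mul_conj, conj_EB L, hi.neg_one_zpow, one_mul]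
  unfold E4
  rw [← integral_complex_ofReal, ← integral_sub (hI _ _ _ _) (hI _ _ _ _),
    ← integral_sub (hI _ _ _ _) (hI _ _ _ _), ← integral_const_mul, ← integral_sub]
  · refine integral_congr_ae (Eventually.of_forall fun z => ?_)
    beta_reduce
    have e0 := hn 0 Even.zero z
    have e1 := hn j hj z
    rw [neg_zero] at e0
    have e2 : ((ζ z * (‖E σ h φ 0 n z‖ ^ 2 - ‖E σ h φ j n z‖ ^ 2) ^ 2 : ℝ) : ℂ) =
        (ζ z : ℂ) * (((‖E σ h φ 0 n z‖ ^ 2 : ℝ) : ℂ) - ((‖E σ h φ j n z‖ ^ 2 : ℝ) : ℂ)) ^ 2 := by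
      push_cast
      ring
    rw [e2, e0, e1]
    ring
  · exact (hI _ _ _ _).sub (hI _ _ _ _)
  · exact ((hI _ _ _ _).sub (hI _ _ _ _)).const_mul 2

end JBD

open JBD in
/-- **JBD**: the differences of the squares of the even jets are bounded in `L²`. -/
theorem t_JBD : StmtJbd := by
  intro Γ D ρ φ m s S M V σ φ' A ζ hζ h0 j hj ε hε
  have hρ : Continuous ρ := STRUCT.cont_rho S.fac.smooth
  have hζU : Test UH (fun z => (ζ z : ℂ)) := ⟨hζ.smooth, hζ.supp, hζ.sub.trans A.sub⟩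
  obtain ⟨ϖ, h1, -, -, h4⟩ := CRM.main S.fac S.loc
    (fun γ hγ n z => S.eig.invariant n γ hγ z) M.sem
  have hϖ : ϖ = crossS ρ s := CRN.stmtL Γ ρ S.fac _ ϖ h1 s M.fin
    (mass_int hρ M.fin M.loc) rfl
  have hfin := h4.fin
  have t1 := h4.lim V σ φ' A _ hζ j (-j) j (-j) (by ring)
  have t2 := h4.lim V σ φ' A _ hζ 0 0 j (-j) (by ring)
  rw [hϖ] at t1 t2 hfin
  have t3 := t1.sub (t2.const_mul 2)
  have t4 := (Complex.continuous_re.tendsto _).comp t3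
  have hle := lim_le hρ M.fin M.loc hζU h0 hj hfin
  have hlt : _ < 8 * (∫ z, ζ z * ma s z ^ 2) + ε := lt_of_le_of_lt hle (by linarith)
  filter_upwards [t4.eventually (gt_mem_nhds hlt)] with n hn
  have e1 := congrArg Complex.re (jet_eq A.loc hζ hj n)
  rw [Complex.ofReal_re] at e1
  rw [e1]
  exact hn.le

end

end PKM
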