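import Pool.Agent.PKM.St1
import Pool.Agent.BSL.UIF
import Pool.Agent.BWM.C14

/-!
# From the four-point function of the limit field to the discs (module LLP)
-/

set_option autoImplicit false

open Complex MeasureTheory Filter Topology Set
open UpperHalfPlane hiding I
open scoped ContDiff MatrixGroups ProbabilityTheory ENNReal

namespace PKM

open QE QE.NC QJ U3 NFP BSL

noncomputable section

namespace LLP

/-- for large `n` the averages over a disc are measurable and bounded -/
lemma spatial_ok {Γ : Subgroup SL(2, ℝ)} [Countable Γ] {D : Set ℍ} {ρ : ℍ → ℝ} {φ : ℕ → ℍ → ℝ}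
    {m : ℕ → ℝ} (hS : Sur Γ D ρ φ m) (a : ℂ) (R : ℝ) :
    ∀ᶠ n in atTop, Measurable (Berry.spatialAvg (Berry.rWave ρ (φ n) (m n)) a R) ∧
      ∃ C : ℝ, ∀ p, |Berry.spatialAvg (Berry.rWave ρ (φ n) (m n)) a R p| ≤ C := by
  have hSurf : Berry.Surf Γ ρ D φ m :=
    Berry.surf_of_cocompact hS.fd hS.mD hS.fac.cpt (UIF.rho_cont hS) hS.fac.inv hS.eig
  filter_upwards [hSurf.spatial_ev (R := fun n => n) tendsto_id a R] with n hn
  have h1 := hSurf.wW_single (fun n => n) n (Berry.rFrameProb ρ D)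
  have h2 := h1.spatial_meas a R
  have h3 : Berry.spatialAvg (Berry.wW ρ φ m (fun n => n) n) a R =
      Berry.spatialAvg (Berry.rWave ρ (φ n) (m n)) a R := funext hn
  rw [h3] at h2
  exact h2

/-- for large `n` the wave at a point is measurable and bounded -/
lemma wave_ok {Γ : Subgroup SL(2, ℝ)} [Countable Γ] {D : Set ℍ} {ρ : ℍ → ℝ} {φ : ℕ → ℍ → ℝ}
    {m : ℕ → ℝ} (hS : Sur Γ D ρ φ m) {k : ℕ} (x : Fin k → ℂ) :
    ∀ᶠ n in atTop, ∀ i, Measurable (Berry.rWave ρ (φ n) (m n) (x i)) ∧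
      ∃ C : ℝ, ∀ p, |Berry.rWave ρ (φ n) (m n) (x i) p| ≤ C := by
  have hSurf : Berry.Surf Γ ρ D φ m :=
    Berry.surf_of_cocompact hS.fd hS.mD hS.fac.cpt (UIF.rho_cont hS) hS.fac.inv hS.eig
  filter_upwards [UIF.wc hS x] with n hn i
  obtain ⟨C, hC⟩ := hSurf.bdd n
  exact ⟨(hn i).measurable, C, fun p => hC _⟩

/-- integrability of bounded measurable functions -/
lemma int_bdd {α : Type} [MeasurableSpace α] {μ : Measure α} [IsFiniteMeasure μ] {f : α → ℝ}
    (hf : Measurable f) {C : ℝ} (hC : ∀ x, |f x| ≤ C) : Integrable f μ :=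
  Integrable.of_bound hf.aestronglyMeasurable C (Eventually.of_forall fun x => hC x)

/-- the mean square in terms of the covariances -/
lemma mean_sq {Ω : Type} [MeasurableSpace Ω] (P : Measure Ω) [IsProbabilityMeasure P] {r : ℕ}
    (c : Fin r → ℝ) (hc1 : ∑ i, c i = 1) (Y : Fin r → Ω → ℝ) (K : ℝ) (g : Fin r → Fin r → ℝ)
    (h1 : ∀ i, Integrable (Y i) P ∧ ∫ o, Y i o ∂P = K)
    (h2 : ∀ i j, Integrable (fun o => Y i o * Y j o) P ∧
      ∫ o, Y i o * Y j o ∂P = K ^ 2 + g i j) :
    Integrable (fun o => (∑ i, c i * Y i o - K) ^ 2) P ∧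
      ∫ o, (∑ i, c i * Y i o - K) ^ 2 ∂P = ∑ i, ∑ j, c i * c j * g i j := by
  have e1 : ∀ o, (∑ i, c i * Y i o - K) ^ 2 =
      ∑ i, ∑ j, c i * c j * (Y i o * Y j o - K * Y i o - K * Y j o + K ^ 2) := by
    intro o
    have e2 : ∑ i, c i * Y i o - K = ∑ i, c i * (Y i o - K) := by
      simp only [mul_sub, Finset.sum_sub_distrib, ← Finset.sum_mul, hc1, one_mul]
    rw [e2, sq, Finset.sum_mul_sum]
    refine Finset.sum_congr rfl fun i _ => Finset.sum_congr rfl fun j _ => ?_
    ring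
  have i1 : ∀ i j, Integrable (fun o => c i * c j *
      (Y i o * Y j o - K * Y i o - K * Y j o + K ^ 2)) P := by
    intro i j
    exact (((((h2 i j).1).sub ((h1 i).1.const_mul K)).sub ((h1 j).1.const_mul K)).add
      (integrable_const (K ^ 2))).const_mul (c i * c j)
  have i2 : ∀ i j, ∫ o, c i * c j *
      (Y i o * Y j o - K * Y i o - K * Y j o + K ^ 2) ∂P = c i * c j * g i j := by
    intro i j
    have j1 : Integrable (fun o => Y i o * Y j o - K * Y i o) P :=
      ((h2 i j).1).sub ((h1 i).1.const_mul K)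
    have j2 : Integrable (fun o => Y i o * Y j o - K * Y i o - K * Y j o) P :=
      j1.sub ((h1 j).1.const_mul K)
    rw [integral_const_mul, integral_add j2 (integrable_const _),
      integral_sub j1 ((h1 j).1.const_mul K),
      integral_sub (h2 i j).1 ((h1 i).1.const_mul K), integral_const_mul, integral_const_mul,
      (h1 i).2, (h1 j).2, (h2 i j).2, integral_const, probReal_univ]
    congr 1
    rw [one_smul]
    ring
  constructor
  · simp only [e1]
    exact integrable_finsetSum _ fun i _ => integrable_finsetSum _ fun j _ => i1 i j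
  · simp only [e1]
    rw [integral_finsetSum _ fun i _ => integrable_finsetSum _ fun j _ => i1 i j]
    refine Finset.sum_congr rfl fun i _ => ?_
    rw [integral_finsetSum _ fun j _ => i1 i j]
    exact Finset.sum_congr rfl fun j _ => i2 i j

end LLP

open LLP in
/-- **LLP** -/
theorem t_LLP (hRis : StmtRis) : StmtLlp := by
  intro Γ _ D ρ φ m hS Ω _ P _ F hFm hF a g B hB hg h1 h2 ε hε
  have hprob : IsProbabilityMeasure (Berry.rFrameProb ρ D) := Berry.rFrameProb_isProb (UIF.geo hS)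
  have hB0 : 0 ≤ B := (abs_nonneg _).trans (hB 0)
  obtain ⟨η, hη⟩ : ∃ η : ℝ, η = ε ^ 3 / (16 * (1 + ε)) := ⟨_, rfl⟩
  have hη0 : 0 < η := by
    rw [hη]
    positivity
  obtain ⟨T₀, hT₀⟩ := hg η hη0
  obtain ⟨T, hTd⟩ : ∃ T : ℝ, T = max T₀ 0 := ⟨_, rfl⟩
  have hT0 : 0 ≤ T := by
    rw [hTd]
    exact le_max_right _ _
  have hT : ∀ u, T ≤ ‖u‖ → |g u| ≤ η := fun u hu => hT₀ u (le_trans (by
    rw [hTd]
    exact le_max_left _ _) hu)
  refine ⟨max 1 (B * (T + 2) ^ 2 / η), fun R hR => ?_⟩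
  have hR1 : 1 ≤ R := (le_max_left _ _).trans hR
  have hR2 : B * (T + 2) ^ 2 / η ≤ R := (le_max_right _ _).trans hR
  have hR0 : 0 < R := by linarith
  have hBR : B * ((T + 2) / R) ^ 2 ≤ η := by
    rw [div_le_iff₀ hη0] at hR2
    rw [div_pow, ← mul_div_assoc, div_le_iff₀ (by positivity)]
    have h3 : R * η ≤ η * R ^ 2 := by
      have : R * η * 1 ≤ R * η * R := mul_le_mul_of_nonneg_left hR1 (by positivity)
      nlinarith
    linarith
  obtain ⟨r, c, x, hc0, hc1, hcT, hev⟩ := hRis Γ D ρ φ m hS a R hR0 η hη0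
  -- the limit field
  obtain ⟨K, hK⟩ : ∃ K : ℝ, K = Berry.waveK a := ⟨_, rfl⟩
  rw [← hK] at h1 h2
  have hms := mean_sq P c hc1 (fun i o => F (x i) o * F (x i + a) o) K
    (fun i j => g (x i - x j)) (fun i => h1 (x i)) (fun i j => h2 (x i) (x j))
  have hle : ∑ i, ∑ j, c i * c j * g (x i - x j) ≤ 2 * η := by
    have h3 : ∀ i j, c i * c j * g (x i - x j) ≤
        η * (c i * c j) + B * (if ‖x i - x j‖ < T then c i * c j else 0) := by
      intro i j
      have hcc : 0 ≤ c i * c j := mul_nonneg (hc0 i) (hc0 j)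
      by_cases hij : ‖x i - x j‖ < T
      · rw [if_pos hij]
        have h4 := (le_abs_self _).trans (hB (x i - x j))
        have h5 := mul_le_mul_of_nonneg_left h4 hcc
        have h6 := mul_nonneg hη0.le hcc
        linarith
      · rw [if_neg hij]
        have h4 := (le_abs_self _).trans (hT (x i - x j) (not_lt.1 hij))
        have h5 := mul_le_mul_of_nonneg_left h4 hcc
        linarith
    have h7 : ∑ i, ∑ j, c i * c j = 1 := by
      rw [← Finset.sum_mul_sum, hc1, one_mul]
    calc ∑ i, ∑ j, c i * c j * g (x i - x j) ≤ ∑ i, ∑ j, (η * (c i * c j) +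
          B * (if ‖x i - x j‖ < T then c i * c j else 0)) :=
          Finset.sum_le_sum fun i _ => Finset.sum_le_sum fun j _ => h3 i j
      _ = η * ∑ i, ∑ j, c i * c j +
          B * ∑ i, ∑ j, (if ‖x i - x j‖ < T then c i * c j else 0) := by
          simp only [Finset.sum_add_distrib, ← Finset.mul_sum]
      _ ≤ η * 1 + B * ((T + 2) / R) ^ 2 := by
          rw [h7]
          exact add_le_add_right (mul_le_mul_of_nonneg_left (hcT T hT0) hB0) _
      _ ≤ 2 * η := by linarith
  -- the test function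
  let G : (Fin (r + r) → ℝ) → ℝ := fun t =>
    min ((∑ i : Fin r, c i * (t (Fin.castAdd r i) * t (Fin.natAdd r i)) - K) ^ 2) (ε ^ 2)
  have hGc : Continuous G := by
    refine Continuous.min ?_ continuous_const
    refine Continuous.pow (Continuous.sub ?_ continuous_const) 2
    refine continuous_finsetSum _ fun i _ => ?_
    exact continuous_const.mul ((continuous_apply _).mul (continuous_apply _))
  have hG0 : ∀ t, 0 ≤ G t := fun t => le_min (sq_nonneg _) (sq_nonneg _)
  have hG1 : ∀ t, |G t| ≤ ε ^ 2 := fun t => by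
    rw [abs_of_nonneg (hG0 t)]
    exact min_le_right _ _
  have hlim := hF (r + r) (Fin.append x fun i => x i + a) G hGc ⟨ε ^ 2, hG1⟩
  have hms1 : Integrable (fun o => (∑ i, c i * (F (x i) o * F (x i + a) o) - K) ^ 2) P := hms.1
  have hms2 : ∫ o, (∑ i, c i * (F (x i) o * F (x i + a) o) - K) ^ 2 ∂P ≤ 2 * η :=
    hms.2.le.trans hle
  have hGF : ∀ o, G (fun i => F ((Fin.append x fun i => x i + a) i) o) =
      min ((∑ i, c i * (F (x i) o * F (x i + a) o) - K) ^ 2) (ε ^ 2) := by
    intro o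
    change min ((∑ i : Fin r, c i * (F ((Fin.append x fun i => x i + a) (Fin.castAdd r i)) o *
      F ((Fin.append x fun i => x i + a) (Fin.natAdd r i)) o) - K) ^ 2) (ε ^ 2) = _
    simp only [Fin.append_left, Fin.append_right]
  have hlimE : ∫ o, G (fun i => F ((Fin.append x fun i => x i + a) i) o) ∂P ≤ 2 * η := by
    refine le_trans ?_ hms2
    simp only [hGF]
    exact integral_mono_of_nonneg (Eventually.of_forall fun o =>
      le_min (sq_nonneg _) (sq_nonneg _)) hms1 (Eventually.of_forall fun o => min_le_left _ _)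
  have hevG : ∀ᶠ n in atTop, ∫ p, G (fun i => Berry.rWave ρ (φ n) (m n)
      ((Fin.append x fun i => x i + a) i) p) ∂(Berry.rFrameProb ρ D) ≤ 3 * η := by
    filter_upwards [hlim.eventually (gt_mem_nhds (show _ < 3 * η by linarith))] with n hn
    exact hn.le
  filter_upwards [hev, hevG, spatial_ok hS a R,
    wave_ok hS (Fin.append x fun i => x i + a)] with n hn1 hn2 hn3 hn4
  obtain ⟨hSm, CS, hCS⟩ := hn3
  obtain ⟨X, hX⟩ : ∃ X : ℍ × ℝ → ℝ, X = fun p => ∑ i, c i *
      (Berry.rWave ρ (φ n) (m n) (x i) p * Berry.rWave ρ (φ n) (m n) (x i + a) p) := ⟨_, rfl⟩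
  have hw1 : ∀ i, Measurable (Berry.rWave ρ (φ n) (m n) (x i)) ∧
      ∃ C : ℝ, ∀ p, |Berry.rWave ρ (φ n) (m n) (x i) p| ≤ C := by
    intro i
    have := hn4 (Fin.castAdd r i)
    rwa [Fin.append_left] at this
  have hw2 : ∀ i, Measurable (Berry.rWave ρ (φ n) (m n) (x i + a)) ∧
      ∃ C : ℝ, ∀ p, |Berry.rWave ρ (φ n) (m n) (x i + a) p| ≤ C := by
    intro i
    have := hn4 (Fin.natAdd r i)
    rwa [Fin.append_right] at this
  have hXm : Measurable X := by
    rw [hX]
    exact Finset.measurable_sum _ fun i _ => ((hw1 i).1.mul (hw2 i).1).const_mul _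
  choose C1 hC1 using fun i => (hw1 i).2
  choose C2 hC2 using fun i => (hw2 i).2
  have hXb : ∀ p, |X p| ≤ ∑ i, |c i| * (C1 i * C2 i) := by
    intro p
    rw [hX]
    refine (Finset.abs_sum_le_sum_abs _ _).trans (Finset.sum_le_sum fun i _ => ?_)
    rw [abs_mul, abs_mul]
    exact mul_le_mul_of_nonneg_left (mul_le_mul (hC1 i p) (hC2 i p) (abs_nonneg _)
      ((abs_nonneg _).trans (hC1 i p))) (abs_nonneg _)
  have hG : ∀ p, G (fun i => Berry.rWave ρ (φ n) (m n)
      ((Fin.append x fun i => x i + a) i) p) = min ((X p - K) ^ 2) (ε ^ 2) := by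
    intro p
    rw [hX]
    change min ((∑ i : Fin r, c i * (Berry.rWave ρ (φ n) (m n)
      ((Fin.append x fun i => x i + a) (Fin.castAdd r i)) p * Berry.rWave ρ (φ n) (m n)
      ((Fin.append x fun i => x i + a) (Fin.natAdd r i)) p) - K) ^ 2) (ε ^ 2) = _
    simp only [Fin.append_left, Fin.append_right]
  simp only [hG] at hn2
  have hmm : Measurable fun p => min ((X p - K) ^ 2) (ε ^ 2) :=
    ((hXm.sub_const K).pow_const 2).min measurable_const
  have hi1 : Integrable (fun p => min ((X p - K) ^ 2) (ε ^ 2)) (Berry.rFrameProb ρ D) := by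
    refine int_bdd (C := ε ^ 2) hmm fun p => ?_
    rw [abs_of_nonneg (le_min (sq_nonneg _) (sq_nonneg _))]
    exact min_le_right _ _
  have hSm' : Measurable fun p =>
      |Berry.spatialAvg (Berry.rWave ρ (φ n) (m n)) a R p - X p| := by
    have h3 := hSm.sub hXm
    exact h3.abs
  have hi2 : Integrable (fun p =>
      |Berry.spatialAvg (Berry.rWave ρ (φ n) (m n)) a R p - X p|) (Berry.rFrameProb ρ D) := by
    refine int_bdd (C := CS + ∑ i, |c i| * (C1 i * C2 i)) hSm' fun p => ?_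
    rw [abs_abs]
    exact (abs_sub _ _).trans (add_le_add (hCS p) (hXb p))
  have hM1 := mul_meas_ge_le_integral_of_nonneg
    (Eventually.of_forall fun p => le_min (sq_nonneg (X p - K)) (sq_nonneg ε)) hi1 (ε ^ 2 / 4)
  have hM2 := mul_meas_ge_le_integral_of_nonneg
    (Eventually.of_forall fun p => abs_nonneg
      (Berry.spatialAvg (Berry.rWave ρ (φ n) (m n)) a R p - X p)) hi2 (ε / 2)
  have hn1' : ∫ p, |Berry.spatialAvg (Berry.rWave ρ (φ n) (m n)) a R p - X p|
      ∂(Berry.rFrameProb ρ D) ≤ η := by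
    rw [hX]
    exact hn1
  have hsub : {p | ε < |Berry.spatialAvg (Berry.rWave ρ (φ n) (m n)) a R p - Berry.waveK a|} ⊆
      {p | ε ^ 2 / 4 ≤ min ((X p - K) ^ 2) (ε ^ 2)} ∪
      {p | ε / 2 ≤ |Berry.spatialAvg (Berry.rWave ρ (φ n) (m n)) a R p - X p|} := by
    intro p hp
    rw [mem_ofPred_eq, ← hK] at hp
    by_cases h3 : ε / 2 ≤ |Berry.spatialAvg (Berry.rWave ρ (φ n) (m n)) a R p - X p|
    · exact Or.inr h3
    · left
      rw [mem_ofPred_eq]
      have h4 : ε / 2 ≤ |X p - K| := by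
        have h5 := abs_sub_le (Berry.spatialAvg (Berry.rWave ρ (φ n) (m n)) a R p) (X p) K
        linarith [not_le.1 h3]
      refine le_min ?_ (by nlinarith)
      rw [← sq_abs (X p - K)]
      nlinarith
  have hfin := (measureReal_mono (μ := Berry.rFrameProb ρ D) hsub (measure_ne_top _ _)).trans
    (measureReal_union_le _ _)
  refine hfin.trans ?_
  have k1 : (Berry.rFrameProb ρ D).real {p | ε ^ 2 / 4 ≤ min ((X p - K) ^ 2) (ε ^ 2)} ≤
      3 * η / (ε ^ 2 / 4) := by
    rw [le_div_iff₀ (by positivity), mul_comm]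
    exact hM1.trans hn2
  have k2 : (Berry.rFrameProb ρ D).real
      {p | ε / 2 ≤ |Berry.spatialAvg (Berry.rWave ρ (φ n) (m n)) a R p - X p|} ≤
      η / (ε / 2) := by
    rw [le_div_iff₀ (by positivity), mul_comm]
    exact hM2.trans hn1'
  have k3 : 3 * η / (ε ^ 2 / 4) + η / (ε / 2) ≤ ε := by
    have h3 : 3 * η / (ε ^ 2 / 4) + η / (ε / 2) = (12 * ε + 2 * ε ^ 2) / (16 * (1 + ε)) := by
      rw [hη]
      field_simp
      ring
    rw [h3, div_le_iff₀ (by positivity)]
    nlinarith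
  linarith

end

end PKM
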