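import Pool.Agent.PKM.St1
import Pool.Agent.BSL.CUT
import Pool.Agent.BSL.ORD

/-!
# MOM: no loss of mass, and a finite fourth moment
-/

set_option autoImplicit false

open Complex MeasureTheory Filter Topology Set
open UpperHalfPlane hiding I
open scoped ContDiff MatrixGroups ProbabilityTheory ENNReal

namespace PKM

open QE QE.NC QJ U3 NFP BSL

noncomputable section

namespace MOM

variable {Γ : Subgroup SL(2, ℝ)} {D : Set ℍ} {ρ : ℍ → ℝ} {φ : ℕ → ℍ → ℝ} {m : ℕ → ℝ}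

/-- the truncation of a nonnegative number -/
def tr (Λ u : ℝ) : ℝ := min (max u 0) Λ

lemma tr_cont (Λ : ℝ) : Continuous (tr Λ) := (continuous_id.max continuous_const).min
  continuous_const

lemma tr_nonneg {Λ : ℝ} (hΛ : 0 ≤ Λ) (u : ℝ) : 0 ≤ tr Λ u := le_min (le_max_right _ _) hΛ

lemma tr_le {Λ : ℝ} (u : ℝ) : tr Λ u ≤ Λ := min_le_right _ _

lemma tr_le_self {Λ u : ℝ} (hu : 0 ≤ u) : tr Λ u ≤ u := by
  rw [tr, max_eq_left hu]
  exact min_le_left _ _

lemma tr_sq_le {Λ u d e : ℝ} (hΛ : 0 ≤ Λ) (hu : 0 ≤ u) (hd : 0 ≤ d) (he : 0 ≤ e)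
    (h : u ≤ d + e) : tr Λ u ^ 2 ≤ 2 * d ^ 2 + 2 * Λ * e := by
  have h0 := tr_nonneg hΛ u
  have h1 := tr_le (Λ := Λ) u
  have h2 := tr_le_self (Λ := Λ) hu
  rcases le_total e Λ with h3 | h3
  · have h4 : tr Λ u ≤ d + e := h2.trans h
    have h5 : tr Λ u ^ 2 ≤ (d + e) ^ 2 := pow_le_pow_left₀ h0 h4 2
    have h6 : (d + e) ^ 2 ≤ 2 * d ^ 2 + 2 * e ^ 2 := by nlinarith [sq_nonneg (d - e)]
    have h7 : e ^ 2 ≤ Λ * e := by nlinarith
    linarith
  · have h5 : tr Λ u ^ 2 ≤ Λ ^ 2 := pow_le_pow_left₀ h0 h1 2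
    have h6 : Λ ^ 2 ≤ Λ * e := by nlinarith
    have h7 : 0 ≤ Λ * e := mul_nonneg hΛ he
    have h8 : 0 ≤ d ^ 2 := sq_nonneg d
    nlinarith

lemma le_tr {Λ u d e : ℝ} (hΛ : 0 < Λ) (hu : 0 ≤ u) (he : 0 ≤ e)
    (h : u ≤ d + e) : u ≤ tr Λ u + (e + d ^ 2 / Λ) := by
  rw [tr, max_eq_left hu]
  have h8 : 0 ≤ d ^ 2 / Λ := by positivity
  rcases le_total u Λ with h3 | h3
  · rw [min_eq_left h3]
    linarith
  · rw [min_eq_right h3]
    have h4 : d ≤ Λ + d ^ 2 / Λ := by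
      have h5 : d * Λ ≤ Λ ^ 2 + d ^ 2 := by nlinarith [sq_nonneg (d - Λ)]
      have h6 : Λ + d ^ 2 / Λ = (Λ ^ 2 + d ^ 2) / Λ := by field_simp
      rw [h6, le_div_iff₀ hΛ]
      exact h5
    linarith

/-- integrals of functions of the square -/
lemma int_eq [Countable Γ] (hS : Sur Γ D ρ φ m) {ζ : ℂ → ℝ} (hζ : CutF Γ D ρ ζ) (n : ℕ)
    {G : ℝ → ℝ} (hG : Continuous G) :
    Integrable (fun z => ζ z * G (φ n (ofComplex z) ^ 2)) ∧
      ∫ z, ζ z * G (φ n (ofComplex z) ^ 2) = Berry.rAvg ρ D (fun z => G (φ n z ^ 2)) := by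
  have hc : Continuous fun z => G (φ n z ^ 2) := hG.comp ((UIF.phi_cont hS n).pow 2)
  have hi : ∀ γ ∈ Γ, ∀ z, G (φ n (γ • z) ^ 2) = G (φ n z ^ 2) := fun γ hγ z => by
    rw [hS.eig.invariant n γ hγ z]
  obtain ⟨b, hb⟩ := Berry.bdd_of_cocompact hc hi hS.fac.cpt
  have hfD : IntegrableOn (fun z => G (φ n z ^ 2)) D (volume : Measure ℍ) := by
    have : IsFiniteMeasure ((volume : Measure ℍ).restrict D) :=
      ⟨by rw [Measure.restrict_apply_univ]; exact (UIF.geo hS).fin.lt_top⟩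
    exact Integrable.of_bound hc.measurable.aestronglyMeasurable b (Eventually.of_forall hb)
  exact hζ.int _ hc.measurable hfD hi

/-- convergence of the bounded functions of the square -/
lemma lim_eq [Countable Γ] (hS : Sur Γ D ρ φ m) {Ω : Type} [MeasurableSpace Ω] {P : Measure Ω}
    {F : ℂ → Ω → ℝ} (hL : FLim ρ D φ m P F) {ζ : ℂ → ℝ} (hζ : CutF Γ D ρ ζ)
    {G : ℝ → ℝ} (hG : Continuous G) (hb : ∃ C, ∀ x, |G x| ≤ C) :
    Tendsto (fun n => ∫ z, ζ z * G (φ n (ofComplex z) ^ 2)) atTop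
      (𝓝 (∫ o, G (F 0 o ^ 2) ∂P)) := by
  have hρ : Continuous ρ := QE.continuous_of_smooth hS.fac.smooth
  have hg : Berry.Geo Γ ρ D := QE.NC.geo_of hS.mD hS.fd hS.fac.cpt hρ hS.fac.inv
  obtain ⟨C, hC⟩ := hb
  have k1 := hL 1 (fun _ => 0) (fun t => G (t 0 ^ 2))
    (hG.comp ((continuous_apply 0).pow 2)) ⟨C, fun t => hC _⟩
  refine k1.congr fun n => ?_
  rw [(int_eq hS hζ n hG).2, ← QE.NC.rFrame_base hg]
  refine integral_congr_ae (Eventually.of_forall fun p => ?_)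
  beta_reduce
  rw [QE.NC.rWave_origin]

end MOM

open MOM in
/-- **MOM**: no loss of mass, and a finite fourth moment. -/
theorem t_MOM (h1 : StmtDmn) : StmtMom := by
  intro Γ _ D ρ φ m hS Ω _ P _ F hF hL hLLN μ hμ
  obtain ⟨ζ, hζ⟩ := BSL.t_CUT Γ D ρ hS.mD hS.fd hS.fac
  obtain ⟨C, hC⟩ := h1 Γ D ρ φ m hS Ω P F hF hL hLLN μ hμ ζ hζ
  have hsupp : ∀ z, z ∉ tsupport (fun z => (ζ z : ℂ)) → ζ z = 0 := by
    intro z hz
    have := image_eq_zero_of_notMem_tsupport hz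
    exact_mod_cast this
  have hlim : ∀ G : ℝ → ℝ, Continuous G → (∃ C, ∀ x, |G x| ≤ C) →
      Tendsto (fun n => ∫ z, ζ z * G (φ n (ofComplex z) ^ 2)) atTop
        (𝓝 (∫ o, G (F 0 o ^ 2) ∂P)) := fun G hG hb => lim_eq hS hL hζ hG hb
  -- the second moment of the truncations
  have b1 : ∀ Λ : ℝ, 0 ≤ Λ → ∫ o, tr Λ (F 0 o ^ 2) ^ 2 ∂P ≤ 2 * C := by
    intro Λ hΛ
    have key : ∀ ε > 0, ∫ o, tr Λ (F 0 o ^ 2) ^ 2 ∂P ≤ 2 * C + 2 * Λ * ε := by
      intro ε hε
      refine le_of_tendsto (hlim (fun u => tr Λ u ^ 2) ((tr_cont Λ).pow 2)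
        ⟨Λ ^ 2, fun u => by
          rw [abs_of_nonneg (sq_nonneg _)]
          exact pow_le_pow_left₀ (tr_nonneg hΛ u) (tr_le u) 2⟩) ?_
      filter_upwards [hC ε hε] with n hn
      obtain ⟨d, e, hd, he, i1, i2, hle, j1, j2⟩ := hn
      have hi := (int_eq hS hζ n (G := fun u => tr Λ u ^ 2) ((tr_cont Λ).pow 2)).1
      have hR : Integrable (fun z => 2 * (ζ z * d z ^ 2) + 2 * Λ * (ζ z * e z)) :=
        (i1.const_mul 2).add (i2.const_mul (2 * Λ))
      calc ∫ z, ζ z * tr Λ (φ n (ofComplex z) ^ 2) ^ 2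
          ≤ ∫ z, (2 * (ζ z * d z ^ 2) + 2 * Λ * (ζ z * e z)) := by
            refine integral_mono hi hR fun z => ?_
            by_cases hz : z ∈ tsupport (fun z => (ζ z : ℂ))
            · have h3 := tr_sq_le hΛ (sq_nonneg (φ n (ofComplex z))) (hd z) (he z) (hle z hz)
              have h4 := mul_le_mul_of_nonneg_left h3 (hζ.nonneg z)
              calc ζ z * tr Λ (φ n (ofComplex z) ^ 2) ^ 2
                  ≤ ζ z * (2 * d z ^ 2 + 2 * Λ * e z) := h4
                _ = 2 * (ζ z * d z ^ 2) + 2 * Λ * (ζ z * e z) := by ring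
            · simp [hsupp z hz]
        _ = 2 * (∫ z, ζ z * d z ^ 2) + 2 * Λ * ∫ z, ζ z * e z := by
            rw [integral_add (i1.const_mul 2) (i2.const_mul (2 * Λ)), integral_const_mul,
              integral_const_mul]
        _ ≤ 2 * C + 2 * Λ * ε := by
            have := mul_le_mul_of_nonneg_left j2 (by positivity : (0 : ℝ) ≤ 2 * Λ)
            linarith
    refine le_of_forall_pos_le_add fun ε hε => ?_
    have h3 := key (ε / (2 * Λ + 1)) (by positivity)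
    have h4 : 2 * Λ * (ε / (2 * Λ + 1)) ≤ ε := by
      rw [mul_div_assoc', div_le_iff₀ (by positivity)]
      nlinarith
    linarith
  -- the mass of the truncations
  have b2 : ∀ Λ : ℝ, 0 < Λ → 1 - C / Λ ≤ ∫ o, tr Λ (F 0 o ^ 2) ∂P := by
    intro Λ hΛ
    refine le_of_forall_pos_le_add fun ε hε => ?_
    rw [← sub_le_iff_le_add]
    refine ge_of_tendsto (hlim (tr Λ) (tr_cont Λ)
      ⟨Λ, fun u => by rw [abs_of_nonneg (tr_nonneg hΛ.le u)]; exact tr_le u⟩) ?_
    filter_upwards [hC ε hε] with n hn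
    obtain ⟨d, e, hd, he, i1, i2, hle, j1, j2⟩ := hn
    have hi := (int_eq hS hζ n (tr_cont Λ)).1
    have hi2 := (int_eq hS hζ n (G := fun u => u) continuous_id).1
    have hm := ORD.mass hS hζ n
    have hR : Integrable (fun z => ζ z * tr Λ (φ n (ofComplex z) ^ 2)
        + (ζ z * e z + 1 / Λ * (ζ z * d z ^ 2))) := hi.add (i2.add (i1.const_mul (1 / Λ)))
    have h5 : (1 : ℝ) ≤ (∫ z, ζ z * tr Λ (φ n (ofComplex z) ^ 2)) + (ε + C / Λ) := by
      calc (1 : ℝ) = ∫ z, ζ z * φ n (ofComplex z) ^ 2 := hm.symm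
        _ ≤ ∫ z, (ζ z * tr Λ (φ n (ofComplex z) ^ 2)
              + (ζ z * e z + 1 / Λ * (ζ z * d z ^ 2))) := by
            refine integral_mono hi2 hR fun z => ?_
            by_cases hz : z ∈ tsupport (fun z => (ζ z : ℂ))
            · have h3 := le_tr hΛ (sq_nonneg (φ n (ofComplex z))) (he z) (hle z hz)
              have h4 := mul_le_mul_of_nonneg_left h3 (hζ.nonneg z)
              calc ζ z * φ n (ofComplex z) ^ 2
                  ≤ ζ z * (tr Λ (φ n (ofComplex z) ^ 2) + (e z + d z ^ 2 / Λ)) := h4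
                _ = ζ z * tr Λ (φ n (ofComplex z) ^ 2)
                    + (ζ z * e z + 1 / Λ * (ζ z * d z ^ 2)) := by ring
            · simp [hsupp z hz]
        _ = (∫ z, ζ z * tr Λ (φ n (ofComplex z) ^ 2))
              + ((∫ z, ζ z * e z) + 1 / Λ * ∫ z, ζ z * d z ^ 2) := by
            have e1 := integral_add (μ := volume) hi (i2.add (i1.const_mul (1 / Λ)))
            have e2 := integral_add (μ := volume) i2 (i1.const_mul (1 / Λ))
            rw [integral_const_mul] at e2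
            rw [← e2]
            exact e1
        _ ≤ (∫ z, ζ z * tr Λ (φ n (ofComplex z) ^ 2)) + (ε + C / Λ) := by
            have h6 : 1 / Λ * ∫ z, ζ z * d z ^ 2 ≤ C / Λ := by
              rw [one_div, inv_mul_eq_div]
              exact div_le_div_of_nonneg_right j1 hΛ.le
            linarith
    linarith
  have b3 : ∀ Λ : ℝ, 0 < Λ → ∫ o, tr Λ (F 0 o ^ 2) ∂P ≤ 1 := by
    intro Λ hΛ
    refine le_of_tendsto (hlim (tr Λ) (tr_cont Λ)
      ⟨Λ, fun u => by rw [abs_of_nonneg (tr_nonneg hΛ.le u)]; exact tr_le u⟩)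
      (Eventually.of_forall fun n => ?_)
    rw [← ORD.mass hS hζ n]
    refine integral_mono (int_eq hS hζ n (tr_cont Λ)).1
      (int_eq hS hζ n (G := fun u => u) continuous_id).1 fun z => ?_
    exact mul_le_mul_of_nonneg_left (tr_le_self (sq_nonneg _)) (hζ.nonneg z)
  -- the fourth moment
  have hmF : Measurable (fun o => F 0 o ^ 2) := (hF 0).pow_const 2
  have hmt : ∀ k : ℕ, Measurable (fun o => tr k (F 0 o ^ 2) ^ 2) := fun k =>
    ((tr_cont k).measurable.comp hmF).pow_const 2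
  have hconv : ∀ o, ∀ᶠ k : ℕ in atTop, tr k (F 0 o ^ 2) = F 0 o ^ 2 := by
    intro o
    filter_upwards [eventually_ge_atTop ⌈F 0 o ^ 2⌉₊] with k hk
    rw [tr, max_eq_left (sq_nonneg _), min_eq_left]
    exact (Nat.le_ceil _).trans (Nat.cast_le.2 hk)
  have h4 : Integrable (fun o => F 0 o ^ 4) P := by
    refine ⟨((hF 0).pow_const 4).aestronglyMeasurable, ?_⟩
    have e1 : ∀ o, ‖F 0 o ^ 4‖ₑ = liminf (fun k : ℕ => ENNReal.ofReal (tr k (F 0 o ^ 2) ^ 2))
        atTop := by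
      intro o
      have h5 : Tendsto (fun k : ℕ => ENNReal.ofReal (tr k (F 0 o ^ 2) ^ 2)) atTop
          (𝓝 ‖F 0 o ^ 4‖ₑ) := by
        refine tendsto_const_nhds.congr' ?_
        filter_upwards [hconv o] with k hk
        rw [hk, ← pow_mul, Real.enorm_eq_ofReal (by positivity)]
      exact h5.liminf_eq.symm
    show ∫⁻ o, ‖F 0 o ^ 4‖ₑ ∂P < ⊤
    simp_rw [e1]
    refine lt_of_le_of_lt (lintegral_liminf_le fun k => (hmt k).ennreal_ofReal) ?_
    refine lt_of_le_of_lt (b := ENNReal.ofReal (2 * C)) ?_ ENNReal.ofReal_lt_top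
    refine liminf_le_of_le (by isBoundedDefault) fun b hb => ?_
    obtain ⟨k, hk⟩ := hb.exists
    refine hk.trans ?_
    have i3 : Integrable (fun o => tr k (F 0 o ^ 2) ^ 2) P :=
      Integrable.of_bound (hmt k).aestronglyMeasurable ((k : ℝ) ^ 2)
        (Eventually.of_forall fun o => by
          rw [Real.norm_eq_abs, abs_of_nonneg (sq_nonneg _)]
          exact pow_le_pow_left₀ (tr_nonneg (Nat.cast_nonneg k) _) (tr_le _) 2)
    rw [← ofReal_integral_eq_lintegral_ofReal i3 (Eventually.of_forall fun o => sq_nonneg _)]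
    exact ENNReal.ofReal_le_ofReal (b1 k (Nat.cast_nonneg k))
  have h2 : Integrable (fun o => F 0 o ^ 2) P := by
    refine (((integrable_const (1 : ℝ)).add h4)).mono' hmF.aestronglyMeasurable
      (Eventually.of_forall fun o => ?_)
    rw [Real.norm_eq_abs, abs_of_nonneg (sq_nonneg _)]
    show F 0 o ^ 2 ≤ 1 + F 0 o ^ 4
    nlinarith [sq_nonneg (F 0 o ^ 2 - 1), sq_nonneg (F 0 o ^ 2)]
  refine ⟨?_, h4⟩
  have t1 : Tendsto (fun k : ℕ => ∫ o, tr k (F 0 o ^ 2) ∂P) atTop (𝓝 (∫ o, F 0 o ^ 2 ∂P)) := by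
    refine tendsto_integral_of_dominated_convergence (fun o => F 0 o ^ 2)
      (fun k => ((tr_cont k).measurable.comp hmF).aestronglyMeasurable) h2
      (fun k => Eventually.of_forall fun o => ?_) (Eventually.of_forall fun o => ?_)
    · rw [Real.norm_eq_abs]
      show |tr k (F 0 o ^ 2)| ≤ _
      rw [abs_of_nonneg (tr_nonneg (Nat.cast_nonneg k) _)]
      exact tr_le_self (sq_nonneg _)
    · refine tendsto_const_nhds.congr' ?_
      filter_upwards [hconv o] with k hk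
      exact hk.symm
  have t2 : Tendsto (fun k : ℕ => ∫ o, tr k (F 0 o ^ 2) ∂P) atTop (𝓝 1) := by
    have l1 : Tendsto (fun k : ℕ => 1 - C / (k : ℝ)) atTop (𝓝 (1 - 0)) :=
      tendsto_const_nhds.sub (tendsto_const_div_atTop_nhds_zero_nat C)
    rw [sub_zero] at l1
    refine tendsto_of_tendsto_of_tendsto_of_le_of_le' l1 tendsto_const_nhds ?_ ?_
    · filter_upwards [eventually_gt_atTop 0] with k hk
      exact b2 k (Nat.cast_pos.2 hk)
    · filter_upwards [eventually_gt_atTop 0] with k hk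
      exact b3 k (Nat.cast_pos.2 hk)
  exact tendsto_nhds_unique t1 t2

end

end PKM
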