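import Pool.Agent.PKM.St1
import Pool.Agent.PWV.St
import Pool.Agent.BSL.AllE

/-!
NWK: the covariances of waves without directional atoms tend to zero.
-/

open Complex MeasureTheory Filter Topology Set
open UpperHalfPlane hiding I
open scoped ContDiff MatrixGroups ProbabilityTheory ENNReal

namespace PKM

open QE QE.NC QJ U3 NFP BSL

noncomputable section

namespace NWK

/-- the kernel -/
def Ke (u : ℂ) (p : S1 × S1) : ℝ :=
  Berry.waveK ((0 - u) * (starRingEnd ℂ) ((p.1 : ℂ) - p.2))
    + Berry.waveK ((0 - u) * (starRingEnd ℂ) ((p.1 : ℂ) + p.2))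

lemma cont_Ke (u : ℂ) : Continuous (Ke u) := by
  unfold Ke
  have h := Berry.waveK_continuous
  exact (h.comp (by fun_prop)).add (h.comp (by fun_prop))

lemma abs_Ke (u : ℂ) (p : S1 × S1) : |Ke u p| ≤ 2 := by
  unfold Ke
  refine (abs_add_le _ _).trans ?_
  have h1 := Berry.waveK_abs_le ((0 - u) * (starRingEnd ℂ) ((p.1 : ℂ) - p.2))
  have h2 := Berry.waveK_abs_le ((0 - u) * (starRingEnd ℂ) ((p.1 : ℂ) + p.2))
  linarith

variable (s : Measure S1) [IsFiniteMeasure s]

lemma int_Ke (u : ℂ) : Integrable (Ke u) (s.prod s) :=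
  Integrable.of_bound (cont_Ke u).aestronglyMeasurable 2 (Eventually.of_forall fun p => abs_Ke u p)

/-- the mean over the rotations of the square of the covariance -/
lemma gk_sq (v : ℂ) : ∫ θ in (0 : ℝ)..(2 * Real.pi), ONE.gk s v θ ^ 2
    = Real.pi * ∫ p : S1 × S1, (Berry.waveK (v * (starRingEnd ℂ) ((p.1 : ℂ) - p.2))
      + Berry.waveK (v * (starRingEnd ℂ) ((p.1 : ℂ) + p.2))) ∂(s.prod s) := by
  have hpi := Real.pi_pos
  have hc : Continuous fun q : ℝ × (S1 × S1) =>
      Real.cos (ATM.D q.1 v q.2.1) * Real.cos (ATM.D q.1 v q.2.2) := by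
    unfold ATM.D
    fun_prop
  have e1 : ∀ θ : ℝ, ONE.gk s v θ ^ 2 = ∫ p : S1 × S1,
      Real.cos (ATM.D θ v p.1) * Real.cos (ATM.D θ v p.2) ∂(s.prod s) := by
    intro θ
    rw [← ATM.prodK, sq]
    rfl
  simp only [e1]
  rw [intervalIntegral.integral_of_le (by positivity), integral_integral_swap]
  · rw [← integral_const_mul]
    refine integral_congr_ae (Eventually.of_forall fun p => ?_)
    beta_reduce
    rw [← intervalIntegral.integral_of_le (by positivity)]
    have e2 : ∀ θ : ℝ, Real.cos (ATM.D θ v p.1) * Real.cos (ATM.D θ v p.2)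
        = 1 / 2 * (Real.cos (Complex.exp (θ * Complex.I)
            * (v * (starRingEnd ℂ) ((p.1 : ℂ) - p.2))).re
          + Real.cos (Complex.exp (θ * Complex.I)
            * (v * (starRingEnd ℂ) ((p.1 : ℂ) + p.2))).re) := by
      intro θ
      rw [← mul_assoc, ← mul_assoc]
      have e3 : (Complex.exp (θ * Complex.I) * v * (starRingEnd ℂ) ((p.1 : ℂ) - p.2)).re
          = ATM.D θ v p.1 - ATM.D θ v p.2 := ATM.D_sub_r θ v p.1 p.2
      have e4 : (Complex.exp (θ * Complex.I) * v * (starRingEnd ℂ) ((p.1 : ℂ) + p.2)).re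
          = ATM.D θ v p.1 + ATM.D θ v p.2 := ATM.D_add_r θ v p.1 p.2
      rw [e3, e4, Real.cos_sub, Real.cos_add]
      ring
    simp only [e2]
    rw [intervalIntegral.integral_const_mul, intervalIntegral.integral_add
      (Continuous.intervalIntegrable (by fun_prop) _ _)
      (Continuous.intervalIntegrable (by fun_prop) _ _), FUA.avg_angle, FUA.avg_angle]
    ring
  · refine Integrable.of_bound hc.aestronglyMeasurable 1 (Eventually.of_forall fun q => ?_)
    unfold Function.uncurry
    beta_reduce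
    rw [norm_mul, Real.norm_eq_abs, Real.norm_eq_abs]
    exact mul_le_one₀ (Real.abs_cos_le_one _) (abs_nonneg _) (Real.abs_cos_le_one _)

/-- the covariance of the squares at the points `0`, `u` -/
lemma dif (u : ℂ) : dirWick s ![0, 0, u, u] - (s univ).toReal ^ 2 = ∫ p, Ke u p ∂(s.prod s) := by
  have hpi : (2 * Real.pi : ℝ) ≠ 0 := by have := Real.pi_pos; positivity
  have hpi' : (Real.pi : ℝ) ≠ 0 := Real.pi_ne_zero
  have hc := ONE.cont_gk s (0 - u)
  have h1 : dirWick s ![0, 0, u, u] = 1 / (2 * Real.pi) * ∫ θ in (0 : ℝ)..(2 * Real.pi),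
      ((s univ).toReal ^ 2 + 2 * ONE.gk s (0 - u) θ ^ 2) := by
    unfold dirWick
    congr 1
    refine intervalIntegral.integral_congr fun θ _ => ?_
    simp only [Matrix.cons_val_zero, Matrix.cons_val_one, Matrix.cons_val]
    rw [sub_self, sub_self, mul_zero, ONE.dirK_zero]
    unfold ONE.gk
    ring
  rw [h1, intervalIntegral.integral_add, intervalIntegral.integral_const_mul,
    intervalIntegral.integral_const, smul_eq_mul, sub_zero, gk_sq]
  · unfold Ke
    field_simp
    ring
  · exact continuous_const.intervalIntegrable _ _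
  · exact ((hc.pow 2).const_mul _).intervalIntegrable _ _

lemma dif_le (u : ℂ) : |dirWick s ![0, 0, u, u] - (s univ).toReal ^ 2|
    ≤ 2 * (s univ).toReal ^ 2 := by
  rw [dif]
  have h := norm_integral_le_of_norm_le_const (μ := s.prod s) (C := 2) (f := Ke u)
    (Eventually.of_forall fun p => abs_Ke u p)
  rw [Real.norm_eq_abs] at h
  refine h.trans (le_of_eq ?_)
  rw [← Set.univ_prod_univ, measureReal_prod_prod]
  rw [sq]
  rfl

/-- `K` vanishes at infinity -/
lemma wave_lim {c : ℂ} (hc : c ≠ 0) :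
    Tendsto (fun u : ℂ => Berry.waveK ((0 - u) * c)) (comap norm atTop) (𝓝 0) := by
  rw [Metric.tendsto_nhds]
  intro ε hε
  obtain ⟨N, hN⟩ := Berry.waveK_vanishes (ε / 2) (by positivity)
  have hcn : 0 < ‖c‖ := norm_pos_iff.2 hc
  have h1 : ∀ᶠ u : ℂ in comap norm atTop, N / ‖c‖ ≤ ‖u‖ :=
    tendsto_comap.eventually (eventually_ge_atTop (N / ‖c‖))
  filter_upwards [h1] with u hu
  have h2 : N ≤ ‖(0 - u) * c‖ := by
    rw [norm_mul, zero_sub, norm_neg]
    rwa [div_le_iff₀ hcn] at hu
  have h3 := hN _ h2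
  rw [Real.dist_eq, sub_zero]
  linarith

/-- without atoms, the covariances tend to zero -/
lemma dif_lim (h1 : (s.prod s) {p : S1 × S1 | p.1 = p.2} = 0)
    (h2 : (s.prod s) {p : S1 × S1 | p.1 = -p.2} = 0) :
    Tendsto (fun u : ℂ => dirWick s ![0, 0, u, u] - (s univ).toReal ^ 2) (comap norm atTop)
      (𝓝 0) := by
  simp only [dif]
  have h3 : Tendsto (fun u : ℂ => ∫ p, Ke u p ∂(s.prod s)) (comap norm atTop)
      (𝓝 (∫ _p : S1 × S1, (0 : ℝ) ∂(s.prod s))) := by
    refine tendsto_integral_filter_of_dominated_convergence (fun _ => 2)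
      (Eventually.of_forall fun u => (cont_Ke u).aestronglyMeasurable)
      (Eventually.of_forall fun u => Eventually.of_forall fun p => abs_Ke u p)
      (integrable_const _) ?_
    have a1 : ∀ᵐ p : S1 × S1 ∂(s.prod s), ¬ p.1 = p.2 := by
      rw [ae_iff]
      simpa using h1
    have a2 : ∀ᵐ p : S1 × S1 ∂(s.prod s), ¬ p.1 = -p.2 := by
      rw [ae_iff]
      simpa using h2
    filter_upwards [a1, a2] with p b1 b2
    have c1 : (starRingEnd ℂ) ((p.1 : ℂ) - p.2) ≠ 0 := by
      rw [ne_eq, map_eq_zero, sub_eq_zero]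
      exact fun h => b1 (Subtype.ext h)
    have c2 : (starRingEnd ℂ) ((p.1 : ℂ) + p.2) ≠ 0 := by
      rw [ne_eq, map_eq_zero, add_eq_zero_iff_eq_neg]
      exact fun h => b2 (Subtype.ext h)
    have h4 := (wave_lim c1).add (wave_lim c2)
    rw [add_zero] at h4
    exact h4
  rwa [integral_zero] at h3

end NWK

open NWK in
theorem t_NWK (hZ : PWV.StmtZdi) : StmtNwk := by
  intro Γ _ D ρ φ m s κ hS hSem hE hNA η hη
  have hdia := hZ Γ D ρ φ m s hS hSem hNA
  have hg : Berry.Geo Γ ρ D :=
    geo_of hE.mD hE.fd hE.fac.cpt (continuous_of_smooth hE.fac.smooth) hE.fac.inv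
  have hP := ONE.prob_nu hg
  have js2 := ONE.int_nu hg hE.sq
  have jd := ONE.int_nu hg hE.di
  have hfin := hE.fin
  have jw : ∀ x : Fin 4 → ℂ, Integrable (fun z => dirWick (s z) x)
      (ProbabilityTheory.cond (Berry.area ρ) D) := fun x => ONE.int_nu hg (hE.dw x)
  have hodd := HUL.ae_cond (ρ := ρ) (D := D) (HUL.odd_zero hE.fam)
  unfold Berry.rAvg at hdia
  unfold Berry.rAvg
  have hdz : ∀ᵐ z ∂(ProbabilityTheory.cond (Berry.area ρ) D), dia (s z) = 0 :=
    (integral_eq_zero_iff_of_nonneg (fun z => ENNReal.toReal_nonneg) jd).1 hdia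
  have hlim : Tendsto (fun u : ℂ => ∫ z, (dirWick (s z) ![0, 0, u, u]
      - ((s z) univ).toReal ^ 2) ∂(ProbabilityTheory.cond (Berry.area ρ) D)) (comap norm atTop)
      (𝓝 (∫ _z : ℍ, (0 : ℝ) ∂(ProbabilityTheory.cond (Berry.area ρ) D))) := by
    refine tendsto_integral_filter_of_dominated_convergence
      (fun z => 2 * ((s z) univ).toReal ^ 2)
      (Eventually.of_forall fun u => ((jw ![0, 0, u, u]).sub js2).aestronglyMeasurable)
      (Eventually.of_forall fun u => Eventually.of_forall fun z => ?_)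
      (js2.const_mul 2) ?_
    · have := hfin z
      exact dif_le (s z) u
    · filter_upwards [hdz, hodd] with z h1 h2
      have := hfin z
      have h3 : ((s z).prod (s z)) {p : S1 × S1 | p.1 = p.2} = 0 := by
        have h4 : (((s z).prod (s z)) {p : S1 × S1 | p.1 = p.2}).toReal = 0 := h1
        rw [ENNReal.toReal_eq_zero_iff] at h4
        exact h4.resolve_right (measure_ne_top _ _)
      have h5 : ((s z).prod (s z)) {p : S1 × S1 | p.1 = -p.2} = 0 := by
        have h4 : (((s z).prod (s z)) {p : S1 × S1 | p.1 = -p.2}).toReal = 0 := by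
          rw [(t_WIE (s z) this).2 h2, h1]
        rw [ENNReal.toReal_eq_zero_iff] at h4
        exact h4.resolve_right (measure_ne_top _ _)
      exact dif_lim (s z) h3 h5
  rw [integral_zero] at hlim
  have h6 : ∀ᶠ u : ℂ in comap norm atTop, |∫ z, (dirWick (s z) ![0, 0, u, u]
      - ((s z) univ).toReal ^ 2) ∂(ProbabilityTheory.cond (Berry.area ρ) D)| < η := by
    have h7 := (Metric.tendsto_nhds.1 hlim) η hη
    filter_upwards [h7] with u hu
    rwa [Real.dist_eq, sub_zero] at hu
  rw [eventually_comap] at h6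
  obtain ⟨T, hT⟩ := eventually_atTop.1 h6
  refine ⟨T, fun u hu => ?_⟩
  have h8 := hT ‖u‖ hu u rfl
  rw [integral_sub (jw _) js2] at h8
  exact h8.le

end

end PKM
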