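import Pool.Agent.PKM.St1
import Pool.Agent.BSL.UIF

/-!
# PKM: module PLL, from the discs to the law of large numbers (helper98)
-/

set_option autoImplicit false

open Complex MeasureTheory Filter Topology Set
open UpperHalfPlane hiding I
open scoped ContDiff MatrixGroups ProbabilityTheory ENNReal

namespace PKM

open QE QE.NC QJ U3 NFP BSL

noncomputable section

namespace PLL

variable {Γ : Subgroup SL(2, ℝ)} {D : Set ℍ} {ρ : ℍ → ℝ} {φ : ℕ → ℍ → ℝ} {m : ℕ → ℝ}

lemma surf [Countable Γ] (hS : Sur Γ D ρ φ m) : Berry.Surf Γ ρ D φ m :=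
  ⟨UIF.geo hS, hS.eig,
    fun n => Berry.bdd_of_cocompact (UIF.phi_cont hS n) (hS.eig.invariant n) hS.fac.cpt⟩

/-- for large `n` the waves at finitely many points are measurable and bounded -/
lemma pts [Countable Γ] (hS : Sur Γ D ρ φ m) {k : ℕ} (x : Fin k → ℂ) :
    ∀ᶠ n in atTop, ∀ i, Measurable (Berry.rWave ρ (φ n) (m n) (x i)) ∧
      ∃ C : ℝ, ∀ p, |Berry.rWave ρ (φ n) (m n) (x i) p| ≤ C := by
  filter_upwards [UIF.wc hS x] with n hn i
  obtain ⟨C, hC⟩ := (surf hS).bdd n
  exact ⟨(hn i).measurable, C, fun p => hC _⟩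

/-- for large `n` the averages over the disc are measurable and bounded -/
lemma avg [Countable Γ] (hS : Sur Γ D ρ φ m) (a : ℂ) (R : ℝ) :
    ∀ᶠ n in atTop, Measurable (Berry.spatialAvg (Berry.rWave ρ (φ n) (m n)) a R) ∧
      ∃ C : ℝ, ∀ p, |Berry.spatialAvg (Berry.rWave ρ (φ n) (m n)) a R p| ≤ C := by
  have hprob : IsProbabilityMeasure (Berry.rFrameProb ρ D) := Berry.rFrameProb_isProb (UIF.geo hS)
  filter_upwards [(surf hS).spatial_ev (R := fun n => n) tendsto_id a R] with n hn
  obtain ⟨h1, C, h2⟩ := Berry.SingleW.spatial_meas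
    ((surf hS).wW_single (fun n => n) n (Berry.rFrameProb ρ D)) a R
  have e : Berry.spatialAvg (Berry.wW ρ φ m (fun n => n) n) a R =
      Berry.spatialAvg (Berry.rWave ρ (φ n) (m n)) a R := funext hn
  rw [e] at h1 h2
  exact ⟨h1, C, h2⟩

/-- the test function -/
def g (K ε s : ℝ) : ℝ := min (max (2 / ε * (|s - K| - ε / 2)) 0) 1

lemma g_cont (K ε : ℝ) : Continuous (g K ε) := by
  unfold g
  fun_prop

lemma g_nonneg (K ε s : ℝ) : 0 ≤ g K ε s := le_min (le_max_right _ _) zero_le_one

lemma g_le (K ε s : ℝ) : g K ε s ≤ 1 := min_le_right _ _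

lemma g_abs (K ε s : ℝ) : |g K ε s| ≤ 1 := by
  rw [abs_of_nonneg (g_nonneg K ε s)]
  exact g_le K ε s

lemma g_one {K ε s : ℝ} (hε : 0 < ε) (hs : ε < |s - K|) : g K ε s = 1 := by
  unfold g
  apply min_eq_right
  refine le_max_of_le_left ?_
  have h : 2 / ε * (ε / 2) ≤ 2 / ε * (|s - K| - ε / 2) :=
    mul_le_mul_of_nonneg_left (by linarith) (by positivity)
  have e : 2 / ε * (ε / 2) = 1 := by field_simp
  linarith

lemma g_zero {K ε s : ℝ} (hε : 0 < ε) (hs : |s - K| ≤ ε / 2) : g K ε s = 0 := by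
  unfold g
  have h : 2 / ε * (|s - K| - ε / 2) ≤ 0 :=
    mul_nonpos_of_nonneg_of_nonpos (by positivity) (by linarith)
  rw [max_eq_right h]
  exact min_eq_left zero_le_one

end PLL

open PLL in
theorem t_PLL (hRis : StmtRis) : StmtPll := by
  intro Γ _ D ρ φ m hS Ω _ P _ F hF hL a hP ε hε
  have hprob : IsProbabilityMeasure (Berry.rFrameProb ρ D) := Berry.rFrameProb_isProb (UIF.geo hS)
  obtain ⟨R₀, hR₀⟩ := hP (ε / 4) (by linarith)
  obtain ⟨r, c, x, hc0, hc1, -, hx⟩ := hRis Γ D ρ φ m hS a (max R₀ 1)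
    (lt_of_lt_of_le one_pos (le_max_right _ _)) (ε ^ 2 / 16) (by positivity)
  refine ⟨r, c, x, hc0, hc1, ?_⟩
  set K : ℝ := Berry.waveK a with hK
  -- all points
  set y : Fin (r + r) → ℂ := Fin.append x (fun i => x i + a) with hy
  have hy1 : ∀ i : Fin r, y (Fin.castAdd r i) = x i := fun i => by rw [hy, Fin.append_left]
  have hy2 : ∀ i : Fin r, y (Fin.natAdd r i) = x i + a := fun i => by rw [hy, Fin.append_right]
  -- the function of the values
  set G : (Fin (r + r) → ℝ) → ℝ := fun t =>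
    g K ε (∑ i : Fin r, c i * (t (Fin.castAdd r i) * t (Fin.natAdd r i))) with hG
  have hGc : Continuous G := by
    refine (g_cont K ε).comp ?_
    fun_prop
  have hlim := hL (r + r) y G hGc ⟨1, fun t => g_abs _ _ _⟩
  simp only [hG, hy1, hy2] at hlim
  -- the Riemann sums for large `n`
  have hsum : ∀ᶠ n in atTop, Measurable (fun p => ∑ i, c i *
      (Berry.rWave ρ (φ n) (m n) (x i) p * Berry.rWave ρ (φ n) (m n) (x i + a) p)) ∧
      ∃ C : ℝ, ∀ p, |∑ i, c i *
        (Berry.rWave ρ (φ n) (m n) (x i) p * Berry.rWave ρ (φ n) (m n) (x i + a) p)| ≤ C := by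
    filter_upwards [pts hS x, pts hS (fun i => x i + a)] with n h1 h2
    choose m1 C1 b1 using h1
    choose m2 C2 b2 using h2
    refine ⟨Finset.measurable_sum _ fun i _ => ((m1 i).mul (m2 i)).const_mul _,
      ∑ i, |c i| * (C1 i * C2 i), fun p => ?_⟩
    refine (Finset.abs_sum_le_sum_abs _ _).trans (Finset.sum_le_sum fun i _ => ?_)
    rw [abs_mul, abs_mul]
    exact mul_le_mul_of_nonneg_left (mul_le_mul (b1 i p) (b2 i p) (abs_nonneg _)
      ((abs_nonneg _).trans (b1 i p))) (abs_nonneg _)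
  have hev : ∀ᶠ n in atTop, ∫ p, g K ε (∑ i, c i *
      (Berry.rWave ρ (φ n) (m n) (x i) p * Berry.rWave ρ (φ n) (m n) (x i + a) p))
        ∂(Berry.rFrameProb ρ D) ≤ ε / 2 := by
    filter_upwards [hR₀ (max R₀ 1) (le_max_left _ _), hx, avg hS a (max R₀ 1), hsum]
      with n h1 h2 h3 h4
    obtain ⟨m3, C3, b3⟩ := h3
    obtain ⟨m4, C4, b4⟩ := h4
    set S : ℍ × ℝ → ℝ := fun p => Berry.spatialAvg (Berry.rWave ρ (φ n) (m n)) a (max R₀ 1) p
      with hSdef
    set X : ℍ × ℝ → ℝ := fun p => ∑ i, c i *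
      (Berry.rWave ρ (φ n) (m n) (x i) p * Berry.rWave ρ (φ n) (m n) (x i + a) p) with hX
    have iS : Integrable S (Berry.rFrameProb ρ D) :=
      Integrable.of_bound (Measurable.aestronglyMeasurable m3) C3 (ae_of_all _ b3)
    have iX : Integrable X (Berry.rFrameProb ρ D) :=
      Integrable.of_bound m4.aestronglyMeasurable C4 (ae_of_all _ b4)
    have iD : Integrable (fun p => |S p - X p|) (Berry.rFrameProb ρ D) := (iS.sub iX).abs
    -- Markov
    have hM := mul_meas_ge_le_integral_of_nonneg (ae_of_all _ fun p => abs_nonneg (S p - X p)) iD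
      (ε / 4)
    have hM2 : (Berry.rFrameProb ρ D).real {p | ε / 4 ≤ |S p - X p|} ≤ ε / 4 := by
      have h5 : ε / 4 * (Berry.rFrameProb ρ D).real {p | ε / 4 ≤ |S p - X p|} ≤ ε / 4 * (ε / 4) := by
        refine hM.trans (h2.trans (le_of_eq ?_))
        ring
      exact le_of_mul_le_mul_left h5 (by linarith)
    have hsub : {p | ε / 2 < |X p - K|} ⊆ {p | ε / 4 < |S p - K|} ∪ {p | ε / 4 ≤ |S p - X p|} := by
      intro p hp
      by_contra hcon
      rw [mem_union, not_or] at hcon
      have h6 : |S p - K| ≤ ε / 4 := not_lt.1 hcon.1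
      have h7 : |S p - X p| < ε / 4 := not_le.1 hcon.2
      have h8 : |X p - K| ≤ |S p - X p| + |S p - K| := by
        have e : X p - K = -(S p - X p) + (S p - K) := by ring
        rw [e]
        refine (abs_add_le _ _).trans ?_
        rw [abs_neg]
      have h9 : ε / 2 < |X p - K| := hp
      linarith
    have hB : (Berry.rFrameProb ρ D).real {p | ε / 2 < |X p - K|} ≤ ε / 2 := by
      refine (measureReal_mono hsub).trans ((measureReal_union_le _ _).trans ?_)
      linarith
    have hBm : MeasurableSet {p | ε / 2 < |X p - K|} :=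
      measurableSet_lt measurable_const (m4.sub_const K).abs
    calc ∫ p, g K ε (X p) ∂(Berry.rFrameProb ρ D)
        ≤ ∫ p, ({p | ε / 2 < |X p - K|} : Set (ℍ × ℝ)).indicator (fun _ => (1 : ℝ)) p
            ∂(Berry.rFrameProb ρ D) := by
          refine integral_mono_of_nonneg (ae_of_all _ fun p => g_nonneg _ _ _)
            ((integrable_const (1 : ℝ)).indicator hBm) (ae_of_all _ fun p => ?_)
          by_cases hp : ε / 2 < |X p - K|
          · simp only [indicator_of_mem (show p ∈ {p | ε / 2 < |X p - K|} from hp)]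
            exact g_le _ _ _
          · simp only [indicator_of_notMem (show p ∉ {p | ε / 2 < |X p - K|} from hp)]
            exact (g_zero hε (not_lt.1 hp)).le
      _ = (Berry.rFrameProb ρ D).real {p | ε / 2 < |X p - K|} := by
          rw [integral_indicator_const _ hBm, smul_eq_mul, mul_one]
      _ ≤ ε / 2 := hB
  have hle : ∫ o, g K ε (∑ i, c i * (F (x i) o * F (x i + a) o)) ∂P ≤ ε / 2 :=
    le_of_tendsto hlim hev
  -- the limit
  have hXm : Measurable fun o => ∑ i, c i * (F (x i) o * F (x i + a) o) :=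
    Finset.measurable_sum _ fun i _ => ((hF _).mul (hF _)).const_mul _
  have hAm : MeasurableSet {o | ε < |∑ i, c i * (F (x i) o * F (x i + a) o) - K|} :=
    measurableSet_lt measurable_const (hXm.sub_const K).abs
  have iG : Integrable (fun o => g K ε (∑ i, c i * (F (x i) o * F (x i + a) o))) P :=
    Integrable.of_bound ((g_cont K ε).measurable.comp hXm).aestronglyMeasurable 1
      (ae_of_all _ fun o => g_abs _ _ _)
  calc P.real {o | ε < |∑ i, c i * (F (x i) o * F (x i + a) o) - K|}
      = ∫ o, ({o | ε < |∑ i, c i * (F (x i) o * F (x i + a) o) - K|} : Set Ω).indicator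
          (fun _ => (1 : ℝ)) o ∂P := by
        rw [integral_indicator_const _ hAm, smul_eq_mul, mul_one]
    _ ≤ ∫ o, g K ε (∑ i, c i * (F (x i) o * F (x i + a) o)) ∂P := by
        refine integral_mono ((integrable_const (1 : ℝ)).indicator hAm) iG fun o => ?_
        by_cases ho : ε < |∑ i, c i * (F (x i) o * F (x i + a) o) - K|
        · simp only [indicator_of_mem (show o ∈ {o | ε < |∑ i, c i *
            (F (x i) o * F (x i + a) o) - K|} from ho)]
          exact (g_one hε ho).ge
        · simp only [indicator_of_notMem (show o ∉ {o | ε < |∑ i, c i *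
            (F (x i) o * F (x i + a) o) - K|} from ho)]
          exact g_nonneg _ _ _
    _ ≤ ε := by linarith

end

end PKM
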