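import Pool.Agent.PKM.St1
import Pool.Agent.BSL.ORD

/-!
# PRB: from the law of large numbers for the limit field to the local waves (helper37)
-/

set_option autoImplicit false

open Complex MeasureTheory Filter Topology Set
open UpperHalfPlane hiding I
open scoped ContDiff MatrixGroups ProbabilityTheory ENNReal

namespace PKM

open QE QE.NC QJ U3 NFP BSL

noncomputable section

namespace PRB

variable {Γ : Subgroup SL(2, ℝ)} {D : Set ℍ} {ρ : ℍ → ℝ} {φ : ℕ → ℍ → ℝ} {m : ℕ → ℝ}

/-- the average over the angle of a function of the waves is invariant -/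
lemma ang_inv' {f : ℍ → ℝ} (hf : ∀ γ ∈ Γ, ∀ z, f (γ • z) = f z) (hρ : ∀ γ ∈ Γ, ∀ z, ρ (γ • z) = ρ z)
    (c : ℝ) {k : ℕ} (x : Fin k → ℂ) (G : (Fin k → ℝ) → ℝ) : ∀ γ ∈ Γ, ∀ z,
    ∫ t, G (fun i => Berry.rWave ρ f c (x i) (γ • z, t)) ∂ang
      = ∫ t, G (fun i => Berry.rWave ρ f c (x i) (z, t)) ∂ang := by
  intro γ hγ z
  obtain ⟨α, hα⟩ := Berry.mul_frame γ z
  have hper : Function.Periodic (fun θ => G (fun i => Berry.rWave ρ f c (x i) (γ • z, θ)))
      (2 * Real.pi) := by
    intro θ
    unfold Berry.rWave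
    simp only [Berry.frame_periodic]
  rw [← ang_shift hper α]
  congr 1; funext θ
  congr 1
  funext i
  unfold Berry.rWave
  simp only
  rw [← hα θ, mul_smul, hf γ hγ, hρ γ hγ]

/-- integrals of functions of the waves -/
lemma tr [Countable Γ] (hS : Sur Γ D ρ φ m) {ζ : ℂ → ℝ} (hζ : CutF Γ D ρ ζ) {r : ℕ}
    (x : Fin r → ℂ) {n : ℕ} (hw : ∀ i, Continuous (Berry.rWave ρ (φ n) (m n) (x i)))
    (G : (Fin r → ℝ) → ℝ) (hG : Continuous G) :
    Integrable (fun p => G (fun i => Berry.rWave ρ (φ n) (m n) (x i) p))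
      (Berry.rFrameProb ρ D) ∧
    Integrable (fun z => ζ z *
      ∫ t, G (fun i => Berry.rWave ρ (φ n) (m n) (x i) (ofComplex z, t)) ∂ang) ∧
    ∫ p, G (fun i => Berry.rWave ρ (φ n) (m n) (x i) p) ∂(Berry.rFrameProb ρ D)
      = ∫ z, ζ z * ∫ t, G (fun i => Berry.rWave ρ (φ n) (m n) (x i) (ofComplex z, t)) ∂ang := by
  obtain ⟨B, hB⟩ := Berry.bdd_of_cocompact (UIF.phi_cont hS n)
    (fun γ hγ z => hS.eig.invariant n γ hγ z) hS.fac.cpt
  have hWb : ∀ p : ℍ × ℝ, (fun i => Berry.rWave ρ (φ n) (m n) (x i) p) ∈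
      Set.Icc (fun _ : Fin r => -B) (fun _ => B) := by
    intro p
    exact ⟨fun i => (abs_le.1 (hB _)).1, fun i => (abs_le.1 (hB _)).2⟩
  obtain ⟨b, hb'⟩ := (isCompact_Icc (a := fun _ : Fin r => -B) (b := fun _ => B)).exists_bound_of_continuousOn
    hG.continuousOn
  have hb : ∀ p : ℍ × ℝ, ‖G (fun i => Berry.rWave ρ (φ n) (m n) (x i) p)‖ ≤ b :=
    fun p => hb' _ (hWb p)
  have hGc : Continuous fun p : ℍ × ℝ => G (fun i => Berry.rWave ρ (φ n) (m n) (x i) p) :=
    hG.comp (continuous_pi hw)
  have hGm : Measurable fun p : ℍ × ℝ => G (fun i => Berry.rWave ρ (φ n) (m n) (x i) p) :=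
    hGc.measurable
  set f : ℍ → ℝ := fun z => ∫ t, G (fun i => Berry.rWave ρ (φ n) (m n) (x i) (z, t)) ∂ang with hf
  have hfm : Measurable f := (hGm.stronglyMeasurable.integral_prod_right').measurable
  have hfb : ∀ z, ‖f z‖ ≤ b := by
    intro z
    have h2 : ‖f z‖ ≤ b * ang.real univ :=
      norm_integral_le_of_norm_le_const (Eventually.of_forall fun t => hb _)
    simpa using h2
  have hg := UIF.geo hS
  have hfD : IntegrableOn f D (volume : Measure ℍ) := by
    have : IsFiniteMeasure ((volume : Measure ℍ).restrict D) :=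
      ⟨by rw [Measure.restrict_apply_univ]; exact hg.fin.lt_top⟩
    exact Integrable.of_bound hfm.aestronglyMeasurable b (Eventually.of_forall hfb)
  have hfi := ang_inv' (Γ := Γ) (f := φ n) (fun γ hγ z => hS.eig.invariant n γ hγ z) hS.fac.inv
    (m n) x G
  obtain ⟨h3, h4⟩ := hζ.int f hfm hfD hfi
  have : IsProbabilityMeasure (ProbabilityTheory.cond (Berry.area ρ) D) := area_prob hg
  have hint : Integrable (fun p => G (fun i => Berry.rWave ρ (φ n) (m n) (x i) p))
      (Berry.rFrameProb ρ D) := by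
    unfold Berry.rFrameProb
    exact Integrable.of_bound hGm.aestronglyMeasurable b (Eventually.of_forall fun p => hb _)
  refine ⟨hint, h3, ?_⟩
  rw [h4]
  unfold Berry.rFrameProb Berry.rAvg at *
  rw [integral_prod _ hint]

end PRB

open PRB in
/-- **PRB** -/
theorem t_PRB : StmtPrb := by
  intro Γ _ D ρ φ m hS Ω _ P _ F hFm hF hL ζ hζ ε₀ hε₀
  set ε : ℝ := min ε₀ 1 with hε
  have hε0 : 0 < ε := lt_min hε₀ one_pos
  have hε1 : ε ≤ ε₀ := min_le_left _ _
  obtain ⟨r, c, x, hc, hc1, hP⟩ := hL (ε / 20) (by positivity)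
  -- the functions
  set Q : (Fin r → ℝ) → ℝ := fun t => ∑ i, c i * t i ^ 2 with hQ
  have hQc : Continuous Q := by
    refine continuous_finsetSum _ fun i _ => ?_
    exact continuous_const.mul ((continuous_apply i).pow 2)
  have hQ0 : ∀ t, 0 ≤ Q t := fun t => Finset.sum_nonneg fun i _ => mul_nonneg (hc i) (sq_nonneg _)
  set G : (Fin r → ℝ) → ℝ := fun t => min |Q t - 1| 1 with hGdef
  have hGc : Continuous G := ((hQc.sub continuous_const).abs).min continuous_const
  have hG0 : ∀ t, 0 ≤ G t := fun t => le_min (abs_nonneg _) zero_le_one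
  have hG1 : ∀ t, G t ≤ 1 := fun t => min_le_right _ _
  have hGb : ∀ t, |G t| ≤ 1 := fun t => by rw [abs_of_nonneg (hG0 t)]; exact hG1 t
  have hlim := hF r x G hGc ⟨1, hGb⟩
  -- the limit is small
  have hEG : ∫ o, G (fun i => F (x i) o) ∂P ≤ ε / 10 := by
    set A : Set Ω := {o | ε / 20 < |∑ i, c i * (F (x i) o * F (x i + 0) o) - Berry.waveK 0|}
      with hA
    have hAm : MeasurableSet A := by
      refine measurableSet_lt measurable_const ?_
      refine (Measurable.sub_const ?_ _).abs
      exact Finset.measurable_sum _ fun i _ =>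
        ((hFm _).mul (hFm _)).const_mul _
    have h1 : ∀ o, G (fun i => F (x i) o) ≤ ε / 20 + A.indicator (fun _ => (1 : ℝ)) o := by
      intro o
      by_cases ho : o ∈ A
      · rw [Set.indicator_of_mem ho]
        have := hG1 (fun i => F (x i) o)
        linarith
      · rw [Set.indicator_of_notMem ho, add_zero]
        have h2 : |∑ i, c i * (F (x i) o * F (x i + 0) o) - Berry.waveK 0| ≤ ε / 20 :=
          not_lt.1 ho
        refine (min_le_left _ _).trans ?_
        have h3 : Q (fun i => F (x i) o) - 1 =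
            ∑ i, c i * (F (x i) o * F (x i + 0) o) - Berry.waveK 0 := by
          rw [Berry.waveK_zero]
          simp only [hQ, add_zero, pow_two]
        rw [h3]
        exact h2
    have hGFm : Measurable fun o => G (fun i => F (x i) o) :=
      hGc.measurable.comp (measurable_pi_lambda _ fun i => hFm _)
    have hi1 : Integrable (fun o => G (fun i => F (x i) o)) P :=
      Integrable.of_bound hGFm.aestronglyMeasurable 1 (Eventually.of_forall fun o => hGb _)
    have hi2 : Integrable (fun o => ε / 20 + A.indicator (fun _ => (1 : ℝ)) o) P :=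
      (integrable_const _).add ((integrable_const _).indicator hAm)
    calc ∫ o, G (fun i => F (x i) o) ∂P
        ≤ ∫ o, (ε / 20 + A.indicator (fun _ => (1 : ℝ)) o) ∂P := integral_mono hi1 hi2 h1
      _ = ε / 20 + P.real A := by
          rw [integral_add (integrable_const _) ((integrable_const _).indicator hAm),
            integral_indicator_const _ hAm]
          simp
      _ ≤ ε / 20 + ε / 20 := by gcongr
      _ = ε / 10 := by ring
  have hev1 : ∀ᶠ n in atTop, ∫ p, G (fun i => Berry.rWave ρ (φ n) (m n) (x i) p)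
      ∂(Berry.rFrameProb ρ D) ≤ ε / 8 :=
    (hlim.eventually_lt_const (by linarith : _ < ε / 8)).mono fun n hn => hn.le
  -- the mean of `Q` tends to one
  have hev2 : ∀ᶠ n in atTop, ∫ p, (Q (fun i => Berry.rWave ρ (φ n) (m n) (x i) p) - 1)
      ∂(Berry.rFrameProb ρ D) ≤ ε / 2 := by
    have h1 : ∀ i, Tendsto (fun n => ∫ z, ζ z *
        angProd ρ (φ n) (m n) (fun _ : Fin 2 => x i) (ofComplex z)) atTop (𝓝 1) := by
      intro i
      have h2 := (ORD.pts hS hζ.test).2 (fun _ : Fin 2 => x i)
      simp only [ORD.mass hS hζ, mul_one, sub_self, Berry.waveK_zero] at h2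
      have h3 := h2.add_const 1
      simpa using h3
    have h2 : Tendsto (fun n => ∑ i, c i * ∫ z, ζ z *
        angProd ρ (φ n) (m n) (fun _ : Fin 2 => x i) (ofComplex z)) atTop (𝓝 1) := by
      have := tendsto_finsetSum Finset.univ fun i _ => (h1 i).const_mul (c i)
      simpa [hc1] using this
    filter_upwards [h2.eventually_lt_const (by linarith : (1 : ℝ) < 1 + ε / 2),
      UIF.wc hS x] with n hn hw
    have : IsProbabilityMeasure (ProbabilityTheory.cond (Berry.area ρ) D) := area_prob (UIF.geo hS)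
    have hprob : IsProbabilityMeasure (Berry.rFrameProb ρ D) := by
      unfold Berry.rFrameProb
      infer_instance
    have h3 : ∀ i, Integrable (fun p => Berry.rWave ρ (φ n) (m n) (x i) p ^ 2)
        (Berry.rFrameProb ρ D) ∧ ∫ p, Berry.rWave ρ (φ n) (m n) (x i) p ^ 2
          ∂(Berry.rFrameProb ρ D) = ∫ z, ζ z *
            angProd ρ (φ n) (m n) (fun _ : Fin 2 => x i) (ofComplex z) := by
      intro i
      obtain ⟨a1, -, a3⟩ := tr hS hζ (fun _ : Fin 1 => x i) (fun _ => hw i)
        (fun t => t 0 ^ 2) ((continuous_apply 0).pow 2)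
      refine ⟨a1, a3.trans ?_⟩
      congr 1; funext z
      congr 1
      unfold angProd
      congr 1; funext t
      rw [Fin.prod_univ_two, pow_two]
    have h4 : ∫ p, Q (fun i => Berry.rWave ρ (φ n) (m n) (x i) p) ∂(Berry.rFrameProb ρ D)
        = ∑ i, c i * ∫ z, ζ z *
            angProd ρ (φ n) (m n) (fun _ : Fin 2 => x i) (ofComplex z) := by
      simp only [hQ]
      rw [integral_finsetSum _ fun i _ => (h3 i).1.const_mul (c i)]
      refine Finset.sum_congr rfl fun i _ => ?_
      rw [integral_const_mul, (h3 i).2]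
    rw [integral_sub (tr hS hζ x hw Q hQc).1 (integrable_const _), h4]
    simp only [integral_const, probReal_univ, smul_eq_mul, mul_one]
    linarith
  have hmain : ∀ᶠ n in atTop, ∫ p, |∑ i, c i * Berry.rWave ρ (φ n) (m n) (x i) p ^ 2 - 1|
      ∂(Berry.rFrameProb ρ D) ≤ ε₀ := by
    filter_upwards [hev1, hev2, UIF.wc hS x] with n h1 h2 hw
    have i1 := (tr hS hζ x hw (fun t => |Q t - 1|) (hQc.sub continuous_const).abs).1
    have i2 := (tr hS hζ x hw (fun t => Q t - 1) (hQc.sub continuous_const)).1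
    have i3 := (tr hS hζ x hw G hGc).1
    have h3 : ∀ t, |Q t - 1| ≤ (Q t - 1) + 2 * G t := by
      intro t
      have h4 := hQ0 t
      rcases le_total 1 (Q t) with h5 | h5
      · rw [abs_of_nonneg (by linarith)]
        have := hG0 t
        linarith
      · have h6 : |Q t - 1| = 1 - Q t := by
          rw [abs_of_nonpos (by linarith)]
          ring
        have h7 : G t = 1 - Q t := by
          simp only [hGdef]
          rw [h6]
          exact min_eq_left (by linarith)
        rw [h6, h7]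
        linarith
    calc ∫ p, |∑ i, c i * Berry.rWave ρ (φ n) (m n) (x i) p ^ 2 - 1| ∂(Berry.rFrameProb ρ D)
        ≤ ∫ p, ((Q (fun i => Berry.rWave ρ (φ n) (m n) (x i) p) - 1)
            + 2 * G (fun i => Berry.rWave ρ (φ n) (m n) (x i) p)) ∂(Berry.rFrameProb ρ D) :=
          integral_mono i1 (i2.add (i3.const_mul 2)) fun p => h3 _
      _ = (∫ p, (Q (fun i => Berry.rWave ρ (φ n) (m n) (x i) p) - 1) ∂(Berry.rFrameProb ρ D))
            + 2 * ∫ p, G (fun i => Berry.rWave ρ (φ n) (m n) (x i) p)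
              ∂(Berry.rFrameProb ρ D) := by
          rw [integral_add i2 (i3.const_mul 2), integral_const_mul]
      _ ≤ ε / 2 + 2 * (ε / 8) := by gcongr
      _ ≤ ε₀ := by linarith
  refine ⟨r, c, x, hc, hc1, hmain, ?_⟩
  filter_upwards [hmain, UIF.wc hS x] with n h1 hw
  obtain ⟨-, i2, e⟩ := tr hS hζ x hw (fun t => |Q t - 1|) (hQc.sub continuous_const).abs
  have h2 : ∫ z, ζ z * ∫ t, |Q (fun i => Berry.rWave ρ (φ n) (m n) (x i) (ofComplex z, t)) - 1|
      ∂ang ≤ ε₀ := e.symm.le.trans h1
  refine le_trans ?_ h2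
  refine integral_mono_of_nonneg (Eventually.of_forall fun z =>
    mul_nonneg (hζ.nonneg z) (abs_nonneg _)) i2 (Eventually.of_forall fun z => ?_)
  refine mul_le_mul_of_nonneg_left ?_ (hζ.nonneg z)
  -- the average over the angle
  have hint : ∀ i, Integrable (fun t => Berry.rWave ρ (φ n) (m n) (x i) (ofComplex z, t) ^ 2)
      ang := by
    intro i
    obtain ⟨B, hB⟩ := Berry.bdd_of_cocompact (UIF.phi_cont hS n)
      (fun γ hγ z => hS.eig.invariant n γ hγ z) hS.fac.cpt
    refine Integrable.of_bound (((hw i).comp (Continuous.prodMk_right _)).pow 2).aestronglyMeasurable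
      (B ^ 2) (Eventually.of_forall fun t => ?_)
    rw [norm_pow, Real.norm_eq_abs]
    exact pow_le_pow_left₀ (abs_nonneg _) (hB _) 2
  have e1 : ∑ i, c i * angProd ρ (φ n) (m n) (fun _ : Fin 2 => x i) (ofComplex z) - 1
      = ∫ t, (Q (fun i => Berry.rWave ρ (φ n) (m n) (x i) (ofComplex z, t)) - 1) ∂ang := by
    have e2 : ∀ i, angProd ρ (φ n) (m n) (fun _ : Fin 2 => x i) (ofComplex z)
        = ∫ t, Berry.rWave ρ (φ n) (m n) (x i) (ofComplex z, t) ^ 2 ∂ang := by
      intro i
      unfold angProd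
      congr 1; funext t
      rw [Fin.prod_univ_two, pow_two]
    rw [integral_sub (integrable_finsetSum _ fun i _ => (hint i).const_mul (c i))
      (integrable_const _), integral_finsetSum _ fun i _ => (hint i).const_mul (c i)]
    simp only [integral_const, probReal_univ, smul_eq_mul, mul_one]
    congr 1
    refine Finset.sum_congr rfl fun i _ => ?_
    rw [integral_const_mul, e2]
  rw [e1]
  exact abs_integral_le_integral_abs

end

end PKM
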