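import Pool.Agent.PKM.St1
import Pool.Agent.BSL.UIF

/-!
# Riemann sums for the averages over a disc (module RIS)
-/

set_option autoImplicit false

open Complex MeasureTheory Filter Topology Set
open UpperHalfPlane hiding I
open scoped ContDiff MatrixGroups ProbabilityTheory ENNReal

namespace PKM

open QE QE.NC QJ U3 NFP BSL

noncomputable section

namespace RISx

/-- a partition of the ball into small pieces -/
structure Part (R δ : ℝ) (r : ℕ) (A : Fin r → Set ℂ) (y : Fin r → ℂ) : Prop where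
  meas : ∀ i, MeasurableSet (A i)
  sub : ∀ i, A i ⊆ Metric.ball 0 R
  disj : ∀ i j, i ≠ j → Disjoint (A i) (A j)
  cov : ∀ x ∈ Metric.ball (0 : ℂ) R, ∃ i, x ∈ A i
  near : ∀ i, ∀ x ∈ A i, ‖x - y i‖ < δ
  bd : ∀ i, ‖y i‖ ≤ R

lemma exists_part (R : ℝ) {δ : ℝ} (hδ : 0 < δ) :
    ∃ (r : ℕ) (A : Fin r → Set ℂ) (y : Fin r → ℂ), Part R δ r A y := by
  obtain ⟨t, hts, htf, hcov⟩ := (isCompact_closedBall (0 : ℂ) R).finite_cover_balls hδ
  obtain ⟨r, y, -, hy⟩ := htf.fin_param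
  refine ⟨r, fun i => Metric.ball 0 R ∩ (Metric.ball (y i) δ ∩
    ⋂ j : Fin r, ⋂ _ : j < i, (Metric.ball (y j) δ)ᶜ), y, ?_, ?_, ?_, ?_, ?_, ?_⟩
  · intro i
    refine measurableSet_ball.inter (measurableSet_ball.inter ?_)
    exact MeasurableSet.iInter fun j => MeasurableSet.iInter fun _ => measurableSet_ball.compl
  · exact fun i => inter_subset_left
  · have key : ∀ i j : Fin r, i < j → Disjoint
        (Metric.ball (0 : ℂ) R ∩ (Metric.ball (y i) δ ∩
          ⋂ k : Fin r, ⋂ _ : k < i, (Metric.ball (y k) δ)ᶜ))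
        (Metric.ball (0 : ℂ) R ∩ (Metric.ball (y j) δ ∩
          ⋂ k : Fin r, ⋂ _ : k < j, (Metric.ball (y k) δ)ᶜ)) := by
      intro i j hij
      rw [Set.disjoint_left]
      rintro x ⟨-, hx, -⟩ ⟨-, -, hx'⟩
      rw [mem_iInter] at hx'
      have := hx' i
      rw [mem_iInter] at this
      exact this hij hx
    intro i j hij
    rcases lt_or_gt_of_ne hij with h | h
    · exact key i j h
    · exact (key j i h).symm
  · intro x hx
    have h1 := hcov (Metric.ball_subset_closedBall hx)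
    rw [mem_iUnion₂] at h1
    obtain ⟨z, hz, hxz⟩ := h1
    rw [← hy] at hz
    obtain ⟨i₀, rfl⟩ := hz
    obtain ⟨i, hi, hmin⟩ := WellFounded.has_min (wellFounded_lt (α := Fin r))
      {i | x ∈ Metric.ball (y i) δ} ⟨i₀, hxz⟩
    refine ⟨i, hx, hi, ?_⟩
    rw [mem_iInter]
    intro j
    rw [mem_iInter]
    exact fun hj hxj => hmin j hxj hj
  · rintro i x ⟨-, hx, -⟩
    rw [Metric.mem_ball, dist_eq_norm] at hx
    exact hx
  · intro i
    have h1 := hts (hy ▸ mem_range_self i)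
    rwa [mem_closedBall_zero_iff] at h1

lemma vol_ball (x : ℂ) {r : ℝ} (hr : 0 ≤ r) :
    (volume : Measure ℂ).real (Metric.ball x r) = r ^ 2 * Real.pi := by
  rw [measureReal_def, Complex.volume_ball, ENNReal.toReal_mul, ENNReal.toReal_pow,
    ENNReal.toReal_ofReal hr]
  rfl

lemma fin_ball (x : ℂ) (r : ℝ) : (volume : Measure ℂ) (Metric.ball x r) ≠ ⊤ :=
  Metric.isBounded_ball.measure_lt_top.ne

section part

variable {R δ : ℝ} {r : ℕ} {A : Fin r → Set ℂ} {y : Fin r → ℂ}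

lemma Part.fin (h : Part R δ r A y) (i : Fin r) : (volume : Measure ℂ) (A i) ≠ ⊤ :=
  ((measure_mono (h.sub i)).trans_lt (lt_top_iff_ne_top.2 (fin_ball 0 R))).ne

lemma Part.union (h : Part R δ r A y) : ⋃ i ∈ (Finset.univ : Finset (Fin r)), A i =
    Metric.ball 0 R := by
  ext x
  simp only [mem_iUnion, Finset.mem_univ, exists_prop, true_and]
  exact ⟨fun ⟨i, hi⟩ => h.sub i hi, h.cov x⟩

lemma Part.pair (h : Part R δ r A y) (s : Set (Fin r)) : PairwiseDisjoint s A :=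
  fun i _ j _ hij => h.disj i j hij

lemma Part.sum (h : Part R δ r A y) : ∑ i, (volume : Measure ℂ).real (A i) =
    (volume : Measure ℂ).real (Metric.ball (0 : ℂ) R) := by
  rw [← h.union, measureReal_biUnion_finset (h.pair _) (fun i _ => h.meas i) (fun i _ => h.fin i)]

/-- the weights -/
def wt (R : ℝ) (A : Fin r → Set ℂ) (i : Fin r) : ℝ :=
  (volume : Measure ℂ).real (A i) / (volume : Measure ℂ).real (Metric.ball (0 : ℂ) R)

lemma wt_nonneg (i : Fin r) : 0 ≤ wt R A i := by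
  unfold wt
  positivity

lemma Part.sum_wt (h : Part R δ r A y) (hR : 0 < R) : ∑ i, wt R A i = 1 := by
  unfold wt
  rw [← Finset.sum_div, h.sum]
  refine div_self ?_
  rw [vol_ball 0 hR.le]
  positivity

lemma Part.near_sum (h : Part R δ r A y) (hR : 0 < R) (hδ : 0 < δ) {T : ℝ} (hT : 0 ≤ T)
    (i : Fin r) : ∑ j, (if ‖y i - y j‖ < T then wt R A j else 0) ≤ ((T + δ) / R) ^ 2 := by
  rw [← Finset.sum_filter]
  unfold wt
  rw [← Finset.sum_div, vol_ball 0 hR.le, div_le_iff₀ (by positivity)]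
  rw [← measureReal_biUnion_finset (h.pair _) (fun i _ => h.meas i) (fun i _ => h.fin i)]
  have h1 : (volume : Measure ℂ).real (⋃ j ∈ Finset.univ.filter (fun j => ‖y i - y j‖ < T), A j) ≤
      (volume : Measure ℂ).real (Metric.ball (y i) (T + δ)) := by
    refine measureReal_mono ?_ (fin_ball _ _)
    intro x hx
    rw [mem_iUnion₂] at hx
    obtain ⟨j, hj, hxj⟩ := hx
    have h2 := (Finset.mem_filter.1 hj).2
    have h3 := h.near j x hxj
    rw [Metric.mem_ball, dist_eq_norm]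
    calc ‖x - y i‖ = ‖(x - y j) - (y i - y j)‖ := by congr 1; ring
      _ ≤ ‖x - y j‖ + ‖y i - y j‖ := norm_sub_le _ _
      _ < T + δ := by linarith
  refine h1.trans (le_of_eq ?_)
  rw [vol_ball _ (by positivity)]
  field_simp

lemma Part.weights (h : Part R δ r A y) (hR : 0 < R) (hδ : 0 < δ) (hδ1 : δ ≤ 1) {T : ℝ}
    (hT : 0 ≤ T) : ∑ i, ∑ j, (if ‖y i - y j‖ < T then wt R A i * wt R A j else 0) ≤
      ((T + 2) / R) ^ 2 := by
  have h1 : ∀ i, ∑ j, (if ‖y i - y j‖ < T then wt R A i * wt R A j else 0) ≤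
      wt R A i * ((T + 2) / R) ^ 2 := by
    intro i
    have h2 : ∑ j, (if ‖y i - y j‖ < T then wt R A i * wt R A j else 0) =
        wt R A i * ∑ j, (if ‖y i - y j‖ < T then wt R A j else 0) := by
      rw [Finset.mul_sum]
      refine Finset.sum_congr rfl fun j _ => ?_
      split_ifs <;> simp
    rw [h2]
    refine mul_le_mul_of_nonneg_left ((h.near_sum hR hδ hT i).trans ?_) (wt_nonneg i)
    gcongr
    linarith
  refine (Finset.sum_le_sum fun i _ => h1 i).trans (le_of_eq ?_)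
  rw [← Finset.sum_mul, h.sum_wt hR, one_mul]

/-- the value of the averages -/
lemma Part.avg (h : Part R δ r A y) (f : ℂ → ℝ)
    (hf : IntegrableOn f (Metric.ball 0 R)) (v : Fin r → ℝ) :
    (⨍ x in Metric.ball (0 : ℂ) R, f x) - ∑ i, wt R A i * v i =
      ((volume : Measure ℂ).real (Metric.ball (0 : ℂ) R))⁻¹ *
        ∫ x in Metric.ball (0 : ℂ) R, (f x - ∑ i, (A i).indicator (fun _ => v i) x) := by
  have hi : ∀ i, Integrable ((A i).indicator (fun _ => v i))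
      (volume.restrict (Metric.ball (0 : ℂ) R)) := by
    intro i
    have : IsFiniteMeasure ((volume : Measure ℂ).restrict (Metric.ball (0 : ℂ) R)) :=
      ⟨by rw [Measure.restrict_apply_univ]; exact lt_top_iff_ne_top.2 (fin_ball 0 R)⟩
    exact (integrable_const _).indicator (h.meas i)
  rw [setAverage_eq, smul_eq_mul, integral_sub hf (integrable_finsetSum _ fun i _ => hi i),
    integral_finsetSum _ (fun i _ => hi i), mul_sub]
  congr 1
  rw [Finset.mul_sum]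
  refine Finset.sum_congr rfl fun i _ => ?_
  rw [integral_indicator (h.meas i), Measure.restrict_restrict (h.meas i),
    inter_eq_self_of_subset_left (h.sub i), setIntegral_const, smul_eq_mul]
  unfold wt
  rw [div_eq_inv_mul, mul_assoc]

/-- Riemann sums for the averages over the ball, in the mean -/
lemma Part.riemann (h : Part R δ r A y) (hR : 0 < R) {Ω : Type} [MeasurableSpace Ω]
    (μ : Measure Ω) [IsFiniteMeasure μ] (g : ℂ → Ω → ℝ) (M ε : ℝ)
    (hg : AEStronglyMeasurable (fun q : ℂ × Ω => g q.1 q.2)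
      ((volume.restrict (Metric.ball (0 : ℂ) R)).prod μ))
    (hgx : ∀ p, AEStronglyMeasurable (fun x => g x p) (volume.restrict (Metric.ball (0 : ℂ) R)))
    (hgy : ∀ i, AEStronglyMeasurable (g (y i)) μ)
    (hM : ∀ x p, ‖x‖ ≤ R → |g x p| ≤ M)
    (hε : ∀ i, ∀ x ∈ A i, ∫ p, |g x p - g (y i) p| ∂μ ≤ ε) :
    ∫ p, |(⨍ x in Metric.ball (0 : ℂ) R, g x p) - ∑ i, wt R A i * g (y i) p| ∂μ ≤ ε := by
  obtain ⟨B, hB⟩ : ∃ B, B = Metric.ball (0 : ℂ) R := ⟨_, rfl⟩
  obtain ⟨V, hV⟩ : ∃ V, V = (volume : Measure ℂ).real (Metric.ball (0 : ℂ) R) := ⟨_, rfl⟩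
  have hV0 : 0 < V := by
    rw [hV, vol_ball 0 hR.le]
    positivity
  have hfinB : IsFiniteMeasure ((volume : Measure ℂ).restrict (Metric.ball (0 : ℂ) R)) :=
    ⟨by rw [Measure.restrict_apply_univ]; exact lt_top_iff_ne_top.2 (fin_ball 0 R)⟩
  have hBn : ∀ x ∈ Metric.ball (0 : ℂ) R, ‖x‖ ≤ R := fun x hx =>
    (mem_ball_zero_iff.1 hx).le
  -- the difference
  obtain ⟨H, hH⟩ : ∃ H : ℂ → Ω → ℝ, H = fun x p =>
    g x p - ∑ i, (A i).indicator (fun _ => g (y i) p) x := ⟨_, rfl⟩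
  have hHA : ∀ i, ∀ x ∈ A i, ∀ p, H x p = g x p - g (y i) p := by
    intro i x hx p
    rw [hH]
    simp only
    congr 1
    rw [Finset.sum_eq_single i]
    · rw [indicator_of_mem hx]
    · intro j _ hj
      rw [indicator_of_notMem]
      exact fun hxj => Set.disjoint_left.1 (h.disj j i hj) hxj hx
    · intro hi
      exact absurd (Finset.mem_univ i) hi
  have hint : ∀ p, IntegrableOn (fun x => g x p) (Metric.ball (0 : ℂ) R) := by
    intro p
    refine Integrable.of_bound (hgx p) M ?_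
    rw [ae_restrict_iff' measurableSet_ball]
    exact Eventually.of_forall fun x hx => hM x p (hBn x hx)
  have e1 : ∀ p, |(⨍ x in Metric.ball (0 : ℂ) R, g x p) - ∑ i, wt R A i * g (y i) p| ≤
      V⁻¹ * ∫ x in Metric.ball (0 : ℂ) R, |H x p| := by
    intro p
    rw [h.avg _ (hint p) (fun i => g (y i) p), abs_mul, abs_of_nonneg (by positivity), ← hV]
    refine mul_le_mul_of_nonneg_left ?_ (by positivity)
    rw [hH]
    exact abs_integral_le_integral_abs
  -- measurability on the product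
  have hmeas : AEStronglyMeasurable (fun q : ℂ × Ω => H q.1 q.2)
      ((volume.restrict (Metric.ball (0 : ℂ) R)).prod μ) := by
    rw [hH]
    refine hg.sub ?_
    have h2 : (fun q : ℂ × Ω => ∑ i, (A i).indicator (fun _ => g (y i) q.2) q.1) =
        ∑ i, fun q : ℂ × Ω => (A i ×ˢ univ).indicator (fun q : ℂ × Ω => g (y i) q.2) q := by
      funext q
      rw [Finset.sum_apply]
      refine Finset.sum_congr rfl fun i _ => ?_
      by_cases hq : q.1 ∈ A i
      · rw [indicator_of_mem hq, indicator_of_mem (show q ∈ A i ×ˢ univ from ⟨hq, mem_univ _⟩)]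
      · rw [indicator_of_notMem hq, indicator_of_notMem (fun hh => hq hh.1)]
    rw [h2]
    refine Finset.aestronglyMeasurable_sum _ fun i _ => ?_
    refine AEStronglyMeasurable.indicator ?_ ((h.meas i).prod MeasurableSet.univ)
    exact (hgy i).comp_snd
  have hMb : ∀ᵐ q ∂((volume.restrict (Metric.ball (0 : ℂ) R)).prod μ), ‖H q.1 q.2‖ ≤ 2 * M := by
    have h3 : ∀ᵐ q ∂((volume.restrict (Metric.ball (0 : ℂ) R)).prod μ),
        q.1 ∈ Metric.ball (0 : ℂ) R := by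
      have h4 : ∀ᵐ x ∂((volume : Measure ℂ).restrict (Metric.ball (0 : ℂ) R)),
          x ∈ Metric.ball (0 : ℂ) R := ae_restrict_mem measurableSet_ball
      exact Measure.quasiMeasurePreserving_fst.ae h4
    filter_upwards [h3] with q hq
    obtain ⟨i, hi⟩ := h.cov q.1 hq
    rw [hHA i q.1 hi, Real.norm_eq_abs]
    have h5 := hM q.1 q.2 (hBn _ hq)
    have h6 := hM (y i) q.2 (h.bd i)
    calc |g q.1 q.2 - g (y i) q.2| ≤ |g q.1 q.2| + |g (y i) q.2| := abs_sub _ _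
      _ ≤ 2 * M := by linarith
  have hI : Integrable (fun q : ℂ × Ω => |H q.1 q.2|)
      ((volume.restrict (Metric.ball (0 : ℂ) R)).prod μ) :=
    (Integrable.of_bound hmeas (2 * M) hMb).abs
  have hI2 : Integrable (fun p => ∫ x in Metric.ball (0 : ℂ) R, |H x p|) μ :=
    hI.integral_prod_right
  have e2 : ∫ p, |(⨍ x in Metric.ball (0 : ℂ) R, g x p) - ∑ i, wt R A i * g (y i) p| ∂μ ≤
      ∫ p, V⁻¹ * ∫ x in Metric.ball (0 : ℂ) R, |H x p| ∂volume ∂μ := by
    refine integral_mono_of_nonneg (Eventually.of_forall fun p => abs_nonneg _)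
      (hI2.const_mul _) (Eventually.of_forall e1)
  refine e2.trans ?_
  rw [integral_const_mul, ← integral_integral_swap (f := fun x p => |H x p|) hI]
  have e3 : ∫ x in Metric.ball (0 : ℂ) R, ∫ p, |H x p| ∂μ ≤
      ∫ x in Metric.ball (0 : ℂ) R, ε := by
    refine integral_mono_of_nonneg (Eventually.of_forall fun x =>
      integral_nonneg fun p => abs_nonneg _) (integrable_const _) ?_
    rw [EventuallyLE, ae_restrict_iff' measurableSet_ball]
    refine Eventually.of_forall fun x hx => ?_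
    obtain ⟨i, hi⟩ := h.cov x hx
    simp only [hHA i x hi]
    exact hε i x hi
  refine (mul_le_mul_of_nonneg_left e3 (by positivity)).trans (le_of_eq ?_)
  rw [setIntegral_const, smul_eq_mul, ← hV, ← mul_assoc, inv_mul_cancel₀ hV0.ne', one_mul]

end part

variable {Γ : Subgroup SL(2, ℝ)} {D : Set ℍ} {ρ : ℍ → ℝ} {φ : ℕ → ℍ → ℝ} {m : ℕ → ℝ}

/-- the local wave is jointly continuous in the displacement, the point and the angle -/
lemma wave_contOn {f : ℍ → ℝ} (hf : Continuous f) (hρ : Continuous ρ) {c R : ℝ} (hc : c ≠ 0)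
    (hR : ∀ x : ℂ, ‖x‖ ≤ R → ∀ z : ℍ, ‖x / ((c * Real.exp (ρ z) : ℝ) : ℂ)‖ < 1) :
    ContinuousOn (fun q : ℂ × (ℍ × ℝ) => Berry.rWave ρ f c q.1 q.2)
      (Metric.closedBall (0 : ℂ) R ×ˢ univ) := by
  unfold Berry.rWave
  have h1 : ContinuousOn (fun q : ℂ × (ℍ × ℝ) =>
      (ofComplex (Complex.I + q.1 / ((c * Real.exp (ρ q.2.1) : ℝ) : ℂ)) : ℍ))
      (Metric.closedBall (0 : ℂ) R ×ˢ univ) := by
    intro q hq
    have hq1 : ‖q.1‖ ≤ R := mem_closedBall_zero_iff.1 hq.1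
    have hi : 0 < (Complex.I + q.1 / ((c * Real.exp (ρ q.2.1) : ℝ) : ℂ)).im :=
      Berry.im_pos_of_norm (hR q.1 hq1 q.2.1)
    have h2 : ContinuousAt (ofComplex : ℂ → ℍ)
        (Complex.I + q.1 / ((c * Real.exp (ρ q.2.1) : ℝ) : ℂ)) :=
      (contMDiffAt_ofComplex (n := 0) hi).continuousAt
    refine ContinuousAt.continuousWithinAt ?_
    refine ContinuousAt.comp (g := (ofComplex : ℂ → ℍ))
      (f := fun q : ℂ × (ℍ × ℝ) => Complex.I + q.1 / ((c * Real.exp (ρ q.2.1) : ℝ) : ℂ)) h2 ?_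
    refine continuousAt_const.add (continuous_fst.continuousAt.div ?_ ?_)
    · exact (Complex.continuous_ofReal.comp (continuous_const.mul
        (Real.continuous_exp.comp (hρ.comp (continuous_fst.comp continuous_snd))))).continuousAt
    · have := Real.exp_ne_zero (ρ q.2.1)
      exact_mod_cast mul_ne_zero hc this
  refine hf.comp_continuousOn ?_
  exact (Berry.frame_continuous.comp continuous_snd).continuousOn.smul h1

lemma joint_meas {g : ℂ → ℍ × ℝ → ℝ} {R : ℝ}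
    (h : ContinuousOn (fun q : ℂ × (ℍ × ℝ) => g q.1 q.2) (Metric.closedBall (0 : ℂ) R ×ˢ univ))
    (μ : Measure (ℍ × ℝ)) [SFinite μ] : AEStronglyMeasurable (fun q : ℂ × (ℍ × ℝ) => g q.1 q.2)
      (((volume : Measure ℂ).restrict (Metric.ball (0 : ℂ) R)).prod μ) := by
  have e : ((volume : Measure ℂ).restrict (Metric.ball (0 : ℂ) R)).prod μ =
      ((volume : Measure ℂ).prod μ).restrict (Metric.ball (0 : ℂ) R ×ˢ univ) := by
    rw [← Measure.prod_restrict, Measure.restrict_univ]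
  rw [e]
  refine ContinuousOn.aestronglyMeasurable (h.mono ?_)
    (measurableSet_ball.prod MeasurableSet.univ)
  exact Set.prod_mono Metric.ball_subset_closedBall (subset_refl _)

lemma slice_meas {g : ℂ → ℍ × ℝ → ℝ} {R : ℝ}
    (h : ContinuousOn (fun q : ℂ × (ℍ × ℝ) => g q.1 q.2) (Metric.closedBall (0 : ℂ) R ×ˢ univ))
    (p : ℍ × ℝ) : AEStronglyMeasurable (fun x => g x p)
      ((volume : Measure ℂ).restrict (Metric.ball (0 : ℂ) R)) := by
  refine ContinuousOn.aestronglyMeasurable ?_ measurableSet_ball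
  have h4 : ContinuousOn (fun x : ℂ => (x, p)) (Metric.ball (0 : ℂ) R) := by fun_prop
  exact h.comp h4 fun x hx => Set.mk_mem_prod (Metric.ball_subset_closedBall hx) (mem_univ p)

/-- the product of two values of the local wave -/
def gg (ρ : ℍ → ℝ) (f : ℍ → ℝ) (c : ℝ) (a : ℂ) (x : ℂ) (p : ℍ × ℝ) : ℝ :=
  Berry.rWave ρ f c x p * Berry.rWave ρ f c (x + a) p

lemma gg_cont {f : ℍ → ℝ} {c : ℝ} {a x : ℂ} (h1 : Continuous (Berry.rWave ρ f c x))
    (h2 : Continuous (Berry.rWave ρ f c (x + a))) : Continuous (gg ρ f c a x) := by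
  unfold gg
  exact h1.mul h2

lemma gg_contOn {f : ℍ → ℝ} (hf : Continuous f) (hρ : Continuous ρ) {c R : ℝ} {a : ℂ} (hc : c ≠ 0)
    (hR : ∀ x : ℂ, ‖x‖ ≤ R + ‖a‖ → ∀ z : ℍ, ‖x / ((c * Real.exp (ρ z) : ℝ) : ℂ)‖ < 1) :
    ContinuousOn (fun q : ℂ × (ℍ × ℝ) => gg ρ f c a q.1 q.2)
      (Metric.closedBall (0 : ℂ) R ×ˢ univ) := by
  have h1 := wave_contOn hf hρ hc hR
  unfold gg
  refine (h1.mono ?_).mul ?_
  · rintro q ⟨hq, -⟩
    refine ⟨?_, mem_univ _⟩
    rw [mem_closedBall_zero_iff] at hq ⊢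
    linarith [norm_nonneg a]
  · have h2 : ContinuousOn (fun q : ℂ × (ℍ × ℝ) => (q.1 + a, q.2))
        (Metric.closedBall (0 : ℂ) R ×ˢ univ) := by fun_prop
    refine h1.comp h2 ?_
    rintro q ⟨hq, -⟩
    refine ⟨?_, mem_univ _⟩
    rw [mem_closedBall_zero_iff] at hq ⊢
    exact (norm_add_le _ _).trans (by linarith)

lemma young {l s v : ℝ} (hl : 0 < l) : |s * v| ≤ l * s ^ 2 + 1 / (4 * l) * v ^ 2 := by
  have h1 : 0 ≤ (2 * l * |s| - |v|) ^ 2 := sq_nonneg _
  have h2 : l * s ^ 2 + 1 / (4 * l) * v ^ 2 - |s * v| = 1 / (4 * l) * (2 * l * |s| - |v|) ^ 2 := by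
    rw [abs_mul, sub_sq, mul_pow, mul_pow, sq_abs, sq_abs]
    field_simp
    ring
  have h3 : 0 ≤ 1 / (4 * l) * (2 * l * |s| - |v|) ^ 2 := by positivity
  linarith

lemma young2 {l u v u' v' : ℝ} (hl : 0 < l) : |u * v - u' * v'| ≤
    l * ((u - u') ^ 2 + (v - v') ^ 2) + 1 / (4 * l) * (v ^ 2 + u' ^ 2) := by
  have h1 := young (s := u - u') (v := v) hl
  have h2 := young (s := v - v') (v := u') hl
  calc |u * v - u' * v'| = |(u - u') * v + (v - v') * u'| := by congr 1; ring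
    _ ≤ |(u - u') * v| + |(v - v') * u'| := abs_add_le _ _
    _ ≤ _ := by linarith

end RISx

open RISx BSL.UIF in
/-- **RIS**: Riemann sums for the averages over a disc. -/
theorem t_RIS (hC : StmtCtn) : StmtRis := by
  intro Γ _ D ρ φ m hS a R hR ε hε
  obtain ⟨⟨C₀, hC₀⟩, hE⟩ := hC Γ D ρ φ m hS (R + ‖a‖)
  obtain ⟨C, hCd⟩ : ∃ C, C = max C₀ 1 := ⟨_, rfl⟩
  have hC1 : 1 ≤ C := by rw [hCd]; exact le_max_right _ _
  have hC0 : 0 < C := by linarith
  obtain ⟨δ, hδ, hE'⟩ := hE (ε ^ 2 / (4 * C)) (by positivity)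
  obtain ⟨r, A, y, hP⟩ := exists_part R (δ := min δ 1) (lt_min hδ one_pos)
  refine ⟨r, wt R A, y, wt_nonneg, hP.sum_wt hR,
    fun T hT => hP.weights hR (lt_min hδ one_pos) (min_le_right _ _) hT, ?_⟩
  have hgeo := geo hS
  have hprob : IsProbabilityMeasure (Berry.rFrameProb ρ D) := Berry.rFrameProb_isProb hgeo
  have hRa : 0 ≤ R + ‖a‖ := by positivity
  filter_upwards [hC₀, hE', pt hS (fun _ : Fin 1 => ((R + ‖a‖ : ℝ) : ℂ))] with n h1 h2 h3
  have hm0 : m n ≠ 0 := (lt_of_lt_of_le one_pos (hS.one n)).ne'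
  have hm1 : 0 < m n := lt_of_lt_of_le one_pos (hS.one n)
  have hpt : ∀ x : ℂ, ‖x‖ ≤ R + ‖a‖ → ∀ z : ℍ,
      ‖x / ((m n * Real.exp (ρ z) : ℝ) : ℂ)‖ < 1 := by
    intro x hx z
    refine lt_of_le_of_lt ?_ (h3 0 z)
    rw [norm_div, norm_div]
    refine div_le_div_of_nonneg_right ?_ (norm_nonneg _)
    rw [Complex.norm_real, Real.norm_of_nonneg hRa]
    exact hx
  have hρ := rho_cont hS
  have hφ := phi_cont hS n
  have hcw : ∀ x : ℂ, ‖x‖ ≤ R + ‖a‖ → Continuous (Berry.rWave ρ (φ n) (m n) x) :=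
    fun x hx => rWave_continuous hφ hρ (hpt x hx) hm0
  obtain ⟨B, hB⟩ := Berry.bdd_of_cocompact hφ (hS.eig.invariant n) hS.fac.cpt
  have hBw : ∀ (x : ℂ) (p : ℍ × ℝ), |Berry.rWave ρ (φ n) (m n) x p| ≤ B := fun x p => hB _
  have hB0 : 0 ≤ B := (abs_nonneg _).trans (hB UpperHalfPlane.I)
  have hint : ∀ f : ℍ × ℝ → ℝ, Continuous f → (∃ M, ∀ p, |f p| ≤ M) →
      Integrable f (Berry.rFrameProb ρ D) := by
    rintro f hf ⟨M, hM⟩
    exact Integrable.of_bound hf.aestronglyMeasurable M (Eventually.of_forall hM)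
  have hmeas : ∀ f : ℍ × ℝ → ℝ, Continuous f →
      AEStronglyMeasurable f (Berry.rFrameProb ρ D) := fun f hf => hf.aestronglyMeasurable
  have hadd : ∀ x : ℂ, ‖x‖ ≤ R → ‖x + a‖ ≤ R + ‖a‖ := fun x hx =>
    (norm_add_le _ _).trans (by linarith)
  have hadd0 : ∀ x : ℂ, ‖x‖ ≤ R → ‖x‖ ≤ R + ‖a‖ := fun x hx => by
    linarith [norm_nonneg a]
  have hcon := gg_contOn (a := a) (R := R) hφ hρ hm0 hpt
  have hgy : ∀ i, AEStronglyMeasurable (gg ρ (φ n) (m n) a (y i)) (Berry.rFrameProb ρ D) := by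
    intro i
    have h4 := hcw (y i) (hadd0 (y i) (hP.bd i))
    have h5 := hcw (y i + a) (hadd (y i) (hP.bd i))
    have h6 := gg_cont h4 h5
    exact hmeas (gg ρ (φ n) (m n) a (y i)) h6
  have key := hP.riemann hR (Berry.rFrameProb ρ D) (gg ρ (φ n) (m n) a) (B * B) ε ?_ ?_ ?_ ?_ ?_
  · exact key
  · exact joint_meas hcon _
  · exact fun p => slice_meas hcon p
  · exact hgy
  · intro x p _
    unfold gg
    rw [abs_mul]
    exact mul_le_mul (hBw _ _) (hBw _ _) (abs_nonneg _) hB0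
  · intro i x hx
    have hxR : ‖x‖ ≤ R := (mem_ball_zero_iff.1 (hP.sub i hx)).le
    have hyR : ‖y i‖ ≤ R := hP.bd i
    have hd : ‖x - y i‖ ≤ δ := (hP.near i x hx).le.trans (min_le_left _ _)
    obtain ⟨u, hu⟩ : ∃ u, u = Berry.rWave ρ (φ n) (m n) x := ⟨_, rfl⟩
    obtain ⟨v, hv⟩ : ∃ v, v = Berry.rWave ρ (φ n) (m n) (x + a) := ⟨_, rfl⟩
    obtain ⟨u', hu'⟩ : ∃ u', u' = Berry.rWave ρ (φ n) (m n) (y i) := ⟨_, rfl⟩
    obtain ⟨v', hv'⟩ : ∃ v', v' = Berry.rWave ρ (φ n) (m n) (y i + a) := ⟨_, rfl⟩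
    have cu : Continuous u := hu ▸ hcw x (hadd0 x hxR)
    have cv : Continuous v := hv ▸ hcw _ (hadd x hxR)
    have cu' : Continuous u' := hu' ▸ hcw _ (hadd0 _ hyR)
    have cv' : Continuous v' := hv' ▸ hcw _ (hadd _ hyR)
    have bu : ∀ p, |u p| ≤ B := fun p => hu ▸ hBw _ _
    have bv : ∀ p, |v p| ≤ B := fun p => hv ▸ hBw _ _
    have bu' : ∀ p, |u' p| ≤ B := fun p => hu' ▸ hBw _ _
    have bv' : ∀ p, |v' p| ≤ B := fun p => hv' ▸ hBw _ _
    have sqb : ∀ s t : ℝ, |s| ≤ t → |s ^ 2| ≤ t ^ 2 := fun s t h => by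
      rw [abs_pow]
      exact pow_le_pow_left₀ (abs_nonneg _) h 2
    have i1 : Integrable (fun p => (u p - u' p) ^ 2) (Berry.rFrameProb ρ D) :=
      hint _ ((cu.sub cu').pow 2) ⟨(B + B) ^ 2, fun p => sqb _ _
        ((abs_sub _ _).trans (add_le_add (bu p) (bu' p)))⟩
    have i2 : Integrable (fun p => (v p - v' p) ^ 2) (Berry.rFrameProb ρ D) :=
      hint _ ((cv.sub cv').pow 2) ⟨(B + B) ^ 2, fun p => sqb _ _
        ((abs_sub _ _).trans (add_le_add (bv p) (bv' p)))⟩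
    have i3 : Integrable (fun p => v p ^ 2) (Berry.rFrameProb ρ D) :=
      hint _ (cv.pow 2) ⟨B ^ 2, fun p => sqb _ _ (bv p)⟩
    have i4 : Integrable (fun p => u' p ^ 2) (Berry.rFrameProb ρ D) :=
      hint _ (cu'.pow 2) ⟨B ^ 2, fun p => sqb _ _ (bu' p)⟩
    have l0 : 0 < C / ε := by positivity
    have j1 : ∫ p, (u p - u' p) ^ 2 ∂(Berry.rFrameProb ρ D) ≤ ε ^ 2 / (4 * C) := by
      rw [hu, hu']
      exact h2 x (y i) (hadd0 x hxR) (hadd0 _ hyR) hd
    have j2 : ∫ p, (v p - v' p) ^ 2 ∂(Berry.rFrameProb ρ D) ≤ ε ^ 2 / (4 * C) := by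
      rw [hv, hv']
      refine h2 (x + a) (y i + a) (hadd x hxR) (hadd _ hyR) ?_
      rw [add_sub_add_right_eq_sub]
      exact hd
    have j3 : ∫ p, v p ^ 2 ∂(Berry.rFrameProb ρ D) ≤ C := by
      rw [hv]
      exact (h1 (x + a) (hadd x hxR)).trans (hCd ▸ le_max_left _ _)
    have j4 : ∫ p, u' p ^ 2 ∂(Berry.rFrameProb ρ D) ≤ C := by
      rw [hu']
      exact (h1 (y i) (hadd0 _ hyR)).trans (hCd ▸ le_max_left _ _)
    have e1 : ∫ p, |gg ρ (φ n) (m n) a x p - gg ρ (φ n) (m n) a (y i) p| ∂(Berry.rFrameProb ρ D) ≤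
        ∫ p, (C / ε * ((u p - u' p) ^ 2 + (v p - v' p) ^ 2) +
          1 / (4 * (C / ε)) * (v p ^ 2 + u' p ^ 2)) ∂(Berry.rFrameProb ρ D) := by
      refine integral_mono_of_nonneg (Eventually.of_forall fun p => abs_nonneg _)
        (((i1.add i2).const_mul _).add ((i3.add i4).const_mul _)) (Eventually.of_forall fun p => ?_)
      simp only [gg, ← hu, ← hv, ← hu', ← hv']
      exact young2 l0
    refine e1.trans ?_
    rw [integral_add (f := fun p => C / ε * ((u p - u' p) ^ 2 + (v p - v' p) ^ 2))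
      (g := fun p => 1 / (4 * (C / ε)) * (v p ^ 2 + u' p ^ 2)) ((i1.add i2).const_mul _)
      ((i3.add i4).const_mul _), integral_const_mul, integral_const_mul, integral_add i1 i2,
      integral_add i3 i4]
    have k1 : C / ε * ((∫ p, (u p - u' p) ^ 2 ∂(Berry.rFrameProb ρ D)) +
        ∫ p, (v p - v' p) ^ 2 ∂(Berry.rFrameProb ρ D)) ≤
        C / ε * (ε ^ 2 / (4 * C) + ε ^ 2 / (4 * C)) :=
      mul_le_mul_of_nonneg_left (add_le_add j1 j2) l0.le
    have k2 : 1 / (4 * (C / ε)) * ((∫ p, v p ^ 2 ∂(Berry.rFrameProb ρ D)) +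
        ∫ p, u' p ^ 2 ∂(Berry.rFrameProb ρ D)) ≤ 1 / (4 * (C / ε)) * (C + C) :=
      mul_le_mul_of_nonneg_left (add_le_add j3 j4) (by positivity)
    have k3 : C / ε * (ε ^ 2 / (4 * C) + ε ^ 2 / (4 * C)) + 1 / (4 * (C / ε)) * (C + C) = ε := by
      field_simp
      ring
    linarith

end

end PKM
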