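import Pool.Agent.PKM.St1
import Pool.Agent.BSL.CUT
import Pool.Agent.BSL.TAY
import Pool.Agent.BSL.ROTG
import Pool.Agent.BSL.ROTP
import Pool.Agent.BSL.PTF
import Pool.Agent.BSL.UIF

/-!
# PKM, module STA: the values of the limit field at all points have the same law
-/

set_option autoImplicit false

open Complex MeasureTheory Filter Topology Set
open UpperHalfPlane hiding I
open scoped ContDiff MatrixGroups ProbabilityTheory ENNReal

namespace PKM

open QE QE.NC QJ U3 NFP BSL

noncomputable section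

namespace STA

/-! ### Translations by variable amounts -/

lemma int0 {K : Set ℂ} (hK : IsCompact K) {F : ℂ → ℝ} (hF : Continuous F)
    (h0 : ∀ z, z ∉ K → F z = 0) : Integrable F :=
  hF.integrable_of_hasCompactSupport (HasCompactSupport.intro hK h0)

/-- translations are continuous in the mean -/
lemma trans_small {K : Set ℂ} (hK : IsCompact K) {g : ℂ → ℝ} (hg : Continuous g)
    (h0 : ∀ z, z ∉ K → g z = 0) {η : ℝ} (hη : 0 < η) :
    ∀ᶠ w : ℂ in 𝓝 0, ∫ z, |g (z - w) - g z| ≤ η := by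
  have hu : UniformContinuous g :=
    (HasCompactSupport.intro hK h0).uniformContinuous_of_continuous hg
  set K' := Metric.cthickening 1 K with hK'
  have hK'c : IsCompact K' := hK.cthickening
  set v := (volume K').toReal with hv
  have hv0 : 0 ≤ v := ENNReal.toReal_nonneg
  rw [Metric.uniformContinuous_iff] at hu
  obtain ⟨δ, hδ, h1⟩ := hu (η / (v + 1)) (by positivity)
  filter_upwards [Metric.ball_mem_nhds (0 : ℂ) (lt_min hδ one_pos)] with w hw
  rw [Metric.mem_ball, dist_zero_right] at hw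
  have hw1 := hw.trans_le (min_le_left _ _)
  have hw2 := hw.trans_le (min_le_right _ _)
  have hp : ∀ z, |g (z - w) - g z| ≤ K'.indicator (fun _ => η / (v + 1)) z := by
    intro z
    by_cases hz : z ∈ K'
    · rw [indicator_of_mem hz]
      have h2 := h1 (a := z - w) (b := z) (by
        rw [dist_eq_norm, sub_sub_cancel_left, norm_neg]
        exact hw1)
      rw [Real.dist_eq] at h2
      exact h2.le
    · rw [indicator_of_notMem hz]
      have e1 : g z = 0 := h0 z fun h => hz (Metric.self_subset_cthickening K h)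
      have e2 : g (z - w) = 0 := by
        refine h0 _ fun h => hz ?_
        refine Metric.mem_cthickening_of_dist_le z (z - w) 1 K h ?_
        rw [dist_eq_norm, sub_sub_cancel]
        exact hw2.le
      rw [e1, e2, sub_self, abs_zero]
  have hi : Integrable (K'.indicator (fun _ : ℂ => η / (v + 1))) := by
    rw [integrable_indicator_iff hK'c.measurableSet]
    exact integrableOn_const hK'c.measure_lt_top.ne
  calc ∫ z, |g (z - w) - g z| ≤ ∫ z, K'.indicator (fun _ => η / (v + 1)) z :=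
        integral_mono_of_nonneg (Eventually.of_forall fun z => abs_nonneg _) hi
          (Eventually.of_forall hp)
    _ = v * (η / (v + 1)) := by
        rw [integral_indicator hK'c.measurableSet, setIntegral_const, smul_eq_mul]
        rfl
    _ ≤ η := by
        rw [mul_div_assoc', div_le_iff₀ (by positivity)]
        nlinarith

/-- the function which is zero for negative and one for large numbers -/
def cl (t : ℝ) : ℝ := min (max t 0) 1

lemma cl_cont : Continuous cl := (continuous_id.max continuous_const).min continuous_const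

lemma cl_mono {s t : ℝ} (h : s ≤ t) : cl s ≤ cl t :=
  min_le_min (max_le_max h le_rfl) le_rfl

lemma cl_zero {t : ℝ} (h : t ≤ 0) : cl t = 0 := by
  unfold cl
  rw [max_eq_right h, min_eq_left zero_le_one]

lemma cl_one {t : ℝ} (h : 1 ≤ t) : cl t = 1 := by
  unfold cl
  rw [max_eq_left (by linarith), min_eq_right h]

/-- hat functions -/
def hat (u : ℝ) (j : ℕ) : ℝ := cl (u - j + 1) - cl (u - (j + 1 : ℕ) + 1)

lemma hat_nonneg (u : ℝ) (j : ℕ) : 0 ≤ hat u j := by
  unfold hat
  have := cl_mono (s := u - (j + 1 : ℕ) + 1) (t := u - j + 1) (by push_cast; linarith)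
  linarith

lemma hat_sum {u : ℝ} {N : ℕ} (h0 : 0 ≤ u) (hN : u ≤ N) :
    ∑ j ∈ Finset.range (N + 1), hat u j = 1 := by
  unfold hat
  rw [Finset.sum_range_sub' (fun j : ℕ => cl (u - j + 1))]
  rw [cl_one (by push_cast; linarith), cl_zero (by push_cast; linarith), sub_zero]

lemma hat_supp {u : ℝ} {j : ℕ} (h : hat u j ≠ 0) : |(j : ℝ) - u| ≤ 1 := by
  by_contra hcon
  apply h
  unfold hat
  rcases lt_or_ge 1 ((j : ℝ) - u) with h1 | h1
  · rw [cl_zero (by linarith), cl_zero (by push_cast; linarith), sub_self]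
  · have h2 : (j : ℝ) - u < -1 := by
      by_contra h3
      exact hcon (abs_le.2 ⟨not_lt.1 h3, h1⟩)
    rw [cl_one (by linarith), cl_one (by push_cast; linarith), sub_self]

/-- translations by amounts which depend on the point -/
lemma TR {K : Set ℂ} (hK : IsCompact K) {ζ a : ℂ → ℝ} (hζ : Continuous ζ)
    (hζ0 : ∀ z, z ∉ K → ζ z = 0) (hζp : ∀ z, 0 ≤ ζ z) (ha : Continuous a) (hap : ∀ z, 0 ≤ a z)
    {X C : ℝ} (hX : 0 ≤ X) (hC : 0 ≤ C) {η δ : ℝ} (hη : 0 < η) (hδ : 0 < δ) :
    ∃ h₀ : ℝ, 0 < h₀ ∧ ∀ h : ℝ, 0 ≤ h → h ≤ h₀ → ∀ v : ℂ, ‖v‖ ≤ X → ∀ f : ℂ → ℝ, Continuous f →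
      (∀ z, |f z| ≤ C) → ∀ (M : ℂ → ℝ) (ε : ℝ), Continuous M →
      (∀ z ∈ K, ∀ s : ℝ, 0 ≤ s → |s - a z| ≤ δ →
        |f (z + h * (a z * v)) - f (z + h * (s * v))| ≤ ε * M z) →
      |(∫ z, ζ z * f (z + h * (a z * v))) - ∫ z, ζ z * f z| ≤ η + ε * ∫ z, ζ z * M z := by
  obtain ⟨A, hA⟩ := hK.exists_bound_of_continuousOn ha.continuousOn
  obtain ⟨N, hN⟩ := exists_nat_ge (A / δ)
  have hu : ∀ z ∈ K, a z / δ ≤ N := by
    intro z hz
    refine le_trans ?_ hN
    exact div_le_div_of_nonneg_right ((le_abs_self _).trans (hA z hz)) hδ.le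
  obtain ⟨g, hg⟩ : ∃ g : ℕ → ℂ → ℝ, g = fun j z => ζ z * hat (a z / δ) j := ⟨_, rfl⟩
  have hgc : ∀ j, Continuous (g j) := by
    intro j
    rw [hg]
    unfold hat
    exact hζ.mul ((cl_cont.comp (((ha.div_const δ).sub continuous_const).add
      continuous_const)).sub (cl_cont.comp (((ha.div_const δ).sub continuous_const).add
      continuous_const)))
  have hg0 : ∀ j z, z ∉ K → g j z = 0 := by
    intro j z hz
    rw [hg]
    simp only
    rw [hζ0 z hz, zero_mul]
  have hgp : ∀ j z, 0 ≤ g j z := by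
    intro j z
    rw [hg]
    exact mul_nonneg (hζp z) (hat_nonneg _ _)
  have hgs : ∀ z ∈ K, ∑ j ∈ Finset.range (N + 1), g j z = ζ z := by
    intro z hz
    rw [hg]
    simp only
    rw [← Finset.mul_sum, hat_sum (div_nonneg (hap z) hδ.le) (hu z hz), mul_one]
  have hgs' : ∀ z, ∑ j ∈ Finset.range (N + 1), g j z = ζ z := by
    intro z
    by_cases hz : z ∈ K
    · exact hgs z hz
    · rw [hζ0 z hz]
      exact Finset.sum_eq_zero fun j _ => hg0 j z hz
  obtain ⟨η', hη'⟩ : ∃ η' : ℝ, η' = η / ((C + 1) * (N + 1)) := ⟨_, rfl⟩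
  have hη'0 : 0 < η' := by rw [hη']; positivity
  have hev : ∀ᶠ w : ℂ in 𝓝 0, ∀ j ∈ Finset.range (N + 1), ∫ z, |g j (z - w) - g j z| ≤ η' :=
    (eventually_all_finset _).2 fun j _ => trans_small hK (hgc j) (hg0 j) hη'0
  rw [Metric.eventually_nhds_iff] at hev
  obtain ⟨r, hr, hev⟩ := hev
  refine ⟨r / ((N * δ + 1) * (X + 1)), by positivity, ?_⟩
  intro h hh0 hh v hv f hf hfC M ε hM hcmp
  obtain ⟨w, hw⟩ : ∃ w : ℕ → ℂ, w = fun j : ℕ => (h : ℂ) * ((((j : ℝ) * δ : ℝ) : ℂ) * v) := ⟨_, rfl⟩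
  have hwr : ∀ j ∈ Finset.range (N + 1), ‖w j‖ < r := by
    intro j hj
    have hjN : (j : ℝ) ≤ N := by
      have := Finset.mem_range.1 hj
      exact_mod_cast (by omega : j ≤ N)
    rw [hw]
    simp only
    rw [norm_mul, norm_mul, Complex.norm_real, Complex.norm_real, Real.norm_of_nonneg hh0,
      Real.norm_of_nonneg (by positivity)]
    have h1 : (j : ℝ) * δ * ‖v‖ ≤ N * δ * X := by gcongr
    have h2 : (N : ℝ) * δ * X < (N * δ + 1) * (X + 1) := by
      have : (0 : ℝ) ≤ N * δ := by positivity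
      nlinarith
    have h3 : 0 < ((N : ℝ) * δ + 1) * (X + 1) := by positivity
    calc h * ((j : ℝ) * δ * ‖v‖) ≤ r / ((N * δ + 1) * (X + 1)) * (N * δ * X) := by
          refine mul_le_mul hh h1 (by positivity) (by positivity)
      _ < r / ((N * δ + 1) * (X + 1)) * ((N * δ + 1) * (X + 1)) :=
          mul_lt_mul_of_pos_left h2 (by positivity)
      _ = r := div_mul_cancel₀ r h3.ne'
  -- the first step
  have c1 : Continuous fun z => ζ z * f (z + h * (a z * v)) := by
    refine hζ.mul (hf.comp (continuous_id.add (continuous_const.mul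
      ((Complex.continuous_ofReal.comp ha).mul continuous_const))))
  have c2 : ∀ j, Continuous fun z => g j z * f (z + w j) := fun j =>
    (hgc j).mul (hf.comp (continuous_id.add continuous_const))
  have i1 : Integrable fun z => ζ z * f (z + h * (a z * v)) :=
    int0 hK c1 fun z hz => by rw [hζ0 z hz, zero_mul]
  have i2 : ∀ j, Integrable fun z => g j z * f (z + w j) := fun j =>
    int0 hK (c2 j) fun z hz => by rw [hg0 j z hz, zero_mul]
  have i3 : Integrable fun z => ζ z * M z :=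
    int0 hK (hζ.mul hM) fun z hz => by rw [hζ0 z hz, zero_mul]
  have s1 : |(∫ z, ζ z * f (z + h * (a z * v))) -
      ∫ z, ∑ j ∈ Finset.range (N + 1), g j z * f (z + w j)| ≤ ε * ∫ z, ζ z * M z := by
    rw [← integral_sub i1 (integrable_finsetSum _ fun j _ => i2 j), ← integral_const_mul]
    rw [← Real.norm_eq_abs]
    refine (norm_integral_le_of_norm_le (i3.const_mul ε) (Eventually.of_forall fun z => ?_))
    rw [Real.norm_eq_abs]
    by_cases hz : z ∈ K
    · have e1 : ζ z * f (z + h * (a z * v)) -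
          ∑ j ∈ Finset.range (N + 1), g j z * f (z + w j) =
          ∑ j ∈ Finset.range (N + 1), g j z * (f (z + h * (a z * v)) - f (z + w j)) := by
        simp only [mul_sub]
        rw [Finset.sum_sub_distrib, ← Finset.sum_mul, hgs z hz]
      rw [e1]
      refine (Finset.abs_sum_le_sum_abs _ _).trans ?_
      have e2 : ε * (ζ z * M z) = ∑ j ∈ Finset.range (N + 1), g j z * (ε * M z) := by
        rw [← Finset.sum_mul, hgs z hz]
        ring
      rw [e2]
      refine Finset.sum_le_sum fun j _ => ?_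
      rw [abs_mul, abs_of_nonneg (hgp j z)]
      by_cases hgz : g j z = 0
      · rw [hgz, zero_mul, zero_mul]
      · refine mul_le_mul_of_nonneg_left ?_ (hgp j z)
        have h1 : hat (a z / δ) j ≠ 0 := by
          intro h2
          apply hgz
          rw [hg]
          simp only
          rw [h2, mul_zero]
        have h2 := hat_supp h1
        have h3 : |(j : ℝ) * δ - a z| ≤ δ := by
          have e3 : (j : ℝ) * δ - a z = ((j : ℝ) - a z / δ) * δ := by
            field_simp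
          rw [e3, abs_mul, abs_of_pos hδ]
          exact mul_le_of_le_one_left hδ.le h2
        have h4 := hcmp z hz ((j : ℝ) * δ) (by positivity) h3
        rw [hw]
        exact h4
    · rw [hζ0 z hz]
      have e1 : ∑ j ∈ Finset.range (N + 1), g j z * f (z + w j) = 0 :=
        Finset.sum_eq_zero fun j _ => by rw [hg0 j z hz, zero_mul]
      rw [e1]
      simp
  -- the second step
  have s2 : |(∫ z, ∑ j ∈ Finset.range (N + 1), g j z * f (z + w j)) - ∫ z, ζ z * f z| ≤ η := by
    have i4 : ∀ j, Integrable fun z => g j z * f z := fun j =>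
      int0 hK ((hgc j).mul hf) fun z hz => by rw [hg0 j z hz, zero_mul]
    have i5 : ∀ j, Integrable fun z => g j (z - w j) * f z := fun j => by
      have := (i2 j).comp_sub_right (w j)
      simpa only [sub_add_cancel] using this
    have e1 : ∫ z, ζ z * f z = ∑ j ∈ Finset.range (N + 1), ∫ z, g j z * f z := by
      rw [← integral_finsetSum _ fun j _ => i4 j]
      refine integral_congr_ae (Eventually.of_forall fun z => ?_)
      beta_reduce
      rw [← Finset.sum_mul, hgs' z]
    have e2 : ∀ j, ∫ z, g j z * f (z + w j) = ∫ z, g j (z - w j) * f z := by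
      intro j
      have := integral_add_right_eq_self (μ := (volume : Measure ℂ))
        (fun z => g j (z - w j) * f z) (w j)
      simpa only [add_sub_cancel_right] using this
    rw [integral_finsetSum _ fun j _ => i2 j, e1, ← Finset.sum_sub_distrib]
    refine (Finset.abs_sum_le_sum_abs _ _).trans ?_
    have h1 : ∀ j ∈ Finset.range (N + 1), |(∫ z, g j z * f (z + w j)) - ∫ z, g j z * f z| ≤
        C * η' := by
      intro j hj
      rw [e2 j, ← integral_sub (i5 j) (i4 j)]
      have i6 : Integrable fun z => |g j (z - w j) - g j z| := by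
        have h2 : Integrable fun z => g j (z - w j) :=
          (int0 hK (hgc j) (hg0 j)).comp_sub_right (w j)
        exact (h2.sub (int0 hK (hgc j) (hg0 j))).abs
      rw [← Real.norm_eq_abs]
      refine (norm_integral_le_of_norm_le (i6.const_mul C)
        (Eventually.of_forall fun z => ?_)).trans ?_
      · rw [← sub_mul, norm_mul, Real.norm_eq_abs, Real.norm_eq_abs, mul_comm]
        exact mul_le_mul_of_nonneg_right (hfC z) (abs_nonneg _)
      · rw [integral_const_mul]
        refine mul_le_mul_of_nonneg_left ?_ hC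
        refine hev (y := w j) ?_ j hj
        rw [dist_zero_right]
        exact hwr j hj
    refine (Finset.sum_le_sum h1).trans ?_
    rw [Finset.sum_const, Finset.card_range, nsmul_eq_mul, hη']
    push_cast
    have h2 : ((N : ℝ) + 1) * (C * (η / ((C + 1) * (N + 1)))) = η * (C / (C + 1)) := by
      field_simp
    rw [h2]
    refine mul_le_of_le_one_right hη.le ?_
    rw [div_le_one (by positivity)]
    linarith
  have := abs_sub_le (∫ z, ζ z * f (z + h * (a z * v)))
    (∫ z, ∑ j ∈ Finset.range (N + 1), g j z * f (z + w j)) (∫ z, ζ z * f z)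
  linarith

/-! ### The local functions -/

/-- the modulus of continuity of the functions on the scale of the wavelength -/
lemma md {V K : Set ℂ} {σ : ℂ → ℝ} {h : ℕ → ℝ} {φ : ℕ → ℂ → ℂ} (H : LocB V σ h φ)
    (hK : IsCompact K) (hKV : K ⊆ V) (R : ℝ) : ∃ L : ℝ, 0 < L ∧ ∀ ε : ℝ, 0 < ε → ∃ δ : ℝ, 0 < δ ∧
      ∀ᶠ n in atTop, ∀ z ∈ K, ∀ y y' : ℂ, ‖y‖ ≤ R → ‖y'‖ ≤ R → ‖y - y'‖ ≤ δ →
      ‖φ n (dp σ h n z y) - φ n (dp σ h n z y')‖ ≤ ε * √(Mn L h φ n z) := by
  obtain ⟨L, hL, hT⟩ := tAY V σ h φ H K hK hKV R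
  refine ⟨L, hL, fun ε hε => ?_⟩
  obtain ⟨N, hN⟩ := hT (ε / 3) (by positivity)
  obtain ⟨δ, hδ, h1⟩ := ROTP.Tay_mod H hK hKV hL N R (ε := ε / 3) (by positivity)
  refine ⟨δ, hδ, ?_⟩
  filter_upwards [hN N le_rfl, h1] with n n1 n2 z hz y y' hy hy' hyy
  have h2 := (n1 z hz y hy).2
  have h3 := (n1 z hz y' hy').2
  have h4 := n2 z hz y y' hy hy' hyy
  have e1 : φ n (dp σ h n z y) - φ n (dp σ h n z y') =
      (φ n (dp σ h n z y) - TayE σ h φ N n z y) + (TayE σ h φ N n z y - TayE σ h φ N n z y')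
        - (φ n (dp σ h n z y') - TayE σ h φ N n z y') := by ring
  rw [e1]
  refine (norm_sub_le _ _).trans ?_
  have h5 := norm_add_le (φ n (dp σ h n z y) - TayE σ h φ N n z y)
    (TayE σ h φ N n z y - TayE σ h φ N n z y')
  linarith

variable {ρ : ℍ → ℝ} {φ : ℕ → ℍ → ℝ} {m : ℕ → ℝ} {V : Set ℂ} {σ : ℂ → ℝ} {φ' : ℕ → ℂ → ℂ}

/-- the local waves are the values of `φ'` at displaced points -/
lemma vals (hρ : ContDiffOn ℝ ∞ (ro ρ) UH) (A : Agree V UH (gr ρ) (hh m) (ph φ) σ φ')
    {K : Set ℂ} (hK : IsCompact K) (hKV : K ⊆ V) (x : ℂ) :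
    ∀ᶠ n in atTop, ContinuousOn
      (fun p : ℝ × ℂ => frXi (hh m) (em ρ) x n p.1 p.2) (univ ×ˢ K) ∧
      ∀ t, ∀ z ∈ K, (Berry.rWave ρ (φ n) (m n) x (ofComplex z, t) : ℂ)
        = φ' n (dp σ (hh m) n z (frXi (hh m) (em ρ) x n t z)) := by
  have hKU : K ⊆ HH := hKV.trans A.sub
  have hpos : ∀ n, 0 < hh m n := A.loc.hpos
  have hlim : Tendsto (hh m) atTop (𝓝 0) := A.loc.hlim
  have hmpos : ∀ n, 0 < m n := fun n => one_div_pos.1 (hpos n)
  have heS := PTF.em_smooth hρ
  have haC : Continuous (ex σ (-1)) := (contDiff_ex A.loc.sm (-1)).continuous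
  obtain ⟨A₀, hA₀⟩ := hK.exists_bound_of_continuousOn (f := ex σ (-1)) haC.continuousOn
  obtain ⟨M, hM⟩ := hK.exists_bound_of_continuousOn (heS.continuousOn.mono hKU)
  set A' := |A₀| with hA'
  set M' := |M| with hM'
  have hA2 : ∀ z ∈ K, ‖ex σ (-1) z‖ ≤ A' := fun z hz => (hA₀ z hz).trans (le_abs_self A₀)
  have hM2 : ∀ z ∈ K, |em ρ z| ≤ M' := fun z hz => (hM z hz).trans (le_abs_self M)
  have hA0 : 0 ≤ A' := abs_nonneg _
  have hM0 : 0 ≤ M' := abs_nonneg _
  set X : ℝ := ‖x‖ with hX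
  have hX0 : 0 ≤ X := norm_nonneg _
  obtain ⟨δ, hδ, hδV⟩ := hK.exists_cthickening_subset_open A.op hKV
  have hcont := (PTF.disp' hρ A hK hKV x).cont
  have hlim2 := (PTF.dis hρ A hK hKV x).lim 1 one_pos
  have hsmall : ∀ᶠ n in atTop, hh m n * (X * M') < 1 := by
    have := hlim.mul_const (X * M')
    rw [zero_mul] at this
    exact this.eventually_lt_const (by norm_num)
  have hsmall2 : ∀ᶠ n in atTop, hh m n * (A' * (X + 1)) < δ := by
    have := hlim.mul_const (A' * (X + 1))
    rw [zero_mul] at this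
    exact this.eventually_lt_const hδ
  filter_upwards [hcont, hlim2, hsmall, hsmall2] with n n1 n2 n3 n4
  refine ⟨n1, fun t z hz => ?_⟩
  have hn := (hpos n).le
  have hmem : dp σ (hh m) n z (frXi (hh m) (em ρ) x n t z) ∈ V := by
    refine hδV (Metric.mem_cthickening_of_dist_le _ z δ K hz ?_)
    unfold dp
    rw [dist_eq_norm, add_sub_cancel_left, norm_mul, norm_mul, Complex.norm_real,
      Real.norm_of_nonneg hn]
    have h1 : ‖frXi (hh m) (em ρ) x n t z‖ ≤ X + 1 := by
      have e2 : frXi (hh m) (em ρ) x n t z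
          = (frXi (hh m) (em ρ) x n t z - uu t ^ 2 * x) + uu t ^ 2 * x := by ring
      rw [e2]
      refine (norm_add_le _ _).trans ?_
      rw [norm_mul (uu t ^ 2), norm_pow, norm_uu, one_pow, one_mul]
      have := n2 t z hz
      linarith
    calc hh m n * (‖ex σ (-1) z‖ * ‖frXi (hh m) (em ρ) x n t z‖)
        ≤ hh m n * (A' * (X + 1)) := by
          have := hA2 z hz
          gcongr
      _ ≤ δ := n4.le
  have hx1 : ‖x / ((m n * Real.exp (ρ (ofComplex z)) : ℝ) : ℂ)‖ < 1 := by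
    have e1 : x / ((m n * Real.exp (ρ (ofComplex z)) : ℝ) : ℂ)
        = x * ((hh m n * em ρ z : ℝ) : ℂ) := by
      have e2 : (hh m n * em ρ z : ℝ) = (m n * Real.exp (ρ (ofComplex z)))⁻¹ := by
        simp only [hh, QE.em]
        rw [Real.exp_neg, mul_inv, one_div]
      rw [e2, Complex.ofReal_inv, div_eq_mul_inv]
    rw [e1, norm_mul, Complex.norm_real, Real.norm_eq_abs, abs_mul, abs_of_pos (hpos n)]
    have e3 := hM2 z hz
    calc ‖x‖ * (hh m n * |em ρ z|) ≤ X * (hh m n * M') := by gcongr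
      _ = hh m n * (X * M') := by ring
      _ < 1 := n3
  have h1 := rWave_eq_disp (hmpos n) x t (hKU hz) hx1 (n := n) (h := hh m) rfl
    (a := ex σ (-1)) (PTF.a_eq A (hKV hz)) (φ := φ n)
  rw [h1, A.eφ n _ hmem]
  unfold ph dp QE.em
  rw [mul_assoc]

variable {Γ : Subgroup SL(2, ℝ)} {D : Set ℍ}

/-- the mean of a function of the local wave at a point, on the plane -/
lemma plane [Countable Γ] (hS : Sur Γ D ρ φ m) {ζ : ℂ → ℝ} (hζ : CutF Γ D ρ ζ) (x : ℂ) {G : ℝ → ℝ}
    (hG : Continuous G) {b : ℝ} (hb : ∀ t, |G t| ≤ b) : ∀ᶠ n in atTop,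
      ∫ p, G (Berry.rWave ρ (φ n) (m n) x p) ∂(Berry.rFrameProb ρ D)
        = ∫ z, ζ z * ∫ t, G (Berry.rWave ρ (φ n) (m n) x (ofComplex z, t)) ∂ang := by
  filter_upwards [UIF.wc hS (fun _ : Fin 1 => x)] with n hn
  have hw := hn 0
  set f : ℍ → ℝ := fun z => ∫ t, G (Berry.rWave ρ (φ n) (m n) x (z, t)) ∂ang with hf
  have hGm : Measurable fun p : ℍ × ℝ => G (Berry.rWave ρ (φ n) (m n) x p) :=
    hG.measurable.comp hw.measurable
  have hfm : Measurable f := (hGm.stronglyMeasurable.integral_prod_right').measurable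
  have hfb : ∀ z, |f z| ≤ b := by
    intro z
    have h2 : ‖f z‖ ≤ b * ang.real univ :=
      norm_integral_le_of_norm_le_const (Eventually.of_forall fun t => hb _)
    simpa using h2
  have hg := UIF.geo hS
  have hfD : IntegrableOn f D (volume : Measure ℍ) := by
    have : IsFiniteMeasure ((volume : Measure ℍ).restrict D) :=
      ⟨by rw [Measure.restrict_apply_univ]; exact hg.fin.lt_top⟩
    exact Integrable.of_bound hfm.aestronglyMeasurable b (Eventually.of_forall hfb)
  have hfi : ∀ γ ∈ Γ, ∀ z, f (γ • z) = f z := by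
    intro γ hγ z
    have h1 := UIF.ang_inv (Γ := Γ) (f := φ n) (fun γ hγ z => hS.eig.invariant n γ hγ z)
      hS.fac.inv (m n) (fun _ : Fin 1 => x) G γ hγ z
    simp only [Fin.prod_univ_one] at h1
    exact h1
  obtain ⟨h3, h4⟩ := hζ.int f hfm hfD hfi
  have e1 : ∫ p, G (Berry.rWave ρ (φ n) (m n) x p) ∂(Berry.rFrameProb ρ D)
      = Berry.rAvg ρ D f := by
    have : IsProbabilityMeasure (ProbabilityTheory.cond (Berry.area ρ) D) := area_prob hg
    unfold Berry.rFrameProb Berry.rAvg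
    rw [integral_prod]
    exact Integrable.of_bound hGm.aestronglyMeasurable b (Eventually.of_forall fun p => hb _)
  rw [e1, ← h4]

end STA

open STA in
/-- **STA** -/
theorem t_STA : StmtSta := by
  intro Γ _ D ρ φ m hS Ω _ P _ F hFm hF x G C hGL hGb
  have hC0 : 0 ≤ C := (abs_nonneg _).trans (hGb 0)
  have hGc : Continuous G := (LipschitzWith.of_dist_le' (K := C) fun s t => by
    rw [Real.dist_eq, Real.dist_eq]; exact hGL s t).continuous
  have hlim : ∀ y : ℂ, Tendsto (fun n => ∫ p, G (Berry.rWave ρ (φ n) (m n) y p)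
      ∂(Berry.rFrameProb ρ D)) atTop (𝓝 (∫ o, G (F y o) ∂P)) := fun y =>
    hF 1 (fun _ => y) (fun t => G (t 0)) (hGc.comp (continuous_apply 0)) ⟨C, fun t => hGb _⟩
  suffices key : Tendsto (fun n => (∫ p, G (Berry.rWave ρ (φ n) (m n) x p)
      ∂(Berry.rFrameProb ρ D)) - ∫ p, G (Berry.rWave ρ (φ n) (m n) 0 p)
      ∂(Berry.rFrameProb ρ D)) atTop (𝓝 0) by
    have h1 := tendsto_nhds_unique ((hlim x).sub (hlim 0)) key
    linarith
  -- the chart
  obtain ⟨ζ, hζ⟩ := t_CUT Γ D ρ hS.mD hS.fd hS.fac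
  set K : Set ℂ := tsupport (fun z => (ζ z : ℂ)) with hKdef
  have hK : IsCompact K := hζ.test.supp
  obtain ⟨V, F', σ, φ', hKV, -, -, -, A⟩ := stmtLcz UH (gr ρ) (hh m) (ph φ) isOpen_UH
    (U3.WGA.contDiffOn_gr hS.fac.smooth) (fun z hz => U3.WGA.gr_pos hz) hS.loc K hK hζ.test.sub
  have hζc : Continuous ζ := Complex.continuous_re.comp hζ.test.smooth.continuous
  have hζ0 : ∀ z, z ∉ K → ζ z = 0 := by
    intro z hz
    have h1 : ((ζ z : ℝ) : ℂ) = 0 := by
      by_contra hne
      exact hz (subset_tsupport (fun z => (ζ z : ℂ)) hne)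
    exact_mod_cast h1
  obtain ⟨B, hB⟩ := hK.exists_bound_of_continuousOn hζc.continuousOn
  obtain ⟨a, ha⟩ : ∃ a : ℂ → ℝ, a = fun z => Real.exp (((-1 : ℤ) : ℝ) * σ z) := ⟨_, rfl⟩
  have hac : Continuous a := by
    rw [ha]
    exact Real.continuous_exp.comp (continuous_const.mul A.loc.sm.continuous)
  have hap : ∀ z, 0 < a z := fun z => by rw [ha]; exact Real.exp_pos _
  have hea : ∀ z, ex σ (-1) z = (a z : ℂ) := fun z => by rw [ha]; rfl
  obtain ⟨a₀, ha₀, hamin⟩ : ∃ a₀ : ℝ, 0 < a₀ ∧ ∀ z ∈ K, a₀ ≤ a z := by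
    rcases K.eq_empty_or_nonempty with hKe | hKn
    · exact ⟨1, one_pos, fun z hz => by rw [hKe] at hz; exact hz.elim⟩
    · obtain ⟨z₀, -, h1⟩ := hK.exists_isMinOn hKn hac.continuousOn
      exact ⟨a z₀, hap z₀, fun z hz => h1 hz⟩
  obtain ⟨L, hL, hmd⟩ := md A.loc hK hKV (‖x‖ + 1)
  obtain ⟨C', hC'⟩ := ROTG.Mn_bdd A.loc hK hKV hL.le
  have hcφ : ∀ n, Continuous (φ' n) := fun n => (A.loc.smφ n).continuous
  have hMc : ∀ n, Continuous (Mn L (hh m) φ' n) := continuous_Mn hcφ L
  rw [Metric.tendsto_atTop]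
  intro e he
  obtain ⟨ε, hε⟩ : ∃ ε : ℝ, ε = e / 4 := ⟨_, rfl⟩
  have hε0 : 0 < ε := by rw [hε]; positivity
  obtain ⟨ε₁, hε₁⟩ : ∃ ε₁ : ℝ, ε₁ = ε / ((C + 1) * (|B| + 1) * (|C'| + 1)) := ⟨_, rfl⟩
  have hε₁0 : 0 < ε₁ := by rw [hε₁]; positivity
  have hε₁C : C * ε₁ * (|B| * |C'|) ≤ ε := by
    have h1 : C * (|B| * |C'|) ≤ (C + 1) * (|B| + 1) * (|C'| + 1) := by
      have h2 := abs_nonneg B
      have h3 := abs_nonneg C'
      have h4 : C * (|B| * |C'|) ≤ (C + 1) * ((|B| + 1) * (|C'| + 1)) := by gcongr <;> linarith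
      linarith
    rw [hε₁]
    calc C * (ε / ((C + 1) * (|B| + 1) * (|C'| + 1))) * (|B| * |C'|)
        = ε * (C * (|B| * |C'|)) / ((C + 1) * (|B| + 1) * (|C'| + 1)) := by ring
      _ ≤ ε := by
          rw [div_le_iff₀ (by positivity)]
          exact mul_le_mul_of_nonneg_left h1 hε0.le
  obtain ⟨δ, hδ, hmod⟩ := hmd ε₁ hε₁0
  obtain ⟨δ', hδ'⟩ : ∃ δ' : ℝ, δ' = min δ 1 := ⟨_, rfl⟩
  have hδ'0 : 0 < δ' := by rw [hδ']; exact lt_min hδ one_pos
  have hδ'1 : δ' ≤ 1 := by rw [hδ']; exact min_le_right _ _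
  have hδ'2 : δ' ≤ δ := by rw [hδ']; exact min_le_left _ _
  obtain ⟨δ₁, hδ₁⟩ : ∃ δ₁ : ℝ, δ₁ = δ' * a₀ / (‖x‖ + 1) := ⟨_, rfl⟩
  have hδ₁0 : 0 < δ₁ := by rw [hδ₁]; positivity
  obtain ⟨h₀, hh₀, hTR⟩ := TR hK hζc hζ0 hζ.nonneg hac (fun z => (hap z).le) (norm_nonneg x) hC0
    hε0 hδ₁0
  obtain ⟨N, hN⟩ := (((((vals hS.fac.smooth A hK hKV x).and hmod).and
    ((PTF.dis hS.fac.smooth A hK hKV x).lim δ' hδ'0)).and (hC'.and
    (A.loc.hlim.eventually_le_const hh₀))).and ((plane hS hζ x hGc hGb).and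
    (plane hS hζ 0 hGc hGb))).exists_forall_of_atTop
  refine ⟨N, fun n hn => ?_⟩
  obtain ⟨⟨⟨⟨n1, n2⟩, n3⟩, n4, n5⟩, n6, n7⟩ := hN n hn
  obtain ⟨nc, nv⟩ := n1
  have hux : ∀ t : ℝ, ‖uu t ^ 2 * x‖ = ‖x‖ := fun t => by
    rw [norm_mul, norm_pow, norm_uu, one_pow, one_mul]
  -- the functions
  obtain ⟨f, hf⟩ : ∃ f : ℂ → ℝ, f = fun z => G (φ' n z).re := ⟨_, rfl⟩
  have hfc : Continuous f := by
    rw [hf]
    exact hGc.comp (Complex.continuous_re.comp (hcφ n))
  have hfb : ∀ z, |f z| ≤ C := fun z => by rw [hf]; exact hGb _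
  have hfL : ∀ z w, |f z - f w| ≤ C * ‖φ' n z - φ' n w‖ := by
    intro z w
    rw [hf]
    refine (hGL _ _).trans (mul_le_mul_of_nonneg_left ?_ hC0)
    rw [← Complex.sub_re]
    exact Complex.abs_re_le_norm _
  have hsq : ∀ z, √(Mn L (hh m) φ' n z) ≤ Mn L (hh m) φ' n z := by
    intro z
    have h1 := one_le_Mn (h := hh m) (φ := φ') L n z
    rw [Real.sqrt_le_left (by linarith)]
    nlinarith
  -- the bound of the integral
  have hint : C * ε₁ * ∫ z, ζ z * Mn L (hh m) φ' n z ≤ ε := by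
    have e1 : ∫ z, ζ z * Mn L (hh m) φ' n z = ∫ z in K, ζ z * Mn L (hh m) φ' n z := by
      rw [setIntegral_eq_integral_of_forall_compl_eq_zero]
      intro z hz
      rw [hζ0 z hz, zero_mul]
    have h1 : ∫ z in K, ζ z * Mn L (hh m) φ' n z ≤ |B| * |C'| := by
      calc ∫ z in K, ζ z * Mn L (hh m) φ' n z ≤ ∫ z in K, |B| * Mn L (hh m) φ' n z := by
            refine setIntegral_mono_on ((hζc.mul (hMc n)).continuousOn.integrableOn_compact hK)
              ((continuous_const.mul (hMc n)).continuousOn.integrableOn_compact hK)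
              hK.measurableSet fun z hz => ?_
            refine mul_le_mul_of_nonneg_right ?_ (zero_le_one.trans (one_le_Mn L n z))
            exact (le_abs_self _).trans ((hB z hz).trans (le_abs_self B))
        _ = |B| * ∫ z in K, Mn L (hh m) φ' n z := integral_const_mul _ _
        _ ≤ |B| * |C'| := mul_le_mul_of_nonneg_left (n4.trans (le_abs_self C')) (abs_nonneg B)
    rw [e1]
    exact (mul_le_mul_of_nonneg_left h1 (by positivity)).trans hε₁C
  -- translations
  have hT : ∀ t : ℝ, |(∫ z, ζ z * f (dp σ (hh m) n z (uu t ^ 2 * x))) - ∫ z, ζ z * f z| ≤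
      2 * ε := by
    intro t
    have h1 := hTR (hh m n) (A.loc.hpos n).le n5 (uu t ^ 2 * x) (hux t).le f hfc hfb
      (Mn L (hh m) φ' n) (C * ε₁) (hMc n) (by
      intro z hz s hs0 hs
      have ha1 := hamin z hz
      have ha2 : (a z : ℂ) ≠ 0 := by exact_mod_cast (hap z).ne'
      obtain ⟨y', hy'⟩ : ∃ y' : ℂ, y' = ((s / a z : ℝ) : ℂ) * (uu t ^ 2 * x) := ⟨_, rfl⟩
      have e1 : z + (hh m n : ℂ) * ((s : ℂ) * (uu t ^ 2 * x)) = dp σ (hh m) n z y' := by
        unfold dp
        rw [hea, hy']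
        push_cast
        field_simp
      have e2 : z + (hh m n : ℂ) * ((a z : ℂ) * (uu t ^ 2 * x)) =
          dp σ (hh m) n z (uu t ^ 2 * x) := by
        unfold dp
        rw [hea]
      have h2 : ‖uu t ^ 2 * x - y'‖ ≤ δ' := by
        have e3 : uu t ^ 2 * x - y' = (((a z - s) / a z : ℝ) : ℂ) * (uu t ^ 2 * x) := by
          rw [hy']
          push_cast
          field_simp
        rw [e3, norm_mul, hux, Complex.norm_real, Real.norm_eq_abs, abs_div,
          abs_of_pos (hap z), abs_sub_comm, div_mul_eq_mul_div, div_le_iff₀ (hap z)]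
        calc |s - a z| * ‖x‖ ≤ δ' * a₀ / (‖x‖ + 1) * (‖x‖ + 1) := by
              refine mul_le_mul (hs.trans hδ₁.le) (by linarith) (norm_nonneg x) (by positivity)
          _ = δ' * a₀ := div_mul_cancel₀ _ (by positivity)
          _ ≤ δ' * a z := mul_le_mul_of_nonneg_left ha1 hδ'0.le
      have h3 : ‖y'‖ ≤ ‖x‖ + 1 := by
        have e4 : y' = uu t ^ 2 * x - (uu t ^ 2 * x - y') := by ring
        rw [e4]
        refine (norm_sub_le _ _).trans ?_
        rw [hux]
        linarith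
      rw [e1, e2]
      refine (hfL _ _).trans ?_
      rw [mul_assoc]
      refine mul_le_mul_of_nonneg_left ?_ hC0
      refine (n2 z hz _ _ (by rw [hux]; linarith) h3 (h2.trans hδ'2)).trans ?_
      exact mul_le_mul_of_nonneg_left (hsq z) hε₁0.le)
    have e3 : ∀ z, z + (hh m n : ℂ) * ((a z : ℂ) * (uu t ^ 2 * x)) =
        dp σ (hh m) n z (uu t ^ 2 * x) := by
      intro z
      unfold dp
      rw [hea]
    simp only [e3] at h1
    linarith
  -- the displacements
  obtain ⟨H, hH⟩ : ∃ H : ℝ × ℂ → ℝ, H = fun p => ζ p.2 * f (dp σ (hh m) n p.2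
    (frXi (hh m) (em ρ) x n p.1 p.2)) := ⟨_, rfl⟩
  have haC : Continuous (ex σ (-1)) := (contDiff_ex A.loc.sm (-1)).continuous
  have cH : ContinuousOn H (univ ×ˢ K) := by
    rw [hH]
    refine (hζc.comp continuous_snd).continuousOn.mul (hfc.comp_continuousOn ?_)
    unfold dp
    exact continuousOn_snd.add (continuousOn_const.mul
      ((haC.comp continuous_snd).continuousOn.mul nc))
  have hHint : Integrable H (ang.prod (volume.restrict K)) := by
    have h1 := (int_ang hK (H := fun p => (H p : ℂ))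
      (Complex.continuous_ofReal.comp_continuousOn cH)).re
    simpa using h1
  have hDsp : ∀ t : ℝ, |(∫ z in K, H (t, z)) -
      ∫ z, ζ z * f (dp σ (hh m) n z (uu t ^ 2 * x))| ≤ ε := by
    intro t
    have e1 : ∫ z, ζ z * f (dp σ (hh m) n z (uu t ^ 2 * x)) =
        ∫ z in K, ζ z * f (dp σ (hh m) n z (uu t ^ 2 * x)) := by
      rw [setIntegral_eq_integral_of_forall_compl_eq_zero]
      intro z hz
      rw [hζ0 z hz, zero_mul]
    have i1 : IntegrableOn (fun z => H (t, z)) K := by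
      refine ContinuousOn.integrableOn_compact hK ?_
      exact cH.comp (continuousOn_const.prodMk continuousOn_id) fun z hz => ⟨mem_univ _, hz⟩
    have i2 : IntegrableOn (fun z => ζ z * f (dp σ (hh m) n z (uu t ^ 2 * x))) K := by
      refine ContinuousOn.integrableOn_compact hK (Continuous.continuousOn ?_)
      unfold dp
      exact hζc.mul (hfc.comp (continuous_id.add (continuous_const.mul
        (haC.mul continuous_const))))
    have i3 : IntegrableOn (fun z => ζ z * Mn L (hh m) φ' n z) K :=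
      (hζc.mul (hMc n)).continuousOn.integrableOn_compact hK
    rw [e1, ← integral_sub i1 i2, ← Real.norm_eq_abs]
    refine (norm_integral_le_of_norm_le (i3.const_mul (C * ε₁)) ?_).trans ?_
    · filter_upwards [ae_restrict_mem hK.measurableSet] with z hz
      rw [hH]
      simp only
      rw [← mul_sub, norm_mul, Real.norm_of_nonneg (hζ.nonneg z), Real.norm_eq_abs]
      have h1 : C * ε₁ * (ζ z * Mn L (hh m) φ' n z) = ζ z * (C * (ε₁ * Mn L (hh m) φ' n z)) := by
        ring
      rw [h1]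
      refine mul_le_mul_of_nonneg_left ?_ (hζ.nonneg z)
      refine (hfL _ _).trans (mul_le_mul_of_nonneg_left ?_ hC0)
      have h2 := n3 t z hz
      have h3 : ‖frXi (hh m) (em ρ) x n t z‖ ≤ ‖x‖ + 1 := by
        have e4 : frXi (hh m) (em ρ) x n t z =
            (frXi (hh m) (em ρ) x n t z - uu t ^ 2 * x) + uu t ^ 2 * x := by ring
        rw [e4]
        refine (norm_add_le _ _).trans ?_
        rw [hux]
        linarith
      refine (n2 z hz _ _ h3 (by rw [hux]; linarith) (h2.trans hδ'2)).trans ?_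
      exact mul_le_mul_of_nonneg_left (hsq z) hε₁0.le
    · rw [integral_const_mul]
      have e5 : ∫ z in K, ζ z * Mn L (hh m) φ' n z = ∫ z, ζ z * Mn L (hh m) φ' n z := by
        rw [setIntegral_eq_integral_of_forall_compl_eq_zero]
        intro z hz
        rw [hζ0 z hz, zero_mul]
      rw [e5]
      exact hint
  -- the two integrals
  have E1 : ∫ z, ζ z * ∫ t, G (Berry.rWave ρ (φ n) (m n) x (ofComplex z, t)) ∂ang =
      ∫ t, (∫ z in K, H (t, z)) ∂ang := by
    have e1 : ∫ z, ζ z * ∫ t, G (Berry.rWave ρ (φ n) (m n) x (ofComplex z, t)) ∂ang =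
        ∫ z in K, ∫ t, H (t, z) ∂ang := by
      have e2 : ∫ z, ζ z * ∫ t, G (Berry.rWave ρ (φ n) (m n) x (ofComplex z, t)) ∂ang =
          ∫ z in K, ζ z * ∫ t, G (Berry.rWave ρ (φ n) (m n) x (ofComplex z, t)) ∂ang := by
        rw [setIntegral_eq_integral_of_forall_compl_eq_zero]
        intro z hz
        rw [hζ0 z hz, zero_mul]
      rw [e2]
      refine setIntegral_congr_fun hK.measurableSet fun z hz => ?_
      beta_reduce
      rw [← integral_const_mul]
      refine integral_congr_ae (Eventually.of_forall fun t => ?_)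
      beta_reduce
      rw [hH, hf]
      simp only
      rw [← nv t z hz, Complex.ofReal_re]
    rw [e1]
    exact (integral_integral_swap (f := fun t z => H (t, z)) hHint).symm
  have E2 : ∫ z, ζ z * ∫ t, G (Berry.rWave ρ (φ n) (m n) 0 (ofComplex z, t)) ∂ang =
      ∫ z, ζ z * f z := by
    refine integral_congr_ae (Eventually.of_forall fun z => ?_)
    beta_reduce
    by_cases hz : z ∈ K
    · congr 1
      simp only [NC.rWave_origin]
      rw [hf]
      simp only
      rw [A.eφ n z (hKV hz)]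
      unfold ph
      rw [Complex.ofReal_re]
      simp
    · rw [hζ0 z hz, zero_mul, zero_mul]
  rw [n6, n7, E1, E2, dist_zero_right]
  have h3 : ∀ t : ℝ, ‖(∫ z in K, H (t, z)) - ∫ z, ζ z * f z‖ ≤ 3 * ε := by
    intro t
    rw [Real.norm_eq_abs]
    have h4 := abs_sub_le (∫ z in K, H (t, z))
      (∫ z, ζ z * f (dp σ (hh m) n z (uu t ^ 2 * x))) (∫ z, ζ z * f z)
    have h5 := hDsp t
    have h6 := hT t
    linarith
  have i1 : Integrable (fun t => ∫ z in K, H (t, z)) ang := hHint.integral_prod_left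
  have e1 : (∫ t, (∫ z in K, H (t, z)) ∂ang) - ∫ z, ζ z * f z =
      ∫ t, ((∫ z in K, H (t, z)) - ∫ z, ζ z * f z) ∂ang := by
    rw [integral_sub i1 (integrable_const _), integral_const]
    simp
  rw [e1]
  have h4 := norm_integral_le_of_norm_le_const (μ := ang) (Eventually.of_forall h3)
  have h5 : ang.real univ = 1 := by simp
  rw [h5, mul_one] at h4
  refine h4.trans_lt ?_
  rw [hε]
  linarith

end

end PKM
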