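import Pool.Agent.PKM.St1

/-!
# PKM, module UPG: from probability to the mean square
-/

open Complex MeasureTheory Filter Topology Set
open UpperHalfPlane hiding I
open scoped ContDiff MatrixGroups ProbabilityTheory ENNReal

namespace PKM

open QE QE.NC QJ U3 NFP BSL

noncomputable section

namespace UPG

/-- the truncated fourth power -/
def tq (b t : ℝ) : ℝ := (min |t| b) ^ 4

lemma tq_nonneg (b t : ℝ) : 0 ≤ tq b t := by
  unfold tq
  positivity

lemma tq_le_pow {b : ℝ} (hb : 0 ≤ b) (t : ℝ) : tq b t ≤ b ^ 4 :=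
  pow_le_pow_left₀ (le_min (abs_nonneg t) hb) (min_le_right _ _) 4

lemma abs_pow_four (t : ℝ) : |t| ^ 4 = t ^ 4 := Even.pow_abs (by decide) t

lemma tq_le {b : ℝ} (hb : 0 ≤ b) (t : ℝ) : tq b t ≤ t ^ 4 := by
  rw [← abs_pow_four t]
  exact pow_le_pow_left₀ (le_min (abs_nonneg t) hb) (min_le_left _ _) 4

lemma tq_mono {b b' : ℝ} (hb : 0 ≤ b) (h : b ≤ b') (t : ℝ) : tq b t ≤ tq b' t :=
  pow_le_pow_left₀ (le_min (abs_nonneg t) hb) (min_le_min_left _ h) 4

lemma tq_eq {b t : ℝ} (h : |t| ≤ b) : tq b t = t ^ 4 := by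
  unfold tq
  rw [min_eq_left h, abs_pow_four]

lemma pow_lip {b u w : ℝ} (hb : 1 ≤ b) (hu0 : 0 ≤ u) (hw0 : 0 ≤ w) (hu1 : u ≤ b) (hw1 : w ≤ b) :
    |u ^ 4 - w ^ 4| ≤ 4 * b ^ 4 * |u - w| := by
  have h2 : u ^ 4 - w ^ 4 = (u - w) * ((u + w) * (u ^ 2 + w ^ 2)) := by ring
  have h3 : 0 ≤ (u + w) * (u ^ 2 + w ^ 2) := by positivity
  have h4 : (u + w) * (u ^ 2 + w ^ 2) ≤ 4 * b ^ 4 := by
    have h5 : u + w ≤ 2 * b := by linarith
    have h6 : u ^ 2 + w ^ 2 ≤ 2 * b ^ 2 := by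
      have h7 := pow_le_pow_left₀ hu0 hu1 2
      have h8 := pow_le_pow_left₀ hw0 hw1 2
      linarith
    have h9 : b ^ 3 ≤ b ^ 4 := pow_le_pow_right₀ hb (by norm_num)
    calc (u + w) * (u ^ 2 + w ^ 2) ≤ (2 * b) * (2 * b ^ 2) :=
          mul_le_mul h5 h6 (by positivity) (by positivity)
      _ = 4 * b ^ 3 := by ring
      _ ≤ 4 * b ^ 4 := by linarith
  rw [h2, abs_mul, abs_of_nonneg h3, mul_comm]
  exact mul_le_mul_of_nonneg_right h4 (abs_nonneg _)

lemma tq_lip {b : ℝ} (hb : 1 ≤ b) (s t : ℝ) : |tq b s - tq b t| ≤ 4 * b ^ 4 * |s - t| := by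
  have hb0 : 0 ≤ b := by linarith
  have h1 : |min |s| b - min |t| b| ≤ |s - t| := by
    refine (abs_min_sub_min_le_max _ _ _ _).trans ?_
    rw [sub_self, abs_zero]
    exact max_le (abs_abs_sub_abs_le s t) (abs_nonneg _)
  refine (pow_lip hb (le_min (abs_nonneg s) hb0) (le_min (abs_nonneg t) hb0) (min_le_right _ _)
    (min_le_right _ _)).trans ?_
  exact mul_le_mul_of_nonneg_left h1 (by positivity)

lemma tq_cont (b : ℝ) : Continuous (tq b) := by
  unfold tq
  exact (continuous_abs.min continuous_const).pow 4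

lemma tq_tendsto (t : ℝ) : Tendsto (fun n : ℕ => tq ((n : ℝ) + 1) t) atTop (𝓝 (t ^ 4)) := by
  obtain ⟨N, hN⟩ := exists_nat_ge |t|
  refine tendsto_const_nhds.congr' ?_
  filter_upwards [eventually_ge_atTop N] with n hn
  refine (tq_eq ?_).symm
  have : (N : ℝ) ≤ n := by exact_mod_cast hn
  linarith

variable {Ω : Type} [MeasurableSpace Ω] {P : Measure Ω} [IsProbabilityMeasure P] {F : ℂ → Ω → ℝ}

lemma tq_int (hF : ∀ x, Measurable (F x)) {b : ℝ} (hb : 0 ≤ b) (x : ℂ) :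
    Integrable (fun o => tq b (F x o)) P := by
  refine (integrable_const (b ^ 4)).mono' ((tq_cont b).measurable.comp (hF x)).aestronglyMeasurable
    (Eventually.of_forall fun o => ?_)
  rw [Real.norm_eq_abs, abs_of_nonneg (tq_nonneg _ _)]
  exact tq_le_pow hb _

lemma same_tq (hS : Same P F) {b : ℝ} (hb : 1 ≤ b) (x : ℂ) :
    ∫ o, tq b (F x o) ∂P = ∫ o, tq b (F 0 o) ∂P := by
  refine hS x (tq b) (4 * b ^ 4) (tq_lip hb) fun t => ?_
  rw [abs_of_nonneg (tq_nonneg _ _)]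
  refine (tq_le_pow (by linarith) t).trans ?_
  have : 0 ≤ b ^ 4 := by positivity
  linarith

lemma lint_tendsto (hF : ∀ x, Measurable (F x)) (x : ℂ) :
    Tendsto (fun n : ℕ => ∫⁻ o, ENNReal.ofReal (tq ((n : ℝ) + 1) (F x o)) ∂P) atTop
      (𝓝 (∫⁻ o, ENNReal.ofReal (F x o ^ 4) ∂P)) := by
  refine lintegral_tendsto_of_tendsto_of_monotone (fun n => ?_) ?_ ?_
  · exact (((tq_cont _).measurable.comp (hF x)).ennreal_ofReal).aemeasurable
  · refine Eventually.of_forall fun o n m hnm => ?_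
    refine ENNReal.ofReal_le_ofReal (tq_mono (by positivity) ?_ _)
    have : (n : ℝ) ≤ m := by exact_mod_cast hnm
    linarith
  · exact Eventually.of_forall fun o => (ENNReal.continuous_ofReal.tendsto _).comp (tq_tendsto _)

lemma same_lint (hF : ∀ x, Measurable (F x)) (hS : Same P F) (x : ℂ) :
    ∫⁻ o, ENNReal.ofReal (F x o ^ 4) ∂P = ∫⁻ o, ENNReal.ofReal (F 0 o ^ 4) ∂P := by
  refine tendsto_nhds_unique (lint_tendsto hF x) ((lint_tendsto hF 0).congr fun n => ?_)
  have hb : (1 : ℝ) ≤ (n : ℝ) + 1 := by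
    have : (0 : ℝ) ≤ n := Nat.cast_nonneg n
    linarith
  rw [← ofReal_integral_eq_lintegral_ofReal (tq_int hF (by linarith) _)
      (Eventually.of_forall fun o => tq_nonneg _ _),
    ← ofReal_integral_eq_lintegral_ofReal (tq_int hF (by linarith) _)
      (Eventually.of_forall fun o => tq_nonneg _ _), same_tq hS hb x]

lemma int_four (hF : ∀ x, Measurable (F x)) (hS : Same P F)
    (h4 : Integrable (fun o => F 0 o ^ 4) P) (x : ℂ) :
    Integrable (fun o => F x o ^ 4) P ∧ ∫ o, F x o ^ 4 ∂P = ∫ o, F 0 o ^ 4 ∂P := by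
  have hpos : ∀ y : ℂ, 0 ≤ᵐ[P] fun o => F y o ^ 4 := fun y =>
    Eventually.of_forall fun o => by positivity
  have h1 := same_lint hF hS x
  constructor
  · refine ⟨((hF x).pow_const 4).aestronglyMeasurable, ?_⟩
    rw [hasFiniteIntegral_iff_ofReal (hpos x), h1, ← hasFiniteIntegral_iff_ofReal (hpos 0)]
    exact h4.2
  · rw [integral_eq_lintegral_of_nonneg_ae (hpos x) ((hF x).pow_const 4).aestronglyMeasurable,
      integral_eq_lintegral_of_nonneg_ae (hpos 0) ((hF 0).pow_const 4).aestronglyMeasurable, h1]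

lemma tail_small (hF : ∀ x, Measurable (F x)) (h4 : Integrable (fun o => F 0 o ^ 4) P) :
    Tendsto (fun n : ℕ => ∫ o, (F 0 o ^ 4 - tq ((n : ℝ) + 1) (F 0 o)) ∂P) atTop (𝓝 0) := by
  have h := tendsto_integral_of_dominated_convergence (μ := P)
    (F := fun (n : ℕ) o => F 0 o ^ 4 - tq ((n : ℝ) + 1) (F 0 o)) (f := fun _ => (0 : ℝ))
    (fun o => F 0 o ^ 4)
    (fun n => (((hF 0).pow_const 4).sub
      ((tq_cont _).measurable.comp (hF 0))).aestronglyMeasurable) h4
    (fun n => Eventually.of_forall fun o => ?_)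
    (Eventually.of_forall fun o => ?_)
  · simpa using h
  · have h1 := tq_nonneg ((n : ℝ) + 1) (F 0 o)
    have h2 := tq_le (show (0 : ℝ) ≤ (n : ℝ) + 1 by positivity) (F 0 o)
    rw [Real.norm_eq_abs, abs_of_nonneg (by linarith)]
    linarith
  · have h1 := (tendsto_const_nhds (x := F 0 o ^ 4)).sub (tq_tendsto (F 0 o))
    rwa [sub_self] at h1

end UPG

open UPG in
theorem t_UPG : StmtUpg := by
  intro Ω _ P _ F hF hS h4 a hL ε hε
  have hi := fun x : ℂ => (int_four hF hS h4 x).1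
  have he := fun x : ℂ => (int_four hF hS h4 x).2
  obtain ⟨n, hn⟩ : ∃ n : ℕ, ∫ o, (F 0 o ^ 4 - tq ((n : ℝ) + 1) (F 0 o)) ∂P ≤ ε / 4 :=
    ((tail_small hF h4).eventually_le_const (by positivity)).exists
  obtain ⟨b, hb⟩ : ∃ b : ℝ, b = (n : ℝ) + 1 := ⟨_, rfl⟩
  rw [← hb] at hn
  have hb1 : 1 ≤ b := by
    rw [hb]
    have : (0 : ℝ) ≤ n := Nat.cast_nonneg n
    linarith
  have hb0 : 0 ≤ b := by linarith
  obtain ⟨K, hK⟩ : ∃ K, K = Berry.waveK a := ⟨_, rfl⟩
  obtain ⟨B, hB⟩ : ∃ B : ℝ, B = 1 + (2 * K ^ 2 + 2 * b ^ 4) := ⟨_, rfl⟩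
  have hB0 : 0 < B := by
    rw [hB]
    positivity
  obtain ⟨η, hη⟩ : ∃ η : ℝ, η = min 1 (ε / (2 * B)) := ⟨_, rfl⟩
  have hη0 : 0 < η := by
    rw [hη]
    exact lt_min one_pos (by positivity)
  have hη1 : η ≤ 1 := by
    rw [hη]
    exact min_le_left _ _
  have hη2 : η * B ≤ ε / 2 := by
    have h1 : η ≤ ε / (2 * B) := by
      rw [hη]
      exact min_le_right _ _
    calc η * B ≤ ε / (2 * B) * B := mul_le_mul_of_nonneg_right h1 hB0.le
      _ = ε / 2 := by field_simp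
  obtain ⟨r, c, x, hc, hc1, hP⟩ := hL η hη0
  refine ⟨r, c, x, hc1, ?_⟩
  rw [← hK] at hP ⊢
  -- the tails
  have ht : ∀ y : ℂ, Integrable (fun o => F y o ^ 4 - tq b (F y o)) P ∧
      ∫ o, (F y o ^ 4 - tq b (F y o)) ∂P ≤ ε / 4 := by
    intro y
    refine ⟨(hi y).sub (tq_int hF hb0 y), ?_⟩
    rw [integral_sub (hi y) (tq_int hF hb0 y), he y, same_tq hS hb1 y,
      ← integral_sub h4 (tq_int hF hb0 0)]
    exact hn
  set A : Set Ω := {o | η < |∑ i, c i * (F (x i) o * F (x i + a) o) - K|} with hA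
  have hXm : Measurable fun o => |∑ i, c i * (F (x i) o * F (x i + a) o) - K| := by
    refine ((Finset.measurable_sum _ fun i _ => ?_).sub measurable_const).abs
    exact ((hF _).mul (hF _)).const_mul _
  have hAm : MeasurableSet A := measurableSet_lt measurable_const hXm
  -- the majorant
  have hint : Integrable (fun o => η ^ 2 + (2 * K ^ 2 + 2 * b ^ 4) * A.indicator (fun _ => (1 : ℝ)) o
      + ∑ i, c i * ((F (x i) o ^ 4 - tq b (F (x i) o)) +
        (F (x i + a) o ^ 4 - tq b (F (x i + a) o)))) P := by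
    refine ((integrable_const _).add
      (((integrable_const (1 : ℝ)).indicator hAm).const_mul _)).add ?_
    refine integrable_finsetSum _ fun i _ => ?_
    exact ((ht _).1.add (ht _).1).const_mul _
  have hle : ∀ o, (∑ i, c i * (F (x i) o * F (x i + a) o) - K) ^ 2 ≤
      η ^ 2 + (2 * K ^ 2 + 2 * b ^ 4) * A.indicator (fun _ => (1 : ℝ)) o
      + ∑ i, c i * ((F (x i) o ^ 4 - tq b (F (x i) o)) +
        (F (x i + a) o ^ 4 - tq b (F (x i + a) o))) := by
    intro o
    have hs : 0 ≤ ∑ i, c i * ((F (x i) o ^ 4 - tq b (F (x i) o)) +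
        (F (x i + a) o ^ 4 - tq b (F (x i + a) o))) := by
      refine Finset.sum_nonneg fun i _ => mul_nonneg (hc i) ?_
      have h1 := tq_le hb0 (F (x i) o)
      have h2 := tq_le hb0 (F (x i + a) o)
      linarith
    by_cases ho : o ∈ A
    · rw [Set.indicator_of_mem ho, mul_one]
      have h1 : (∑ i, c i * (F (x i) o * F (x i + a) o)) ^ 2 ≤
          ∑ i, c i * (F (x i) o * F (x i + a) o) ^ 2 := by
        have h2 := Finset.sum_sq_le_sum_mul_sum_of_sq_le_mul Finset.univ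
          (r := fun i => c i * (F (x i) o * F (x i + a) o)) (f := c)
          (g := fun i => c i * (F (x i) o * F (x i + a) o) ^ 2) (fun i _ => hc i)
          (fun i _ => mul_nonneg (hc i) (sq_nonneg _)) (fun i _ => le_of_eq (by ring))
        rwa [hc1, one_mul] at h2
      have h3 : 2 * ∑ i, c i * (F (x i) o * F (x i + a) o) ^ 2 ≤
          2 * b ^ 4 + ∑ i, c i * ((F (x i) o ^ 4 - tq b (F (x i) o)) +
            (F (x i + a) o ^ 4 - tq b (F (x i + a) o))) := by
        have h4 : 2 * b ^ 4 = ∑ i, c i * (2 * b ^ 4) := by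
          rw [← Finset.sum_mul, hc1, one_mul]
        rw [h4, ← Finset.sum_add_distrib, Finset.mul_sum]
        refine Finset.sum_le_sum fun i _ => ?_
        have h5 := tq_le_pow hb0 (F (x i) o)
        have h6 := tq_le_pow hb0 (F (x i + a) o)
        have h7 : 2 * (F (x i) o * F (x i + a) o) ^ 2 ≤ F (x i) o ^ 4 + F (x i + a) o ^ 4 := by
          nlinarith [sq_nonneg (F (x i) o ^ 2 - F (x i + a) o ^ 2)]
        have h8 : 2 * (F (x i) o * F (x i + a) o) ^ 2 ≤ 2 * b ^ 4 +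
            ((F (x i) o ^ 4 - tq b (F (x i) o)) +
            (F (x i + a) o ^ 4 - tq b (F (x i + a) o))) := by linarith
        calc 2 * (c i * (F (x i) o * F (x i + a) o) ^ 2)
            = c i * (2 * (F (x i) o * F (x i + a) o) ^ 2) := by ring
          _ ≤ c i * (2 * b ^ 4 + ((F (x i) o ^ 4 - tq b (F (x i) o)) +
              (F (x i + a) o ^ 4 - tq b (F (x i + a) o)))) :=
              mul_le_mul_of_nonneg_left h8 (hc i)
          _ = _ := by ring
      have h9 : 0 ≤ η ^ 2 := sq_nonneg _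
      nlinarith [sq_nonneg (∑ i, c i * (F (x i) o * F (x i + a) o) + K)]
    · rw [Set.indicator_of_notMem ho, mul_zero, add_zero]
      have h1 : |∑ i, c i * (F (x i) o * F (x i + a) o) - K| ≤ η := not_lt.1 ho
      have h2 := sq_le_sq' (by linarith [(abs_le.1 h1).1]) (abs_le.1 h1).2
      linarith
  have hmain := integral_mono_of_nonneg (Eventually.of_forall fun o => sq_nonneg _) hint
    (Eventually.of_forall hle)
  refine hmain.trans ?_
  have hi1 : Integrable (fun o => (2 * K ^ 2 + 2 * b ^ 4) * A.indicator (fun _ => (1 : ℝ)) o) P :=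
    ((integrable_const (1 : ℝ)).indicator hAm).const_mul _
  have hi2 : ∀ i, Integrable (fun o => c i * ((F (x i) o ^ 4 - tq b (F (x i) o)) +
      (F (x i + a) o ^ 4 - tq b (F (x i + a) o)))) P := fun i =>
    ((ht _).1.add (ht _).1).const_mul _
  have hI : ∫ o, (η ^ 2 + (2 * K ^ 2 + 2 * b ^ 4) * A.indicator (fun _ => (1 : ℝ)) o
      + ∑ i, c i * ((F (x i) o ^ 4 - tq b (F (x i) o)) +
        (F (x i + a) o ^ 4 - tq b (F (x i + a) o)))) ∂P =
      η ^ 2 + (2 * K ^ 2 + 2 * b ^ 4) * P.real A +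
        ∑ i, ∫ o, c i * ((F (x i) o ^ 4 - tq b (F (x i) o)) +
          (F (x i + a) o ^ 4 - tq b (F (x i + a) o))) ∂P := by
    have e1 := integral_add (μ := P) (f := fun o => η ^ 2 + (2 * K ^ 2 + 2 * b ^ 4) *
        A.indicator (fun _ => (1 : ℝ)) o)
      (g := fun o => ∑ i, c i * ((F (x i) o ^ 4 - tq b (F (x i) o)) +
        (F (x i + a) o ^ 4 - tq b (F (x i + a) o))))
      ((integrable_const _).add hi1) (integrable_finsetSum _ fun i _ => hi2 i)
    have e2 := integral_add (μ := P) (f := fun _ : Ω => η ^ 2)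
      (g := fun o => (2 * K ^ 2 + 2 * b ^ 4) * A.indicator (fun _ => (1 : ℝ)) o)
      (integrable_const _) hi1
    have e3 : ∫ o, (2 * K ^ 2 + 2 * b ^ 4) * A.indicator (fun _ => (1 : ℝ)) o ∂P =
        (2 * K ^ 2 + 2 * b ^ 4) * P.real A := by
      rw [integral_const_mul, integral_indicator_const _ hAm, smul_eq_mul, mul_one]
    rw [e1, e2, e3, integral_const, probReal_univ, one_smul,
      integral_finsetSum _ fun i _ => hi2 i]
  rw [hI]
  have hsum : ∑ i, ∫ o, c i * ((F (x i) o ^ 4 - tq b (F (x i) o)) +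
      (F (x i + a) o ^ 4 - tq b (F (x i + a) o))) ∂P ≤ ∑ i, c i * (ε / 2) := by
    refine Finset.sum_le_sum fun i _ => ?_
    have e4 := integral_add (μ := P) (f := fun o => F (x i) o ^ 4 - tq b (F (x i) o))
      (g := fun o => F (x i + a) o ^ 4 - tq b (F (x i + a) o)) (ht _).1 (ht _).1
    rw [integral_const_mul, e4]
    refine mul_le_mul_of_nonneg_left ?_ (hc i)
    have h1 := (ht (x i)).2
    have h2 := (ht (x i + a)).2
    linarith
  rw [← Finset.sum_mul, hc1, one_mul] at hsum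
  have h1 : (2 * K ^ 2 + 2 * b ^ 4) * P.real A ≤ (2 * K ^ 2 + 2 * b ^ 4) * η :=
    mul_le_mul_of_nonneg_left hP (by positivity)
  have h2 : η ^ 2 ≤ η := by nlinarith
  have h3 : η * B = η + (2 * K ^ 2 + 2 * b ^ 4) * η := by
    rw [hB]
    ring
  linarith

end

end PKM
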