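import Pool.Agent.PKM.St1
import Pool.Agent.BSL.HUL

/-!
# PKM, module WEV (helper55): the weights of the even jets, and a lower bound for `K`
-/

open Complex MeasureTheory Filter Topology Set

namespace PKM

open QE QE.NC QJ U3 NFP BSL

noncomputable section

namespace WEV

/-- the coefficients of the statistic `(F(x) + F(-x)) / 2` -/
lemma tN_half (x : ℂ) (N : ℕ) (j : ℤ) :
    tN (![1 / 2, 1 / 2] : Fin 2 → ℝ) ![x, -x] N j = if Even j then CN N j x else 0 := by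
  unfold tN
  rw [Fin.sum_univ_two]
  simp only [Matrix.cons_val_zero, Matrix.cons_val_one]
  rw [CN_neg]
  split_ifs with h
  · rw [h.neg_one_zpow]
    push_cast
    ring
  · rw [(Int.not_even_iff_odd.1 h).neg_one_zpow]
    push_cast
    ring

lemma norm_kap1 (N : ℕ) (j : ℤ) (x : ℂ) : ‖kap1 N j x‖ = ‖CN N j x‖ := by
  unfold kap1
  rw [norm_mul, norm_zpow, norm_neg, norm_I, one_zpow, one_mul]

/-- the sum of the squares of the coefficients -/
lemma cS_zero {r : ℕ} (c : Fin r → ℝ) (x : Fin r → ℂ) (N : ℕ) :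
    cS (Finset.Icc (-(N : ℤ)) N) (tN c x N) 0 =
      ((∑ a ∈ Finset.Icc (-(N : ℤ)) N, ‖tN c x N a‖ ^ 2 : ℝ) : ℂ) := by
  unfold cS
  rw [ofReal_sum]
  refine Finset.sum_congr rfl fun a ha => ?_
  have ha' : -a ∈ Finset.Icc (-(N : ℤ)) N := by
    rw [Finset.mem_Icc] at ha ⊢
    omega
  rw [Finset.sum_eq_single_of_mem (-a) ha' (fun b _ hb => if_neg (by omega)),
    if_pos (by omega), tN_conj]
  have h1 : ((-1 : ℂ) ^ a) * (-1) ^ a = 1 := by
    rw [← mul_zpow]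
    norm_num
  have h2 : tN c x N a * (starRingEnd ℂ) (tN c x N a) = ((‖tN c x N a‖ ^ 2 : ℝ) : ℂ) := by
    rw [Complex.mul_conj, Complex.normSq_eq_norm_sq]
  rw [← h2]
  linear_combination (tN c x N a * (starRingEnd ℂ) (tN c x N a)) * h1

lemma wEv_eq (N : ℕ) (x : ℂ) : ((wEv N x : ℝ) : ℂ) =
    cS (Finset.Icc (-(N : ℤ)) N) (tN (![1 / 2, 1 / 2] : Fin 2 → ℝ) ![x, -x] N) 0 := by
  rw [cS_zero]
  congr 1
  unfold wEv
  rw [Finset.sum_filter]
  refine Finset.sum_congr rfl fun j _ => ?_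
  rw [tN_half, norm_kap1]
  split_ifs
  · rfl
  · rw [norm_zero, zero_pow two_ne_zero]

lemma sum_q (F : Fin 2 → Fin 2 → ℝ) :
    ∑ q : Fin 2 → Fin 2, F (q 0) (q 1) = ∑ i, ∑ j, F i j := by
  rw [← Fintype.sum_prod_type', ← (finTwoArrowEquiv (Fin 2)).sum_comp]
  rfl

lemma statVar_half (x : ℂ) :
    statVar (![1 / 2, 1 / 2] : Fin 2 → ℝ) ![x, -x] = (1 + Berry.waveK (2 * x)) / 2 := by
  unfold statVar
  simp only [Fin.prod_univ_two]
  rw [sum_q (fun i j => (![1 / 2, 1 / 2] : Fin 2 → ℝ) i * (![1 / 2, 1 / 2] : Fin 2 → ℝ) j *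
    Berry.waveK ((![x, -x] : Fin 2 → ℂ) i - (![x, -x] : Fin 2 → ℂ) j))]
  simp only [Fin.sum_univ_two, Matrix.cons_val_zero, Matrix.cons_val_one]
  have e1 : x - x = 0 := sub_self x
  have e2 : x - -x = 2 * x := by ring
  have e3 : -x - x = -(2 * x) := by ring
  have e4 : -x - -x = 0 := sub_self _
  rw [e1, e2, e3, e4, Berry.waveK_neg, Berry.waveK_zero]
  ring

lemma K_congr {x y : ℂ} (h : ‖x‖ = ‖y‖) : Berry.waveK x = Berry.waveK y := by
  rw [Berry.waveK_eq_norm, Berry.waveK_eq_norm y, h]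

/-- a sixth root of unity -/
lemma exists_six : ∃ w : ℂ, ‖w‖ = 1 ∧ ‖1 - w‖ = 1 := by
  have h3 : Real.sqrt 3 ^ 2 = 3 := Real.sq_sqrt (by norm_num)
  refine ⟨⟨1 / 2, Real.sqrt 3 / 2⟩, ?_, ?_⟩
  · rw [Complex.norm_eq_sqrt_sq_add_sq]
    have e : (1 / 2 : ℝ) ^ 2 + (Real.sqrt 3 / 2) ^ 2 = 1 := by
      nlinarith [h3]
    simp only [e, Real.sqrt_one]
  · rw [Complex.norm_eq_sqrt_sq_add_sq]
    have e : (1 - (⟨1 / 2, Real.sqrt 3 / 2⟩ : ℂ)).re ^ 2 +
        (1 - (⟨1 / 2, Real.sqrt 3 / 2⟩ : ℂ)).im ^ 2 = 1 := by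
      simp only [Complex.sub_re, Complex.sub_im, Complex.one_re, Complex.one_im]
      nlinarith [h3]
    rw [e, Real.sqrt_one]

lemma lower (u : ℂ) : -(1 / 2) ≤ Berry.waveK u := by
  obtain ⟨w, h1, h2⟩ := exists_six
  have h := HUL.C2_nonneg (fun _ : Fin 3 => (1 : ℝ)) ![0, u / 2, w * u / 2]
  simp only [Fin.sum_univ_three, Matrix.cons_val_zero, Matrix.cons_val_one, Matrix.cons_val,
    one_mul] at h
  have k1 : Berry.waveK (2 * (0 - u / 2)) = Berry.waveK u :=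
    K_congr (by rw [show 2 * (0 - u / 2) = -u by ring, norm_neg])
  have k2 : Berry.waveK (2 * (u / 2 - 0)) = Berry.waveK u :=
    K_congr (by rw [show 2 * (u / 2 - 0) = u by ring])
  have k3 : Berry.waveK (2 * (0 - w * u / 2)) = Berry.waveK u :=
    K_congr (by rw [show 2 * (0 - w * u / 2) = -(w * u) by ring, norm_neg, norm_mul, h1, one_mul])
  have k4 : Berry.waveK (2 * (w * u / 2 - 0)) = Berry.waveK u :=
    K_congr (by rw [show 2 * (w * u / 2 - 0) = w * u by ring, norm_mul, h1, one_mul])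
  have k5 : Berry.waveK (2 * (u / 2 - w * u / 2)) = Berry.waveK u :=
    K_congr (by rw [show 2 * (u / 2 - w * u / 2) = (1 - w) * u by ring, norm_mul, h2, one_mul])
  have k6 : Berry.waveK (2 * (w * u / 2 - u / 2)) = Berry.waveK u :=
    K_congr (by rw [show 2 * (w * u / 2 - u / 2) = -((1 - w) * u) by ring, norm_neg, norm_mul, h2,
      one_mul])
  have z1 : Berry.waveK (2 * (0 - 0)) = 1 := by rw [sub_self, mul_zero, Berry.waveK_zero]
  have z2 : Berry.waveK (2 * (u / 2 - u / 2)) = 1 := by rw [sub_self, mul_zero, Berry.waveK_zero]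
  have z3 : Berry.waveK (2 * (w * u / 2 - w * u / 2)) = 1 := by
    rw [sub_self, mul_zero, Berry.waveK_zero]
  rw [k1, k2, k3, k4, k5, k6, z1, z2, z3] at h
  linarith

end WEV

open WEV in
theorem t_WEV : StmtWev := by
  refine ⟨fun x => ?_, lower⟩
  have h := tendsto_cS0 (![1 / 2, 1 / 2] : Fin 2 → ℝ) ![x, -x]
  simp only [← wEv_eq] at h
  rw [statVar_half] at h
  have h2 := (Complex.continuous_re.tendsto _).comp h
  simpa only [Function.comp_def, Complex.ofReal_re] using h2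

end

end PKM
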