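import Pool.Agent.PKM.End
import Pool.Agent.PWV.ZDI
import Pool.Agent.PKM.PRB
import Pool.Agent.PKM.EQD
import Pool.Agent.PKM.DEN
import Pool.Agent.PKM.JBD
import Pool.Agent.PKM.ANG
import Pool.Agent.PKM.WEV
import Pool.Agent.PKM.DMN
import Pool.Agent.PKM.MOM
import Pool.Agent.PKM.STA
import Pool.Agent.PKM.UPG
import Pool.Agent.PKM.H00
import Pool.Agent.PKM.CTN
import Pool.Agent.PKM.RIS
import Pool.Agent.PKM.PLL
import Pool.Agent.PKM.LLP
import Pool.Agent.PKM.OR2
import Pool.Agent.PKM.ER1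
import Pool.Agent.PKM.NWK

/-!
# Planck scale equidistribution in measure: the theorem
-/

namespace PKM

theorem eqd_closed : StmtEqd := t_EQD t_PRB

theorem dmn_closed : StmtDmn := t_DMN t_PRB eqd_closed t_DEN t_JBD t_ANG t_WEV

theorem mom_closed : StmtMom := t_MOM dmn_closed

theorem ris_closed : StmtRis := t_RIS t_CTN

/-- the theorem -/
theorem end_closed : StmtEnd :=
  t_END mom_closed t_STA t_UPG t_H00 eqd_closed (t_PLL ris_closed) (t_LLP ris_closed)
    (t_OR2 t_STA) t_ER1 (t_NWK PWV.t_ZDI)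

end PKM
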