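import Pool.Agent.PKM.St2a

/-!
# Bessel's inequality for a periodic function and its derivative (module BES)
-/

open Complex MeasureTheory Filter Topology Set

namespace PKM

namespace BES

lemma tpi : (0 : ℝ) < 2 * Real.pi := by positivity

/-- the coefficient is a Fourier coefficient in the sense of Mathlib -/
lemma fc_eq (f : ℝ → ℝ) (k : ℤ) :
    fc f k = fourierCoeffOn tpi (fun θ => (f θ : ℂ)) (2 * k) := by
  rw [fourierCoeffOn_eq_integral, fc, sub_zero, real_smul]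
  congr 1
  · push_cast
    rw [one_div]
  · refine intervalIntegral.integral_congr fun θ _ => ?_
    simp only [smul_eq_mul]
    rw [mul_comm, fourier_coe_apply]
    congr 2
    have hpi : (Real.pi : ℂ) ≠ 0 := by exact_mod_cast Real.pi_ne_zero
    push_cast
    field_simp

/-- Bessel's inequality -/
lemma bessel (g : ℝ → ℂ) (hg : Continuous g) (δ : ℝ) (hδ : ∀ θ, ‖g θ‖ ≤ δ) (s : Finset ℤ) :
    ∑ k ∈ s, ‖fourierCoeffOn tpi g (2 * k)‖ ^ 2 ≤ δ ^ 2 := by
  have hδ0 : 0 ≤ δ := (norm_nonneg _).trans (hδ 0)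
  have hL : MemLp g 2 (volume.restrict (Ioc 0 (2 * Real.pi))) := by
    refine MemLp.of_bound (C := δ) hg.aestronglyMeasurable ?_
    exact Filter.Eventually.of_forall hδ
  have hs := hasSum_sq_fourierCoeffOn tpi hL
  have h1 : ∑ k ∈ s, ‖fourierCoeffOn tpi g (2 * k)‖ ^ 2
      = ∑ i ∈ s.image (fun k => 2 * k), ‖fourierCoeffOn tpi g i‖ ^ 2 := by
    rw [Finset.sum_image]
    intro x _ y _ h
    simpa using h
  rw [h1]
  refine (sum_le_hasSum _ (fun i _ => by positivity) hs).trans ?_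
  rw [sub_zero, smul_eq_mul]
  have h2 : ∫ x in (0 : ℝ)..(2 * Real.pi), ‖g x‖ ^ 2 ≤ ∫ x in (0 : ℝ)..(2 * Real.pi), δ ^ 2 := by
    refine intervalIntegral.integral_mono_on tpi.le ?_ ?_ fun x _ => ?_
    · exact ((hg.norm.pow 2).intervalIntegrable _ _)
    · exact intervalIntegrable_const
    · exact pow_le_pow_left₀ (norm_nonneg _) (hδ x) 2
  rw [intervalIntegral.integral_const, sub_zero, smul_eq_mul] at h2
  calc (2 * Real.pi)⁻¹ * ∫ x in (0 : ℝ)..(2 * Real.pi), ‖g x‖ ^ 2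
      ≤ (2 * Real.pi)⁻¹ * (2 * Real.pi * δ ^ 2) :=
        mul_le_mul_of_nonneg_left h2 (inv_nonneg.2 tpi.le)
    _ = δ ^ 2 := by
        rw [← mul_assoc, inv_mul_cancel₀ tpi.ne', one_mul]

end BES

open BES in
/-- BES: Bessel's inequality for a function and its derivative -/
theorem t_BES : StmtBes := by
  intro f hf hper δ h1 h2 R
  have hd : ∀ x, HasDerivAt (fun θ => (f θ : ℂ)) ((deriv f x : ℝ) : ℂ) x := fun x =>
    ((hf.differentiable (by norm_num)) x).hasDerivAt.ofReal_comp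
  have hc' : Continuous (deriv f) := hf.continuous_deriv (by norm_num)
  have hA := bessel (fun θ => (f θ : ℂ)) (continuous_ofReal.comp hf.continuous) δ
    (fun θ => by rw [Complex.norm_real]; exact h1 θ) (IM R)
  have hB := bessel (fun θ => ((deriv f θ : ℝ) : ℂ)) (continuous_ofReal.comp hc') δ
    (fun θ => by rw [Complex.norm_real]; exact h2 θ) (IM R)
  have hk : ∀ k : ℤ, (k : ℝ) ^ 2 * ‖fc f k‖ ^ 2
      ≤ ‖fourierCoeffOn tpi (fun θ => ((deriv f θ : ℝ) : ℂ)) (2 * k)‖ ^ 2 := by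
    intro k
    rcases eq_or_ne k 0 with rfl | hk
    · simp
    · have h := fourierCoeffOn_of_hasDerivAt (n := 2 * k) tpi (by simpa using hk)
        (fun x _ => hd x) ((continuous_ofReal.comp hc').intervalIntegrable _ _)
      rw [← fc_eq] at h
      have hp : f (2 * Real.pi) = f 0 := by simpa using hper 0
      simp only [hp, sub_self, mul_zero, zero_sub] at h
      have hpi : (Real.pi : ℂ) ≠ 0 := by exact_mod_cast Real.pi_ne_zero
      have hkc : (k : ℂ) ≠ 0 := by exact_mod_cast hk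
      have h3 : fourierCoeffOn tpi (fun θ => ((deriv f θ : ℝ) : ℂ)) (2 * k)
          = 2 * I * k * fc f k := by
        rw [h]
        push_cast
        field_simp
        simp only [sub_zero]
        ring
      rw [h3]
      have h4 : ‖(2 * I * k * fc f k : ℂ)‖ ^ 2 = 4 * ((k : ℝ) ^ 2 * ‖fc f k‖ ^ 2) := by
        rw [norm_mul, norm_mul, norm_mul, norm_I, Complex.norm_intCast, mul_pow, mul_pow, mul_pow,
          sq_abs]
        simp
        ring
      rw [h4]
      nlinarith [mul_nonneg (sq_nonneg (k : ℝ)) (sq_nonneg ‖fc f k‖)]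
  have hA' : ∑ k ∈ IM R, ‖fc f k‖ ^ 2 ≤ δ ^ 2 := by
    simp_rw [fc_eq]
    exact hA
  have hB' : ∑ k ∈ IM R, (k : ℝ) ^ 2 * ‖fc f k‖ ^ 2 ≤ δ ^ 2 :=
    (Finset.sum_le_sum fun k _ => hk k).trans hB
  calc ∑ k ∈ IM R, (1 + (k : ℝ) ^ 2) * ‖fc f k‖ ^ 2
      = ∑ k ∈ IM R, ‖fc f k‖ ^ 2 + ∑ k ∈ IM R, (k : ℝ) ^ 2 * ‖fc f k‖ ^ 2 := by
        rw [← Finset.sum_add_distrib]
        refine Finset.sum_congr rfl fun k _ => ?_
        ring
    _ ≤ 2 * δ ^ 2 := by linarith

end PKM
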