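import Pool.Agent.PKM.St2a

/-!
# PKM, module BN1: the binomial weights
-/

open Finset

namespace PKM

namespace BN1

theorem be_nat (M i : ℕ) : be M ((i : ℤ) - M) = ((2 * M).choose i : ℝ) / 4 ^ M := by
  unfold be
  rw [if_pos (by omega)]
  have h : ((i : ℤ) - M + M).toNat = i := by omega
  rw [h]

theorem be_lt {M : ℕ} {k : ℤ} (h : k < -(M : ℤ)) : be M k = 0 := by
  unfold be
  rw [if_neg (by omega)]

theorem exists_nat {M : ℕ} {k : ℤ} (h : -(M : ℤ) ≤ k) : ∃ i : ℕ, k = (i : ℤ) - M :=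
  ⟨(k + M).toNat, by omega⟩

theorem be_nonneg (M : ℕ) (k : ℤ) : 0 ≤ be M k := by
  unfold be
  split_ifs
  · positivity
  · exact le_rfl

theorem be_gt {M : ℕ} {k : ℤ} (h : (M : ℤ) < k) : be M k = 0 := by
  obtain ⟨i, rfl⟩ := exists_nat (M := M) (k := k) (by omega)
  rw [be_nat, Nat.choose_eq_zero_of_lt (by omega)]
  simp

theorem be_abs {M : ℕ} {k : ℤ} (h : (M : ℤ) < |k|) : be M k = 0 := by
  rcases lt_abs.1 h with h | h
  · exact be_gt h
  · exact be_lt (by omega)

theorem be_neg (M : ℕ) (k : ℤ) : be M (-k) = be M k := by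
  by_cases h : (M : ℤ) < |k|
  · rw [be_abs h, be_abs (by rwa [abs_neg])]
  · rw [not_lt, abs_le] at h
    obtain ⟨i, hi⟩ := exists_nat (M := M) (k := k) (by omega)
    have h1 : -k = ((2 * M - i : ℕ) : ℤ) - M := by omega
    rw [h1, be_nat, hi, be_nat, Nat.choose_symm (by omega)]

theorem choose_mono {M a b : ℕ} (hab : a ≤ b) (hb : b ≤ M) :
    (2 * M).choose a ≤ (2 * M).choose b := by
  induction b, hab using Nat.le_induction with
  | base => exact le_rfl
  | succ b hab ih =>
    exact (ih (by omega)).trans (Nat.choose_le_succ_of_lt_half_left (by omega))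

theorem be_mono_nat (M : ℕ) {k l : ℕ} (h : k ≤ l) : be M (l : ℤ) ≤ be M (k : ℤ) := by
  by_cases hl : M < l
  · rw [be_gt (by exact_mod_cast hl)]
    exact be_nonneg _ _
  · have e1 : be M (l : ℤ) = ((2 * M).choose (M - l) : ℝ) / 4 ^ M := by
      rw [← be_neg, ← be_nat]
      congr 1
      omega
    have e2 : be M (k : ℤ) = ((2 * M).choose (M - k) : ℝ) / 4 ^ M := by
      rw [← be_neg, ← be_nat]
      congr 1
      omega
    rw [e1, e2]
    have h1 : (2 * M).choose (M - l) ≤ (2 * M).choose (M - k) :=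
      choose_mono (by omega) (by omega)
    gcongr

theorem be_natAbs (M : ℕ) (k : ℤ) : be M k = be M (k.natAbs : ℤ) := by
  rcases le_total 0 k with h | h
  · congr 1
    omega
  · rw [← be_neg]
    congr 1
    omega

theorem be_mono (M : ℕ) {k l : ℤ} (h : |k| ≤ |l|) : be M l ≤ be M k := by
  rw [be_natAbs M l, be_natAbs M k]
  refine be_mono_nat M ?_
  rw [Int.abs_eq_natAbs, Int.abs_eq_natAbs] at h
  exact_mod_cast h

theorem sum_IM (M : ℕ) (f : ℤ → ℝ) :
    ∑ k ∈ IM M, f k = ∑ i ∈ range (2 * M + 1), f ((i : ℤ) - M) := by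
  symm
  refine sum_nbij' (fun i : ℕ => (i : ℤ) - M) (fun k : ℤ => (k + M).toNat) ?_ ?_ ?_ ?_ ?_
  · intro i hi
    rw [mem_range] at hi
    unfold IM
    rw [Finset.mem_Icc]
    omega
  · intro k hk
    unfold IM at hk
    rw [Finset.mem_Icc] at hk
    rw [mem_range]
    omega
  · intro i _
    show ((i : ℤ) - M + M).toNat = i
    omega
  · intro k hk
    unfold IM at hk
    rw [Finset.mem_Icc] at hk
    show (((k + M).toNat : ℕ) : ℤ) - M = k
    omega
  · intro i _
    rfl

theorem bern (M ν : ℕ) (h : ν ≤ 2 * M) :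
    Polynomial.eval (1 / 2 : ℝ) (bernsteinPolynomial ℝ (2 * M) ν) =
      ((2 * M).choose ν : ℝ) / 4 ^ M := by
  unfold bernsteinPolynomial
  simp only [Polynomial.eval_mul, Polynomial.eval_pow, Polynomial.eval_sub, Polynomial.eval_one,
    Polynomial.eval_X, Polynomial.eval_natCast]
  have h1 : (1 - 1 / 2 : ℝ) = 1 / 2 := by norm_num
  rw [h1, mul_assoc, ← pow_add]
  have h2 : ν + (2 * M - ν) = 2 * M := by omega
  have h3 : ((1 / 2 : ℝ) ^ 2) = 4⁻¹ := by norm_num
  rw [h2, pow_mul, h3, inv_pow, div_eq_mul_inv]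

theorem sum_be (M : ℕ) : ∑ k ∈ IM M, be M k = 1 := by
  rw [sum_IM]
  have h1 := congrArg (Polynomial.eval (1 / 2 : ℝ)) (bernsteinPolynomial.sum ℝ (2 * M))
  rw [Polynomial.eval_finsetSum, Polynomial.eval_one] at h1
  rw [← h1]
  refine sum_congr rfl fun i hi => ?_
  rw [mem_range] at hi
  rw [be_nat, bern M i (by omega)]

theorem sum_sq (M : ℕ) : ∑ k ∈ IM M, (k : ℝ) ^ 2 * be M k = M / 2 := by
  rw [sum_IM]
  have h1 := congrArg (Polynomial.eval (1 / 2 : ℝ)) (bernsteinPolynomial.variance ℝ (2 * M))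
  rw [Polynomial.eval_finsetSum] at h1
  have h2 : Polynomial.eval (1 / 2 : ℝ) ((2 * M) • Polynomial.X * (1 - Polynomial.X)) =
      (M : ℝ) / 2 := by
    simp only [nsmul_eq_mul, Polynomial.eval_mul, Polynomial.eval_sub, Polynomial.eval_one,
      Polynomial.eval_X, Polynomial.eval_natCast]
    push_cast
    ring
  rw [h2] at h1
  rw [← h1]
  refine sum_congr rfl fun i hi => ?_
  rw [mem_range] at hi
  rw [be_nat, Polynomial.eval_mul, bern M i (by omega)]
  simp only [nsmul_eq_mul, Polynomial.eval_mul, Polynomial.eval_pow, Polynomial.eval_sub,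
    Polynomial.eval_X, Polynomial.eval_natCast]
  push_cast
  ring

theorem be_zero (M : ℕ) : be M 0 = (Nat.centralBinom M : ℝ) / 4 ^ M := by
  have h : (0 : ℤ) = (M : ℤ) - M := by omega
  rw [h, be_nat, Nat.centralBinom_eq_two_mul_choose]

theorem be_zero_succ (M : ℕ) : (2 * M + 2 : ℝ) * be (M + 1) 0 = (2 * M + 1) * be M 0 := by
  rw [be_zero, be_zero]
  have h := Nat.succ_mul_centralBinom_succ M
  have h1 : ((M : ℝ) + 1) * (Nat.centralBinom (M + 1) : ℝ) =
      2 * (2 * M + 1) * (Nat.centralBinom M : ℝ) := by exact_mod_cast h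
  rw [pow_succ]
  field_simp
  linarith

theorem upper (M : ℕ) : (2 * M + 1 : ℝ) * be M 0 ^ 2 ≤ 1 := by
  induction M with
  | zero =>
    rw [be_zero]
    norm_num
  | succ M ih =>
    have h := be_zero_succ M
    have h2 : (0 : ℝ) < 2 * M + 2 := by positivity
    have h3 : be (M + 1) 0 = (2 * M + 1) * be M 0 / (2 * M + 2) := by
      field_simp
      linarith
    rw [h3]
    push_cast
    have h4 : (2 * ((M : ℝ) + 1) + 1) * ((2 * M + 1) * be M 0 / (2 * M + 2)) ^ 2 =
        ((2 * M + 3) * (2 * M + 1) / (2 * M + 2) ^ 2) * ((2 * M + 1) * be M 0 ^ 2) := by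
      field_simp
      ring
    rw [h4]
    have h5 : ((2 * M + 3) * (2 * M + 1) / (2 * M + 2) ^ 2 : ℝ) ≤ 1 := by
      rw [div_le_one (by positivity)]
      nlinarith
    have h6 : (0 : ℝ) ≤ (2 * M + 1) * be M 0 ^ 2 := by positivity
    calc _ ≤ 1 * ((2 * M + 1) * be M 0 ^ 2) := by gcongr
      _ ≤ 1 := by linarith

theorem lower (M : ℕ) : (1 : ℝ) ≤ 4 * (M + 1) * be (M + 1) 0 ^ 2 := by
  induction M with
  | zero =>
    have h := be_zero_succ 0
    have h0 : be 0 0 = 1 := by
      rw [be_zero]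
      norm_num
    rw [h0] at h
    norm_num at h
    have h1 : be 1 0 = 1 / 2 := by linarith
    norm_num [h1]
  | succ M ih =>
    have h := be_zero_succ (M + 1)
    push_cast at h ⊢
    have h3 : be (M + 1 + 1) 0 = (2 * M + 3) * be (M + 1) 0 / (2 * M + 4) := by
      field_simp
      linarith
    rw [h3]
    have h4 : 4 * ((M : ℝ) + 1 + 1) * ((2 * M + 3) * be (M + 1) 0 / (2 * M + 4)) ^ 2 =
        ((2 * M + 3) ^ 2 / ((2 * M + 4) * (2 * M + 2))) * (4 * (M + 1) * be (M + 1) 0 ^ 2) := by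
      field_simp
      ring
    rw [h4]
    have h5 : (1 : ℝ) ≤ (2 * M + 3) ^ 2 / ((2 * M + 4) * (2 * M + 2)) := by
      rw [le_div_iff₀ (by positivity)]
      nlinarith
    calc (1 : ℝ) = 1 * 1 := by norm_num
      _ ≤ _ := by gcongr

theorem vander (M : ℕ) (s : ℤ) : ∑ j ∈ IM M, be M j * be M (s - j) = be (2 * M) s := by
  rw [sum_IM]
  by_cases hs : s < -((2 * M : ℕ) : ℤ)
  · rw [be_lt hs]
    refine sum_eq_zero fun i hi => ?_
    rw [mem_range] at hi
    rw [be_lt (M := M) (k := s - ((i : ℤ) - M)) (by push_cast at hs; omega), mul_zero]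
  · rw [not_lt] at hs
    obtain ⟨n, hn⟩ := exists_nat (M := 2 * M) (k := s) (by push_cast at hs ⊢; omega)
    have h1 : be (2 * M) s = (∑ i ∈ range (n + 1),
        ((2 * M).choose i : ℝ) * ((2 * M).choose (n - i) : ℝ)) / 4 ^ (2 * M) := by
      rw [hn, be_nat]
      have h2 : 2 * (2 * M) = 2 * M + 2 * M := by ring
      rw [h2, Nat.add_choose_eq, Finset.Nat.sum_antidiagonal_eq_sum_range_succ_mk]
      push_cast
      rfl
    have h3 : ∀ i : ℕ, be M ((i : ℤ) - M) * be M (s - ((i : ℤ) - M)) =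
        (if i ≤ n then ((2 * M).choose i : ℝ) * ((2 * M).choose (n - i) : ℝ) else 0) /
          4 ^ (2 * M) := by
      intro i
      rw [be_nat]
      split_ifs with hi
      · have h4 : s - ((i : ℤ) - M) = ((n - i : ℕ) : ℤ) - M := by
          push_cast at hn
          omega
        rw [h4, be_nat, two_mul M, pow_add, div_mul_div_comm]
      · rw [be_lt (M := M) (k := s - ((i : ℤ) - M)) (by push_cast at hn; omega)]
        simp
    rw [h1, sum_congr rfl fun i _ => h3 i, ← sum_div]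
    congr 1
    have h5 : ∑ i ∈ range (2 * M + 1), (if i ≤ n then
          ((2 * M).choose i : ℝ) * ((2 * M).choose (n - i) : ℝ) else 0) =
        ∑ i ∈ range (2 * M + 1 + (n + 1)), (if i ≤ n then
          ((2 * M).choose i : ℝ) * ((2 * M).choose (n - i) : ℝ) else 0) := by
      refine sum_subset (fun i hi => ?_) fun i _ hi => ?_
      · rw [mem_range] at hi ⊢
        omega
      · rw [mem_range, not_lt] at hi
        rw [Nat.choose_eq_zero_of_lt (n := 2 * M) (k := i) (by omega)]
        simp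
    have h6 : ∑ i ∈ range (n + 1),
          ((2 * M).choose i : ℝ) * ((2 * M).choose (n - i) : ℝ) =
        ∑ i ∈ range (2 * M + 1 + (n + 1)), (if i ≤ n then
          ((2 * M).choose i : ℝ) * ((2 * M).choose (n - i) : ℝ) else 0) := by
      have h7 : ∑ i ∈ range (n + 1),
          ((2 * M).choose i : ℝ) * ((2 * M).choose (n - i) : ℝ) =
          ∑ i ∈ range (n + 1), (if i ≤ n then
          ((2 * M).choose i : ℝ) * ((2 * M).choose (n - i) : ℝ) else 0) := by
        refine sum_congr rfl fun i hi => ?_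
        rw [mem_range] at hi
        rw [if_pos (by omega)]
      rw [h7]
      refine sum_subset (fun i hi => ?_) fun i _ hi => ?_
      · rw [mem_range] at hi ⊢
        omega
      · rw [mem_range, not_lt] at hi
        rw [if_neg (by omega)]
    rw [h5, h6]

end BN1

open BN1 in
theorem t_BN1 : StmtBn1 := by
  intro M
  refine ⟨be_nonneg M, be_neg M, fun k hk => be_abs hk, fun k l h => be_mono M h, sum_be M,
    sum_sq M, upper M, fun hM => ?_, vander M⟩
  obtain ⟨N, rfl⟩ : ∃ N, M = N + 1 := ⟨M - 1, by omega⟩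
  have := lower N
  push_cast
  exact this

end PKM
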