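import Pool.Agent.PKM.St2a

/-!
# Module BN2: a lower bound for the binomial weights in the bulk
-/

set_option autoImplicit false

namespace PKM

namespace BN2

theorem be_nat (M n : ℕ) : be (2 * M) (n : ℤ) = ((4 * M).choose (n + 2 * M) : ℝ) / 4 ^ (2 * M) := by
  unfold be
  rw [if_pos (by push_cast; omega)]
  have e1 : ((n : ℤ) + ((2 * M : ℕ) : ℤ)).toNat = n + 2 * M := by omega
  have e2 : 2 * (2 * M) = 4 * M := by ring
  rw [e1, e2]

theorem be_succ (M n : ℕ) (hn : n ≤ 2 * M) :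
    be (2 * M) ((n + 1 : ℕ) : ℤ) * (2 * M + n + 1) = be (2 * M) (n : ℤ) * (2 * M - n) := by
  rw [be_nat, be_nat]
  have h := Nat.choose_succ_right_eq (4 * M) (n + 2 * M)
  have e1 : 4 * M - (n + 2 * M) = 2 * M - n := by omega
  rw [e1] at h
  have e2 : n + 2 * M + 1 = n + 1 + 2 * M := by ring
  rw [e2] at h
  have h' : ((4 * M).choose (n + 1 + 2 * M) : ℝ) * ((n : ℝ) + 1 + 2 * M) =
      ((4 * M).choose (n + 2 * M) : ℝ) * (2 * M - n) := by
    have := congrArg (Nat.cast : ℕ → ℝ) h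
    rw [Nat.cast_mul, Nat.cast_mul, Nat.cast_sub hn] at this
    push_cast at this
    exact this
  have h4 : (4 : ℝ) ^ (2 * M) ≠ 0 := by positivity
  field_simp
  linarith

theorem one_sub_ge {x : ℝ} (h0 : 0 ≤ x) (h1 : x ≤ 1 / 2) : Real.exp (-(2 * x)) ≤ 1 - x := by
  have h2 := Real.quadratic_le_exp_of_nonneg (x := 2 * x) (by linarith)
  rw [Real.exp_neg, inv_le_iff_one_le_mul₀ (Real.exp_pos _)]
  have h3 : 1 ≤ (1 - x) * (1 + 2 * x + (2 * x) ^ 2 / 2) := by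
    have : (1 - x) * (1 + 2 * x + (2 * x) ^ 2 / 2) = 1 + x * (1 - 2 * x ^ 2) := by ring
    rw [this]
    have h4 : x ^ 2 ≤ (1 / 2) ^ 2 := pow_le_pow_left₀ h0 h1 2
    nlinarith
  exact h3.trans (mul_le_mul_of_nonneg_left h2 (by linarith))

theorem be_ge (h1 : StmtBn1) (M N : ℕ) (hM : 1 ≤ M) (hN : 2 * N ≤ M) (n : ℕ) (hn : n ≤ N) :
    be (2 * M) 0 * Real.exp (-(2 * ((N : ℝ) / M))) ^ n ≤ be (2 * M) (n : ℤ) := by
  have hM' : (0 : ℝ) < M := by exact_mod_cast hM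
  have hN' : 2 * (N : ℝ) ≤ M := by exact_mod_cast hN
  have hx : (N : ℝ) / M ≤ 1 / 2 := by
    rw [div_le_div_iff₀ hM' (by norm_num)]
    linarith
  have hx0 : (0 : ℝ) ≤ (N : ℝ) / M := by positivity
  have hexp := one_sub_ge hx0 hx
  induction n with
  | zero => simp
  | succ n ih =>
    have ih' := ih (by omega)
    have h2 := be_succ M n (by omega)
    have hnN : (n : ℝ) + 1 ≤ N := by exact_mod_cast hn
    have hn0 : (0 : ℝ) ≤ n := Nat.cast_nonneg n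
    have hb : 0 ≤ be (2 * M) (n : ℤ) := (h1 (2 * M)).1 _
    have h3 : be (2 * M) (n : ℤ) * (1 - (N : ℝ) / M) ≤ be (2 * M) ((n + 1 : ℕ) : ℤ) := by
      have hpos : (0 : ℝ) < 2 * M + n + 1 := by positivity
      have e : be (2 * M) ((n + 1 : ℕ) : ℤ) = be (2 * M) (n : ℤ) * ((2 * M - n) / (2 * M + n + 1)) := by
        rw [← mul_div_assoc, eq_div_iff hpos.ne']
        exact h2
      rw [e]
      apply mul_le_mul_of_nonneg_left _ hb
      rw [le_div_iff₀ hpos, sub_mul, div_mul_eq_mul_div, one_mul, sub_le_iff_le_add]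
      have h5 : (N : ℝ) * 2 ≤ N * (2 * M + n + 1) / M := by
        rw [le_div_iff₀ hM']
        have : (0 : ℝ) ≤ N := Nat.cast_nonneg N
        nlinarith
      linarith
    calc be (2 * M) 0 * Real.exp (-(2 * ((N : ℝ) / M))) ^ (n + 1)
        = (be (2 * M) 0 * Real.exp (-(2 * ((N : ℝ) / M))) ^ n) * Real.exp (-(2 * ((N : ℝ) / M))) := by
          ring
      _ ≤ be (2 * M) (n : ℤ) * Real.exp (-(2 * ((N : ℝ) / M))) :=
          mul_le_mul_of_nonneg_right ih' (Real.exp_pos _).le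
      _ ≤ be (2 * M) (n : ℤ) * (1 - (N : ℝ) / M) := mul_le_mul_of_nonneg_left hexp hb
      _ ≤ _ := h3

end BN2

open BN2 in
theorem t_BN2 (h1 : StmtBn1) : StmtBn2 := by
  intro A hA
  refine ⟨2 * Real.exp (2 * A), by positivity, ⌈4 * A⌉₊ + 1, ?_⟩
  intro M hM s hs
  have hM1 : 1 ≤ M := le_trans (Nat.le_add_left 1 _) hM
  have hM' : (0 : ℝ) < M := by exact_mod_cast hM1
  have hMA : 4 * A ≤ M := by
    have h2 : (⌈4 * A⌉₊ : ℝ) ≤ M := by exact_mod_cast (Nat.le_succ _).trans hM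
    exact (Nat.le_ceil _).trans h2
  -- reduction to a natural number
  obtain ⟨N, hNs, hNbe⟩ : ∃ N : ℕ, (N : ℝ) ^ 2 = (s : ℝ) ^ 2 ∧ be (2 * M) s = be (2 * M) (N : ℤ) := by
    refine ⟨s.natAbs, ?_, ?_⟩
    · rw [Nat.cast_natAbs, Int.cast_abs, sq_abs]
    · rcases Int.natAbs_eq s with h | h
      · rw [← h]
      · have h3 := (h1 (2 * M)).2.1 (s.natAbs : ℤ)
        rw [← h3, ← h]
  have hNA : (N : ℝ) ^ 2 ≤ A * M := hNs.trans_le hs
  have hN2 : 2 * (N : ℝ) ≤ M := by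
    have h3 : (2 * (N : ℝ)) ^ 2 ≤ (M : ℝ) ^ 2 := by nlinarith
    exact le_of_sq_le_sq h3 hM'.le
  have hN2' : 2 * N ≤ M := by exact_mod_cast hN2
  have hge := be_ge h1 M N hM1 hN2' N le_rfl
  have hexp : Real.exp (-(2 * A)) ≤ Real.exp (-(2 * ((N : ℝ) / M))) ^ N := by
    rw [← Real.exp_nat_mul]
    apply Real.exp_le_exp.2
    have h4 : (N : ℝ) * (N / M) ≤ A := by
      rw [← mul_div_assoc, div_le_iff₀ hM']
      nlinarith
    nlinarith
  have h2M : (0 : ℝ) ≤ be (2 * M) 0 := (h1 (2 * M)).1 0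
  have hlow : 1 ≤ 4 * ((2 * M : ℕ) : ℝ) * be (2 * M) 0 ^ 2 :=
    (h1 (2 * M)).2.2.2.2.2.2.2.1 (by omega)
  have hupp : (2 * (M : ℝ) + 1) * be M 0 ^ 2 ≤ 1 := (h1 M).2.2.2.2.2.2.1
  push_cast at hlow
  have hpos : 0 < be (2 * M) 0 := by
    rcases h2M.eq_or_lt with h | h
    · rw [← h] at hlow
      norm_num at hlow
    · exact h
  have hle : be M 0 ≤ 2 * be (2 * M) 0 := by
    apply le_of_sq_le_sq _ (by positivity)
    have h5 : 2 * (M : ℝ) * be M 0 ^ 2 ≤ 1 := by nlinarith [sq_nonneg (be M 0)]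
    have h6 : 2 * (M : ℝ) * be M 0 ^ 2 ≤ 2 * (M : ℝ) * (2 * be (2 * M) 0) ^ 2 := by
      refine h5.trans (hlow.trans (le_of_eq ?_))
      ring
    exact le_of_mul_le_mul_left h6 (by positivity)
  have hfin : be (2 * M) 0 * Real.exp (-(2 * A)) ≤ be (2 * M) s := by
    rw [hNbe]
    exact (mul_le_mul_of_nonneg_left hexp h2M).trans hge
  refine ⟨lt_of_lt_of_le (by positivity) hfin, ?_⟩
  calc be M 0 ≤ 2 * be (2 * M) 0 := hle
    _ = 2 * Real.exp (2 * A) * (be (2 * M) 0 * Real.exp (-(2 * A))) := by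
        rw [Real.exp_neg]
        field_simp
    _ ≤ 2 * Real.exp (2 * A) * be (2 * M) s := mul_le_mul_of_nonneg_left hfin (by positivity)

end PKM
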