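import Pool.Agent.PKM.St3

/-!
# PKM, module BTN (helper99): from boxes to weights
-/

open Complex MeasureTheory Filter Topology Set
open UpperHalfPlane hiding I
open scoped ContDiff MatrixGroups ProbabilityTheory ENNReal

namespace PKM

open QE QE.NC QJ U3 NFP BSL

noncomputable section

namespace BTN

lemma card_box (N : ℕ) : (PWV.box N).card = N ^ 2 := by
  unfold PWV.box
  rw [Finset.card_product, Finset.card_range]
  ring

lemma pwc_eq (f : ℂ → ℝ) (N : ℕ) (v : ℂ) :
    pwc (fun _ : Fin (PWV.box N).card => 1 / (N : ℝ) ^ 2)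
      (fun i => PWV.pt ((PWV.box N).equivFin.symm i))
      (fun i => f (PWV.pt ((PWV.box N).equivFin.symm i))) v = PWV.coef f N v := by
  unfold pwc PWV.coef
  rw [Finset.mul_sum, ← Finset.sum_coe_sort (PWV.box N)]
  rw [← Equiv.sum_comp (PWV.box N).equivFin.symm]
  refine Finset.sum_congr rfl fun i _ => ?_
  unfold PWV.ew
  push_cast
  ring

instance : Nonempty S1 := ⟨⟨1, by simp⟩⟩

lemma sw_le (f : ℂ → ℝ) (N : ℕ) :
    ENNReal.ofReal (sw (fun _ : Fin (PWV.box N).card => 1 / (N : ℝ) ^ 2)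
      (fun i => PWV.pt ((PWV.box N).equivFin.symm i))
      (fun i => f (PWV.pt ((PWV.box N).equivFin.symm i)))) ≤
    ⨆ v : ℂ, ENNReal.ofReal (‖PWV.coef f N v‖ ^ 2) := by
  by_cases hB : (⨆ v : ℂ, ENNReal.ofReal (‖PWV.coef f N v‖ ^ 2)) = ⊤
  · rw [hB]
    exact le_top
  · rw [ENNReal.ofReal_le_iff_le_toReal hB]
    unfold sw
    refine ciSup_le fun v => ?_
    rw [pwc_eq, ← ENNReal.ofReal_le_iff_le_toReal hB]
    exact le_iSup (fun v : ℂ => ENNReal.ofReal (‖PWV.coef f N v‖ ^ 2)) (v : ℂ)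

lemma sw_nonneg {r : ℕ} (w : Fin r → ℝ) (x : Fin r → ℂ) (s : Fin r → ℝ) : 0 ≤ sw w x s :=
  Real.iSup_nonneg fun _ => by positivity

end BTN

open BTN in
theorem t_BTN : StmtBtn := by
  intro D ρ φ m hB ε hε
  obtain ⟨N0, hN0⟩ := hB ε hε
  obtain ⟨N, hN, hN1⟩ : ∃ N, N0 ≤ N ∧ 1 ≤ N := ⟨max N0 1, le_max_left _ _, le_max_right _ _⟩
  have h := hN0 N hN
  have hNp : (N : ℝ) ^ 2 ≠ 0 := by
    have : (0 : ℝ) < N := by exact_mod_cast hN1
    positivity
  refine ⟨(PWV.box N).card, fun _ => 1 / (N : ℝ) ^ 2,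
    fun i => PWV.pt ((PWV.box N).equivFin.symm i), fun _ => by positivity, ?_, ?_⟩
  · rw [Finset.sum_const, Finset.card_univ, Fintype.card_fin, card_box, nsmul_eq_mul]
    push_cast
    field_simp
  · filter_upwards [h] with n hn
    by_cases hi : Integrable (fun p => sw (fun _ : Fin (PWV.box N).card => 1 / (N : ℝ) ^ 2)
        (fun i => PWV.pt ((PWV.box N).equivFin.symm i))
        (fun i => Berry.rWave ρ (φ n) (m n) (PWV.pt ((PWV.box N).equivFin.symm i)) p))
        (Berry.rFrameProb ρ D)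
    · rw [integral_eq_lintegral_of_nonneg_ae (Eventually.of_forall fun p => sw_nonneg _ _ _)
        hi.aestronglyMeasurable]
      refine ENNReal.toReal_le_of_le_ofReal hε.le ((lintegral_mono fun p => ?_).trans hn)
      exact sw_le (fun x => Berry.rWave ρ (φ n) (m n) x p) N
    · rw [integral_undef hi]
      exact hε.le

end

end PKM
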