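import Pool.Agent.PKM.St2a

/-!
# No plane waves: the local mean square tends to one in probability (module CHN of the project PKM)
-/

set_option autoImplicit false

open Complex MeasureTheory Filter Topology Set

namespace PKM

noncomputable section

namespace CHN

lemma xM_nonneg (h : StmtBn1) (M : ℕ) (a : ℤ → ℂ) : 0 ≤ xM M a :=
  Finset.sum_nonneg fun k _ => mul_nonneg ((h M).1 k) (sq_nonneg _)

lemma tM_nonneg (h : StmtBn1) (M r : ℕ) (a : ℤ → ℂ) : 0 ≤ tM M r a :=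
  Finset.sum_nonneg fun k _ => mul_nonneg ((h M).1 k) (sq_nonneg _)

/-- the supremum over the directions -/
def g (M : ℕ) (a : ℤ → ℂ) : ENNReal :=
  ⨆ (v : ℂ) (_ : ‖v‖ = 1), ENNReal.ofReal (‖wv M a v‖ ^ 2)

lemma g_lt (h : StmtBn1) (M : ℕ) (a : ℤ → ℂ) : g M a ≠ ⊤ := by
  have h1 : g M a ≤ ENNReal.ofReal ((∑ k ∈ IM M, be M k * ‖a k‖) ^ 2) := by
    refine iSup₂_le fun v hv => ENNReal.ofReal_le_ofReal ?_
    have h2 : ‖wv M a v‖ ≤ ∑ k ∈ IM M, be M k * ‖a k‖ := by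
      unfold wv
      refine (norm_sum_le _ _).trans (Finset.sum_le_sum fun k _ => ?_)
      rw [norm_mul, norm_mul, norm_zpow, hv, one_zpow, mul_one, Complex.norm_real,
        Real.norm_of_nonneg ((h M).1 k)]
    exact pow_le_pow_left₀ (norm_nonneg _) h2 2
  exact ne_top_of_le_ne_top ENNReal.ofReal_ne_top h1

lemma le_g (h : StmtBn1) (M : ℕ) (a : ℤ → ℂ) (v : ℂ) (hv : ‖v‖ = 1) :
    ‖wv M a v‖ ^ 2 ≤ (g M a).toReal := by
  have h1 : ENNReal.ofReal (‖wv M a v‖ ^ 2) ≤ g M a := by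
    unfold g
    exact le_iSup₂ (f := fun (v : ℂ) (_ : ‖v‖ = 1) => ENNReal.ofReal (‖wv M a v‖ ^ 2)) v hv
  exact (ENNReal.ofReal_le_iff_le_toReal (g_lt h M a)).1 h1

/-- Chebyshev's inequality for the binomial weights -/
lemma tail (h : StmtBn1) (M r : ℕ) :
    ∑ k ∈ (IM M).filter (fun k => (r : ℤ) < |k|), be M k ≤ ((M : ℝ) / 2) / ((r : ℝ) + 1) ^ 2 := by
  obtain ⟨h0, -, -, -, -, h2, -⟩ := h M
  rw [le_div_iff₀ (by positivity), ← h2, Finset.sum_mul]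
  refine (Finset.sum_le_sum (g := fun k : ℤ => (k : ℝ) ^ 2 * be M k) fun k hk => ?_).trans
    (Finset.sum_le_sum_of_subset_of_nonneg (Finset.filter_subset _ _) fun k _ _ =>
      mul_nonneg (sq_nonneg _) (h0 k))
  rw [mul_comm]
  refine mul_le_mul_of_nonneg_right ?_ (h0 k)
  have h3 : (r : ℤ) + 1 ≤ |k| := (Finset.mem_filter.1 hk).2
  have h4 : (r : ℝ) + 1 ≤ |(k : ℝ)| := by exact_mod_cast h3
  rw [← sq_abs (k : ℝ)]
  exact pow_le_pow_left₀ (by positivity) h4 2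

/-- the pointwise inequality -/
lemma point (hBn1 : StmtBn1) (hPwi : StmtPwi) (hPt1 : StmtPt1) (M r : ℕ) (a : ℤ → ℂ) (C K : ℝ)
    (hC : 0 ≤ C) (hK : 1 ≤ K) (hb : ∀ s ∈ Finset.Icc (-(2 * (r : ℤ))) (2 * r),
      0 < be (2 * M) s ∧ be M 0 ≤ C * be (2 * M) s) :
    0 ≤ nM M a ∧
    ENNReal.ofReal (min ((xM M a - 1) ^ 2) 1 + 2 * xM M a) ≤
      ENNReal.ofReal ((1 + 2 / K) * nM M a + ((2 * K + 4) * tM M r a + 1)) +
        ENNReal.ofReal (C * (K + 2)) * g M a := by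
  obtain ⟨h1, h2⟩ := hPwi M r a (g M a).toReal C hC hb (fun v hv => le_g hBn1 M a v hv)
  refine ⟨h1, ?_⟩
  have hx := xM_nonneg hBn1 M a
  have ht := tM_nonneg hBn1 M r a
  have h3 := hPt1 (xM M a) (nM M a) (g M a).toReal (tM M r a) C K hx h1 ENNReal.toReal_nonneg ht hC
    hK h2
  have h4 : min ((xM M a - 1) ^ 2) 1 + 2 * xM M a ≤
      ((1 + 2 / K) * nM M a + ((2 * K + 4) * tM M r a + 1)) + C * (K + 2) * (g M a).toReal := by
    linarith
  refine (ENNReal.ofReal_le_ofReal h4).trans ?_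
  refine ENNReal.ofReal_add_le.trans ?_
  rw [ENNReal.ofReal_mul (p := C * (K + 2)) (by positivity), ENNReal.ofReal_toReal (g_lt hBn1 M a)]

/-- the inequality for the means -/
lemma mean (hBn1 : StmtBn1) (hPwi : StmtPwi) (hPt1 : StmtPt1) {X : Type} [MeasurableSpace X]
    (ν : Measure X) [IsProbabilityMeasure ν] (a : X → ℤ → ℂ) (M r : ℕ) (C K ε : ℝ)
    (hC : 0 ≤ C) (hK : 1 ≤ K) (hε : 0 ≤ ε) (hb : ∀ s ∈ Finset.Icc (-(2 * (r : ℤ))) (2 * r),
      0 < be (2 * M) s ∧ be M 0 ≤ C * be (2 * M) s)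
    (ix : Integrable (fun x => xM M (a x)) ν) (it : Integrable (fun x => tM M r (a x)) ν)
    (iN : Integrable (fun x => nM M (a x)) ν) (mx : Measurable (fun x => xM M (a x)))
    (mt : Measurable (fun x => tM M r (a x))) (mN : Measurable (fun x => nM M (a x)))
    (hg : ∫⁻ x, g M (a x) ∂ν ≤ ENNReal.ofReal ε) :
    ∫ x, min ((xM M (a x) - 1) ^ 2) 1 ∂ν ≤
      (1 + 2 / K) * ∫ x, nM M (a x) ∂ν + (2 * K + 4) * ∫ x, tM M r (a x) ∂ν + 1 +
        C * (K + 2) * ε - 2 * ∫ x, xM M (a x) ∂ν := by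
  have hp := fun x => point hBn1 hPwi hPt1 M r (a x) C K hC hK hb
  have hK0 : 0 < K := by linarith
  have imin : Integrable (fun x => min ((xM M (a x) - 1) ^ 2) 1) ν := by
    refine Integrable.mono' (integrable_const (1 : ℝ)) ?_ ?_
    · exact (((mx.sub_const 1).pow_const 2).min measurable_const).aestronglyMeasurable
    · refine Eventually.of_forall fun x => ?_
      rw [Real.norm_of_nonneg (le_min (sq_nonneg _) zero_le_one)]
      exact min_le_right _ _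
  have i1 : Integrable (fun x => min ((xM M (a x) - 1) ^ 2) 1 + 2 * xM M (a x)) ν :=
    imin.add (ix.const_mul 2)
  have i3 : Integrable (fun x => (2 * K + 4) * tM M r (a x) + 1) ν :=
    (it.const_mul _).add (integrable_const 1)
  have i2 : Integrable (fun x => (1 + 2 / K) * nM M (a x) + ((2 * K + 4) * tM M r (a x) + 1)) ν :=
    (iN.const_mul _).add i3
  have n1 : ∀ x, 0 ≤ min ((xM M (a x) - 1) ^ 2) 1 + 2 * xM M (a x) := fun x =>
    add_nonneg (le_min (sq_nonneg _) zero_le_one) (mul_nonneg two_pos.le (xM_nonneg hBn1 M _))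
  have n2 : ∀ x, 0 ≤ (1 + 2 / K) * nM M (a x) + ((2 * K + 4) * tM M r (a x) + 1) := fun x => by
    have h1 := (hp x).1
    have h2 := tM_nonneg hBn1 M r (a x)
    positivity
  have m2 : Measurable (fun x => ENNReal.ofReal
      ((1 + 2 / K) * nM M (a x) + ((2 * K + 4) * tM M r (a x) + 1))) :=
    ((mN.const_mul _).add ((mt.const_mul _).add_const 1)).ennreal_ofReal
  have h1 : ∫⁻ x, ENNReal.ofReal (min ((xM M (a x) - 1) ^ 2) 1 + 2 * xM M (a x)) ∂ν ≤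
      ∫⁻ x, ENNReal.ofReal ((1 + 2 / K) * nM M (a x) + ((2 * K + 4) * tM M r (a x) + 1)) ∂ν +
        ENNReal.ofReal (C * (K + 2)) * ENNReal.ofReal ε := by
    refine (lintegral_mono fun x => (hp x).2).trans ?_
    rw [lintegral_add_left m2, lintegral_const_mul' _ _ ENNReal.ofReal_ne_top]
    gcongr
  rw [← ofReal_integral_eq_lintegral_ofReal i1 (Eventually.of_forall n1),
    ← ofReal_integral_eq_lintegral_ofReal i2 (Eventually.of_forall n2),
    ← ENNReal.ofReal_mul (by positivity),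
    ← ENNReal.ofReal_add (integral_nonneg n2) (by positivity)] at h1
  have hn : 0 ≤ ∫ x, ((1 + 2 / K) * nM M (a x) + ((2 * K + 4) * tM M r (a x) + 1)) ∂ν :=
    integral_nonneg fun x => n2 x
  have h2 := (ENNReal.ofReal_le_ofReal_iff (by positivity)).1 h1
  rw [integral_add imin (ix.const_mul 2), integral_const_mul, integral_add (iN.const_mul _) i3,
    integral_add (it.const_mul _) (integrable_const 1), integral_const_mul, integral_const_mul] at h2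
  simp only [integral_const, probReal_univ, smul_eq_mul, mul_one] at h2
  linarith

end CHN

open CHN in
/-- **CHN**: no plane waves: the local mean square tends to one in probability. -/
theorem t_CHN (hBn1 : StmtBn1) (hBn2 : StmtBn2) (hWzr : StmtWzr) (hPwi : StmtPwi) (hPt1 : StmtPt1)
    (hLm1 : StmtLm1) (hLm2 : StmtLm2) : StmtChn := by
  intro X _ ν a v hJ hN η hη
  have := hJ.prob
  obtain ⟨K, hKdef⟩ : ∃ K : ℝ, K = 1 + 32 / η := ⟨_, rfl⟩
  have hK1 : 1 ≤ K := by rw [hKdef]; have : 0 < 32 / η := by positivity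
                         linarith
  have hK0 : 0 < K := by linarith
  have hK2 : 2 / K ≤ η / 16 := by
    rw [div_le_div_iff₀ hK0 (by norm_num)]
    have : η * K = η + 32 := by rw [hKdef]; field_simp
    linarith
  have hK3 : 2 / K ≤ 2 := by
    rw [div_le_iff₀ hK0]
    linarith
  obtain ⟨A, hAdef⟩ : ∃ A : ℝ, A = 16 * (2 * K + 4) / η + 1 := ⟨_, rfl⟩
  have hA0 : 0 < A := by rw [hAdef]; positivity
  have hA1 : (2 * K + 4) * (2 / A) ≤ η / 8 := by
    rw [mul_div_assoc', div_le_div_iff₀ hA0 (by norm_num)]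
    have : η * A = 16 * (2 * K + 4) + η := by rw [hAdef]; field_simp
    linarith
  obtain ⟨C, hC, M₀, hM₀⟩ := hBn2 A hA0
  obtain ⟨ε₂, hε₂def⟩ : ∃ ε₂ : ℝ, ε₂ = η / (8 * (C * (K + 2))) := ⟨_, rfl⟩
  have hε₂ : 0 < ε₂ := by rw [hε₂def]; positivity
  have hε₂' : C * (K + 2) * ε₂ = η / 8 := by
    rw [hε₂def]
    field_simp
  have hw := hWzr v hJ.nonneg hJ.le_one hJ.ces
  have hw1 : ∀ᶠ M : ℕ in atTop, wz v M ≤ η / 24 :=
    (hw.eventually (gt_mem_nhds (show (0 : ℝ) < η / 24 by positivity))).mono fun _ h => h.le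
  have hev : ∀ᶠ M : ℕ in atTop, wz v M ≤ η / 24 ∧ M₀ ≤ M ∧ 1 ≤ M :=
    hw1.and ((eventually_ge_atTop M₀).and (eventually_ge_atTop 1))
  refine ((hN ε₂ hε₂).and_eventually hev).mono ?_
  rintro M ⟨hM, hwM, hMM, hM1⟩
  have hMR : (1 : ℝ) ≤ M := by exact_mod_cast hM1
  -- the cutoff
  obtain ⟨r, hr⟩ : ∃ r : ℕ, r = ⌊Real.sqrt (A * M) / 2⌋₊ := ⟨_, rfl⟩
  have hr1 : ((2 * r : ℝ)) ^ 2 ≤ A * M := by
    have h1 : (r : ℝ) ≤ Real.sqrt (A * M) / 2 := by
      rw [hr]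
      exact Nat.floor_le (by positivity)
    have h2 : 2 * (r : ℝ) ≤ Real.sqrt (A * M) := by linarith
    calc (2 * (r : ℝ)) ^ 2 ≤ Real.sqrt (A * M) ^ 2 := pow_le_pow_left₀ (by positivity) h2 2
      _ = A * M := Real.sq_sqrt (by positivity)
  have hr2 : A * M ≤ 4 * ((r : ℝ) + 1) ^ 2 := by
    have h1 : Real.sqrt (A * M) / 2 < r + 1 := by
      rw [hr]
      exact Nat.lt_floor_add_one _
    have h2 : Real.sqrt (A * M) ≤ 2 * ((r : ℝ) + 1) := by linarith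
    calc A * M = Real.sqrt (A * M) ^ 2 := (Real.sq_sqrt (by positivity)).symm
      _ ≤ (2 * ((r : ℝ) + 1)) ^ 2 := pow_le_pow_left₀ (Real.sqrt_nonneg _) h2 2
      _ = _ := by ring
  have hb : ∀ s ∈ Finset.Icc (-(2 * (r : ℤ))) (2 * r),
      0 < be (2 * M) s ∧ be M 0 ≤ C * be (2 * M) s := by
    intro s hs
    refine hM₀ M hMM s (le_trans ?_ hr1)
    rw [Finset.mem_Icc] at hs
    have h1 : |s| ≤ |(2 * (r : ℤ))| := by
      rw [abs_of_nonneg (show (0 : ℤ) ≤ 2 * (r : ℤ) by positivity)]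
      exact abs_le.2 hs
    have h2 := sq_le_sq.2 h1
    exact_mod_cast h2
  have htail : ∑ k ∈ (IM M).filter (fun k => (r : ℤ) < |k|), be M k ≤ 2 / A := by
    refine (tail hBn1 M r).trans ?_
    rw [div_div, div_le_div_iff₀ (by positivity) hA0]
    linarith
  obtain ⟨ε₁, hε₁def⟩ : ∃ ε₁ : ℝ, ε₁ = η / (8 * (2 * K + 9)) := ⟨_, rfl⟩
  have hε₁ : 0 < ε₁ := by rw [hε₁def]; positivity
  have hε₁' : ε₁ * (2 * K + 9) = η / 8 := by
    rw [hε₁def]
    field_simp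
  obtain ⟨hI, hX, hT, -⟩ := hLm1 X ν a v hJ M r
  have hX1 : ∀ᶠ n in atTop, 1 - ε₁ ≤ ∫ x, xM M (a n x) ∂ν :=
    (hX.eventually (lt_mem_nhds (show 1 - ε₁ < 1 by linarith))).mono fun _ h => h.le
  have hT1 : ∀ᶠ n in atTop, ∫ x, tM M r (a n x) ∂ν ≤
      ∑ k ∈ (IM M).filter (fun k => (r : ℤ) < |k|), be M k + ε₁ :=
    (hT.eventually (gt_mem_nhds (lt_add_of_pos_right _ hε₁))).mono fun _ h => h.le
  filter_upwards [hM, hX1, hT1, hLm2 X ν a v hJ M ε₁ hε₁] with n h1 h2 h3 h4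
  obtain ⟨ix, it, iN, -, -, mx, mt, mN⟩ := hI n
  have h5 := mean hBn1 hPwi hPt1 ν (a n) M r C K ε₂ hC.le hK1 hε₂.le hb ix it iN mx mt mN h1
  refine h5.trans ?_
  have hKn : 0 ≤ 2 / K := by positivity
  have e1 : (1 + 2 / K) * ∫ x, nM M (a n x) ∂ν ≤ (1 + 2 / K) * (1 + wz v M + ε₁) :=
    mul_le_mul_of_nonneg_left h4 (by linarith)
  have e2 : (2 * K + 4) * ∫ x, tM M r (a n x) ∂ν ≤ (2 * K + 4) * (2 / A + ε₁) :=
    mul_le_mul_of_nonneg_left (h3.trans (by linarith)) (by linarith)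
  have e3 : (1 + 2 / K) * (η / 24 + ε₁) ≤ 3 * (η / 24 + ε₁) :=
    mul_le_mul_of_nonneg_right (by linarith) (by positivity)
  have e4 : (1 + 2 / K) * (1 + wz v M + ε₁) ≤ (1 + 2 / K) * (1 + (η / 24 + ε₁)) :=
    mul_le_mul_of_nonneg_left (by linarith) (by linarith)
  have e5 : (1 + 2 / K) * (1 + (η / 24 + ε₁)) = 1 + 2 / K + (1 + 2 / K) * (η / 24 + ε₁) := by ring
  have e6 : (2 * K + 4) * (2 / A + ε₁) = (2 * K + 4) * (2 / A) + (2 * K + 4) * ε₁ := by ring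
  have e7 : ε₁ * (2 * K + 9) = 2 * K * ε₁ + 9 * ε₁ := by ring
  have e8 : (2 * K + 4) * ε₁ = 2 * K * ε₁ + 4 * ε₁ := by ring
  linarith

end

end PKM
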