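import Pool.Agent.PKM.St2a

/-!
# PKM: no loss of mass, and the fourth moment is at most three (helper52)
-/

open Complex MeasureTheory Filter Topology Set

namespace PKM

namespace CMM

theorem xM_nonneg (hB : StmtBn1) (M : ℕ) (a : ℤ → ℂ) : 0 ≤ xM M a :=
  Finset.sum_nonneg fun k _ => mul_nonneg ((hB M).1 k) (sq_nonneg _)

theorem min_int {X : Type} [MeasurableSpace X] {ν : Measure X} [IsProbabilityMeasure ν]
    {f : X → ℝ} (hf : Measurable f) : Integrable (fun x => min ((f x - 1) ^ 2) 1) ν := by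
  refine (integrable_const (1 : ℝ)).mono'
    (((hf.sub_const 1).pow_const 2).min measurable_const).aestronglyMeasurable ?_
  refine Eventually.of_forall fun x => ?_
  rw [Real.norm_eq_abs, abs_of_nonneg (le_min (sq_nonneg _) zero_le_one)]
  exact min_le_right _ _

theorem sq_int {X : Type} [MeasurableSpace X] {ν : Measure X} [IsProbabilityMeasure ν]
    {D : X → ℝ} (hD : Integrable D ν) (hD2 : Integrable (fun x => D x ^ 2) ν) (c : ℝ) :
    Integrable (fun x => (c + D x) ^ 2) ν ∧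
      ∫ x, (c + D x) ^ 2 ∂ν = c ^ 2 + 2 * c * ∫ x, D x ∂ν + ∫ x, D x ^ 2 ∂ν := by
  have e : (fun x => (c + D x) ^ 2) = fun x => (c ^ 2 + 2 * c * D x) + D x ^ 2 := by
    funext x
    ring
  have h1 : Integrable (fun x => 2 * c * D x) ν := hD.const_mul _
  have h2 : Integrable (fun x => c ^ 2 + 2 * c * D x) ν := (integrable_const _).add h1
  refine ⟨by rw [e]; exact h2.add hD2, ?_⟩
  rw [e, integral_add h2 hD2, integral_add (integrable_const _) h1, integral_const_mul,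
    integral_const]
  simp

/-- first part, for one `M` and one `n` -/
theorem one {X : Type} [MeasurableSpace X] {ν : Measure X} [IsProbabilityMeasure ν]
    (hPt2 : StmtPt2) {f g : X → ℝ} (hf0 : ∀ x, 0 ≤ f x) (hfm : Measurable f)
    (hf : Integrable f ν) (hg : Integrable g ν)
    (hD2 : Integrable (fun x => (g x - f x) ^ 2) ν) {Λ δ : ℝ} (hΛ : 0 < Λ) (hδ : 0 < δ) :
    ∫ x, max (g x - Λ) 0 ∂ν ≤ (∫ x, f x ∂ν - 1) + 2 * δ +
      2 / δ * ∫ x, min ((f x - 1) ^ 2) 1 ∂ν +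
      (1 + 2 * ∫ x, (g x - f x) ∂ν + ∫ x, (g x - f x) ^ 2 ∂ν) / (4 * Λ) := by
  have hm := min_int (ν := ν) hfm
  have hDi : Integrable (fun x => g x - f x) ν := hg.sub hf
  have hs := sq_int (D := fun x => g x - f x) hDi hD2 1
  have i1 : Integrable (fun x => f x - 1) ν := hf.sub (integrable_const _)
  have i2 : Integrable (fun x => 2 / δ * min ((f x - 1) ^ 2) 1) ν := hm.const_mul _
  have i3 : Integrable (fun x => (1 + (g x - f x)) ^ 2 / (4 * Λ)) ν := hs.1.div_const _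
  have i12 : Integrable (fun x => (f x - 1) + 2 * δ) ν := i1.add (integrable_const _)
  have i123 : Integrable (fun x => (f x - 1) + 2 * δ + 2 / δ * min ((f x - 1) ^ 2) 1) ν :=
    i12.add i2
  have key : ∫ x, max (g x - Λ) 0 ∂ν ≤ ∫ x, ((f x - 1) + 2 * δ +
      2 / δ * min ((f x - 1) ^ 2) 1 + (1 + (g x - f x)) ^ 2 / (4 * Λ)) ∂ν := by
    refine integral_mono_of_nonneg (Eventually.of_forall fun x => le_max_right _ _)
      (i123.add i3) (Eventually.of_forall fun x => ?_)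
    have h1 := hPt2.2 (f x) (g x - f x) Λ δ (hf0 x) hΛ hδ
    have h2 : f x + (g x - f x) - Λ = g x - Λ := by ring
    rw [h2] at h1
    refine h1.trans (le_of_eq ?_)
    simp only
    ring
  refine key.trans (le_of_eq ?_)
  have e3 : ∫ x, 2 / δ * min ((f x - 1) ^ 2) 1 ∂ν =
      2 / δ * ∫ x, min ((f x - 1) ^ 2) 1 ∂ν := integral_const_mul _ _
  have e1 := hs.2
  rw [one_pow, mul_one] at e1
  rw [integral_add i123 i3, integral_add i12 i2, integral_add i1 (integrable_const _),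
    integral_sub hf (integrable_const _), integral_div, e3, e1]
  simp

/-- second part, for one `M` and one `n` -/
theorem two {X : Type} [MeasurableSpace X] {ν : Measure X} [IsProbabilityMeasure ν]
    (hPt2 : StmtPt2) {f g : X → ℝ} (hfm : Measurable f) (hg0 : ∀ x, 0 ≤ g x)
    (hf : Integrable f ν) (hg : Integrable g ν)
    (hD2 : Integrable (fun x => (g x - f x) ^ 2) ν) {L δ : ℝ} (hL : 0 ≤ L) (hδ : 0 < δ)
    (hδ1 : δ ≤ 1) :
    ∫ x, min (g x) L ^ 2 ∂ν ≤ (1 + δ) ^ 2 + 2 * (1 + δ) * ∫ x, (g x - f x) ∂ν +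
      ∫ x, (g x - f x) ^ 2 ∂ν + L ^ 2 / δ ^ 2 * ∫ x, min ((f x - 1) ^ 2) 1 ∂ν := by
  have hm := min_int (ν := ν) hfm
  have hDi : Integrable (fun x => g x - f x) ν := hg.sub hf
  have hs := sq_int (D := fun x => g x - f x) hDi hD2 (1 + δ)
  have i2 : Integrable (fun x => L ^ 2 / δ ^ 2 * min ((f x - 1) ^ 2) 1) ν := hm.const_mul _
  have key : ∫ x, min (g x) L ^ 2 ∂ν ≤ ∫ x, ((1 + δ + (g x - f x)) ^ 2 +
      L ^ 2 / δ ^ 2 * min ((f x - 1) ^ 2) 1) ∂ν := by
    refine integral_mono_of_nonneg (Eventually.of_forall fun x => sq_nonneg _)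
      (hs.1.add i2) (Eventually.of_forall fun x => ?_)
    have h2 : f x + (g x - f x) = g x := by ring
    have h1 := hPt2.1 (f x) (g x - f x) L δ (by rw [h2]; exact hg0 x) hL hδ hδ1
    rw [h2] at h1
    exact h1
  refine key.trans (le_of_eq ?_)
  have e3 : ∫ x, L ^ 2 / δ ^ 2 * min ((f x - 1) ^ 2) 1 ∂ν =
      L ^ 2 / δ ^ 2 * ∫ x, min ((f x - 1) ^ 2) 1 ∂ν := integral_const_mul _ _
  rw [integral_add hs.1 i2, e3, hs.2]

end CMM

open CMM in
theorem t_CMM (hBn1 : StmtBn1) (hWzr : StmtWzr) (hPt2 : StmtPt2) (hLm1 : StmtLm1)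
    (hLm3 : StmtLm3) : StmtCmm := by
  intro X _ ν a v h hmin
  have := h.prob
  have hw := hWzr v h.nonneg h.le_one h.ces
  constructor
  · intro ε hε
    refine ⟨6 / ε, by positivity, ?_⟩
    have hη : 0 < ε * (ε / 16) / 8 := by positivity
    obtain ⟨M, hM1, hM2⟩ := ((hmin _ hη).and_eventually
      (hw.eventually (eventually_le_nhds (zero_lt_one)))).exists
    obtain ⟨hI, hl1, -, hl3⟩ := hLm1 X ν a v h M 0
    filter_upwards [hM1, hl1.eventually (eventually_le_nhds (show (1 : ℝ) < 1 + ε / 8 by linarith)),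
      hl3.eventually (eventually_le_nhds (show (0 : ℝ) < 1 / 4 by norm_num)),
      hLm3 X ν a v h M (1 / 2) (by norm_num)] with n h1 h2 h3 h4
    obtain ⟨j1, -, -, j4, j5, j6, -, -⟩ := hI n
    have h5 := one (ν := ν) hPt2 (f := fun x => xM M (a n x)) (g := fun x => ‖a n x 0‖ ^ 2)
      (fun x => xM_nonneg hBn1 M _) j6 j1 j4 j5 (Λ := 6 / ε) (δ := ε / 16)
      (by positivity) (by positivity)
    refine h5.trans ?_
    have h6 : 2 / (ε / 16) * ∫ x, min ((xM M (a n x) - 1) ^ 2) 1 ∂ν ≤ ε / 4 := by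
      calc 2 / (ε / 16) * ∫ x, min ((xM M (a n x) - 1) ^ 2) 1 ∂ν
          ≤ 2 / (ε / 16) * (ε * (ε / 16) / 8) :=
            mul_le_mul_of_nonneg_left h1 (by positivity)
        _ = ε / 4 := by field_simp; norm_num
    have h7 : (1 + 2 * ∫ x, (‖a n x 0‖ ^ 2 - xM M (a n x)) ∂ν +
        ∫ x, (‖a n x 0‖ ^ 2 - xM M (a n x)) ^ 2 ∂ν) / (4 * (6 / ε)) ≤ ε / 4 := by
      calc (1 + 2 * ∫ x, (‖a n x 0‖ ^ 2 - xM M (a n x)) ∂ν +
          ∫ x, (‖a n x 0‖ ^ 2 - xM M (a n x)) ^ 2 ∂ν) / (4 * (6 / ε))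
          ≤ 6 / (4 * (6 / ε)) := by
            apply div_le_div_of_nonneg_right _ (by positivity)
            linarith
        _ = ε / 4 := by field_simp
    linarith
  · intro L hL ε hε
    set δ : ℝ := min 1 (ε / 12) with hδdef
    have hδ0 : 0 < δ := lt_min one_pos (by positivity)
    have hδ1 : δ ≤ 1 := min_le_left _ _
    have hδ2 : δ ≤ ε / 12 := min_le_right _ _
    have hη : 0 < ε / 8 * (δ ^ 2 / (L ^ 2 + 1)) := by positivity
    obtain ⟨M, hM1, hM2⟩ := ((hmin _ hη).and_eventually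
      (hw.eventually (eventually_le_nhds (show (0 : ℝ) < ε / 16 by positivity)))).exists
    obtain ⟨hI, hl1, -, hl3⟩ := hLm1 X ν a v h M 0
    filter_upwards [hM1, hl3.eventually (eventually_le_nhds (show (0 : ℝ) < ε / 32 by positivity)),
      hLm3 X ν a v h M (ε / 8) (by positivity)] with n h1 h3 h4
    obtain ⟨j1, -, -, j4, j5, j6, -, -⟩ := hI n
    have h5 := two (ν := ν) hPt2 (f := fun x => xM M (a n x)) (g := fun x => ‖a n x 0‖ ^ 2)
      j6 (fun x => sq_nonneg _) j1 j4 j5 hL hδ0 hδ1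
    refine h5.trans ?_
    have h6 : L ^ 2 / δ ^ 2 * ∫ x, min ((xM M (a n x) - 1) ^ 2) 1 ∂ν ≤ ε / 8 := by
      calc L ^ 2 / δ ^ 2 * ∫ x, min ((xM M (a n x) - 1) ^ 2) 1 ∂ν
          ≤ L ^ 2 / δ ^ 2 * (ε / 8 * (δ ^ 2 / (L ^ 2 + 1))) :=
            mul_le_mul_of_nonneg_left h1 (by positivity)
        _ = ε / 8 * (L ^ 2 / (L ^ 2 + 1)) := by
          have : δ ^ 2 ≠ 0 := by positivity
          field_simp
        _ ≤ ε / 8 * 1 := by
          apply mul_le_mul_of_nonneg_left _ (by positivity)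
          rw [div_le_one (by positivity)]
          linarith
        _ = ε / 8 := mul_one _
    have h7 : 2 * (1 + δ) * ∫ x, (‖a n x 0‖ ^ 2 - xM M (a n x)) ∂ν ≤ ε / 8 := by
      calc 2 * (1 + δ) * ∫ x, (‖a n x 0‖ ^ 2 - xM M (a n x)) ∂ν
          ≤ 2 * (1 + δ) * (ε / 32) := mul_le_mul_of_nonneg_left h3 (by positivity)
        _ ≤ 2 * (1 + 1) * (ε / 32) := by gcongr
        _ = ε / 8 := by ring
    have h8 : (1 + δ) ^ 2 ≤ 1 + ε / 4 := by nlinarith
    linarith

end PKM
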