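import Pool.Agent.PKM.St1
import Pool.Agent.PWV.St0

/-!
# Plane waves in `L²` (MP_4fa179_mp, part (c)): definitions and statements

Notation as in `PKM/St1.lean`. **No bound for fourth moments and no conservation of mass is assumed.**
`PWV.ip v x` is the scalar product of `v` and `x`.
-/

open Complex MeasureTheory Filter Topology Set
open UpperHalfPlane hiding I
open scoped ContDiff MatrixGroups ProbabilityTheory ENNReal

namespace PKM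

open QE QE.NC QJ U3 NFP BSL

noncomputable section

/-! ### Definitions -/

/-- the coefficient `∑ w_i s_i e^{-i v · x_i}` of the plane wave `e^{i v · x}`, for the values `s_i` at the
points `x_i` -/
def pwc {r : ℕ} (w : Fin r → ℝ) (x : Fin r → ℂ) (s : Fin r → ℝ) (v : ℂ) : ℂ :=
  ∑ i, ((w i * s i : ℝ) : ℂ) * Complex.exp (-(Complex.I * (PWV.ip v (x i) : ℂ)))

/-- the largest of the energies of these plane waves, over the directions `v` -/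
def sw {r : ℕ} (w : Fin r → ℝ) (x : Fin r → ℂ) (s : Fin r → ℝ) : ℝ :=
  ⨆ v : S1, ‖pwc w x s (v : ℂ)‖ ^ 2

/-- **no plane waves in `L²`**: for suitable finite probability weights `w` on points `x` the expected
largest energy `E sup_{|v| = 1} |∑ w_x Fₙ(x) e^{-i v · x}|²` is arbitrarily small for large `n` -/
def NoW (ρ : ℍ → ℝ) (D : Set ℍ) (φ : ℕ → ℍ → ℝ) (m : ℕ → ℝ) : Prop :=
  ∀ ε > 0, ∃ (r : ℕ) (w : Fin r → ℝ) (x : Fin r → ℂ), (∀ i, 0 ≤ w i) ∧ ∑ i, w i = 1 ∧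
    ∀ᶠ n in atTop, ∫ p, sw w x (fun i => Berry.rWave ρ (φ n) (m n) (x i) p)
      ∂(Berry.rFrameProb ρ D) ≤ ε

/-- **no plane waves in `L²`, boxes**: `E sup_v |A_N(v)|² → 0` for `n → ∞` and then `N → ∞`, where `A_N(v)` is
the mean of `Fₙ(x) e^{-i v · x}` over the box of side `N` (`PWV.coef`) and `v` is any vector -/
def BoxW (ρ : ℍ → ℝ) (D : Set ℍ) (φ : ℕ → ℍ → ℝ) (m : ℕ → ℝ) : Prop :=
  ∀ ε > 0, ∃ N₀ : ℕ, ∀ N ≥ N₀, ∀ᶠ n in atTop,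
    ∫⁻ p, ⨆ v : ℂ, ENNReal.ofReal
      (‖PWV.coef (fun x => Berry.rWave ρ (φ n) (m n) x p) N v‖ ^ 2) ∂(Berry.rFrameProb ρ D)
      ≤ ENNReal.ofReal ε

/-! ### The functions `sw` -/

/-- SWC: elementary properties of `sw`.
Proof. The family over `v : S1` is bounded by `(∑ |w_i s_i|)²` (`‖exp (-(I * real))‖ = 1`), so `⨆` is the
supremum (`le_ciSup`, `ciSup_le`; `S1` is not empty). (1) clear. (2) Jensen:
`‖∑ w_i s_i e_i‖² ≤ (∑ w_i |s_i|)² ≤ ∑ w_i s_i²` (`inner_mul_le_norm_mul_norm` or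
`inv_sum…`/`Finset.sum_div…`; e.g. `(∑ w_i |s_i|)² ≤ (∑ w_i) (∑ w_i s_i²)` by Cauchy-Schwarz with `√w_i`).
(3) `|‖a‖² - ‖b‖²| ≤ (‖a‖ + ‖b‖) ‖a - b‖`, `‖pwc w x s v‖ ≤ ∑ |s_i|` as `0 ≤ w_i ≤ 1`; then take suprema.
(4) `‖pwc w x (s + t) v‖² ≤ 2 ‖pwc w x s v‖² + 2 ‖pwc w x t v‖²`. (5) from (3). -/
def StmtSwc : Prop :=
  ∀ (r : ℕ) (w : Fin r → ℝ) (x : Fin r → ℂ), (∀ i, 0 ≤ w i) → ∑ i, w i = 1 →
    (∀ s : Fin r → ℝ, 0 ≤ sw w x s ∧ (∀ v : S1, ‖pwc w x s (v : ℂ)‖ ^ 2 ≤ sw w x s)) ∧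
    (∀ s : Fin r → ℝ, sw w x s ≤ ∑ i, w i * s i ^ 2) ∧
    (∀ s t : Fin r → ℝ, |sw w x s - sw w x t|
      ≤ (∑ i, |s i| + ∑ i, |t i|) * ∑ i, |s i - t i|) ∧
    (∀ s t : Fin r → ℝ, sw w x (fun i => s i + t i) ≤ 2 * sw w x s + 2 * sw w x t) ∧
    Continuous (sw w x)

/-- BTN: from boxes to weights.
Proof. Let `ε > 0`, `N = max N₀ 1` from `BoxW`. `box N` as a family over `Fin (N ^ 2)` (`Finset.equivFin`,
`card_box`), `w i = 1 / N ^ 2`, `x i = pt (q i)`; `pwc w x s v = coef f N v` if `s i = f (x i)` (compare the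
end of `PWV/FIN.lean`, `hull_of_cor`). `sw ≤ ⨆ v : ℂ, ‖coef‖²`: pointwise
`ENNReal.ofReal (sw …) ≤ ⨆ v : ℂ, ENNReal.ofReal (‖coef … v‖ ^ 2)` (every `v : S1` is a complex number; `sw` is
the least upper bound), and `∫ g ∂μ ≤ (∫⁻ ENNReal.ofReal g ∂μ).toReal`
(`integral_eq_lintegral_of_nonneg_ae`, or `∫ g = 0` if `g` is not integrable). -/
def StmtBtn : Prop :=
  ∀ (D : Set ℍ) (ρ : ℍ → ℝ) (φ : ℕ → ℍ → ℝ) (m : ℕ → ℝ), BoxW ρ D φ m → NoW ρ D φ m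

/-! ### Stationarity of `Fₙ` in `L²` -/

/-- STN: the laws of `(Fₙ(x_i + y))_i` and of `(Fₙ(x_i))_i` are asymptotically equal, for test functions of
quadratic growth.
Proof. As `PKM/STA.lean` (`STA.TR`, `STA.vals`, `STA.plane`, `STA.md`), with a quadratic `G`. Let `ζ` be a
`CutF`. `Eₙ G(Fₙ(x + y)) = ∫ ζ(z) ∫ G((Fₙ(x_i + y)(z, t))_i) ∂ang dz` and
`Fₙ(x_i + y)(z, t) = Re φ'(dp z (uu t ^ 2 * (x_i + y))) + O(ε √Mn)`. For fixed `t` translate by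
`v = uu t ^ 2 * y`, `z' = dp z v = z + h e^{-σ(z)} v`: `dp z (uu t ^ 2 * (x_i + y))` differs from
`dp z' (uu t ^ 2 * x_i)` by `h |e^{-σ(z)} - e^{-σ(z')}| |x_i| = O(h²)`, so the values of `φ'` differ by
`O(ε √Mn)`. Errors: `|G(s) - G(t)| ≤ C (|s| + |t|) |s - t|` and `|values| ≤ C √Mn`, so the total error is
`C ε ∫_K Mn ≤ C' ε`. Translation of the integral over `z`: as in STA (`ζ(z') - ζ(z) = O(h)`, Jacobian
`1 + O(h)`, `∫_{K'} |G| ≤ C ∫_{K'} (1 + Mn)`). `G(0)` need not be zero, but `Eₙ` is a probability. -/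
def StmtStn : Prop :=
  ∀ (Γ : Subgroup SL(2, ℝ)) [Countable Γ] (D : Set ℍ) (ρ : ℍ → ℝ) (φ : ℕ → ℍ → ℝ) (m : ℕ → ℝ),
    Sur Γ D ρ φ m → ∀ (r : ℕ) (x : Fin r → ℂ) (y : ℂ) (G : (Fin r → ℝ) → ℝ) (C : ℝ),
    (∀ s t : Fin r → ℝ, |G s - G t| ≤ C * ((∑ i, |s i| + ∑ i, |t i|) * ∑ i, |s i - t i|)) →
    Tendsto (fun n => ∫ p, G (fun i => Berry.rWave ρ (φ n) (m n) (x i + y) p)
        ∂(Berry.rFrameProb ρ D)
      - ∫ p, G (fun i => Berry.rWave ρ (φ n) (m n) (x i) p) ∂(Berry.rFrameProb ρ D)) atTop (𝓝 0)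

/-! ### The converse -/

/-- CNV: if no mass is lost and there are no plane waves in the limit field, there are no plane waves in
`Fₙ`.
Proof. Let `N ≥ 1` be fixed, `G(s) = sup_v |N⁻² ∑_q s_q e^{-i v · q}|²`, `s : Fin (N²) → ℝ`; it is continuous,
`0 ≤ G(s) ≤ N⁻² ∑ s_q²`. For `L > 0`: `G ≤ min G L + (G - L)₊` and `(G - L)₊ ≤ N⁻² ∑_q (s_q² - L)₊`
(`t ↦ (t - L)₊` is monotone and convex). `Eₙ min(G, L) → E min(G(F), L) ≤ E G(F) ≤ (E G(F)²)^{1/2}`, which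
is small for large `N`, uniformly in `L`. `Eₙ (Fₙ(q)² - L)₊ = Eₙ Fₙ(q)² - Eₙ min(Fₙ(q)², L)
→ 1 - E min(F(q)², L) = 1 - E min(F(0)², L)` (`Same P F`, or `∫ F q ^ 2 = 1` directly), which tends to `0`
for `L → ∞` by dominated convergence (`E F(0)² = 1`). `Eₙ Fₙ(q)² → 1`: `ORD.pts`, `ORD.mass`, see `PRB.lean`
(or `OR2.lean`). The lower integral in `BoxW` is `∫⁻ ENNReal.ofReal (G(Fₙ))`: `⨆` and `ENNReal.ofReal`
commute (continuous, monotone), `G` is the real supremum, `G(Fₙ)` is measurable and bounded for large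
`n` (`OR2.wav`), so it is `ENNReal.ofReal (∫ G(Fₙ))`. -/
def StmtCnv : Prop :=
  ∀ (Γ : Subgroup SL(2, ℝ)) [Countable Γ] (D : Set ℍ) (ρ : ℍ → ℝ) (φ : ℕ → ℍ → ℝ) (m : ℕ → ℝ),
    Sur Γ D ρ φ m → ∀ (Ω : Type) [MeasurableSpace Ω] (P : Measure Ω) [IsProbabilityMeasure P]
    (F : ℂ → Ω → ℝ), (∀ x, Measurable (F x)) → FLim ρ D φ m P F → Same P F →
    ∫ o, F 0 o ^ 2 ∂P = 1 →
    Tendsto (fun N => ∫⁻ o, ⨆ v : ℂ, ENNReal.ofReal (‖PWV.coef (fun x => F x o) N v‖ ^ 4) ∂P)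
      atTop (𝓝 0) → BoxW ρ D φ m

/-! ### The theorem on plane waves in `L²` -/

/-- NWM: the aim of part (c). For `NoW`, mass one and no atoms: no mass is lost, and the fourth moment of
the limit field is at most the Gaussian one. -/
def StmtNwm : Prop :=
  ∀ (Γ : Subgroup SL(2, ℝ)) [Countable Γ] (D : Set ℍ) (ρ : ℍ → ℝ) (φ : ℕ → ℍ → ℝ) (m : ℕ → ℝ)
    (s : ProbabilityTheory.Kernel ℍ S1), Sur Γ D ρ φ m → Sem ρ φ m s →
    (∀ᵐ z ∂((volume : Measure ℂ).restrict UH), ma s z = 1) → NoAt UH (um s) → NoW ρ D φ m →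
    ∀ (Ω : Type) [MeasurableSpace Ω] (P : Measure Ω) [IsProbabilityMeasure P] (F : ℂ → Ω → ℝ),
    (∀ x, Measurable (F x)) → FLim ρ D φ m P F →
    ∫ o, F 0 o ^ 2 ∂P = 1 ∧ Integrable (fun o => F 0 o ^ 4) P ∧ ∫ o, F 0 o ^ 4 ∂P ≤ 3

end

end PKM
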