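import Pool.Agent.PKM.OR2
import Pool.Agent.PKM.St3

/-!
# CNV: no plane waves in the limit field, no loss of mass, so no plane waves in the sequence
-/

set_option autoImplicit false

open Complex MeasureTheory Filter Topology Set
open UpperHalfPlane hiding I
open scoped ContDiff MatrixGroups ProbabilityTheory ENNReal

namespace PKM

open QE QE.NC QJ U3 NFP BSL

noncomputable section

namespace CNV

variable {r : ℕ}

/-- the coefficient as a function of the values -/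
def cf (N : ℕ) (e : Fin r → ℕ × ℕ) (s : Fin r → ℝ) (v : ℂ) : ℂ :=
  1 / (N : ℂ) ^ 2 * ∑ i, (s i : ℂ) * PWV.ew v (e i)

/-- the largest energy -/
def G (N : ℕ) (e : Fin r → ℕ × ℕ) (s : Fin r → ℝ) : ℝ := ⨆ v : ℂ, ‖cf N e s v‖ ^ 2

lemma ew_norm (v : ℂ) (q : ℕ × ℕ) : ‖PWV.ew v q‖ = 1 := by
  unfold PWV.ew
  rw [Complex.norm_exp]
  simp

lemma cf_le (N : ℕ) (e : Fin r → ℕ × ℕ) (s : Fin r → ℝ) (v : ℂ) :
    ‖cf N e s v‖ ≤ 1 / (N : ℝ) ^ 2 * ∑ i, |s i| := by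
  unfold cf
  rw [norm_mul]
  have h1 : ‖1 / (N : ℂ) ^ 2‖ = 1 / (N : ℝ) ^ 2 := by
    rw [norm_div, norm_one, norm_pow, Complex.norm_natCast]
  rw [h1]
  refine mul_le_mul_of_nonneg_left ?_ (by positivity)
  refine (norm_sum_le _ _).trans (Finset.sum_le_sum fun i _ => ?_)
  rw [norm_mul, ew_norm, mul_one, Complex.norm_real, Real.norm_eq_abs]

lemma sum_nn (N : ℕ) (s : Fin r → ℝ) : 0 ≤ 1 / (N : ℝ) ^ 2 * ∑ i, |s i| :=
  mul_nonneg (by positivity) (Finset.sum_nonneg fun i _ => abs_nonneg _)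

lemma bdd (N : ℕ) (e : Fin r → ℕ × ℕ) (s : Fin r → ℝ) :
    BddAbove (range fun v : ℂ => ‖cf N e s v‖ ^ 2) := by
  refine ⟨(1 / (N : ℝ) ^ 2 * ∑ i, |s i|) ^ 2, ?_⟩
  rintro _ ⟨v, rfl⟩
  exact pow_le_pow_left₀ (norm_nonneg _) (cf_le N e s v) 2

lemma le_G (N : ℕ) (e : Fin r → ℕ × ℕ) (s : Fin r → ℝ) (v : ℂ) : ‖cf N e s v‖ ^ 2 ≤ G N e s :=
  le_ciSup (bdd N e s) v

lemma G_le {N : ℕ} {e : Fin r → ℕ × ℕ} {s : Fin r → ℝ} {b : ℝ} (h : ∀ v, ‖cf N e s v‖ ^ 2 ≤ b) :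
    G N e s ≤ b := ciSup_le h

lemma G_nn (N : ℕ) (e : Fin r → ℕ × ℕ) (s : Fin r → ℝ) : 0 ≤ G N e s :=
  (sq_nonneg _).trans (le_G N e s 0)

lemma G_sq {N : ℕ} (hN : 1 ≤ N) (hr : r = N ^ 2) (e : Fin r → ℕ × ℕ) (s : Fin r → ℝ) :
    G N e s ≤ 1 / (N : ℝ) ^ 2 * ∑ i, s i ^ 2 := by
  refine G_le fun v => ?_
  have hN0 : (0 : ℝ) < (N : ℝ) ^ 2 := by positivity
  have h1 := pow_le_pow_left₀ (norm_nonneg _) (cf_le N e s v) 2
  have h2 : (∑ i, |s i|) ^ 2 ≤ (N : ℝ) ^ 2 * ∑ i, s i ^ 2 := by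
    have h3 := sq_sum_le_card_mul_sum_sq (s := (Finset.univ : Finset (Fin r))) (f := fun i => |s i|)
    simp only [Finset.card_univ, Fintype.card_fin, sq_abs] at h3
    have h4 : ((r : ℕ) : ℝ) = (N : ℝ) ^ 2 := by
      rw [hr]
      push_cast
      ring
    rw [h4] at h3
    exact h3
  refine h1.trans ?_
  rw [mul_pow]
  calc (1 / (N : ℝ) ^ 2) ^ 2 * (∑ i, |s i|) ^ 2
      ≤ (1 / (N : ℝ) ^ 2) ^ 2 * ((N : ℝ) ^ 2 * ∑ i, s i ^ 2) :=
        mul_le_mul_of_nonneg_left h2 (by positivity)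
    _ = 1 / (N : ℝ) ^ 2 * ∑ i, s i ^ 2 := by
        field_simp

lemma cf_sub (N : ℕ) (e : Fin r → ℕ × ℕ) (s t : Fin r → ℝ) (v : ℂ) :
    cf N e s v - cf N e t v = cf N e (fun i => s i - t i) v := by
  unfold cf
  rw [← mul_sub, ← Finset.sum_sub_distrib]
  congr 1
  refine Finset.sum_congr rfl fun i _ => ?_
  push_cast
  ring

lemma G_lip (N : ℕ) (e : Fin r → ℕ × ℕ) (s t : Fin r → ℝ) :
    G N e s ≤ G N e t + (1 / (N : ℝ) ^ 2 * ∑ i, |s i| + 1 / (N : ℝ) ^ 2 * ∑ i, |t i|)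
      * (1 / (N : ℝ) ^ 2 * ∑ i, |s i - t i|) := by
  refine G_le fun v => ?_
  have h1 := le_G N e t v
  have h2 : ‖cf N e s v‖ ^ 2 - ‖cf N e t v‖ ^ 2
      ≤ (‖cf N e s v‖ + ‖cf N e t v‖) * ‖cf N e (fun i => s i - t i) v‖ := by
    rw [sq_sub_sq, ← cf_sub]
    exact mul_le_mul_of_nonneg_left (norm_sub_norm_le _ _) (by positivity)
  have h3 : (‖cf N e s v‖ + ‖cf N e t v‖) * ‖cf N e (fun i => s i - t i) v‖
      ≤ (1 / (N : ℝ) ^ 2 * ∑ i, |s i| + 1 / (N : ℝ) ^ 2 * ∑ i, |t i|)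
        * (1 / (N : ℝ) ^ 2 * ∑ i, |s i - t i|) :=
    mul_le_mul (add_le_add (cf_le N e s v) (cf_le N e t v)) (cf_le N e _ v) (norm_nonneg _)
      (add_nonneg (sum_nn N s) (sum_nn N t))
  linarith

lemma G_cont (N : ℕ) (e : Fin r → ℕ × ℕ) : Continuous (G N e) := by
  rw [continuous_iff_continuousAt]
  intro s₀
  have hK : Continuous fun s : Fin r → ℝ =>
      (1 / (N : ℝ) ^ 2 * ∑ i, |s i| + 1 / (N : ℝ) ^ 2 * ∑ i, |s₀ i|)
        * (1 / (N : ℝ) ^ 2 * ∑ i, |s i - s₀ i|) := by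
    fun_prop
  have h0 := hK.tendsto s₀
  simp only [sub_self, abs_zero, Finset.sum_const_zero, mul_zero] at h0
  rw [ContinuousAt, tendsto_iff_dist_tendsto_zero]
  refine squeeze_zero (fun _ => dist_nonneg) (fun s => ?_) h0
  rw [Real.dist_eq, abs_le]
  have h1 := G_lip N e s s₀
  have h2 := G_lip N e s₀ s
  have h3 : ∑ i, |s₀ i - s i| = ∑ i, |s i - s₀ i| :=
    Finset.sum_congr rfl fun i _ => abs_sub_comm _ _
  rw [h3, add_comm (1 / (N : ℝ) ^ 2 * ∑ i, |s₀ i|)] at h2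
  constructor <;> linarith

/-- the fourth powers -/
lemma G_four (N : ℕ) (e : Fin r → ℕ × ℕ) (s : Fin r → ℝ) :
    ENNReal.ofReal (G N e s ^ 2) ≤ ⨆ v : ℂ, ENNReal.ofReal (‖cf N e s v‖ ^ 4) := by
  set S : ℝ≥0∞ := ⨆ v : ℂ, ENNReal.ofReal (‖cf N e s v‖ ^ 4) with hS
  by_cases hT : S = ⊤
  · rw [hT]
    exact le_top
  · have h1 : ∀ v, ‖cf N e s v‖ ^ 4 ≤ S.toReal := by
      intro v
      have h2 : ENNReal.ofReal (‖cf N e s v‖ ^ 4) ≤ S :=
        le_iSup (fun v : ℂ => ENNReal.ofReal (‖cf N e s v‖ ^ 4)) v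
      have h3 := ENNReal.toReal_mono hT h2
      rwa [ENNReal.toReal_ofReal (by positivity)] at h3
    have h2 : G N e s ≤ Real.sqrt S.toReal := by
      refine G_le fun v => ?_
      refine Real.le_sqrt_of_sq_le ?_
      rw [← pow_mul]
      exact h1 v
    have h3 : G N e s ^ 2 ≤ S.toReal := by
      have h4 := pow_le_pow_left₀ (G_nn N e s) h2 2
      rwa [Real.sq_sqrt ENNReal.toReal_nonneg] at h4
    calc ENNReal.ofReal (G N e s ^ 2) ≤ ENNReal.ofReal S.toReal := ENNReal.ofReal_le_ofReal h3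
      _ = S := ENNReal.ofReal_toReal hT

lemma G_two (N : ℕ) (e : Fin r → ℕ × ℕ) (s : Fin r → ℝ) :
    ⨆ v : ℂ, ENNReal.ofReal (‖cf N e s v‖ ^ 2) ≤ ENNReal.ofReal (G N e s) :=
  iSup_le fun v => ENNReal.ofReal_le_ofReal (le_G N e s v)

/-- the splitting -/
lemma split {N : ℕ} (hN : 1 ≤ N) (hr : r = N ^ 2) (e : Fin r → ℕ × ℕ) (L : ℝ) (s : Fin r → ℝ) :
    G N e s ≤ min (G N e s) L + 1 / (N : ℝ) ^ 2 * ∑ i, (s i ^ 2 - min (s i ^ 2) L) := by
  have hN0 : (0 : ℝ) < (N : ℝ) ^ 2 := by positivity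
  have h0 : 0 ≤ ∑ i, (s i ^ 2 - min (s i ^ 2) L) :=
    Finset.sum_nonneg fun i _ => sub_nonneg.2 (min_le_left _ _)
  have h0' : 0 ≤ 1 / (N : ℝ) ^ 2 * ∑ i, (s i ^ 2 - min (s i ^ 2) L) :=
    mul_nonneg (by positivity) h0
  rcases le_total (G N e s) L with h1 | h1
  · rw [min_eq_left h1]
    linarith
  · rw [min_eq_right h1]
    have h2 := G_sq hN hr e s
    have h3 : ∑ i, (s i ^ 2 - L) ≤ ∑ i, (s i ^ 2 - min (s i ^ 2) L) :=
      Finset.sum_le_sum fun i _ => sub_le_sub_left (min_le_right _ _) _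
    have h4 : ∑ i, (s i ^ 2 - L) = ∑ i, s i ^ 2 - (N : ℝ) ^ 2 * L := by
      have h7 : ((r : ℕ) : ℝ) = (N : ℝ) ^ 2 := by
        rw [hr]
        push_cast
        ring
      rw [Finset.sum_sub_distrib, Finset.sum_const, Finset.card_univ, Fintype.card_fin,
        nsmul_eq_mul, h7]
    rw [h4] at h3
    have h5 := mul_le_mul_of_nonneg_left h3 (show (0 : ℝ) ≤ 1 / (N : ℝ) ^ 2 by positivity)
    have h6 : 1 / (N : ℝ) ^ 2 * (∑ i, s i ^ 2 - (N : ℝ) ^ 2 * L)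
        = 1 / (N : ℝ) ^ 2 * ∑ i, s i ^ 2 - L := by
      field_simp
    linarith

/-- the points of the box -/
def pp (N : ℕ) : Fin (PWV.box N).card → ℕ × ℕ := fun i => ((PWV.box N).equivFin.symm i : ℕ × ℕ)

lemma card_box (N : ℕ) : (PWV.box N).card = N ^ 2 := by
  unfold PWV.box
  rw [Finset.card_product, Finset.card_range, sq]

lemma coef_eq (f : ℂ → ℝ) (N : ℕ) (v : ℂ) :
    PWV.coef f N v = cf N (pp N) (fun i => f (PWV.pt (pp N i))) v := by
  unfold PWV.coef cf pp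
  congr 1
  rw [← Finset.sum_coe_sort]
  exact ((PWV.box N).equivFin.symm.sum_comp
    (fun q : PWV.box N => (f (PWV.pt (q : ℕ × ℕ)) : ℂ) * PWV.ew v (q : ℕ × ℕ))).symm

/-- the integral of the truncated energy of the limit field -/
lemma lim_le {Ω : Type*} [MeasurableSpace Ω] {P : Measure Ω} [IsProbabilityMeasure P]
    {F : ℂ → Ω → ℝ} (hF : ∀ x, Measurable (F x)) {N : ℕ} {δ : ℝ} (hδ : 0 < δ)
    (h : ∫⁻ o, ⨆ v : ℂ, ENNReal.ofReal (‖PWV.coef (fun x => F x o) N v‖ ^ 4) ∂P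
      ≤ ENNReal.ofReal (δ ^ 2)) {L : ℝ} (hL : 0 ≤ L) :
    ∫ o, min (G N (pp N) (fun i => F (PWV.pt (pp N i)) o)) L ∂P ≤ 2 * δ := by
  have hm : Measurable fun o => min (G N (pp N) (fun i => F (PWV.pt (pp N i)) o)) L :=
    ((G_cont N (pp N)).measurable.comp (measurable_pi_lambda _ fun i => hF _)).min measurable_const
  have hnn : ∀ o, 0 ≤ min (G N (pp N) (fun i => F (PWV.pt (pp N i)) o)) L :=
    fun o => le_min (G_nn _ _ _) hL
  have hi : Integrable (fun o => min (G N (pp N) (fun i => F (PWV.pt (pp N i)) o)) L) P := by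
    refine Integrable.of_bound hm.aestronglyMeasurable L (Eventually.of_forall fun o => ?_)
    rw [Real.norm_of_nonneg (hnn o)]
    exact min_le_right _ _
  have h1 := ofReal_integral_eq_lintegral_ofReal hi (Eventually.of_forall hnn)
  have h2 : ∀ o, ENNReal.ofReal (min (G N (pp N) (fun i => F (PWV.pt (pp N i)) o)) L)
      ≤ ENNReal.ofReal δ + ENNReal.ofReal (1 / δ)
        * ⨆ v : ℂ, ENNReal.ofReal (‖PWV.coef (fun x => F x o) N v‖ ^ 4) := by
    intro o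
    set g : ℝ := G N (pp N) (fun i => F (PWV.pt (pp N i)) o) with hg
    have hg0 : 0 ≤ g := G_nn _ _ _
    have h3 : min g L ≤ δ + 1 / δ * g ^ 2 := by
      refine (min_le_left _ _).trans ?_
      rcases le_total g δ with h4 | h4
      · have : 0 ≤ 1 / δ * g ^ 2 := by positivity
        linarith
      · have h5 : g ≤ 1 / δ * g ^ 2 := by
          rw [one_div, inv_mul_eq_div, le_div_iff₀ hδ, sq]
          exact mul_le_mul_of_nonneg_left h4 hg0
        linarith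
    have h4 := G_four N (pp N) (fun i => F (PWV.pt (pp N i)) o)
    calc ENNReal.ofReal (min g L) ≤ ENNReal.ofReal (δ + 1 / δ * g ^ 2) :=
          ENNReal.ofReal_le_ofReal h3
      _ = ENNReal.ofReal δ + ENNReal.ofReal (1 / δ) * ENNReal.ofReal (g ^ 2) := by
          rw [ENNReal.ofReal_add hδ.le (by positivity), ENNReal.ofReal_mul (by positivity)]
      _ ≤ _ := by
          refine add_le_add le_rfl (mul_le_mul_right ?_ _)
          refine h4.trans (le_of_eq ?_)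
          refine iSup_congr fun v => ?_
          rw [coef_eq]
  have h3 : ENNReal.ofReal (∫ o, min (G N (pp N) (fun i => F (PWV.pt (pp N i)) o)) L ∂P)
      ≤ ENNReal.ofReal (2 * δ) := by
    rw [h1]
    refine (lintegral_mono h2).trans ?_
    rw [lintegral_add_left measurable_const, lintegral_const, measure_univ, mul_one,
      lintegral_const_mul' _ _ ENNReal.ofReal_ne_top]
    have h4 : ENNReal.ofReal (1 / δ) * ∫⁻ o, ⨆ v : ℂ,
        ENNReal.ofReal (‖PWV.coef (fun x => F x o) N v‖ ^ 4) ∂P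
        ≤ ENNReal.ofReal (1 / δ) * ENNReal.ofReal (δ ^ 2) := mul_le_mul_right h _
    refine (add_le_add le_rfl h4).trans (le_of_eq ?_)
    rw [← ENNReal.ofReal_mul (by positivity), ← ENNReal.ofReal_add hδ.le (by positivity)]
    congr 1
    field_simp
    ring
  exact (ENNReal.ofReal_le_ofReal_iff (by positivity)).1 h3

/-- the second moments of the limit field -/
lemma sec {Ω : Type} [MeasurableSpace Ω] {P : Measure Ω} [IsProbabilityMeasure P]
    {F : ℂ → Ω → ℝ} (hFm : ∀ x, Measurable (F x)) (hsame : Same P F)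
    (h1 : ∫ o, F 0 o ^ 2 ∂P = 1) (x : ℂ) :
    Integrable (fun o => F x o ^ 2) P ∧ ∫ o, F x o ^ 2 ∂P = 1 := by
  have i0 : Integrable (fun o => F 0 o ^ 2) P := by
    by_contra h
    rw [integral_undef h] at h1
    exact zero_ne_one h1
  have h2 := OR2.law hFm hsame x
  have hm : Measurable fun u : ℝ => u ^ 2 := measurable_id.pow_const 2
  have h3 : Integrable (fun u : ℝ => u ^ 2) (P.map (F 0)) :=
    (integrable_map_measure hm.aestronglyMeasurable (hFm 0).aemeasurable).2 i0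
  have h4 : Integrable (fun u : ℝ => u ^ 2) (P.map (F x)) := by
    rw [h2]
    exact h3
  refine ⟨(integrable_map_measure hm.aestronglyMeasurable (hFm x).aemeasurable).1 h4, ?_⟩
  have h5 : ∫ u, u ^ 2 ∂(P.map (F x)) = ∫ o, F x o ^ 2 ∂P :=
    integral_map (hFm x).aemeasurable hm.aestronglyMeasurable
  have h6 : ∫ u, u ^ 2 ∂(P.map (F 0)) = ∫ o, F 0 o ^ 2 ∂P :=
    integral_map (hFm 0).aemeasurable hm.aestronglyMeasurable
  rw [← h5, h2, h6, h1]

/-- the integral of the energy, for bounded measurable functions -/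
lemma ene {S : Type*} [MeasurableSpace S] {P : Measure S} [IsProbabilityMeasure P] {N : ℕ}
    (hN : 1 ≤ N) {X : ℂ → S → ℝ} {b : ℝ}
    (hX : ∀ i : Fin (PWV.box N).card, Measurable (X (PWV.pt (pp N i))) ∧
      ∀ p, |X (PWV.pt (pp N i)) p| ≤ b) {L δ : ℝ} (hL : 0 ≤ L)
    (h1 : ∫ p, min (G N (pp N) (fun i => X (PWV.pt (pp N i)) p)) L ∂P ≤ 3 * δ)
    (h2 : ∀ i, ∫ p, X (PWV.pt (pp N i)) p ^ 2 ∂P - ∫ p, min (X (PWV.pt (pp N i)) p ^ 2) L ∂P
      ≤ 2 * δ) :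
    ∫⁻ p, ⨆ v : ℂ, ENNReal.ofReal (‖PWV.coef (fun x => X x p) N v‖ ^ 2) ∂P
      ≤ ENNReal.ofReal (5 * δ) := by
  have hN0 : (0 : ℝ) < (N : ℝ) ^ 2 := by positivity
  have hGm : Measurable fun p => G N (pp N) (fun i => X (PWV.pt (pp N i)) p) :=
    (G_cont N (pp N)).measurable.comp (measurable_pi_lambda _ fun i => (hX i).1)
  have hsi : ∀ i, Integrable (fun p => X (PWV.pt (pp N i)) p ^ 2) P := by
    intro i
    refine Integrable.of_bound ((hX i).1.pow_const 2).aestronglyMeasurable (b ^ 2)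
      (Eventually.of_forall fun p => ?_)
    rw [Real.norm_of_nonneg (sq_nonneg _), ← sq_abs]
    exact pow_le_pow_left₀ (abs_nonneg _) ((hX i).2 p) 2
  have hmi : ∀ i, Integrable (fun p => min (X (PWV.pt (pp N i)) p ^ 2) L) P :=
    fun i => OR2.min_int (hX i).1 hL
  have hGi : Integrable (fun p => G N (pp N) (fun i => X (PWV.pt (pp N i)) p)) P := by
    refine Integrable.mono' (g := fun p => 1 / (N : ℝ) ^ 2 * ∑ i, X (PWV.pt (pp N i)) p ^ 2)
      ((integrable_finsetSum _ fun i _ => hsi i).const_mul _) hGm.aestronglyMeasurable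
      (Eventually.of_forall fun p => ?_)
    rw [Real.norm_of_nonneg (G_nn _ _ _)]
    exact G_sq hN (card_box N) _ _
  have hGL : Integrable (fun p => min (G N (pp N) (fun i => X (PWV.pt (pp N i)) p)) L) P := by
    refine Integrable.of_bound (hGm.min measurable_const).aestronglyMeasurable L
      (Eventually.of_forall fun p => ?_)
    rw [Real.norm_of_nonneg (le_min (G_nn _ _ _) hL)]
    exact min_le_right _ _
  have hsum : Integrable (fun p => 1 / (N : ℝ) ^ 2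
      * ∑ i, (X (PWV.pt (pp N i)) p ^ 2 - min (X (PWV.pt (pp N i)) p ^ 2) L)) P :=
    (integrable_finsetSum _ fun i _ => (hsi i).sub (hmi i)).const_mul _
  have h3 : ∫ p, G N (pp N) (fun i => X (PWV.pt (pp N i)) p) ∂P ≤ 5 * δ := by
    have h4 : ∫ p, G N (pp N) (fun i => X (PWV.pt (pp N i)) p) ∂P
        ≤ ∫ p, (min (G N (pp N) (fun i => X (PWV.pt (pp N i)) p)) L + 1 / (N : ℝ) ^ 2
          * ∑ i, (X (PWV.pt (pp N i)) p ^ 2 - min (X (PWV.pt (pp N i)) p ^ 2) L)) ∂P :=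
      integral_mono hGi (hGL.add hsum) fun p => split hN (card_box N) _ L _
    have h5 : ∫ p, 1 / (N : ℝ) ^ 2
        * ∑ i, (X (PWV.pt (pp N i)) p ^ 2 - min (X (PWV.pt (pp N i)) p ^ 2) L) ∂P ≤ 2 * δ := by
      have hd : ∀ i ∈ (Finset.univ : Finset (Fin (PWV.box N).card)), Integrable (fun p =>
          X (PWV.pt (pp N i)) p ^ 2 - min (X (PWV.pt (pp N i)) p ^ 2) L) P :=
        fun i _ => (hsi i).sub (hmi i)
      rw [integral_const_mul, integral_finsetSum _ hd]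
      have h6 : ∑ i, ∫ p, (X (PWV.pt (pp N i)) p ^ 2 - min (X (PWV.pt (pp N i)) p ^ 2) L) ∂P
          ≤ ∑ _i : Fin (PWV.box N).card, 2 * δ := by
        refine Finset.sum_le_sum fun i _ => ?_
        rw [integral_sub (hsi i) (hmi i)]
        exact h2 i
      have h8 : (((PWV.box N).card : ℕ) : ℝ) = (N : ℝ) ^ 2 := by
        rw [card_box]
        push_cast
        ring
      rw [Finset.sum_const, Finset.card_univ, Fintype.card_fin, nsmul_eq_mul, h8] at h6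
      have h7 := mul_le_mul_of_nonneg_left h6 (show (0 : ℝ) ≤ 1 / (N : ℝ) ^ 2 by positivity)
      refine h7.trans (le_of_eq ?_)
      field_simp
    rw [integral_add hGL hsum] at h4
    linarith
  calc ∫⁻ p, ⨆ v : ℂ, ENNReal.ofReal (‖PWV.coef (fun x => X x p) N v‖ ^ 2) ∂P
      ≤ ∫⁻ p, ENNReal.ofReal (G N (pp N) (fun i => X (PWV.pt (pp N i)) p)) ∂P := by
        refine lintegral_mono fun p => ?_
        refine le_trans (le_of_eq ?_) (G_two N (pp N) (fun i => X (PWV.pt (pp N i)) p))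
        refine iSup_congr fun v => ?_
        rw [coef_eq]
    _ = ENNReal.ofReal (∫ p, G N (pp N) (fun i => X (PWV.pt (pp N i)) p) ∂P) :=
        (ofReal_integral_eq_lintegral_ofReal hGi (Eventually.of_forall fun p => G_nn _ _ _)).symm
    _ ≤ ENNReal.ofReal (5 * δ) := ENNReal.ofReal_le_ofReal h3

end CNV

open CNV in
/-- **CNV** -/
theorem t_CNV : StmtCnv := by
  intro Γ _ D ρ φ m hS Ω _ P _ F hFm hF hsame h1 hlim ε hε
  have hP : IsProbabilityMeasure (Berry.rFrameProb ρ D) := Berry.rFrameProb_isProb (UIF.geo hS)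
  set δ : ℝ := ε / 5 with hδ
  have hδ0 : 0 < δ := by positivity
  have hsec := sec hFm hsame h1
  have h2 : ∀ᶠ N in atTop, ∫⁻ o, ⨆ v : ℂ,
      ENNReal.ofReal (‖PWV.coef (fun x => F x o) N v‖ ^ 4) ∂P ≤ ENNReal.ofReal (δ ^ 2) := by
    have h3 : (0 : ℝ≥0∞) < ENNReal.ofReal (δ ^ 2) := ENNReal.ofReal_pos.2 (by positivity)
    exact (hlim.eventually_lt_const h3).mono fun N hN => hN.le
  obtain ⟨N₀, hN₀⟩ := eventually_atTop.1 (h2.and (eventually_ge_atTop 1))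
  refine ⟨N₀, fun N hN => ?_⟩
  obtain ⟨hN1, hN2⟩ := hN₀ N hN
  -- the level of the truncation
  have h3 : ∀ᶠ k : ℕ in atTop, ∀ i : Fin (PWV.box N).card,
      ∫ o, F (PWV.pt (pp N i)) o ^ 2 ∂P - ∫ o, min (F (PWV.pt (pp N i)) o ^ 2) (k : ℝ) ∂P < δ := by
    rw [eventually_all]
    intro i
    exact (OR2.tail (hFm _) (hsec _).1).eventually_lt_const hδ0
  obtain ⟨k, hk⟩ := h3.exists
  have hk0 : (0 : ℝ) ≤ k := Nat.cast_nonneg k
  -- the limits
  have l1 : Tendsto (fun n => ∫ p, min (G N (pp N)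
      (fun i => Berry.rWave ρ (φ n) (m n) (PWV.pt (pp N i)) p)) (k : ℝ) ∂(Berry.rFrameProb ρ D)) atTop
      (𝓝 (∫ o, min (G N (pp N) (fun i => F (PWV.pt (pp N i)) o)) (k : ℝ) ∂P)) := by
    refine hF _ (fun i => PWV.pt (pp N i)) (fun t => min (G N (pp N) t) (k : ℝ)) ?_
      ⟨(k : ℝ), fun t => ?_⟩
    · exact (G_cont N (pp N)).min continuous_const
    · rw [abs_of_nonneg (le_min (G_nn _ _ _) hk0)]
      exact min_le_right _ _
  have l2 : ∀ x : ℂ, Tendsto (fun n => ∫ p, Berry.rWave ρ (φ n) (m n) x p ^ 2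
      ∂(Berry.rFrameProb ρ D)) atTop (𝓝 (∫ o, F x o ^ 2 ∂P)) := by
    intro x
    have h4 := OR2.mom hS x x
    rw [sub_self, Berry.waveK_zero] at h4
    rw [(hsec x).2]
    refine h4.congr fun n => ?_
    exact integral_congr_ae (Eventually.of_forall fun p => (sq _).symm)
  have l3 : ∀ x : ℂ, Tendsto (fun n => ∫ p,
      min (Berry.rWave ρ (φ n) (m n) x p ^ 2) (k : ℝ) ∂(Berry.rFrameProb ρ D)) atTop
      (𝓝 (∫ o, min (F x o ^ 2) (k : ℝ) ∂P)) := by
    intro x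
    refine hF 1 ![x] (fun t => min (t 0 ^ 2) (k : ℝ)) ?_ ⟨(k : ℝ), fun t => ?_⟩
    · exact ((continuous_apply 0).pow 2).min continuous_const
    · rw [abs_of_nonneg (le_min (sq_nonneg _) hk0)]
      exact min_le_right _ _
  have e1 := l1.eventually_lt_const
    (lt_of_le_of_lt (lim_le hFm hδ0 hN1 hk0) (by linarith : 2 * δ < 3 * δ))
  have e2 : ∀ᶠ n in atTop, ∀ i : Fin (PWV.box N).card,
      ∫ p, Berry.rWave ρ (φ n) (m n) (PWV.pt (pp N i)) p ^ 2 ∂(Berry.rFrameProb ρ D)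
        - ∫ p, min (Berry.rWave ρ (φ n) (m n) (PWV.pt (pp N i)) p ^ 2) (k : ℝ)
          ∂(Berry.rFrameProb ρ D) < 2 * δ := by
    rw [eventually_all]
    intro i
    exact ((l2 _).sub (l3 _)).eventually_lt_const ((hk i).trans (by linarith))
  filter_upwards [e1, e2, OR2.wav hS (fun i => PWV.pt (pp N i))] with n a1 a2 a3
  obtain ⟨b, hb⟩ := a3
  have h5 := ene (P := Berry.rFrameProb ρ D) hN2 (X := fun x => Berry.rWave ρ (φ n) (m n) x)
    (b := b) hb hk0 a1.le (fun i => (a2 i).le)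
  have h6 : 5 * δ = ε := by
    rw [hδ]
    ring
  rw [h6] at h5
  exact h5

end

end PKM
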