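import Pool.Agent.PKM.St2b
import Pool.Agent.BSL.UIF

/-!
# PKM, module FRM: means over the frames for several points, on the plane
-/

set_option autoImplicit false

open Complex MeasureTheory Filter Topology Set
open UpperHalfPlane hiding I
open scoped ContDiff MatrixGroups ProbabilityTheory ENNReal

namespace PKM

open QE QE.NC QJ U3 NFP BSL

noncomputable section

namespace FRM

variable {Γ : Subgroup SL(2, ℝ)} {D : Set ℍ} {ρ : ℍ → ℝ} {φ : ℕ → ℍ → ℝ} {m : ℕ → ℝ}

/-- the average over the angle of a function of the waves is invariant -/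
lemma ang_inv {f : ℍ → ℝ} (hf : ∀ γ ∈ Γ, ∀ z, f (γ • z) = f z) (hρ : ∀ γ ∈ Γ, ∀ z, ρ (γ • z) = ρ z)
    (c : ℝ) {k : ℕ} (x : Fin k → ℂ) (G : (Fin k → ℝ) → ℝ) : ∀ γ ∈ Γ, ∀ z,
    ∫ t, G (fun i => Berry.rWave ρ f c (x i) (γ • z, t)) ∂ang
      = ∫ t, G (fun i => Berry.rWave ρ f c (x i) (z, t)) ∂ang := by
  intro γ hγ z
  obtain ⟨α, hα⟩ := Berry.mul_frame γ z
  have hper : Function.Periodic (fun θ => G (fun i => Berry.rWave ρ f c (x i) (γ • z, θ)))
      (2 * Real.pi) := by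
    intro θ
    unfold Berry.rWave
    simp only [Berry.frame_periodic]
  rw [← ang_shift hper α]
  congr 1; funext θ
  congr 1
  funext i
  unfold Berry.rWave
  simp only
  rw [← hα θ, mul_smul, hf γ hγ, hρ γ hγ]

/-- the waves are bounded -/
lemma bdd (hS : Sur Γ D ρ φ m) (n : ℕ) : ∃ b : ℝ, 0 ≤ b ∧ ∀ (x : ℂ) (p : ℍ × ℝ),
    |Berry.rWave ρ (φ n) (m n) x p| ≤ b := by
  obtain ⟨b, hb⟩ := Berry.bdd_of_cocompact (UIF.phi_cont hS n)
    (fun γ hγ z => hS.eig.invariant n γ hγ z) hS.fac.cpt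
  exact ⟨b, (abs_nonneg _).trans (hb UpperHalfPlane.I), fun x p => hb _⟩

/-- continuous functions of the waves are bounded -/
lemma bddG (hS : Sur Γ D ρ φ m) (n : ℕ) {r : ℕ} (x : Fin r → ℂ) {G : (Fin r → ℝ) → ℝ}
    (hG : Continuous G) : ∃ b : ℝ, ∀ p : ℍ × ℝ,
    ‖G fun i => Berry.rWave ρ (φ n) (m n) (x i) p‖ ≤ b := by
  obtain ⟨b, hb0, hb⟩ := bdd hS n
  obtain ⟨B, hB⟩ := (isCompact_closedBall (0 : Fin r → ℝ) b).exists_bound_of_continuousOn
    hG.continuousOn
  refine ⟨B, fun p => hB _ ?_⟩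
  rw [mem_closedBall_zero_iff, pi_norm_le_iff_of_nonneg hb0]
  exact fun i => hb (x i) p

end FRM

/-- **FRM** -/
theorem t_FRM : StmtFrm := by
  intro Γ _ D ρ φ m hS ζ hζ r x G hG
  filter_upwards [UIF.wc hS x] with n hn
  obtain ⟨b, hb⟩ := FRM.bddG hS n x hG
  set f : ℍ → ℝ := fun z => ∫ t, G (fun i => Berry.rWave ρ (φ n) (m n) (x i) (z, t)) ∂ang with hf
  have hGm : Measurable fun p : ℍ × ℝ => G (fun i => Berry.rWave ρ (φ n) (m n) (x i) p) :=
    hG.measurable.comp (measurable_pi_lambda _ fun i => (hn i).measurable)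
  have hfm : Measurable f := (hGm.stronglyMeasurable.integral_prod_right').measurable
  have hfb : ∀ z, |f z| ≤ b := by
    intro z
    have h2 : ‖f z‖ ≤ b * ang.real univ :=
      norm_integral_le_of_norm_le_const (Eventually.of_forall fun t => hb _)
    simpa using h2
  have hg := UIF.geo hS
  have hfD : IntegrableOn f D (volume : Measure ℍ) := by
    have : IsFiniteMeasure ((volume : Measure ℍ).restrict D) :=
      ⟨by rw [Measure.restrict_apply_univ]; exact hg.fin.lt_top⟩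
    exact Integrable.of_bound hfm.aestronglyMeasurable b (Eventually.of_forall hfb)
  have hfi : ∀ γ ∈ Γ, ∀ z, f (γ • z) = f z :=
    FRM.ang_inv (Γ := Γ) (f := φ n) (fun γ hγ z => hS.eig.invariant n γ hγ z) hS.fac.inv (m n) x G
  obtain ⟨h3, h4⟩ := hζ.int f hfm hfD hfi
  have hprob : IsProbabilityMeasure (ProbabilityTheory.cond (Berry.area ρ) D) := area_prob hg
  have hint : Integrable (fun p => G fun i => Berry.rWave ρ (φ n) (m n) (x i) p)
      (Berry.rFrameProb ρ D) := by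
    unfold Berry.rFrameProb
    exact Integrable.of_bound hGm.aestronglyMeasurable b (Eventually.of_forall fun p => hb _)
  refine ⟨hint, h3, ?_⟩
  have e1 : ∫ p, G (fun i => Berry.rWave ρ (φ n) (m n) (x i) p) ∂(Berry.rFrameProb ρ D)
      = Berry.rAvg ρ D f := by
    unfold Berry.rFrameProb at hint ⊢
    unfold Berry.rAvg
    rw [integral_prod _ hint]
  rw [e1, ← h4]

end

end PKM
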