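import Pool.Agent.PKM.St2b

/-!
# PKM, module GKB: the coefficients `gk` are small in the weighted mean square (helper37)
-/

set_option autoImplicit false

open Complex MeasureTheory Filter Topology Set
open UpperHalfPlane hiding I
open scoped ContDiff MatrixGroups ProbabilityTheory ENNReal

namespace PKM

open QE QE.NC QJ U3 NFP BSL

noncomputable section

namespace GKB

/-! ### The exponential series -/

lemma exp_tail (R : ℝ) (hR : 0 ≤ R) (n : ℕ) :
    Real.exp R - ∑ m ∈ Finset.range n, R ^ m / (m.factorial : ℝ) ≤ Real.exp (4 * R) / 4 ^ n := by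
  have hs : ∀ y : ℝ, Summable (fun m : ℕ => y ^ m / (m.factorial : ℝ)) :=
    Real.summable_pow_div_factorial
  have he : ∀ y : ℝ, Real.exp y = ∑' m : ℕ, y ^ m / (m.factorial : ℝ) := fun y => by
    rw [Real.exp_eq_exp_ℝ, NormedSpace.exp_eq_tsum_div]
  have h1 : Real.exp R - ∑ m ∈ Finset.range n, R ^ m / (m.factorial : ℝ)
      = ∑' m : ℕ, R ^ (m + n) / ((m + n).factorial : ℝ) := by
    rw [he, ← (hs R).sum_add_tsum_nat_add n]
    ring
  have h2 : ∑' m : ℕ, (4 * R) ^ (m + n) / ((m + n).factorial : ℝ) ≤ Real.exp (4 * R) := by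
    rw [he (4 * R), ← (hs (4 * R)).sum_add_tsum_nat_add n]
    have : 0 ≤ ∑ i ∈ Finset.range n, (4 * R) ^ i / (i.factorial : ℝ) :=
      Finset.sum_nonneg fun i _ => by positivity
    linarith
  have s1 : Summable (fun m : ℕ => R ^ (m + n) / ((m + n).factorial : ℝ)) :=
    (summable_nat_add_iff n).2 (hs R)
  have s2 : Summable (fun m : ℕ => (4 * R) ^ (m + n) / ((m + n).factorial : ℝ)) :=
    (summable_nat_add_iff n).2 (hs (4 * R))
  rw [h1, le_div_iff₀ (by positivity), ← tsum_mul_right]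
  refine le_trans (Summable.tsum_le_tsum (fun m => ?_) (s1.mul_right _) s2) h2
  rw [mul_pow, div_mul_eq_mul_div, mul_comm (R ^ (m + n))]
  gcongr
  · norm_num
  · omega

lemma ee_pp {w : ℂ} (hw : ‖w‖ = 1) {y : ℂ} {R : ℝ} (hy : ‖y‖ ≤ R) (N : ℕ) :
    ‖ee y w - pp N y w‖ ≤ Real.exp (4 * R) / 4 ^ (N + 1) := by
  rw [pp_eq hw]
  unfold ee
  refine (Complex.norm_exp_sub_sum_le_exp_norm_sub_sum _ _).trans ?_
  have h1 : ‖I * ((y * w).re : ℂ)‖ ≤ R := by
    rw [norm_mul, Complex.norm_I, one_mul, Complex.norm_real]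
    have := Complex.abs_re_le_norm (y * w)
    rw [norm_mul, hw, mul_one] at this
    exact this.trans hy
  refine (exp_tail _ (norm_nonneg _) _).trans ?_
  gcongr

/-! ### Fourier coefficients -/

/-- the Fourier coefficients of even order of a complex function -/
def fq (g : ℝ → ℂ) (k : ℤ) : ℂ :=
  (2 * Real.pi : ℂ)⁻¹ * ∫ θ in (0 : ℝ)..(2 * Real.pi),
    g θ * Complex.exp (-(2 * (k : ℂ) * θ * Complex.I))

lemma cont_ex (k : ℤ) : Continuous fun θ : ℝ => Complex.exp (-(2 * (k : ℂ) * θ * Complex.I)) := by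
  fun_prop

lemma fq_sum {ι : Type*} (s : Finset ι) (g : ι → ℝ → ℂ) (hg : ∀ i ∈ s, Continuous (g i)) (k : ℤ) :
    fq (fun θ => ∑ i ∈ s, g i θ) k = ∑ i ∈ s, fq (g i) k := by
  unfold fq
  rw [← Finset.mul_sum, ← intervalIntegral.integral_finsetSum]
  · congr 1
    refine intervalIntegral.integral_congr fun θ _ => ?_
    simp only [Finset.sum_mul]
  · intro i hi
    exact ((hg i hi).mul (cont_ex k)).intervalIntegrable _ _

lemma fq_mul (c : ℂ) (g : ℝ → ℂ) (k : ℤ) : fq (fun θ => c * g θ) k = c * fq g k := by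
  unfold fq
  simp only [mul_assoc c]
  rw [intervalIntegral.integral_const_mul]
  ring

lemma fq_sub {f g : ℝ → ℂ} (hf : Continuous f) (hg : Continuous g) (k : ℤ) :
    fq (fun θ => f θ - g θ) k = fq f k - fq g k := by
  unfold fq
  rw [← mul_sub, ← intervalIntegral.integral_sub]
  · congr 1
    refine intervalIntegral.integral_congr fun θ _ => ?_
    ring
  · exact (hf.mul (cont_ex k)).intervalIntegrable _ _
  · exact (hg.mul (cont_ex k)).intervalIntegrable _ _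

lemma fq_le {g : ℝ → ℂ} {C : ℝ} (hg : ∀ θ, ‖g θ‖ ≤ C) (k : ℤ) : ‖fq g k‖ ≤ C := by
  unfold fq
  have h1 : ‖∫ θ in (0 : ℝ)..(2 * Real.pi), g θ * Complex.exp (-(2 * (k : ℂ) * θ * Complex.I))‖
      ≤ C * |2 * Real.pi - 0| := by
    refine intervalIntegral.norm_integral_le_of_norm_le_const fun θ _ => ?_
    rw [norm_mul]
    have e : -(2 * (k : ℂ) * θ * Complex.I) = ((-(2 * (k : ℝ) * θ) : ℝ) : ℂ) * Complex.I := by
      push_cast
      ring
    rw [e, Complex.norm_exp_ofReal_mul_I, mul_one]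
    exact hg θ
  rw [norm_mul]
  have h2 : ‖(2 * Real.pi : ℂ)⁻¹‖ = (2 * Real.pi)⁻¹ := by
    rw [norm_inv, norm_mul, Complex.norm_real, Complex.norm_ofNat, Real.norm_of_nonneg Real.pi_pos.le]
  rw [h2]
  have hpi : 0 < 2 * Real.pi := by positivity
  rw [sub_zero, abs_of_pos hpi] at h1
  calc (2 * Real.pi)⁻¹ * _ ≤ (2 * Real.pi)⁻¹ * (C * (2 * Real.pi)) := by gcongr
    _ = C := by field_simp

lemma fq_exp (j k : ℤ) :
    fq (fun θ => Complex.exp ((j : ℂ) * θ * Complex.I)) k = if j = 2 * k then 1 else 0 := by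
  unfold fq
  have e : ∀ θ : ℝ, Complex.exp ((j : ℂ) * θ * Complex.I) *
      Complex.exp (-(2 * (k : ℂ) * θ * Complex.I)) =
      Complex.exp ((((j - 2 * k : ℤ) : ℂ) * Complex.I) * θ) := by
    intro θ
    rw [← Complex.exp_add]
    congr 1
    push_cast
    ring
  simp only [e]
  have hpi : (2 * Real.pi : ℂ) ≠ 0 := by
    have : (Real.pi : ℂ) ≠ 0 := by exact_mod_cast Real.pi_ne_zero
    exact mul_ne_zero two_ne_zero this
  split_ifs with h
  · have h0 : ((j - 2 * k : ℤ) : ℂ) = 0 := by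
      rw [h, sub_self, Int.cast_zero]
    simp only [h0, zero_mul, Complex.exp_zero]
    rw [intervalIntegral.integral_const, sub_zero, Complex.real_smul, mul_one]
    push_cast
    exact inv_mul_cancel₀ hpi
  · have h0 : ((j - 2 * k : ℤ) : ℂ) ≠ 0 := by
      exact_mod_cast sub_ne_zero.2 h
    have hc : ((j - 2 * k : ℤ) : ℂ) * Complex.I ≠ 0 := mul_ne_zero h0 Complex.I_ne_zero
    rw [integral_exp_mul_complex hc]
    have e2 : Complex.exp (((j - 2 * k : ℤ) : ℂ) * Complex.I * ((2 * Real.pi : ℝ) : ℂ)) = 1 := by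
      rw [Complex.exp_eq_one_iff]
      refine ⟨j - 2 * k, ?_⟩
      push_cast
      ring
    rw [e2]
    simp

/-! ### The symbol -/

lemma ip_lp (ξ : ℂ) (p q : ℤ) : PWV.ip ξ (lp p q) = (p : ℝ) * ξ.re + (q : ℝ) * ξ.im := by
  unfold PWV.ip lp
  simp
  ring

lemma ip_add (ξ Y Z : ℂ) : PWV.ip ξ (Y + Z) = PWV.ip ξ Y + PWV.ip ξ Z := by
  unfold PWV.ip
  rw [map_add, mul_add, Complex.add_re]

lemma ip_add' (ξ η Y : ℂ) : PWV.ip (ξ + η) Y = PWV.ip ξ Y + PWV.ip η Y := by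
  unfold PWV.ip
  rw [add_mul, Complex.add_re]

lemma ip_sub' (ξ η Y : ℂ) : PWV.ip (ξ - η) Y = PWV.ip ξ Y - PWV.ip η Y := by
  unfold PWV.ip
  rw [sub_mul, Complex.sub_re]

/-- the Fourier transform of the window -/
lemma window (hP : StmtPds) (m : ℕ) {r : ℕ} (w : Fin r → ℝ) (x : Fin r → ℂ) (ξ : ℂ) :
    pd m ξ * pz w x ξ = ∑ p ∈ IM m, ∑ q ∈ IM m, ∑ i, be m p * be m q *
      (w i * Real.cos (PWV.ip ξ (x i + lp p q))) := by
  have h := hP.2 m ξ
  have hre : ∑ p ∈ IM m, ∑ q ∈ IM m, be m p * be m q *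
      Real.cos ((p : ℝ) * ξ.re + (q : ℝ) * ξ.im) = pd m ξ := by
    have h1 := congrArg Complex.re h
    rw [Complex.ofReal_re] at h1
    rw [← h1]
    simp only [Complex.re_sum, Complex.re_ofReal_mul, Complex.exp_ofReal_mul_I_re]
  have him : ∑ p ∈ IM m, ∑ q ∈ IM m, be m p * be m q *
      Real.sin ((p : ℝ) * ξ.re + (q : ℝ) * ξ.im) = 0 := by
    have h1 := congrArg Complex.im h
    rw [Complex.ofReal_im] at h1
    rw [← h1]
    simp only [Complex.im_sum, Complex.im_ofReal_mul, Complex.exp_ofReal_mul_I_im]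
  have hi : ∀ i, pd m ξ * Real.cos (PWV.ip ξ (x i)) = ∑ p ∈ IM m, ∑ q ∈ IM m,
      be m p * be m q * Real.cos (PWV.ip ξ (x i + lp p q)) := by
    intro i
    have e : ∀ p q : ℤ, be m p * be m q * Real.cos (PWV.ip ξ (x i + lp p q)) =
        Real.cos (PWV.ip ξ (x i)) * (be m p * be m q * Real.cos ((p : ℝ) * ξ.re + (q : ℝ) * ξ.im)) -
        Real.sin (PWV.ip ξ (x i)) *
          (be m p * be m q * Real.sin ((p : ℝ) * ξ.re + (q : ℝ) * ξ.im)) := by
      intro p q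
      rw [ip_add, ip_lp, Real.cos_add]
      ring
    simp only [e, Finset.sum_sub_distrib, ← Finset.mul_sum]
    rw [hre, him]
    ring
  unfold pz
  rw [Finset.mul_sum]
  have hi' : ∀ i, pd m ξ * (w i * Real.cos ((ξ * (starRingEnd ℂ) (x i)).re)) =
      ∑ p ∈ IM m, ∑ q ∈ IM m, be m p * be m q * (w i * Real.cos (PWV.ip ξ (x i + lp p q))) := by
    intro i
    have h1 := hi i
    have e : Real.cos ((ξ * (starRingEnd ℂ) (x i)).re) = Real.cos (PWV.ip ξ (x i)) := rfl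
    rw [e, mul_left_comm, h1, Finset.mul_sum]
    refine Finset.sum_congr rfl fun p _ => ?_
    rw [Finset.mul_sum]
    refine Finset.sum_congr rfl fun q _ => ?_
    ring
  simp only [hi']
  rw [Finset.sum_comm]
  refine Finset.sum_congr rfl fun p _ => ?_
  rw [Finset.sum_comm]

/-- the first part of the symbol -/
lemma first (hP : StmtPds) (M : ℕ) {v : ℂ} (hv : ‖v‖ = 1) (θ : ℝ) :
    ((((Complex.exp (-(θ * Complex.I)) * (starRingEnd ℂ) v).re ^ (2 * M) : ℝ)) : ℂ) =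
      ∑ k ∈ IM M, (be M k : ℂ) * v ^ (2 * k) *
        Complex.exp (((2 * k : ℤ) : ℂ) * θ * Complex.I) := by
  have hv2 : v = Complex.exp (Complex.arg v * Complex.I) := by
    have h1 := Complex.norm_mul_exp_arg_mul_I v
    rw [hv, Complex.ofReal_one, one_mul] at h1
    exact h1.symm
  have h := hP.1 M (2 * (Complex.arg v + θ))
  have e1 : (Complex.exp (-(θ * Complex.I)) * (starRingEnd ℂ) v).re =
      Real.cos (2 * (Complex.arg v + θ) / 2) := by
    have e2 : (starRingEnd ℂ) v = Complex.exp (-(Complex.arg v * Complex.I)) := by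
      conv_lhs => rw [hv2]
      rw [← Complex.exp_conj]
      congr 1
      simp
    rw [e2, ← Complex.exp_add]
    have e3 : -(θ * Complex.I) + -(Complex.arg v * Complex.I) =
        ((-(Complex.arg v + θ) : ℝ) : ℂ) * Complex.I := by
      push_cast
      ring
    rw [e3, Complex.exp_ofReal_mul_I_re, Real.cos_neg]
    congr 1
    ring
  rw [e1, ← h]
  refine Finset.sum_congr rfl fun k _ => ?_
  have e4 : v ^ (2 * k) = Complex.exp (((2 * k : ℤ) : ℂ) * (Complex.arg v * Complex.I)) := by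
    conv_lhs => rw [hv2]
    rw [← Complex.exp_int_mul]
  have e5 : Complex.exp ((k : ℂ) * ((2 * (Complex.arg v + θ) : ℝ) : ℂ) * Complex.I) =
      v ^ (2 * k) * Complex.exp (((2 * k : ℤ) : ℂ) * θ * Complex.I) := by
    rw [e4, ← Complex.exp_add]
    congr 1
    push_cast
    ring
  rw [e5]
  ring

/-- the symbol as a sum -/
lemma symb (hP : StmtPds) (M : ℕ) {r : ℕ} (w : Fin r → ℝ) (x : Fin r → ℂ) {v : ℂ} (hv : ‖v‖ = 1)
    (θ : ℝ) : (sy M w x v θ : ℂ) =
      ∑ k ∈ IM M, (be M k : ℂ) * v ^ (2 * k) * Complex.exp (((2 * k : ℤ) : ℂ) * θ * Complex.I) -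
      ∑ p ∈ IM (4 * M), ∑ q ∈ IM (4 * M), ∑ i,
        ((be (4 * M) p * be (4 * M) q * (w i * (2 * Real.cos (PWV.ip v (x i + lp p q)))) : ℝ) : ℂ)
          * (Real.cos (PWV.ip (Complex.exp (-(θ * Complex.I))) (x i + lp p q)) : ℂ) := by
  rw [← first hP M hv θ]
  have h : pd (4 * M) (Complex.exp (-(θ * Complex.I)) - v) *
        pz w x (Complex.exp (-(θ * Complex.I)) - v) +
      pd (4 * M) (Complex.exp (-(θ * Complex.I)) + v) *
        pz w x (Complex.exp (-(θ * Complex.I)) + v) =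
      ∑ p ∈ IM (4 * M), ∑ q ∈ IM (4 * M), ∑ i,
        (be (4 * M) p * be (4 * M) q * (w i * (2 * Real.cos (PWV.ip v (x i + lp p q)))))
          * Real.cos (PWV.ip (Complex.exp (-(θ * Complex.I))) (x i + lp p q)) := by
    rw [window hP, window hP, ← Finset.sum_add_distrib]
    refine Finset.sum_congr rfl fun p _ => ?_
    rw [← Finset.sum_add_distrib]
    refine Finset.sum_congr rfl fun q _ => ?_
    rw [← Finset.sum_add_distrib]
    refine Finset.sum_congr rfl fun i _ => ?_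
    rw [ip_sub', ip_add', Real.cos_sub, Real.cos_add]
    ring
  unfold sy
  rw [sub_sub, h]
  push_cast
  ring

/-- the cosine and the exponential -/
lemma cos_ee (θ : ℝ) (Y : ℂ) :
    (Real.cos (PWV.ip (Complex.exp (-(θ * Complex.I))) Y) : ℂ) =
      (ee Y (Complex.exp (θ * Complex.I)) + ee Y (-Complex.exp (θ * Complex.I))) / 2 := by
  have e1 : PWV.ip (Complex.exp (-(θ * Complex.I))) Y = (Y * Complex.exp (θ * Complex.I)).re := by
    unfold PWV.ip
    have e2 : Complex.exp (-(θ * Complex.I)) * (starRingEnd ℂ) Y =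
        (starRingEnd ℂ) (Y * Complex.exp (θ * Complex.I)) := by
      rw [map_mul, ← Complex.exp_conj, mul_comm]
      congr 2
      simp
    rw [e2, Complex.conj_re]
  unfold ee
  rw [e1, mul_neg, Complex.neg_re, Complex.ofReal_cos, Complex.cos]
  push_cast
  congr 2
  · rw [mul_comm]
  · congr 1
    ring

/-- the part of even order of the Taylor polynomial -/
def pe (N : ℕ) (Y : ℂ) (θ : ℝ) : ℂ :=
  ∑ j ∈ Finset.Icc (-((2 * N : ℕ) : ℤ)) ((2 * N : ℕ) : ℤ),
    (CN (2 * N) j Y * ((1 + (-1) ^ j) / 2)) * Complex.exp ((j : ℂ) * θ * Complex.I)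

lemma pe_eq (N : ℕ) (Y : ℂ) (θ : ℝ) : pe N Y θ =
    (pp (2 * N) Y (Complex.exp (θ * Complex.I)) + pp (2 * N) Y (-Complex.exp (θ * Complex.I))) / 2 := by
  unfold pe pp
  rw [← Finset.sum_add_distrib, Finset.sum_div]
  refine Finset.sum_congr rfl fun j _ => ?_
  have e1 : (-Complex.exp (θ * Complex.I)) ^ j = (-1) ^ j * Complex.exp (θ * Complex.I) ^ j := by
    rw [neg_eq_neg_one_mul, mul_zpow]
  have e2 : Complex.exp (θ * Complex.I) ^ j = Complex.exp ((j : ℂ) * θ * Complex.I) := by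
    rw [← Complex.exp_int_mul]
    congr 1
    ring
  rw [e1, e2]
  ring

lemma fq_pe (N : ℕ) (Y : ℂ) {k : ℤ} (hk : k ∈ IM N) : fq (pe N Y) k = CN (2 * N) (2 * k) Y := by
  have hk2 : 2 * k ∈ Finset.Icc (-((2 * N : ℕ) : ℤ)) ((2 * N : ℕ) : ℤ) := by
    unfold IM at hk
    rw [Finset.mem_Icc] at hk ⊢
    push_cast
    omega
  unfold pe
  rw [fq_sum _ _ (fun j _ => by fun_prop)]
  simp only [fq_mul, fq_exp]
  rw [Finset.sum_eq_single (2 * k)]
  · rw [if_pos rfl, mul_one, zpow_mul]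
    norm_num
  · intro j _ hj
    rw [if_neg hj, mul_zero]
  · intro h
    exact absurd hk2 h

lemma cont_pe (N : ℕ) (Y : ℂ) : Continuous (pe N Y) := by
  unfold pe
  fun_prop

/-- the total mass of the window -/
lemma mass (hB : StmtBn1) (m : ℕ) {r : ℕ} (w : Fin r → ℝ) (hs : ∑ i, w i = 1) (C : ℝ) :
    ∑ p ∈ IM m, ∑ q ∈ IM m, ∑ i, be m p * be m q * (w i * C) = C := by
  have h1 := (hB m).2.2.2.2.1
  have e : ∀ p q : ℤ, ∑ i, be m p * be m q * (w i * C) = be m p * (be m q * C) := by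
    intro p q
    rw [← Finset.mul_sum, ← Finset.sum_mul, hs]
    ring
  simp only [e, ← Finset.mul_sum, ← Finset.sum_mul, h1, one_mul]

/-- the trigonometric polynomial with the coefficients `gk` -/
def gG (M N : ℕ) {r : ℕ} (w : Fin r → ℝ) (x : Fin r → ℂ) (v : ℂ) (θ : ℝ) : ℂ :=
  ∑ k ∈ IM M, (be M k : ℂ) * v ^ (2 * k) * Complex.exp (((2 * k : ℤ) : ℂ) * θ * Complex.I) -
      ∑ p ∈ IM (4 * M), ∑ q ∈ IM (4 * M), ∑ i,
        ((be (4 * M) p * be (4 * M) q * (w i * (2 * Real.cos (PWV.ip v (x i + lp p q)))) : ℝ) : ℂ)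
          * pe N (x i + lp p q) θ

lemma fq_gG (hB : StmtBn1) (M N : ℕ) {r : ℕ} (w : Fin r → ℝ) (x : Fin r → ℂ) (v : ℂ) {k : ℤ}
    (hk : k ∈ IM N) : fq (gG M N w x v) k = gk M N w x v k := by
  unfold gG gk
  have c1 : Continuous fun θ : ℝ => ∑ k ∈ IM M, (be M k : ℂ) * v ^ (2 * k) *
      Complex.exp (((2 * k : ℤ) : ℂ) * θ * Complex.I) := by fun_prop
  have c2 : ∀ (p q : ℤ) (i : Fin r), Continuous fun θ : ℝ =>
      ((be (4 * M) p * be (4 * M) q * (w i * (2 * Real.cos (PWV.ip v (x i + lp p q)))) : ℝ) : ℂ)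
          * pe N (x i + lp p q) θ := fun p q i => continuous_const.mul (cont_pe N _)
  have c3 : ∀ (p q : ℤ), Continuous fun θ : ℝ => ∑ i : Fin r,
      ((be (4 * M) p * be (4 * M) q * (w i * (2 * Real.cos (PWV.ip v (x i + lp p q)))) : ℝ) : ℂ)
          * pe N (x i + lp p q) θ := fun p q => continuous_finsetSum _ fun i _ => c2 p q i
  have c4 : ∀ (p : ℤ), Continuous fun θ : ℝ => ∑ q ∈ IM (4 * M), ∑ i : Fin r,
      ((be (4 * M) p * be (4 * M) q * (w i * (2 * Real.cos (PWV.ip v (x i + lp p q)))) : ℝ) : ℂ)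
          * pe N (x i + lp p q) θ := fun p => continuous_finsetSum _ fun q _ => c3 p q
  rw [fq_sub c1 (continuous_finsetSum _ fun p _ => c4 p)]
  congr 1
  · rw [fq_sum _ _ (fun j _ => by fun_prop)]
    simp only [fq_mul, fq_exp]
    by_cases h : k ∈ IM M
    · rw [Finset.sum_eq_single k]
      · rw [if_pos rfl, mul_one]
      · intro j _ hj
        rw [if_neg (fun h => hj (by omega)), mul_zero]
      · intro h'
        exact absurd h h'
    · have h0 : be M k = 0 := by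
        refine (hB M).2.2.1 k ?_
        unfold IM at h
        rw [Finset.mem_Icc] at h
        rw [lt_abs]
        omega
      rw [h0, Complex.ofReal_zero, zero_mul]
      refine Finset.sum_eq_zero fun j hj => ?_
      rw [if_neg, mul_zero]
      intro h'
      have : j = k := by omega
      rw [this] at hj
      exact h hj
  · rw [fq_sum _ _ (fun p _ => c4 p)]
    refine Finset.sum_congr rfl fun p _ => ?_
    rw [fq_sum _ _ (fun q _ => c3 p q)]
    refine Finset.sum_congr rfl fun q _ => ?_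
    rw [fq_sum _ _ (fun i _ => c2 p q i)]
    refine Finset.sum_congr rfl fun i _ => ?_
    rw [fq_mul, fq_pe N _ hk]

lemma cont_sy (M : ℕ) {r : ℕ} (w : Fin r → ℝ) (x : Fin r → ℂ) (v : ℂ) :
    Continuous (sy M w x v) := by
  have h1 : Continuous fun θ : ℝ => Complex.exp (-(θ * Complex.I)) := by fun_prop
  have hd : Continuous (pd (4 * M)) := by
    unfold pd
    fun_prop
  have hz : Continuous (pz w x) := by
    unfold pz
    fun_prop
  unfold sy
  fun_prop

lemma diff_le (hB : StmtBn1) (hP : StmtPds) (M N : ℕ) {r : ℕ} (w : Fin r → ℝ) (x : Fin r → ℂ)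
    (hw : ∀ i, 0 ≤ w i) (hs : ∑ i, w i = 1) {R : ℝ}
    (hR : ∀ p ∈ IM (4 * M), ∀ q ∈ IM (4 * M), ∀ i, ‖x i + lp p q‖ ≤ R) {v : ℂ} (hv : ‖v‖ = 1)
    {k : ℤ} (hk : k ∈ IM N) :
    ‖gk M N w x v k - ck M w x v k‖ ≤ 2 * (Real.exp (4 * R) / 4 ^ (2 * N + 1)) := by
  have hck : ck M w x v k = fq (fun θ => (sy M w x v θ : ℂ)) k := rfl
  have cG : Continuous (gG M N w x v) := by
    unfold gG
    refine Continuous.sub (by fun_prop) ?_
    exact continuous_finsetSum _ fun p _ => continuous_finsetSum _ fun q _ =>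
      continuous_finsetSum _ fun i _ => continuous_const.mul (cont_pe N _)
  have cs : Continuous fun θ => (sy M w x v θ : ℂ) :=
    Complex.continuous_ofReal.comp (cont_sy M w x v)
  rw [← fq_gG hB M N w x v hk, hck, ← fq_sub cG cs]
  refine fq_le (fun θ => ?_) k
  rw [symb hP M w x hv θ]
  unfold gG
  rw [sub_sub_sub_cancel_left, ← Finset.sum_sub_distrib]
  set η := Real.exp (4 * R) / 4 ^ (2 * N + 1) with hη
  have hbe := (hB (4 * M)).1
  refine le_trans ?_ (le_of_eq (mass hB (4 * M) w hs (2 * η)))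
  refine (norm_sum_le _ _).trans (Finset.sum_le_sum fun p hp => ?_)
  rw [← Finset.sum_sub_distrib]
  refine (norm_sum_le _ _).trans (Finset.sum_le_sum fun q hq => ?_)
  rw [← Finset.sum_sub_distrib]
  refine (norm_sum_le _ _).trans (Finset.sum_le_sum fun i _ => ?_)
  rw [← mul_sub, norm_mul, Complex.norm_real, Real.norm_eq_abs, abs_mul, abs_mul, abs_mul, abs_mul,
    abs_of_nonneg (hbe p), abs_of_nonneg (hbe q), abs_of_nonneg (hw i), abs_two]
  have h1 : ‖(Real.cos (PWV.ip (Complex.exp (-(θ * Complex.I))) (x i + lp p q)) : ℂ) -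
      pe N (x i + lp p q) θ‖ ≤ η := by
    rw [cos_ee, pe_eq]
    have hn : ‖Complex.exp (θ * Complex.I)‖ = 1 := Complex.norm_exp_ofReal_mul_I θ
    have a1 := ee_pp (w := Complex.exp (θ * Complex.I)) hn (hR p hp q hq i) (2 * N)
    have a2 := ee_pp (w := -Complex.exp (θ * Complex.I)) (by rw [norm_neg]; exact hn)
      (hR p hp q hq i) (2 * N)
    have e : (ee (x i + lp p q) (Complex.exp (θ * Complex.I)) +
          ee (x i + lp p q) (-Complex.exp (θ * Complex.I))) / 2 -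
        (pp (2 * N) (x i + lp p q) (Complex.exp (θ * Complex.I)) +
          pp (2 * N) (x i + lp p q) (-Complex.exp (θ * Complex.I))) / 2 =
        ((ee (x i + lp p q) (Complex.exp (θ * Complex.I)) -
          pp (2 * N) (x i + lp p q) (Complex.exp (θ * Complex.I))) +
        (ee (x i + lp p q) (-Complex.exp (θ * Complex.I)) -
          pp (2 * N) (x i + lp p q) (-Complex.exp (θ * Complex.I)))) / 2 := by ring
    rw [e, norm_div, Complex.norm_ofNat]
    have := norm_add_le (ee (x i + lp p q) (Complex.exp (θ * Complex.I)) -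
          pp (2 * N) (x i + lp p q) (Complex.exp (θ * Complex.I)))
        (ee (x i + lp p q) (-Complex.exp (θ * Complex.I)) -
          pp (2 * N) (x i + lp p q) (-Complex.exp (θ * Complex.I)))
    rw [div_le_iff₀ (by norm_num)]
    linarith
  have h2 : |Real.cos (PWV.ip v (x i + lp p q))| ≤ 1 := Real.abs_cos_le_one _
  have hη0 : 0 ≤ η := by positivity
  have h3 : be (4 * M) p * be (4 * M) q * (w i * (2 * |Real.cos (PWV.ip v (x i + lp p q))|)) ≤
      be (4 * M) p * be (4 * M) q * (w i * 2) := by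
    have := hbe p
    have := hbe q
    have := hw i
    have : 2 * |Real.cos (PWV.ip v (x i + lp p q))| ≤ 2 := by linarith
    gcongr
  calc be (4 * M) p * be (4 * M) q * (w i * (2 * |Real.cos (PWV.ip v (x i + lp p q))|)) * _
      ≤ be (4 * M) p * be (4 * M) q * (w i * 2) * η := by
        refine mul_le_mul h3 h1 (norm_nonneg _) ?_
        have := hbe p
        have := hbe q
        have := hw i
        positivity
    _ = be (4 * M) p * be (4 * M) q * (w i * (2 * η)) := by ring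

lemma num (N : ℕ) : (2 * (N : ℝ) + 1) * (1 + (N : ℝ) ^ 2) ≤ 4 ^ (2 * N) := by
  have h1 : (1 : ℝ) + (N : ℝ) * 3 ≤ (1 + 3) ^ N := by
    have := one_add_mul_le_pow (a := (3 : ℝ)) (by norm_num) N
    linarith
  have h2 : (1 : ℝ) + (N : ℝ) * 1 ≤ (1 + 1) ^ N := by
    have := one_add_mul_le_pow (a := (1 : ℝ)) (by norm_num) N
    linarith
  have hN : (0 : ℝ) ≤ N := Nat.cast_nonneg N
  have h3 : (2 * (N : ℝ) + 1) ≤ 4 ^ N := by
    have : ((1 : ℝ) + 3) ^ N = 4 ^ N := by norm_num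
    rw [this] at h1
    linarith
  have h4 : (1 + (N : ℝ) ^ 2) ≤ 4 ^ N := by
    have e : (4 : ℝ) ^ N = ((1 + 1) ^ N) ^ 2 := by
      rw [← pow_mul, mul_comm, pow_mul]
      norm_num
    rw [e]
    nlinarith
  rw [two_mul N, pow_add]
  exact mul_le_mul h3 h4 (by positivity) (by positivity)

end GKB

open GKB in
theorem t_GKB (hB : StmtBn1) (hP : StmtPds) (hS : StmtSym) : StmtGkb := by
  intro r w x hw hs δ hδ
  obtain ⟨M₀, hM₀⟩ := hS r w x hw hs (δ / 4) (by positivity)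
  refine ⟨M₀, fun M hM => ?_⟩
  obtain ⟨R, hR⟩ : ∃ R : ℝ, ∀ p ∈ IM (4 * M), ∀ q ∈ IM (4 * M), ∀ i, ‖x i + lp p q‖ ≤ R := by
    refine ⟨∑ p ∈ IM (4 * M), ∑ q ∈ IM (4 * M), ∑ i, ‖x i + lp p q‖, fun p hp q hq i => ?_⟩
    have h1 : ‖x i + lp p q‖ ≤ ∑ i, ‖x i + lp p q‖ :=
      Finset.single_le_sum (f := fun i => ‖x i + lp p q‖) (fun i _ => norm_nonneg _)
        (Finset.mem_univ i)
    have h2 : ∑ i, ‖x i + lp p q‖ ≤ ∑ q ∈ IM (4 * M), ∑ i, ‖x i + lp p q‖ :=
      Finset.single_le_sum (f := fun q => ∑ i, ‖x i + lp p q‖)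
        (fun q _ => Finset.sum_nonneg fun i _ => norm_nonneg _) hq
    have h3 : ∑ q ∈ IM (4 * M), ∑ i, ‖x i + lp p q‖ ≤
        ∑ p ∈ IM (4 * M), ∑ q ∈ IM (4 * M), ∑ i, ‖x i + lp p q‖ :=
      Finset.single_le_sum (f := fun p => ∑ q ∈ IM (4 * M), ∑ i, ‖x i + lp p q‖)
        (fun p _ => Finset.sum_nonneg fun q _ => Finset.sum_nonneg fun i _ => norm_nonneg _) hp
    exact h1.trans (h2.trans h3)
  have hE : 0 < Real.exp (4 * R) := Real.exp_pos _
  obtain ⟨N₀, hN₀⟩ := exists_pow_lt_of_lt_one (show 0 < δ / (16 * Real.exp (4 * R) ^ 2) by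
    positivity) (show (1 / 4 : ℝ) < 1 by norm_num)
  refine ⟨N₀, fun N hN v hv => ?_⟩
  have hsym := hM₀ M hM v hv N
  set η := Real.exp (4 * R) / 4 ^ (2 * N + 1) with hη
  have hη0 : 0 ≤ η := by positivity
  have hterm : ∀ k ∈ IM N, (1 + (k : ℝ) ^ 2) * ‖gk M N w x v k‖ ^ 2 ≤
      2 * ((1 + (k : ℝ) ^ 2) * ‖ck M w x v k‖ ^ 2) + 2 * ((1 + (N : ℝ) ^ 2) * (2 * η) ^ 2) := by
    intro k hk
    have h1 := diff_le hB hP M N w x hw hs hR hv hk
    have h2 : ‖gk M N w x v k‖ ≤ ‖ck M w x v k‖ + 2 * η := by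
      have := norm_add_le (ck M w x v k) (gk M N w x v k - ck M w x v k)
      rw [add_sub_cancel] at this
      linarith
    have h3 : ‖gk M N w x v k‖ ^ 2 ≤ 2 * ‖ck M w x v k‖ ^ 2 + 2 * (2 * η) ^ 2 := by
      have h4 : ‖gk M N w x v k‖ ^ 2 ≤ (‖ck M w x v k‖ + 2 * η) ^ 2 :=
        pow_le_pow_left₀ (norm_nonneg _) h2 2
      nlinarith [sq_nonneg (‖ck M w x v k‖ - 2 * η)]
    have hk2 : (k : ℝ) ^ 2 ≤ (N : ℝ) ^ 2 := by
      unfold IM at hk
      rw [Finset.mem_Icc] at hk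
      have a1 : (-(N : ℝ)) ≤ k := by exact_mod_cast hk.1
      have a2 : (k : ℝ) ≤ N := by exact_mod_cast hk.2
      exact sq_le_sq' a1 a2
    have hk0 : 0 ≤ (k : ℝ) ^ 2 := sq_nonneg _
    have h5 : (1 + (k : ℝ) ^ 2) * ‖gk M N w x v k‖ ^ 2 ≤
        (1 + (k : ℝ) ^ 2) * (2 * ‖ck M w x v k‖ ^ 2 + 2 * (2 * η) ^ 2) :=
      mul_le_mul_of_nonneg_left h3 (by positivity)
    have h6 : (1 + (k : ℝ) ^ 2) * (2 * η) ^ 2 ≤ (1 + (N : ℝ) ^ 2) * (2 * η) ^ 2 :=
      mul_le_mul_of_nonneg_right (by linarith) (by positivity)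
    linarith
  have hcard : ((IM N).card : ℝ) = 2 * N + 1 := by
    unfold IM
    rw [Int.card_Icc]
    have : ((N : ℤ) + 1 - -(N : ℤ)).toNat = 2 * N + 1 := by omega
    rw [this]
    push_cast
    ring
  have hlast : (2 * (N : ℝ) + 1) * (2 * ((1 + (N : ℝ) ^ 2) * (2 * η) ^ 2)) ≤ δ / 2 := by
    have h1 := num N
    have e1 : η ^ 2 * 4 ^ (2 * N) = Real.exp (4 * R) ^ 2 * (1 / 4) ^ (2 * N + 2) := by
      rw [hη, div_pow, ← pow_mul, one_div, inv_pow]
      rw [div_mul_eq_mul_div, div_eq_mul_inv, mul_assoc]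
      congr 1
      have e2 : (2 * N + 1) * 2 = 2 * N + (2 * N + 2) := by ring
      rw [e2, pow_add 4 (2 * N), mul_inv, ← mul_assoc, mul_inv_cancel₀ (by positivity), one_mul]
    have h2 : (1 / 4 : ℝ) ^ (2 * N + 2) ≤ (1 / 4) ^ N₀ :=
      pow_le_pow_of_le_one (by norm_num) (by norm_num) (by omega)
    have h3 : Real.exp (4 * R) ^ 2 * (1 / 4 : ℝ) ^ (2 * N + 2) ≤ δ / 16 := by
      have h4 : (1 / 4 : ℝ) ^ (2 * N + 2) ≤ δ / (16 * Real.exp (4 * R) ^ 2) := h2.trans hN₀.le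
      rw [le_div_iff₀ (by positivity)] at h4
      linarith
    calc (2 * (N : ℝ) + 1) * (2 * ((1 + (N : ℝ) ^ 2) * (2 * η) ^ 2))
        = 8 * (((2 * (N : ℝ) + 1) * (1 + (N : ℝ) ^ 2)) * η ^ 2) := by ring
      _ ≤ 8 * (4 ^ (2 * N) * η ^ 2) := by gcongr
      _ = 8 * (Real.exp (4 * R) ^ 2 * (1 / 4) ^ (2 * N + 2)) := by rw [← e1]; ring
      _ ≤ 8 * (δ / 16) := by gcongr
      _ = δ / 2 := by ring
  calc ∑ k ∈ IM N, (1 + (k : ℝ) ^ 2) * ‖gk M N w x v k‖ ^ 2
      ≤ ∑ k ∈ IM N, (2 * ((1 + (k : ℝ) ^ 2) * ‖ck M w x v k‖ ^ 2) +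
          2 * ((1 + (N : ℝ) ^ 2) * (2 * η) ^ 2)) := Finset.sum_le_sum hterm
    _ = 2 * ∑ k ∈ IM N, (1 + (k : ℝ) ^ 2) * ‖ck M w x v k‖ ^ 2 +
        (2 * (N : ℝ) + 1) * (2 * ((1 + (N : ℝ) ^ 2) * (2 * η) ^ 2)) := by
        rw [Finset.sum_add_distrib, ← Finset.mul_sum, Finset.sum_const, nsmul_eq_mul, hcard]
    _ ≤ 2 * (δ / 4) + δ / 2 := by gcongr
    _ = δ := by ring

end

end PKM
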