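import Pool.Agent.PKM.St2b
import Pool.Agent.PKM.JBD

/-!
# The four-jet integrals of even order, for general directional measures (module JFG)
-/

open Complex MeasureTheory Filter Topology Set
open UpperHalfPlane hiding I
open scoped ContDiff MatrixGroups ProbabilityTheory ENNReal

namespace PKM

open QE QE.NC QJ U3 NFP BSL

noncomputable section

namespace JFG

/-! ### one pair of directions -/

lemma int_zp (m : Measure S1) [IsFiniteMeasure m] (j : ℤ) :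
    Integrable (fun w : S1 => (w : ℂ) ^ j) m :=
  Integrable.of_bound (STRUCT.cont_zpow j).aestronglyMeasurable 1
    (Eventually.of_forall fun w => (STRUCT.norm_zp j w).le)

lemma conj_zp (w : S1) (j : ℤ) : (starRingEnd ℂ) ((w : ℂ) ^ j) = (w : ℂ) ^ (-j) := by
  rw [map_zpow₀, zpow_neg, ← inv_zpow]
  congr 1
  exact IDENT.conj_eq_inv w

lemma cof_neg (m : Measure S1) (j : ℤ) : cof m (-j) = (starRingEnd ℂ) (cof m j) := by
  unfold cof
  rw [← integral_conj]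
  refine integral_congr_ae (Eventually.of_forall fun w => ?_)
  beta_reduce
  rw [conj_zp]

lemma div_zp (w w' : S1) (j : ℤ) :
    ((w / w' : S1) : ℂ) ^ j = (w : ℂ) ^ j * (w' : ℂ) ^ (-j) := by
  rw [Metric.unitSphere.coe_div, div_zpow, zpow_neg, div_eq_mul_inv]

/-- the integral over the pairs of directions -/
lemma dir_ck (m : Measure S1) [IsFiniteMeasure m] (j : ℤ) :
    ∫ w : S1, ∫ w' : S1, CRM.ck j ((w / w' : S1) : ℂ) ∂m ∂m = ‖cof m j‖ ^ 2 := by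
  have e1 : ∀ w : S1, ∫ w' : S1, CRM.ck j ((w / w' : S1) : ℂ) ∂m = ((w : ℂ) ^ j * cof m j).re := by
    intro w
    have h1 : Integrable (fun w' : S1 => (w : ℂ) ^ j * (w' : ℂ) ^ (-j)) m :=
      (int_zp m (-j)).const_mul _
    have h2 := Complex.reCLM.integral_comp_comm h1
    rw [integral_const_mul] at h2
    refine Eq.trans ?_ h2
    refine integral_congr_ae (Eventually.of_forall fun w' => ?_)
    beta_reduce
    unfold CRM.ck
    rw [div_zp]
    rfl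
  simp only [e1]
  have h1 : Integrable (fun w : S1 => (w : ℂ) ^ j * cof m j) m := (int_zp m j).mul_const _
  have h2 := Complex.reCLM.integral_comp_comm h1
  rw [integral_mul_const] at h2
  have h3 : ∫ w : S1, (w : ℂ) ^ j ∂m = (starRingEnd ℂ) (cof m j) := by
    rw [← cof_neg]
    unfold cof
    rw [neg_neg]
  rw [h3, mul_comm, Complex.mul_conj, Complex.normSq_eq_norm_sq] at h2
  exact h2

section

variable {ρ : ℍ → ℝ} {s : ProbabilityTheory.Kernel ℍ S1}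

lemma norm_um (s : ProbabilityTheory.Kernel ℍ S1) (j : ℤ) (z : ℂ) :
    ‖um s j z‖ = ‖cof (s (ofComplex z)) j‖ := by
  unfold um
  rw [norm_mul, norm_zpow, Complex.norm_I, one_zpow, one_mul]

lemma cont_ck (j : ℤ) : Continuous fun p : (ℍ × S1) × S1 => CRM.ck j ((p.1.2 / p.2 : S1) : ℂ) := by
  unfold CRM.ck
  exact Complex.continuous_re.comp ((STRUCT.cont_zpow j).comp (continuous_snd.comp IDENT.cont_qq))

lemma cont_F {ζ : ℂ → ℝ} (hρ : Continuous ρ) (hζ : Test UH (fun z => (ζ z : ℂ))) (j : ℤ) :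
    Continuous fun p : (ℍ × S1) × S1 =>
      ζ p.1.1 * (gr ρ p.1.1)⁻¹ * CRM.ck j ((p.1.2 / p.2 : S1) : ℂ) :=
  (((JBD.cont_zeta hζ).comp (UpperHalfPlane.continuous_coe.comp
    (continuous_fst.comp continuous_fst))).mul
    ((JBD.cont_grinv hρ).comp (continuous_fst.comp continuous_fst))).mul (cont_ck j)

lemma intg_F (hρ : Continuous ρ) (hs : ∀ z, IsFiniteMeasure (s z))
    (hl : LocL2 UH (fun z => (ma s z : ℂ))) {ζ : ℂ → ℝ} (hζ : Test UH (fun z => (ζ z : ℂ)))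
    (j : ℤ) : Integrable (fun p : (ℍ × S1) × S1 =>
      ζ p.1.1 * (gr ρ p.1.1)⁻¹ * CRM.ck j ((p.1.2 / p.2 : S1) : ℂ)) (IDENT.pm ρ s) := by
  refine JBD.pm_intg hρ hs hl (cont_F hρ hζ j) hζ.supp hζ.sub fun p hp => ?_
  have := image_eq_zero_of_notMem_tsupport hp
  have h1 : ζ p.1.1 = 0 := Complex.ofReal_eq_zero.1 this
  rw [h1, zero_mul, zero_mul]

/-- the moments over the pairs of directions, in the plane -/
lemma pm_ck (hρ : Continuous ρ) (hs : ∀ z, IsFiniteMeasure (s z))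
    (hl : LocL2 UH (fun z => (ma s z : ℂ))) {ζ : ℂ → ℝ} (hζ : Test UH (fun z => (ζ z : ℂ)))
    (j : ℤ) :
    ∫ p, ζ p.1.1 * (gr ρ p.1.1)⁻¹ * CRM.ck j ((p.1.2 / p.2 : S1) : ℂ) ∂(IDENT.pm ρ s)
      = vv ζ s j := by
  have hsf := STRUCT.sfinite s fun z => measure_lt_top _ _
  have hF := intg_F hρ hs hl hζ j
  unfold IDENT.pm at hF ⊢
  rw [Measure.integral_compProd hF]
  have hF2 : Integrable (fun q : ℍ × S1 => ∫ w' : S1,
      ζ q.1 * (gr ρ q.1)⁻¹ * CRM.ck j ((q.2 / w' : S1) : ℂ)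
      ∂((s.comap Prod.fst measurable_fst : ProbabilityTheory.Kernel (ℍ × S1) S1) q))
      ((Berry.area ρ) ⊗ₘ s) := by
    have h1 := hF.integral_compProd
    exact h1
  rw [Measure.integral_compProd hF2]
  have e1 : ∀ z : ℍ, ∫ w : S1, ∫ w' : S1, ζ z * (gr ρ z)⁻¹ * CRM.ck j ((w / w' : S1) : ℂ)
      ∂((s.comap Prod.fst measurable_fst : ProbabilityTheory.Kernel (ℍ × S1) S1) (z, w)) ∂(s z)
      = ζ z * (gr ρ z)⁻¹ * ‖cof (s z) j‖ ^ 2 := by
    intro z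
    have := hs z
    rw [← dir_ck (s z) j, ← integral_const_mul]
    refine integral_congr_ae (Eventually.of_forall fun w => ?_)
    beta_reduce
    rw [← integral_const_mul]
    rfl
  have e2 : ∫ z : ℍ, ∫ w : S1, ∫ w' : S1, ζ z * (gr ρ z)⁻¹ * CRM.ck j ((w / w' : S1) : ℂ)
      ∂((s.comap Prod.fst measurable_fst : ProbabilityTheory.Kernel (ℍ × S1) S1) (z, w)) ∂(s z)
      ∂(Berry.area ρ) = ∫ z : ℍ, ζ z * (gr ρ z)⁻¹ * ‖cof (s z) j‖ ^ 2 ∂(Berry.area ρ) :=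
    integral_congr_ae (Eventually.of_forall e1)
  refine Eq.trans e2 ?_
  have e3 := STRUCT.integral_plane hρ hζ (fun z => ((‖cof (s z) j‖ ^ 2 : ℝ) : ℂ))
  unfold vv
  apply Complex.ofReal_injective
  rw [← integral_complex_ofReal, ← integral_complex_ofReal]
  have e4 : ∫ z : ℂ, ((ζ z * ‖um s j z‖ ^ 2 : ℝ) : ℂ) =
      ∫ z, (ζ z : ℂ) * ((‖cof (s (ofComplex z)) j‖ ^ 2 : ℝ) : ℂ) := by
    refine integral_congr_ae (Eventually.of_forall fun z => ?_)
    beta_reduce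
    rw [norm_um]
    push_cast
    rfl
  rw [e4, e3]
  refine integral_congr_ae (Eventually.of_forall fun z => ?_)
  beta_reduce
  rw [JBD.gr_inv]
  push_cast
  rfl

/-- the integrals with respect to the crossing measure -/
lemma cross_gk (hρ : Continuous ρ) (hs : ∀ z, IsFiniteMeasure (s z))
    (hl : LocL2 UH (fun z => (ma s z : ℂ))) {ζ : ℂ → ℝ} (hζ : Test UH (fun z => (ζ z : ℂ)))
    {j : ℤ} (hj : Even j) :
    ∫ p : ℍ × S1, ζ p.1 * (gr ρ p.1)⁻¹ * CRM.gk j p.2 ∂(crossS ρ s) = vv ζ s 0 - vv ζ s j := by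
  have hcG : Continuous fun p : ℍ × S1 => ζ p.1 * (gr ρ p.1)⁻¹ * CRM.gk j p.2 :=
    (((JBD.cont_zeta hζ).comp (UpperHalfPlane.continuous_coe.comp continuous_fst)).mul
      ((JBD.cont_grinv hρ).comp continuous_fst)).mul
      ((IDENT.cont_gk j).comp (continuous_subtype_val.comp continuous_snd))
  have e : crossS ρ s = Measure.map IDENT.qq ((IDENT.pm ρ s).withDensity
    fun p => ENNReal.ofReal (((p.1.2 / p.2 : S1) : ℂ).im ^ 2)) := rfl
  rw [e, integral_map IDENT.cont_qq.measurable.aemeasurable hcG.aestronglyMeasurable,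
    integral_withDensity_eq_integral_toReal_smul IDENT.cont_im.measurable.ennreal_ofReal
      (Eventually.of_forall fun p => ENNReal.ofReal_lt_top), ← pm_ck hρ hs hl hζ 0,
    ← pm_ck hρ hs hl hζ j, ← integral_sub (intg_F hρ hs hl hζ 0) (intg_F hρ hs hl hζ j)]
  refine integral_congr_ae (Eventually.of_forall fun p => ?_)
  have ht : ‖((p.1.2 / p.2 : S1) : ℂ)‖ = 1 := mem_sphere_zero_iff_norm.mp (p.1.2 / p.2 : S1).2
  have h1 := CRN.QUO.key ht (Int.even_iff.1 hj)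
  rw [JBD.s2_eq] at h1
  have h2 : CRM.ck 0 ((p.1.2 / p.2 : S1) : ℂ) = 1 := by
    unfold CRM.ck
    rw [zpow_zero, Complex.one_re]
  have h3 : (ENNReal.ofReal (((p.1.2 / p.2 : S1) : ℂ).im ^ 2)).toReal •
      (ζ (IDENT.qq p).1 * (gr ρ (IDENT.qq p).1)⁻¹ * CRM.gk j (IDENT.qq p).2) =
      ((p.1.2 / p.2 : S1) : ℂ).im ^ 2 *
        (ζ p.1.1 * (gr ρ p.1.1)⁻¹ * CRM.gk j (p.1.2 / p.2 : S1)) := by
    rw [ENNReal.toReal_ofReal (sq_nonneg _), smul_eq_mul]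
    rfl
  refine Eq.trans h3 ?_
  show _ = ζ p.1.1 * (gr ρ p.1.1)⁻¹ * CRM.ck 0 ((p.1.2 / p.2 : S1) : ℂ)
    - ζ p.1.1 * (gr ρ p.1.1)⁻¹ * CRM.ck j ((p.1.2 / p.2 : S1) : ℂ)
  rw [h2]
  linear_combination (-(ζ p.1.1 * (gr ρ p.1.1)⁻¹)) * h1

/-- the integral of the limit -/
lemma lim_eq (hρ : Continuous ρ) (hs : ∀ z, IsFiniteMeasure (s z))
    (hl : LocL2 UH (fun z => (ma s z : ℂ))) {ζ : ℂ → ℝ} (hζ : Test UH (fun z => (ζ z : ℂ)))
    (hfin : ∀ K : Set ℍ, IsCompact K → crossS ρ s (K ×ˢ univ) < ⊤) {a b c d : ℤ}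
    (ha : Even a) (hb : Even b) (hc : Even c) (hd : Even d) :
    ∫ p : ℍ × S1, (ζ p.1 : ℂ) * (((gr ρ p.1)⁻¹ : ℝ) : ℂ)
        * CRM.lk (fun i => (CRM.gk i p.2 : ℂ)) a b c d ∂(crossS ρ s)
      = ((vv ζ s (a + b) + vv ζ s (a + c) + vv ζ s (a + d) - 3 * vv ζ s 0 : ℝ) : ℂ) := by
  have hfm := IDENT.fmc hfin
  have hz : ∀ z : ℍ, (z : ℂ) ∉ tsupport (fun z => (ζ z : ℂ)) → ζ z = 0 := fun z hz =>
    Complex.ofReal_eq_zero.1 (image_eq_zero_of_notMem_tsupport (f := fun z => (ζ z : ℂ)) hz)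
  have hcG : ∀ i : ℤ, Continuous fun p : ℍ × S1 => ζ p.1 * (gr ρ p.1)⁻¹ * CRM.gk i p.2 := fun i =>
    (((JBD.cont_zeta hζ).comp (UpperHalfPlane.continuous_coe.comp continuous_fst)).mul
      ((JBD.cont_grinv hρ).comp continuous_fst)).mul
      ((IDENT.cont_gk i).comp (continuous_subtype_val.comp continuous_snd))
  have hi : ∀ i : ℤ, Integrable (fun p : ℍ × S1 => ζ p.1 * (gr ρ p.1)⁻¹ * CRM.gk i p.2)
      (crossS ρ s) := by
    intro i
    refine (hcG i).integrable_of_hasCompactSupport ?_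
    refine HasCompactSupport.intro ((IDENT.cpt_pre hζ.supp hζ.sub).prod isCompact_univ)
      fun p hp => ?_
    have h1 : ζ p.1 = 0 := hz _ fun hh => hp ⟨hh, mem_univ _⟩
    rw [h1, zero_mul, zero_mul]
  have e1 : ∫ p : ℍ × S1, (ζ p.1 : ℂ) * (((gr ρ p.1)⁻¹ : ℝ) : ℂ)
        * CRM.lk (fun i => (CRM.gk i p.2 : ℂ)) a b c d ∂(crossS ρ s) =
      ((-∫ p : ℍ × S1, (ζ p.1 * (gr ρ p.1)⁻¹ * CRM.gk (a + b) p.2
        + ζ p.1 * (gr ρ p.1)⁻¹ * CRM.gk (a + c) p.2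
        + ζ p.1 * (gr ρ p.1)⁻¹ * CRM.gk (a + d) p.2) ∂(crossS ρ s) : ℝ) : ℂ) := by
    rw [← integral_neg, ← integral_complex_ofReal]
    refine integral_congr_ae (Eventually.of_forall fun p => ?_)
    beta_reduce
    have h1 : CRM.lk (fun i => (CRM.gk i p.2 : ℂ)) a b c d =
        -((CRM.gk (a + b) p.2 : ℂ) + (CRM.gk (a + c) p.2 : ℂ) + (CRM.gk (a + d) p.2 : ℂ)) := by
      unfold CRM.lk
      obtain ⟨a', rfl⟩ := ha
      obtain ⟨b', rfl⟩ := hb
      obtain ⟨c', rfl⟩ := hc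
      obtain ⟨d', rfl⟩ := hd
      rw [if_pos ⟨by omega, by omega, by omega⟩]
    rw [h1]
    push_cast
    ring
  rw [e1]
  congr 1
  have hab : Integrable (fun p : ℍ × S1 => ζ p.1 * (gr ρ p.1)⁻¹ * CRM.gk (a + b) p.2
      + ζ p.1 * (gr ρ p.1)⁻¹ * CRM.gk (a + c) p.2) (crossS ρ s) := (hi _).add (hi _)
  rw [integral_add hab (hi _), integral_add (hi _) (hi _),
    cross_gk hρ hs hl hζ (ha.add hb), cross_gk hρ hs hl hζ (ha.add hc),
    cross_gk hρ hs hl hζ (ha.add hd)]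
  ring

end

lemma cl_even {a b c d : ℤ} (ha : Even a) (hb : Even b) (hc : Even c) (hd : Even d) :
    cl4 a b c d = 1 := by
  obtain ⟨a', rfl⟩ := ha
  obtain ⟨b', rfl⟩ := hb
  obtain ⟨c', rfl⟩ := hc
  obtain ⟨d', rfl⟩ := hd
  unfold cl4
  rw [if_pos ⟨by omega, by omega, by omega⟩]

end JFG

open JFG in
/-- **JFG**: the four-jet integrals of even order, for general directional measures. -/
theorem t_JFG : StmtJfg := by
  intro Γ D ρ φ m s S M V σ φ' A ζ hζ a b c d ha hb hc hd h0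
  have hρ : Continuous ρ := STRUCT.cont_rho S.fac.smooth
  have hζU : Test UH (fun z => (ζ z : ℂ)) := ⟨hζ.smooth, hζ.supp, hζ.sub.trans A.sub⟩
  obtain ⟨ϖ, h1, -, -, h4⟩ := CRM.main S.fac S.loc
    (fun γ hγ n z => S.eig.invariant n γ hγ z) M.sem
  have hϖ : ϖ = crossS ρ s := CRN.stmtL Γ ρ S.fac _ ϖ h1 s M.fin
    (JBD.mass_int hρ M.fin M.loc) rfl
  have hfin := h4.fin
  have t1 := h4.lim V σ φ' A _ hζ a b c d h0
  rw [hϖ] at t1 hfin
  rw [← lim_eq hρ M.fin M.loc hζU hfin ha hb hc hd]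
  simp only [cl_even ha hb hc hd, one_mul] at t1
  exact t1

end

end PKM
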