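import Pool.Agent.PKM.St2a

/-!
# PKM, module LM1: the means of the local mean square, of its tail, and of `D`; integrability
-/

open Complex MeasureTheory Filter Topology Set

namespace PKM

noncomputable section

namespace LM1

variable {X : Type} [MeasurableSpace X] {ν : Measure X}

/-- a measurable function with an integrable bound -/
theorem integ {f g : X → ℝ} (hf : Measurable f) (hg : Integrable g ν) (h : ∀ x, |f x| ≤ g x) :
    Integrable f ν :=
  Integrable.mono' hg hf.aestronglyMeasurable (Filter.Eventually.of_forall h)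

variable {b : X → ℤ → ℂ}

theorem m2 (hm : ∀ k, Measurable fun x => b x k) (k : ℤ) : Measurable fun x => ‖b x k‖ ^ 2 :=
  (hm k).norm.pow_const 2

theorem i2 [IsProbabilityMeasure ν] (hm : ∀ k, Measurable fun x => b x k)
    (hi : ∀ k, Integrable (fun x => ‖b x k‖ ^ 4) ν) (k : ℤ) :
    Integrable (fun x => ‖b x k‖ ^ 2) ν := by
  refine integ (m2 hm k) ((integrable_const (1 : ℝ)).add (hi k)) fun x => ?_
  rw [abs_of_nonneg (by positivity)]
  show ‖b x k‖ ^ 2 ≤ 1 + ‖b x k‖ ^ 4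
  nlinarith [sq_nonneg (‖b x k‖ ^ 2 - 1), sq_nonneg (‖b x k‖ ^ 2)]

theorem i22 (hm : ∀ k, Measurable fun x => b x k)
    (hi : ∀ k, Integrable (fun x => ‖b x k‖ ^ 4) ν) (j k : ℤ) :
    Integrable (fun x => ‖b x j‖ ^ 2 * ‖b x k‖ ^ 2) ν := by
  refine integ ((m2 hm j).mul (m2 hm k)) ((hi j).add (hi k)) fun x => ?_
  rw [abs_of_nonneg (by positivity)]
  show ‖b x j‖ ^ 2 * ‖b x k‖ ^ 2 ≤ ‖b x j‖ ^ 4 + ‖b x k‖ ^ 4
  nlinarith [sq_nonneg (‖b x j‖ ^ 2 - ‖b x k‖ ^ 2), sq_nonneg (‖b x j‖ ^ 2),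
    sq_nonneg (‖b x k‖ ^ 2)]

theorem mx (hm : ∀ k, Measurable fun x => b x k) (M : ℕ) : Measurable fun x => xM M (b x) := by
  unfold xM
  exact Finset.measurable_fun_sum _ fun k _ => (m2 hm k).const_mul _

theorem mt (hm : ∀ k, Measurable fun x => b x k) (M r : ℕ) :
    Measurable fun x => tM M r (b x) := by
  unfold tM
  exact Finset.measurable_fun_sum _ fun k _ => (m2 hm k).const_mul _

theorem msq (hm : ∀ k, Measurable fun x => b x k) (M : ℕ) (s : ℤ) :
    Measurable fun x => sq2 M (b x) s := by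
  unfold sq2
  exact Finset.measurable_fun_sum _ fun j _ => ((hm j).mul (hm (s - j))).const_mul _

theorem mn (hm : ∀ k, Measurable fun x => b x k) (M : ℕ) : Measurable fun x => nM M (b x) := by
  unfold nM
  exact Finset.measurable_fun_sum _ fun s _ => (Finset.measurable_fun_sum _ fun j _ =>
    ((m2 hm j).mul (m2 hm (s - j))).const_mul _).sub (((msq hm M s).norm.pow_const 2).div_const _)

theorem ix [IsProbabilityMeasure ν] (hm : ∀ k, Measurable fun x => b x k)
    (hi : ∀ k, Integrable (fun x => ‖b x k‖ ^ 4) ν) (M : ℕ) :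
    Integrable (fun x => xM M (b x)) ν := by
  unfold xM
  exact integrable_finsetSum _ fun k _ => (i2 hm hi k).const_mul _

theorem it [IsProbabilityMeasure ν] (hm : ∀ k, Measurable fun x => b x k)
    (hi : ∀ k, Integrable (fun x => ‖b x k‖ ^ 4) ν) (M r : ℕ) :
    Integrable (fun x => tM M r (b x)) ν := by
  unfold tM
  exact integrable_finsetSum _ fun k _ => (i2 hm hi k).const_mul _

theorem isq (hm : ∀ k, Measurable fun x => b x k)
    (hi : ∀ k, Integrable (fun x => ‖b x k‖ ^ 4) ν) (M : ℕ) (s : ℤ) :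
    Integrable (fun x => ‖sq2 M (b x) s‖ ^ 2) ν := by
  have h1 : Integrable (fun x => ((IM M).card : ℝ) * ∑ j ∈ IM M,
      (be M j * be M (s - j)) ^ 2 * (‖b x j‖ ^ 2 * ‖b x (s - j)‖ ^ 2)) ν :=
    (integrable_finsetSum _ fun j _ => (i22 hm hi j (s - j)).const_mul _).const_mul _
  refine integ ((msq hm M s).norm.pow_const 2) h1 fun x => ?_
  rw [abs_of_nonneg (by positivity)]
  unfold sq2
  have h2 : ‖∑ j ∈ IM M, ((be M j * be M (s - j) : ℝ) : ℂ) * (b x j * b x (s - j))‖ ≤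
      ∑ j ∈ IM M, ‖((be M j * be M (s - j) : ℝ) : ℂ) * (b x j * b x (s - j))‖ :=
    norm_sum_le _ _
  refine (pow_le_pow_left₀ (norm_nonneg _) h2 2).trans ?_
  refine (sq_sum_le_card_mul_sum_sq).trans (le_of_eq ?_)
  congr 1
  refine Finset.sum_congr rfl fun j _ => ?_
  rw [norm_mul, norm_mul, Complex.norm_real, mul_pow, mul_pow, Real.norm_eq_abs, sq_abs]

theorem inn (hm : ∀ k, Measurable fun x => b x k)
    (hi : ∀ k, Integrable (fun x => ‖b x k‖ ^ 4) ν) (M : ℕ) :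
    Integrable (fun x => nM M (b x)) ν := by
  unfold nM
  exact integrable_finsetSum _ fun s _ => (integrable_finsetSum _ fun j _ =>
    (i22 hm hi j (s - j)).const_mul _).sub ((isq hm hi M s).div_const _)

theorem iD (hm : ∀ k, Measurable fun x => b x k)
    (hi : ∀ k, Integrable (fun x => ‖b x k‖ ^ 4) ν) (M : ℕ) :
    Integrable (fun x => (‖b x 0‖ ^ 2 - xM M (b x)) ^ 2) ν := by
  have h1 : Integrable (fun x => 2 * ‖b x 0‖ ^ 4 + 2 * (((IM M).card : ℝ) * ∑ k ∈ IM M,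
      be M k ^ 2 * ‖b x k‖ ^ 4)) ν :=
    ((hi 0).const_mul 2).add (((integrable_finsetSum _ fun k _ =>
      (hi k).const_mul _).const_mul _).const_mul 2)
  refine integ (((m2 hm 0).sub (mx hm M)).pow_const 2) h1 fun x => ?_
  rw [abs_of_nonneg (by positivity)]
  have h2 : xM M (b x) ^ 2 ≤ ((IM M).card : ℝ) * ∑ k ∈ IM M, be M k ^ 2 * ‖b x k‖ ^ 4 := by
    unfold xM
    refine (sq_sum_le_card_mul_sum_sq).trans (le_of_eq ?_)
    congr 1
    refine Finset.sum_congr rfl fun k _ => ?_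
    ring
  nlinarith [sq_nonneg (‖b x 0‖ ^ 2 + xM M (b x))]

end LM1

open LM1 in
theorem t_LM1 (hB : StmtBn1) : StmtLm1 := by
  intro X _ ν a v h M r
  have := h.prob
  have hm : ∀ n k, Measurable fun x => a n x k := h.meas
  have hi : ∀ n k, Integrable (fun x => ‖a n x k‖ ^ 4) ν := h.int
  have hsum : ∑ k ∈ IM M, be M k = 1 := (hB M).2.2.2.2.1
  have hx : Tendsto (fun n => ∫ x, xM M (a n x) ∂ν) atTop (𝓝 1) := by
    have e : ∀ n, ∫ x, xM M (a n x) ∂ν = ∑ k ∈ IM M, be M k * ∫ x, ‖a n x k‖ ^ 2 ∂ν := by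
      intro n
      unfold xM
      rw [integral_finsetSum _ fun k _ => (i2 (hm n) (hi n) k).const_mul _]
      exact Finset.sum_congr rfl fun k _ => integral_const_mul _ _
    simp only [e]
    have h1 : Tendsto (fun n => ∑ k ∈ IM M, be M k * ∫ x, ‖a n x k‖ ^ 2 ∂ν) atTop
        (𝓝 (∑ k ∈ IM M, be M k * 1)) :=
      tendsto_finsetSum _ fun k _ => (h.two k).const_mul _
    simpa only [mul_one, hsum] using h1
  refine ⟨fun n => ⟨ix (hm n) (hi n) M, it (hm n) (hi n) M r, inn (hm n) (hi n) M,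
    i2 (hm n) (hi n) 0, iD (hm n) (hi n) M, mx (hm n) M, mt (hm n) M r, mn (hm n) M⟩,
    hx, ?_, ?_⟩
  · have e : ∀ n, ∫ x, tM M r (a n x) ∂ν =
        ∑ k ∈ (IM M).filter (fun k => (r : ℤ) < |k|), be M k * ∫ x, ‖a n x k‖ ^ 2 ∂ν := by
      intro n
      unfold tM
      rw [integral_finsetSum _ fun k _ => (i2 (hm n) (hi n) k).const_mul _]
      exact Finset.sum_congr rfl fun k _ => integral_const_mul _ _
    simp only [e]
    have h1 : Tendsto (fun n => ∑ k ∈ (IM M).filter (fun k => (r : ℤ) < |k|),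
        be M k * ∫ x, ‖a n x k‖ ^ 2 ∂ν) atTop
        (𝓝 (∑ k ∈ (IM M).filter (fun k => (r : ℤ) < |k|), be M k * 1)) :=
      tendsto_finsetSum _ fun k _ => (h.two k).const_mul _
    simpa only [mul_one] using h1
  · have e : ∀ n, ∫ x, (‖a n x 0‖ ^ 2 - xM M (a n x)) ∂ν =
        ∫ x, ‖a n x 0‖ ^ 2 ∂ν - ∫ x, xM M (a n x) ∂ν := fun n =>
      integral_sub (i2 (hm n) (hi n) 0) (ix (hm n) (hi n) M)
    simp only [e]
    have h1 := (h.two 0).sub hx
    rwa [sub_self] at h1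

end

end PKM
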