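import Pool.Agent.PKM.St2a

/-!
# PKM: the mean of the null form, the fourth moments cancel (module LM2, MP_4fa179_mp, helper54)
-/

set_option autoImplicit false

open Complex MeasureTheory Filter Topology Set

namespace PKM

noncomputable section

namespace LM2

/-- the products of the weights -/
def bt (M : ℕ) (s j : ℤ) : ℝ := be M j * be M (s - j)

/-- the linear functional of the null form, complex -/
def Dc (M : ℕ) (s : ℤ) (c : ℤ → ℤ → ℂ) : ℂ :=
  ∑ j ∈ IM M, (bt M s j : ℂ) * c j j -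
    ((be (2 * M) s : ℝ) : ℂ)⁻¹ * ∑ j ∈ IM M, ∑ l ∈ IM M, ((bt M s j : ℂ) * (bt M s l : ℂ)) * c j l

/-- the linear functional of the null form, real -/
def Dr (M : ℕ) (s : ℤ) (c : ℤ → ℤ → ℝ) : ℝ :=
  ∑ j ∈ IM M, bt M s j * c j j -
    (be (2 * M) s)⁻¹ * ∑ j ∈ IM M, ∑ l ∈ IM M, (bt M s j * bt M s l) * c j l

theorem Dc_ofReal (M : ℕ) (s : ℤ) (c : ℤ → ℤ → ℝ) :
    Dc M s (fun j l => ((c j l : ℝ) : ℂ)) = ((Dr M s c : ℝ) : ℂ) := by
  unfold Dc Dr
  push_cast
  rfl

theorem sum_bt (h1 : StmtBn1) (M : ℕ) (s : ℤ) : ∑ j ∈ IM M, bt M s j = be (2 * M) s :=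
  (h1 M).2.2.2.2.2.2.2.2 s

theorem bt_nonneg (h1 : StmtBn1) (M : ℕ) (s j : ℤ) : 0 ≤ bt M s j :=
  mul_nonneg ((h1 M).1 j) ((h1 M).1 (s - j))

/-- the functional kills constants, real -/
theorem Dr_sub (h1 : StmtBn1) (M : ℕ) (s : ℤ) (c : ℤ → ℤ → ℝ) (q : ℝ) :
    Dr M s (fun j l => c j l + q) = Dr M s c := by
  unfold Dr
  have e1 : ∑ j ∈ IM M, bt M s j * (c j j + q) =
      ∑ j ∈ IM M, bt M s j * c j j + be (2 * M) s * q := by
    rw [← sum_bt h1 M s, Finset.sum_mul, ← Finset.sum_add_distrib]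
    exact Finset.sum_congr rfl fun j _ => by ring
  have e2 : ∑ j ∈ IM M, ∑ l ∈ IM M, (bt M s j * bt M s l) * (c j l + q) =
      ∑ j ∈ IM M, ∑ l ∈ IM M, (bt M s j * bt M s l) * c j l +
        be (2 * M) s * be (2 * M) s * q := by
    have e3 : be (2 * M) s * be (2 * M) s * q =
        ∑ j ∈ IM M, ∑ l ∈ IM M, (bt M s j * bt M s l) * q := by
      rw [← sum_bt h1 M s, Finset.sum_mul_sum, Finset.sum_mul]
      exact Finset.sum_congr rfl fun j _ => by rw [Finset.sum_mul]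
    rw [e3, ← Finset.sum_add_distrib]
    refine Finset.sum_congr rfl fun j _ => ?_
    rw [← Finset.sum_add_distrib]
    exact Finset.sum_congr rfl fun l _ => by ring
  rw [e1, e2]
  by_cases h0 : be (2 * M) s = 0
  · rw [h0]
    ring
  · field_simp
    ring

/-- the functional kills constants, complex -/
theorem Dc_sub (h1 : StmtBn1) (M : ℕ) (s : ℤ) (c : ℤ → ℤ → ℂ) (q : ℂ) :
    Dc M s (fun j l => c j l - q) = Dc M s c := by
  unfold Dc
  have e0 : ∑ j ∈ IM M, (bt M s j : ℂ) = ((be (2 * M) s : ℝ) : ℂ) := by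
    rw [← sum_bt h1 M s]
    push_cast
    rfl
  have e1 : ∑ j ∈ IM M, (bt M s j : ℂ) * (c j j - q) =
      ∑ j ∈ IM M, (bt M s j : ℂ) * c j j - ((be (2 * M) s : ℝ) : ℂ) * q := by
    rw [← e0, Finset.sum_mul, ← Finset.sum_sub_distrib]
    exact Finset.sum_congr rfl fun j _ => by ring
  have e2 : ∑ j ∈ IM M, ∑ l ∈ IM M, ((bt M s j : ℂ) * (bt M s l : ℂ)) * (c j l - q) =
      ∑ j ∈ IM M, ∑ l ∈ IM M, ((bt M s j : ℂ) * (bt M s l : ℂ)) * c j l -
        ((be (2 * M) s : ℝ) : ℂ) * ((be (2 * M) s : ℝ) : ℂ) * q := by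
    have e3 : ((be (2 * M) s : ℝ) : ℂ) * ((be (2 * M) s : ℝ) : ℂ) * q =
        ∑ j ∈ IM M, ∑ l ∈ IM M, ((bt M s j : ℂ) * (bt M s l : ℂ)) * q := by
      rw [← e0, Finset.sum_mul_sum, Finset.sum_mul]
      exact Finset.sum_congr rfl fun j _ => by rw [Finset.sum_mul]
    rw [e3, ← Finset.sum_sub_distrib]
    refine Finset.sum_congr rfl fun j _ => ?_
    rw [← Finset.sum_sub_distrib]
    exact Finset.sum_congr rfl fun l _ => by ring
  rw [e1, e2]
  by_cases h0 : ((be (2 * M) s : ℝ) : ℂ) = 0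
  · rw [h0]
    ring
  · field_simp
    ring

/-- the product of four of the numbers -/
def F (a : ℤ → ℂ) (s j l : ℤ) : ℂ := a j * a (s - j) * (starRingEnd ℂ) (a l * a (s - l))

theorem nM_eq (M : ℕ) (a : ℤ → ℂ) :
    ((nM M a : ℝ) : ℂ) = ∑ s ∈ IM (2 * M), Dc M s (F a s) := by
  unfold nM
  rw [Complex.ofReal_sum]
  refine Finset.sum_congr rfl fun s _ => ?_
  rw [Complex.ofReal_sub, Complex.ofReal_sum, Complex.ofReal_div, Complex.ofReal_pow,
    ← Complex.mul_conj']
  unfold Dc F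
  congr 1
  · refine Finset.sum_congr rfl fun j _ => ?_
    rw [Complex.mul_conj', norm_mul]
    unfold bt
    push_cast
    ring
  · have e1 : sq2 M a s * (starRingEnd ℂ) (sq2 M a s) =
        ∑ j ∈ IM M, ∑ l ∈ IM M, ((bt M s j : ℂ) * (bt M s l : ℂ)) *
          (a j * a (s - j) * (starRingEnd ℂ) (a l * a (s - l))) := by
      unfold sq2
      rw [map_sum, Finset.sum_mul_sum]
      refine Finset.sum_congr rfl fun j _ => Finset.sum_congr rfl fun l _ => ?_
      rw [map_mul, Complex.conj_ofReal]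
      unfold bt
      ring
    rw [e1, div_eq_mul_inv, mul_comm]

theorem four_le (x y z w : ℝ) : x * y * (z * w) ≤ x ^ 4 + y ^ 4 + (z ^ 4 + w ^ 4) := by
  nlinarith [sq_nonneg (x * y - z * w), sq_nonneg (x ^ 2 - y ^ 2), sq_nonneg (z ^ 2 - w ^ 2),
    sq_nonneg (x ^ 2), sq_nonneg (y ^ 2), sq_nonneg (z ^ 2), sq_nonneg (w ^ 2)]

variable {X : Type} [MeasurableSpace X] {ν : Measure X} {a : ℕ → X → ℤ → ℂ} {v : ℤ → ℝ}

theorem intF (hJ : JM ν a v) (n : ℕ) (s j l : ℤ) : Integrable (fun x => F (a n x) s j l) ν := by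
  have hm : Measurable fun x => F (a n x) s j l := by
    unfold F
    exact ((hJ.meas n j).mul (hJ.meas n (s - j))).mul
      (Complex.continuous_conj.measurable.comp ((hJ.meas n l).mul (hJ.meas n (s - l))))
  refine Integrable.mono' (((hJ.int n j).add (hJ.int n (s - j))).add
    ((hJ.int n l).add (hJ.int n (s - l)))) hm.aestronglyMeasurable ?_
  refine Filter.Eventually.of_forall fun x => ?_
  unfold F
  rw [norm_mul, norm_mul, RCLike.norm_conj, norm_mul]
  exact four_le _ _ _ _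

theorem int_eq (hJ : JM ν a v) (M n : ℕ) :
    (((∫ x, nM M (a n x) ∂ν : ℝ)) : ℂ) =
      ∑ s ∈ IM (2 * M), Dc M s (fun j l => ∫ x, F (a n x) s j l ∂ν) := by
  rw [← integral_complex_ofReal]
  simp only [nM_eq]
  have i1 : ∀ s, Integrable (fun x => ∑ j ∈ IM M, (bt M s j : ℂ) * F (a n x) s j j) ν :=
    fun s => integrable_finsetSum _ fun j _ => (intF hJ n s j j).const_mul _
  have i2 : ∀ s, Integrable (fun x => ((be (2 * M) s : ℝ) : ℂ)⁻¹ *
      ∑ j ∈ IM M, ∑ l ∈ IM M, ((bt M s j : ℂ) * (bt M s l : ℂ)) * F (a n x) s j l) ν :=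
    fun s => (integrable_finsetSum _ fun j _ => integrable_finsetSum _ fun l _ =>
      (intF hJ n s j l).const_mul _).const_mul _
  rw [integral_finsetSum]
  · refine Finset.sum_congr rfl fun s _ => ?_
    unfold Dc
    rw [integral_sub (i1 s) (i2 s), integral_const_mul, integral_finsetSum,
      integral_finsetSum]
    · congr 1
      · exact Finset.sum_congr rfl fun j _ => by rw [integral_const_mul]
      · congr 1
        refine Finset.sum_congr rfl fun j _ => ?_
        rw [integral_finsetSum]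
        · exact Finset.sum_congr rfl fun l _ => by rw [integral_const_mul]
        · exact fun l _ => (intF hJ n s j l).const_mul _
    · exact fun j _ => integrable_finsetSum _ fun l _ => (intF hJ n s j l).const_mul _
    · exact fun j _ => (intF hJ n s j j).const_mul _
  · intro s _
    unfold Dc
    exact (i1 s).sub (i2 s)

/-- the limits -/
def g (v : ℤ → ℝ) (s j l : ℤ) : ℝ := v (2 * (j - l)) + v (2 * (j - (s - l))) + (v (2 * s) - 3)

theorem lim (h1 : StmtBn1) (hJ : JM ν a v) (M : ℕ) :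
    Tendsto (fun n => ∫ x, nM M (a n x) ∂ν) atTop (𝓝 (∑ s ∈ IM (2 * M), Dr M s (g v s))) := by
  have key : Tendsto (fun n => (((∫ x, nM M (a n x) ∂ν : ℝ)) : ℂ)) atTop
      (𝓝 (((∑ s ∈ IM (2 * M), Dr M s (g v s) : ℝ)) : ℂ)) := by
    rw [Complex.ofReal_sum]
    simp only [← Dc_ofReal]
    have e1 : (fun n => (((∫ x, nM M (a n x) ∂ν : ℝ)) : ℂ)) = fun n =>
        ∑ s ∈ IM (2 * M), Dc M s (fun j l =>
          (∫ x, F (a n x) s j l ∂ν) - ((∫ x, ‖a n x 0‖ ^ 4 ∂ν : ℝ) : ℂ)) := by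
      funext n
      rw [int_eq hJ M n]
      exact Finset.sum_congr rfl fun s _ => (Dc_sub h1 M s _ _).symm
    rw [e1]
    have lm : ∀ s j l : ℤ, Tendsto (fun n => (∫ x, F (a n x) s j l ∂ν) -
        ((∫ x, ‖a n x 0‖ ^ 4 ∂ν : ℝ) : ℂ)) atTop (𝓝 ((g v s j l : ℝ) : ℂ)) := by
      intro s j l
      have h := hJ.four j (s - j) l (s - l) (by ring)
      have e2 : (v (2 * (j + (s - j))) + v (2 * (j - l)) + v (2 * (j - (s - l))) - 3 : ℝ) =
          g v s j l := by
        unfold g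
        rw [add_sub_cancel]
        ring
      rw [e2] at h
      exact h
    refine tendsto_finsetSum _ fun s _ => ?_
    unfold Dc
    refine Tendsto.sub (tendsto_finsetSum _ fun j _ => (lm s j j).const_mul _)
      (Tendsto.const_mul _ (tendsto_finsetSum _ fun j _ => tendsto_finsetSum _ fun l _ =>
        (lm s j l).const_mul _))
  have h2 := (Complex.continuous_re.tendsto _).comp key
  simpa only [Function.comp_def, Complex.ofReal_re] using h2

/-- the sum over the shifted interval -/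
theorem shift (h1 : StmtBn1) (v : ℤ → ℝ) (M : ℕ) (j : ℤ) (hj : j ∈ IM M) :
    ∑ s ∈ IM (2 * M), bt M s j * v (2 * (j - (s - j))) =
      ∑ t ∈ IM (2 * M), bt M t j * v (2 * t) := by
  have hj' := Finset.mem_Icc.1 hj
  have hsub : Finset.Icc (j - M) (j + M) ⊆ IM (2 * M) := by
    intro s hs
    have := Finset.mem_Icc.1 hs
    refine Finset.mem_Icc.2 ⟨?_, ?_⟩
    · push_cast
      omega
    · push_cast
      omega
  have hz : ∀ s ∉ Finset.Icc (j - (M : ℤ)) (j + M), bt M s j = 0 := by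
    intro s hs
    unfold bt
    rw [(h1 M).2.2.1 (s - j) ?_, mul_zero]
    rw [Finset.mem_Icc] at hs
    by_contra hc
    apply hs
    have := abs_le.1 (not_lt.1 hc)
    constructor
    · omega
    · omega
  rw [← Finset.sum_subset hsub (fun s _ hs => by rw [hz s hs, zero_mul]),
    ← Finset.sum_subset hsub (fun s _ hs => by rw [hz s hs, zero_mul])]
  refine Finset.sum_nbij' (fun s => 2 * j - s) (fun s => 2 * j - s) ?_ ?_ ?_ ?_ ?_
  · intro s hs
    have := Finset.mem_Icc.1 hs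
    exact Finset.mem_Icc.2 ⟨by omega, by omega⟩
  · intro s hs
    have := Finset.mem_Icc.1 hs
    exact Finset.mem_Icc.2 ⟨by omega, by omega⟩
  · intro s _
    ring
  · intro s _
    ring
  · intro s _
    unfold bt
    have e1 : 2 * j - s - j = -(s - j) := by ring
    have e2 : j - (s - j) = 2 * j - s := by ring
    rw [e1, (h1 M).2.1, e2]

theorem bound (h1 : StmtBn1) (hJ : JM ν a v) (M : ℕ) :
    ∑ s ∈ IM (2 * M), Dr M s (g v s) ≤ 1 + wz v M := by
  have h2 : ∀ s : ℤ, Dr M s (g v s) ≤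
      be (2 * M) s + ∑ j ∈ IM M, bt M s j * v (2 * (j - (s - j))) := by
    intro s
    have e1 : Dr M s (g v s) = Dr M s (fun j l => v (2 * (j - l)) + v (2 * (j - (s - l)))) :=
      Dr_sub h1 M s (fun j l => v (2 * (j - l)) + v (2 * (j - (s - l)))) (v (2 * s) - 3)
    rw [e1]
    unfold Dr
    have e2 : 0 ≤ (be (2 * M) s)⁻¹ * ∑ j ∈ IM M, ∑ l ∈ IM M, (bt M s j * bt M s l) *
        (v (2 * (j - l)) + v (2 * (j - (s - l)))) :=
      mul_nonneg (inv_nonneg.2 ((h1 (2 * M)).1 s)) (Finset.sum_nonneg fun j _ =>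
        Finset.sum_nonneg fun l _ => mul_nonneg (mul_nonneg (bt_nonneg h1 M s j)
          (bt_nonneg h1 M s l)) (add_nonneg (hJ.nonneg _) (hJ.nonneg _)))
    have e3 : ∑ j ∈ IM M, bt M s j * (v (2 * (j - j)) + v (2 * (j - (s - j)))) =
        be (2 * M) s + ∑ j ∈ IM M, bt M s j * v (2 * (j - (s - j))) := by
      rw [← sum_bt h1 M s, ← Finset.sum_add_distrib]
      refine Finset.sum_congr rfl fun j _ => ?_
      rw [sub_self, mul_zero, hJ.zero]
      ring
    rw [e3]
    linarith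
  refine (Finset.sum_le_sum fun s _ => h2 s).trans ?_
  rw [Finset.sum_add_distrib, (h1 (2 * M)).2.2.2.2.1]
  refine add_le_add le_rfl ?_
  rw [Finset.sum_comm, Finset.sum_congr rfl (fun j hj => shift h1 v M j hj), Finset.sum_comm]
  unfold wz
  refine Finset.sum_le_sum fun t _ => ?_
  rw [← Finset.sum_mul, sum_bt h1]

end LM2

theorem t_LM2 (h1 : StmtBn1) (_h2 : StmtLm1) : StmtLm2 := by
  intro X _ ν a v hJ M ε hε
  have h3 := LM2.lim h1 hJ M
  have h4 := LM2.bound h1 hJ M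
  have h5 : ∑ s ∈ IM (2 * M), LM2.Dr M s (LM2.g v s) < 1 + wz v M + ε := by linarith
  filter_upwards [h3.eventually (gt_mem_nhds h5)] with n hn
  exact hn.le

end

end PKM
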