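import Pool.Agent.PKM.St2a

/-!
# LM3: the mean square of the difference of the square at the point and the local mean square
-/

open Complex MeasureTheory Filter Topology Set

namespace PKM

noncomputable section

namespace LM3

variable {X : Type} [MeasurableSpace X] {ν : Measure X} {a : ℕ → X → ℤ → ℂ} {v : ℤ → ℝ}

/-- the products of two squares are integrable -/
theorem int_prod (h : JM ν a v) (n : ℕ) (j k : ℤ) :
    Integrable (fun x => ‖a n x j‖ ^ 2 * ‖a n x k‖ ^ 2) ν := by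
  have hm : AEStronglyMeasurable (fun x => ‖a n x j‖ ^ 2 * ‖a n x k‖ ^ 2) ν :=
    (((h.meas n j).norm.pow_const 2).mul ((h.meas n k).norm.pow_const 2)).aestronglyMeasurable
  refine ((h.int n j).add (h.int n k)).mono' hm (Eventually.of_forall fun x => ?_)
  have h1 : 0 ≤ ‖a n x j‖ ^ 2 * ‖a n x k‖ ^ 2 := by positivity
  rw [Real.norm_of_nonneg h1]
  simp only [Pi.add_apply]
  nlinarith [sq_nonneg (‖a n x j‖ ^ 2 - ‖a n x k‖ ^ 2), sq_nonneg (‖a n x j‖ ^ 2),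
    sq_nonneg (‖a n x k‖ ^ 2)]

/-- the limits of the fourth moments -/
theorem lim_prod (h : JM ν a v) (j k : ℤ) :
    Tendsto (fun n => (∫ x, ‖a n x j‖ ^ 2 * ‖a n x k‖ ^ 2 ∂ν) - ∫ x, ‖a n x 0‖ ^ 4 ∂ν) atTop
      (𝓝 (v (2 * (j + k)) + v (2 * (j - k)) - 2)) := by
  have h1 := h.four j k j k rfl
  have h2 : ∀ n, (∫ x, a n x j * a n x k * (starRingEnd ℂ) (a n x j * a n x k) ∂ν)
      = ((∫ x, ‖a n x j‖ ^ 2 * ‖a n x k‖ ^ 2 ∂ν : ℝ) : ℂ) := by
    intro n
    rw [← integral_complex_ofReal]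
    refine integral_congr_ae (Eventually.of_forall fun x => ?_)
    show a n x j * a n x k * (starRingEnd ℂ) (a n x j * a n x k) = _
    rw [Complex.mul_conj', norm_mul]
    push_cast
    ring
  simp_rw [h2, ← Complex.ofReal_sub] at h1
  have h3 := (Complex.continuous_re.tendsto _).comp h1
  simp only [Function.comp_def, Complex.ofReal_re] at h3
  have h4 : v (2 * (j + k)) + v (2 * (j - j)) + v (2 * (j - k)) - 3
      = v (2 * (j + k)) + v (2 * (j - k)) - 2 := by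
    rw [sub_self, mul_zero, h.zero]; ring
  rw [h4] at h3
  exact h3

/-- the convolution of the weights -/
theorem conv_add {M : ℕ} (v : ℤ → ℝ) (bz : ∀ k : ℤ, (M : ℤ) < |k| → be M k = 0)
    (bc : ∀ s : ℤ, ∑ j ∈ IM M, be M j * be M (s - j) = be (2 * M) s) :
    ∑ j ∈ IM M, ∑ k ∈ IM M, be M j * be M k * v (2 * (j + k)) = wz v M := by
  unfold wz
  have h1 : ∀ s ∈ IM (2 * M), be (2 * M) s * v (2 * s)
      = ∑ j ∈ IM M, be M j * be M (s - j) * v (2 * s) := by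
    intro s _
    rw [← bc s, Finset.sum_mul]
  have h0 : ∑ s ∈ IM (2 * M), ∑ j ∈ IM M, be M j * be M (s - j) * v (2 * s)
      = ∑ j ∈ IM M, ∑ s ∈ IM (2 * M), be M j * be M (s - j) * v (2 * s) := Finset.sum_comm
  rw [Finset.sum_congr rfl h1, h0]
  refine Finset.sum_congr rfl fun j hj => ?_
  have hj' : -(M : ℤ) ≤ j ∧ j ≤ M := Finset.mem_Icc.1 hj
  -- substitute `s = j + k`
  have h2 : ∑ k ∈ IM M, be M j * be M k * v (2 * (j + k))
      = ∑ s ∈ (IM M).image (fun k => j + k), be M j * be M (s - j) * v (2 * s) := by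
    rw [Finset.sum_image (fun x _ y _ hxy => by simpa using hxy)]
    refine Finset.sum_congr rfl fun k _ => ?_
    rw [add_sub_cancel_left]
  rw [h2]
  refine Finset.sum_subset ?_ ?_
  · intro s hs
    obtain ⟨k, hk, rfl⟩ := Finset.mem_image.1 hs
    have hk' : -(M : ℤ) ≤ k ∧ k ≤ M := Finset.mem_Icc.1 hk
    refine Finset.mem_Icc.2 ⟨?_, ?_⟩
    · push_cast; omega
    · push_cast; omega
  · intro s _ hs
    have h3 : be M (s - j) = 0 := by
      refine bz _ ?_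
      by_contra h4
      rw [not_lt, abs_le] at h4
      exact hs (Finset.mem_image.2 ⟨s - j, Finset.mem_Icc.2 h4, by ring⟩)
    rw [h3]; ring

/-- the convolution of the weights, with the difference -/
theorem conv_sub {M : ℕ} (v : ℤ → ℝ) (bs : ∀ k, be M (-k) = be M k)
    (bz : ∀ k : ℤ, (M : ℤ) < |k| → be M k = 0)
    (bc : ∀ s : ℤ, ∑ j ∈ IM M, be M j * be M (s - j) = be (2 * M) s) :
    ∑ j ∈ IM M, ∑ k ∈ IM M, be M j * be M k * v (2 * (j - k)) = wz v M := by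
  rw [← conv_add v bz bc]
  refine Finset.sum_congr rfl fun j _ => ?_
  refine Finset.sum_bij' (fun k _ => -k) (fun k _ => -k) ?_ ?_ ?_ ?_ ?_
  · intro k hk
    have hk' : -(M : ℤ) ≤ k ∧ k ≤ M := Finset.mem_Icc.1 hk
    exact Finset.mem_Icc.2 ⟨by omega, by omega⟩
  · intro k hk
    have hk' : -(M : ℤ) ≤ k ∧ k ≤ M := Finset.mem_Icc.1 hk
    exact Finset.mem_Icc.2 ⟨by omega, by omega⟩
  · intro k _; exact neg_neg k
  · intro k _; exact neg_neg k
  · intro k _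
    rw [bs, ← sub_eq_add_neg]

/-- the square of the difference -/
theorem sq_eq {M : ℕ} (b1 : ∑ k ∈ IM M, be M k = 1) (A : ℝ) (B : ℤ → ℝ) :
    (A - ∑ k ∈ IM M, be M k * B k) ^ 2
      = ∑ j ∈ IM M, ∑ k ∈ IM M, be M j * be M k * (B j * B k - A * B j - A * B k + A ^ 2) := by
  have h1 : A - ∑ k ∈ IM M, be M k * B k = ∑ k ∈ IM M, be M k * (A - B k) := by
    simp only [mul_sub, Finset.sum_sub_distrib, ← Finset.sum_mul, b1, one_mul]
  rw [h1, sq, Finset.sum_mul_sum]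
  refine Finset.sum_congr rfl fun j _ => Finset.sum_congr rfl fun k _ => ?_
  ring

end LM3

open LM3 in
/-- the mean square of `‖a_0‖² - X` -/
theorem t_LM3 (hB : StmtBn1) (_hL : StmtLm1) : StmtLm3 := by
  intro X _ ν a v h M ε hε
  obtain ⟨b0, bs, bz, -, b1, -, -, -, bc⟩ := hB M
  have h4 : ∀ n x, ‖a n x 0‖ ^ 4 = (‖a n x 0‖ ^ 2) ^ 2 := fun n x => by ring
  have key : ∀ n, ∫ x, (‖a n x 0‖ ^ 2 - xM M (a n x)) ^ 2 ∂ν
      = ∑ j ∈ IM M, ∑ k ∈ IM M, be M j * be M k *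
        (((∫ x, ‖a n x j‖ ^ 2 * ‖a n x k‖ ^ 2 ∂ν) - ∫ x, ‖a n x 0‖ ^ 4 ∂ν)
          - ((∫ x, ‖a n x 0‖ ^ 2 * ‖a n x j‖ ^ 2 ∂ν) - ∫ x, ‖a n x 0‖ ^ 4 ∂ν)
          - ((∫ x, ‖a n x 0‖ ^ 2 * ‖a n x k‖ ^ 2 ∂ν) - ∫ x, ‖a n x 0‖ ^ 4 ∂ν)) := by
    intro n
    have hi : ∀ j k : ℤ, Integrable (fun x => be M j * be M k *
        (‖a n x j‖ ^ 2 * ‖a n x k‖ ^ 2 - ‖a n x 0‖ ^ 2 * ‖a n x j‖ ^ 2
          - ‖a n x 0‖ ^ 2 * ‖a n x k‖ ^ 2 + (‖a n x 0‖ ^ 2) ^ 2)) ν := by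
      intro j k
      refine Integrable.const_mul ?_ _
      refine (((int_prod h n j k).sub (int_prod h n 0 j)).sub (int_prod h n 0 k)).add ?_
      have := h.int n 0
      simp_rw [h4] at this
      exact this
    have h5 : (fun x => (‖a n x 0‖ ^ 2 - xM M (a n x)) ^ 2) = fun x =>
        ∑ j ∈ IM M, ∑ k ∈ IM M, be M j * be M k *
          (‖a n x j‖ ^ 2 * ‖a n x k‖ ^ 2 - ‖a n x 0‖ ^ 2 * ‖a n x j‖ ^ 2
          - ‖a n x 0‖ ^ 2 * ‖a n x k‖ ^ 2 + (‖a n x 0‖ ^ 2) ^ 2) := by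
      funext x
      exact sq_eq b1 (‖a n x 0‖ ^ 2) (fun k => ‖a n x k‖ ^ 2)
    rw [h5, integral_finsetSum _ fun j _ => integrable_finsetSum _ fun k _ => hi j k]
    refine Finset.sum_congr rfl fun j _ => ?_
    rw [integral_finsetSum _ fun k _ => hi j k]
    refine Finset.sum_congr rfl fun k _ => ?_
    rw [integral_const_mul]
    congr 1
    have i4 : Integrable (fun x => (‖a n x 0‖ ^ 2) ^ 2) ν := by
      have := h.int n 0
      simp_rw [h4] at this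
      exact this
    have i1 : Integrable (fun x => ‖a n x j‖ ^ 2 * ‖a n x k‖ ^ 2
        - ‖a n x 0‖ ^ 2 * ‖a n x j‖ ^ 2) ν := (int_prod h n j k).sub (int_prod h n 0 j)
    have i2 : Integrable (fun x => ‖a n x j‖ ^ 2 * ‖a n x k‖ ^ 2
        - ‖a n x 0‖ ^ 2 * ‖a n x j‖ ^ 2 - ‖a n x 0‖ ^ 2 * ‖a n x k‖ ^ 2) ν :=
      i1.sub (int_prod h n 0 k)
    rw [integral_add i2 i4, integral_sub i1 (int_prod h n 0 k),
      integral_sub (int_prod h n j k) (int_prod h n 0 j)]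
    simp_rw [h4]
    ring
  have lim : Tendsto (fun n => ∫ x, (‖a n x 0‖ ^ 2 - xM M (a n x)) ^ 2 ∂ν) atTop
      (𝓝 (∑ j ∈ IM M, ∑ k ∈ IM M, be M j * be M k *
        ((v (2 * (j + k)) + v (2 * (j - k)) - 2)
          - (v (2 * (0 + j)) + v (2 * (0 - j)) - 2) - (v (2 * (0 + k)) + v (2 * (0 - k)) - 2)))) := by
    simp_rw [key]
    refine tendsto_finsetSum _ fun j _ => tendsto_finsetSum _ fun k _ => ?_
    exact (((lim_prod h j k).sub (lim_prod h 0 j)).sub (lim_prod h 0 k)).const_mul _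
  have hle : (∑ j ∈ IM M, ∑ k ∈ IM M, be M j * be M k *
        ((v (2 * (j + k)) + v (2 * (j - k)) - 2)
          - (v (2 * (0 + j)) + v (2 * (0 - j)) - 2) - (v (2 * (0 + k)) + v (2 * (0 - k)) - 2)))
      ≤ 2 + 2 * wz v M := by
    have h6 : 2 + 2 * wz v M = ∑ j ∈ IM M, ∑ k ∈ IM M, (be M j * be M k * 2
        + be M j * be M k * v (2 * (j + k)) + be M j * be M k * v (2 * (j - k))) := by
      simp only [Finset.sum_add_distrib]
      rw [conv_add v bz bc, conv_sub v bs bz bc]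
      have h7 : ∑ j ∈ IM M, ∑ k ∈ IM M, be M j * be M k * 2 = 2 := by
        simp_rw [← Finset.sum_mul, ← Finset.mul_sum, b1, mul_one, b1, one_mul]
      rw [h7]; ring
    rw [h6]
    refine Finset.sum_le_sum fun j _ => Finset.sum_le_sum fun k _ => ?_
    have p : 0 ≤ be M j * be M k := mul_nonneg (b0 j) (b0 k)
    have e1 := h.nonneg (2 * (0 + j))
    have e2 := h.nonneg (2 * (0 - j))
    have e3 := h.nonneg (2 * (0 + k))
    have e4 := h.nonneg (2 * (0 - k))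
    rw [← mul_add, ← mul_add]
    exact mul_le_mul_of_nonneg_left (by linarith) p
  filter_upwards [lim.eventually_lt_const (lt_of_le_of_lt hle (lt_add_of_pos_right _ hε))] with n hn
  exact hn.le

end

end PKM
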