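import Pool.Agent.PKM.St2b
import Pool.Agent.PKM.STA
import Pool.Agent.BSL.JLG
import Pool.Agent.BSL.JLW

/-!
# PKM, module LNF: from the windows to the jets
-/

set_option autoImplicit false

open Complex MeasureTheory Filter Topology Set
open UpperHalfPlane hiding I
open scoped ContDiff MatrixGroups ProbabilityTheory ENNReal

namespace PKM

open QE QE.NC QJ U3 NFP BSL

noncomputable section

namespace LNF

/-! ### Elementary facts -/

lemma ang_cont {f : ℝ → ℝ} (hf : Continuous f) : Integrable f ang := by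
  have h2 : Integrable f (volume.restrict (Ioc (0 : ℝ) (2 * Real.pi))) :=
    (hf.continuousOn.integrableOn_compact isCompact_Icc).mono_set Ioc_subset_Icc_self
  have h3 : volume (Ioc (0 : ℝ) (2 * Real.pi)) ≠ 0 := by
    rw [Real.volume_Ioc, Ne, ENNReal.ofReal_eq_zero, not_le, sub_zero]; positivity
  exact h2.smul_measure (ENNReal.inv_ne_top.2 h3)

lemma int3 {f g k : ℂ → ℝ} (hf : Integrable f) (hg : Integrable g) (hk : Integrable k)
    {a b c : ℝ} : ∫ z, (a * f z + b * g z + c * k z)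
      = a * (∫ z, f z) + b * (∫ z, g z) + c * ∫ z, k z := by
  have h1 : ∫ z, (a * f z + b * g z + c * k z)
      = (∫ z, (a * f z + b * g z)) + ∫ z, c * k z :=
    integral_add ((hf.const_mul a).add (hg.const_mul b)) (hk.const_mul c)
  rw [h1, integral_add (hf.const_mul a) (hg.const_mul b), integral_const_mul,
    integral_const_mul, integral_const_mul]

/-- Cauchy-Schwarz with the weights `1 + k²` -/
lemma cs (J : Finset ℤ) (g a : ℤ → ℂ) : ‖∑ k ∈ J, g k * a k‖ ^ 2 ≤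
    (∑ k ∈ J, (1 + (k : ℝ) ^ 2) * ‖g k‖ ^ 2) * ∑ k ∈ J, ‖a k‖ ^ 2 / (1 + (k : ℝ) ^ 2) := by
  have hp : ∀ k : ℤ, (0 : ℝ) < 1 + (k : ℝ) ^ 2 := fun k => by positivity
  have h1 : ‖∑ k ∈ J, g k * a k‖ ≤
      ∑ k ∈ J, (√(1 + (k : ℝ) ^ 2) * ‖g k‖) * (‖a k‖ / √(1 + (k : ℝ) ^ 2)) := by
    refine (norm_sum_le _ _).trans (Finset.sum_le_sum fun k _ => ?_)
    have h2 : √(1 + (k : ℝ) ^ 2) ≠ 0 := (Real.sqrt_pos.2 (hp k)).ne'
    rw [norm_mul]
    refine le_of_eq ?_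
    field_simp
  have h2 := Finset.sum_mul_sq_le_sq_mul_sq J (fun k : ℤ => √(1 + (k : ℝ) ^ 2) * ‖g k‖)
    (fun k : ℤ => ‖a k‖ / √(1 + (k : ℝ) ^ 2))
  have h3 : ‖∑ k ∈ J, g k * a k‖ ^ 2 ≤
      (∑ k ∈ J, (√(1 + (k : ℝ) ^ 2) * ‖g k‖) * (‖a k‖ / √(1 + (k : ℝ) ^ 2))) ^ 2 :=
    pow_le_pow_left₀ (norm_nonneg _) h1 2
  refine h3.trans (h2.trans (le_of_eq ?_))
  congr 1
  · refine Finset.sum_congr rfl fun k _ => ?_
    rw [mul_pow, Real.sq_sqrt (hp k).le]
  · refine Finset.sum_congr rfl fun k _ => ?_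
    rw [div_pow, Real.sq_sqrt (hp k).le]

lemma sum_inv (N : ℕ) : ∑ k ∈ IM N, 1 / (1 + (k : ℝ) ^ 2) ≤ 5 := by
  suffices h : ∑ k ∈ IM N, 1 / (1 + (k : ℝ) ^ 2) ≤ 5 - 2 / ((N : ℝ) + 1 / 2) by
    have h1 : 0 ≤ 2 / ((N : ℝ) + 1 / 2) := by positivity
    linarith
  induction N with
  | zero => norm_num [IM]
  | succ N ih =>
    have e1 : IM (N + 1) = insert ((N : ℤ) + 1) (insert (-((N : ℤ) + 1)) (IM N)) := by
      ext k
      simp only [IM, Finset.mem_Icc, Finset.mem_insert]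
      push_cast
      omega
    rw [e1, Finset.sum_insert, Finset.sum_insert]
    · push_cast
      have h2 : 1 / (1 + ((N : ℝ) + 1) ^ 2) + (1 / (1 + (-((N : ℝ) + 1)) ^ 2)) ≤
          2 / ((N : ℝ) + 1 / 2) - 2 / ((N : ℝ) + 1 + 1 / 2) := by
        have hN : (0 : ℝ) ≤ N := Nat.cast_nonneg N
        rw [neg_sq, div_sub_div _ _ (by positivity) (by positivity), ← two_mul, mul_one_div,
          div_le_div_iff₀ (by positivity) (by positivity)]
        nlinarith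
      have h3 := ih
      push_cast at h2 ⊢
      linarith
    · simp only [IM, Finset.mem_Icc, not_and, not_le]
      intro h
      omega
    · simp only [IM, Finset.mem_Icc, Finset.mem_insert, not_or, not_and, not_le]
      constructor
      · omega
      · intro h
        omega

lemma three {a b c : ℂ} {e : ℝ} (h : ‖a - b - c‖ ≤ e) :
    ‖a‖ ^ 2 ≤ 3 * ‖b‖ ^ 2 + 3 * ‖c‖ ^ 2 + 3 * e ^ 2 := by
  have h0 := norm_nonneg (a - b - c)
  have h1 : ‖a‖ ≤ ‖a - b - c‖ + ‖b‖ + ‖c‖ := by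
    have e1 : a = (a - b - c) + b + c := by ring
    have h2 := norm_add_le ((a - b - c) + b) c
    have h3 := norm_add_le (a - b - c) b
    rw [← e1] at h2
    linarith
  have h2 : ‖a‖ ≤ e + ‖b‖ + ‖c‖ := by linarith
  have h3 : ‖a‖ ^ 2 ≤ (e + ‖b‖ + ‖c‖) ^ 2 := pow_le_pow_left₀ (norm_nonneg _) h2 2
  nlinarith [sq_nonneg (e - ‖b‖), sq_nonneg (e - ‖c‖), sq_nonneg (‖b‖ - ‖c‖)]

/-- the coefficient in terms of the energies -/
lemma tw_le (hB : StmtBn1) (hP : StmtPwb) (M : ℕ) {r : ℕ} {w : Fin r → ℝ} {x : Fin r → ℂ}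
    (hw0 : ∀ i, 0 ≤ w i) (hw1 : ∑ i, w i = 1) {f : ℂ → ℂ} {f1 f2 : ℂ → ℝ} {u v : ℂ} {e : ℝ}
    (hv : ‖v‖ = 1)
    (h1 : ∀ p ∈ IM (4 * M), ∀ q ∈ IM (4 * M), ∀ i,
      ‖f (u * (x i + lp p q)) - (f1 (x i + lp p q) : ℂ)‖ ≤ e)
    (h2 : ∀ p ∈ IM (4 * M), ∀ q ∈ IM (4 * M), ∀ i,
      ‖f (-(u * (x i + lp p q))) - (f2 (x i + lp p q) : ℂ)‖ ≤ e) :
    ‖tw M w x f u v‖ ^ 2 ≤ 4 * (sb (4 * M) w x f1 + sb (4 * M) w x f2) + 8 * e ^ 2 := by
  obtain ⟨b0, -, -, -, b1, -⟩ := hB (4 * M)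
  have h3 := hP M r w x hw0 hw1 f1 f2 v hv
  obtain ⟨c, hc⟩ : ∃ c : ℤ → ℤ → Fin r → ℝ, c = fun p q i =>
    be (4 * M) p * be (4 * M) q * (w i * Real.cos (PWV.ip v (x i + lp p q))) := ⟨_, rfl⟩
  obtain ⟨D, hD⟩ : ∃ D : ℂ, D = ∑ p ∈ IM (4 * M), ∑ q ∈ IM (4 * M), ∑ i,
      ((be (4 * M) p * be (4 * M) q * (w i * Real.cos (PWV.ip v (x i + lp p q))) : ℝ) : ℂ)
        * ((f1 (x i + lp p q) + f2 (x i + lp p q) : ℝ) : ℂ) := ⟨_, rfl⟩
  rw [← hD] at h3
  have h4 : ‖tw M w x f u v - D‖ ≤ 2 * e := by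
    have e1 : tw M w x f u v - D = ∑ p ∈ IM (4 * M), ∑ q ∈ IM (4 * M), ∑ i, (c p q i : ℂ) *
        ((f (u * (x i + lp p q)) - (f1 (x i + lp p q) : ℂ))
          + (f (-(u * (x i + lp p q))) - (f2 (x i + lp p q) : ℂ))) := by
      rw [hD]
      unfold tw
      rw [← Finset.sum_sub_distrib]
      refine Finset.sum_congr rfl fun p _ => ?_
      rw [← Finset.sum_sub_distrib]
      refine Finset.sum_congr rfl fun q _ => ?_
      rw [← Finset.sum_sub_distrib]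
      refine Finset.sum_congr rfl fun i _ => ?_
      rw [hc]
      push_cast
      ring
    rw [e1]
    have h5 : ∀ p ∈ IM (4 * M), ∀ q ∈ IM (4 * M), ∀ i, ‖(c p q i : ℂ) *
        ((f (u * (x i + lp p q)) - (f1 (x i + lp p q) : ℂ))
          + (f (-(u * (x i + lp p q))) - (f2 (x i + lp p q) : ℂ)))‖ ≤
        be (4 * M) p * be (4 * M) q * w i * (2 * e) := by
      intro p hp q hq i
      rw [norm_mul, Complex.norm_real, Real.norm_eq_abs]
      refine mul_le_mul ?_ ?_ (norm_nonneg _)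
        (mul_nonneg (mul_nonneg (b0 p) (b0 q)) (hw0 i))
      · rw [hc]
        simp only
        rw [abs_mul, abs_mul, abs_mul, abs_of_nonneg (b0 p), abs_of_nonneg (b0 q),
          abs_of_nonneg (hw0 i)]
        refine mul_le_mul_of_nonneg_left ?_ (mul_nonneg (b0 p) (b0 q))
        exact mul_le_of_le_one_right (hw0 i) (Real.abs_cos_le_one _)
      · have h6 := h1 p hp q hq i
        have h7 := h2 p hp q hq i
        have h8 := norm_add_le (f (u * (x i + lp p q)) - (f1 (x i + lp p q) : ℂ))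
          (f (-(u * (x i + lp p q))) - (f2 (x i + lp p q) : ℂ))
        linarith
    refine (norm_sum_le _ _).trans ?_
    calc ∑ p ∈ IM (4 * M), ‖∑ q ∈ IM (4 * M), ∑ i, (c p q i : ℂ) *
          ((f (u * (x i + lp p q)) - (f1 (x i + lp p q) : ℂ))
            + (f (-(u * (x i + lp p q))) - (f2 (x i + lp p q) : ℂ)))‖
        ≤ ∑ p ∈ IM (4 * M), ∑ q ∈ IM (4 * M), ∑ i,
            be (4 * M) p * be (4 * M) q * w i * (2 * e) := by
          refine Finset.sum_le_sum fun p hp => (norm_sum_le _ _).trans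
            (Finset.sum_le_sum fun q hq => (norm_sum_le _ _).trans
              (Finset.sum_le_sum fun i _ => h5 p hp q hq i))
      _ = 2 * e := by
          have e2 : ∀ p q : ℤ, ∑ i, be (4 * M) p * be (4 * M) q * w i * (2 * e) =
              be (4 * M) p * (be (4 * M) q * (2 * e)) := by
            intro p q
            rw [← Finset.sum_mul, ← Finset.mul_sum, hw1]
            ring
          simp only [e2]
          simp only [← Finset.mul_sum, ← Finset.sum_mul]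
          rw [b1]
          ring
  have h5 : ‖tw M w x f u v‖ ≤ ‖D‖ + 2 * e := by
    have h6 := norm_add_le (tw M w x f u v - D) D
    rw [sub_add_cancel] at h6
    linarith
  have h6 : ‖tw M w x f u v‖ ^ 2 ≤ (‖D‖ + 2 * e) ^ 2 := pow_le_pow_left₀ (norm_nonneg _) h5 2
  nlinarith [sq_nonneg (‖D‖ - 2 * e)]

lemma uu_shift (t : ℝ) : uu (t + Real.pi / 2) ^ 2 = -(uu t ^ 2) := by
  unfold uu
  rw [← Complex.exp_nat_mul, ← Complex.exp_nat_mul]
  have e1 : ((2 : ℕ) : ℂ) * (-((t + Real.pi / 2 : ℝ) : ℂ) * Complex.I) =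
      ((2 : ℕ) : ℂ) * (-(t : ℂ) * Complex.I) + -(Real.pi * Complex.I) := by
    push_cast
    ring
  rw [e1, Complex.exp_add, Complex.exp_neg, Complex.exp_pi_mul_I]
  norm_num

section

variable {Γ : Subgroup SL(2, ℝ)} {D : Set ℍ} {ρ : ℍ → ℝ} {φ : ℕ → ℍ → ℝ} {m : ℕ → ℝ}
  {V : Set ℂ} {σ : ℂ → ℝ} {φ' : ℕ → ℂ → ℂ}

lemma norm_aJ (n : ℕ) (z : ℂ) (k : ℤ) :
    ‖aJ σ (hh m) φ' n z k‖ = ‖QJ.E σ (hh m) φ' (2 * k) n z‖ := by
  unfold aJ
  rw [norm_mul, norm_zpow, norm_neg, norm_one, one_zpow, one_mul]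

lemma cont_aJ (L : LocB V σ (hh m) φ') (n : ℕ) (k : ℤ) :
    Continuous fun z => aJ σ (hh m) φ' n z k := by
  unfold aJ
  exact continuous_const.mul (smE L (2 * k) n).continuous

lemma sq_aJ (L : LocB V σ (hh m) φ') (n : ℕ) (z : ℂ) (k : ℤ) :
    ((‖aJ σ (hh m) φ' n z k‖ ^ 2 : ℝ) : ℂ)
      = QJ.E σ (hh m) φ' (2 * k) n z * QJ.E σ (hh m) φ' (-(2 * k)) n z := by
  have h1 := conj_EB L (2 * k) n z
  rw [Even.neg_one_zpow (even_two_mul k), one_mul] at h1
  rw [norm_aJ, ← h1, Complex.mul_conj, Complex.normSq_eq_norm_sq]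

end

end LNF

open LNF in
/-- **LNF** -/
theorem t_LNF (hB1 : StmtBn1) (hSw : StmtSwc) (hFr : StmtFrm) (hPw : StmtPwb) (hGk : StmtGkb)
    (hLn : StmtLnk) : StmtLnf := by
  intro Γ _ D ρ φ m s hS hSem ζ hζ V σ φ' A hζV hNo ε hε
  obtain ⟨K, hKdef⟩ : ∃ K : Set ℂ, K = tsupport (fun z => (ζ z : ℂ)) := ⟨_, rfl⟩
  have hK : IsCompact K := by rw [hKdef]; exact hζ.test.supp
  have hKV : K ⊆ V := by rw [hKdef]; exact hζV
  have hζc : Continuous ζ := Complex.continuous_re.comp hζ.test.smooth.continuous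
  have hζ0 : ∀ z, z ∉ K → ζ z = 0 := by
    intro z hz
    have h1 : ((ζ z : ℝ) : ℂ) = 0 := by
      by_contra hne
      rw [hKdef] at hz
      exact hz (subset_tsupport (fun z => (ζ z : ℂ)) hne)
    exact_mod_cast h1
  obtain ⟨B, hB0, hBz⟩ : ∃ B : ℝ, 0 ≤ B ∧ ∀ z, ζ z ≤ B := by
    obtain ⟨B, hB⟩ := hK.exists_bound_of_continuousOn hζc.continuousOn
    refine ⟨|B|, abs_nonneg _, fun z => ?_⟩
    by_cases hz : z ∈ K
    · exact ((le_abs_self _).trans (hB z hz)).trans (le_abs_self _)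
    · rw [hζ0 z hz]
      exact abs_nonneg _
  have hJ : JL V σ (hh m) φ' (um s) := (t_JLG ρ φ m s hS.fac.smooth hS.loc hSem).1 V σ φ' A
  have hT : Test V (fun z => (ζ z : ℂ)) := ⟨hζ.test.smooth, hζ.test.supp, hζV⟩
  obtain ⟨C₁, hC₁⟩ : ∃ C₁ : ℝ, C₁ = ‖∫ z, (ζ z : ℂ) * um s 0 z‖ + 1 := ⟨_, rfl⟩
  have hC₁0 : 0 < C₁ := by
    rw [hC₁]
    have := norm_nonneg (∫ z, (ζ z : ℂ) * um s 0 z)
    linarith
  have ev7 : ∀ k : ℤ, ∀ᶠ n in atTop, ∫ z, ζ z * ‖aJ σ (hh m) φ' n z k‖ ^ 2 ≤ C₁ := by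
    intro k
    have h1 := (hJ.lim (2 * k) (-(2 * k)) _ hT).norm
    have e1 : ∫ z, (ζ z : ℂ) * ((-1 : ℂ) ^ (-(2 * k)) * um s (2 * k + -(2 * k)) z) =
        ∫ z, (ζ z : ℂ) * um s 0 z := by
      rw [add_neg_cancel, Even.neg_one_zpow (by rw [even_neg]; exact even_two_mul k)]
      simp only [one_mul]
    rw [e1] at h1
    filter_upwards [h1.eventually_le_const (show ‖∫ z, (ζ z : ℂ) * um s 0 z‖ < C₁ by
      rw [hC₁]; linarith)] with n hn
    have e2 : ((∫ z, ζ z * ‖aJ σ (hh m) φ' n z k‖ ^ 2 : ℝ) : ℂ) =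
        ∫ z, (ζ z : ℂ) * (QJ.E σ (hh m) φ' (2 * k) n z * QJ.E σ (hh m) φ' (-(2 * k)) n z) := by
      rw [← integral_complex_ofReal]
      refine integral_congr_ae (Eventually.of_forall fun z => ?_)
      beta_reduce
      rw [← sq_aJ A.loc, Complex.ofReal_mul]
    rw [← e2, Complex.norm_real, Real.norm_eq_abs] at hn
    exact (le_abs_self _).trans hn
  obtain ⟨δ, hδ⟩ : ∃ δ : ℝ, δ = ε / (60 * C₁) := ⟨_, rfl⟩
  have hδ0 : 0 < δ := by rw [hδ]; positivity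
  obtain ⟨r, w, x, hw0, hw1, hNo2⟩ := hNo (ε / 100) (by positivity)
  obtain ⟨M₀, hM₀⟩ := hGk r w x hw0 hw1 δ hδ0
  refine Filter.Eventually.frequently ?_
  filter_upwards [eventually_ge_atTop M₀] with M hM
  obtain ⟨N₁, hN₁⟩ := hM₀ M hM
  obtain ⟨L, hL0, hLk⟩ := hLn V σ (hh m) φ' A.loc K hK hKV M r w x hw0 hw1
  obtain ⟨b0, -, -, -, b1, -⟩ := hB1 (4 * M)
  obtain ⟨R, hR⟩ : ∃ R : ℝ, ∀ p ∈ IM (4 * M), ∀ q ∈ IM (4 * M), ∀ i, ‖x i + lp p q‖ ≤ R := by
    refine ⟨∑ p ∈ IM (4 * M), ∑ q ∈ IM (4 * M), ∑ i, ‖x i + lp p q‖, fun p hp q hq i => ?_⟩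
    have h1 : ‖x i + lp p q‖ ≤ ∑ i, ‖x i + lp p q‖ :=
      Finset.single_le_sum (f := fun i => ‖x i + lp p q‖) (fun _ _ => norm_nonneg _)
        (Finset.mem_univ i)
    have h2 : ∑ i, ‖x i + lp p q‖ ≤ ∑ q ∈ IM (4 * M), ∑ i, ‖x i + lp p q‖ :=
      Finset.single_le_sum (f := fun q => ∑ i, ‖x i + lp p q‖)
        (fun _ _ => Finset.sum_nonneg fun _ _ => norm_nonneg _) hq
    have h3 : ∑ q ∈ IM (4 * M), ∑ i, ‖x i + lp p q‖ ≤
        ∑ p ∈ IM (4 * M), ∑ q ∈ IM (4 * M), ∑ i, ‖x i + lp p q‖ :=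
      Finset.single_le_sum (f := fun p => ∑ q ∈ IM (4 * M), ∑ i, ‖x i + lp p q‖)
        (fun _ _ => Finset.sum_nonneg fun _ _ => Finset.sum_nonneg fun _ _ => norm_nonneg _) hp
    exact h1.trans (h2.trans h3)
  obtain ⟨L', hL'0, hmd⟩ := STA.md A.loc hK hKV (R + 1)
  obtain ⟨L₂, hL₂⟩ : ∃ L₂ : ℝ, L₂ = max L L' := ⟨_, rfl⟩
  have hLL : L ≤ L₂ := by rw [hL₂]; exact le_max_left _ _
  have hLL' : L' ≤ L₂ := by rw [hL₂]; exact le_max_right _ _
  obtain ⟨C', hC'⟩ := ROTG.Mn_bdd A.loc hK hKV (c := L₂) (hL0.le.trans hLL)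
  obtain ⟨ε₁, hε₁⟩ : ∃ ε₁ : ℝ, ε₁ = √(ε / (120 * (B * |C'| + 1))) := ⟨_, rfl⟩
  have hD0 : 0 < 120 * (B * |C'| + 1) := by positivity
  have hε₁0 : 0 < ε₁ := by rw [hε₁]; exact Real.sqrt_pos.2 (div_pos hε hD0)
  have hε₁s : ε₁ ^ 2 = ε / (120 * (B * |C'| + 1)) := by
    rw [hε₁, Real.sq_sqrt (div_pos hε hD0).le]
  obtain ⟨N₂, hN₂⟩ := hLk ε₁ hε₁0
  obtain ⟨N, hN⟩ : ∃ N : ℕ, N = max N₁ N₂ := ⟨_, rfl⟩
  have hNN₁ : N₁ ≤ N := by rw [hN]; exact le_max_left _ _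
  have hNN₂ : N₂ ≤ N := by rw [hN]; exact le_max_right _ _
  obtain ⟨δ', hδ'0, hmd2⟩ := hmd ε₁ hε₁0
  have hδ'' : 0 < min δ' 1 := lt_min hδ'0 one_pos
  have ev1 := hN₂ N hNN₂
  have ev2 : ∀ᶠ n in atTop, ∀ p ∈ IM (4 * M), ∀ q ∈ IM (4 * M), ∀ i,
      ∀ t, ∀ z ∈ K, (Berry.rWave ρ (φ n) (m n) (x i + lp p q) (ofComplex z, t) : ℂ)
        = φ' n (dp σ (hh m) n z (frXi (hh m) (em ρ) (x i + lp p q) n t z)) :=
    (eventually_all_finset _).2 fun p _ => (eventually_all_finset _).2 fun q _ =>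
      eventually_all.2 fun i => by
        filter_upwards [STA.vals hS.fac.smooth A hK hKV (x i + lp p q)] with n hn
        exact hn.2
  have ev3 : ∀ᶠ n in atTop, ∀ p ∈ IM (4 * M), ∀ q ∈ IM (4 * M), ∀ i,
      ∀ t, ∀ z ∈ K, ‖frXi (hh m) (em ρ) (x i + lp p q) n t z - uu t ^ 2 * (x i + lp p q)‖
        ≤ min δ' 1 :=
    (eventually_all_finset _).2 fun p _ => (eventually_all_finset _).2 fun q _ =>
      eventually_all.2 fun i =>
        (PTF.dis hS.fac.smooth A hK hKV (x i + lp p q)).lim (min δ' 1) hδ''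
  have ev4 : ∀ᶠ n in atTop, ∀ p ∈ IM (4 * M), ∀ q ∈ IM (4 * M), ∀ i,
      Continuous (Berry.rWave ρ (φ n) (m n) (x i + lp p q)) :=
    (eventually_all_finset _).2 fun p _ => (eventually_all_finset _).2 fun q _ =>
      UIF.wc hS (fun i => x i + lp p q)
  obtain ⟨sw0, -, -, -, swc⟩ := hSw r w x hw0 hw1
  have ev5 : ∀ᶠ n in atTop, ∀ p ∈ IM (4 * M), ∀ q ∈ IM (4 * M),
      Integrable (fun o => sw w x fun i => Berry.rWave ρ (φ n) (m n) (x i + lp p q) o)
        (Berry.rFrameProb ρ D) ∧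
      Integrable (fun z => ζ z *
        ∫ t, sw w x (fun i => Berry.rWave ρ (φ n) (m n) (x i + lp p q) (ofComplex z, t)) ∂ang) ∧
      ∫ o, sw w x (fun i => Berry.rWave ρ (φ n) (m n) (x i + lp p q) o) ∂(Berry.rFrameProb ρ D)
        = ∫ z, ζ z *
          ∫ t, sw w x (fun i => Berry.rWave ρ (φ n) (m n) (x i + lp p q) (ofComplex z, t)) ∂ang :=
    (eventually_all_finset _).2 fun p _ => (eventually_all_finset _).2 fun q _ =>
      hFr Γ D ρ φ m hS ζ hζ r (fun i => x i + lp p q) (sw w x) swc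
  have ev7' : ∀ᶠ n in atTop, ∀ k ∈ IM N, ∫ z, ζ z * ‖aJ σ (hh m) φ' n z k‖ ^ 2 ≤ C₁ :=
    (eventually_all_finset _).2 fun k _ => ev7 k
  filter_upwards [ev1, ev2, ev3, ev4, ev5, hC', ev7', hNo2 (4 * M), hmd2] with n n1 n2 n3 n4 n5 n6
    n7 n8 n9
  have hcφ : ∀ n, Continuous (φ' n) := fun n => (A.loc.smφ n).continuous
  have hMc : Continuous (Mn L₂ (hh m) φ' n) := continuous_Mn hcφ L₂ n
  have hM0 : ∀ z, 0 ≤ Mn L₂ (hh m) φ' n z := fun z =>
    zero_le_one.trans (one_le_Mn (h := hh m) (φ := φ') L₂ n z)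
  -- the energies
  obtain ⟨S, hSdef⟩ : ∃ S : ℂ → ℝ → ℝ, S = fun z t =>
    sb (4 * M) w x (fun y => Berry.rWave ρ (φ n) (m n) y (ofComplex z, t)) := ⟨_, rfl⟩
  obtain ⟨T, hTdef⟩ : ∃ T : ℂ → ℝ, T = fun z =>
    ∑ k ∈ IM N, ‖aJ σ (hh m) φ' n z k‖ ^ 2 / (1 + (k : ℝ) ^ 2) := ⟨_, rfl⟩
  -- the pointwise inequality
  have hpt : ∀ z ∈ K, ∀ t : ℝ, ∀ v₀ : ℂ, ‖v₀‖ = 1 → ‖wv M (aJ σ (hh m) φ' n z) v₀‖ ^ 2 ≤
      12 * (S z t + S z (t + Real.pi / 2)) + 27 * ε₁ ^ 2 * Mn L₂ (hh m) φ' n z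
        + 3 * δ * T z := by
    intro z hz t v₀ hv₀
    have hu : ‖uu t ^ 2‖ = 1 := by rw [norm_pow, norm_uu, one_pow]
    have hu0 : uu t ^ 2 ≠ 0 := by
      intro h
      rw [h, norm_zero] at hu
      exact zero_ne_one hu
    have hv : ‖v₀ / uu t ^ 2‖ = 1 := by rw [norm_div, hv₀, hu, div_one]
    have h1 := n1 z hz (uu t ^ 2) (v₀ / uu t ^ 2) hu hv
    rw [mul_div_cancel₀ _ hu0] at h1
    have hsq : √(Mn L (hh m) φ' n z) ≤ √(Mn L₂ (hh m) φ' n z) :=
      Real.sqrt_le_sqrt (ROTG.Mn_mono A.loc hLL n z)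
    have hsq' : √(Mn L' (hh m) φ' n z) ≤ √(Mn L₂ (hh m) φ' n z) :=
      Real.sqrt_le_sqrt (ROTG.Mn_mono A.loc hLL' n z)
    have h2 := three (h1.trans (mul_le_mul_of_nonneg_left hsq hε₁0.le))
    have h3 := cs (IM N) (gk M N w x (v₀ / uu t ^ 2))
      (fun k => aJ σ (hh m) φ' n z k * (uu t ^ 2) ^ (2 * k))
    have h4 : ∑ k ∈ IM N, ‖aJ σ (hh m) φ' n z k * (uu t ^ 2) ^ (2 * k)‖ ^ 2
        / (1 + (k : ℝ) ^ 2) = T z := by
      rw [hTdef]
      refine Finset.sum_congr rfl fun k _ => ?_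
      rw [norm_mul, norm_zpow, hu, one_zpow, mul_one]
    rw [h4] at h3
    have hT0 : 0 ≤ T z := by
      rw [hTdef]
      exact Finset.sum_nonneg fun k _ => by positivity
    have h5 := h3.trans (mul_le_mul_of_nonneg_right (hN₁ N hNN₁ _ hv) hT0)
    have h6 : ‖tw M w x (fun y => φ' n (dp σ (hh m) n z y)) (uu t ^ 2) (v₀ / uu t ^ 2)‖ ^ 2 ≤
        4 * (S z t + S z (t + Real.pi / 2)) + 8 * (ε₁ * √(Mn L₂ (hh m) φ' n z)) ^ 2 := by
      rw [hSdef]
      have hnear : ∀ p ∈ IM (4 * M), ∀ q ∈ IM (4 * M), ∀ i, ∀ t' : ℝ, ∀ y : ℂ,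
          y = uu t' ^ 2 * (x i + lp p q) →
          ‖φ' n (dp σ (hh m) n z y) -
            (Berry.rWave ρ (φ n) (m n) (x i + lp p q) (ofComplex z, t') : ℂ)‖ ≤
            ε₁ * √(Mn L₂ (hh m) φ' n z) := by
        intro p hp q hq i t' y hy
        rw [n2 p hp q hq i t' z hz]
        have h7 := n3 p hp q hq i t' z hz
        have h8 : ‖y‖ ≤ R + 1 := by
          rw [hy, norm_mul, norm_pow, norm_uu, one_pow, one_mul]
          have := hR p hp q hq i
          linarith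
        have h9 : ‖frXi (hh m) (em ρ) (x i + lp p q) n t' z‖ ≤ R + 1 := by
          have e4 : frXi (hh m) (em ρ) (x i + lp p q) n t' z =
              (frXi (hh m) (em ρ) (x i + lp p q) n t' z - uu t' ^ 2 * (x i + lp p q))
                + uu t' ^ 2 * (x i + lp p q) := by ring
          rw [e4]
          refine (norm_add_le _ _).trans ?_
          rw [norm_mul (uu t' ^ 2), norm_pow, norm_uu, one_pow, one_mul]
          have h10 := hR p hp q hq i
          have h11 := min_le_right δ' 1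
          linarith
        have h10 : ‖y - frXi (hh m) (em ρ) (x i + lp p q) n t' z‖ ≤ δ' := by
          rw [hy, norm_sub_rev]
          exact h7.trans (min_le_left _ _)
        exact (n9 z hz _ _ h8 h9 h10).trans (mul_le_mul_of_nonneg_left hsq' hε₁0.le)
      refine tw_le hB1 hPw M hw0 hw1 hv (fun p hp q hq i => ?_) (fun p hp q hq i => ?_)
      · exact hnear p hp q hq i t _ rfl
      · refine hnear p hp q hq i (t + Real.pi / 2) _ ?_
        rw [uu_shift]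
        ring
    have h7 : (ε₁ * √(Mn L₂ (hh m) φ' n z)) ^ 2 = ε₁ ^ 2 * Mn L₂ (hh m) φ' n z := by
      rw [mul_pow, Real.sq_sqrt (hM0 z)]
    rw [h7] at h2 h6
    linarith
  -- the integral over the angle
  have hSc1 : ∀ p ∈ IM (4 * M), ∀ q ∈ IM (4 * M), ∀ z : ℂ, Continuous fun t : ℝ =>
      sw w x (fun i => Berry.rWave ρ (φ n) (m n) (x i + lp p q) (ofComplex z, t)) :=
    fun p hp q hq z => swc.comp (continuous_pi fun i =>
      (n4 p hp q hq i).comp (continuous_const.prodMk continuous_id))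
  have hSc : ∀ z, Continuous (S z) := by
    intro z
    rw [hSdef]
    exact continuous_finsetSum _ fun p hp => continuous_finsetSum _ fun q hq =>
      continuous_const.mul (hSc1 p hp q hq z)
  have hSp : ∀ z, Function.Periodic (S z) (2 * Real.pi) := by
    intro z t
    rw [hSdef]
    unfold sb Berry.rWave
    simp only [Berry.frame_periodic]
  have hSs : ∀ z, ∫ t, S z (t + Real.pi / 2) ∂ang = ∫ t, S z t ∂ang := by
    intro z
    rw [← ang_shift (hSp z) (Real.pi / 2)]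
    refine integral_congr_ae (Eventually.of_forall fun t => ?_)
    beta_reduce
    rw [add_comm]
  obtain ⟨I₀, hI⟩ : ∃ I₀ : ℂ → ℝ, I₀ = fun z => 24 * (∫ t, S z t ∂ang)
      + 27 * ε₁ ^ 2 * Mn L₂ (hh m) φ' n z + 3 * δ * T z := ⟨_, rfl⟩
  have hpt2 : ∀ z ∈ K, ∀ v₀ : ℂ, ‖v₀‖ = 1 → ‖wv M (aJ σ (hh m) φ' n z) v₀‖ ^ 2 ≤ I₀ z := by
    intro z hz v₀ hv₀
    have h1 : ∀ t : ℝ, ‖wv M (aJ σ (hh m) φ' n z) v₀‖ ^ 2
        - (27 * ε₁ ^ 2 * Mn L₂ (hh m) φ' n z + 3 * δ * T z)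
        ≤ 12 * (S z t + S z (t + Real.pi / 2)) := fun t => by
      have := hpt z hz t v₀ hv₀
      linarith
    have j1 : Integrable (S z) ang := ang_cont (hSc z)
    have j2 : Integrable (fun t => S z (t + Real.pi / 2)) ang :=
      ang_cont ((hSc z).comp (continuous_id.add continuous_const))
    have h2 := integral_mono (μ := ang) (integrable_const (‖wv M (aJ σ (hh m) φ' n z) v₀‖ ^ 2
        - (27 * ε₁ ^ 2 * Mn L₂ (hh m) φ' n z + 3 * δ * T z))) ((j1.add j2).const_mul 12) h1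
    have e1 : ∫ t, 12 * ((S z + fun t => S z (t + Real.pi / 2)) t) ∂ang
        = 24 * ∫ t, S z t ∂ang := by
      rw [integral_const_mul]
      simp only [Pi.add_apply]
      rw [integral_add j1 j2, hSs]
      ring
    rw [e1, integral_const, probReal_univ, one_smul] at h2
    rw [hI]
    simp only
    linarith
  -- the integrals over the plane
  have hS1 : ∀ z, ∫ t, S z t ∂ang = ∑ p ∈ IM (4 * M), ∑ q ∈ IM (4 * M),
      be (4 * M) p * be (4 * M) q *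
        ∫ t, sw w x (fun i => Berry.rWave ρ (φ n) (m n) (x i + lp p q) (ofComplex z, t)) ∂ang := by
    intro z
    rw [hSdef]
    simp only
    unfold sb
    rw [integral_finsetSum _ fun p hp => integrable_finsetSum _ fun q hq =>
      (ang_cont (hSc1 p hp q hq z)).const_mul _]
    refine Finset.sum_congr rfl fun p hp => ?_
    rw [integral_finsetSum _ fun q hq => (ang_cont (hSc1 p hp q hq z)).const_mul _]
    refine Finset.sum_congr rfl fun q hq => ?_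
    rw [integral_const_mul]
  have hS2 : ∀ z, ζ z * ∫ t, S z t ∂ang = ∑ p ∈ IM (4 * M), ∑ q ∈ IM (4 * M),
      be (4 * M) p * be (4 * M) q * (ζ z *
        ∫ t, sw w x (fun i => Berry.rWave ρ (φ n) (m n) (x i + lp p q) (ofComplex z, t)) ∂ang) := by
    intro z
    rw [hS1, Finset.mul_sum]
    refine Finset.sum_congr rfl fun p _ => ?_
    rw [Finset.mul_sum]
    refine Finset.sum_congr rfl fun q _ => ?_
    ring
  have i1 : Integrable (fun z => ζ z * ∫ t, S z t ∂ang) := by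
    simp only [hS2]
    exact integrable_finsetSum _ fun p hp => integrable_finsetSum _ fun q hq =>
      (n5 p hp q hq).2.1.const_mul _
  have e1 : ∫ z, ζ z * ∫ t, S z t ∂ang ≤ ε / 100 := by
    refine le_trans (le_of_eq ?_) n8
    have e2 : ∫ o, sb (4 * M) w x (fun y => Berry.rWave ρ (φ n) (m n) y o)
        ∂(Berry.rFrameProb ρ D) = ∑ p ∈ IM (4 * M), ∑ q ∈ IM (4 * M),
      be (4 * M) p * be (4 * M) q *
        ∫ o, sw w x (fun i => Berry.rWave ρ (φ n) (m n) (x i + lp p q) o)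
          ∂(Berry.rFrameProb ρ D) := by
      unfold sb
      rw [integral_finsetSum _ fun p hp => integrable_finsetSum _ fun q hq =>
        (n5 p hp q hq).1.const_mul _]
      refine Finset.sum_congr rfl fun p hp => ?_
      rw [integral_finsetSum _ fun q hq => (n5 p hp q hq).1.const_mul _]
      refine Finset.sum_congr rfl fun q hq => ?_
      rw [integral_const_mul]
    rw [e2]
    simp only [hS2]
    rw [integral_finsetSum _ fun p hp => integrable_finsetSum _ fun q hq =>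
      (n5 p hp q hq).2.1.const_mul _]
    refine Finset.sum_congr rfl fun p hp => ?_
    rw [integral_finsetSum _ fun q hq => (n5 p hp q hq).2.1.const_mul _]
    refine Finset.sum_congr rfl fun q hq => ?_
    rw [integral_const_mul, (n5 p hp q hq).2.2]
  have i2 : Integrable (fun z => ζ z * Mn L₂ (hh m) φ' n z) :=
    STA.int0 hK (hζc.mul hMc) fun z hz => by rw [hζ0 z hz, zero_mul]
  have e2 : ∫ z, ζ z * Mn L₂ (hh m) φ' n z ≤ B * |C'| := by
    have e1 : ∫ z, ζ z * Mn L₂ (hh m) φ' n z = ∫ z in K, ζ z * Mn L₂ (hh m) φ' n z := by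
      rw [setIntegral_eq_integral_of_forall_compl_eq_zero]
      intro z hz
      rw [hζ0 z hz, zero_mul]
    rw [e1]
    calc ∫ z in K, ζ z * Mn L₂ (hh m) φ' n z ≤ ∫ z in K, B * Mn L₂ (hh m) φ' n z := by
          refine setIntegral_mono_on ((hζc.mul hMc).continuousOn.integrableOn_compact hK)
            ((continuous_const.mul hMc).continuousOn.integrableOn_compact hK)
            hK.measurableSet fun z _ => ?_
          exact mul_le_mul_of_nonneg_right (hBz z) (hM0 z)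
      _ = B * ∫ z in K, Mn L₂ (hh m) φ' n z := integral_const_mul _ _
      _ ≤ B * |C'| := mul_le_mul_of_nonneg_left (n6.trans (le_abs_self C')) hB0
  have i3' : ∀ k : ℤ, Integrable (fun z => ζ z * ‖aJ σ (hh m) φ' n z k‖ ^ 2) := fun k =>
    STA.int0 hK (hζc.mul ((cont_aJ A.loc n k).norm.pow 2)) fun z hz => by
      rw [hζ0 z hz, zero_mul]
  have hT2 : ∀ z, ζ z * T z = ∑ k ∈ IM N,
      1 / (1 + (k : ℝ) ^ 2) * (ζ z * ‖aJ σ (hh m) φ' n z k‖ ^ 2) := by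
    intro z
    rw [hTdef]
    simp only
    rw [Finset.mul_sum]
    refine Finset.sum_congr rfl fun k _ => ?_
    ring
  have i3 : Integrable (fun z => ζ z * T z) := by
    simp only [hT2]
    exact integrable_finsetSum _ fun k _ => (i3' k).const_mul _
  have e3 : ∫ z, ζ z * T z ≤ 5 * C₁ := by
    simp only [hT2]
    rw [integral_finsetSum _ fun k _ => (i3' k).const_mul _]
    calc ∑ k ∈ IM N, ∫ z, 1 / (1 + (k : ℝ) ^ 2) * (ζ z * ‖aJ σ (hh m) φ' n z k‖ ^ 2)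
        ≤ ∑ k ∈ IM N, 1 / (1 + (k : ℝ) ^ 2) * C₁ := by
          refine Finset.sum_le_sum fun k hk => ?_
          rw [integral_const_mul]
          exact mul_le_mul_of_nonneg_left (n7 k hk) (by positivity)
      _ = (∑ k ∈ IM N, 1 / (1 + (k : ℝ) ^ 2)) * C₁ := by rw [Finset.sum_mul]
      _ ≤ 5 * C₁ := mul_le_mul_of_nonneg_right (sum_inv N) hC₁0.le
  have i4 : Integrable (fun z => ζ z * I₀ z) := by
    have h1 := ((i1.const_mul 24).add (i2.const_mul (27 * ε₁ ^ 2))).add (i3.const_mul (3 * δ))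
    refine h1.congr (Eventually.of_forall fun z => ?_)
    rw [hI]
    simp only [Pi.add_apply]
    ring
  have e4 : ∫ z, ζ z * I₀ z ≤ ε := by
    have h1 : ∫ z, ζ z * I₀ z = 24 * (∫ z, ζ z * ∫ t, S z t ∂ang)
        + 27 * ε₁ ^ 2 * (∫ z, ζ z * Mn L₂ (hh m) φ' n z) + 3 * δ * ∫ z, ζ z * T z := by
      rw [← int3 i1 i2 i3]
      refine integral_congr_ae (Eventually.of_forall fun z => ?_)
      rw [hI]
      simp only
      ring
    rw [h1]
    have h2 : 27 * ε₁ ^ 2 * (∫ z, ζ z * Mn L₂ (hh m) φ' n z) ≤ ε / 4 := by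
      calc 27 * ε₁ ^ 2 * (∫ z, ζ z * Mn L₂ (hh m) φ' n z) ≤ 27 * ε₁ ^ 2 * (B * |C'|) :=
            mul_le_mul_of_nonneg_left e2 (by positivity)
        _ ≤ 30 * ε₁ ^ 2 * (B * |C'| + 1) := by
            have h3 : 0 ≤ B * |C'| := mul_nonneg hB0 (abs_nonneg _)
            have h4 : 0 ≤ ε₁ ^ 2 := sq_nonneg _
            nlinarith [mul_nonneg h4 h3]
        _ = ε / 4 := by
            rw [hε₁s]
            have h3 : B * |C'| + 1 ≠ 0 := by positivity
            field_simp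
            norm_num
    have h3 : 3 * δ * (∫ z, ζ z * T z) ≤ ε / 4 := by
      calc 3 * δ * (∫ z, ζ z * T z) ≤ 3 * δ * (5 * C₁) :=
            mul_le_mul_of_nonneg_left e3 (by positivity)
        _ = ε / 4 := by
            rw [hδ]
            field_simp
            norm_num
    linarith
  -- the conclusion
  have hzero : ∀ z, 0 ≤ ζ z * I₀ z := by
    intro z
    by_cases hz : z ∈ K
    · exact mul_nonneg (hζ.nonneg z) ((sq_nonneg _).trans (hpt2 z hz 1 norm_one))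
    · rw [hζ0 z hz, zero_mul]
  unfold mz
  refine (lintegral_withDensity_le_lintegral_mul _
    (ENNReal.measurable_ofReal.comp hζc.measurable) _).trans ?_
  calc ∫⁻ z, ((fun z => ENNReal.ofReal (ζ z)) * fun z => ⨆ (v : ℂ) (_ : ‖v‖ = 1),
          ENNReal.ofReal (‖wv M (aJ σ (hh m) φ' n z) v‖ ^ 2)) z
      ≤ ∫⁻ z, ENNReal.ofReal (ζ z * I₀ z) := by
        refine lintegral_mono fun z => ?_
        simp only [Pi.mul_apply]
        by_cases hz : z ∈ K
        · rw [ENNReal.ofReal_mul (hζ.nonneg z)]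
          exact mul_le_mul_right (iSup₂_le fun v hv =>
            ENNReal.ofReal_le_ofReal (hpt2 z hz v hv)) _
        · rw [hζ0 z hz, ENNReal.ofReal_zero, zero_mul]
          exact zero_le
    _ = ENNReal.ofReal (∫ z, ζ z * I₀ z) :=
        (ofReal_integral_eq_lintegral_ofReal i4 (Eventually.of_forall hzero)).symm
    _ ≤ ENNReal.ofReal ε := ENNReal.ofReal_le_ofReal e4

end

end PKM
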