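import Pool.Agent.PKM.St2b
import Pool.Agent.BSL.TAY

/-!
# PKM_LNK (helper49): the two kinds of windows
-/

open Complex MeasureTheory Filter Topology Set
open UpperHalfPlane hiding I
open scoped ContDiff MatrixGroups ProbabilityTheory ENNReal

namespace PKM

open QE QE.NC QJ U3 NFP BSL

noncomputable section

namespace LNK

variable {V : Set ℂ} {σ : ℂ → ℝ} {h : ℕ → ℝ} {φ : ℕ → ℂ → ℂ}

/-- a sum over the even indices -/
lemma sum_even (N : ℕ) (f : ℤ → ℂ) (hf : ∀ k : ℤ, f (2 * k + 1) = 0) :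
    ∑ j ∈ Finset.Icc (-((2 * N : ℕ) : ℤ)) ((2 * N : ℕ) : ℤ), f j = ∑ k ∈ IM N, f (2 * k) := by
  have h1 : ∑ k ∈ IM N, f (2 * k) = ∑ j ∈ (IM N).image (fun k => 2 * k), f j := by
    rw [Finset.sum_image]
    intro a _ b _ hab
    simp only at hab
    omega
  rw [h1]
  symm
  refine Finset.sum_subset ?_ ?_
  · intro j hj
    obtain ⟨k, hk, rfl⟩ := Finset.mem_image.1 hj
    rw [IM, Finset.mem_Icc] at hk
    rw [Finset.mem_Icc]
    push_cast
    omega
  · intro j hj hj'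
    rcases Int.even_or_odd' j with ⟨k, rfl | rfl⟩
    · exfalso
      refine hj' (Finset.mem_image.2 ⟨k, ?_, rfl⟩)
      rw [Finset.mem_Icc] at hj
      push_cast at hj
      rw [IM, Finset.mem_Icc]
      omega
    · exact hf k

lemma negI_two (k : ℤ) : (-I : ℂ) ^ (2 * k) = (-1) ^ k := by
  rw [zpow_mul]
  congr 1
  rw [zpow_ofNat, neg_sq, I_sq]

/-- the even part of the Taylor polynomial -/
lemma tay_even (N n : ℕ) (z : ℂ) {u : ℂ} (hu : ‖u‖ = 1) (Y : ℂ) :
    TayE σ h φ (2 * N) n z (u * Y) + TayE σ h φ (2 * N) n z (-(u * Y)) =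
      2 * ∑ k ∈ IM N, CN (2 * N) (2 * k) Y * (aJ σ h φ n z k * u ^ (2 * k)) := by
  unfold TayE kap1
  rw [← Finset.sum_add_distrib, sum_even, Finset.mul_sum]
  · refine Finset.sum_congr rfl fun k _ => ?_
    rw [CN_neg, CN_rot _ hu, negI_two, (even_two_mul k).neg_one_zpow]
    unfold aJ
    ring
  · intro k
    rw [CN_neg, Odd.neg_one_zpow ⟨k, rfl⟩]
    ring

/-- the windows on the Taylor polynomials -/
lemma exact (hB : StmtBn1) {M N : ℕ} (hMN : M ≤ N) {r : ℕ} (w : Fin r → ℝ) (x : Fin r → ℂ) (n : ℕ)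
    (z : ℂ) {u : ℂ} (hu : ‖u‖ = 1) (v : ℂ) :
    wv M (aJ σ h φ n z) (u * v) - tw M w x (fun y => TayE σ h φ (2 * N) n z y) u v
      - ∑ k ∈ IM N, gk M N w x v k * (aJ σ h φ n z k * u ^ (2 * k)) = 0 := by
  have h1 : wv M (aJ σ h φ n z) (u * v) =
      ∑ k ∈ IM N, (be M k : ℂ) * v ^ (2 * k) * (aJ σ h φ n z k * u ^ (2 * k)) := by
    unfold wv
    have h2 : IM M ⊆ IM N := by
      intro k hk
      rw [IM, Finset.mem_Icc] at hk ⊢
      omega
    rw [Finset.sum_subset h2]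
    · refine Finset.sum_congr rfl fun k _ => ?_
      rw [mul_zpow]
      ring
    · intro k _ hk
      have h3 : (M : ℤ) < |k| := by
        rw [IM, Finset.mem_Icc, not_and_or, not_le, not_le] at hk
        rcases hk with hk | hk
        · exact lt_of_lt_of_le (by omega) (neg_le_abs k)
        · exact lt_of_lt_of_le hk (le_abs_self k)
      rw [(hB M).2.2.1 k h3]
      simp
  have h2 : tw M w x (fun y => TayE σ h φ (2 * N) n z y) u v =
      ∑ k ∈ IM N, (∑ p ∈ IM (4 * M), ∑ q ∈ IM (4 * M), ∑ i,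
        ((be (4 * M) p * be (4 * M) q * (w i * (2 * Real.cos (PWV.ip v (x i + lp p q)))) : ℝ) : ℂ)
          * CN (2 * N) (2 * k) (x i + lp p q)) * (aJ σ h φ n z k * u ^ (2 * k)) := by
    unfold tw
    simp only [Finset.sum_mul]
    conv_rhs => rw [Finset.sum_comm]
    refine Finset.sum_congr rfl fun p _ => ?_
    conv_rhs => rw [Finset.sum_comm]
    refine Finset.sum_congr rfl fun q _ => ?_
    conv_rhs => rw [Finset.sum_comm]
    refine Finset.sum_congr rfl fun i _ => ?_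
    rw [tay_even N n z hu, Finset.mul_sum, Finset.mul_sum]
    refine Finset.sum_congr rfl fun k _ => ?_
    push_cast
    ring
  rw [h1, h2, ← Finset.sum_sub_distrib, ← Finset.sum_sub_distrib]
  refine Finset.sum_eq_zero fun k _ => ?_
  unfold gk
  ring

lemma norm_pt {M : ℕ} {r : ℕ} (x : Fin r → ℂ) (i : Fin r) {p q : ℤ} (hp : p ∈ IM (4 * M))
    (hq : q ∈ IM (4 * M)) : ‖x i + lp p q‖ ≤ ∑ i, ‖x i‖ + 8 * M := by
  rw [IM, Finset.mem_Icc] at hp hq
  have hp1 : |(p : ℝ)| ≤ 4 * M := by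
    rw [abs_le]
    constructor
    · have := hp.1
      have h1 : (-((4 * M : ℕ) : ℤ) : ℝ) ≤ (p : ℝ) := by exact_mod_cast this
      push_cast at h1
      exact h1
    · have := hp.2
      have h1 : (p : ℝ) ≤ (((4 * M : ℕ) : ℤ) : ℝ) := by exact_mod_cast this
      push_cast at h1
      exact h1
  have hq1 : |(q : ℝ)| ≤ 4 * M := by
    rw [abs_le]
    constructor
    · have := hq.1
      have h1 : (-((4 * M : ℕ) : ℤ) : ℝ) ≤ (q : ℝ) := by exact_mod_cast this
      push_cast at h1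
      exact h1
    · have := hq.2
      have h1 : (q : ℝ) ≤ (((4 * M : ℕ) : ℤ) : ℝ) := by exact_mod_cast this
      push_cast at h1
      exact h1
  have h1 : ‖x i‖ ≤ ∑ i, ‖x i‖ :=
    Finset.single_le_sum (f := fun i => ‖x i‖) (fun _ _ => norm_nonneg _) (Finset.mem_univ i)
  have h2 : ‖lp p q‖ ≤ |(p : ℝ)| + |(q : ℝ)| := by
    unfold lp
    refine (norm_add_le _ _).trans ?_
    rw [norm_mul, norm_I, mul_one, Complex.norm_intCast, Complex.norm_intCast]
  calc ‖x i + lp p q‖ ≤ ‖x i‖ + ‖lp p q‖ := norm_add_le _ _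
    _ ≤ _ := by linarith

/-- comparison of the windows on two functions -/
lemma tw_sub (hB : StmtBn1) (M : ℕ) {r : ℕ} (w : Fin r → ℝ) (x : Fin r → ℂ) (hw : ∀ i, 0 ≤ w i)
    (hw1 : ∑ i, w i = 1) (f g : ℂ → ℂ) {u : ℂ} (hu : ‖u‖ = 1) (v : ℂ) {e : ℝ}
    (he : ∀ y : ℂ, ‖y‖ ≤ ∑ i, ‖x i‖ + 8 * M → ‖f y - g y‖ ≤ e / 2) :
    ‖tw M w x f u v - tw M w x g u v‖ ≤ e := by
  have h0 : ∀ p ∈ IM (4 * M), ∀ q ∈ IM (4 * M), ∀ i,
      ‖((be (4 * M) p * be (4 * M) q * (w i * Real.cos (PWV.ip v (x i + lp p q))) : ℝ) : ℂ)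
        * (f (u * (x i + lp p q)) + f (-(u * (x i + lp p q)))) -
      ((be (4 * M) p * be (4 * M) q * (w i * Real.cos (PWV.ip v (x i + lp p q))) : ℝ) : ℂ)
        * (g (u * (x i + lp p q)) + g (-(u * (x i + lp p q))))‖ ≤
      be (4 * M) p * be (4 * M) q * (w i * e) := by
    intro p hp q hq i
    have hY := norm_pt x i hp hq
    have h1 : ‖u * (x i + lp p q)‖ ≤ ∑ i, ‖x i‖ + 8 * M := by rwa [norm_mul, hu, one_mul]
    have h2 : ‖-(u * (x i + lp p q))‖ ≤ ∑ i, ‖x i‖ + 8 * M := by rwa [norm_neg]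
    have h3 := he _ h1
    have h4 := he _ h2
    rw [← mul_sub, norm_mul, Complex.norm_real, Real.norm_eq_abs,
      abs_mul (be (4 * M) p * be (4 * M) q), abs_mul (w i),
      abs_of_nonneg (mul_nonneg ((hB (4 * M)).1 p) ((hB (4 * M)).1 q)), abs_of_nonneg (hw i)]
    have h5 : ‖f (u * (x i + lp p q)) + f (-(u * (x i + lp p q))) -
        (g (u * (x i + lp p q)) + g (-(u * (x i + lp p q))))‖ ≤ e := by
      have h6 : f (u * (x i + lp p q)) + f (-(u * (x i + lp p q))) -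
          (g (u * (x i + lp p q)) + g (-(u * (x i + lp p q)))) =
          (f (u * (x i + lp p q)) - g (u * (x i + lp p q))) +
          (f (-(u * (x i + lp p q))) - g (-(u * (x i + lp p q)))) := by ring
      rw [h6]
      refine (norm_add_le _ _).trans ?_
      linarith
    have h7 := Real.abs_cos_le_one (PWV.ip v (x i + lp p q))
    have h8 : 0 ≤ be (4 * M) p * be (4 * M) q :=
      mul_nonneg ((hB (4 * M)).1 p) ((hB (4 * M)).1 q)
    rw [mul_assoc]
    refine mul_le_mul_of_nonneg_left ?_ h8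
    rw [mul_assoc]
    refine mul_le_mul_of_nonneg_left ?_ (hw i)
    calc _ ≤ 1 * e := mul_le_mul h7 h5 (norm_nonneg _) zero_le_one
      _ = e := one_mul e
  have h1 : ∑ p ∈ IM (4 * M), ∑ q ∈ IM (4 * M), ∑ i, be (4 * M) p * be (4 * M) q * (w i * e) = e := by
    have h2 := (hB (4 * M)).2.2.2.2.1
    have h3 : ∀ p q : ℤ, ∑ i, be (4 * M) p * be (4 * M) q * (w i * e) =
        be (4 * M) p * be (4 * M) q * e := by
      intro p q
      rw [← Finset.mul_sum, ← Finset.sum_mul, hw1, one_mul]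
    simp only [h3]
    have h4 : ∀ p : ℤ, ∑ q ∈ IM (4 * M), be (4 * M) p * be (4 * M) q * e = be (4 * M) p * e := by
      intro p
      rw [← Finset.sum_mul, ← Finset.mul_sum, h2, mul_one]
    simp only [h4]
    rw [← Finset.sum_mul, h2, one_mul]
  unfold tw
  simp only [← Finset.sum_sub_distrib]
  refine (norm_sum_le _ _).trans (le_trans ?_ h1.le)
  refine Finset.sum_le_sum fun p hp => ?_
  refine (norm_sum_le _ _).trans (Finset.sum_le_sum fun q hq => ?_)
  refine (norm_sum_le _ _).trans (Finset.sum_le_sum fun i _ => ?_)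
  exact h0 p hp q hq i

end LNK

theorem t_LNK (hB : StmtBn1) : StmtLnk := by
  intro V σ h φ LB K hK hKV M r w x hw hw1
  obtain ⟨L, hL, h1⟩ := tAY V σ h φ LB K hK hKV (∑ i, ‖x i‖ + 8 * M)
  refine ⟨L, hL, fun ε hε => ?_⟩
  obtain ⟨N₁, hN₁⟩ := h1 (ε / 2) (by positivity)
  refine ⟨max M N₁, fun N hN => ?_⟩
  have hMN : M ≤ N := (le_max_left _ _).trans hN
  have hN2 : N₁ ≤ 2 * N := by
    have := (le_max_right M N₁).trans hN
    omega
  filter_upwards [hN₁ (2 * N) hN2] with n hn z hz u v hu _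
  have h2 := LNK.exact (σ := σ) (h := h) (φ := φ) hB hMN w x n z hu v
  have h3 := LNK.tw_sub hB M w x hw hw1 (fun y => TayE σ h φ (2 * N) n z y)
    (fun y => φ n (dp σ h n z y)) hu v (e := ε * √(Mn L h φ n z)) (fun y hy => by
      rw [norm_sub_rev]
      refine (hn z hz y hy).2.trans (le_of_eq ?_)
      ring)
  have h4 : wv M (aJ σ h φ n z) (u * v) - tw M w x (fun y => φ n (dp σ h n z y)) u v
      - ∑ k ∈ IM N, gk M N w x v k * (aJ σ h φ n z k * u ^ (2 * k)) =
      tw M w x (fun y => TayE σ h φ (2 * N) n z y) u v -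
        tw M w x (fun y => φ n (dp σ h n z y)) u v := by
    linear_combination h2
  rw [h4]
  exact h3

end

end PKM
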