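import Pool.Agent.PKM.St2b
import Pool.Agent.BSL.CUT

/-!
# No plane waves in the mean square: the assembly (module NWM)
-/

set_option autoImplicit false

open Complex MeasureTheory Filter Topology Set
open UpperHalfPlane hiding I
open scoped ContDiff MatrixGroups ProbabilityTheory ENNReal

namespace PKM

open QE QE.NC QJ U3 NFP BSL

noncomputable section

namespace NWM

/-- integrals with respect to `mz ζ` -/
lemma int_mz {ζ : ℂ → ℝ} (hc : Continuous ζ) (h0 : ∀ z, 0 ≤ ζ z) (f : ℂ → ℝ) :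
    ∫ z, f z ∂(mz ζ) = ∫ z, ζ z * f z := by
  unfold mz
  rw [integral_withDensity_eq_integral_toReal_smul hc.measurable.ennreal_ofReal
    (Eventually.of_forall fun z => ENNReal.ofReal_lt_top)]
  refine integral_congr_ae (Eventually.of_forall fun z => ?_)
  beta_reduce
  rw [ENNReal.toReal_ofReal (h0 z), smul_eq_mul]

end NWM

open NWM in
/-- **NWM**: no plane waves in the mean square: no mass is lost, and the fourth moment is at most
three. -/
theorem t_NWM (h1 : StmtWin) (h2 : StmtLnf) (h3 : StmtJmg) (h4 : StmtChn) (h5 : StmtCmm)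
    (h6 : StmtCmf) : StmtNwm := by
  intro Γ _ D ρ φ m s hS hSem hma hno hW Ω _ P _ F hFm hF
  obtain ⟨ζ, hζ⟩ := t_CUT Γ D ρ hS.mD hS.fd hS.fac
  set K : Set ℂ := tsupport (fun z => (ζ z : ℂ)) with hKdef
  have hK : IsCompact K := hζ.test.supp
  obtain ⟨V, F', σ, φ', hKV, -, -, -, A⟩ := stmtLcz UH (gr ρ) (hh m) (ph φ) isOpen_UH
    (U3.WGA.contDiffOn_gr hS.fac.smooth) (fun z hz => U3.WGA.gr_pos hz) hS.loc K hK hζ.test.sub
  have hζc : Continuous ζ := Complex.continuous_re.comp hζ.test.smooth.continuous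
  have hζ0 : ∀ z, z ∉ V → ζ z = 0 := by
    intro z hz
    have h1 : ((ζ z : ℝ) : ℂ) = 0 := by
      by_contra hne
      exact hz (hKV (subset_tsupport (fun z => (ζ z : ℂ)) hne))
    exact_mod_cast h1
  have hJM := h3 Γ D ρ φ m s hS hSem hma hno ζ hζ V σ φ' A hKV
  have hNoJ := h2 Γ D ρ φ m s hS hSem ζ hζ V σ φ' A hKV (h1 Γ D ρ φ m hS hW)
  obtain ⟨c1, c2⟩ := h5 ℂ (mz ζ) (aJ σ (hh m) φ') (vv ζ s) hJM
    (h4 ℂ (mz ζ) (aJ σ (hh m) φ') (vv ζ s) hJM hNoJ)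
  -- the jet of order zero
  have e0 : ∀ n z, ‖aJ σ (hh m) φ' n z 0‖ ^ 2 = ‖φ' n z‖ ^ 2 := by
    intro n z
    unfold aJ
    rw [zpow_zero, one_mul, mul_zero]
    rfl
  have e1 : ∀ n, ∀ z ∈ V, ‖φ' n z‖ ^ 2 = φ n (ofComplex z) ^ 2 := by
    intro n z hz
    rw [A.eφ n z hz]
    unfold ph
    rw [Complex.norm_real, Real.norm_eq_abs, sq_abs]
  have e2 : ∀ (G : ℝ → ℝ) n, ∫ z, G (‖aJ σ (hh m) φ' n z 0‖ ^ 2) ∂(mz ζ)
      = ∫ z, ζ z * G (φ n (ofComplex z) ^ 2) := by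
    intro G n
    rw [int_mz hζc hζ.nonneg]
    refine integral_congr_ae (Eventually.of_forall fun z => ?_)
    beta_reduce
    by_cases hz : z ∈ V
    · rw [e0, e1 n z hz]
    · rw [hζ0 z hz, zero_mul, zero_mul]
  refine h6 Γ D ρ φ m hS Ω P F hFm hF ζ hζ (fun ε hε => ?_) fun L hL ε hε => ?_
  · obtain ⟨Λ, hΛ, h⟩ := c1 ε hε
    refine ⟨Λ, hΛ, ?_⟩
    filter_upwards [h] with n hn
    rwa [← e2 (fun t => max (t - Λ) 0) n]
  · filter_upwards [c2 L hL ε hε] with n hn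
    rwa [← e2 (fun t => min t L ^ 2) n]

end

end PKM
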