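import Pool.Agent.PKM.St2a

/-!
# The Fourier transform of the binomial weights
-/

set_option autoImplicit false

open Complex MeasureTheory Filter Topology Set

namespace PKM

noncomputable section

namespace PDS

theorem sum_IM (m : ℕ) (f : ℤ → ℂ) :
    ∑ k ∈ IM m, f k = ∑ j ∈ Finset.range (2 * m + 1), f ((j : ℤ) - m) := by
  symm
  refine Finset.sum_nbij' (fun j : ℕ => (j : ℤ) - m) (fun k : ℤ => (k + m).toNat)
    ?_ ?_ ?_ ?_ ?_
  · intro j hj
    simp only [Finset.mem_range] at hj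
    simp only [IM, Finset.mem_Icc]
    omega
  · intro k hk
    simp only [IM, Finset.mem_Icc] at hk
    simp only [Finset.mem_range]
    omega
  · intro j _
    simp
  · intro k hk
    simp only [IM, Finset.mem_Icc] at hk
    omega
  · intro j _
    rfl

theorem be_shift (m j : ℕ) : be m ((j : ℤ) - m) = ((2 * m).choose j : ℝ) / 4 ^ m := by
  unfold be
  rw [if_pos (by omega)]
  have h : ((j : ℤ) - m + m).toNat = j := by omega
  rw [h]

theorem one (m : ℕ) (t : ℝ) :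
    ∑ k ∈ IM m, (be m k : ℂ) * Complex.exp ((k : ℂ) * t * Complex.I)
      = ((Real.cos (t / 2) ^ (2 * m) : ℝ) : ℂ) := by
  have h1 : Complex.exp ((t / 2 : ℂ) * Complex.I) + Complex.exp (-(t / 2 : ℂ) * Complex.I)
      = 2 * ((Real.cos (t / 2) : ℝ) : ℂ) := by
    rw [Complex.ofReal_cos, Complex.cos]
    push_cast
    ring
  have h2 := add_pow (Complex.exp ((t / 2 : ℂ) * Complex.I))
    (Complex.exp (-(t / 2 : ℂ) * Complex.I)) (2 * m)
  rw [h1] at h2
  have h3 : ((Real.cos (t / 2) ^ (2 * m) : ℝ) : ℂ) =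
      (2 * ((Real.cos (t / 2) : ℝ) : ℂ)) ^ (2 * m) / 4 ^ m := by
    rw [mul_pow, pow_mul (2 : ℂ) 2 m]
    norm_num
  rw [h3, h2, sum_IM, Finset.sum_div]
  refine Finset.sum_congr rfl fun j hj => ?_
  have hj' : j ≤ 2 * m := by
    simp only [Finset.mem_range] at hj
    omega
  rw [be_shift, ← Complex.exp_nat_mul, ← Complex.exp_nat_mul, ← Complex.exp_add]
  have h4 : (((j : ℤ) - m : ℤ) : ℂ) * t * Complex.I =
      (j : ℂ) * ((t / 2 : ℂ) * Complex.I) + ((2 * m - j : ℕ) : ℂ) * (-(t / 2 : ℂ) * Complex.I) := by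
    rw [Nat.cast_sub hj']
    push_cast
    ring
  rw [h4]
  push_cast
  ring

end PDS

/-- PDS. -/
theorem t_PDS : StmtPds := by
  refine ⟨PDS.one, fun m ξ => ?_⟩
  have h1 := PDS.one m ξ.re
  have h2 := PDS.one m ξ.im
  have h3 : (pd m ξ : ℂ) = ((Real.cos (ξ.re / 2) ^ (2 * m) : ℝ) : ℂ) *
      ((Real.cos (ξ.im / 2) ^ (2 * m) : ℝ) : ℂ) := by
    unfold pd
    push_cast
    ring
  rw [h3, ← h1, ← h2, Finset.sum_mul]
  refine Finset.sum_congr rfl fun p _ => ?_
  rw [Finset.mul_sum]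
  refine Finset.sum_congr rfl fun q _ => ?_
  have h4 : (((p : ℝ) * ξ.re + (q : ℝ) * ξ.im : ℝ) : ℂ) * Complex.I =
      (p : ℂ) * (ξ.re : ℂ) * Complex.I + (q : ℂ) * (ξ.im : ℂ) * Complex.I := by
    push_cast
    ring
  rw [h4, Complex.exp_add]
  push_cast
  ring

end

end PKM
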