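import Pool.Agent.PKM.St2a

/-!
# PT1, PT2: real inequalities
-/

set_option autoImplicit false

namespace PKM

theorem t_PT1 : StmtPt1 := by
  intro X N S T C K hX hN hS hT hC hK h
  have hK0 : 0 < K := by linarith
  have hCS : 0 ≤ C * S := mul_nonneg hC hS
  have hNK : 0 ≤ N / K := div_nonneg hN hK0.le
  have e1 : (1 + 2 / K) * N = N + 2 * (N / K) := by ring
  rcases le_or_gt X K with hXK | hXK
  · have h1 : min ((X - 1) ^ 2) 1 ≤ (X - 1) ^ 2 := min_le_left _ _
    have h2 : C * S * X ≤ C * S * K := mul_le_mul_of_nonneg_left hXK hCS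
    have h3 : X * T ≤ K * T := mul_le_mul_of_nonneg_right hXK hT
    nlinarith
  · have h1 : min ((X - 1) ^ 2) 1 ≤ 1 := min_le_right _ _
    have hX0 : 0 < X := by linarith
    have h2 : N ≤ N / K * X := by
      have : N = N / K * K := by field_simp
      nlinarith
    have h3 : X * X ≤ (N / K + C * S + 2 * T) * X := by nlinarith
    have h4 : X ≤ N / K + C * S + 2 * T := le_of_mul_le_mul_right h3 hX0
    have h5 : 0 ≤ C * S * K := mul_nonneg hCS hK0.le
    have h6 : 0 ≤ K * T := mul_nonneg hK0.le hT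
    nlinarith

theorem t_PT2 : StmtPt2 := by
  constructor
  · intro X D L δ hXD hL hδ hδ1
    have hm0 : 0 ≤ min ((X - 1) ^ 2) 1 := le_min (sq_nonneg _) zero_le_one
    have hq0 : 0 ≤ L ^ 2 / δ ^ 2 := by positivity
    have hmin0 : 0 ≤ min (X + D) L := le_min hXD hL
    rcases le_or_gt (|X - 1|) δ with h | h
    · have h1 : X - 1 ≤ δ := (le_abs_self _).trans h
      have h2 : min (X + D) L ≤ 1 + δ + D := (min_le_left _ _).trans (by linarith)
      have h3 : min (X + D) L ^ 2 ≤ (1 + δ + D) ^ 2 := pow_le_pow_left₀ hmin0 h2 2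
      have h4 : 0 ≤ L ^ 2 / δ ^ 2 * min ((X - 1) ^ 2) 1 := mul_nonneg hq0 hm0
      linarith
    · have h1 : δ ^ 2 ≤ (X - 1) ^ 2 := by
        rw [← sq_abs (X - 1)]
        exact pow_le_pow_left₀ hδ.le h.le 2
      have h2 : δ ^ 2 ≤ 1 := pow_le_one₀ hδ.le hδ1
      have h3 : δ ^ 2 ≤ min ((X - 1) ^ 2) 1 := le_min h1 h2
      have h4 : min (X + D) L ^ 2 ≤ L ^ 2 := pow_le_pow_left₀ hmin0 (min_le_right _ _) 2
      have h5 : L ^ 2 / δ ^ 2 * δ ^ 2 ≤ L ^ 2 / δ ^ 2 * min ((X - 1) ^ 2) 1 :=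
        mul_le_mul_of_nonneg_left h3 hq0
      have h6 : L ^ 2 / δ ^ 2 * δ ^ 2 = L ^ 2 := by field_simp
      have h7 : 0 ≤ (1 + δ + D) ^ 2 := sq_nonneg _
      linarith
  · intro X D Λ δ hX hΛ hδ
    have hm0 : 0 ≤ min ((X - 1) ^ 2) 1 := le_min (sq_nonneg _) zero_le_one
    have hA : |X - 1| ≤ (X - 1) + 2 * (δ + min ((X - 1) ^ 2) 1 / δ) := by
      rcases le_or_gt 1 X with h | h
      · rw [abs_of_nonneg (by linarith)]
        have : 0 ≤ min ((X - 1) ^ 2) 1 / δ := div_nonneg hm0 hδ.le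
        linarith
      · rw [abs_of_neg (by linarith)]
        have h1 : (X - 1) ^ 2 ≤ 1 := by nlinarith
        rw [min_eq_left h1]
        have h2 : 1 - X ≤ δ + (X - 1) ^ 2 / δ := by
          have h3 : (δ + (X - 1) ^ 2 / δ) = (δ ^ 2 + (X - 1) ^ 2) / δ := by field_simp
          rw [h3, le_div_iff₀ hδ]
          nlinarith [sq_nonneg (1 - X - δ), sq_nonneg (1 - X), sq_nonneg δ]
        linarith
    have hB : (1 + D) - Λ ≤ (1 + D) ^ 2 / (4 * Λ) := by
      rw [le_div_iff₀ (by positivity)]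
      nlinarith [sq_nonneg (1 + D - 2 * Λ)]
    have hC : 0 ≤ (1 + D) ^ 2 / (4 * Λ) := by positivity
    have hD : 0 ≤ |X - 1| := abs_nonneg _
    have hE : X - 1 ≤ |X - 1| := le_abs_self _
    apply max_le
    · linarith
    · linarith

end PKM
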