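import Pool.Agent.PKM.St2b

/-!
# The symmetrised coefficients of the plane waves are bounded by `sb`
-/

open Complex MeasureTheory Filter Topology Set
open UpperHalfPlane hiding I
open scoped ContDiff MatrixGroups ProbabilityTheory ENNReal

namespace PKM

open QE QE.NC QJ U3 NFP BSL

noncomputable section

namespace PWB

theorem jensen {ι : Type*} (s : Finset ι) (b I : ι → ℝ) (hb : ∀ i ∈ s, 0 ≤ b i)
    (h1 : ∑ i ∈ s, b i = 1) : (∑ i ∈ s, b i * I i) ^ 2 ≤ ∑ i ∈ s, b i * I i ^ 2 := by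
  set T := ∑ i ∈ s, b i * I i with hT
  have h2 : 0 ≤ ∑ i ∈ s, b i * (I i - T) ^ 2 :=
    Finset.sum_nonneg fun i hi => mul_nonneg (hb i hi) (sq_nonneg _)
  have h3 : ∑ i ∈ s, b i * (I i - T) ^ 2 = ∑ i ∈ s, b i * I i ^ 2 - T ^ 2 := by
    have h4 : ∀ i ∈ s, b i * (I i - T) ^ 2 = b i * I i ^ 2 - 2 * T * (b i * I i) + T ^ 2 * b i :=
      fun i _ => by ring
    rw [Finset.sum_congr rfl h4, Finset.sum_add_distrib, Finset.sum_sub_distrib,
      ← Finset.mul_sum, ← Finset.mul_sum, h1, ← hT]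
    ring
  linarith

theorem ip_add (v x y : ℂ) : PWV.ip v (x + y) = PWV.ip v x + PWV.ip v y := by
  unfold PWV.ip
  rw [map_add, mul_add, Complex.add_re]

/-- one translate -/
theorem one {r : ℕ} (w : Fin r → ℝ) (x : Fin r → ℂ) (g : Fin r → ℝ) (v y : ℂ) :
    (∑ i, w i * Real.cos (PWV.ip v (x i + y)) * g i) ^ 2 ≤ ‖pwc w x g v‖ ^ 2 := by
  have h1 : ∑ i, w i * Real.cos (PWV.ip v (x i + y)) * g i =
      (Complex.exp (-(Complex.I * (PWV.ip v y : ℂ))) * pwc w x g v).re := by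
    unfold pwc
    rw [Finset.mul_sum, Complex.re_sum]
    refine Finset.sum_congr rfl fun i _ => ?_
    have h2 : Complex.exp (-(Complex.I * (PWV.ip v y : ℂ))) *
        (((w i * g i : ℝ) : ℂ) * Complex.exp (-(Complex.I * (PWV.ip v (x i) : ℂ)))) =
        ((w i * g i : ℝ) : ℂ) * Complex.exp (((-(PWV.ip v (x i + y)) : ℝ) : ℂ) * Complex.I) := by
      rw [mul_left_comm, ← Complex.exp_add, ip_add]
      congr 2
      push_cast
      ring
    rw [h2, Complex.re_ofReal_mul, Complex.exp_ofReal_mul_I_re, Real.cos_neg]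
    ring
  have h3 : ‖Complex.exp (-(Complex.I * (PWV.ip v y : ℂ)))‖ = 1 := by
    have h4 : -(Complex.I * (PWV.ip v y : ℂ)) = ((-(PWV.ip v y) : ℝ) : ℂ) * Complex.I := by
      push_cast
      ring
    rw [h4, Complex.norm_exp_ofReal_mul_I]
  have h5 : |∑ i, w i * Real.cos (PWV.ip v (x i + y)) * g i| ≤ ‖pwc w x g v‖ := by
    rw [h1]
    refine (Complex.abs_re_le_norm _).trans ?_
    rw [norm_mul, h3, one_mul]
  rw [← sq_abs]
  exact pow_le_pow_left₀ (abs_nonneg _) h5 2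

/-- all translates -/
theorem main (h1 : StmtBn1) (h2 : StmtSwc) (N r : ℕ) (w : Fin r → ℝ) (x : Fin r → ℂ)
    (hw : ∀ i, 0 ≤ w i) (hw1 : ∑ i, w i = 1) (f : ℂ → ℝ) (v : ℂ) (hv : ‖v‖ = 1) :
    (∑ p ∈ IM N, ∑ q ∈ IM N, ∑ i, be N p * be N q * (w i * Real.cos (PWV.ip v (x i + lp p q)))
      * f (x i + lp p q)) ^ 2 ≤ sb N w x f := by
  obtain ⟨hb0, -, -, -, hb1, -⟩ := h1 N
  have hS := (h2 r w x hw hw1).1
  let J : ℤ × ℤ → ℝ := fun z => ∑ i, w i * Real.cos (PWV.ip v (x i + lp z.1 z.2))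
    * f (x i + lp z.1 z.2)
  let b : ℤ × ℤ → ℝ := fun z => be N z.1 * be N z.2
  have hL : ∑ p ∈ IM N, ∑ q ∈ IM N, ∑ i, be N p * be N q
      * (w i * Real.cos (PWV.ip v (x i + lp p q))) * f (x i + lp p q) =
      ∑ z ∈ IM N ×ˢ IM N, b z * J z := by
    rw [Finset.sum_product]
    refine Finset.sum_congr rfl fun p _ => Finset.sum_congr rfl fun q _ => ?_
    show _ = be N p * be N q * ∑ i, w i * Real.cos (PWV.ip v (x i + lp p q)) * f (x i + lp p q)
    rw [Finset.mul_sum]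
    exact Finset.sum_congr rfl fun i _ => by ring
  have hb : ∑ z ∈ IM N ×ˢ IM N, b z = 1 := by
    rw [Finset.sum_product]
    have h3 : ∀ p ∈ IM N, ∑ q ∈ IM N, b (p, q) = be N p := by
      intro p _
      show ∑ q ∈ IM N, be N p * be N q = be N p
      rw [← Finset.mul_sum, hb1, mul_one]
    rw [Finset.sum_congr rfl h3, hb1]
  rw [hL]
  refine (jensen _ b J (fun z _ => mul_nonneg (hb0 _) (hb0 _)) hb).trans ?_
  unfold sb
  rw [Finset.sum_product]
  refine Finset.sum_le_sum fun p _ => Finset.sum_le_sum fun q _ => ?_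
  show be N p * be N q * J (p, q) ^ 2 ≤ be N p * be N q * sw w x fun i => f (x i + lp p q)
  refine mul_le_mul_of_nonneg_left ?_ (mul_nonneg (hb0 _) (hb0 _))
  refine (one w x (fun i => f (x i + lp p q)) v (lp p q)).trans ?_
  have hv' : v ∈ Metric.sphere (0 : ℂ) 1 := by
    rw [mem_sphere_zero_iff_norm]
    exact hv
  exact (hS fun i => f (x i + lp p q)).2 ⟨v, hv'⟩

end PWB

theorem t_PWB (h1 : StmtBn1) (h2 : StmtSwc) : StmtPwb := by
  intro M r w x hw hw1 f f' v hv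
  have hf := PWB.main h1 h2 (4 * M) r w x hw hw1 f v hv
  have hf' := PWB.main h1 h2 (4 * M) r w x hw hw1 f' v hv
  set A := ∑ p ∈ IM (4 * M), ∑ q ∈ IM (4 * M), ∑ i, be (4 * M) p * be (4 * M) q *
    (w i * Real.cos (PWV.ip v (x i + lp p q))) * f (x i + lp p q) with hA
  set B := ∑ p ∈ IM (4 * M), ∑ q ∈ IM (4 * M), ∑ i, be (4 * M) p * be (4 * M) q *
    (w i * Real.cos (PWV.ip v (x i + lp p q))) * f' (x i + lp p q) with hB
  have h3 : ∑ p ∈ IM (4 * M), ∑ q ∈ IM (4 * M), ∑ i,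
      ((be (4 * M) p * be (4 * M) q * (w i * Real.cos (PWV.ip v (x i + lp p q))) : ℝ) : ℂ)
        * ((f (x i + lp p q) + f' (x i + lp p q) : ℝ) : ℂ) = ((A + B : ℝ) : ℂ) := by
    rw [hA, hB, ← Finset.sum_add_distrib, Complex.ofReal_sum]
    refine Finset.sum_congr rfl fun p _ => ?_
    rw [← Finset.sum_add_distrib, Complex.ofReal_sum]
    refine Finset.sum_congr rfl fun q _ => ?_
    rw [← Finset.sum_add_distrib, Complex.ofReal_sum]
    refine Finset.sum_congr rfl fun i _ => ?_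
    rw [← Complex.ofReal_mul, mul_add]
  rw [h3, Complex.norm_real, Real.norm_eq_abs, sq_abs]
  nlinarith [sq_nonneg (A - B)]

end

end PKM
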