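import Pool.Agent.PKM.St2a

/-!
# PWI: the pointwise inequality `X² ≤ Null + C S X + 2 X Tail`
-/

open Complex MeasureTheory Filter Topology Set

namespace PKM

noncomputable section

namespace PWI

/-! ### Sums -/

lemma mem_IM {M : ℕ} {k : ℤ} : k ∈ IM M ↔ |k| ≤ M := by
  unfold IM
  rw [Finset.mem_Icc, abs_le]

lemma shift {E : Type*} [AddCommMonoid E] (M : ℕ) (φ : ℤ → E)
    (hφ : ∀ k : ℤ, (M : ℤ) < |k| → φ k = 0) (j : ℤ) (hj : j ∈ IM M) :
    ∑ s ∈ IM (2 * M), φ (s - j) = ∑ k ∈ IM M, φ k := by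
  symm
  calc ∑ k ∈ IM M, φ k = ∑ s ∈ (IM M).image (fun k => k + j), φ (s - j) := by
        rw [Finset.sum_image (fun x _ y _ h => by simpa using h)]
        simp
    _ = ∑ s ∈ IM (2 * M), φ (s - j) := by
        rw [mem_IM, abs_le] at hj
        refine Finset.sum_subset ?_ ?_
        · intro s hs
          rw [Finset.mem_image] at hs
          obtain ⟨k, hk, rfl⟩ := hs
          rw [mem_IM, abs_le] at hk
          rw [mem_IM, abs_le]
          push_cast
          constructor <;> omega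
        · intro s _ hns
          apply hφ
          by_contra hcon
          exact hns (Finset.mem_image.2 ⟨s - j, mem_IM.2 (not_lt.1 hcon), by ring⟩)

lemma conv {E : Type*} [AddCommMonoid E] (M : ℕ) (F : ℤ → ℤ → E)
    (hF : ∀ j k : ℤ, (M : ℤ) < |k| → F j k = 0) :
    ∑ s ∈ IM (2 * M), ∑ j ∈ IM M, F j (s - j) = ∑ j ∈ IM M, ∑ k ∈ IM M, F j k := by
  rw [Finset.sum_comm]
  exact Finset.sum_congr rfl fun j hj => shift M (F j) (hF j) j hj

lemma be0_pos (M : ℕ) : 0 < be M 0 := by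
  unfold be
  rw [if_pos (by omega)]
  have h : ((0 : ℤ) + M).toNat = M := by simp
  rw [h]
  have : 0 < (2 * M).choose M := Nat.choose_pos (by omega)
  have h2 : (0 : ℝ) < ((2 * M).choose M : ℝ) := by exact_mod_cast this
  positivity

/-! ### Cauchy-Schwarz -/

/-- the weighted mean of the products -/
def G (M : ℕ) (a : ℤ → ℂ) (s : ℤ) : ℝ :=
  ∑ j ∈ IM M, be M j * be M (s - j) * (‖a j‖ ^ 2 * ‖a (s - j)‖ ^ 2)

lemma G_nonneg (hb : StmtBn1) (M : ℕ) (a : ℤ → ℂ) (s : ℤ) : 0 ≤ G M a s := by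
  have h0 := (hb M).1
  exact Finset.sum_nonneg fun j _ => mul_nonneg (mul_nonneg (h0 _) (h0 _)) (by positivity)

lemma cs (hb : StmtBn1) (M : ℕ) (a : ℤ → ℂ) (s : ℤ) :
    ‖sq2 M a s‖ ^ 2 ≤ be (2 * M) s * G M a s := by
  have h0 := (hb M).1
  have hW : ∑ j ∈ IM M, be M j * be M (s - j) = be (2 * M) s := (hb M).2.2.2.2.2.2.2.2 s
  have h1 : ‖sq2 M a s‖ ≤ ∑ j ∈ IM M, be M j * be M (s - j) * (‖a j‖ * ‖a (s - j)‖) := by
    unfold sq2
    refine (norm_sum_le _ _).trans (le_of_eq (Finset.sum_congr rfl fun j _ => ?_))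
    rw [norm_mul, norm_mul, Complex.norm_real, Real.norm_eq_abs,
      abs_of_nonneg (mul_nonneg (h0 _) (h0 _))]
  have h2 : (∑ j ∈ IM M, be M j * be M (s - j) * (‖a j‖ * ‖a (s - j)‖)) ^ 2 ≤
      (∑ j ∈ IM M, be M j * be M (s - j)) * G M a s := by
    unfold G
    refine Finset.sum_sq_le_sum_mul_sum_of_sq_le_mul _ ?_ ?_ ?_
    · exact fun j _ => mul_nonneg (h0 _) (h0 _)
    · exact fun j _ => mul_nonneg (mul_nonneg (h0 _) (h0 _)) (by positivity)
    · intro j _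
      exact le_of_eq (by ring)
  rw [hW] at h2
  refine le_trans ?_ h2
  exact pow_le_pow_left₀ (norm_nonneg _) h1 2

lemma term_le (hb : StmtBn1) (M : ℕ) (a : ℤ → ℂ) (s : ℤ) :
    ‖sq2 M a s‖ ^ 2 / be (2 * M) s ≤ G M a s := by
  rcases ((hb (2 * M)).1 s).eq_or_lt with h | h
  · rw [← h, div_zero]
    exact G_nonneg hb M a s
  · rw [div_le_iff₀ h, mul_comm]
    exact cs hb M a s

/-! ### The square of the mean square -/

/-- the terms of the mean square -/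
def X (M : ℕ) (a : ℤ → ℂ) (k : ℤ) : ℝ := be M k * ‖a k‖ ^ 2

lemma X_nonneg (hb : StmtBn1) (M : ℕ) (a : ℤ → ℂ) (k : ℤ) : 0 ≤ X M a k :=
  mul_nonneg ((hb M).1 k) (by positivity)

lemma X_zero (hb : StmtBn1) (M : ℕ) (a : ℤ → ℂ) (k : ℤ) (hk : (M : ℤ) < |k|) : X M a k = 0 := by
  unfold X
  rw [(hb M).2.2.1 k hk, zero_mul]

lemma xM_eq (M : ℕ) (a : ℤ → ℂ) : xM M a = ∑ k ∈ IM M, X M a k := rfl

lemma tM_eq (M r : ℕ) (a : ℤ → ℂ) :
    tM M r a = ∑ k ∈ IM M, X M a k * (if (r : ℤ) < |k| then 1 else 0) := by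
  unfold tM X
  rw [Finset.sum_filter]
  exact Finset.sum_congr rfl fun k _ => by split_ifs <;> simp

lemma G_eq (M : ℕ) (a : ℤ → ℂ) (s : ℤ) : G M a s = ∑ j ∈ IM M, X M a j * X M a (s - j) := by
  unfold G X
  exact Finset.sum_congr rfl fun j _ => by ring

lemma xM_sq (hb : StmtBn1) (M : ℕ) (a : ℤ → ℂ) :
    xM M a ^ 2 = ∑ s ∈ IM (2 * M), G M a s := by
  simp only [G_eq]
  rw [conv M (fun j k => X M a j * X M a k) (fun j k hk => by rw [X_zero hb M a k hk, mul_zero]),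
    sq, xM_eq, Finset.sum_mul_sum]

lemma tail (hb : StmtBn1) (M r : ℕ) (a : ℤ → ℂ) :
    ∑ s ∈ IM (2 * M), (if 2 * (r : ℤ) < |s| then G M a s else 0) ≤ 2 * xM M a * tM M r a := by
  have h1 : ∑ s ∈ IM (2 * M), (if 2 * (r : ℤ) < |s| then G M a s else 0) ≤
      ∑ s ∈ IM (2 * M), ∑ j ∈ IM M, X M a j * X M a (s - j) *
        ((if (r : ℤ) < |j| then 1 else 0) + (if (r : ℤ) < |s - j| then 1 else 0)) := by
    refine Finset.sum_le_sum fun s _ => ?_
    split_ifs with hs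
    · rw [G_eq]
      refine Finset.sum_le_sum fun j _ => ?_
      refine le_mul_of_one_le_right (mul_nonneg (X_nonneg hb _ _ _) (X_nonneg hb _ _ _)) ?_
      by_cases h : (r : ℤ) < |j|
      · rw [if_pos h]
        have : (0 : ℝ) ≤ if (r : ℤ) < |s - j| then 1 else 0 := by split_ifs <;> norm_num
        linarith
      · have h2 : (r : ℤ) < |s - j| := by
          have h3 : |s| ≤ |s - j| + |j| := by
            calc |s| = |(s - j) + j| := by rw [sub_add_cancel]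
              _ ≤ |s - j| + |j| := abs_add_le _ _
          omega
        rw [if_neg h, if_pos h2]
        norm_num
    · refine Finset.sum_nonneg fun j _ => ?_
      refine mul_nonneg (mul_nonneg (X_nonneg hb _ _ _) (X_nonneg hb _ _ _)) ?_
      split_ifs <;> norm_num
  refine h1.trans (le_of_eq ?_)
  rw [conv M (fun j k => X M a j * X M a k *
    ((if (r : ℤ) < |j| then 1 else 0) + (if (r : ℤ) < |k| then 1 else 0)))
    (fun j k hk => by rw [X_zero hb M a k hk, mul_zero, zero_mul])]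
  have e1 : ∑ j ∈ IM M, ∑ k ∈ IM M, X M a j * X M a k *
      ((if (r : ℤ) < |j| then (1 : ℝ) else 0) + (if (r : ℤ) < |k| then 1 else 0)) =
      (∑ j ∈ IM M, X M a j * (if (r : ℤ) < |j| then 1 else 0)) * (∑ k ∈ IM M, X M a k) +
      (∑ j ∈ IM M, X M a j) * (∑ k ∈ IM M, X M a k * (if (r : ℤ) < |k| then 1 else 0)) := by
    rw [Finset.sum_mul_sum, Finset.sum_mul_sum, ← Finset.sum_add_distrib]
    refine Finset.sum_congr rfl fun j _ => ?_
    rw [← Finset.sum_add_distrib]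
    exact Finset.sum_congr rfl fun k _ => by ring
  rw [e1, ← tM_eq, ← xM_eq]
  ring

/-! ### Parseval -/

lemma conj_zpow {u : ℂ} (hu : ‖u‖ = 1) (s : ℤ) : (starRingEnd ℂ) (u ^ s) = u ^ (-s) := by
  rw [zpow_neg, map_zpow₀]
  have : (starRingEnd ℂ) u = u⁻¹ := (Complex.inv_eq_conj hu).symm
  rw [this, inv_zpow]

lemma ortho (Q : ℕ) (hQ : Q ≠ 0) (m : ℤ) (hm : |m| < Q) :
    ∑ t ∈ Finset.range Q, (Complex.exp (2 * Real.pi * Complex.I / Q) ^ t) ^ m =
      if m = 0 then (Q : ℂ) else 0 := by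
  have hζ := Complex.isPrimitiveRoot_exp Q hQ
  set ζ := Complex.exp (2 * Real.pi * Complex.I / Q) with hζd
  split_ifs with h
  · subst h
    simp
  · have hne : ζ ^ m ≠ 1 := by
      intro hcon
      rw [hζ.zpow_eq_one_iff_dvd] at hcon
      obtain ⟨c, hc⟩ := hcon
      have hc0 : c ≠ 0 := by
        rintro rfl
        exact h (by simpa using hc)
      have : (Q : ℤ) ≤ |m| := by
        rw [hc, abs_mul, Nat.abs_cast]
        have := Int.one_le_abs hc0
        nlinarith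
      omega
    have e : ∀ t : ℕ, (ζ ^ t) ^ m = (ζ ^ m) ^ t := by
      intro t
      rw [← zpow_natCast, ← zpow_natCast, ← zpow_mul, ← zpow_mul, mul_comm]
    simp only [e]
    rw [geom_sum_eq hne]
    have h2 : (ζ ^ m) ^ Q = 1 := by
      rw [← e, hζ.pow_eq_one, one_zpow]
    rw [h2, sub_self, zero_div]

lemma parseval (N Q : ℕ) (hQ : 2 * N < Q) (d : ℤ → ℂ) :
    ∑ t ∈ Finset.range Q, ‖∑ s ∈ IM N, d s *
      (Complex.exp (2 * Real.pi * Complex.I / Q) ^ t) ^ s‖ ^ 2 = Q * ∑ s ∈ IM N, ‖d s‖ ^ 2 := by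
  have hQ0 : Q ≠ 0 := by omega
  have hn : ∀ t : ℕ, ‖Complex.exp (2 * Real.pi * Complex.I / Q) ^ t‖ = 1 := by
    intro t
    rw [norm_pow, (Complex.isPrimitiveRoot_exp Q hQ0).norm'_eq_one hQ0, one_pow]
  have hn0 : ∀ t : ℕ, Complex.exp (2 * Real.pi * Complex.I / Q) ^ t ≠ 0 := fun t =>
    pow_ne_zero _ (Complex.exp_ne_zero _)
  have key : ((∑ t ∈ Finset.range Q, ‖∑ s ∈ IM N, d s *
      (Complex.exp (2 * Real.pi * Complex.I / Q) ^ t) ^ s‖ ^ 2 : ℝ) : ℂ) =
      ((Q * ∑ s ∈ IM N, ‖d s‖ ^ 2 : ℝ) : ℂ) := by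
    push_cast
    calc ∑ t ∈ Finset.range Q, ((‖∑ s ∈ IM N, d s *
          (Complex.exp (2 * Real.pi * Complex.I / Q) ^ t) ^ s‖ : ℂ)) ^ 2
        = ∑ t ∈ Finset.range Q, ∑ s ∈ IM N, ∑ s' ∈ IM N, d s * (starRingEnd ℂ) (d s') *
          (Complex.exp (2 * Real.pi * Complex.I / Q) ^ t) ^ (s - s') := by
          refine Finset.sum_congr rfl fun t _ => ?_
          rw [← Complex.mul_conj', map_sum, Finset.sum_mul_sum]
          refine Finset.sum_congr rfl fun s _ => Finset.sum_congr rfl fun s' _ => ?_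
          rw [map_mul, conj_zpow (hn t), sub_eq_add_neg, zpow_add₀ (hn0 t)]
          ring
      _ = ∑ s ∈ IM N, ∑ s' ∈ IM N, d s * (starRingEnd ℂ) (d s') *
          (if s - s' = 0 then (Q : ℂ) else 0) := by
          rw [Finset.sum_comm]
          refine Finset.sum_congr rfl fun s hs => ?_
          rw [Finset.sum_comm]
          refine Finset.sum_congr rfl fun s' hs' => ?_
          rw [← Finset.mul_sum, ortho Q hQ0]
          rw [mem_IM, abs_le] at hs hs'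
          rw [abs_lt]
          constructor <;> omega
      _ = (Q : ℂ) * ∑ s ∈ IM N, (‖d s‖ : ℂ) ^ 2 := by
          rw [Finset.mul_sum]
          refine Finset.sum_congr rfl fun s hs => ?_
          rw [Finset.sum_eq_single s]
          · rw [sub_self, if_pos rfl, Complex.mul_conj']
            ring
          · intro s' _ hne
            rw [if_neg (sub_ne_zero.2 (Ne.symm hne)), mul_zero]
          · intro h
            exact absurd hs h
  exact_mod_cast key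

/-- the square of the coefficient of a plane wave -/
lemma wv_sq (hb : StmtBn1) (M : ℕ) (a : ℤ → ℂ) (v : ℂ) (hv : v ≠ 0) :
    wv M a v ^ 2 = ∑ s ∈ IM (2 * M), sq2 M a s * v ^ (2 * s) := by
  have e : ∀ s : ℤ, sq2 M a s * v ^ (2 * s) = ∑ j ∈ IM M,
      ((be M j : ℂ) * (a j * v ^ (2 * j))) * ((be M (s - j) : ℂ) * (a (s - j) * v ^ (2 * (s - j)))) := by
    intro s
    unfold sq2
    rw [Finset.sum_mul]
    refine Finset.sum_congr rfl fun j _ => ?_
    have : v ^ (2 * s) = v ^ (2 * j) * v ^ (2 * (s - j)) := by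
      rw [← zpow_add₀ hv]
      congr 1
      ring
    rw [this]
    push_cast
    ring
  simp only [e]
  rw [conv M (fun j k => ((be M j : ℂ) * (a j * v ^ (2 * j))) * ((be M k : ℂ) * (a k * v ^ (2 * k))))
    (fun j k hk => by rw [(hb M).2.2.1 k hk]; simp), sq]
  unfold wv
  rw [Finset.sum_mul_sum]

lemma sum_sq (hb : StmtBn1) (M : ℕ) (a : ℤ → ℂ) (S : ℝ)
    (hS : ∀ v : ℂ, ‖v‖ = 1 → ‖wv M a v‖ ^ 2 ≤ S) :
    ∑ s ∈ IM (2 * M), ‖sq2 M a s‖ ^ 2 ≤ S * (be M 0 * xM M a) := by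
  have hS0 : 0 ≤ S := le_trans (by positivity) (hS 1 (by simp))
  obtain ⟨Q, hQ⟩ : ∃ Q, Q = 4 * M + 1 := ⟨_, rfl⟩
  have hQ0 : Q ≠ 0 := by omega
  have hQr : (0 : ℝ) < Q := by
    have : 0 < Q := by omega
    exact_mod_cast this
  set ζ := Complex.exp (2 * Real.pi * Complex.I / Q) with hζ
  obtain ⟨ω, hω⟩ : ∃ ω : ℂ, ω = Complex.exp (Real.pi * Complex.I / Q) := ⟨_, rfl⟩
  have hωζ : ω ^ 2 = ζ := by
    rw [hω, hζ, ← Complex.exp_nat_mul]
    congr 1
    push_cast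
    ring
  have hωn : ‖ω‖ = 1 := by
    have h1 : ‖ω‖ ^ 2 = 1 := by
      rw [← norm_pow, hωζ, (Complex.isPrimitiveRoot_exp Q hQ0).norm'_eq_one hQ0]
    have h2 : 0 ≤ ‖ω‖ := norm_nonneg _
    nlinarith
  have hωt : ∀ t : ℕ, ‖ω ^ t‖ = 1 := fun t => by rw [norm_pow, hωn, one_pow]
  have hω0 : ∀ t : ℕ, ω ^ t ≠ 0 := fun t => by
    intro h
    have := hωt t
    rw [h, norm_zero] at this
    norm_num at this
  have hz : ∀ (t : ℕ) (s : ℤ), (ω ^ t) ^ (2 * s) = (ζ ^ t) ^ s := by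
    intro t s
    rw [← hωζ, zpow_mul]
    congr 1
    norm_cast
    rw [← pow_mul, ← pow_mul, mul_comm]
  have p1 := parseval (2 * M) Q (by omega) (sq2 M a)
  have p2 := parseval M Q (by omega) (fun k => (be M k : ℂ) * a k)
  rw [← hζ] at p1 p2
  have h1 : ∑ t ∈ Finset.range Q, ‖∑ s ∈ IM (2 * M), sq2 M a s * (ζ ^ t) ^ s‖ ^ 2 ≤
      S * ∑ t ∈ Finset.range Q, ‖∑ k ∈ IM M, (be M k : ℂ) * a k * (ζ ^ t) ^ k‖ ^ 2 := by
    rw [Finset.mul_sum]
    refine Finset.sum_le_sum fun t _ => ?_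
    have e1 : ∑ s ∈ IM (2 * M), sq2 M a s * (ζ ^ t) ^ s = wv M a (ω ^ t) ^ 2 := by
      rw [wv_sq hb M a _ (hω0 t)]
      exact Finset.sum_congr rfl fun s _ => by rw [hz]
    have e2 : ∑ k ∈ IM M, (be M k : ℂ) * a k * (ζ ^ t) ^ k = wv M a (ω ^ t) := by
      unfold wv
      exact Finset.sum_congr rfl fun s _ => by rw [hz, mul_assoc]
    rw [e1, e2, norm_pow]
    calc (‖wv M a (ω ^ t)‖ ^ 2) ^ 2 = ‖wv M a (ω ^ t)‖ ^ 2 * ‖wv M a (ω ^ t)‖ ^ 2 := by ring
      _ ≤ S * ‖wv M a (ω ^ t)‖ ^ 2 :=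
          mul_le_mul_of_nonneg_right (hS _ (hωt t)) (by positivity)
  rw [p1, p2] at h1
  have h2 : ∑ s ∈ IM M, ‖(be M s : ℂ) * a s‖ ^ 2 ≤ be M 0 * xM M a := by
    unfold xM
    rw [Finset.mul_sum]
    refine Finset.sum_le_sum fun k _ => ?_
    have hb0 := (hb M).1 k
    have hb1 : be M k ≤ be M 0 := (hb M).2.2.2.1 0 k (by simp)
    rw [norm_mul, Complex.norm_real, Real.norm_eq_abs, abs_of_nonneg hb0]
    calc (be M k * ‖a k‖) ^ 2 = be M k * (be M k * ‖a k‖ ^ 2) := by ring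
      _ ≤ be M 0 * (be M k * ‖a k‖ ^ 2) :=
          mul_le_mul_of_nonneg_right hb1 (by positivity)
  have h3 : (Q : ℝ) * ∑ s ∈ IM (2 * M), ‖sq2 M a s‖ ^ 2 ≤ Q * (S * (be M 0 * xM M a)) := by
    refine h1.trans ?_
    have := mul_le_mul_of_nonneg_left h2 hS0
    calc S * (Q * ∑ s ∈ IM M, ‖(be M s : ℂ) * a s‖ ^ 2) =
        Q * (S * ∑ s ∈ IM M, ‖(be M s : ℂ) * a s‖ ^ 2) := by ring
      _ ≤ Q * (S * (be M 0 * xM M a)) := mul_le_mul_of_nonneg_left this hQr.le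
  exact le_of_mul_le_mul_left h3 hQr

end PWI

open PWI in
theorem t_PWI (hb : StmtBn1) : StmtPwi := by
  intro M r a S C hC hW hS
  have hN : nM M a = ∑ s ∈ IM (2 * M), (G M a s - ‖sq2 M a s‖ ^ 2 / be (2 * M) s) := rfl
  have hb0 := be0_pos M
  refine ⟨?_, ?_⟩
  · rw [hN]
    exact Finset.sum_nonneg fun s _ => sub_nonneg.2 (term_le hb M a s)
  · rw [xM_sq hb, hN, Finset.sum_sub_distrib]
    have h1 : ∑ s ∈ IM (2 * M), ‖sq2 M a s‖ ^ 2 / be (2 * M) s ≤
        ∑ s ∈ IM (2 * M), (C / be M 0 * ‖sq2 M a s‖ ^ 2 +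
          if 2 * (r : ℤ) < |s| then G M a s else 0) := by
      refine Finset.sum_le_sum fun s _ => ?_
      have hc : 0 ≤ C / be M 0 * ‖sq2 M a s‖ ^ 2 := by positivity
      split_ifs with hs
      · have := term_le hb M a s
        linarith
      · rw [add_zero]
        rw [not_lt, abs_le] at hs
        obtain ⟨w1, w2⟩ := hW s (Finset.mem_Icc.2 hs)
        rw [div_eq_mul_inv, mul_comm]
        refine mul_le_mul_of_nonneg_right ?_ (by positivity)
        rw [inv_eq_one_div, div_le_div_iff₀ w1 hb0, one_mul]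
        exact w2
    rw [Finset.sum_add_distrib, ← Finset.mul_sum] at h1
    have h2 := tail hb M r a
    have h3 := mul_le_mul_of_nonneg_left (sum_sq hb M a S hS) (show 0 ≤ C / be M 0 by positivity)
    have h4 : C / be M 0 * (S * (be M 0 * xM M a)) = C * S * xM M a := by
      field_simp
    rw [h4] at h3
    linarith

end

end PKM
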