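import Pool.Agent.PKM.St3
import Pool.Agent.PKM.STA
import Pool.Agent.PKM.OR2

/-!
# PKM, module STN: the local waves are stationary in `L²`
-/

set_option autoImplicit false

open Complex MeasureTheory Filter Topology Set
open UpperHalfPlane hiding I
open scoped ContDiff MatrixGroups ProbabilityTheory ENNReal

namespace PKM

open QE QE.NC QJ U3 NFP BSL

noncomputable section

namespace STN

open STA (int0 hat hat_nonneg hat_sum hat_supp cl_cont vals)

/-! ### Test functions of quadratic growth -/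

lemma cont {r : ℕ} {G : (Fin r → ℝ) → ℝ} {C : ℝ} (hG : ∀ s t : Fin r → ℝ,
    |G s - G t| ≤ C * ((∑ i, |s i| + ∑ i, |t i|) * ∑ i, |s i - t i|)) : Continuous G := by
  rw [continuous_iff_continuousAt]
  intro t
  rw [ContinuousAt, tendsto_iff_dist_tendsto_zero]
  have h1 : Tendsto (fun s : Fin r → ℝ =>
      C * ((∑ i, |s i| + ∑ i, |t i|) * ∑ i, |s i - t i|)) (𝓝 t) (𝓝 0) := by
    have h2 : Continuous (fun s : Fin r → ℝ =>
        C * ((∑ i, |s i| + ∑ i, |t i|) * ∑ i, |s i - t i|)) := by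
      refine continuous_const.mul (Continuous.mul ?_ ?_)
      · exact (continuous_finsetSum _ fun i _ => (continuous_apply i).abs).add continuous_const
      · exact continuous_finsetSum _ fun i _ => ((continuous_apply i).sub continuous_const).abs
    have h3 := h2.tendsto t
    simpa using h3
  refine squeeze_zero (fun s => dist_nonneg) (fun s => ?_) h1
  rw [Real.dist_eq]
  exact hG s t

lemma sum_le {r : ℕ} {s : Fin r → ℝ} {b : ℝ} (h : ∀ i, |s i| ≤ b) : ∑ i, |s i| ≤ r * b := by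
  refine (Finset.sum_le_sum fun i _ => h i).trans ?_
  rw [Finset.sum_const, Finset.card_univ, Fintype.card_fin, nsmul_eq_mul]

/-- the growth -/
lemma valb {r : ℕ} {G : (Fin r → ℝ) → ℝ} {C : ℝ} (hC : 0 ≤ C) (hG : ∀ s t : Fin r → ℝ,
    |G s - G t| ≤ C * ((∑ i, |s i| + ∑ i, |t i|) * ∑ i, |s i - t i|)) {s : Fin r → ℝ} {B M : ℝ}
    (hM : 0 ≤ M) (hs : ∀ i, |s i| ≤ B * √M) : |G s| ≤ |G 0| + C * (r * B) ^ 2 * M := by
  have h1 := hG s 0
  have h0 : ∑ i : Fin r, |(0 : Fin r → ℝ) i| = 0 := by simp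
  have h2 : ∑ i, |s i - (0 : Fin r → ℝ) i| = ∑ i, |s i| := by simp
  rw [h0, h2, add_zero] at h1
  have h3 := sum_le hs
  have h4 : 0 ≤ ∑ i, |s i| := Finset.sum_nonneg fun i _ => abs_nonneg _
  have h5 : (∑ i, |s i|) * ∑ i, |s i| ≤ (r * (B * √M)) * (r * (B * √M)) :=
    mul_le_mul h3 h3 h4 (h4.trans h3)
  have h6 : (r * (B * √M)) * (r * (B * √M)) = (r * B) ^ 2 * M := by
    have := Real.mul_self_sqrt hM
    linear_combination (r : ℝ) ^ 2 * B ^ 2 * this
  rw [h6] at h5
  have h7 := abs_sub_abs_le_abs_sub (G s) (G 0)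
  have h8 := mul_le_mul_of_nonneg_left h5 hC
  linarith

/-- the modulus of continuity -/
lemma difb {r : ℕ} {G : (Fin r → ℝ) → ℝ} {C : ℝ} (hC : 0 ≤ C) (hG : ∀ s t : Fin r → ℝ,
    |G s - G t| ≤ C * ((∑ i, |s i| + ∑ i, |t i|) * ∑ i, |s i - t i|)) {s t : Fin r → ℝ}
    {B M e : ℝ} (hM : 0 ≤ M) (hs : ∀ i, |s i| ≤ B * √M) (ht : ∀ i, |t i| ≤ B * √M)
    (hd : ∀ i, |s i - t i| ≤ e * √M) : |G s - G t| ≤ C * (2 * r * B * r) * e * M := by
  have h1 := hG s t
  have h3 := sum_le hs
  have h4 := sum_le ht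
  have h5 : ∑ i, |s i - t i| ≤ r * (e * √M) := sum_le (s := fun i => s i - t i) hd
  have h6 : 0 ≤ ∑ i, |s i| := Finset.sum_nonneg fun i _ => abs_nonneg _
  have h7 : 0 ≤ ∑ i, |t i| := Finset.sum_nonneg fun i _ => abs_nonneg _
  have h8 : 0 ≤ ∑ i, |s i - t i| := Finset.sum_nonneg fun i _ => abs_nonneg _
  have h9 : (∑ i, |s i| + ∑ i, |t i|) * ∑ i, |s i - t i| ≤
      (r * (B * √M) + r * (B * √M)) * (r * (e * √M)) :=
    mul_le_mul (add_le_add h3 h4) h5 h8 (by linarith)
  have h10 : (r * (B * √M) + r * (B * √M)) * (r * (e * √M)) = 2 * r * B * r * e * M := by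
    have := Real.mul_self_sqrt hM
    linear_combination 2 * (r : ℝ) ^ 2 * B * e * this
  rw [h10] at h9
  have h11 := mul_le_mul_of_nonneg_left h9 hC
  linarith

/-! ### Translations by variable amounts -/

/-- translations are uniformly continuous -/
lemma trans_sup {K : Set ℂ} (hK : IsCompact K) {g : ℂ → ℝ} (hg : Continuous g)
    (h0 : ∀ z, z ∉ K → g z = 0) {η : ℝ} (hη : 0 < η) :
    ∀ᶠ w : ℂ in 𝓝 0, ∀ z, |g (z - w) - g z| ≤ η := by
  have hu : UniformContinuous g :=
    (HasCompactSupport.intro hK h0).uniformContinuous_of_continuous hg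
  rw [Metric.uniformContinuous_iff] at hu
  obtain ⟨δ, hδ, h1⟩ := hu η hη
  filter_upwards [Metric.ball_mem_nhds (0 : ℂ) hδ] with w hw z
  rw [Metric.mem_ball, dist_zero_right] at hw
  have h2 := h1 (a := z - w) (b := z) (by
    rw [dist_eq_norm, sub_sub_cancel_left, norm_neg]
    exact hw)
  rw [Real.dist_eq] at h2
  exact h2.le

/-- translations by amounts which depend on the point, for functions with bounded integrals -/
lemma TR {K K' : Set ℂ} (hK : IsCompact K) (hK' : IsCompact K') {r₀ : ℝ} (hr₀ : 0 < r₀)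
    (hKK : Metric.cthickening r₀ K ⊆ K') {ζ a : ℂ → ℝ} (hζ : Continuous ζ)
    (hζ0 : ∀ z, z ∉ K → ζ z = 0) (hζp : ∀ z, 0 ≤ ζ z) (ha : Continuous a) (hap : ∀ z, 0 ≤ a z)
    {X C : ℝ} (hX : 0 ≤ X) (hC : 0 ≤ C) {η δ : ℝ} (hη : 0 < η) (hδ : 0 < δ) :
    ∃ h₀ : ℝ, 0 < h₀ ∧ ∀ h : ℝ, 0 ≤ h → h ≤ h₀ → ∀ v : ℂ, ‖v‖ ≤ X → ∀ f : ℂ → ℝ, Continuous f →
      (∫ z in K', |f z| ≤ C) → ∀ (M : ℂ → ℝ) (ε : ℝ), Continuous M →
      (∀ z ∈ K, ∀ s : ℝ, 0 ≤ s → |s - a z| ≤ δ →
        |f (z + h * (a z * v)) - f (z + h * (s * v))| ≤ ε * M z) →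
      |(∫ z, ζ z * f (z + h * (a z * v))) - ∫ z, ζ z * f z| ≤ η + ε * ∫ z, ζ z * M z := by
  obtain ⟨A, hA⟩ := hK.exists_bound_of_continuousOn ha.continuousOn
  obtain ⟨N, hN⟩ := exists_nat_ge (A / δ)
  have hu : ∀ z ∈ K, a z / δ ≤ N := by
    intro z hz
    refine le_trans ?_ hN
    exact div_le_div_of_nonneg_right ((le_abs_self _).trans (hA z hz)) hδ.le
  obtain ⟨g, hg⟩ : ∃ g : ℕ → ℂ → ℝ, g = fun j z => ζ z * hat (a z / δ) j := ⟨_, rfl⟩
  have hgc : ∀ j, Continuous (g j) := by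
    intro j
    rw [hg]
    unfold hat
    exact hζ.mul ((cl_cont.comp (((ha.div_const δ).sub continuous_const).add
      continuous_const)).sub (cl_cont.comp (((ha.div_const δ).sub continuous_const).add
      continuous_const)))
  have hg0 : ∀ j z, z ∉ K → g j z = 0 := by
    intro j z hz
    rw [hg]
    simp only
    rw [hζ0 z hz, zero_mul]
  have hgp : ∀ j z, 0 ≤ g j z := by
    intro j z
    rw [hg]
    exact mul_nonneg (hζp z) (hat_nonneg _ _)
  have hgs : ∀ z ∈ K, ∑ j ∈ Finset.range (N + 1), g j z = ζ z := by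
    intro z hz
    rw [hg]
    simp only
    rw [← Finset.mul_sum, hat_sum (div_nonneg (hap z) hδ.le) (hu z hz), mul_one]
  have hgs' : ∀ z, ∑ j ∈ Finset.range (N + 1), g j z = ζ z := by
    intro z
    by_cases hz : z ∈ K
    · exact hgs z hz
    · rw [hζ0 z hz]
      exact Finset.sum_eq_zero fun j _ => hg0 j z hz
  obtain ⟨η', hη'⟩ : ∃ η' : ℝ, η' = η / ((C + 1) * (N + 1)) := ⟨_, rfl⟩
  have hη'0 : 0 < η' := by rw [hη']; positivity
  have hev : ∀ᶠ w : ℂ in 𝓝 0, (∀ j ∈ Finset.range (N + 1), ∀ z, |g j (z - w) - g j z| ≤ η') ∧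
      ‖w‖ ≤ r₀ :=
    ((eventually_all_finset _).2 fun j _ => trans_sup hK (hgc j) (hg0 j) hη'0).and (by
      filter_upwards [Metric.closedBall_mem_nhds (0 : ℂ) hr₀] with w hw
      simpa using hw)
  rw [Metric.eventually_nhds_iff] at hev
  obtain ⟨r, hr, hev⟩ := hev
  refine ⟨r / ((N * δ + 1) * (X + 1)), by positivity, ?_⟩
  intro h hh0 hh v hv f hf hfC M ε hM hcmp
  obtain ⟨w, hw⟩ : ∃ w : ℕ → ℂ, w = fun j : ℕ => (h : ℂ) * ((((j : ℝ) * δ : ℝ) : ℂ) * v) := ⟨_, rfl⟩
  have hwr : ∀ j ∈ Finset.range (N + 1), ‖w j‖ < r := by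
    intro j hj
    have hjN : (j : ℝ) ≤ N := by
      have := Finset.mem_range.1 hj
      exact_mod_cast (by omega : j ≤ N)
    rw [hw]
    simp only
    rw [norm_mul, norm_mul, Complex.norm_real, Complex.norm_real, Real.norm_of_nonneg hh0,
      Real.norm_of_nonneg (by positivity)]
    have h1 : (j : ℝ) * δ * ‖v‖ ≤ N * δ * X := by gcongr
    have h2 : (N : ℝ) * δ * X < (N * δ + 1) * (X + 1) := by
      have : (0 : ℝ) ≤ N * δ := by positivity
      nlinarith
    have h3 : 0 < ((N : ℝ) * δ + 1) * (X + 1) := by positivity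
    calc h * ((j : ℝ) * δ * ‖v‖) ≤ r / ((N * δ + 1) * (X + 1)) * (N * δ * X) := by
          refine mul_le_mul hh h1 (by positivity) (by positivity)
      _ < r / ((N * δ + 1) * (X + 1)) * ((N * δ + 1) * (X + 1)) :=
          mul_lt_mul_of_pos_left h2 (by positivity)
      _ = r := div_mul_cancel₀ r h3.ne'
  -- the first step
  have c1 : Continuous fun z => ζ z * f (z + h * (a z * v)) := by
    refine hζ.mul (hf.comp (continuous_id.add (continuous_const.mul
      ((Complex.continuous_ofReal.comp ha).mul continuous_const))))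
  have c2 : ∀ j, Continuous fun z => g j z * f (z + w j) := fun j =>
    (hgc j).mul (hf.comp (continuous_id.add continuous_const))
  have i1 : Integrable fun z => ζ z * f (z + h * (a z * v)) :=
    int0 hK c1 fun z hz => by rw [hζ0 z hz, zero_mul]
  have i2 : ∀ j, Integrable fun z => g j z * f (z + w j) := fun j =>
    int0 hK (c2 j) fun z hz => by rw [hg0 j z hz, zero_mul]
  have i3 : Integrable fun z => ζ z * M z :=
    int0 hK (hζ.mul hM) fun z hz => by rw [hζ0 z hz, zero_mul]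
  have s1 : |(∫ z, ζ z * f (z + h * (a z * v))) -
      ∫ z, ∑ j ∈ Finset.range (N + 1), g j z * f (z + w j)| ≤ ε * ∫ z, ζ z * M z := by
    rw [← integral_sub i1 (integrable_finsetSum _ fun j _ => i2 j), ← integral_const_mul]
    rw [← Real.norm_eq_abs]
    refine (norm_integral_le_of_norm_le (i3.const_mul ε) (Eventually.of_forall fun z => ?_))
    rw [Real.norm_eq_abs]
    by_cases hz : z ∈ K
    · have e1 : ζ z * f (z + h * (a z * v)) -
          ∑ j ∈ Finset.range (N + 1), g j z * f (z + w j) =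
          ∑ j ∈ Finset.range (N + 1), g j z * (f (z + h * (a z * v)) - f (z + w j)) := by
        simp only [mul_sub]
        rw [Finset.sum_sub_distrib, ← Finset.sum_mul, hgs z hz]
      rw [e1]
      refine (Finset.abs_sum_le_sum_abs _ _).trans ?_
      have e2 : ε * (ζ z * M z) = ∑ j ∈ Finset.range (N + 1), g j z * (ε * M z) := by
        rw [← Finset.sum_mul, hgs z hz]
        ring
      rw [e2]
      refine Finset.sum_le_sum fun j _ => ?_
      rw [abs_mul, abs_of_nonneg (hgp j z)]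
      by_cases hgz : g j z = 0
      · rw [hgz, zero_mul, zero_mul]
      · refine mul_le_mul_of_nonneg_left ?_ (hgp j z)
        have h1 : hat (a z / δ) j ≠ 0 := by
          intro h2
          apply hgz
          rw [hg]
          simp only
          rw [h2, mul_zero]
        have h2 := hat_supp h1
        have h3 : |(j : ℝ) * δ - a z| ≤ δ := by
          have e3 : (j : ℝ) * δ - a z = ((j : ℝ) - a z / δ) * δ := by
            field_simp
          rw [e3, abs_mul, abs_of_pos hδ]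
          exact mul_le_of_le_one_left hδ.le h2
        have h4 := hcmp z hz ((j : ℝ) * δ) (by positivity) h3
        rw [hw]
        exact h4
    · rw [hζ0 z hz]
      have e1 : ∑ j ∈ Finset.range (N + 1), g j z * f (z + w j) = 0 :=
        Finset.sum_eq_zero fun j _ => by rw [hg0 j z hz, zero_mul]
      rw [e1]
      simp
  -- the second step
  have s2 : |(∫ z, ∑ j ∈ Finset.range (N + 1), g j z * f (z + w j)) - ∫ z, ζ z * f z| ≤ η := by
    have i4 : ∀ j, Integrable fun z => g j z * f z := fun j =>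
      int0 hK ((hgc j).mul hf) fun z hz => by rw [hg0 j z hz, zero_mul]
    have i5 : ∀ j, Integrable fun z => g j (z - w j) * f z := fun j => by
      have := (i2 j).comp_sub_right (w j)
      simpa only [sub_add_cancel] using this
    have e1 : ∫ z, ζ z * f z = ∑ j ∈ Finset.range (N + 1), ∫ z, g j z * f z := by
      rw [← integral_finsetSum _ fun j _ => i4 j]
      refine integral_congr_ae (Eventually.of_forall fun z => ?_)
      beta_reduce
      rw [← Finset.sum_mul, hgs' z]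
    have e2 : ∀ j, ∫ z, g j z * f (z + w j) = ∫ z, g j (z - w j) * f z := by
      intro j
      have := integral_add_right_eq_self (μ := (volume : Measure ℂ))
        (fun z => g j (z - w j) * f z) (w j)
      simpa only [add_sub_cancel_right] using this
    rw [integral_finsetSum _ fun j _ => i2 j, e1, ← Finset.sum_sub_distrib]
    refine (Finset.abs_sum_le_sum_abs _ _).trans ?_
    have i6 : IntegrableOn (fun z => η' * |f z|) K' :=
      (continuous_const.mul hf.abs).continuousOn.integrableOn_compact hK'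
    have i7 : Integrable (K'.indicator fun z => η' * |f z|) :=
      (integrable_indicator_iff hK'.measurableSet).2 i6
    have h1 : ∀ j ∈ Finset.range (N + 1), |(∫ z, g j z * f (z + w j)) - ∫ z, g j z * f z| ≤
        C * η' := by
      intro j hj
      have hj2 := hev (y := w j) (by
        rw [dist_zero_right]
        exact hwr j hj)
      rw [e2 j, ← integral_sub (i5 j) (i4 j), ← Real.norm_eq_abs]
      refine (norm_integral_le_of_norm_le i7 (Eventually.of_forall fun z => ?_)).trans ?_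
      · rw [← sub_mul, norm_mul, Real.norm_eq_abs, Real.norm_eq_abs]
        by_cases hz : z ∈ K'
        · rw [indicator_of_mem hz]
          exact mul_le_mul_of_nonneg_right (hj2.1 j hj z) (abs_nonneg _)
        · rw [indicator_of_notMem hz]
          have e3 : g j z = 0 := hg0 j z fun h2 =>
            hz (hKK (Metric.self_subset_cthickening K h2))
          have e4 : g j (z - w j) = 0 := by
            refine hg0 j _ fun h2 => hz (hKK ?_)
            refine Metric.mem_cthickening_of_dist_le z (z - w j) r₀ K h2 ?_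
            rw [dist_eq_norm, sub_sub_cancel]
            exact hj2.2
          rw [e3, e4, sub_self, abs_zero, zero_mul]
      · rw [integral_indicator hK'.measurableSet, integral_const_mul, mul_comm]
        exact mul_le_mul_of_nonneg_right hfC hη'0.le
    refine (Finset.sum_le_sum h1).trans ?_
    rw [Finset.sum_const, Finset.card_range, nsmul_eq_mul, hη']
    push_cast
    have h2 : ((N : ℝ) + 1) * (C * (η / ((C + 1) * (N + 1)))) = η * (C / (C + 1)) := by
      field_simp
    rw [h2]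
    refine mul_le_of_le_one_right hη.le ?_
    rw [div_le_one (by positivity)]
    linarith
  have := abs_sub_le (∫ z, ζ z * f (z + h * (a z * v)))
    (∫ z, ∑ j ∈ Finset.range (N + 1), g j z * f (z + w j)) (∫ z, ζ z * f z)
  linarith

/-- two displacements one after the other -/
lemma near {K : Set ℂ} (hK : IsCompact K) {a : ℂ → ℝ} (ha : Continuous a) (hap : ∀ z, 0 < a z)
    {h : ℕ → ℝ} (hpos : ∀ n, 0 < h n) (hlim : Tendsto h atTop (𝓝 0)) {X τ : ℝ} (hX : 0 ≤ X)
    (hτ : 0 < τ) : ∃ δ₁ : ℝ, 0 < δ₁ ∧ ∀ᶠ n in atTop, ∀ z ∈ K, ∀ u v : ℂ, ‖u‖ ≤ X → ‖v‖ ≤ X →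
      ∀ s : ℝ, 0 ≤ s → |s - a z| ≤ δ₁ → ‖(((s / a z : ℝ) : ℂ) * v +
          ((a (z + (h n : ℂ) * ((s : ℂ) * v)) / a z : ℝ) : ℂ) * u) - (u + v)‖ ≤ τ := by
  obtain ⟨a₀, ha₀, hamin⟩ : ∃ a₀ : ℝ, 0 < a₀ ∧ ∀ z ∈ K, a₀ ≤ a z := by
    rcases K.eq_empty_or_nonempty with hKe | hKn
    · exact ⟨1, one_pos, fun z hz => by rw [hKe] at hz; exact hz.elim⟩
    · obtain ⟨z₀, -, h1⟩ := hK.exists_isMinOn hKn ha.continuousOn
      exact ⟨a z₀, hap z₀, fun z hz => h1 hz⟩
  obtain ⟨A₁, hA₁⟩ := hK.exists_bound_of_continuousOn ha.continuousOn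
  obtain ⟨δ₁, hδ₁⟩ : ∃ δ₁ : ℝ, δ₁ = τ * a₀ / (2 * (X + 1)) := ⟨_, rfl⟩
  have hδ₁0 : 0 < δ₁ := by rw [hδ₁]; positivity
  obtain ⟨δ₂, hδ₂0, hδ₂⟩ : ∃ δ₂ : ℝ, 0 < δ₂ ∧ ∀ z ∈ K, ∀ w : ℂ, dist z w < δ₂ →
      |a w - a z| ≤ δ₁ := by
    have h1 := hK.uniformContinuousAt_of_continuousAt a (fun z _ => ha.continuousAt)
      (Metric.dist_mem_uniformity hδ₁0)
    obtain ⟨δ₂, h2, h3⟩ := Metric.mem_uniformity_dist.1 h1
    refine ⟨δ₂, h2, fun z hz w hw => ?_⟩
    have h4 : dist (a z) (a w) < δ₁ := h3 hw hz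
    rw [dist_comm, Real.dist_eq] at h4
    exact h4.le
  refine ⟨δ₁, hδ₁0, ?_⟩
  have hev : ∀ᶠ n in atTop, h n * ((|A₁| + δ₁) * (X + 1)) < δ₂ := by
    have h1 := hlim.mul_const ((|A₁| + δ₁) * (X + 1))
    rw [zero_mul] at h1
    exact h1.eventually_lt_const hδ₂0
  filter_upwards [hev] with n hn z hz u v hu hv s hs0 hs
  have hn0 := hpos n
  have hz0 := hap z
  have haz : (a z : ℂ) ≠ 0 := by exact_mod_cast hz0.ne'
  have h1 := hA₁ z hz
  rw [Real.norm_eq_abs, abs_of_pos hz0] at h1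
  have h2 := (abs_le.1 hs).2
  have h3 : s ≤ |A₁| + δ₁ := by
    have := le_abs_self A₁
    linarith
  have h4 : dist z (z + (h n : ℂ) * ((s : ℂ) * v)) < δ₂ := by
    rw [dist_eq_norm, sub_add_cancel_left, norm_neg, norm_mul, norm_mul, Complex.norm_real,
      Complex.norm_real, Real.norm_of_nonneg hn0.le, Real.norm_of_nonneg hs0]
    calc h n * (s * ‖v‖) ≤ h n * ((|A₁| + δ₁) * (X + 1)) := by
          refine mul_le_mul_of_nonneg_left ?_ hn0.le
          exact mul_le_mul h3 (by linarith) (norm_nonneg _) (by positivity)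
      _ < δ₂ := hn
  have h5 := hδ₂ z hz _ h4
  set z₂ := z + (h n : ℂ) * ((s : ℂ) * v) with hz₂
  have e1 : (((s / a z : ℝ) : ℂ) * v + ((a z₂ / a z : ℝ) : ℂ) * u) - (u + v) =
      (((s - a z) / a z : ℝ) : ℂ) * v + (((a z₂ - a z) / a z : ℝ) : ℂ) * u := by
    push_cast
    field_simp
    ring
  rw [e1]
  refine (norm_add_le _ _).trans ?_
  rw [norm_mul, norm_mul, Complex.norm_real, Complex.norm_real, Real.norm_eq_abs,
    Real.norm_eq_abs, abs_div, abs_div, abs_of_pos hz0]
  have ha1 := hamin z hz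
  have h6 : |s - a z| / a z ≤ δ₁ / a₀ := div_le_div₀ hδ₁0.le hs ha₀ ha1
  have h7 : |a z₂ - a z| / a z ≤ δ₁ / a₀ := div_le_div₀ hδ₁0.le h5 ha₀ ha1
  have h8 : δ₁ / a₀ = τ / (2 * (X + 1)) := by
    rw [hδ₁]
    field_simp
  have h9 : 0 ≤ δ₁ / a₀ := by positivity
  have h10 : |s - a z| / a z * ‖v‖ ≤ δ₁ / a₀ * X := mul_le_mul h6 hv (norm_nonneg _) h9
  have h11 : |a z₂ - a z| / a z * ‖u‖ ≤ δ₁ / a₀ * X := mul_le_mul h7 hu (norm_nonneg _) h9
  have h12 : δ₁ / a₀ * X + δ₁ / a₀ * X ≤ τ := by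
    rw [h8]
    have h13 : τ / (2 * (X + 1)) * X + τ / (2 * (X + 1)) * X = τ * (X / (X + 1)) := by
      field_simp
      ring
    rw [h13]
    refine mul_le_of_le_one_right hτ.le ?_
    rw [div_le_one (by positivity)]
    linarith
  linarith

/-! ### The local functions -/

/-- bounds and the modulus of continuity of the functions on the scale of the wavelength -/
lemma md {V K : Set ℂ} {σ : ℂ → ℝ} {h : ℕ → ℝ} {φ : ℕ → ℂ → ℂ} (H : LocB V σ h φ)
    (hK : IsCompact K) (hKV : K ⊆ V) (R : ℝ) : ∃ L : ℝ, 0 < L ∧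
      (∃ B : ℝ, 0 ≤ B ∧ ∀ᶠ n in atTop, ∀ z ∈ K, ∀ y : ℂ, ‖y‖ ≤ R →
        ‖φ n (dp σ h n z y)‖ ≤ B * √(Mn L h φ n z)) ∧
      ∀ ε : ℝ, 0 < ε → ∃ δ : ℝ, 0 < δ ∧
      ∀ᶠ n in atTop, ∀ z ∈ K, ∀ y y' : ℂ, ‖y‖ ≤ R → ‖y'‖ ≤ R → ‖y - y'‖ ≤ δ →
      ‖φ n (dp σ h n z y) - φ n (dp σ h n z y')‖ ≤ ε * √(Mn L h φ n z) := by
  obtain ⟨L, hL, hT⟩ := tAY V σ h φ H K hK hKV R
  refine ⟨L, hL, ?_, fun ε hε => ?_⟩
  · obtain ⟨N, hN⟩ := hT 1 one_pos
    obtain ⟨B, hB, h1⟩ := ROTP.Tay_bd H hK hKV hL N R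
    refine ⟨B + 1, by positivity, ?_⟩
    filter_upwards [hN N le_rfl, h1] with n n1 n2 z hz y hy
    have h2 := (n1 z hz y hy).2
    have h3 := n2 z hz y hy
    have e1 : φ n (dp σ h n z y) =
        TayE σ h φ N n z y + (φ n (dp σ h n z y) - TayE σ h φ N n z y) := by ring
    rw [e1]
    refine (norm_add_le _ _).trans ?_
    linarith
  obtain ⟨N, hN⟩ := hT (ε / 3) (by positivity)
  obtain ⟨δ, hδ, h1⟩ := ROTP.Tay_mod H hK hKV hL N R (ε := ε / 3) (by positivity)
  refine ⟨δ, hδ, ?_⟩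
  filter_upwards [hN N le_rfl, h1] with n n1 n2 z hz y y' hy hy' hyy
  have h2 := (n1 z hz y hy).2
  have h3 := (n1 z hz y' hy').2
  have h4 := n2 z hz y y' hy hy' hyy
  have e1 : φ n (dp σ h n z y) - φ n (dp σ h n z y') =
      (φ n (dp σ h n z y) - TayE σ h φ N n z y) + (TayE σ h φ N n z y - TayE σ h φ N n z y')
        - (φ n (dp σ h n z y') - TayE σ h φ N n z y') := by ring
  rw [e1]
  refine (norm_sub_le _ _).trans ?_
  have h5 := norm_add_le (φ n (dp σ h n z y) - TayE σ h φ N n z y)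
    (TayE σ h φ N n z y - TayE σ h φ N n z y')
  linarith

variable {Γ : Subgroup SL(2, ℝ)} {D : Set ℍ} {ρ : ℍ → ℝ} {φ : ℕ → ℍ → ℝ} {m : ℕ → ℝ}

/-- the average over the angle of a function of the waves is invariant -/
lemma ang_inv {f : ℍ → ℝ} (hf : ∀ γ ∈ Γ, ∀ z, f (γ • z) = f z) (hρ : ∀ γ ∈ Γ, ∀ z, ρ (γ • z) = ρ z)
    (c : ℝ) {k : ℕ} (x : Fin k → ℂ) (G : (Fin k → ℝ) → ℝ) : ∀ γ ∈ Γ, ∀ z,
    ∫ t, G (fun i => Berry.rWave ρ f c (x i) (γ • z, t)) ∂ang
      = ∫ t, G (fun i => Berry.rWave ρ f c (x i) (z, t)) ∂ang := by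
  intro γ hγ z
  obtain ⟨α, hα⟩ := Berry.mul_frame γ z
  have hper : Function.Periodic (fun θ => G (fun i => Berry.rWave ρ f c (x i) (γ • z, θ)))
      (2 * Real.pi) := by
    intro θ
    unfold Berry.rWave
    simp only [Berry.frame_periodic]
  rw [← ang_shift hper α]
  congr 1; funext θ
  congr 1
  funext i
  unfold Berry.rWave
  simp only
  rw [← hα θ, mul_smul, hf γ hγ, hρ γ hγ]

/-- the mean of a function of the local waves, on the plane -/
lemma plane [Countable Γ] (hS : Sur Γ D ρ φ m) {ζ : ℂ → ℝ} (hζ : CutF Γ D ρ ζ) {r : ℕ}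
    (x : Fin r → ℂ) {G : (Fin r → ℝ) → ℝ} (hG : Continuous G) : ∀ᶠ n in atTop,
      ∫ p, G (fun i => Berry.rWave ρ (φ n) (m n) (x i) p) ∂(Berry.rFrameProb ρ D)
        = ∫ z, ζ z * ∫ t, G (fun i => Berry.rWave ρ (φ n) (m n) (x i) (ofComplex z, t)) ∂ang := by
  filter_upwards [OR2.wav hS x] with n hn
  obtain ⟨b₀, hb₀⟩ := hn
  obtain ⟨b, hb⟩ : ∃ b, ∀ p, |G (fun i => Berry.rWave ρ (φ n) (m n) (x i) p)| ≤ b := by
    obtain ⟨b', hb'⟩ := (isCompact_closedBall (0 : Fin r → ℝ) |b₀|).exists_bound_of_continuousOn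
      hG.continuousOn
    refine ⟨b', fun p => ?_⟩
    refine hb' _ ?_
    rw [mem_closedBall_zero_iff, pi_norm_le_iff_of_nonneg (abs_nonneg b₀)]
    exact fun i => ((hb₀ i).2 p).trans (le_abs_self b₀)
  set f : ℍ → ℝ := fun z => ∫ t, G (fun i => Berry.rWave ρ (φ n) (m n) (x i) (z, t)) ∂ang with hf
  have hGm : Measurable fun p : ℍ × ℝ => G (fun i => Berry.rWave ρ (φ n) (m n) (x i) p) :=
    hG.measurable.comp (measurable_pi_lambda _ fun i => (hb₀ i).1)
  have hfm : Measurable f := (hGm.stronglyMeasurable.integral_prod_right').measurable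
  have hfb : ∀ z, |f z| ≤ b := by
    intro z
    have h2 : ‖f z‖ ≤ b * ang.real univ :=
      norm_integral_le_of_norm_le_const (Eventually.of_forall fun t => hb _)
    simpa using h2
  have hg := UIF.geo hS
  have hfD : IntegrableOn f D (volume : Measure ℍ) := by
    have : IsFiniteMeasure ((volume : Measure ℍ).restrict D) :=
      ⟨by rw [Measure.restrict_apply_univ]; exact hg.fin.lt_top⟩
    exact Integrable.of_bound hfm.aestronglyMeasurable b (Eventually.of_forall hfb)
  have hfi : ∀ γ ∈ Γ, ∀ z, f (γ • z) = f z := fun γ hγ z =>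
    ang_inv (Γ := Γ) (f := φ n) (fun γ hγ z => hS.eig.invariant n γ hγ z)
      hS.fac.inv (m n) x G γ hγ z
  obtain ⟨h3, h4⟩ := hζ.int f hfm hfD hfi
  have e1 : ∫ p, G (fun i => Berry.rWave ρ (φ n) (m n) (x i) p) ∂(Berry.rFrameProb ρ D)
      = Berry.rAvg ρ D f := by
    have : IsProbabilityMeasure (ProbabilityTheory.cond (Berry.area ρ) D) := area_prob hg
    unfold Berry.rFrameProb Berry.rAvg
    rw [integral_prod]
    exact Integrable.of_bound hGm.aestronglyMeasurable b (Eventually.of_forall fun p => hb _)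
  rw [e1, ← h4]

end STN

open STA (vals int0) in
open STN in
/-- **STN** -/
theorem t_STN : StmtStn := by
  intro Γ _ D ρ φ m hS r x y G C₀ hG₀
  obtain ⟨C, hC0, hGL⟩ : ∃ C : ℝ, 0 ≤ C ∧ ∀ s t : Fin r → ℝ,
      |G s - G t| ≤ C * ((∑ i, |s i| + ∑ i, |t i|) * ∑ i, |s i - t i|) := by
    refine ⟨|C₀|, abs_nonneg _, fun s t => (hG₀ s t).trans ?_⟩
    refine mul_le_mul_of_nonneg_right (le_abs_self C₀) (mul_nonneg (add_nonneg ?_ ?_) ?_)
    · exact Finset.sum_nonneg fun i _ => abs_nonneg _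
    · exact Finset.sum_nonneg fun i _ => abs_nonneg _
    · exact Finset.sum_nonneg fun i _ => abs_nonneg _
  have hGc : Continuous G := cont hGL
  -- the chart
  obtain ⟨ζ, hζ⟩ := t_CUT Γ D ρ hS.mD hS.fd hS.fac
  set K : Set ℂ := tsupport (fun z => (ζ z : ℂ)) with hKdef
  have hK : IsCompact K := hζ.test.supp
  obtain ⟨V, F', σ, φ', hKV, -, -, -, A⟩ := stmtLcz UH (gr ρ) (hh m) (ph φ) isOpen_UH
    (U3.WGA.contDiffOn_gr hS.fac.smooth) (fun z hz => U3.WGA.gr_pos hz) hS.loc K hK hζ.test.sub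
  have hζc : Continuous ζ := Complex.continuous_re.comp hζ.test.smooth.continuous
  have hζ0 : ∀ z, z ∉ K → ζ z = 0 := by
    intro z hz
    have h1 : ((ζ z : ℝ) : ℂ) = 0 := by
      by_contra hne
      exact hz (subset_tsupport (fun z => (ζ z : ℂ)) hne)
    exact_mod_cast h1
  obtain ⟨B₁, hB₁⟩ := hK.exists_bound_of_continuousOn hζc.continuousOn
  obtain ⟨a, ha⟩ : ∃ a : ℂ → ℝ, a = fun z => Real.exp (((-1 : ℤ) : ℝ) * σ z) := ⟨_, rfl⟩
  have hac : Continuous a := by
    rw [ha]
    exact Real.continuous_exp.comp (continuous_const.mul A.loc.sm.continuous)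
  have hap : ∀ z, 0 < a z := fun z => by rw [ha]; exact Real.exp_pos _
  have hea : ∀ z, ex σ (-1) z = (a z : ℂ) := fun z => by rw [ha]; rfl
  -- the larger set
  obtain ⟨r₀, hr₀, hr₀V⟩ := hK.exists_cthickening_subset_open A.op hKV
  obtain ⟨K', hK'⟩ : ∃ K' : Set ℂ, K' = Metric.cthickening r₀ K := ⟨_, rfl⟩
  have hKK' : Metric.cthickening r₀ K ⊆ K' := hK'.ge
  have hKsub : K ⊆ K' := (Metric.self_subset_cthickening K).trans hKK'
  have hK'c : IsCompact K' := by rw [hK']; exact hK.cthickening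
  have hK'V : K' ⊆ V := by rw [hK']; exact hr₀V
  -- the size of the points
  obtain ⟨X, hX⟩ : ∃ X : ℝ, X = ∑ i, ‖x i‖ + ‖y‖ := ⟨_, rfl⟩
  have hXx : ∀ i, ‖x i‖ + ‖y‖ ≤ X := by
    intro i
    rw [hX]
    have := Finset.single_le_sum (f := fun i => ‖x i‖) (fun j _ => norm_nonneg _)
      (Finset.mem_univ i)
    simpa using this
  have hXy : ‖y‖ ≤ X := by
    rw [hX]
    have : 0 ≤ ∑ i, ‖x i‖ := Finset.sum_nonneg fun i _ => norm_nonneg _
    linarith
  have hX0 : 0 ≤ X := (norm_nonneg y).trans hXy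
  have hXi : ∀ i, ‖x i‖ ≤ X := fun i => by
    have := hXx i
    have := norm_nonneg y
    linarith
  obtain ⟨L, hL, ⟨B, hB0, hB⟩, hmd⟩ := md A.loc hK'c hK'V (X + 2)
  obtain ⟨C₁, hC₁⟩ := ROTG.Mn_bdd A.loc hK hKV hL.le
  obtain ⟨C₂, hC₂⟩ := ROTG.Mn_bdd A.loc hK'c hK'V hL.le
  have hcφ : ∀ n, Continuous (φ' n) := fun n => (A.loc.smφ n).continuous
  have hMc : ∀ n, Continuous (Mn L (hh m) φ' n) := continuous_Mn hcφ L
  have hM0 : ∀ n z, 0 ≤ Mn L (hh m) φ' n z := fun n z => zero_le_one.trans (one_le_Mn L n z)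
  rw [Metric.tendsto_atTop]
  intro e he
  obtain ⟨ε, hε⟩ : ∃ ε : ℝ, ε = e / 8 := ⟨_, rfl⟩
  have hε0 : 0 < ε := by rw [hε]; positivity
  obtain ⟨κ, hκ⟩ : ∃ κ : ℝ, κ = C * (2 * r * B * r) := ⟨_, rfl⟩
  have hκ0 : 0 ≤ κ := by rw [hκ]; positivity
  obtain ⟨ε₁, hε₁⟩ : ∃ ε₁ : ℝ, ε₁ = ε / ((κ + 1) * (|B₁| + 1) * (|C₁| + 1)) := ⟨_, rfl⟩
  have hε₁0 : 0 < ε₁ := by rw [hε₁]; positivity
  have hε₁C : κ * ε₁ * (|B₁| * |C₁|) ≤ ε := by
    have h1 : κ * (|B₁| * |C₁|) ≤ (κ + 1) * (|B₁| + 1) * (|C₁| + 1) := by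
      have h2 := abs_nonneg B₁
      have h3 := abs_nonneg C₁
      have h4 : κ * (|B₁| * |C₁|) ≤ (κ + 1) * ((|B₁| + 1) * (|C₁| + 1)) := by gcongr <;> linarith
      linarith
    rw [hε₁]
    calc κ * (ε / ((κ + 1) * (|B₁| + 1) * (|C₁| + 1))) * (|B₁| * |C₁|)
        = ε * (κ * (|B₁| * |C₁|)) / ((κ + 1) * (|B₁| + 1) * (|C₁| + 1)) := by ring
      _ ≤ ε := by
          rw [div_le_iff₀ (by positivity)]
          exact mul_le_mul_of_nonneg_left h1 hε0.le
  obtain ⟨δ, hδ, hmod⟩ := hmd ε₁ hε₁0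
  obtain ⟨δ', hδ'⟩ : ∃ δ' : ℝ, δ' = min δ 1 := ⟨_, rfl⟩
  have hδ'0 : 0 < δ' := by rw [hδ']; exact lt_min hδ one_pos
  have hδ'1 : δ' ≤ 1 := by rw [hδ']; exact min_le_right _ _
  have hδ'2 : δ' ≤ δ := by rw [hδ']; exact min_le_left _ _
  -- the bounds of the functions
  have hcmp : ∀ᶠ n in atTop, ∀ z ∈ K', ∀ u u' : Fin r → ℂ, (∀ i, ‖u i‖ ≤ X + 2) →
      (∀ i, ‖u' i‖ ≤ X + 2) → (∀ i, ‖u i - u' i‖ ≤ δ') →
      |G (fun i => (φ' n (dp σ (hh m) n z (u i))).re) -
        G (fun i => (φ' n (dp σ (hh m) n z (u' i))).re)| ≤ κ * ε₁ * Mn L (hh m) φ' n z := by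
    filter_upwards [hB, hmod] with n n1 n2 z hz u u' hu hu' huu
    rw [hκ]
    refine difb hC0 hGL (hM0 n z) (fun i => ?_) (fun i => ?_) (fun i => ?_)
    · exact (Complex.abs_re_le_norm _).trans (n1 z hz _ (hu i))
    · exact (Complex.abs_re_le_norm _).trans (n1 z hz _ (hu' i))
    · rw [← Complex.sub_re]
      exact (Complex.abs_re_le_norm _).trans
        (n2 z hz _ _ (hu i) (hu' i) ((huu i).trans hδ'2))
  have hbd : ∀ᶠ n in atTop, ∀ z ∈ K', ∀ u : Fin r → ℂ, (∀ i, ‖u i‖ ≤ X + 2) →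
      |G (fun i => (φ' n (dp σ (hh m) n z (u i))).re)| ≤
        |G 0| + C * (r * B) ^ 2 * Mn L (hh m) φ' n z := by
    filter_upwards [hB] with n n1 z hz u hu
    exact valb hC0 hGL (hM0 n z) fun i =>
      (Complex.abs_re_le_norm _).trans (n1 z hz _ (hu i))
  have hint : ∀ᶠ n in atTop, κ * ε₁ * ∫ z, ζ z * Mn L (hh m) φ' n z ≤ ε := by
    filter_upwards [hC₁] with n n4
    have e1 : ∫ z, ζ z * Mn L (hh m) φ' n z = ∫ z in K, ζ z * Mn L (hh m) φ' n z := by
      rw [setIntegral_eq_integral_of_forall_compl_eq_zero]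
      intro z hz
      rw [hζ0 z hz, zero_mul]
    have h1 : ∫ z in K, ζ z * Mn L (hh m) φ' n z ≤ |B₁| * |C₁| := by
      calc ∫ z in K, ζ z * Mn L (hh m) φ' n z ≤ ∫ z in K, |B₁| * Mn L (hh m) φ' n z := by
            refine setIntegral_mono_on ((hζc.mul (hMc n)).continuousOn.integrableOn_compact hK)
              ((continuous_const.mul (hMc n)).continuousOn.integrableOn_compact hK)
              hK.measurableSet fun z hz => ?_
            refine mul_le_mul_of_nonneg_right ?_ (hM0 n z)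
            exact (le_abs_self _).trans ((hB₁ z hz).trans (le_abs_self B₁))
        _ = |B₁| * ∫ z in K, Mn L (hh m) φ' n z := integral_const_mul _ _
        _ ≤ |B₁| * |C₁| :=
            mul_le_mul_of_nonneg_left (n4.trans (le_abs_self C₁)) (abs_nonneg B₁)
    rw [e1]
    exact (mul_le_mul_of_nonneg_left h1 (by positivity)).trans hε₁C
  have hux : ∀ (t : ℝ) (w : ℂ), ‖uu t ^ 2 * w‖ = ‖w‖ := fun t w => by
    rw [norm_mul, norm_pow, norm_uu, one_pow, one_mul]
  have haC : Continuous (ex σ (-1)) := (contDiff_ex A.loc.sm (-1)).continuous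
  have huC : Continuous uu := by
    unfold uu
    exact Complex.continuous_exp.comp ((Complex.continuous_ofReal.neg).mul continuous_const)
  -- the integrals over the plane
  have P1 : ∀ p : Fin r → ℂ, (∀ i, ‖p i‖ ≤ X) → ∀ᶠ n in atTop,
      |(∫ q, G (fun i => Berry.rWave ρ (φ n) (m n) (p i) q) ∂(Berry.rFrameProb ρ D)) -
        ∫ t, (∫ z, ζ z * G (fun i => (φ' n (dp σ (hh m) n z (uu t ^ 2 * p i))).re)) ∂ang| ≤ ε ∧
      Integrable (fun t => ∫ z, ζ z *
        G (fun i => (φ' n (dp σ (hh m) n z (uu t ^ 2 * p i))).re)) ang := by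
    intro p hp
    have hv : ∀ᶠ n in atTop, ∀ i, ContinuousOn
        (fun q : ℝ × ℂ => frXi (hh m) (em ρ) (p i) n q.1 q.2) (univ ×ˢ K) ∧
        ∀ t, ∀ z ∈ K, (Berry.rWave ρ (φ n) (m n) (p i) (ofComplex z, t) : ℂ)
          = φ' n (dp σ (hh m) n z (frXi (hh m) (em ρ) (p i) n t z)) :=
      eventually_all.2 fun i => vals hS.fac.smooth A hK hKV (p i)
    have hd : ∀ᶠ n in atTop, ∀ i, ∀ t, ∀ z ∈ K,
        ‖frXi (hh m) (em ρ) (p i) n t z - uu t ^ 2 * p i‖ ≤ δ' :=
      eventually_all.2 fun i => (PTF.dis hS.fac.smooth A hK hKV (p i)).lim δ' hδ'0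
    filter_upwards [hv, hd, hcmp, hint, plane hS hζ p hGc] with n nv nd nc ni np
    obtain ⟨H, hH⟩ : ∃ H : ℝ × ℂ → ℝ, H = fun q => ζ q.2 *
      G (fun i => (φ' n (dp σ (hh m) n q.2 (frXi (hh m) (em ρ) (p i) n q.1 q.2))).re) := ⟨_, rfl⟩
    obtain ⟨H', hH'⟩ : ∃ H' : ℝ × ℂ → ℝ, H' = fun q => ζ q.2 *
      G (fun i => (φ' n (dp σ (hh m) n q.2 (uu q.1 ^ 2 * p i))).re) := ⟨_, rfl⟩
    have cH : ContinuousOn H (univ ×ˢ K) := by
      rw [hH]
      refine (hζc.comp continuous_snd).continuousOn.mul (hGc.comp_continuousOn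
        (continuousOn_pi.2 fun i => Complex.continuous_re.comp_continuousOn
          ((hcφ n).comp_continuousOn ?_)))
      unfold dp
      exact continuousOn_snd.add (continuousOn_const.mul
        ((haC.comp continuous_snd).continuousOn.mul (nv i).1))
    have cH' : ContinuousOn H' (univ ×ˢ K) := by
      rw [hH']
      refine Continuous.continuousOn ?_
      refine (hζc.comp continuous_snd).mul (hGc.comp
        (continuous_pi fun i => Complex.continuous_re.comp ((hcφ n).comp ?_)))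
      unfold dp
      exact continuous_snd.add (continuous_const.mul
        ((haC.comp continuous_snd).mul (((huC.comp continuous_fst).pow 2).mul continuous_const)))
    have hHint : Integrable H (ang.prod (volume.restrict K)) := by
      have h1 := (int_ang hK (H := fun q => (H q : ℂ))
        (Complex.continuous_ofReal.comp_continuousOn cH)).re
      simpa using h1
    have hHint' : Integrable H' (ang.prod (volume.restrict K)) := by
      have h1 := (int_ang hK (H := fun q => (H' q : ℂ))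
        (Complex.continuous_ofReal.comp_continuousOn cH')).re
      simpa using h1
    have eK : ∀ t : ℝ, ∫ z, ζ z * G (fun i => (φ' n (dp σ (hh m) n z (uu t ^ 2 * p i))).re) =
        ∫ z in K, H' (t, z) := by
      intro t
      rw [hH', setIntegral_eq_integral_of_forall_compl_eq_zero]
      intro z hz
      simp only
      rw [hζ0 z hz, zero_mul]
    have iT : Integrable (fun t => ∫ z in K, H (t, z)) ang := hHint.integral_prod_left
    have iT' : Integrable (fun t => ∫ z in K, H' (t, z)) ang := hHint'.integral_prod_left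
    have hDsp : ∀ t : ℝ, |(∫ z in K, H (t, z)) - ∫ z in K, H' (t, z)| ≤ ε := by
      intro t
      have i1 : IntegrableOn (fun z => H (t, z)) K :=
        ContinuousOn.integrableOn_compact hK
          (cH.comp (continuousOn_const.prodMk continuousOn_id) fun z hz => ⟨mem_univ _, hz⟩)
      have i2 : IntegrableOn (fun z => H' (t, z)) K :=
        ContinuousOn.integrableOn_compact hK
          (cH'.comp (continuousOn_const.prodMk continuousOn_id) fun z hz => ⟨mem_univ _, hz⟩)
      have i3 : IntegrableOn (fun z => ζ z * Mn L (hh m) φ' n z) K :=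
        (hζc.mul (hMc n)).continuousOn.integrableOn_compact hK
      rw [← integral_sub i1 i2, ← Real.norm_eq_abs]
      refine (norm_integral_le_of_norm_le (i3.const_mul (κ * ε₁)) ?_).trans ?_
      · filter_upwards [ae_restrict_mem hK.measurableSet] with z hz
        rw [hH, hH']
        simp only
        rw [← mul_sub, norm_mul, Real.norm_of_nonneg (hζ.nonneg z), Real.norm_eq_abs]
        have h1 : κ * ε₁ * (ζ z * Mn L (hh m) φ' n z) =
            ζ z * (κ * ε₁ * Mn L (hh m) φ' n z) := by ring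
        rw [h1]
        refine mul_le_mul_of_nonneg_left ?_ (hζ.nonneg z)
        refine nc z (hKsub hz) _ _ (fun i => ?_) (fun i => ?_) (fun i => nd i t z hz)
        · have e4 : frXi (hh m) (em ρ) (p i) n t z =
              (frXi (hh m) (em ρ) (p i) n t z - uu t ^ 2 * p i) + uu t ^ 2 * p i := by ring
          rw [e4]
          refine (norm_add_le _ _).trans ?_
          rw [hux]
          have := nd i t z hz
          have := hp i
          linarith
        · rw [hux]
          have := hp i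
          linarith
      · rw [integral_const_mul]
        have e5 : ∫ z in K, ζ z * Mn L (hh m) φ' n z = ∫ z, ζ z * Mn L (hh m) φ' n z := by
          rw [setIntegral_eq_integral_of_forall_compl_eq_zero]
          intro z hz
          rw [hζ0 z hz, zero_mul]
        rw [e5]
        exact ni
    have E1 : ∫ z, ζ z * ∫ t, G (fun i => Berry.rWave ρ (φ n) (m n) (p i) (ofComplex z, t)) ∂ang =
        ∫ t, (∫ z in K, H (t, z)) ∂ang := by
      have e2 : ∫ z, ζ z * ∫ t, G (fun i => Berry.rWave ρ (φ n) (m n) (p i) (ofComplex z, t)) ∂ang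
          = ∫ z in K, ζ z *
            ∫ t, G (fun i => Berry.rWave ρ (φ n) (m n) (p i) (ofComplex z, t)) ∂ang := by
        rw [setIntegral_eq_integral_of_forall_compl_eq_zero]
        intro z hz
        rw [hζ0 z hz, zero_mul]
      have e1 : ∫ z, ζ z * ∫ t, G (fun i => Berry.rWave ρ (φ n) (m n) (p i) (ofComplex z, t)) ∂ang
          = ∫ z in K, ∫ t, H (t, z) ∂ang := by
        rw [e2]
        refine setIntegral_congr_fun hK.measurableSet fun z hz => ?_
        beta_reduce
        rw [← integral_const_mul]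
        refine integral_congr_ae (Eventually.of_forall fun t => ?_)
        beta_reduce
        rw [hH]
        simp only
        congr 2
        funext i
        rw [← (nv i).2 t z hz, Complex.ofReal_re]
      rw [e1]
      exact (integral_integral_swap (f := fun t z => H (t, z)) hHint).symm
    refine ⟨?_, by simp only [eK]; exact iT'⟩
    simp only [eK]
    rw [np, E1, ← integral_sub iT iT', ← Real.norm_eq_abs]
    have h4 := norm_integral_le_of_norm_le_const (μ := ang)
      (f := fun t => (∫ z in K, H (t, z)) - ∫ z in K, H' (t, z)) (C := ε)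
      (Eventually.of_forall fun t => by rw [Real.norm_eq_abs]; exact hDsp t)
    have h5 : ang.real univ = 1 := by simp
    rw [h5, mul_one] at h4
    exact h4
  -- translations
  obtain ⟨δ₁, hδ₁, hnear⟩ := near hK hac hap A.loc.hpos A.loc.hlim hX0
    (show 0 < δ' / 2 by positivity)
  obtain ⟨C₃, hC₃⟩ : ∃ C₃ : ℝ, C₃ = |G 0| * (volume K').toReal + C * (r * B) ^ 2 * |C₂| :=
    ⟨_, rfl⟩
  have hC₃0 : 0 ≤ C₃ := by rw [hC₃]; positivity
  obtain ⟨h₀, hh₀, hTR⟩ := TR hK hK'c hr₀ hKK' hζc hζ0 hζ.nonneg hac (fun z => (hap z).le) hX0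
    hC₃0 hε0 hδ₁
  have P2 : ∀ᶠ n in atTop, ∀ t : ℝ,
      |(∫ z, ζ z * G (fun i => (φ' n (dp σ (hh m) n z (uu t ^ 2 * (x i + y)))).re)) -
        ∫ z, ζ z * G (fun i => (φ' n (dp σ (hh m) n z (uu t ^ 2 * x i))).re)| ≤ 3 * ε := by
    filter_upwards [hcmp, hbd, hint, hC₂, A.loc.hlim.eventually_le_const hh₀, hnear]
      with n nc nb ni nC nh nn t
    obtain ⟨v, hv⟩ : ∃ v : ℂ, v = uu t ^ 2 * y := ⟨_, rfl⟩
    obtain ⟨u, hu⟩ : ∃ u : Fin r → ℂ, u = fun i => uu t ^ 2 * x i := ⟨_, rfl⟩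
    have hvX : ‖v‖ ≤ X := by rw [hv, hux]; exact hXy
    have huX : ∀ i, ‖u i‖ ≤ X := fun i => by rw [hu]; simp only; rw [hux]; exact hXi i
    have huvX : ∀ i, ‖u i + v‖ ≤ X := fun i => by
      rw [hu, hv]
      simp only
      rw [← mul_add, hux]
      exact (norm_add_le _ _).trans (hXx i)
    obtain ⟨f, hf⟩ : ∃ f : ℂ → ℝ, f = fun z => G (fun i => (φ' n (dp σ (hh m) n z (u i))).re) :=
      ⟨_, rfl⟩
    have hdc : ∀ w : ℂ, Continuous fun z => dp σ (hh m) n z w := fun w => by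
      unfold dp
      exact continuous_id.add (continuous_const.mul (haC.mul continuous_const))
    have hfc : Continuous f := by
      rw [hf]
      exact hGc.comp (continuous_pi fun i => Complex.continuous_re.comp ((hcφ n).comp (hdc _)))
    have hfi : ∫ z in K', |f z| ≤ C₃ := by
      have i1 : IntegrableOn (fun z => |f z|) K' := hfc.abs.continuousOn.integrableOn_compact hK'c
      have i2 : IntegrableOn (fun _ : ℂ => |G 0|) K' :=
        integrableOn_const hK'c.measure_lt_top.ne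
      have i3 : IntegrableOn (fun z => C * (r * B) ^ 2 * Mn L (hh m) φ' n z) K' :=
        (continuous_const.mul (hMc n)).continuousOn.integrableOn_compact hK'c
      calc ∫ z in K', |f z| ≤ ∫ z in K', (|G 0| + C * (r * B) ^ 2 * Mn L (hh m) φ' n z) := by
            refine setIntegral_mono_on i1 (i2.add i3) hK'c.measurableSet fun z hz => ?_
            rw [hf]
            refine nb z hz _ fun i => ?_
            have := huX i
            linarith
        _ = |G 0| * (volume K').toReal + C * (r * B) ^ 2 * ∫ z in K', Mn L (hh m) φ' n z := by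
            rw [integral_add i2 i3, integral_const_mul, setIntegral_const, smul_eq_mul, mul_comm]
            rfl
        _ ≤ C₃ := by
            rw [hC₃]
            have := mul_le_mul_of_nonneg_left (nC.trans (le_abs_self C₂))
              (show 0 ≤ C * (r * B) ^ 2 by positivity)
            linarith
    -- two displacements
    have hdd : ∀ z ∈ K, ∀ s : ℝ, ∀ i,
        dp σ (hh m) n (z + (hh m n : ℂ) * ((s : ℂ) * v)) (u i) =
          dp σ (hh m) n z (((s / a z : ℝ) : ℂ) * v +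
            ((a (z + (hh m n : ℂ) * ((s : ℂ) * v)) / a z : ℝ) : ℂ) * u i) := by
      intro z _ s i
      have haz : (a z : ℂ) ≠ 0 := by exact_mod_cast (hap z).ne'
      unfold dp
      rw [hea, hea]
      push_cast
      field_simp
      ring
    have hyb : ∀ {w w' : ℂ} {b c : ℝ}, ‖w - w'‖ ≤ b → ‖w'‖ ≤ c → ‖w‖ ≤ b + c := by
      intro w w' b c h1 h2
      have e4 : w = (w - w') + w' := by ring
      rw [e4]
      exact (norm_add_le _ _).trans (add_le_add h1 h2)
    have h1 := hTR (hh m n) (A.loc.hpos n).le nh v hvX f hfc hfi (Mn L (hh m) φ' n) (κ * ε₁)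
      (hMc n) (by
        intro z hz s hs0 hs
        have q1 := fun i => nn z hz (u i) v (huX i) hvX (a z) (hap z).le (by
          rw [sub_self, abs_zero]
          exact hδ₁.le)
        have q2 := fun i => nn z hz (u i) v (huX i) hvX s hs0 hs
        rw [hf]
        simp only
        simp only [hdd z hz]
        refine nc z (hKsub hz) _ _ (fun i => ?_) (fun i => ?_) (fun i => ?_)
        · have := hyb (q1 i) (huvX i)
          linarith
        · have := hyb (q2 i) (huvX i)
          linarith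
        · refine (norm_sub_le_norm_sub_add_norm_sub _ (u i + v) _).trans ?_
          rw [norm_sub_rev (u i + v)]
          have q3 := q1 i
          have q4 := q2 i
          linarith)
    have c1 : Continuous fun z => ζ z * f (z + (hh m n : ℂ) * ((a z : ℂ) * v)) :=
      hζc.mul (hfc.comp (continuous_id.add (continuous_const.mul
        ((Complex.continuous_ofReal.comp hac).mul continuous_const))))
    have c2 : Continuous fun z => ζ z *
        G (fun i => (φ' n (dp σ (hh m) n z (u i + v))).re) :=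
      hζc.mul (hGc.comp (continuous_pi fun i =>
        Complex.continuous_re.comp ((hcφ n).comp (hdc _))))
    have i1 : Integrable fun z => ζ z * f (z + (hh m n : ℂ) * ((a z : ℂ) * v)) :=
      int0 hK c1 fun z hz => by rw [hζ0 z hz, zero_mul]
    have i2 : Integrable fun z => ζ z * G (fun i => (φ' n (dp σ (hh m) n z (u i + v))).re) :=
      int0 hK c2 fun z hz => by rw [hζ0 z hz, zero_mul]
    have i3 : Integrable fun z => ζ z * Mn L (hh m) φ' n z :=
      int0 hK (hζc.mul (hMc n)) fun z hz => by rw [hζ0 z hz, zero_mul]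
    have h2 : |(∫ z, ζ z * G (fun i => (φ' n (dp σ (hh m) n z (u i + v))).re)) -
        ∫ z, ζ z * f (z + (hh m n : ℂ) * ((a z : ℂ) * v))| ≤ ε := by
      rw [← integral_sub i2 i1, ← Real.norm_eq_abs]
      refine (norm_integral_le_of_norm_le (i3.const_mul (κ * ε₁))
        (Eventually.of_forall fun z => ?_)).trans ?_
      · rw [← mul_sub, norm_mul, Real.norm_of_nonneg (hζ.nonneg z), Real.norm_eq_abs]
        by_cases hz : z ∈ K
        · have e3 : κ * ε₁ * (ζ z * Mn L (hh m) φ' n z) =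
              ζ z * (κ * ε₁ * Mn L (hh m) φ' n z) := by ring
          rw [e3]
          refine mul_le_mul_of_nonneg_left ?_ (hζ.nonneg z)
          have q1 := fun i => nn z hz (u i) v (huX i) hvX (a z) (hap z).le (by
            rw [sub_self, abs_zero]
            exact hδ₁.le)
          rw [hf]
          simp only
          simp only [hdd z hz]
          refine nc z (hKsub hz) _ _ (fun i => ?_) (fun i => ?_) (fun i => ?_)
          · have := huvX i
            linarith
          · have := hyb (q1 i) (huvX i)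
            linarith
          · rw [norm_sub_rev]
            have q3 := q1 i
            linarith
        · rw [hζ0 z hz, zero_mul, zero_mul, mul_zero]
      · rw [integral_const_mul]
        exact ni
    have e6 : ∀ z, G (fun i => (φ' n (dp σ (hh m) n z (uu t ^ 2 * (x i + y)))).re) =
        G (fun i => (φ' n (dp σ (hh m) n z (u i + v))).re) := by
      intro z
      rw [hu, hv]
      simp only [mul_add]
    have e7 : ∀ z, G (fun i => (φ' n (dp σ (hh m) n z (uu t ^ 2 * x i))).re) = f z := by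
      intro z
      rw [hf, hu]
    simp only [e6, e7]
    have h3 := abs_sub_le (∫ z, ζ z * G (fun i => (φ' n (dp σ (hh m) n z (u i + v))).re))
      (∫ z, ζ z * f (z + (hh m n : ℂ) * ((a z : ℂ) * v))) (∫ z, ζ z * f z)
    linarith
  -- the end
  obtain ⟨N, hN⟩ := ((P1 (fun i => x i + y) fun i => (norm_add_le _ _).trans (hXx i)).and
    ((P1 x hXi).and P2)).exists_forall_of_atTop
  refine ⟨N, fun n hn => ?_⟩
  obtain ⟨⟨n1, n2⟩, ⟨n3, n4⟩, n5⟩ := hN n hn
  rw [dist_zero_right, Real.norm_eq_abs]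
  have h1 : |(∫ t, (∫ z, ζ z *
        G (fun i => (φ' n (dp σ (hh m) n z (uu t ^ 2 * (x i + y)))).re)) ∂ang) -
      ∫ t, (∫ z, ζ z * G (fun i => (φ' n (dp σ (hh m) n z (uu t ^ 2 * x i))).re)) ∂ang| ≤
      3 * ε := by
    rw [← integral_sub n2 n4, ← Real.norm_eq_abs]
    have h4 := norm_integral_le_of_norm_le_const (μ := ang)
      (f := fun t => (∫ z, ζ z *
        G (fun i => (φ' n (dp σ (hh m) n z (uu t ^ 2 * (x i + y)))).re)) -
        ∫ z, ζ z * G (fun i => (φ' n (dp σ (hh m) n z (uu t ^ 2 * x i))).re)) (C := 3 * ε)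
      (Eventually.of_forall fun t => by rw [Real.norm_eq_abs]; exact n5 t)
    have h5 : ang.real univ = 1 := by simp
    rw [h5, mul_one] at h4
    exact h4
  have h2 := abs_le.1 h1
  have h3 := abs_le.1 n1
  have h4 := abs_le.1 n3
  rw [abs_lt]
  constructor <;> linarith [h2.1, h2.2, h3.1, h3.2, h4.1, h4.2]

end

end PKM
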