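import Pool.Agent.PKM.St3

/-!
# PKM: module SWC, elementary properties of `sw`
-/

open Complex MeasureTheory Filter Topology Set
open UpperHalfPlane hiding I
open scoped ContDiff MatrixGroups ProbabilityTheory ENNReal

namespace PKM

open QE QE.NC QJ U3 NFP BSL

noncomputable section

namespace SWCx

theorem norm_e (u : ℝ) : ‖Complex.exp (-(Complex.I * (u : ℂ)))‖ = 1 := by
  have : -(Complex.I * (u : ℂ)) = ((-u : ℝ) : ℂ) * Complex.I := by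
    push_cast
    ring
  rw [this, Complex.norm_exp_ofReal_mul_I]

theorem norm_le {r : ℕ} (w : Fin r → ℝ) (x : Fin r → ℂ) (hw : ∀ i, 0 ≤ w i) (s : Fin r → ℝ)
    (v : ℂ) : ‖pwc w x s v‖ ≤ ∑ i, w i * |s i| := by
  unfold pwc
  refine (norm_sum_le _ _).trans (le_of_eq (Finset.sum_congr rfl fun i _ => ?_))
  rw [norm_mul, norm_e, mul_one, Complex.norm_real, Real.norm_eq_abs, abs_mul,
    abs_of_nonneg (hw i)]

theorem w_le_one {r : ℕ} (w : Fin r → ℝ) (hw : ∀ i, 0 ≤ w i) (h1 : ∑ i, w i = 1) (i : Fin r) :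
    w i ≤ 1 := by
  rw [← h1]
  exact Finset.single_le_sum (fun j _ => hw j) (Finset.mem_univ i)

theorem norm_le' {r : ℕ} (w : Fin r → ℝ) (x : Fin r → ℂ) (hw : ∀ i, 0 ≤ w i)
    (h1 : ∑ i, w i = 1) (s : Fin r → ℝ) (v : ℂ) : ‖pwc w x s v‖ ≤ ∑ i, |s i| :=
  (norm_le w x hw s v).trans (Finset.sum_le_sum fun i _ =>
    mul_le_of_le_one_left (abs_nonneg _) (w_le_one w hw h1 i))

theorem pwc_sub {r : ℕ} (w : Fin r → ℝ) (x : Fin r → ℂ) (s t : Fin r → ℝ) (v : ℂ) :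
    pwc w x s v - pwc w x t v = pwc w x (fun i => s i - t i) v := by
  unfold pwc
  rw [← Finset.sum_sub_distrib]
  refine Finset.sum_congr rfl fun i _ => ?_
  push_cast
  ring

theorem pwc_add {r : ℕ} (w : Fin r → ℝ) (x : Fin r → ℂ) (s t : Fin r → ℝ) (v : ℂ) :
    pwc w x (fun i => s i + t i) v = pwc w x s v + pwc w x t v := by
  unfold pwc
  rw [← Finset.sum_add_distrib]
  refine Finset.sum_congr rfl fun i _ => ?_
  push_cast
  ring

theorem bdd {r : ℕ} (w : Fin r → ℝ) (x : Fin r → ℂ) (hw : ∀ i, 0 ≤ w i) (s : Fin r → ℝ) :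
    BddAbove (Set.range fun v : S1 => ‖pwc w x s (v : ℂ)‖ ^ 2) := by
  refine ⟨(∑ i, w i * |s i|) ^ 2, ?_⟩
  rintro _ ⟨v, rfl⟩
  exact pow_le_pow_left₀ (norm_nonneg _) (norm_le w x hw s v) 2

instance nonempty : Nonempty S1 := ⟨⟨1, by simp⟩⟩

theorem le_sw {r : ℕ} (w : Fin r → ℝ) (x : Fin r → ℂ) (hw : ∀ i, 0 ≤ w i) (s : Fin r → ℝ)
    (v : S1) : ‖pwc w x s (v : ℂ)‖ ^ 2 ≤ sw w x s :=
  le_ciSup (bdd w x hw s) v

theorem sw_le {r : ℕ} (w : Fin r → ℝ) (x : Fin r → ℂ) (s : Fin r → ℝ) (c : ℝ)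
    (h : ∀ v : S1, ‖pwc w x s (v : ℂ)‖ ^ 2 ≤ c) : sw w x s ≤ c :=
  ciSup_le h

theorem diff {r : ℕ} (w : Fin r → ℝ) (x : Fin r → ℂ) (hw : ∀ i, 0 ≤ w i) (h1 : ∑ i, w i = 1)
    (s t : Fin r → ℝ) :
    sw w x s - sw w x t ≤ (∑ i, |s i| + ∑ i, |t i|) * ∑ i, |s i - t i| := by
  rw [sub_le_iff_le_add]
  refine sw_le w x s _ fun v => ?_
  have h2 := norm_le' w x hw h1 s (v : ℂ)
  have h3 := norm_le' w x hw h1 t (v : ℂ)
  have h4 := norm_le' w x hw h1 (fun i => s i - t i) (v : ℂ)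
  rw [← pwc_sub] at h4
  have h5 := le_sw w x hw t v
  have h6 : ‖pwc w x s (v : ℂ)‖ - ‖pwc w x t (v : ℂ)‖ ≤ ‖pwc w x s (v : ℂ) - pwc w x t (v : ℂ)‖ :=
    norm_sub_norm_le _ _
  have h7 : ‖pwc w x s (v : ℂ)‖ ^ 2 - ‖pwc w x t (v : ℂ)‖ ^ 2 ≤
      (∑ i, |s i| + ∑ i, |t i|) * ∑ i, |s i - t i| := by
    have h8 : ‖pwc w x s (v : ℂ)‖ ^ 2 - ‖pwc w x t (v : ℂ)‖ ^ 2 =
        (‖pwc w x s (v : ℂ)‖ + ‖pwc w x t (v : ℂ)‖) *
          (‖pwc w x s (v : ℂ)‖ - ‖pwc w x t (v : ℂ)‖) := by ring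
    rw [h8]
    have h9 : 0 ≤ ‖pwc w x s (v : ℂ)‖ + ‖pwc w x t (v : ℂ)‖ :=
      add_nonneg (norm_nonneg _) (norm_nonneg _)
    calc (‖pwc w x s (v : ℂ)‖ + ‖pwc w x t (v : ℂ)‖) *
          (‖pwc w x s (v : ℂ)‖ - ‖pwc w x t (v : ℂ)‖)
        ≤ (‖pwc w x s (v : ℂ)‖ + ‖pwc w x t (v : ℂ)‖) *
          ‖pwc w x s (v : ℂ) - pwc w x t (v : ℂ)‖ := mul_le_mul_of_nonneg_left h6 h9
      _ ≤ (∑ i, |s i| + ∑ i, |t i|) * ∑ i, |s i - t i| :=
          mul_le_mul (add_le_add h2 h3) h4 (norm_nonneg _)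
            (add_nonneg (Finset.sum_nonneg fun i _ => abs_nonneg _)
              (Finset.sum_nonneg fun i _ => abs_nonneg _))
  linarith

end SWCx

open SWCx

theorem t_SWC : StmtSwc := by
  intro r w x hw h1
  have habs : ∀ s t : Fin r → ℝ, |sw w x s - sw w x t| ≤
      (∑ i, |s i| + ∑ i, |t i|) * ∑ i, |s i - t i| := by
    intro s t
    rw [abs_sub_le_iff]
    refine ⟨diff w x hw h1 s t, ?_⟩
    have := diff w x hw h1 t s
    rw [add_comm (∑ i, |t i|)] at this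
    refine this.trans (le_of_eq ?_)
    congr 1
    exact Finset.sum_congr rfl fun i _ => abs_sub_comm _ _
  refine ⟨fun s => ⟨?_, fun v => le_sw w x hw s v⟩, ?_, habs, ?_, ?_⟩
  · exact (sq_nonneg _).trans (le_sw w x hw s (Classical.arbitrary S1))
  · intro s
    refine sw_le w x s _ fun v => ?_
    have h2 := norm_le w x hw s (v : ℂ)
    have h3 : (∑ i, w i * |s i|) ^ 2 ≤ (∑ i, w i) * ∑ i, w i * s i ^ 2 := by
      refine Finset.sum_sq_le_sum_mul_sum_of_sq_le_mul _ (fun i _ => hw i)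
        (fun i _ => mul_nonneg (hw i) (sq_nonneg _)) fun i _ => ?_
      rw [mul_pow, sq_abs]
      exact le_of_eq (by ring)
    rw [h1, one_mul] at h3
    exact (pow_le_pow_left₀ (norm_nonneg _) h2 2).trans h3
  · intro s t
    refine sw_le w x _ _ fun v => ?_
    have h2 := le_sw w x hw s v
    have h3 := le_sw w x hw t v
    have h4 : ‖pwc w x (fun i => s i + t i) (v : ℂ)‖ ≤
        ‖pwc w x s (v : ℂ)‖ + ‖pwc w x t (v : ℂ)‖ := by
      rw [pwc_add]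
      exact norm_add_le _ _
    have h5 : ‖pwc w x (fun i => s i + t i) (v : ℂ)‖ ^ 2 ≤
        (‖pwc w x s (v : ℂ)‖ + ‖pwc w x t (v : ℂ)‖) ^ 2 :=
      pow_le_pow_left₀ (norm_nonneg _) h4 2
    nlinarith [sq_nonneg (‖pwc w x s (v : ℂ)‖ - ‖pwc w x t (v : ℂ)‖)]
  · rw [continuous_iff_continuousAt]
    intro s
    unfold ContinuousAt
    rw [tendsto_iff_norm_sub_tendsto_zero]
    have h2 : Tendsto (fun t : Fin r → ℝ => (∑ i, |t i| + ∑ i, |s i|) * ∑ i, |t i - s i|)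
        (𝓝 s) (𝓝 ((∑ i, |s i| + ∑ i, |s i|) * ∑ i, |s i - s i|)) := by
      have : Continuous (fun t : Fin r → ℝ => (∑ i, |t i| + ∑ i, |s i|) * ∑ i, |t i - s i|) := by
        fun_prop
      exact this.tendsto s
    have h3 : (∑ i, |s i| + ∑ i, |s i|) * ∑ i, |s i - s i| = 0 := by simp
    rw [h3] at h2
    refine squeeze_zero (fun t => norm_nonneg _) (fun t => ?_) h2
    rw [Real.norm_eq_abs]
    exact habs t s

end

end PKM
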