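import Pool.Agent.PKM.St2a

/-!
# PKM part (c), module SYB (helper33): the difference of the symbols is small
-/

set_option autoImplicit false

open Complex MeasureTheory Filter Topology Set

namespace PKM

noncomputable section

namespace SYB

/-! ### One variable -/

theorem cos_le_exp {x : ℝ} (hx : x ^ 2 ≤ 1) : Real.cos x ≤ Real.exp (-(x ^ 2 / 8)) := by
  have h1 : |x| ≤ 1 := by
    rw [← sq_le_one_iff_abs_le_one]; exact hx
  have h2 := (abs_le.1 (Real.cos_bound h1)).2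
  have h3 : |x| ^ 4 = (x ^ 2) ^ 2 := by rw [← sq_abs x]; ring
  have h4 := Real.add_one_le_exp (-(x ^ 2 / 8))
  have h5 : (x ^ 2) ^ 2 ≤ x ^ 2 := by nlinarith [sq_nonneg x]
  rw [h3] at h2
  nlinarith [sq_nonneg x]

theorem cos_nn {x : ℝ} (hx : x ^ 2 ≤ 1) : 0 ≤ Real.cos x := by
  have h1 := Real.one_sub_sq_div_two_le_cos (x := x)
  linarith

theorem sin_sub (x : ℝ) : |Real.sin x - x| ≤ |x| ^ 3 := by
  rcases lt_trichotomy x 0 with h | h | h
  · have h1 := Real.sin_gt_sub_cube (x := -x) (by linarith)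
    have h2 := Real.sin_le (x := -x) (by linarith)
    rw [Real.sin_neg] at h1 h2
    have h3 : 0 ≤ (-x) ^ 3 := pow_nonneg (by linarith) 3
    rw [abs_of_neg h, abs_of_nonneg (by linarith)]
    linarith
  · rw [h]
    simp
  · have h1 := Real.sin_gt_sub_cube h
    have h2 := Real.sin_le h.le
    have h3 : 0 ≤ x ^ 3 := by positivity
    rw [abs_of_pos h, abs_of_nonpos (by linarith)]
    linarith

/-- `1 - u ^ n ≤ n (1 - u)` -/
theorem bern {u : ℝ} (h0 : 0 ≤ u) (n : ℕ) : 1 - u ^ n ≤ n * (1 - u) := by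
  have h1 := one_add_mul_le_pow (a := u - 1) (by linarith) n
  have h2 : 1 + (u - 1) = u := by ring
  rw [h2] at h1
  linarith

/-! ### The numerical estimate -/

theorem key_exp {n t : ℝ} (hn : 1 ≤ n) (_ht : 0 ≤ t) :
    t * (1 + n * t ^ 2) ^ 2 * Real.exp (-(n * t ^ 2)) ≤ 6 * Real.exp 1 / √n := by
  have hn0 : 0 < √n := Real.sqrt_pos.2 (by linarith)
  rw [le_div_iff₀ hn0]
  set z := n * t ^ 2 with hz
  have hz0 : 0 ≤ z := by positivity
  have h1 : t * √n ≤ 1 + z := by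
    have h2 : (t * √n) ^ 2 = z := by
      rw [mul_pow, Real.sq_sqrt (by linarith)]
      ring
    nlinarith [sq_nonneg (t * √n - 1)]
  have h3 := Real.pow_div_factorial_le_exp (1 + z) (by linarith) 3
  have h4 : ((3 : ℕ).factorial : ℝ) = 6 := by norm_num [Nat.factorial]
  rw [h4, div_le_iff₀ (by norm_num), Real.exp_add] at h3
  have h5 : Real.exp z * Real.exp (-z) = 1 := by rw [← Real.exp_add]; simp
  have h6 : 0 < Real.exp (-z) := Real.exp_pos _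
  calc t * (1 + z) ^ 2 * Real.exp (-z) * √n
      = (t * √n) * ((1 + z) ^ 2 * Real.exp (-z)) := by ring
    _ ≤ (1 + z) * ((1 + z) ^ 2 * Real.exp (-z)) :=
        mul_le_mul_of_nonneg_right h1 (by positivity)
    _ = (1 + z) ^ 3 * Real.exp (-z) := by ring
    _ ≤ (Real.exp 1 * Real.exp z * 6) * Real.exp (-z) :=
        mul_le_mul_of_nonneg_right h3 h6.le
    _ = 6 * Real.exp 1 * (Real.exp z * Real.exp (-z)) := by ring
    _ = 6 * Real.exp 1 := by rw [h5, mul_one]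

/-- the bound -/
def Err (C : ℝ) (n : ℕ) : ℝ :=
  C ^ 2 * (54 * Real.exp 1) / √(n : ℝ) + 2 * C * ((n + 2 : ℕ) * Real.exp (-(1 / 2)) ^ (n + 1))

theorem Err_lim (C : ℝ) : Tendsto (Err C) atTop (𝓝 0) := by
  have h1 : Tendsto (fun n : ℕ => C ^ 2 * (54 * Real.exp 1) / √(n : ℝ)) atTop (𝓝 0) :=
    tendsto_const_nhds.div_atTop (Real.tendsto_sqrt_atTop.comp tendsto_natCast_atTop_atTop)
  have hq : Real.exp (-(1 / 2)) < 1 := by
    rw [Real.exp_lt_one_iff]; norm_num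
  have h2 := tendsto_self_mul_const_pow_of_lt_one (Real.exp_pos (-(1 / 2))).le hq
  have h3 : Tendsto (fun n : ℕ => Real.exp (-(1 / 2)) ^ n) atTop (𝓝 0) :=
    tendsto_pow_atTop_nhds_zero_of_lt_one (Real.exp_pos _).le hq
  have h4 : Tendsto (fun n : ℕ => 2 * C * (Real.exp (-(1 / 2)) *
      ((n : ℝ) * Real.exp (-(1 / 2)) ^ n + 2 * Real.exp (-(1 / 2)) ^ n))) atTop
      (𝓝 (2 * C * (Real.exp (-(1 / 2)) * (0 + 2 * 0)))) :=
    ((h2.add (h3.const_mul 2)).const_mul _).const_mul _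
  have h5 := h1.add h4
  have e : (0 : ℝ) + 2 * C * (Real.exp (-(1 / 2)) * (0 + 2 * 0)) = 0 := by ring
  rw [e] at h5
  refine h5.congr fun n => ?_
  unfold Err
  push_cast
  ring

theorem pow_sub_le {A B κ : ℝ} (hA : 0 ≤ A) (hB : 0 ≤ B) (hAk : A ≤ κ) (hBk : B ≤ κ) (n : ℕ) :
    |A ^ n - B ^ n| ≤ n * κ ^ (n - 1) * |A - B| := by
  have h1 := abs_pow_sub_pow_le A B n
  have h2 : max |A| |B| ^ (n - 1) ≤ κ ^ (n - 1) := by
    rw [abs_of_nonneg hA, abs_of_nonneg hB]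
    exact pow_le_pow_left₀ (le_max_of_le_left hA) (max_le hAk hBk) _
  calc |A ^ n - B ^ n| ≤ |A - B| * n * max |A| |B| ^ (n - 1) := h1
    _ ≤ |A - B| * n * κ ^ (n - 1) := mul_le_mul_of_nonneg_left h2 (by positivity)
    _ = n * κ ^ (n - 1) * |A - B| := by ring

/-- the numerical estimate -/
theorem num {C : ℝ} (hC : 1 ≤ C) {n : ℕ} (hn : 1 ≤ n) {t A A1 B B1 P P1 D D1 Q Q1 : ℝ}
    (ht : 0 ≤ t) (ht1 : t ≤ 1) (hA0 : 0 ≤ A) (hA : A ≤ Real.exp (-(t ^ 2))) (hB0 : 0 ≤ B)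
    (hB : B ≤ Real.exp (-(t ^ 2))) (hAB : |A - B| ≤ C * t ^ 4) (hAB1 : |A1 - B1| ≤ C * t ^ 3)
    (hB1 : |B1| ≤ C * t) (hP : |1 - P| ≤ C * t ^ 2) (hP1 : |P1| ≤ C * t) (hD0 : 0 ≤ D)
    (hD : D ≤ Real.exp (-(1 / 2))) (hD1 : |D1| ≤ C) (hQ : |Q| ≤ 1) (hQ1 : |Q1| ≤ C) :
    |A ^ (n + 2) - B ^ (n + 2) * P - D ^ (n + 2) * Q| ≤ Err C n ∧
    |((n + 2 : ℕ) : ℝ) * A ^ (n + 1) * A1
      - (((n + 2 : ℕ) : ℝ) * B ^ (n + 1) * B1 * P + B ^ (n + 2) * P1)
      - (((n + 2 : ℕ) : ℝ) * D ^ (n + 1) * D1 * Q + D ^ (n + 2) * Q1)| ≤ Err C n := by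
  set κ := Real.exp (-(t ^ 2)) with hκ
  have hκ0 : 0 < κ := Real.exp_pos _
  have hκ1 : κ ≤ 1 := by
    rw [hκ, Real.exp_le_one_iff]
    nlinarith [sq_nonneg t]
  set q := Real.exp (-(1 / 2)) with hq
  have hq0 : 0 < q := Real.exp_pos _
  have hq1 : q ≤ 1 := by
    rw [hq, Real.exp_le_one_iff]; norm_num
  set m : ℝ := ((n + 2 : ℕ) : ℝ) with hm
  have hn1 : (1 : ℝ) ≤ n := by exact_mod_cast hn
  have hm3 : m ≤ 3 * n := by
    rw [hm]; push_cast; linarith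
  have hm1 : 1 ≤ m := by
    rw [hm]; push_cast; linarith
  -- the main bound
  have hκn : κ ^ n = Real.exp (-((n : ℝ) * t ^ 2)) := by
    rw [hκ, ← Real.exp_nat_mul]
    congr 1
    ring
  have hG : t * (1 + m * t ^ 2) ^ 2 * κ ^ n ≤ 54 * Real.exp 1 / √(n : ℝ) := by
    have h1 : 1 + m * t ^ 2 ≤ 3 * (1 + n * t ^ 2) := by nlinarith [sq_nonneg t]
    have h2 : (1 + m * t ^ 2) ^ 2 ≤ 9 * (1 + n * t ^ 2) ^ 2 := by
      have h3 := pow_le_pow_left₀ (by positivity) h1 2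
      linarith [h3, (by ring : (3 * (1 + (n : ℝ) * t ^ 2)) ^ 2 = 9 * (1 + n * t ^ 2) ^ 2)]
    have h4 := key_exp hn1 ht
    rw [← hκn] at h4
    calc t * (1 + m * t ^ 2) ^ 2 * κ ^ n ≤ t * (9 * (1 + n * t ^ 2) ^ 2) * κ ^ n :=
          mul_le_mul_of_nonneg_right (mul_le_mul_of_nonneg_left h2 ht) (by positivity)
      _ = 9 * (t * (1 + n * t ^ 2) ^ 2 * κ ^ n) := by ring
      _ ≤ 9 * (6 * Real.exp 1 / √(n : ℝ)) := by linarith
      _ = 54 * Real.exp 1 / √(n : ℝ) := by ring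
  have hκn1 : κ ^ (n + 1) ≤ κ ^ n := pow_le_pow_of_le_one hκ0.le hκ1 (by omega)
  have hκn2 : κ ^ (n + 2) ≤ κ ^ n := pow_le_pow_of_le_one hκ0.le hκ1 (by omega)
  have hBn1 : B ^ (n + 1) ≤ κ ^ n := (pow_le_pow_left₀ hB0 hB _).trans hκn1
  have hBn2 : B ^ (n + 2) ≤ κ ^ n := (pow_le_pow_left₀ hB0 hB _).trans hκn2
  have hAn1 : A ^ (n + 1) ≤ κ ^ n := (pow_le_pow_left₀ hA0 hA _).trans hκn1
  have hd2 : |A ^ (n + 2) - B ^ (n + 2)| ≤ m * κ ^ n * (C * t ^ 4) := by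
    have h1 := pow_sub_le hA0 hB0 hA hB (n + 2)
    have e : n + 2 - 1 = n + 1 := by omega
    rw [e, ← hm] at h1
    refine h1.trans (mul_le_mul (mul_le_mul_of_nonneg_left hκn1 (by linarith)) hAB
      (abs_nonneg _) (by positivity))
  have hd1 : |A ^ (n + 1) - B ^ (n + 1)| ≤ m * κ ^ n * (C * t ^ 4) := by
    have h1 := pow_sub_le hA0 hB0 hA hB (n + 1)
    have e : n + 1 - 1 = n := by omega
    rw [e] at h1
    have h2 : ((n + 1 : ℕ) : ℝ) ≤ m := by rw [hm]; push_cast; linarith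
    refine h1.trans (mul_le_mul (mul_le_mul_of_nonneg_right h2 (by positivity)) hAB
      (abs_nonneg _) (by positivity))
  -- the `D` terms
  have hDn1 : D ^ (n + 1) ≤ q ^ (n + 1) := pow_le_pow_left₀ hD0 hD _
  have hDn2 : D ^ (n + 2) ≤ q ^ (n + 1) :=
    (pow_le_pow_left₀ hD0 hD _).trans (pow_le_pow_of_le_one hq0.le hq1 (by omega))
  have hqn : 0 < q ^ (n + 1) := by positivity
  have hκnn : 0 < κ ^ n := by positivity
  have hC0 : 0 ≤ C := by linarith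
  have hCC : C ≤ C ^ 2 := by
    have b1 := mul_le_mul_of_nonneg_left hC hC0
    rw [mul_one] at b1
    rw [sq]
    exact b1
  have hErr : Err C n = C ^ 2 * (54 * Real.exp 1 / √(n : ℝ)) + 2 * C * (m * q ^ (n + 1)) := by
    unfold Err
    rw [← hm, ← hq]
    ring
  have hC2G : C ^ 2 * (t * (1 + m * t ^ 2) ^ 2 * κ ^ n) ≤ C ^ 2 * (54 * Real.exp 1 / √(n : ℝ)) :=
    mul_le_mul_of_nonneg_left hG (by positivity)
  have hmt : 0 ≤ m * t ^ 2 := by positivity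
  rw [hErr]
  constructor
  · have e1 : A ^ (n + 2) - B ^ (n + 2) * P - D ^ (n + 2) * Q =
        (A ^ (n + 2) - B ^ (n + 2)) + B ^ (n + 2) * (1 - P) - D ^ (n + 2) * Q := by ring
    have a1 : |B ^ (n + 2) * (1 - P)| ≤ κ ^ n * (C * t ^ 2) := by
      rw [abs_mul, abs_of_nonneg (pow_nonneg hB0 _)]
      exact mul_le_mul hBn2 hP (abs_nonneg _) hκnn.le
    have a2 : |D ^ (n + 2) * Q| ≤ q ^ (n + 1) * 1 := by
      rw [abs_mul, abs_of_nonneg (pow_nonneg hD0 _)]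
      exact mul_le_mul hDn2 hQ (abs_nonneg _) hqn.le
    have a3 : |A ^ (n + 2) - B ^ (n + 2) * P - D ^ (n + 2) * Q| ≤
        m * κ ^ n * (C * t ^ 4) + κ ^ n * (C * t ^ 2) + q ^ (n + 1) * 1 := by
      rw [e1]
      exact (abs_sub _ _).trans (add_le_add ((abs_add_le _ _).trans (add_le_add hd2 a1)) a2)
    have a4 : m * t ^ 4 + t ^ 2 ≤ t * (1 + m * t ^ 2) ^ 2 := by
      have b1 : t ^ 2 ≤ t := by nlinarith
      have b2 : m * t ^ 4 ≤ t * (m * t ^ 2) := by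
        have b3 : t ^ 4 ≤ t ^ 3 := pow_le_pow_of_le_one ht ht1 (by norm_num)
        calc m * t ^ 4 ≤ m * t ^ 3 := mul_le_mul_of_nonneg_left b3 (by linarith)
          _ = t * (m * t ^ 2) := by ring
      have b4 : 1 + m * t ^ 2 ≤ (1 + m * t ^ 2) ^ 2 := by
        have b6 : (1 + m * t ^ 2) ^ 2 = 1 + m * t ^ 2 + (m * t ^ 2 + (m * t ^ 2) ^ 2) := by ring
        rw [b6]
        have b7 := sq_nonneg (m * t ^ 2)
        linarith
      have b5 := mul_le_mul_of_nonneg_left b4 ht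
      have b8 : t * (1 + m * t ^ 2) = t + t * (m * t ^ 2) := by ring
      rw [b8] at b5
      linarith
    have a5 : m * κ ^ n * (C * t ^ 4) + κ ^ n * (C * t ^ 2) ≤
        C ^ 2 * (t * (1 + m * t ^ 2) ^ 2 * κ ^ n) := by
      calc m * κ ^ n * (C * t ^ 4) + κ ^ n * (C * t ^ 2)
          = C * (κ ^ n * (m * t ^ 4 + t ^ 2)) := by ring
        _ ≤ C ^ 2 * (κ ^ n * (t * (1 + m * t ^ 2) ^ 2)) := by
            refine mul_le_mul hCC (mul_le_mul_of_nonneg_left a4 hκnn.le) ?_ (by positivity)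
            positivity
        _ = C ^ 2 * (t * (1 + m * t ^ 2) ^ 2 * κ ^ n) := by ring
    have a6 : q ^ (n + 1) * 1 ≤ 2 * C * (m * q ^ (n + 1)) := by
      have b1 : (1 : ℝ) ≤ 2 * C * m := by
        have b2 : (1 : ℝ) * 1 ≤ (2 * C) * m :=
          mul_le_mul (by linarith) hm1 zero_le_one (by linarith)
        linarith
      calc q ^ (n + 1) * 1 = 1 * q ^ (n + 1) := by ring
        _ ≤ (2 * C * m) * q ^ (n + 1) := mul_le_mul_of_nonneg_right b1 hqn.le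
        _ = 2 * C * (m * q ^ (n + 1)) := by ring
    linarith
  · have e1 : m * A ^ (n + 1) * A1 - (m * B ^ (n + 1) * B1 * P + B ^ (n + 2) * P1)
        - (m * D ^ (n + 1) * D1 * Q + D ^ (n + 2) * Q1) =
        (m * A ^ (n + 1) * (A1 - B1) + m * (A ^ (n + 1) - B ^ (n + 1)) * B1
          + m * B ^ (n + 1) * B1 * (1 - P) + (-(B ^ (n + 2) * P1)))
        + (-(m * D ^ (n + 1) * D1 * Q) + (-(D ^ (n + 2) * Q1))) := by ring
    have a1 : |m * A ^ (n + 1) * (A1 - B1)| ≤ m * κ ^ n * (C * t ^ 3) := by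
      rw [abs_mul, abs_of_nonneg (mul_nonneg (by linarith) (pow_nonneg hA0 _))]
      exact mul_le_mul (mul_le_mul_of_nonneg_left hAn1 (by linarith)) hAB1 (abs_nonneg _)
        (by positivity)
    have a2 : |m * (A ^ (n + 1) - B ^ (n + 1)) * B1| ≤
        m * (m * κ ^ n * (C * t ^ 4)) * (C * t) := by
      rw [abs_mul, abs_mul, abs_of_nonneg (by linarith : (0 : ℝ) ≤ m)]
      exact mul_le_mul (mul_le_mul_of_nonneg_left hd1 (by linarith)) hB1 (abs_nonneg _)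
        (by positivity)
    have a3 : |m * B ^ (n + 1) * B1 * (1 - P)| ≤ m * κ ^ n * (C * t) * (C * t ^ 2) := by
      rw [abs_mul, abs_mul, abs_of_nonneg (mul_nonneg (by linarith) (pow_nonneg hB0 _))]
      exact mul_le_mul (mul_le_mul (mul_le_mul_of_nonneg_left hBn1 (by linarith)) hB1
        (abs_nonneg _) (by positivity)) hP (abs_nonneg _) (by positivity)
    have a4 : |(-(B ^ (n + 2) * P1))| ≤ κ ^ n * (C * t) := by
      rw [abs_neg, abs_mul, abs_of_nonneg (pow_nonneg hB0 _)]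
      exact mul_le_mul hBn2 hP1 (abs_nonneg _) hκnn.le
    have a5 : |(-(m * D ^ (n + 1) * D1 * Q))| ≤ m * q ^ (n + 1) * C * 1 := by
      rw [abs_neg, abs_mul, abs_mul, abs_of_nonneg (mul_nonneg (by linarith) (pow_nonneg hD0 _))]
      exact mul_le_mul (mul_le_mul (mul_le_mul_of_nonneg_left hDn1 (by linarith)) hD1
        (abs_nonneg _) (by positivity)) hQ (abs_nonneg _) (by positivity)
    have a6 : |(-(D ^ (n + 2) * Q1))| ≤ q ^ (n + 1) * C := by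
      rw [abs_neg, abs_mul, abs_of_nonneg (pow_nonneg hD0 _)]
      exact mul_le_mul hDn2 hQ1 (abs_nonneg _) hqn.le
    have a7 : |m * A ^ (n + 1) * A1 - (m * B ^ (n + 1) * B1 * P + B ^ (n + 2) * P1)
        - (m * D ^ (n + 1) * D1 * Q + D ^ (n + 2) * Q1)| ≤
        (m * κ ^ n * (C * t ^ 3) + m * (m * κ ^ n * (C * t ^ 4)) * (C * t)
          + m * κ ^ n * (C * t) * (C * t ^ 2) + κ ^ n * (C * t))
        + (m * q ^ (n + 1) * C * 1 + q ^ (n + 1) * C) := by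
      rw [e1]
      refine (abs_add_le _ _).trans (add_le_add ?_ ((abs_add_le _ _).trans (add_le_add a5 a6)))
      refine (abs_add_le _ _).trans (add_le_add ?_ a4)
      refine (abs_add_le _ _).trans (add_le_add ?_ a3)
      exact (abs_add_le _ _).trans (add_le_add a1 a2)
    have a8 : m * κ ^ n * (C * t ^ 3) + m * (m * κ ^ n * (C * t ^ 4)) * (C * t)
          + m * κ ^ n * (C * t) * (C * t ^ 2) + κ ^ n * (C * t) ≤
        C ^ 2 * (t * (1 + m * t ^ 2) ^ 2 * κ ^ n) := by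
      have b1 : C * (m * κ ^ n * t ^ 3 + κ ^ n * t) ≤ C ^ 2 * (m * κ ^ n * t ^ 3 + κ ^ n * t) :=
        mul_le_mul_of_nonneg_right hCC (by positivity)
      have b2 : m * κ ^ n * (C * t ^ 3) + m * (m * κ ^ n * (C * t ^ 4)) * (C * t)
          + m * κ ^ n * (C * t) * (C * t ^ 2) + κ ^ n * (C * t) =
          C * (m * κ ^ n * t ^ 3 + κ ^ n * t) + C ^ 2 * (m ^ 2 * κ ^ n * t ^ 5
            + m * κ ^ n * t ^ 3) := by ring
      have b3 : C ^ 2 * (t * (1 + m * t ^ 2) ^ 2 * κ ^ n) =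
          C ^ 2 * (m * κ ^ n * t ^ 3 + κ ^ n * t) + C ^ 2 * (m ^ 2 * κ ^ n * t ^ 5
            + m * κ ^ n * t ^ 3) := by ring
      rw [b2, b3]
      linarith
    have a9 : m * q ^ (n + 1) * C * 1 + q ^ (n + 1) * C ≤ 2 * C * (m * q ^ (n + 1)) := by
      have b1 : C * (1 * q ^ (n + 1)) ≤ C * (m * q ^ (n + 1)) :=
        mul_le_mul_of_nonneg_left (mul_le_mul_of_nonneg_right hm1 hqn.le) hC0
      linarith
    linarith

/-! ### The functions -/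

/-- `B` -/
def Bf (a b θ : ℝ) : ℝ := Real.cos ((Real.cos θ - a) / 2) ^ 8 * Real.cos ((Real.sin θ + b) / 2) ^ 8

/-- its derivative -/
def Bd (a b θ : ℝ) : ℝ :=
  4 * (Real.cos ((Real.cos θ - a) / 2) ^ 7 * Real.cos ((Real.sin θ + b) / 2) ^ 8
      * Real.sin ((Real.cos θ - a) / 2) * Real.sin θ
    - Real.cos ((Real.cos θ - a) / 2) ^ 8 * Real.cos ((Real.sin θ + b) / 2) ^ 7
      * Real.sin ((Real.sin θ + b) / 2) * Real.cos θ)

/-- the argument of the cosine in `P` -/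
def zf (x : ℂ) (a b θ : ℝ) : ℝ := (Real.cos θ - a) * x.re - (Real.sin θ + b) * x.im

/-- its derivative -/
def zd (x : ℂ) (θ : ℝ) : ℝ := -Real.sin θ * x.re - Real.cos θ * x.im

/-- `P` -/
def Pf {r : ℕ} (w : Fin r → ℝ) (x : Fin r → ℂ) (a b θ : ℝ) : ℝ :=
  ∑ i, w i * Real.cos (zf (x i) a b θ)

/-- its derivative -/
def Pd {r : ℕ} (w : Fin r → ℝ) (x : Fin r → ℂ) (a b θ : ℝ) : ℝ :=
  ∑ i, w i * (-Real.sin (zf (x i) a b θ) * zd (x i) θ)

theorem Bf_deriv (a b θ : ℝ) : HasDerivAt (Bf a b) (Bd a b θ) θ := by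
  have h1 : HasDerivAt (fun θ : ℝ => (Real.cos θ - a) / 2) (-Real.sin θ / 2) θ :=
    ((Real.hasDerivAt_cos θ).sub_const a).div_const 2
  have h2 : HasDerivAt (fun θ : ℝ => (Real.sin θ + b) / 2) (Real.cos θ / 2) θ :=
    ((Real.hasDerivAt_sin θ).add_const b).div_const 2
  have h3 := ((h1.cos.fun_pow 8).mul (h2.cos.fun_pow 8))
  refine h3.congr_deriv ?_
  unfold Bd
  simp only [Nat.reduceSub]
  push_cast
  ring

theorem zf_deriv (x : ℂ) (a b θ : ℝ) : HasDerivAt (zf x a b) (zd x θ) θ := by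
  have h1 : HasDerivAt (fun θ : ℝ => (Real.cos θ - a) * x.re) (-Real.sin θ * x.re) θ :=
    ((Real.hasDerivAt_cos θ).sub_const a).mul_const _
  have h2 : HasDerivAt (fun θ : ℝ => (Real.sin θ + b) * x.im) (Real.cos θ * x.im) θ :=
    ((Real.hasDerivAt_sin θ).add_const b).mul_const _
  exact h1.sub h2

theorem Pf_deriv {r : ℕ} (w : Fin r → ℝ) (x : Fin r → ℂ) (a b θ : ℝ) :
    HasDerivAt (Pf w x a b) (Pd w x a b θ) θ :=
  HasDerivAt.fun_sum fun i _ => ((zf_deriv (x i) a b θ).cos).const_mul (w i)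

theorem A_deriv (a b θ : ℝ) : HasDerivAt (fun θ : ℝ => (a * Real.cos θ - b * Real.sin θ) ^ 2)
    (2 * (a * Real.cos θ - b * Real.sin θ) * (-(a * Real.sin θ) - b * Real.cos θ)) θ := by
  have h1 : HasDerivAt (fun θ : ℝ => a * Real.cos θ - b * Real.sin θ)
      (a * -Real.sin θ - b * Real.cos θ) θ :=
    ((Real.hasDerivAt_cos θ).const_mul a).sub ((Real.hasDerivAt_sin θ).const_mul b)
  refine (h1.fun_pow 2).congr_deriv ?_
  simp only [Nat.reduceSub]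
  push_cast
  ring

theorem sy_eq (M : ℕ) {r : ℕ} (w : Fin r → ℝ) (x : Fin r → ℂ) (v : ℂ) :
    sy M w x v = fun θ => ((v.re * Real.cos θ - v.im * Real.sin θ) ^ 2) ^ M
      - Bf v.re v.im θ ^ M * Pf w x v.re v.im θ
      - Bf (-v.re) (-v.im) θ ^ M * Pf w x (-v.re) (-v.im) θ := by
  funext θ
  have hre : (Complex.exp (-(θ * Complex.I))).re = Real.cos θ := by
    rw [show (-((θ : ℂ) * Complex.I)) = ((-θ : ℝ) : ℂ) * Complex.I by push_cast; ring,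
      Complex.exp_ofReal_mul_I_re, Real.cos_neg]
  have him : (Complex.exp (-(θ * Complex.I))).im = -Real.sin θ := by
    rw [show (-((θ : ℂ) * Complex.I)) = ((-θ : ℝ) : ℂ) * Complex.I by push_cast; ring,
      Complex.exp_ofReal_mul_I_im, Real.sin_neg]
  unfold sy
  congr 1
  · congr 1
    · rw [Complex.mul_re, Complex.conj_re, Complex.conj_im, hre, him, ← pow_mul]
      congr 1
      ring
    · congr 1
      · unfold pd Bf
        rw [Complex.sub_re, Complex.sub_im, hre, him, mul_pow, ← pow_mul, ← pow_mul]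
        have e : (-Real.sin θ - v.im) / 2 = -((Real.sin θ + v.im) / 2) := by ring
        rw [e, Real.cos_neg]
        congr 2 <;> ring
      · unfold pz Pf zf
        refine Finset.sum_congr rfl fun i _ => ?_
        rw [Complex.mul_re, Complex.conj_re, Complex.conj_im, Complex.sub_re, Complex.sub_im,
          hre, him]
        congr 2
        ring
  · congr 1
    · unfold pd Bf
      rw [Complex.add_re, Complex.add_im, hre, him, mul_pow, ← pow_mul, ← pow_mul]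
      have e : (-Real.sin θ + v.im) / 2 = -((Real.sin θ + -v.im) / 2) := by ring
      have e2 : (Real.cos θ + v.re) / 2 = (Real.cos θ - -v.re) / 2 := by ring
      rw [e, e2, Real.cos_neg]
      congr 2 <;> ring
    · unfold pz Pf zf
      refine Finset.sum_congr rfl fun i _ => ?_
      rw [Complex.mul_re, Complex.conj_re, Complex.conj_im, Complex.add_re, Complex.add_im,
        hre, him]
      congr 2
      ring

theorem sy_neg (M : ℕ) {r : ℕ} (w : Fin r → ℝ) (x : Fin r → ℂ) (v : ℂ) :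
    sy M w x (-v) = sy M w x v := by
  rw [sy_eq, sy_eq]
  funext θ
  rw [Complex.neg_re, Complex.neg_im, neg_neg, neg_neg]
  ring

theorem sy_deriv (n : ℕ) {r : ℕ} (w : Fin r → ℝ) (x : Fin r → ℂ) (v : ℂ) (θ : ℝ) :
    deriv (sy (n + 2) w x v) θ =
      ((n + 2 : ℕ) : ℝ) * ((v.re * Real.cos θ - v.im * Real.sin θ) ^ 2) ^ (n + 1)
        * (2 * (v.re * Real.cos θ - v.im * Real.sin θ)
          * (-(v.re * Real.sin θ) - v.im * Real.cos θ))
      - (((n + 2 : ℕ) : ℝ) * Bf v.re v.im θ ^ (n + 1) * Bd v.re v.im θ * Pf w x v.re v.im θ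
        + Bf v.re v.im θ ^ (n + 2) * Pd w x v.re v.im θ)
      - (((n + 2 : ℕ) : ℝ) * Bf (-v.re) (-v.im) θ ^ (n + 1) * Bd (-v.re) (-v.im) θ
          * Pf w x (-v.re) (-v.im) θ
        + Bf (-v.re) (-v.im) θ ^ (n + 2) * Pd w x (-v.re) (-v.im) θ) := by
  rw [sy_eq]
  have e : n + 2 - 1 = n + 1 := by omega
  have h1 := (A_deriv v.re v.im θ).fun_pow (n + 2)
  have h2 := ((Bf_deriv v.re v.im θ).fun_pow (n + 2)).mul (Pf_deriv w x v.re v.im θ)
  have h3 := ((Bf_deriv (-v.re) (-v.im) θ).fun_pow (n + 2)).mul (Pf_deriv w x (-v.re) (-v.im) θ)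
  rw [e] at h1 h2 h3
  exact ((h1.sub h2).sub h3).deriv

/-! ### The bounds -/

theorem abs_le_t {X Y t : ℝ} (ht : 0 ≤ t) (h : X ^ 2 + Y ^ 2 = t ^ 2) : |X| ≤ t ∧ |Y| ≤ t :=
  ⟨abs_le_of_sq_le_sq (by nlinarith [sq_nonneg Y]) ht,
    abs_le_of_sq_le_sq (by nlinarith [sq_nonneg X]) ht⟩

theorem Bf_nn (a b θ : ℝ) : 0 ≤ Bf a b θ := by
  unfold Bf
  have h : ∀ z : ℝ, 0 ≤ z ^ 8 := fun z => by
    rw [show z ^ 8 = (z ^ 4) ^ 2 by ring]; positivity
  exact mul_nonneg (h _) (h _)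

theorem Bf_le {a b θ t : ℝ} (ht : 0 ≤ t) (ht1 : t ≤ 1)
    (h : ((Real.cos θ - a) / 2) ^ 2 + ((Real.sin θ + b) / 2) ^ 2 = t ^ 2) :
    Bf a b θ ≤ Real.exp (-(t ^ 2)) := by
  have ht2 : t ^ 2 ≤ 1 := by nlinarith
  have hX : ((Real.cos θ - a) / 2) ^ 2 ≤ 1 := by
    nlinarith [sq_nonneg ((Real.sin θ + b) / 2)]
  have hY : ((Real.sin θ + b) / 2) ^ 2 ≤ 1 := by
    nlinarith [sq_nonneg ((Real.cos θ - a) / 2)]
  have h1 := pow_le_pow_left₀ (cos_nn hX) (cos_le_exp hX) 8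
  have h2 := pow_le_pow_left₀ (cos_nn hY) (cos_le_exp hY) 8
  unfold Bf
  calc Real.cos ((Real.cos θ - a) / 2) ^ 8 * Real.cos ((Real.sin θ + b) / 2) ^ 8
      ≤ Real.exp (-(((Real.cos θ - a) / 2) ^ 2 / 8)) ^ 8
        * Real.exp (-(((Real.sin θ + b) / 2) ^ 2 / 8)) ^ 8 :=
        mul_le_mul h1 h2 (pow_nonneg (cos_nn hY) _) (by positivity)
    _ = Real.exp (-(t ^ 2)) := by
        rw [← Real.exp_nat_mul, ← Real.exp_nat_mul, ← Real.exp_add, ← h]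
        congr 1
        push_cast
        ring

theorem Bd_le {a b θ t : ℝ} (ht : 0 ≤ t)
    (h : ((Real.cos θ - a) / 2) ^ 2 + ((Real.sin θ + b) / 2) ^ 2 = t ^ 2) :
    |Bd a b θ| ≤ 8 * t := by
  obtain ⟨hX, hY⟩ := abs_le_t ht h
  unfold Bd
  set X := (Real.cos θ - a) / 2
  set Y := (Real.sin θ + b) / 2
  have c1 : ∀ (z : ℝ) (n : ℕ), |Real.cos z ^ n| ≤ 1 := fun z n => by
    rw [abs_pow]; exact pow_le_one₀ (abs_nonneg _) (Real.abs_cos_le_one z)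
  have s1 : |Real.sin X| ≤ t := Real.abs_sin_le_abs.trans hX
  have s2 : |Real.sin Y| ≤ t := Real.abs_sin_le_abs.trans hY
  have k1 : |Real.cos X ^ 7 * Real.cos Y ^ 8 * Real.sin X * Real.sin θ| ≤ t := by
    rw [abs_mul, abs_mul, abs_mul]
    calc |Real.cos X ^ 7| * |Real.cos Y ^ 8| * |Real.sin X| * |Real.sin θ|
        ≤ 1 * 1 * t * 1 := by
          refine mul_le_mul (mul_le_mul (mul_le_mul (c1 _ _) (c1 _ _) (abs_nonneg _) zero_le_one)
            s1 (abs_nonneg _) (by norm_num)) (Real.abs_sin_le_one _) (abs_nonneg _) (by linarith)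
      _ = t := by ring
  have k2 : |Real.cos X ^ 8 * Real.cos Y ^ 7 * Real.sin Y * Real.cos θ| ≤ t := by
    rw [abs_mul, abs_mul, abs_mul]
    calc |Real.cos X ^ 8| * |Real.cos Y ^ 7| * |Real.sin Y| * |Real.cos θ|
        ≤ 1 * 1 * t * 1 := by
          refine mul_le_mul (mul_le_mul (mul_le_mul (c1 _ _) (c1 _ _) (abs_nonneg _) zero_le_one)
            s2 (abs_nonneg _) (by norm_num)) (Real.abs_cos_le_one _) (abs_nonneg _) (by linarith)
      _ = t := by ring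
  rw [abs_mul, abs_of_nonneg (by norm_num : (0 : ℝ) ≤ 4)]
  have k3 := (abs_sub (Real.cos X ^ 7 * Real.cos Y ^ 8 * Real.sin X * Real.sin θ)
    (Real.cos X ^ 8 * Real.cos Y ^ 7 * Real.sin Y * Real.cos θ))
  linarith

/-- `|cos⁷ cos⁸ sin X - X| ≤ 5 t³` -/
theorem aux_sin {X Y t : ℝ} (ht : 0 ≤ t) (ht1 : t ≤ 1) (h : X ^ 2 + Y ^ 2 = t ^ 2) :
    |Real.cos X ^ 7 * Real.cos Y ^ 8 * Real.sin X - X| ≤ 5 * t ^ 3 := by
  obtain ⟨hX, hY⟩ := abs_le_t ht h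
  have hX1 : X ^ 2 ≤ 1 := by nlinarith [sq_nonneg Y]
  have hY1 : Y ^ 2 ≤ 1 := by nlinarith [sq_nonneg X]
  set u := Real.cos X ^ 7 with hu
  set v := Real.cos Y ^ 8 with hv
  have u0 : 0 ≤ u := pow_nonneg (cos_nn hX1) _
  have v0 : 0 ≤ v := pow_nonneg (cos_nn hY1) _
  have u1 : u ≤ 1 := pow_le_one₀ (cos_nn hX1) (Real.cos_le_one _)
  have v1 : v ≤ 1 := pow_le_one₀ (cos_nn hY1) (Real.cos_le_one _)
  have u2 : 1 - u ≤ 7 * (X ^ 2 / 2) := by
    have k1 := bern (cos_nn hX1) 7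
    have k2 := Real.one_sub_sq_div_two_le_cos (x := X)
    push_cast at k1
    linarith
  have v2 : 1 - v ≤ 8 * (Y ^ 2 / 2) := by
    have k1 := bern (cos_nn hY1) 8
    have k2 := Real.one_sub_sq_div_two_le_cos (x := Y)
    push_cast at k1
    linarith
  have uv : 1 - u * v ≤ 4 * t ^ 2 := by nlinarith [sq_nonneg X, sq_nonneg Y]
  have uv0 : 0 ≤ 1 - u * v := by nlinarith
  have e : u * v * Real.sin X - X = u * v * (Real.sin X - X) - X * (1 - u * v) := by ring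
  have uvn : 0 ≤ u * v := mul_nonneg u0 v0
  have k1 : |u * v * (Real.sin X - X)| ≤ 1 * t ^ 3 := by
    rw [abs_mul, abs_of_nonneg uvn]
    exact mul_le_mul (by linarith) ((sin_sub X).trans (pow_le_pow_left₀ (abs_nonneg _) hX 3))
      (abs_nonneg _) zero_le_one
  have k2 : |X * (1 - u * v)| ≤ t * (4 * t ^ 2) := by
    rw [abs_mul, abs_of_nonneg uv0]
    exact mul_le_mul hX uv uv0 ht
  rw [e]
  have k3 := abs_sub (u * v * (Real.sin X - X)) (X * (1 - u * v))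
  nlinarith

theorem AB_le {X Y t c : ℝ} (ht : 0 ≤ t) (ht1 : t ≤ 1) (h : X ^ 2 + Y ^ 2 = t ^ 2)
    (hc : c = 1 - 2 * t ^ 2) (hc0 : 0 ≤ c) :
    |c ^ 2 - Real.cos X ^ 8 * Real.cos Y ^ 8| ≤ 10 * t ^ 4 := by
  obtain ⟨hX, hY⟩ := abs_le_t ht h
  set g := Real.sin X ^ 2 + Real.sin Y ^ 2 - Real.sin X ^ 2 * Real.sin Y ^ 2 with hg
  have e1 : Real.cos X ^ 2 = 1 - Real.sin X ^ 2 := by
    linarith [Real.sin_sq_add_cos_sq X]
  have e2 : Real.cos Y ^ 2 = 1 - Real.sin Y ^ 2 := by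
    linarith [Real.sin_sq_add_cos_sq Y]
  have e3 : Real.cos X ^ 2 * Real.cos Y ^ 2 = 1 - g := by
    rw [e1, e2, hg]; ring
  have e4 : Real.cos X ^ 8 * Real.cos Y ^ 8 = ((1 - g) ^ 2) ^ 2 := by
    rw [← e3]; ring
  have sx : ∀ Z : ℝ, |Z| ≤ t → |Z ^ 2 - Real.sin Z ^ 2| ≤ 2 * Z ^ 4 := by
    intro Z _
    have k1 := sin_sub Z
    have k2 : |Real.sin Z| ≤ |Z| := Real.abs_sin_le_abs
    have k3 : Z ^ 2 - Real.sin Z ^ 2 = -(Real.sin Z - Z) * (Z + Real.sin Z) := by ring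
    rw [k3, abs_mul, abs_neg]
    have k4 : |Z + Real.sin Z| ≤ 2 * |Z| := (abs_add_le _ _).trans (by linarith)
    calc |Real.sin Z - Z| * |Z + Real.sin Z| ≤ |Z| ^ 3 * (2 * |Z|) :=
          mul_le_mul k1 k4 (abs_nonneg _) (by positivity)
      _ = 2 * |Z| ^ 4 := by ring
      _ = 2 * Z ^ 4 := by rw [Even.pow_abs (by decide : Even 4)]
  have a1 := sx X hX
  have a2 := sx Y hY
  have s1 : Real.sin X ^ 2 ≤ X ^ 2 := sq_le_sq.2 Real.abs_sin_le_abs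
  have s2 : Real.sin Y ^ 2 ≤ Y ^ 2 := sq_le_sq.2 Real.abs_sin_le_abs
  have p0 := sq_nonneg (Real.sin X)
  have r0 := sq_nonneg (Real.sin Y)
  have p1 : Real.sin X ^ 2 ≤ 1 := Real.sin_sq_le_one X
  have r1 : Real.sin Y ^ 2 ≤ 1 := Real.sin_sq_le_one Y
  rw [e4]
  set p := Real.sin X ^ 2
  set r := Real.sin Y ^ 2
  have pr0 : 0 ≤ p * r := mul_nonneg p0 r0
  have pr1 : p * r ≤ X ^ 2 * Y ^ 2 := mul_le_mul s1 s2 r0 (sq_nonneg X)
  have g0 : 0 ≤ g := by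
    rw [hg]
    nlinarith
  have g1 : g ≤ 1 := by
    have h1 : 0 ≤ (1 - p) * (1 - r) := mul_nonneg (by linarith) (by linarith)
    have h2 : (1 - p) * (1 - r) = 1 - g := by rw [hg]; ring
    linarith
  have g2 : g ≤ t ^ 2 := by
    rw [hg]
    linarith
  have g3 : g ^ 2 ≤ t ^ 4 := by
    calc g ^ 2 ≤ (t ^ 2) ^ 2 := pow_le_pow_left₀ g0 g2 2
      _ = t ^ 4 := by ring
  have h4 : t ^ 4 = X ^ 4 + Y ^ 4 + 2 * (X ^ 2 * Y ^ 2) := by
    calc t ^ 4 = (t ^ 2) ^ 2 := by ring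
      _ = X ^ 4 + Y ^ 4 + 2 * (X ^ 2 * Y ^ 2) := by rw [← h]; ring
  have xy0 : 0 ≤ X ^ 2 * Y ^ 2 := mul_nonneg (sq_nonneg _) (sq_nonneg _)
  have E1 : (1 - g) ^ 2 ≤ 1 := pow_le_one₀ (by linarith) (by linarith)
  have E0 : 0 ≤ (1 - g) ^ 2 := sq_nonneg _
  have a3 := abs_le.1 a1
  have a4 := abs_le.1 a2
  have k1 : |c - (1 - g) ^ 2| ≤ 5 * t ^ 4 := by
    have k2 : c - (1 - g) ^ 2 = 2 * ((p - X ^ 2) + (r - Y ^ 2) - p * r) - g ^ 2 := by
      rw [hc, ← h, hg]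
      ring
    rw [k2, abs_le]
    have g4 := sq_nonneg g
    constructor
    · linarith [a3.1, a3.2, a4.1, a4.2]
    · linarith [a3.1, a3.2, a4.1, a4.2]
  have hc1 : c ≤ 1 := by
    rw [hc]
    linarith [sq_nonneg t]
  have k3 : |c + (1 - g) ^ 2| ≤ 2 := by
    rw [abs_of_nonneg (by linarith)]
    linarith
  have k4 : c ^ 2 - ((1 - g) ^ 2) ^ 2 = (c - (1 - g) ^ 2) * (c + (1 - g) ^ 2) := by ring
  rw [k4, abs_mul]
  calc |c - (1 - g) ^ 2| * |c + (1 - g) ^ 2| ≤ (5 * t ^ 4) * 2 :=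
        mul_le_mul k1 k3 (abs_nonneg _) (by positivity)
    _ = 10 * t ^ 4 := by ring

theorem AB1_le {a b θ t : ℝ} (ht : 0 ≤ t) (ht1 : t ≤ 1)
    (h : ((Real.cos θ - a) / 2) ^ 2 + ((Real.sin θ + b) / 2) ^ 2 = t ^ 2) (hab : a ^ 2 + b ^ 2 = 1)
    (hc : a * Real.cos θ - b * Real.sin θ = 1 - 2 * t ^ 2) :
    |2 * (a * Real.cos θ - b * Real.sin θ) * (-(a * Real.sin θ) - b * Real.cos θ) - Bd a b θ| ≤
      48 * t ^ 3 := by
  have hsc := Real.sin_sq_add_cos_sq θ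
  have h' : ((Real.sin θ + b) / 2) ^ 2 + ((Real.cos θ - a) / 2) ^ 2 = t ^ 2 := by linarith
  have k1 := aux_sin ht ht1 h
  have k2 := aux_sin ht ht1 h'
  have e1 : -(a * Real.sin θ) - b * Real.cos θ =
      2 * ((Real.cos θ - a) / 2 * Real.sin θ - (Real.sin θ + b) / 2 * Real.cos θ) := by ring
  have c1 : |-(a * Real.sin θ) - b * Real.cos θ| ≤ 2 * t := by
    refine abs_le_of_sq_le_sq ?_ (by linarith)
    have e2 : (-(a * Real.sin θ) - b * Real.cos θ) ^ 2 = (a ^ 2 + b ^ 2) *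
        (Real.sin θ ^ 2 + Real.cos θ ^ 2) - (a * Real.cos θ - b * Real.sin θ) ^ 2 := by ring
    rw [e2, hab, hsc, hc]
    nlinarith [sq_nonneg (t ^ 2)]
  unfold Bd
  set X := (Real.cos θ - a) / 2
  set Y := (Real.sin θ + b) / 2
  set c1' := -(a * Real.sin θ) - b * Real.cos θ with hc1'
  set U := Real.cos X ^ 7 * Real.cos Y ^ 8 * Real.sin X
  have e3 : Real.cos X ^ 8 * Real.cos Y ^ 7 * Real.sin Y =
      Real.cos Y ^ 7 * Real.cos X ^ 8 * Real.sin Y := by ring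
  rw [e3]
  set V := Real.cos Y ^ 7 * Real.cos X ^ 8 * Real.sin Y
  have e4 : 2 * (a * Real.cos θ - b * Real.sin θ) * c1' - 4 * (U * Real.sin θ - V * Real.cos θ) =
      -(c1' * (4 * t ^ 2)) - (4 * ((U - X) * Real.sin θ) - 4 * ((V - Y) * Real.cos θ)) := by
    rw [hc]
    linear_combination 2 * e1
  rw [e4]
  have a1 : |(-(c1' * (4 * t ^ 2)))| ≤ 2 * t * (4 * t ^ 2) := by
    rw [abs_neg, abs_mul, abs_of_nonneg (by positivity : (0 : ℝ) ≤ 4 * t ^ 2)]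
    exact mul_le_mul_of_nonneg_right c1 (by positivity)
  have a2 : |4 * ((U - X) * Real.sin θ)| ≤ 4 * (5 * t ^ 3 * 1) := by
    rw [abs_mul, abs_mul, abs_of_nonneg (by norm_num : (0 : ℝ) ≤ 4)]
    exact mul_le_mul_of_nonneg_left (mul_le_mul k1 (Real.abs_sin_le_one _) (abs_nonneg _)
      (by positivity)) (by norm_num)
  have a3 : |4 * ((V - Y) * Real.cos θ)| ≤ 4 * (5 * t ^ 3 * 1) := by
    rw [abs_mul, abs_mul, abs_of_nonneg (by norm_num : (0 : ℝ) ≤ 4)]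
    exact mul_le_mul_of_nonneg_left (mul_le_mul k2 (Real.abs_cos_le_one _) (abs_nonneg _)
      (by positivity)) (by norm_num)
  have a4 := (abs_sub (-(c1' * (4 * t ^ 2)))
    (4 * ((U - X) * Real.sin θ) - 4 * ((V - Y) * Real.cos θ)))
  have a5 := (abs_sub (4 * ((U - X) * Real.sin θ)) (4 * ((V - Y) * Real.cos θ)))
  linarith

theorem wsum_le {r : ℕ} {w : Fin r → ℝ} (hw : ∀ i, 0 ≤ w i) (hs : ∑ i, w i = 1)
    {f : Fin r → ℝ} {K : ℝ} (hf : ∀ i, |f i| ≤ K) : |∑ i, w i * f i| ≤ K := by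
  calc |∑ i, w i * f i| ≤ ∑ i, |w i * f i| := Finset.abs_sum_le_sum_abs _ _
    _ ≤ ∑ i, w i * K := Finset.sum_le_sum fun i _ => by
        rw [abs_mul, abs_of_nonneg (hw i)]
        exact mul_le_mul_of_nonneg_left (hf i) (hw i)
    _ = K := by rw [← Finset.sum_mul, hs, one_mul]

theorem zf_le {x : ℂ} {a b θ t R : ℝ} (ht : 0 ≤ t) (hx : ‖x‖ ≤ R)
    (h : ((Real.cos θ - a) / 2) ^ 2 + ((Real.sin θ + b) / 2) ^ 2 = t ^ 2) :
    |zf x a b θ| ≤ 4 * t * R := by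
  obtain ⟨hX, hY⟩ := abs_le_t ht h
  have h1 : |x.re| ≤ R := (Complex.abs_re_le_norm x).trans hx
  have h2 : |x.im| ≤ R := (Complex.abs_im_le_norm x).trans hx
  have e : zf x a b θ = 2 * ((Real.cos θ - a) / 2 * x.re) - 2 * ((Real.sin θ + b) / 2 * x.im) := by
    unfold zf
    ring
  rw [e]
  have a1 : |2 * ((Real.cos θ - a) / 2 * x.re)| ≤ 2 * (t * R) := by
    rw [abs_mul, abs_mul, abs_of_nonneg (by norm_num : (0 : ℝ) ≤ 2)]
    exact mul_le_mul_of_nonneg_left (mul_le_mul hX h1 (abs_nonneg _) ht) (by norm_num)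
  have a2 : |2 * ((Real.sin θ + b) / 2 * x.im)| ≤ 2 * (t * R) := by
    rw [abs_mul, abs_mul, abs_of_nonneg (by norm_num : (0 : ℝ) ≤ 2)]
    exact mul_le_mul_of_nonneg_left (mul_le_mul hY h2 (abs_nonneg _) ht) (by norm_num)
  have a3 := abs_sub (2 * ((Real.cos θ - a) / 2 * x.re)) (2 * ((Real.sin θ + b) / 2 * x.im))
  linarith

theorem zd_le {x : ℂ} {θ R : ℝ} (hx : ‖x‖ ≤ R) : |zd x θ| ≤ 2 * R := by
  have h1 : |x.re| ≤ R := (Complex.abs_re_le_norm x).trans hx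
  have h2 : |x.im| ≤ R := (Complex.abs_im_le_norm x).trans hx
  have hR : 0 ≤ R := (norm_nonneg x).trans hx
  unfold zd
  have a1 : |(-Real.sin θ * x.re)| ≤ 1 * R := by
    rw [abs_mul, abs_neg]
    exact mul_le_mul (Real.abs_sin_le_one _) h1 (abs_nonneg _) zero_le_one
  have a2 : |Real.cos θ * x.im| ≤ 1 * R := by
    rw [abs_mul]
    exact mul_le_mul (Real.abs_cos_le_one _) h2 (abs_nonneg _) zero_le_one
  have a3 := abs_sub (-Real.sin θ * x.re) (Real.cos θ * x.im)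
  linarith

theorem main {r : ℕ} {w : Fin r → ℝ} {x : Fin r → ℂ} (hw : ∀ i, 0 ≤ w i) (hs : ∑ i, w i = 1)
    {R : ℝ} (hR : 0 ≤ R) (hx : ∀ i, ‖x i‖ ≤ R) {n : ℕ} (hn : 1 ≤ n) {v : ℂ} (hv : ‖v‖ = 1) {θ : ℝ}
    (hc0 : 0 ≤ v.re * Real.cos θ - v.im * Real.sin θ) :
    |sy (n + 2) w x v θ| ≤ Err (50 + 8 * R ^ 2 + 2 * R) n ∧
    |deriv (sy (n + 2) w x v) θ| ≤ Err (50 + 8 * R ^ 2 + 2 * R) n := by
  have hab : v.re ^ 2 + v.im ^ 2 = 1 := by
    have h1 := Complex.sq_norm v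
    rw [hv, Complex.normSq_apply] at h1
    linarith
  have hsc := Real.sin_sq_add_cos_sq θ
  set a := v.re
  set b := v.im
  obtain ⟨c, hc⟩ : ∃ c, c = a * Real.cos θ - b * Real.sin θ := ⟨_, rfl⟩
  have hc1 : c ≤ 1 := by
    have e2 : c ^ 2 = (a ^ 2 + b ^ 2) * (Real.sin θ ^ 2 + Real.cos θ ^ 2) -
        (a * Real.sin θ + b * Real.cos θ) ^ 2 := by
      rw [hc]
      ring
    rw [hab, hsc] at e2
    nlinarith [sq_nonneg (a * Real.sin θ + b * Real.cos θ)]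
  rw [← hc] at hc0
  obtain ⟨t, ht0, ht⟩ : ∃ t : ℝ, 0 ≤ t ∧ t ^ 2 = (1 - c) / 2 :=
    ⟨√((1 - c) / 2), Real.sqrt_nonneg _, Real.sq_sqrt (by linarith)⟩
  obtain ⟨s, hs0, hst⟩ : ∃ t : ℝ, 0 ≤ t ∧ t ^ 2 = (1 + c) / 2 :=
    ⟨√((1 + c) / 2), Real.sqrt_nonneg _, Real.sq_sqrt (by linarith)⟩
  have ht1 : t ≤ 1 := by nlinarith
  have hs1 : s ≤ 1 := by nlinarith
  have hXY : ((Real.cos θ - a) / 2) ^ 2 + ((Real.sin θ + b) / 2) ^ 2 = t ^ 2 := by
    rw [ht, hc]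
    linear_combination (1 / 4) * hsc + (1 / 4) * hab
  have hXY' : ((Real.cos θ - -a) / 2) ^ 2 + ((Real.sin θ + -b) / 2) ^ 2 = s ^ 2 := by
    rw [hst, hc]
    linear_combination (1 / 4) * hsc + (1 / 4) * hab
  have hct : c = 1 - 2 * t ^ 2 := by rw [ht]; ring
  have hRR : 0 ≤ R ^ 2 := sq_nonneg R
  have hC : (1 : ℝ) ≤ 50 + 8 * R ^ 2 + 2 * R := by linarith
  have hA : (a * Real.cos θ - b * Real.sin θ) ^ 2 ≤ Real.exp (-(t ^ 2)) := by
    rw [← hc]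
    have h1 := Real.add_one_le_exp (-(2 * t ^ 2))
    have h2 : c ^ 2 ≤ c := by nlinarith
    have h3 : Real.exp (-(2 * t ^ 2)) ≤ Real.exp (-(t ^ 2)) :=
      Real.exp_le_exp.2 (by linarith [sq_nonneg t])
    linarith
  have hP : ∀ a' b' : ℝ, |Pf w x a' b' θ| ≤ 1 := fun a' b' =>
    wsum_le hw hs fun i => Real.abs_cos_le_one _
  have h1P : |1 - Pf w x a b θ| ≤ (50 + 8 * R ^ 2 + 2 * R) * t ^ 2 := by
    have e : 1 - Pf w x a b θ = ∑ i, w i * (1 - Real.cos (zf (x i) a b θ)) := by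
      unfold Pf
      simp only [mul_sub, mul_one, Finset.sum_sub_distrib, hs]
    rw [e]
    refine wsum_le hw hs fun i => ?_
    have k1 := Real.one_sub_sq_div_two_le_cos (x := zf (x i) a b θ)
    have k2 := Real.cos_le_one (zf (x i) a b θ)
    have k3 : zf (x i) a b θ ^ 2 ≤ (4 * t * R) ^ 2 := by
      rw [← sq_abs]
      exact pow_le_pow_left₀ (abs_nonneg _) (zf_le ht0 (hx i) hXY) 2
    rw [abs_of_nonneg (by linarith)]
    have k4 : (4 * t * R) ^ 2 / 2 = 8 * R ^ 2 * t ^ 2 := by ring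
    have k5 : 8 * R ^ 2 * t ^ 2 ≤ (50 + 8 * R ^ 2 + 2 * R) * t ^ 2 :=
      mul_le_mul_of_nonneg_right (by linarith) (sq_nonneg t)
    linarith
  have hPd : |Pd w x a b θ| ≤ (50 + 8 * R ^ 2 + 2 * R) * t := by
    refine (wsum_le hw hs (K := (4 * t * R) * (2 * R)) fun i => ?_).trans ?_
    · rw [abs_mul, abs_neg]
      exact mul_le_mul (Real.abs_sin_le_abs.trans (zf_le ht0 (hx i) hXY)) (zd_le (hx i))
        (abs_nonneg _) (by positivity)
    · have k4 : 4 * t * R * (2 * R) = 8 * R ^ 2 * t := by ring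
      rw [k4]
      exact mul_le_mul_of_nonneg_right (by linarith) ht0
  have hPd' : |Pd w x (-a) (-b) θ| ≤ 50 + 8 * R ^ 2 + 2 * R := by
    refine (wsum_le hw hs (K := 1 * (2 * R)) fun i => ?_).trans (by linarith)
    rw [abs_mul, abs_neg]
    exact mul_le_mul (Real.abs_sin_le_one _) (zd_le (hx i)) (abs_nonneg _) zero_le_one
  have hAB : |(a * Real.cos θ - b * Real.sin θ) ^ 2 - Bf a b θ| ≤
      (50 + 8 * R ^ 2 + 2 * R) * t ^ 4 := by
    have k1 := AB_le ht0 ht1 hXY (hc ▸ hct) (hc ▸ hc0)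
    refine k1.trans (mul_le_mul_of_nonneg_right (by linarith) (by positivity))
  have hAB1 := (AB1_le ht0 ht1 hXY hab (hc ▸ hct)).trans
    (mul_le_mul_of_nonneg_right (by linarith : (48 : ℝ) ≤ 50 + 8 * R ^ 2 + 2 * R)
      (by positivity : (0 : ℝ) ≤ t ^ 3))
  have hBd : |Bd a b θ| ≤ (50 + 8 * R ^ 2 + 2 * R) * t :=
    (Bd_le ht0 hXY).trans (mul_le_mul_of_nonneg_right (by linarith) ht0)
  have hBd' : |Bd (-a) (-b) θ| ≤ 50 + 8 * R ^ 2 + 2 * R := by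
    have k1 := Bd_le hs0 hXY'
    linarith
  have hB' : Bf (-a) (-b) θ ≤ Real.exp (-(1 / 2)) := by
    refine (Bf_le hs0 hs1 hXY').trans (Real.exp_le_exp.2 ?_)
    rw [hst]
    linarith
  have hnum := num hC hn ht0 ht1 (sq_nonneg (a * Real.cos θ - b * Real.sin θ)) hA (Bf_nn a b θ)
    (Bf_le ht0 ht1 hXY) hAB hAB1 hBd h1P hPd (Bf_nn (-a) (-b) θ) hB' hBd' (hP (-a) (-b)) hPd'
  rw [sy_deriv, sy_eq]
  exact hnum

end SYB

/-- SYB: the difference of the symbols is small -/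
theorem t_SYB : StmtSyb := by
  intro r w x hw hs δ hδ
  obtain ⟨R, hR, hx⟩ : ∃ R : ℝ, 0 ≤ R ∧ ∀ i, ‖x i‖ ≤ R :=
    ⟨∑ i, ‖x i‖, Finset.sum_nonneg fun i _ => norm_nonneg _, fun i =>
      Finset.single_le_sum (f := fun i => ‖x i‖) (fun j _ => norm_nonneg _) (Finset.mem_univ i)⟩
  obtain ⟨N, hN⟩ := eventually_atTop.1
    ((SYB.Err_lim (50 + 8 * R ^ 2 + 2 * R)).eventually (eventually_le_nhds hδ))
  refine ⟨N + 3, fun M hM v hv θ => ?_⟩
  obtain ⟨n, rfl⟩ : ∃ n, M = n + 2 := ⟨M - 2, by omega⟩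
  have hE := hN n (by omega)
  have hn : 1 ≤ n := by omega
  rcases le_total 0 (v.re * Real.cos θ - v.im * Real.sin θ) with h | h
  · obtain ⟨h1, h2⟩ := SYB.main hw hs hR hx hn hv h
    exact ⟨h1.trans hE, h2.trans hE⟩
  · have hv' : ‖(-v)‖ = 1 := by rw [norm_neg, hv]
    obtain ⟨h1, h2⟩ := SYB.main hw hs hR hx hn hv' (θ := θ) (by
      rw [Complex.neg_re, Complex.neg_im]
      linarith)
    rw [SYB.sy_neg] at h1 h2
    exact ⟨h1.trans hE, h2.trans hE⟩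

end

end PKM
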