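import Mathlib

/-!
# No plane waves in the mean square: statements, part 1 (algebra and probability, only Mathlib)

Statements by helper92 (MP_4fa179_mp). `a k` (`k ∈ ℤ`) are complex numbers (in the application
`a k = (-1)^k E_{2k}`, the jets of even order of an eigenfunction at a point; the plane wave
`x ↦ e^{i x · w}`, `‖w‖ = 1`, has `a k = w^{-2k}`). `be M k = C(2M, M+k) / 4^M` are the binomial
weights, `xM = ∑ be ‖a‖²` is a local mean square, `wv M a v = ∑ be a v^{2k}` is the coefficient of the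
plane wave in the direction `v`.

The argument. (1) Algebra (PWI): `X² ≤ Null + C S X + 2 X Tail`, where `X = xM`, `S = sup ‖wv‖²`, and
`Null ≥ 0` is a sum of variances which vanishes for plane waves. (2) Quantum ergodicity (or the
absence of directional atoms) gives limits of means: `X → 1`, `Null ≤ 1 + o(1)`, although no bound for
fourth moments is assumed: `∫ ‖a_0‖⁴` cancels in `Null` and in the square of `D = ‖a_0‖² - X`. (3) So if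
there are no plane waves (`S → 0` in the mean), `∫ min((X - 1)²) 1` is small (CHN), and
`‖a_0‖² = X + D` with `∫ D² ≤ 2 + o(1)` has no loss of mass and fourth moment at most `1 + 2 = 3` (CMM).

Each step is a `Prop`; a module proves one of them, possibly from others taken as hypotheses. The
proofs are given in the doc strings.
-/

open Complex MeasureTheory Filter Topology Set

namespace PKM

noncomputable section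

/-! ### Definitions -/

/-- the binomial weights `C(2M, M + k) / 4^M` -/
def be (M : ℕ) (k : ℤ) : ℝ :=
  if -(M : ℤ) ≤ k then ((2 * M).choose (k + M).toNat : ℝ) / 4 ^ M else 0

/-- the indices -/
def IM (M : ℕ) : Finset ℤ := Finset.Icc (-(M : ℤ)) M

/-- the local mean square -/
def xM (M : ℕ) (a : ℤ → ℂ) : ℝ := ∑ k ∈ IM M, be M k * ‖a k‖ ^ 2

/-- its tail -/
def tM (M r : ℕ) (a : ℤ → ℂ) : ℝ :=
  ∑ k ∈ (IM M).filter (fun k => (r : ℤ) < |k|), be M k * ‖a k‖ ^ 2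

/-- the coefficient of the plane wave in the direction `v` (`‖v‖ = 1`) -/
def wv (M : ℕ) (a : ℤ → ℂ) (v : ℂ) : ℂ := ∑ k ∈ IM M, (be M k : ℂ) * (a k * v ^ (2 * k))

/-- the coefficients of `wv ^ 2` -/
def sq2 (M : ℕ) (a : ℤ → ℂ) (s : ℤ) : ℂ :=
  ∑ j ∈ IM M, ((be M j * be M (s - j) : ℝ) : ℂ) * (a j * a (s - j))

/-- the null form: a sum of variances, which vanishes for plane waves -/
def nM (M : ℕ) (a : ℤ → ℂ) : ℝ :=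
  ∑ s ∈ IM (2 * M), (∑ j ∈ IM M, be M j * be M (s - j) * (‖a j‖ ^ 2 * ‖a (s - j)‖ ^ 2)
      - ‖sq2 M a s‖ ^ 2 / be (2 * M) s)

/-- the product of two cosines: the Fourier transform of the binomial weights of the lattice -/
def pd (m : ℕ) (ξ : ℂ) : ℝ := Real.cos (ξ.re / 2) ^ (2 * m) * Real.cos (ξ.im / 2) ^ (2 * m)

/-- the mean of `cos (ξ · x_i)` with the weights `w_i` -/
def pz {r : ℕ} (w : Fin r → ℝ) (x : Fin r → ℂ) (ξ : ℂ) : ℝ :=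
  ∑ i, w i * Real.cos ((ξ * (starRingEnd ℂ) (x i)).re)

/-- the difference of the two symbols, at the point `e^{-iθ}` of the circle -/
def sy (M : ℕ) {r : ℕ} (w : Fin r → ℝ) (x : Fin r → ℂ) (v : ℂ) (θ : ℝ) : ℝ :=
  (Complex.exp (-(θ * Complex.I)) * (starRingEnd ℂ) v).re ^ (2 * M)
    - pd (4 * M) (Complex.exp (-(θ * Complex.I)) - v) * pz w x (Complex.exp (-(θ * Complex.I)) - v)
    - pd (4 * M) (Complex.exp (-(θ * Complex.I)) + v) * pz w x (Complex.exp (-(θ * Complex.I)) + v)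

/-- the Fourier coefficients of even order -/
def fc (f : ℝ → ℝ) (k : ℤ) : ℂ :=
  (2 * Real.pi : ℂ)⁻¹ * ∫ θ in (0 : ℝ)..(2 * Real.pi),
    (f θ : ℂ) * Complex.exp (-(2 * (k : ℂ) * θ * Complex.I))

/-- the Fourier coefficients of the difference of the symbols -/
def ck (M : ℕ) {r : ℕ} (w : Fin r → ℝ) (x : Fin r → ℂ) (v : ℂ) (k : ℤ) : ℂ := fc (sy M w x v) k

/-- the mean of the moments `v` with the binomial weights -/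
def wz (v : ℤ → ℝ) (M : ℕ) : ℝ := ∑ k ∈ IM (2 * M), be (2 * M) k * v (2 * k)

/-- sequences `a n` of random vectors with values in `ℤ → ℂ`, of which the second moments tend to `1`
and the fourth moments, after subtraction of the one of `a n 0`, which may be unbounded, tend to the
ones of the model `v` (`v k = 0` for all `k ≠ 0` if the sequence is quantum ergodic) -/
structure JM {X : Type} [MeasurableSpace X] (ν : Measure X) (a : ℕ → X → ℤ → ℂ) (v : ℤ → ℝ) :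
    Prop where
  prob : IsProbabilityMeasure ν
  meas : ∀ n k, Measurable (fun x => a n x k)
  int : ∀ n k, Integrable (fun x => ‖a n x k‖ ^ 4) ν
  two : ∀ k, Tendsto (fun n => ∫ x, ‖a n x k‖ ^ 2 ∂ν) atTop (𝓝 1)
  four : ∀ j k j' k' : ℤ, j + k = j' + k' → Tendsto (fun n =>
    (∫ x, a n x j * a n x k * (starRingEnd ℂ) (a n x j' * a n x k') ∂ν)
      - ((∫ x, ‖a n x 0‖ ^ 4 ∂ν : ℝ) : ℂ)) atTop
    (𝓝 ((v (2 * (j + k)) + v (2 * (j - j')) + v (2 * (j - k')) - 3 : ℝ) : ℂ))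
  zero : v 0 = 1
  nonneg : ∀ k, 0 ≤ v k
  le_one : ∀ k, v k ≤ 1
  ces : Tendsto (fun N : ℕ => (1 / (N : ℝ)) * ∑ k ∈ Finset.Ioo (-(N : ℤ)) N, v k) atTop (𝓝 0)

/-- no plane waves, in terms of the vectors `a` -/
def NoJ {X : Type} [MeasurableSpace X] (ν : Measure X) (a : ℕ → X → ℤ → ℂ) : Prop :=
  ∀ ε > 0, ∃ᶠ M : ℕ in atTop, ∀ᶠ n in atTop,
    ∫⁻ x, (⨆ (v : ℂ) (_ : ‖v‖ = 1), ENNReal.ofReal (‖wv M (a n x) v‖ ^ 2)) ∂ν ≤ ENNReal.ofReal ε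

/-! ### A. The binomial weights -/

/-- BN1: the binomial weights.
Proof. `be M k = 0` for `|k| > M` (`Nat.choose_eq_zero_of_lt`; the `if` for `k < -M`). Symmetry:
`Nat.choose_symm`. Recursion (Pascal twice): `be (M + 1) k = (be M (k - 1) + 2 be M k + be M (k + 1)) / 4`.
Monotonicity in `|k|`: `Nat.choose_le_choose`-type monotonicity of `choose (2M)` up to the middle, or
induction with the recursion. The sum is ` (1 + 1)^{2M} / 4^M` (`Nat.sum_range_choose`), the second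
moment by the recursion: `∑ k² be (M+1) k = ∑ (k² + 1/2) be M k`. ` (2M+1) be M 0 ^ 2 ≤ 1`: induction,
`be (M+1) 0 = be M 0 (2M+1)/(2M+2)` and ` (2M+3)(2M+1) ≤ (2M+2)²`; lower bound `1 ≤ 4 M be M 0 ^ 2` for
`M ≥ 1`: induction, ` (2M+1)² (M+1) ≥ (2M+2)² M`. Last claim (Vandermonde): `Nat.add_choose_eq`, or
induction on `M` with the recursion, or compare coefficients of ` ((1 + z)²)^{2M}`. -/
def StmtBn1 : Prop :=
  ∀ M : ℕ, (∀ k, 0 ≤ be M k) ∧ (∀ k, be M (-k) = be M k) ∧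
    (∀ k : ℤ, (M : ℤ) < |k| → be M k = 0) ∧ (∀ k l : ℤ, |k| ≤ |l| → be M l ≤ be M k) ∧
    ∑ k ∈ IM M, be M k = 1 ∧ ∑ k ∈ IM M, (k : ℝ) ^ 2 * be M k = M / 2 ∧
    (2 * M + 1) * be M 0 ^ 2 ≤ 1 ∧ (1 ≤ M → 1 ≤ 4 * M * be M 0 ^ 2) ∧
    ∀ s : ℤ, ∑ j ∈ IM M, be M j * be M (s - j) = be (2 * M) s

/-- BN2: a lower bound for the binomial weights in the bulk.
Proof (from BN1). Let `s ≥ 0` (symmetry), `s² ≤ A M`, `x = s / M ≤ √(A / M) ≤ 1/2` for `M ≥ 4 A`.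
`be (2M) s / be (2M) 0 = ∏_{i=1}^{s} (2M - i + 1) / (2M + i)`, each factor at least
` (2M - s) / (2M + s) ≥ 1 - s / M = 1 - x ≥ e^{-2x}`, so the product is at least
`e^{-2 s² / M} ≥ e^{-2A}`. And `be M 0 ≤ 1 / √(2M+1)`, `be (2M) 0 ≥ 1 / √(8M)`: `be M 0 ≤ 2 be (2M) 0`.
`C = 2 e^{2A}`. -/
def StmtBn2 : Prop :=
  ∀ A : ℝ, 0 < A → ∃ C : ℝ, 0 < C ∧ ∃ M₀ : ℕ, ∀ M ≥ M₀, ∀ s : ℤ, (s : ℝ) ^ 2 ≤ A * M →
    0 < be (2 * M) s ∧ be M 0 ≤ C * be (2 * M) s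

/-- WZR: the mean of the moments tends to zero.
Proof (from BN1). `0 ≤ v ≤ 1`. Let `A > 0`. For `k² ≤ A² M` use `be (2M) k ≤ be (2M) 0 ≤ 1 / √(4M+1)`:
this part is at most ` (4M+1)^{-1/2} ∑_{|j| < N} v j` with `N = ⌈2 A √M⌉ + 1` (`j = 2k` is injective, `v ≥ 0`),
which is `≤ C_A (1/N) ∑_{|j| < N} v j → 0`. The rest is at most
`∑_{k² > A² M} be (2M) k ≤ (A² M)⁻¹ ∑ k² be (2M) k = (A² M)⁻¹ M = A⁻²`. -/
def StmtWzr : Prop :=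
  ∀ v : ℤ → ℝ, (∀ k, 0 ≤ v k) → (∀ k, v k ≤ 1) →
    Tendsto (fun N : ℕ => (1 / (N : ℝ)) * ∑ k ∈ Finset.Ioo (-(N : ℤ)) N, v k) atTop (𝓝 0) →
    Tendsto (wz v) atTop (𝓝 0)

/-! ### B. Deterministic inequalities -/

/-- PWI: **the pointwise inequality**.
Proof (from BN1). Write `b = be M`, `W_s = be (2M) s = ∑_j b_j b_{s-j}`, `c_s = sq2 M a s`, all sums over
`IM M` (`b` vanishes outside). (1) For each `s` Cauchy-Schwarz gives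
`‖c_s‖² ≤ (∑_j b_j b_{s-j}) (∑_j b_j b_{s-j} ‖a_j‖² ‖a_{s-j}‖²)`, and `W_s > 0` for `|s| ≤ 2M` (or use
`x / 0 = 0`), so every term of `nM` is `≥ 0`.
(2) `xM² = ∑_s ∑_j b_j b_{s-j} ‖a_j‖² ‖a_{s-j}‖²`, the sum over `s ∈ IM (2M)`
(`Finset.sum_mul_sum`, substitute `s = j + k`; for `j ∈ IM M` the term vanishes unless `s - j ∈ IM M`).
So `xM² = nM + ∑_s ‖c_s‖² / W_s`. For `|s| ≤ 2r`: `1 / W_s ≤ C / b_0` (`b_0 > 0`), so this part of the sum is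
`≤ (C / b_0) ∑_s ‖c_s‖²` (`s` runs over `IM (2M)`). The terms with `|s| > 2r` are by (1) at most
`∑_{|s| > 2r} ∑_j b_j b_{s-j} ‖a_j‖² ‖a_{s-j}‖²`, where `|j| > r` or `|s - j| > r`: at most
`2 xM tM`. (3) Parseval: `∑_s ‖c_s‖²` is the mean of `‖wv(v)²‖²` over `v = e^{iθ}`
(`wv(v)² = ∑_s c_s v^{2s}`; use the mean over the `Q`-th roots of unity for `Q > 8 M`, or the integral over
`θ`), which is `≤ S` times the mean of `‖wv(v)‖²`, that is `S ∑_k b_k² ‖a_k‖² ≤ S b_0 xM`. -/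
def StmtPwi : Prop :=
  ∀ (M r : ℕ) (a : ℤ → ℂ) (S C : ℝ), 0 ≤ C →
    (∀ s ∈ Finset.Icc (-(2 * (r : ℤ))) (2 * r), 0 < be (2 * M) s ∧ be M 0 ≤ C * be (2 * M) s) →
    (∀ v : ℂ, ‖v‖ = 1 → ‖wv M a v‖ ^ 2 ≤ S) →
    0 ≤ nM M a ∧ xM M a ^ 2 ≤ nM M a + C * S * xM M a + 2 * xM M a * tM M r a

/-- PT1: a real inequality.
Proof. Let `I = 1` if `X ≤ K` and `0` otherwise. `min ((X-1)²) 1 ≤ (X-1)² I + (1 - I)
= X² I - 2 X + 2 X (1 - I) + 1`. If `X ≤ K`: `X² ≤ N + C S X + 2 X T ≤ N + C K S + 2 K T`. If `X > K ≥ 1`: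
dividing by `X`, `X ≤ N / K + C S + 2 T`. All the terms on the right are `≥ 0`. -/
def StmtPt1 : Prop :=
  ∀ X N S T C K : ℝ, 0 ≤ X → 0 ≤ N → 0 ≤ S → 0 ≤ T → 0 ≤ C → 1 ≤ K →
    X ^ 2 ≤ N + C * S * X + 2 * X * T →
    min ((X - 1) ^ 2) 1 ≤ (1 + 2 / K) * N + C * (K + 2) * S + (2 * K + 4) * T - 2 * X + 1

/-- PT2: two real inequalities.
Proof. (1) If `|X - 1| ≤ δ` then `0 ≤ X + D ≤ 1 + δ + D`, and `min (X + D) L ^ 2 ≤ (X + D)²`. Otherwise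
`min (X + D) L ^ 2 ≤ L²` and `min ((X-1)²) 1 ≥ δ²`. (2) `|X - 1| = (X - 1) + 2 max (1 - X) 0` and
`max (1 - X) 0 ≤ min |X - 1| 1` (as `X ≥ 0`), `t ≤ δ + t² / δ` for `t = min |X - 1| 1`; and
`X + D - Λ ≤ |X - 1| + (1 + D - Λ)`, `s ≤ s² / (4 Λ) + Λ` for `s = 1 + D`; the right side is `≥ 0`. -/
def StmtPt2 : Prop :=
  (∀ X D L δ : ℝ, 0 ≤ X + D → 0 ≤ L → 0 < δ → δ ≤ 1 →
    min (X + D) L ^ 2 ≤ (1 + δ + D) ^ 2 + L ^ 2 / δ ^ 2 * min ((X - 1) ^ 2) 1) ∧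
  ∀ X D Λ δ : ℝ, 0 ≤ X → 0 < Λ → 0 < δ →
    max (X + D - Λ) 0 ≤ (X - 1) + 2 * (δ + min ((X - 1) ^ 2) 1 / δ) + (1 + D) ^ 2 / (4 * Λ)

/-! ### C. Limits of means -/

/-- LM1: the means of the local mean square, of its tail, and of `D = ‖a_0‖² - X`; integrability.
Proof. `‖a_k‖² ≤ 1 + ‖a_k‖⁴` is integrable and measurable; finite sums; `be ≥ 0`, `∑ be = 1` (BN1).
`xM²`, `nM`, `D²` are finite sums of products of four of the `a_k`, `|xyzw| ≤ |x|⁴ + |y|⁴ + |z|⁴ + |w|⁴`. -/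
def StmtLm1 : Prop :=
  ∀ (X : Type) [MeasurableSpace X] (ν : Measure X) (a : ℕ → X → ℤ → ℂ) (v : ℤ → ℝ), JM ν a v →
    ∀ M r : ℕ, (∀ n, Integrable (fun x => xM M (a n x)) ν ∧ Integrable (fun x => tM M r (a n x)) ν ∧
      Integrable (fun x => nM M (a n x)) ν ∧ Integrable (fun x => ‖a n x 0‖ ^ 2) ν ∧
      Integrable (fun x => (‖a n x 0‖ ^ 2 - xM M (a n x)) ^ 2) ν ∧
      Measurable (fun x => xM M (a n x)) ∧ Measurable (fun x => tM M r (a n x)) ∧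
      Measurable (fun x => nM M (a n x))) ∧
    Tendsto (fun n => ∫ x, xM M (a n x) ∂ν) atTop (𝓝 1) ∧
    Tendsto (fun n => ∫ x, tM M r (a n x) ∂ν) atTop
      (𝓝 (∑ k ∈ (IM M).filter (fun k => (r : ℤ) < |k|), be M k)) ∧
    Tendsto (fun n => ∫ x, (‖a n x 0‖ ^ 2 - xM M (a n x)) ∂ν) atTop (𝓝 0)

/-- LM2: **the mean of the null form**; the fourth moments cancel.
Proof. `b = be M`, `W = be (2M)`. `‖a_j‖² ‖a_k‖² = a_j a_k conj(a_j a_k)` and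
`‖sq2 s‖² = ∑_{j,l} b_j b_{s-j} b_l b_{s-l} a_j a_{s-j} conj(a_l a_{s-l})`. So `∫ nM` is the real part of a
finite combination of the integrals in `JM.four`; the sum of the coefficients is
`∑_s (W_s - W_s² / W_s) = 0`, so `∫ ‖a_0‖⁴` and the constant `-3` cancel, and the limit is
`∑_s [∑_j b_j b_{s-j} (v(2s) + 1 + v(2(2j-s))) - W_s⁻¹ ∑_{j,l} b_j b_{s-j} b_l b_{s-l}
(v(2s) + v(2(j-l)) + v(2(j+l-s)))]`. The terms `v(2s)` cancel (`∑_j b_j b_{s-j} = W_s`), the other terms of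
the second sum are `≤ 0`; what remains is `1 + ∑_{j,k} b_j b_k v(2(j-k)) = 1 + ∑_t W_t v(2t)` (`b` is even). -/
def StmtLm2 : Prop :=
  ∀ (X : Type) [MeasurableSpace X] (ν : Measure X) (a : ℕ → X → ℤ → ℂ) (v : ℤ → ℝ), JM ν a v →
    ∀ M : ℕ, ∀ ε > 0, ∀ᶠ n in atTop, ∫ x, nM M (a n x) ∂ν ≤ 1 + wz v M + ε

/-- LM3: **the mean square of `D = ‖a_0‖² - X`**; the fourth moments cancel.
Proof. `D² = ‖a_0‖⁴ - 2 ∑ b_k ‖a_0‖² ‖a_k‖² + ∑ b_j b_k ‖a_j‖² ‖a_k‖²`, the sum of the coefficients is zero.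
By `JM.four` (`j' = j`, `k' = k`) the mean of `‖a_j‖² ‖a_k‖²` minus that of `‖a_0‖⁴` tends to
`v(2(j+k)) + 1 + v(2(j-k)) - 3`, so the limit is
`3 - 2 ∑ b_k (1 + 2 v(2k)) + 1 + ∑ b_j b_k (v(2(j+k)) + v(2(j-k))) ≤ 2 + 2 ∑_t W_t v(2t)` (`v ≥ 0`;
`v(-2k) ` occurs: `v(2(0-k))`, only `v ≥ 0` is used). -/
def StmtLm3 : Prop :=
  ∀ (X : Type) [MeasurableSpace X] (ν : Measure X) (a : ℕ → X → ℤ → ℂ) (v : ℤ → ℝ), JM ν a v →
    ∀ M : ℕ, ∀ ε > 0, ∀ᶠ n in atTop,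
      ∫ x, (‖a n x 0‖ ^ 2 - xM M (a n x)) ^ 2 ∂ν ≤ 2 + 2 * wz v M + ε

/-! ### D. The conclusions -/

/-- CHN: **no plane waves: the local mean square tends to one in probability**.
Proof (from BN1, BN2, WZR, PWI, PT1, LM1, LM2). Let `0 < η ≤ 1`. Choose `K ≥ 1` with `4 / K ≤ η / 8`, `A ≥ 1` with
` (2 K + 4) (2 / A) ≤ η / 8`, `C` and `M₀` from BN2 for `A`, `ε₂ > 0` with `C (K + 2) ε₂ ≤ η / 8`. By WZR
` (1 + 2 / K) wz v M ≤ η / 8` for large `M`. NoJ with `ε₂`: frequently in `M`, for all large `n` the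
lower integral is at most `ε₂`; let `M` be such a number, large. `r = ⌊√(A M) / 2⌋`: ` (2 r)² ≤ A M`, so
PWI applies, with `S = sup_{‖v‖ = 1} ‖wv M (a n x) v‖²` (finite). By BN1 (Chebyshev)
`∑_{|k| > r} be M k ≤ (M / 2) / (r + 1)² ≤ 2 / A`. PT1 gives, in the form with `ENNReal.ofReal`,
`min((X-1)²) 1 + 2 X ≤ (1 + 2/K) N + 1 + (2 K + 4) T + C (K + 2) S`. Take lower integrals (all but `S` are
measurable: `lintegral_add_left`, `lintegral_const_mul'`; `⨆ ofReal = ofReal S` or `≤`), and go back to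
integrals with LM1, LM2 and a small `ε₁` for large `n`:
`∫ min ≤ (1 + 2/K)(1 + wz + ε₁) + 1 + (2K + 4)(2/A + ε₁) + C (K + 2) ε₂ - 2 (1 - ε₁) ≤ η`. -/
def StmtChn : Prop :=
  ∀ (X : Type) [MeasurableSpace X] (ν : Measure X) (a : ℕ → X → ℤ → ℂ) (v : ℤ → ℝ), JM ν a v →
    NoJ ν a → ∀ η > 0, ∃ᶠ M : ℕ in atTop, ∀ᶠ n in atTop,
      ∫ x, min ((xM M (a n x) - 1) ^ 2) 1 ∂ν ≤ η

/-- CMM: **no loss of mass, and the fourth moment is at most three**.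
Proof (from BN1, WZR, PT2, LM1, LM3). `X = xM M (a n x) ≥ 0`, `D = ‖a_0‖² - X`. (1) By PT2 (second part),
`∫ max (‖a_0‖² - Λ) 0 ≤ ∫ (X - 1) + 2 δ + (2 / δ) ∫ min((X-1)²) 1 + (4 Λ)⁻¹ ∫ (1 + D)²`, where
`∫ (1 + D)² = 1 + 2 ∫ D + ∫ D² ≤ 6` for large `n` (choose `M` with `wz v M ≤ 1`, WZR). Choose `δ`, `Λ`, then
`M` (the hypothesis with a small `η`), then `n`. (2) By PT2 (first part)
`∫ min (‖a_0‖²) L ^ 2 ≤ (1 + δ)² + 2 (1 + δ) ∫ D + ∫ D² + (L² / δ²) ∫ min((X-1)²) 1`; choose `δ`, then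
`η` with `L² η / δ²` small, then `M` with this `η` and with `wz v M` small, then `n`. -/
def StmtCmm : Prop :=
  ∀ (X : Type) [MeasurableSpace X] (ν : Measure X) (a : ℕ → X → ℤ → ℂ) (v : ℤ → ℝ), JM ν a v →
    (∀ η > 0, ∃ᶠ M : ℕ in atTop, ∀ᶠ n in atTop,
      ∫ x, min ((xM M (a n x) - 1) ^ 2) 1 ∂ν ≤ η) →
    (∀ ε > 0, ∃ Λ : ℝ, 0 < Λ ∧ ∀ᶠ n in atTop, ∫ x, max (‖a n x 0‖ ^ 2 - Λ) 0 ∂ν ≤ ε) ∧
    ∀ L ≥ 0, ∀ ε > 0, ∀ᶠ n in atTop, ∫ x, min (‖a n x 0‖ ^ 2) L ^ 2 ∂ν ≤ 3 + ε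

/-! ### E. Fourier analysis -/

/-- PDS: the Fourier transform of the binomial weights.
Proof. `∑_k be m k e^{i k ξ} = ((e^{iξ/2} + e^{-iξ/2}) / 2)^{2m} = cos(ξ/2)^{2m}` (binomial theorem, `add_pow`;
or induction on `m` with the recursion of `be`), for both coordinates. -/
def StmtPds : Prop :=
  (∀ (m : ℕ) (t : ℝ), ∑ k ∈ IM m, (be m k : ℂ) * Complex.exp ((k : ℂ) * t * Complex.I)
    = ((Real.cos (t / 2) ^ (2 * m) : ℝ) : ℂ)) ∧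
  ∀ (m : ℕ) (ξ : ℂ), ∑ p ∈ IM m, ∑ q ∈ IM m, ((be m p * be m q : ℝ) : ℂ)
    * Complex.exp (((p : ℝ) * ξ.re + (q : ℝ) * ξ.im : ℝ) * Complex.I) = (pd m ξ : ℂ)

/-- BES: Bessel's inequality for a function and its derivative.
Proof. For complex continuous `g`, `∑_{k ∈ IM R} |c_k|² ≤ (2π)⁻¹ ∫ |g|²`, `c_k = (2π)⁻¹ ∫ g e^{-2ikθ}`: expand
`0 ≤ (2π)⁻¹ ∫ |g - ∑ c_k e^{2ikθ}|²` (orthonormality: the integral of `e^{2i(k-l)θ}` over `[0, 2π]` is zero for `k ≠ l`), or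
Mathlib's `tsum_sq_fourierCoeff` or `Orthonormal.sum_inner_products_le`. For `g = f`: `≤ δ²`. For `g = f'`: the
coefficients are `2 i k fc f k` (integration by parts; the boundary terms cancel by periodicity), so
`∑ 4 k² ‖fc f k‖² ≤ δ²`. -/
def StmtBes : Prop :=
  ∀ f : ℝ → ℝ, ContDiff ℝ 1 f → (∀ θ, f (θ + 2 * Real.pi) = f θ) → ∀ δ : ℝ, (∀ θ, |f θ| ≤ δ) →
    (∀ θ, |deriv f θ| ≤ δ) → ∀ R : ℕ,
    ∑ k ∈ IM R, (1 + (k : ℝ) ^ 2) * ‖fc f k‖ ^ 2 ≤ 2 * δ ^ 2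

/-- SYB: **the difference of the symbols is small** (for one point `x = 0` numerically
`sup |sy| ≈ 0.124 / M`, `sup |sy'| ≈ 0.177 / √M`).
Proof. Let `ω = e^{-iθ}`, `‖v‖ = 1`, `ξ = ω - v`, `c = Re (ω conj v)`, `‖ξ‖² = 2 - 2c`, `‖ω + v‖² = 2 + 2c`. Then
`sy = A^M - B^M P - B'^M P'` with `A = c²`, `B = cos⁸(ξ.re/2) cos⁸(ξ.im/2)`, `P = pz w x ξ`, and `B'`, `P'` the
same for `ω + v`; `A, B, B' ∈ [0, 1]`, `|P|, |P'| ≤ 1`. Replacing `θ` by `θ + π` exchanges `B`, `P` and `B'`, `P'`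
(all are even functions), so `sy (θ + π) = sy θ`; so let `c ≥ 0`, `‖ξ‖² ≤ 2`. Derivatives in `θ`:
`‖ξ'‖ = ‖ω‖ = 1`, ` (‖ξ‖²)' = 2 Re(ξ' conj ξ)`, at most `2‖ξ‖` in absolute value. Let `R ≥ ‖x_i‖` for all `i`.
(1) `A = (1 - ‖ξ‖²/2)² ≤ e^{-‖ξ‖²}`; `B ≤ exp(-4 (sin²(ξ.re/2) + sin²(ξ.im/2))) ≤ exp(-(4/π²)‖ξ‖²)`
(`cos⁸ = (1 - sin²)⁴`, `|sin x| ≥ (2/π)|x|` for `|x| ≤ π/2`). With `c₀ = 4/π²` both are `≤ e^{-c₀‖ξ‖²}`.
(2) `|A - B| ≤ C‖ξ‖⁴`, `|A'| ≤ 2‖ξ‖`, `|B_θ| ≤ C‖ξ‖`, `|A' - B_θ| ≤ C‖ξ‖³` (`B_θ` the derivative of `B`):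
both are `1 - ‖ξ‖² + O(‖ξ‖⁴)`, with derivative `-(‖ξ‖²)' + O(‖ξ‖³)` (`A' = -(1 - ‖ξ‖²/2)(‖ξ‖²)'`;
`B_θ = -4 cos⁷(x)sin(x)cos⁸(y) ξ₁' - 4 cos⁸(x)cos⁷(y)sin(y) ξ₂'`, `x = ξ₁/2`, `y = ξ₂/2`, and
`|sin x - x| ≤ |x|³`, `|1 - cos x| ≤ x²/2`). `0 ≤ 1 - P ≤ R²‖ξ‖²/2`, `|P_θ| ≤ R²‖ξ‖` (`|sin t| ≤ |t|`).
(3) `|A^M - B^M| ≤ M e^{-c₀(M-1)‖ξ‖²} C‖ξ‖⁴ ≤ C/M`, and
`|(A^M - B^M)'| ≤ M A^{M-1}|A' - B_θ| + M|A^{M-1} - B^{M-1}||B_θ| ≤ C M‖ξ‖³e^{-c₀(M-1)‖ξ‖²}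
+ C M²‖ξ‖⁵e^{-c₀(M-2)‖ξ‖²} ≤ C/√M` (`t^k e^{-c t²}` is bounded). `B^M (1 - P) ≤ C‖ξ‖² e^{-c₀M‖ξ‖²} ≤ C/M`,
with derivative at most `M B^{M-1}|B_θ|(1 - P) + B^M|P_θ| ≤ C (M‖ξ‖³ + ‖ξ‖) e^{-c₀(M-1)‖ξ‖²} ≤ C/√M`.
(4) `‖ω + v‖² ≥ 2`, so `B' ≤ e^{-2c₀}`, and `B'^M P'` and its derivative are `≤ C/M`. So
`|sy|`, `|sy'| ≤ C/√M`. -/
def StmtSyb : Prop :=
  ∀ (r : ℕ) (w : Fin r → ℝ) (x : Fin r → ℂ), (∀ i, 0 ≤ w i) → ∑ i, w i = 1 →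
    ∀ δ > 0, ∃ M₀ : ℕ, ∀ M ≥ M₀, ∀ v : ℂ, ‖v‖ = 1 → ∀ θ : ℝ,
      |sy M w x v θ| ≤ δ ∧ |deriv (sy M w x v) θ| ≤ δ

/-- SYM: the Fourier coefficients of the difference of the symbols are small.
Proof (from BES, SYB). `sy` is smooth and `2π`-periodic in `θ`. -/
def StmtSym : Prop :=
  ∀ (r : ℕ) (w : Fin r → ℝ) (x : Fin r → ℂ), (∀ i, 0 ≤ w i) → ∑ i, w i = 1 →
    ∀ δ > 0, ∃ M₀ : ℕ, ∀ M ≥ M₀, ∀ v : ℂ, ‖v‖ = 1 → ∀ R : ℕ,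
      ∑ k ∈ IM R, (1 + (k : ℝ) ^ 2) * ‖ck M w x v k‖ ^ 2 ≤ δ

end

end PKM
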