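import Mathlib
import Pool.Agent.PKM.St2a

/-!
# Project PKM, part (c), module SYM (helper9)
-/

set_option autoImplicit false

open Complex MeasureTheory Filter Topology Set

namespace PKM

namespace SYM

theorem cexp_smooth : ContDiff ℝ 1 (fun θ : ℝ => Complex.exp (-((θ : ℂ) * Complex.I))) := by
  have h1 : ContDiff ℝ 1 (fun θ : ℝ => (θ : ℂ)) := Complex.ofRealCLM.contDiff
  exact (h1.mul contDiff_const).neg.cexp

theorem re_smooth {f : ℝ → ℂ} (hf : ContDiff ℝ 1 f) : ContDiff ℝ 1 (fun θ => (f θ).re) :=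
  Complex.reCLM.contDiff.comp hf

theorem im_smooth {f : ℝ → ℂ} (hf : ContDiff ℝ 1 f) : ContDiff ℝ 1 (fun θ => (f θ).im) :=
  Complex.imCLM.contDiff.comp hf

theorem pd_smooth (m : ℕ) {f : ℝ → ℂ} (hf : ContDiff ℝ 1 f) :
    ContDiff ℝ 1 (fun θ => pd m (f θ)) := by
  unfold pd
  exact (((re_smooth hf).div_const 2).cos.pow _).mul (((im_smooth hf).div_const 2).cos.pow _)

theorem pz_smooth {r : ℕ} (w : Fin r → ℝ) (x : Fin r → ℂ) {f : ℝ → ℂ} (hf : ContDiff ℝ 1 f) :
    ContDiff ℝ 1 (fun θ => pz w x (f θ)) := by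
  unfold pz
  refine ContDiff.sum fun i _ => contDiff_const.mul ?_
  exact (re_smooth (hf.mul contDiff_const)).cos

theorem sy_smooth (M : ℕ) {r : ℕ} (w : Fin r → ℝ) (x : Fin r → ℂ) (v : ℂ) :
    ContDiff ℝ 1 (sy M w x v) := by
  have h1 := cexp_smooth.sub (contDiff_const (c := v))
  have h2 := cexp_smooth.add (contDiff_const (c := v))
  have h3 := re_smooth (cexp_smooth.mul (contDiff_const (c := (starRingEnd ℂ) v)))
  have h4 := ((h3.pow (2 * M)).sub ((pd_smooth (4 * M) h1).mul (pz_smooth w x h1))).sub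
    ((pd_smooth (4 * M) h2).mul (pz_smooth w x h2))
  exact h4

theorem cexp_periodic (θ : ℝ) : Complex.exp (-(((θ + 2 * Real.pi : ℝ) : ℂ) * Complex.I)) =
    Complex.exp (-((θ : ℂ) * Complex.I)) := by
  rw [show -(((θ + 2 * Real.pi : ℝ) : ℂ) * Complex.I) =
    -((θ : ℂ) * Complex.I) - 2 * Real.pi * Complex.I by push_cast; ring]
  exact Complex.exp_periodic.sub_eq _

end SYM

theorem t_SYM (hBES : StmtBes) (hSYB : StmtSyb) : StmtSym := by
  intro r w x hw hs δ hδ
  obtain ⟨M₀, h⟩ := hSYB r w x hw hs (Real.sqrt (δ / 2)) (Real.sqrt_pos.2 (by positivity))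
  refine ⟨M₀, fun M hM v hv R => ?_⟩
  have h1 := hBES (sy M w x v) (SYM.sy_smooth M w x v)
    (fun θ => by simp only [sy, SYM.cexp_periodic]) (Real.sqrt (δ / 2))
    (fun θ => (h M hM v hv θ).1) (fun θ => (h M hM v hv θ).2) R
  rw [Real.sq_sqrt (by positivity)] at h1
  refine le_trans h1 ?_
  linarith

end PKM
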