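import Pool.Agent.PKM.St2b
import Pool.Agent.BSL.CUT

/-!
# PKM, module WIN: from the windows at the origin to all translates
-/

set_option autoImplicit false

open Complex MeasureTheory Filter Topology Set
open UpperHalfPlane hiding I
open scoped ContDiff MatrixGroups ProbabilityTheory ENNReal

namespace PKM

open QE QE.NC QJ U3 NFP BSL

noncomputable section

/-- **WIN** -/
theorem t_WIN (hB : StmtBn1) (hW : StmtSwc) (hS : StmtStn) (hF : StmtFrm) : StmtWin := by
  intro Γ _ D ρ φ m hs hN ε hε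
  obtain ⟨r, w, x, hw, hw1, hn⟩ := hN (ε / 2) (by positivity)
  refine ⟨r, w, x, hw, hw1, fun M => ?_⟩
  obtain ⟨-, -, hlip, -, hcont⟩ := hW r w x hw hw1
  obtain ⟨ζ, hζ⟩ := t_CUT Γ D ρ hs.mD hs.fd hs.fac
  obtain ⟨hb0, -, -, -, hb1, -⟩ := hB M
  have key : ∀ p ∈ IM M, ∀ q ∈ IM M, ∀ᶠ n in atTop,
      Integrable (fun o => sw w x (fun i => Berry.rWave ρ (φ n) (m n) (x i + lp p q) o))
        (Berry.rFrameProb ρ D) ∧
      ∫ o, sw w x (fun i => Berry.rWave ρ (φ n) (m n) (x i + lp p q) o)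
        ∂(Berry.rFrameProb ρ D) ≤ ε := by
    intro p _ q _
    have h1 := hS Γ D ρ φ m hs r x (lp p q) (sw w x) 1 (by
      intro s t
      rw [one_mul]
      exact hlip s t)
    have h2 := h1.eventually_lt_const (show (0 : ℝ) < ε / 2 by positivity)
    filter_upwards [h2, hn, hF Γ D ρ φ m hs ζ hζ r (fun i => x i + lp p q) (sw w x) hcont]
      with n n1 n2 n3
    refine ⟨n3.1, ?_⟩
    linarith
  have hall : ∀ᶠ n in atTop, ∀ p ∈ IM M, ∀ q ∈ IM M,
      Integrable (fun o => sw w x (fun i => Berry.rWave ρ (φ n) (m n) (x i + lp p q) o))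
        (Berry.rFrameProb ρ D) ∧
      ∫ o, sw w x (fun i => Berry.rWave ρ (φ n) (m n) (x i + lp p q) o)
        ∂(Berry.rFrameProb ρ D) ≤ ε :=
    (eventually_all_finset _).2 fun p hp => (eventually_all_finset _).2 fun q hq => key p hp q hq
  filter_upwards [hall] with n h
  unfold sb
  have hi : ∀ p ∈ IM M, ∀ q ∈ IM M, Integrable (fun o => be M p * be M q *
      sw w x (fun i => Berry.rWave ρ (φ n) (m n) (x i + lp p q) o)) (Berry.rFrameProb ρ D) :=
    fun p hp q hq => (h p hp q hq).1.const_mul _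
  rw [integral_finsetSum _ fun p hp => integrable_finsetSum _ fun q hq => hi p hp q hq]
  have e1 : ε = ∑ p ∈ IM M, ∑ q ∈ IM M, be M p * be M q * ε := by
    simp_rw [← Finset.sum_mul, ← Finset.mul_sum]
    rw [hb1, ← Finset.sum_mul, hb1]
    ring
  rw [e1]
  refine Finset.sum_le_sum fun p hp => ?_
  rw [integral_finsetSum _ fun q hq => hi p hp q hq]
  refine Finset.sum_le_sum fun q hq => ?_
  rw [integral_const_mul]
  exact mul_le_mul_of_nonneg_left (h p hp q hq).2 (mul_nonneg (hb0 p) (hb0 q))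

end

end PKM
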