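import Pool.Agent.PKM.St2a

/-!
# Module PKM_WZR: the binomial mean of the moments tends to zero
-/

set_option autoImplicit false

open Complex MeasureTheory Filter Topology Set

namespace PKM

namespace WZR

/-- the part near zero -/
theorem part1 (h : StmtBn1) (v : ℤ → ℝ) (hv0 : ∀ k, 0 ≤ v k) (M R : ℕ) :
    ∑ k ∈ (IM (2 * M)).filter (fun k => |k| < (R : ℤ)), be (2 * M) k * v (2 * k) ≤
      be (2 * M) 0 * ∑ k ∈ Finset.Ioo (-((2 * R : ℕ) : ℤ)) ((2 * R : ℕ) : ℤ), v k := by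
  obtain ⟨h0, -, -, hm, -⟩ := h (2 * M)
  have h1 : ∑ k ∈ (IM (2 * M)).filter (fun k => |k| < (R : ℤ)), be (2 * M) k * v (2 * k) ≤
      ∑ k ∈ (IM (2 * M)).filter (fun k => |k| < (R : ℤ)), be (2 * M) 0 * v (2 * k) := by
    refine Finset.sum_le_sum fun k _ => ?_
    exact mul_le_mul_of_nonneg_right (hm 0 k (by simp)) (hv0 _)
  refine h1.trans ?_
  rw [← Finset.mul_sum]
  refine mul_le_mul_of_nonneg_left ?_ (h0 0)
  have h2 : ∑ k ∈ (IM (2 * M)).filter (fun k => |k| < (R : ℤ)), v (2 * k) =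
      ∑ j ∈ ((IM (2 * M)).filter (fun k => |k| < (R : ℤ))).image (fun k : ℤ => 2 * k), v j := by
    rw [Finset.sum_image]
    intro a _ b _ hab
    have hab' : 2 * a = 2 * b := hab
    omega
  rw [h2]
  refine Finset.sum_le_sum_of_subset_of_nonneg ?_ fun j _ _ => hv0 j
  intro j hj
  obtain ⟨k, hk, rfl⟩ := Finset.mem_image.1 hj
  have h3 := (Finset.mem_filter.1 hk).2
  rw [abs_lt] at h3
  rw [Finset.mem_Ioo]
  push_cast
  constructor <;> linarith [h3.1, h3.2]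

/-- the tail -/
theorem part2 (h : StmtBn1) (v : ℤ → ℝ) (hv1 : ∀ k, v k ≤ 1) (M R : ℕ)
    (c : ℝ) (hc : 0 < c) (hR : c * M ≤ (R : ℝ) ^ 2) (hM : 1 ≤ M) :
    ∑ k ∈ (IM (2 * M)).filter (fun k => ¬ |k| < (R : ℤ)), be (2 * M) k * v (2 * k) ≤ 1 / c := by
  obtain ⟨h0, -, -, -, -, h2, -⟩ := h (2 * M)
  have hM0 : (0 : ℝ) < M := by exact_mod_cast hM
  have h1 : ∑ k ∈ (IM (2 * M)).filter (fun k => ¬ |k| < (R : ℤ)), be (2 * M) k * v (2 * k) ≤
      ∑ k ∈ (IM (2 * M)).filter (fun k => ¬ |k| < (R : ℤ)),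
        (1 / (c * M)) * ((k : ℝ) ^ 2 * be (2 * M) k) := by
    refine Finset.sum_le_sum fun k hk => ?_
    have h3 := (Finset.mem_filter.1 hk).2
    rw [not_lt] at h3
    have h4 : (R : ℝ) ≤ |(k : ℝ)| := by
      have : ((R : ℤ) : ℝ) ≤ ((|k| : ℤ) : ℝ) := by exact_mod_cast h3
      simpa using this
    have h5 : (R : ℝ) ^ 2 ≤ (k : ℝ) ^ 2 := by
      rw [← sq_abs (k : ℝ)]
      exact pow_le_pow_left₀ (Nat.cast_nonneg R) h4 2
    have h6 : 1 ≤ (1 / (c * M)) * (k : ℝ) ^ 2 := by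
      rw [one_div, ← div_eq_inv_mul, le_div_iff₀ (by positivity), one_mul]
      exact hR.trans h5
    calc be (2 * M) k * v (2 * k) ≤ be (2 * M) k * 1 :=
          mul_le_mul_of_nonneg_left (hv1 _) (h0 k)
      _ = 1 * be (2 * M) k := by ring
      _ ≤ ((1 / (c * M)) * (k : ℝ) ^ 2) * be (2 * M) k := mul_le_mul_of_nonneg_right h6 (h0 k)
      _ = _ := by ring
  refine h1.trans ?_
  rw [← Finset.mul_sum]
  have h3 : ∑ k ∈ (IM (2 * M)).filter (fun k => ¬ |k| < (R : ℤ)), (k : ℝ) ^ 2 * be (2 * M) k ≤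
      ∑ k ∈ IM (2 * M), (k : ℝ) ^ 2 * be (2 * M) k :=
    Finset.sum_le_sum_of_subset_of_nonneg (Finset.filter_subset _ _) fun k _ _ =>
      mul_nonneg (sq_nonneg _) (h0 k)
  refine (mul_le_mul_of_nonneg_left h3 (by positivity)).trans ?_
  rw [h2]
  push_cast
  apply le_of_eq
  field_simp

/-- the weight at zero -/
theorem weight (h : StmtBn1) (M s : ℕ) (hs : s ^ 2 ≤ M) (hs1 : 1 ≤ s) :
    be (2 * M) 0 * (s + 1) ≤ 1 := by
  obtain ⟨h0, -, -, -, -, -, h7, -⟩ := h (2 * M)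
  have hs' : (s : ℝ) ^ 2 ≤ M := by exact_mod_cast hs
  have hs1' : (1 : ℝ) ≤ s := by exact_mod_cast hs1
  have hb := h0 0
  push_cast at h7
  have h8 : (be (2 * M) 0 * (s + 1)) ^ 2 ≤ 1 ^ 2 := by
    have h9 : ((s : ℝ) + 1) ^ 2 ≤ 2 * (2 * M) + 1 := by nlinarith
    calc (be (2 * M) 0 * (s + 1)) ^ 2 = ((s : ℝ) + 1) ^ 2 * be (2 * M) 0 ^ 2 := by ring
      _ ≤ (2 * (2 * M) + 1) * be (2 * M) 0 ^ 2 := mul_le_mul_of_nonneg_right h9 (sq_nonneg _)
      _ ≤ 1 := h7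
      _ = 1 ^ 2 := by norm_num
  exact (sq_le_sq₀ (by positivity) (by norm_num)).1 h8

end WZR

open WZR in
theorem t_WZR (h : StmtBn1) : StmtWzr := by
  intro v hv0 hv1 hc
  have hnn : ∀ M, 0 ≤ wz v M := fun M => Finset.sum_nonneg fun k _ =>
    mul_nonneg ((h (2 * M)).1 k) (hv0 _)
  rw [tendsto_order]
  refine ⟨fun a ha => Eventually.of_forall fun M => lt_of_lt_of_le ha (hnn M), fun ε hε => ?_⟩
  obtain ⟨n, hn⟩ := exists_nat_one_div_lt (half_pos hε)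
  obtain ⟨A, hA⟩ : ∃ A : ℕ, A = n + 1 := ⟨_, rfl⟩
  have hA1 : (1 : ℝ) ≤ A := by
    rw [hA]
    push_cast
    linarith [(Nat.cast_nonneg n : (0 : ℝ) ≤ n)]
  have hA2 : 1 / (A : ℝ) < ε / 2 := by
    rw [hA]
    push_cast
    exact hn
  obtain ⟨N0, hN0⟩ := eventually_atTop.1 ((tendsto_order.1 hc).2 (ε / (4 * A)) (by positivity))
  refine eventually_atTop.2 ⟨(N0 + 1) ^ 2, fun M hM => ?_⟩
  obtain ⟨s, hs⟩ : ∃ s : ℕ, s = Nat.sqrt M := ⟨_, rfl⟩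
  have hs1 : N0 + 1 ≤ s := by
    rw [hs]
    exact Nat.le_sqrt'.2 hM
  have hs2 : s ^ 2 ≤ M := by
    rw [hs]
    exact Nat.sqrt_le' M
  have hs3 : M < (s + 1) ^ 2 := by
    rw [hs]
    exact Nat.lt_succ_sqrt' M
  have hM1 : 1 ≤ M := le_trans (Nat.one_le_pow _ _ (by omega)) hM
  obtain ⟨R, hR⟩ : ∃ R : ℕ, R = A * (s + 1) := ⟨_, rfl⟩
  have e1 : wz v M =
      ∑ k ∈ (IM (2 * M)).filter (fun k => |k| < (R : ℤ)), be (2 * M) k * v (2 * k) +
      ∑ k ∈ (IM (2 * M)).filter (fun k => ¬ |k| < (R : ℤ)), be (2 * M) k * v (2 * k) :=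
    (Finset.sum_filter_add_sum_filter_not _ _ _).symm
  have p1 := part1 h v hv0 M R
  have hRr : (R : ℝ) = A * (s + 1) := by
    rw [hR]
    push_cast
    ring
  have p2 := part2 h v hv1 M R ((A : ℝ) ^ 2) (by positivity) (by
    rw [hRr, mul_pow]
    refine mul_le_mul_of_nonneg_left ?_ (by positivity)
    exact_mod_cast hs3.le) hM1
  have p3 : 1 / (A : ℝ) ^ 2 ≤ 1 / A := by
    refine one_div_le_one_div_of_le (by positivity) ?_
    nlinarith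
  have p4 := weight h M s hs2 (by omega)
  have hR1 : N0 ≤ 2 * R := by
    rw [hR]
    have : 1 ≤ A := by omega
    nlinarith
  have p5 := hN0 (2 * R) hR1
  have hRpos : (0 : ℝ) < R := by
    rw [hRr]
    positivity
  have hb := (h (2 * M)).1 0
  -- the sum over the interval
  have p6 : ∑ k ∈ Finset.Ioo (-((2 * R : ℕ) : ℤ)) ((2 * R : ℕ) : ℤ), v k <
      (2 * R) * (ε / (4 * A)) := by
    have h1 : (1 / ((2 * R : ℕ) : ℝ)) *
      ∑ k ∈ Finset.Ioo (-((2 * R : ℕ) : ℤ)) ((2 * R : ℕ) : ℤ), v k < ε / (4 * A) := p5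
    have h2 : (0 : ℝ) < ((2 * R : ℕ) : ℝ) := by
      push_cast
      linarith
    rw [one_div, ← div_eq_inv_mul, div_lt_iff₀ h2] at h1
    push_cast at h1 ⊢
    linarith
  have p7 : be (2 * M) 0 *
      ∑ k ∈ Finset.Ioo (-((2 * R : ℕ) : ℤ)) ((2 * R : ℕ) : ℤ), v k ≤ ε / 2 := by
    calc _ ≤ be (2 * M) 0 * ((2 * R) * (ε / (4 * A))) := mul_le_mul_of_nonneg_left p6.le hb
      _ = (be (2 * M) 0 * (s + 1)) * (ε / 2) := by
          rw [hRr]
          field_simp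
          ring
      _ ≤ 1 * (ε / 2) := mul_le_mul_of_nonneg_right p4 (by linarith)
      _ = ε / 2 := one_mul _
  rw [e1]
  linarith

end PKM
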