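import Pool.Agent.PKM.End2
import Pool.Agent.PKM.NWM
import Pool.Agent.PKM.BN1
import Pool.Agent.PKM.BN2
import Pool.Agent.PKM.WZR
import Pool.Agent.PKM.PWI
import Pool.Agent.PKM.PT1
import Pool.Agent.PKM.LM1
import Pool.Agent.PKM.LM2
import Pool.Agent.PKM.LM3
import Pool.Agent.PKM.CHN
import Pool.Agent.PKM.CMM
import Pool.Agent.PKM.PDS
import Pool.Agent.PKM.BES
import Pool.Agent.PKM.SYB
import Pool.Agent.PKM.SYM
import Pool.Agent.PKM.JFG
import Pool.Agent.PKM.JMG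
import Pool.Agent.PKM.FRM
import Pool.Agent.PKM.WIN
import Pool.Agent.PKM.PWB
import Pool.Agent.PKM.GKB
import Pool.Agent.PKM.LNK
import Pool.Agent.PKM.LNF
import Pool.Agent.PKM.CMB
import Pool.Agent.PKM.SWC
import Pool.Agent.PKM.BTN
import Pool.Agent.PKM.STN
import Pool.Agent.PKM.CNV

/-!
# No plane waves in the mean square: the theorem
-/

namespace PKM

theorem lm1_closed : StmtLm1 := t_LM1 t_BN1

theorem wzr_closed : StmtWzr := t_WZR t_BN1

theorem chn_closed : StmtChn :=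
  t_CHN t_BN1 (t_BN2 t_BN1) wzr_closed (t_PWI t_BN1) t_PT1 lm1_closed (t_LM2 t_BN1 lm1_closed)

theorem cmm_closed : StmtCmm :=
  t_CMM t_BN1 wzr_closed t_PT2 lm1_closed (t_LM3 t_BN1 lm1_closed)

theorem win_closed : StmtWin := t_WIN t_BN1 t_SWC t_STN t_FRM

theorem lnf_closed : StmtLnf :=
  t_LNF t_BN1 t_SWC t_FRM (t_PWB t_BN1 t_SWC) (t_GKB t_BN1 t_PDS (t_SYM t_BES t_SYB)) (t_LNK t_BN1)

theorem jmg_closed : StmtJmg := t_JMG t_JFG

theorem nwm_closed : StmtNwm :=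
  t_NWM win_closed lnf_closed jmg_closed chn_closed cmm_closed t_CMB

/-- the theorem -/
theorem end2_closed : StmtEnd2 := t_END2 nwm_closed t_CNV t_BTN

end PKM
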