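import Pool.Agent.PKM.St2b
import Pool.Agent.PKM.MOM

/-!
# CMF: the moments of the limit field
-/

set_option autoImplicit false

open Complex MeasureTheory Filter Topology Set
open UpperHalfPlane hiding I
open scoped ContDiff MatrixGroups ProbabilityTheory ENNReal

namespace PKM

open QE QE.NC QJ U3 NFP BSL

noncomputable section

open MOM in
/-- **CMF**: the moments of the limit field. -/
theorem t_CMF : StmtCmf := by
  intro Γ _ D ρ φ m hS Ω _ P _ F hF hL ζ hζ hU h4m
  have hlim : ∀ G : ℝ → ℝ, Continuous G → (∃ C, ∀ x, |G x| ≤ C) →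
      Tendsto (fun n => ∫ z, ζ z * G (φ n (ofComplex z) ^ 2)) atTop
        (𝓝 (∫ o, G (F 0 o ^ 2) ∂P)) := fun G hG hb => lim_eq hS hL hζ hG hb
  have htr : ∀ (Λ : ℝ) (n : ℕ) (z : ℂ),
      tr Λ (φ n (ofComplex z) ^ 2) = min (φ n (ofComplex z) ^ 2) Λ := by
    intro Λ n z
    rw [tr, max_eq_left (sq_nonneg _)]
  -- the second moment of the truncations
  have b1 : ∀ Λ : ℝ, 0 ≤ Λ → ∫ o, tr Λ (F 0 o ^ 2) ^ 2 ∂P ≤ 3 := by
    intro Λ hΛ
    refine le_of_forall_pos_le_add fun ε hε => ?_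
    refine le_of_tendsto (hlim (fun u => tr Λ u ^ 2) ((tr_cont Λ).pow 2)
      ⟨Λ ^ 2, fun u => by
        rw [abs_of_nonneg (sq_nonneg _)]
        exact pow_le_pow_left₀ (tr_nonneg hΛ u) (tr_le u) 2⟩) ?_
    filter_upwards [h4m Λ hΛ ε hε] with n hn
    refine le_trans (le_of_eq ?_) hn
    refine integral_congr_ae (Eventually.of_forall fun z => ?_)
    beta_reduce
    rw [htr]
  -- the mass of the truncations
  have b2 : ∀ ε > 0, ∃ Λ : ℝ, 0 < Λ ∧ 1 - ε ≤ ∫ o, tr Λ (F 0 o ^ 2) ∂P := by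
    intro ε hε
    obtain ⟨Λ, hΛ, hn⟩ := hU ε hε
    refine ⟨Λ, hΛ, ?_⟩
    refine ge_of_tendsto (hlim (tr Λ) (tr_cont Λ)
      ⟨Λ, fun u => by rw [abs_of_nonneg (tr_nonneg hΛ.le u)]; exact tr_le u⟩) ?_
    filter_upwards [hn] with n hn
    have hi := (int_eq hS hζ n (tr_cont Λ)).1
    have hi3 := (int_eq hS hζ n (G := fun u => max (u - Λ) 0)
      ((continuous_id.sub continuous_const).max continuous_const)).1
    have hm := ORD.mass hS hζ n
    have h5 : (∫ z, ζ z * φ n (ofComplex z) ^ 2) =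
        (∫ z, ζ z * tr Λ (φ n (ofComplex z) ^ 2)) +
          ∫ z, ζ z * max (φ n (ofComplex z) ^ 2 - Λ) 0 := by
      rw [← integral_add hi hi3]
      refine integral_congr_ae (Eventually.of_forall fun z => ?_)
      beta_reduce
      rw [htr, ← mul_add]
      congr 1
      rcases le_total (φ n (ofComplex z) ^ 2) Λ with h | h
      · rw [min_eq_left h, max_eq_right (sub_nonpos.2 h), add_zero]
      · rw [min_eq_right h, max_eq_left (sub_nonneg.2 h)]
        ring
    rw [hm] at h5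
    linarith
  have b3 : ∀ Λ : ℝ, 0 < Λ → ∫ o, tr Λ (F 0 o ^ 2) ∂P ≤ 1 := by
    intro Λ hΛ
    refine le_of_tendsto (hlim (tr Λ) (tr_cont Λ)
      ⟨Λ, fun u => by rw [abs_of_nonneg (tr_nonneg hΛ.le u)]; exact tr_le u⟩)
      (Eventually.of_forall fun n => ?_)
    rw [← ORD.mass hS hζ n]
    refine integral_mono (int_eq hS hζ n (tr_cont Λ)).1
      (int_eq hS hζ n (G := fun u => u) continuous_id).1 fun z => ?_
    exact mul_le_mul_of_nonneg_left (tr_le_self (sq_nonneg _)) (hζ.nonneg z)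
  -- the fourth moment
  have hmF : Measurable (fun o => F 0 o ^ 2) := (hF 0).pow_const 2
  have hmt : ∀ k : ℕ, Measurable (fun o => tr k (F 0 o ^ 2) ^ 2) := fun k =>
    ((tr_cont k).measurable.comp hmF).pow_const 2
  have hconv : ∀ o, ∀ᶠ k : ℕ in atTop, tr k (F 0 o ^ 2) = F 0 o ^ 2 := by
    intro o
    filter_upwards [eventually_ge_atTop ⌈F 0 o ^ 2⌉₊] with k hk
    rw [tr, max_eq_left (sq_nonneg _), min_eq_left]
    exact (Nat.le_ceil _).trans (Nat.cast_le.2 hk)
  have h4 : Integrable (fun o => F 0 o ^ 4) P := by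
    refine ⟨((hF 0).pow_const 4).aestronglyMeasurable, ?_⟩
    have e1 : ∀ o, ‖F 0 o ^ 4‖ₑ = liminf (fun k : ℕ => ENNReal.ofReal (tr k (F 0 o ^ 2) ^ 2))
        atTop := by
      intro o
      have h5 : Tendsto (fun k : ℕ => ENNReal.ofReal (tr k (F 0 o ^ 2) ^ 2)) atTop
          (𝓝 ‖F 0 o ^ 4‖ₑ) := by
        refine tendsto_const_nhds.congr' ?_
        filter_upwards [hconv o] with k hk
        rw [hk, ← pow_mul, Real.enorm_eq_ofReal (by positivity)]
      exact h5.liminf_eq.symm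
    show ∫⁻ o, ‖F 0 o ^ 4‖ₑ ∂P < ⊤
    simp_rw [e1]
    refine lt_of_le_of_lt (lintegral_liminf_le fun k => (hmt k).ennreal_ofReal) ?_
    refine lt_of_le_of_lt (b := ENNReal.ofReal 3) ?_ ENNReal.ofReal_lt_top
    refine liminf_le_of_le (by isBoundedDefault) fun b hb => ?_
    obtain ⟨k, hk⟩ := hb.exists
    refine hk.trans ?_
    have i3 : Integrable (fun o => tr k (F 0 o ^ 2) ^ 2) P :=
      Integrable.of_bound (hmt k).aestronglyMeasurable ((k : ℝ) ^ 2)
        (Eventually.of_forall fun o => by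
          rw [Real.norm_eq_abs, abs_of_nonneg (sq_nonneg _)]
          exact pow_le_pow_left₀ (tr_nonneg (Nat.cast_nonneg k) _) (tr_le _) 2)
    rw [← ofReal_integral_eq_lintegral_ofReal i3 (Eventually.of_forall fun o => sq_nonneg _)]
    exact ENNReal.ofReal_le_ofReal (b1 k (Nat.cast_nonneg k))
  have h2 : Integrable (fun o => F 0 o ^ 2) P := by
    refine (((integrable_const (1 : ℝ)).add h4)).mono' hmF.aestronglyMeasurable
      (Eventually.of_forall fun o => ?_)
    rw [Real.norm_eq_abs, abs_of_nonneg (sq_nonneg _)]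
    show F 0 o ^ 2 ≤ 1 + F 0 o ^ 4
    nlinarith [sq_nonneg (F 0 o ^ 2 - 1), sq_nonneg (F 0 o ^ 2)]
  refine ⟨le_antisymm ?_ ?_, h4, ?_⟩
  · have t1 : Tendsto (fun k : ℕ => ∫ o, tr k (F 0 o ^ 2) ∂P) atTop
        (𝓝 (∫ o, F 0 o ^ 2 ∂P)) := by
      refine tendsto_integral_of_dominated_convergence (fun o => F 0 o ^ 2)
        (fun k => ((tr_cont k).measurable.comp hmF).aestronglyMeasurable) h2
        (fun k => Eventually.of_forall fun o => ?_) (Eventually.of_forall fun o => ?_)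
      · rw [Real.norm_eq_abs]
        show |tr k (F 0 o ^ 2)| ≤ _
        rw [abs_of_nonneg (tr_nonneg (Nat.cast_nonneg k) _)]
        exact tr_le_self (sq_nonneg _)
      · refine tendsto_const_nhds.congr' ?_
        filter_upwards [hconv o] with k hk
        exact hk.symm
    refine le_of_tendsto t1 ?_
    filter_upwards [eventually_gt_atTop 0] with k hk
    exact b3 k (Nat.cast_pos.2 hk)
  · refine le_of_forall_pos_le_add fun ε hε => ?_
    obtain ⟨Λ, hΛ, h5⟩ := b2 ε hε
    have h6 : ∫ o, tr Λ (F 0 o ^ 2) ∂P ≤ ∫ o, F 0 o ^ 2 ∂P := by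
      refine integral_mono (h2.mono' ((tr_cont Λ).measurable.comp hmF).aestronglyMeasurable
        (Eventually.of_forall fun o => ?_)) h2 fun o => tr_le_self (sq_nonneg _)
      rw [Real.norm_eq_abs]
      show |tr Λ (F 0 o ^ 2)| ≤ _
      rw [abs_of_nonneg (tr_nonneg hΛ.le _)]
      exact tr_le_self (sq_nonneg _)
    linarith
  · have t1 : Tendsto (fun k : ℕ => ∫ o, tr k (F 0 o ^ 2) ^ 2 ∂P) atTop
        (𝓝 (∫ o, F 0 o ^ 4 ∂P)) := by
      refine tendsto_integral_of_dominated_convergence (fun o => F 0 o ^ 4)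
        (fun k => (hmt k).aestronglyMeasurable) h4
        (fun k => Eventually.of_forall fun o => ?_) (Eventually.of_forall fun o => ?_)
      · rw [Real.norm_eq_abs, abs_of_nonneg (sq_nonneg _)]
        have h7 := pow_le_pow_left₀ (tr_nonneg (Nat.cast_nonneg k) _)
          (tr_le_self (Λ := (k : ℝ)) (sq_nonneg (F 0 o))) 2
        calc tr k (F 0 o ^ 2) ^ 2 ≤ (F 0 o ^ 2) ^ 2 := h7
          _ = F 0 o ^ 4 := by ring
      · refine tendsto_const_nhds.congr' ?_
        filter_upwards [hconv o] with k hk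
        rw [hk]
        ring
    exact le_of_tendsto t1 (Eventually.of_forall fun k => b1 k (Nat.cast_nonneg k))

end

end PKM
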