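import Pool.Agent.PWV.All
import Pool.Agent.PKM.All

/-!
# Planck scale equidistribution, plane waves, and Berry's conjecture up to order four

Let `Γ ⊂ SL(2, ℝ)` be countable with compact quotient `Γ \ ℍ` (fundamental domain `D`), with any metric
`e^{2ρ} (dx² + dy²) / y²`. Let `φₙ` be real smooth `Γ`-invariant Laplace eigenfunctions of this metric,
normalised in `L²`, with eigenvalues `mₙ² → ∞`. Let `Fₙ(x)` be `φₙ` near a uniform random point, in a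
uniform random frame, at distances `x / mₙ`, and `K = J₀(|x|)` the covariance function of the random
monochromatic wave. Let the random field `F` be a limit in law of `Fₙ` (finite-dimensional
distributions). No bound for the moments of `Fₙ` or `F` is assumed, and mass may be lost in the limit.

`Planck a` is the statement that the averages of `Fₙ(x) Fₙ(x + a)` over the disc of radius `R` tend to
`K(a)` in probability, for `n → ∞` and then `R → ∞`. For `a = 0` this is the equidistribution of the mass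
`φₙ²` in almost all balls of radius `R / mₙ`.
-/

open MeasureTheory UpperHalfPlane MatrixGroups Berry Filter Topology
open scoped ContDiff

theorem Pool.Agent.PKM.result_draft
    (Γ : Subgroup SL(2, ℝ)) [Countable Γ] (ρ : ℍ → ℝ)
    (hρ : ContDiffOn ℝ ∞ (fun w : ℂ => ρ (ofComplex w)) {w | 0 < w.im})
    (hρΓ : ∀ γ ∈ Γ, ∀ z, ρ (γ • z) = ρ z)
    (D : Set ℍ) (hDm : MeasurableSet D) (hD : IsFundamentalDomain Γ D (volume : Measure ℍ))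
    (hK : ∃ K : Set ℍ, IsCompact K ∧ ∀ z, ∃ γ ∈ Γ, γ • z ∈ K)
    (φ : ℕ → ℍ → ℝ) (m : ℕ → ℝ) (hφ : REigenSeq Γ ρ φ m)
    (hs : ∀ n, ContDiffOn ℝ ∞ (fun w : ℂ => φ n (ofComplex w)) {w | 0 < w.im})
    (hn : ∀ n, rAvg ρ D (fun z => φ n z ^ 2) = 1)
    (Ω : Type) [MeasurableSpace Ω] (P : Measure Ω) [IsProbabilityMeasure P] (F : ℂ → Ω → ℝ)
    (hF : ∀ x, Measurable (F x))
    (hlaw : ∀ (r : ℕ) (x : Fin r → ℂ) (G : (Fin r → ℝ) → ℝ), Continuous G →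
      (∃ C, ∀ t, |G t| ≤ C) →
      Tendsto (fun n => ∫ p, G (fun i => rWave ρ (φ n) (m n) (x i) p) ∂(rFrameProb ρ D))
        atTop (𝓝 (∫ o, G (fun i => F (x i) o) ∂P))) :
    -- Planck scale equidistribution of the mass, in measure
    (PKM.Planck ρ D φ m 0 → ∫ o, F 0 o ^ 2 ∂P = 1 ∧ Integrable (fun o => F 0 o ^ 4) P ∧
      ∫ o, F 0 o ^ 4 ∂P ≤ 3 ∧ PWV.Equi φ) ∧
    List.TFAE [
      PKM.Gauss4 P F,
      ∀ a : ℂ, PKM.Planck ρ D φ m a,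
      PKM.Planck ρ D φ m 0 ∧ ∃ a : ℂ, a ≠ 0 ∧ PKM.Planck ρ D φ m a,
      QE.QuantumErgodic ρ φ m ∧ PKM.Planck ρ D φ m 0,
      QE.QuantumErgodic ρ φ m ∧ ∫ o, F 0 o ^ 2 ∂P = 1 ∧ ∫ o, F 0 o ^ 4 ∂P = 3] ∧
    ((∀ z : ℍ, 0 < 1 + z.im ^ 2 * Laplacian.laplacian (fun w : ℂ => ρ (ofComplex w)) z) →
      (PKM.Planck ρ D φ m 0 ↔ ∫ o, F 0 o ^ 2 ∂P = 1 ∧ ∫ o, F 0 o ^ 4 ∂P = 3)) ∧
    (BSL.Ergo P F → ∫ o, F 0 o ^ 2 ∂P = 1 → PKM.Gauss4 P F) ∧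
    -- the energy of the plane waves
    (∫ o, F 0 o ^ 2 ∂P = 1 → Integrable (fun o => F 0 o ^ 4) P → ∃ Q : ℝ, 0 ≤ Q ∧
      Tendsto (fun N => ∫ o, PWV.en (fun x => F x o) N ∂P) atTop (𝓝 Q) ∧
      Tendsto (fun N => ∫ o, PWV.loc (fun x => F x o) N ^ 2 ∂P) atTop
        (𝓝 ((∫ o, F 0 o ^ 4 ∂P) / 3 + Q)) ∧
      (Q = 0 ↔ Tendsto (fun N => ∫⁻ o, ⨆ v : ℂ,
        ENNReal.ofReal (‖PWV.coef (fun x => F x o) N v‖ ^ 4) ∂P) atTop (𝓝 0)) ∧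
      (QE.QuantumErgodic ρ φ m → ∫ o, F 0 o ^ 4 ∂P = 3 + 3 * Q ∧
        (∀ x₁ x₂ x₃ : ℂ, ∫ o, F x₁ o * F x₂ o * F x₃ o ∂P = 0) ∧
        ∀ x₁ x₂ x₃ x₄ : ℂ, ∫ o, F x₁ o * F x₂ o * F x₃ o * F x₄ o ∂P
          = waveK (x₁ - x₂) * waveK (x₃ - x₄) + waveK (x₁ - x₃) * waveK (x₂ - x₄)
            + waveK (x₁ - x₄) * waveK (x₂ - x₃)
            + Q * (waveK (x₁ + x₂ - x₃ - x₄) + waveK (x₁ + x₃ - x₂ - x₄)
              + waveK (x₁ + x₄ - x₂ - x₃))) ∧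
      ((∀ z : ℍ, 0 < 1 + z.im ^ 2 * Laplacian.laplacian (fun w : ℂ => ρ (ofComplex w)) z) →
        3 + 3 * Q ≤ ∫ o, F 0 o ^ 4 ∂P ∧ (∫ o, F 0 o ^ 4 ∂P = 3 + 3 * Q ↔ PWV.Equi φ) ∧
        (∫ o, F 0 o ^ 4 ∂P = 3 ↔ PWV.Equi φ ∧ Q = 0))) := by
  obtain ⟨h1, h2, h3, h4⟩ := PKM.end_closed Γ ρ hρ hρΓ D hDm hD hK φ m hφ hs hn Ω P F hF hlaw
  refine ⟨h1, h2, h3, h4, fun hF2 hF4 => ?_⟩
  obtain ⟨-, -, -, Q, q0, q1, q2, q3, q4, q5, -⟩ :=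
    PWV.pwv_closed Γ ρ hρ hρΓ D hDm hD hK φ m hφ hs hn Ω P F hF hlaw hF2 hF4
  exact ⟨Q, q0, q1, q2, q3, q4, fun hneg => ⟨(q5 hneg).1, (q5 hneg).2.1, (q5 hneg).2.2.2⟩⟩
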