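import Pool.Agent.PWV.All
import Pool.Agent.PKM.All
import Pool.Agent.PKM.St3

/-!
# Plane waves in `L²`: the assembly of part (c)
-/

set_option autoImplicit false

open Complex MeasureTheory Filter Topology Set
open UpperHalfPlane hiding I
open scoped ContDiff MatrixGroups ProbabilityTheory ENNReal

namespace PKM

open QE QE.NC QJ U3 NFP BSL

noncomputable section

/-- **no plane waves in `L²`**, all closed oriented surfaces of genus at least two -/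
def StmtEnd2 : Prop :=
  ∀ (Γ : Subgroup SL(2, ℝ)) [Countable Γ] (ρ : ℍ → ℝ),
    ContDiffOn ℝ ∞ (fun w : ℂ => ρ (ofComplex w)) {w | 0 < w.im} →
    (∀ γ ∈ Γ, ∀ z, ρ (γ • z) = ρ z) →
    ∀ D : Set ℍ, MeasurableSet D → IsFundamentalDomain Γ D (volume : Measure ℍ) →
    (∃ K : Set ℍ, IsCompact K ∧ ∀ z, ∃ γ ∈ Γ, γ • z ∈ K) →
    ∀ (φ : ℕ → ℍ → ℝ) (m : ℕ → ℝ), Berry.REigenSeq Γ ρ φ m →
    (∀ n, ContDiffOn ℝ ∞ (fun w : ℂ => φ n (ofComplex w)) {w | 0 < w.im}) →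
    (∀ n, Berry.rAvg ρ D (fun z => φ n z ^ 2) = 1) →
    ∀ (Ω : Type) [MeasurableSpace Ω] (P : Measure Ω) [IsProbabilityMeasure P] (F : ℂ → Ω → ℝ),
    (∀ x, Measurable (F x)) → FLim ρ D φ m P F →
    List.TFAE [
      Gauss4 P F,
      QE.QuantumErgodic ρ φ m ∧ BoxW ρ D φ m,
      QE.QuantumErgodic ρ φ m ∧ NoW ρ D φ m,
      QE.QuantumErgodic ρ φ m ∧ ∫ o, F 0 o ^ 2 ∂P = 1 ∧ ∫ o, F 0 o ^ 4 ∂P = 3] ∧
    ((∀ z : ℍ, 0 < 1 + z.im ^ 2 * Laplacian.laplacian (fun w : ℂ => ρ (ofComplex w)) z) →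
      List.TFAE [
        PWV.Equi φ ∧ BoxW ρ D φ m,
        PWV.Equi φ ∧ NoW ρ D φ m,
        Planck ρ D φ m 0,
        ∫ o, F 0 o ^ 2 ∂P = 1 ∧ ∫ o, F 0 o ^ 4 ∂P = 3])

namespace END2

variable {Γ : Subgroup SL(2, ℝ)} {D : Set ℍ} {ρ : ℍ → ℝ} {φ : ℕ → ℍ → ℝ} {m : ℕ → ℝ}

lemma boxw_of_shift (N : ℕ) (h : BoxW ρ D (fun n => φ (n + N)) (fun n => m (n + N))) :
    BoxW ρ D φ m := by
  intro ε hε
  obtain ⟨N₀, h₀⟩ := h ε hε
  refine ⟨N₀, fun N' hN' => ?_⟩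
  exact (END.ev_shift N (p := fun n => ∫⁻ p, ⨆ v : ℂ, ENNReal.ofReal
      (‖PWV.coef (fun x => Berry.rWave ρ (φ n) (m n) x p) N' v‖ ^ 2) ∂(Berry.rFrameProb ρ D)
      ≤ ENNReal.ofReal ε)).1 (h₀ N' hN')

lemma now_comp {k : ℕ → ℕ} (hk : Tendsto k atTop atTop) (h : NoW ρ D φ m) :
    NoW ρ D (fun n => φ (k n)) (fun n => m (k n)) := by
  intro ε hε
  obtain ⟨r, w, x, h0, h1, h2⟩ := h ε hε
  exact ⟨r, w, x, h0, h1, hk.eventually h2⟩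

lemma qe_comp {k : ℕ → ℕ} (hk : Tendsto k atTop atTop) (h : QE.QuantumErgodic ρ φ m) :
    QE.QuantumErgodic ρ (fun n => φ (k n)) (fun n => m (k n)) := by
  intro ζ a b c i j
  exact (h ζ a b c i j).comp hk

end END2

open CORE FLE END END2 in
/-- **the assembly** -/
theorem t_END2 (hN : StmtNwm) (hC : StmtCnv) (hB : StmtBtn) : StmtEnd2 := by
  intro Γ _ ρ hρ hρΓ D hDm hD hK φ m hφ hs hnorm Ω _ P _ F hFm hF
  have hfac : Fac Γ ρ := ⟨hρ, hρΓ, hK⟩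
  obtain ⟨N, hS⟩ := FLA.exists_sur (Γ := Γ) (D := D) hρ hρΓ hDm hD hK hφ hs hnorm
  have hNt : Tendsto (fun n : ℕ => n + N) atTop atTop := tendsto_add_atTop_nat N
  have hF' := FLA.fLim_comp hF hNt
  have hSame : Same P F := t_STA Γ D ρ _ _ hS Ω P F hFm hF'
  obtain ⟨-, e2, e3, -⟩ := end_closed Γ ρ hρ hρΓ D hDm hD hK φ m hφ hs hnorm Ω P F hFm hF
  have pwv := fun a1 a2 => PWV.pwv_closed Γ ρ hρ hρΓ D hDm hD hK φ m hφ hs hnorm Ω P F hFm hF a1 a2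
  have box : ∫ o, F 0 o ^ 2 ∂P = 1 → Tendsto (fun N => ∫⁻ o, ⨆ v : ℂ,
      ENNReal.ofReal (‖PWV.coef (fun x => F x o) N v‖ ^ 4) ∂P) atTop (𝓝 0) → BoxW ρ D φ m :=
    fun a1 h => boxw_of_shift N (hC Γ D ρ _ _ hS Ω P F hFm hF' hSame a1 h)
  have int4 : ∫ o, F 0 o ^ 4 ∂P = 3 → Integrable (fun o => F 0 o ^ 4) P := by
    intro h
    by_contra hne
    rw [integral_undef hne] at h
    norm_num at h
  have le3 : Integrable (fun o => F 0 o ^ 4) P → 3 ≤ ∫⁻ o, ENNReal.ofReal (F 0 o ^ 4) ∂P →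
      3 ≤ ∫ o, F 0 o ^ 4 ∂P := by
    intro a2 this
    rw [← ofReal_integral_eq_lintegral_ofReal a2 (Eventually.of_forall fun o => by positivity)]
      at this
    have h3' : ENNReal.ofReal 3 ≤ ENNReal.ofReal (∫ o, F 0 o ^ 4 ∂P) := by
      simpa using this
    exact (ENNReal.ofReal_le_ofReal_iff (integral_nonneg fun o => by positivity)).1 h3'
  refine ⟨?_, fun hneg => ?_⟩
  · tfae_have 1 → 2 := by
      intro hG
      obtain ⟨hQ, a1, a3⟩ := (e2.out 0 4 (h₁ := rfl) (h₂ := rfl)).1 hG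
      obtain ⟨-, -, -, Q, q0, q1, q2, q3, q4, q5, tf, -⟩ := pwv a1 (int4 a3)
      have := (tf.out 1 2 (h₁ := rfl) (h₂ := rfl)).1 ⟨hQ, a3⟩
      exact ⟨hQ, box a1 (q3.1 this.2)⟩
    tfae_have 2 → 3 := fun ⟨hQ, h⟩ => ⟨hQ, hB D ρ φ m h⟩
    tfae_have 3 → 4 := by
      rintro ⟨hQ, h⟩
      have hQ' := qe_comp hNt hQ
      have hsem := NQE.sem0 hS.fac.smooth hQ'
      obtain ⟨b1, b2⟩ := nqe_closed ρ _ _ NQE.s0 hS.fac.smooth hS.loc hsem hQ'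
      obtain ⟨a1, a2, a3⟩ := hN Γ D ρ _ _ NQE.s0 hS hsem (b1.mono fun z hz => hz.1) b2
        (now_comp hNt h) Ω P F hFm hF'
      exact ⟨hQ, a1, le_antisymm a3 (le3 a2
        (flq_closed Γ ρ hρ hρΓ D hDm hD hK φ m hφ hs hnorm hQ Ω P F hFm hF a1).1)⟩
    tfae_have 4 → 1 := fun h => (e2.out 4 0 (h₁ := rfl) (h₂ := rfl)).1 h
    tfae_finish
  · tfae_have 1 → 2 := fun ⟨hE, h⟩ => ⟨hE, hB D ρ φ m h⟩
    tfae_have 2 → 4 := by
      rintro ⟨hE, h⟩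
      obtain ⟨j, μ, hj, hμ⟩ := NFP.exist_closed Γ ρ D (fun n => φ n) (fun n => m n)
        inferInstance ⟨hρ, hρΓ, hK⟩ hDm hD hφ hs hnorm
      obtain ⟨N', hS'⟩ := FLA.exists_sur (Γ := Γ) (D := D) hρ hρΓ hDm hD hK
        (reig_comp hφ hj.tendsto_atTop) (fun n => hs _) (fun n => hnorm _)
      have hN' : Tendsto (fun n : ℕ => n + N') atTop atTop := tendsto_add_atTop_nat N'
      have hk : Tendsto (fun n => j (n + N')) atTop atTop := hj.tendsto_atTop.comp hN'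
      have hE' : ∀ ψ : ℂ → ℝ, Test UH (fun z => (ψ z : ℂ)) →
          Tendsto (fun n => ∫ z, ψ z * φ (j (n + N')) (ofComplex z) ^ 2) atTop
            (𝓝 (∫ z, ψ z)) := by
        intro ψ hψ
        have h1 : ContDiff ℝ ∞ ψ := Complex.reCLM.contDiff.comp hψ.smooth
        have h2 : tsupport (fun z : ℂ => (ψ z : ℂ)) = tsupport ψ := ORD.tsup ψ
        have h3 : HasCompactSupport ψ := by
          have := hψ.supp
          unfold HasCompactSupport at this ⊢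
          rwa [← h2]
        exact (hE ψ h1 h3 (h2 ▸ hψ.sub)).comp hk
      obtain ⟨s, hsem, -, hma⟩ := t_DEN ρ _ _ μ hS'.fac.smooth hS'.loc hE'
        (FLA.sem_comp hμ hN')
      have hno := noa_closed Γ D ρ _ _ s hS' hneg hsem UH subset_rfl
      obtain ⟨a1, a2, a3⟩ := hN Γ D ρ _ _ s hS' hsem hma hno (now_comp hk h) Ω P F hFm
        (FLA.fLim_comp hF hk)
      exact ⟨a1, le_antisymm a3 (le3 a2
        (flm_closed Γ ρ hρ hρΓ hneg D hDm hD hK φ m hφ hs hnorm Ω P F hFm hF a1).1)⟩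
    tfae_have 4 → 1 := by
      rintro ⟨a1, a3⟩
      obtain ⟨-, -, -, Q, q0, q1, q2, q3, q4, q5, tf, -⟩ := pwv a1 (int4 a3)
      obtain ⟨r1, r2, r3, r4⟩ := q5 hneg
      obtain ⟨t1, t2⟩ := r4.1 a3
      exact ⟨t1, box a1 (q3.1 t2)⟩
    tfae_have 3 ↔ 4 := e3 hneg
    tfae_finish

end

end PKM
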