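import Pool.Agent.PKM.All

/-!
# Equidistribution at the Planck scale, in measure, and Berry's conjecture up to order four

Let `Γ ⊂ SL(2, ℝ)` be countable with compact quotient `Γ \ ℍ` (fundamental domain `D`), with any metric
`e^{2ρ} (dx² + dy²) / y²`. Let `φₙ` be real smooth `Γ`-invariant Laplace eigenfunctions of this metric,
normalised in `L²`, with eigenvalues `mₙ² → ∞`. Let `Fₙ(x)` be `φₙ` near a uniform random point, in a
uniform random frame, at distances `x / mₙ`, and `K = J₀(|x|)` the covariance function of the random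
monochromatic wave. Let the random field `F` be a limit in law of `Fₙ` (finite-dimensional
distributions). **No bound for the moments of `Fₙ` or `F` is assumed, and mass may be lost in the limit.**

`PKM.Planck ρ D φ m a`: the averages of `Fₙ(x) Fₙ(x + a)` over the disc `|x| < R` tend to `K(a)` in
probability, for `n → ∞` and then `R → ∞`. For `a = 0` this is the equidistribution of the mass `φₙ²` in
almost every disc of radius `R / mₙ`, in measure.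

* If `Planck 0`, then `E F(0)² = 1`, `E F(0)⁴ ≤ 3` and `φₙ² → 1` weakly (`PWV.Equi`): no mass is lost and the
  fourth moment is finite, at most the Gaussian one.
* The following are equivalent: the moments of `F` of orders one to four are those of the random
  monochromatic wave (`PKM.Gauss4`); `Planck a` for every `a`; `Planck 0` and `Planck a` for one `a ≠ 0`;
  `φₙ` is quantum ergodic and `Planck 0`; `φₙ` is quantum ergodic, `E F(0)² = 1` and `E F(0)⁴ = 3`.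
* In negative curvature `Planck 0` holds if and only if `E F(0)² = 1` and `E F(0)⁴ = 3`. And if
  `E F(0)² = 1`, then `E F(0)⁴ ≥ 3` (it may be infinite), and if it is finite, the moments of orders one,
  two and three are those of the random monochromatic wave; `E T⁴ ≥ 3 τ⁴` for all `T = ∑ cᵢ F(xᵢ)`,
  `τ² = ∑ cᵢ cⱼ K(xᵢ - xⱼ)`, and `E F(x)² F(y)² ≥ 1 + 2 K(x - y)²`; `limsup (avg (w φₙ²) - avg w)²
  ≤ (E F(0)⁴ - 3) / 3 * (avg w² - (avg w)²)` for continuous `w`; and equality for one `T` with distinct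
  points and at least two `cᵢ ≠ 0`, or for one pair `x ≠ y`, implies quantum ergodicity and `PKM.Gauss4`.
* If the law of `F` is invariant and ergodic under translations and `E F(0)² = 1`, then `PKM.Gauss4`.
-/

open MeasureTheory UpperHalfPlane MatrixGroups Berry Filter Topology
open scoped ContDiff

theorem Pool.Agent.PKM.planck_scale_draft
    (Γ : Subgroup SL(2, ℝ)) [Countable Γ] (ρ : ℍ → ℝ)
    (hρ : ContDiffOn ℝ ∞ (fun w : ℂ => ρ (ofComplex w)) {w | 0 < w.im})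
    (hρΓ : ∀ γ ∈ Γ, ∀ z, ρ (γ • z) = ρ z)
    (D : Set ℍ) (hDm : MeasurableSet D) (hD : IsFundamentalDomain Γ D (volume : Measure ℍ))
    (hK : ∃ K : Set ℍ, IsCompact K ∧ ∀ z, ∃ γ ∈ Γ, γ • z ∈ K)
    (φ : ℕ → ℍ → ℝ) (m : ℕ → ℝ) (hφ : REigenSeq Γ ρ φ m)
    (hs : ∀ n, ContDiffOn ℝ ∞ (fun w : ℂ => φ n (ofComplex w)) {w | 0 < w.im})
    (hn : ∀ n, rAvg ρ D (fun z => φ n z ^ 2) = 1)
    (Ω : Type) [MeasurableSpace Ω] (P : Measure Ω) [IsProbabilityMeasure P] (F : ℂ → Ω → ℝ)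
    (hF : ∀ x, Measurable (F x))
    (hlaw : ∀ (r : ℕ) (x : Fin r → ℂ) (G : (Fin r → ℝ) → ℝ), Continuous G →
      (∃ C, ∀ t, |G t| ≤ C) →
      Tendsto (fun n => ∫ p, G (fun i => rWave ρ (φ n) (m n) (x i) p) ∂(rFrameProb ρ D))
        atTop (𝓝 (∫ o, G (fun i => F (x i) o) ∂P))) :
    (PKM.Planck ρ D φ m 0 → ∫ o, F 0 o ^ 2 ∂P = 1 ∧ Integrable (fun o => F 0 o ^ 4) P ∧
      ∫ o, F 0 o ^ 4 ∂P ≤ 3 ∧ PWV.Equi φ) ∧
    List.TFAE [
      PKM.Gauss4 P F,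
      ∀ a : ℂ, PKM.Planck ρ D φ m a,
      PKM.Planck ρ D φ m 0 ∧ ∃ a : ℂ, a ≠ 0 ∧ PKM.Planck ρ D φ m a,
      QE.QuantumErgodic ρ φ m ∧ PKM.Planck ρ D φ m 0,
      QE.QuantumErgodic ρ φ m ∧ ∫ o, F 0 o ^ 2 ∂P = 1 ∧ ∫ o, F 0 o ^ 4 ∂P = 3] ∧
    ((∀ z : ℍ, 0 < 1 + z.im ^ 2 * Laplacian.laplacian (fun w : ℂ => ρ (ofComplex w)) z) →
      (PKM.Planck ρ D φ m 0 ↔ ∫ o, F 0 o ^ 2 ∂P = 1 ∧ ∫ o, F 0 o ^ 4 ∂P = 3) ∧
      (∫ o, F 0 o ^ 2 ∂P = 1 → 3 ≤ ∫⁻ o, ENNReal.ofReal (F 0 o ^ 4) ∂P ∧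
        (Integrable (fun o => F 0 o ^ 4) P →
          (∀ x : ℂ, Integrable (F x) P ∧ ∫ o, F x o ∂P = 0) ∧
          (∀ x y : ℂ, Integrable (fun o => F x o * F y o) P ∧
            ∫ o, F x o * F y o ∂P = waveK (x - y)) ∧
          (∀ x y z : ℂ, Integrable (fun o => F x o * F y o * F z o) P ∧
            ∫ o, F x o * F y o * F z o ∂P = 0) ∧
          (∀ (r : ℕ) (c : Fin r → ℝ) (x : Fin r → ℂ),
            Integrable (fun o => (∑ i, c i * F (x i) o) ^ 4) P ∧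
            3 * (∑ i, ∑ j, c i * c j * waveK (x i - x j)) ^ 2
              ≤ ∫ o, (∑ i, c i * F (x i) o) ^ 4 ∂P) ∧
          (∀ x y : ℂ, Integrable (fun o => F x o ^ 2 * F y o ^ 2) P ∧
            1 + 2 * waveK (x - y) ^ 2 ≤ ∫ o, F x o ^ 2 * F y o ^ 2 ∂P) ∧
          (∀ w : ℍ → ℝ, Continuous w → (∀ γ ∈ Γ, ∀ z, w (γ • z) = w z) → ∀ ε > 0,
            ∀ᶠ n in atTop, (rAvg ρ D (fun z => w z * φ n z ^ 2) - rAvg ρ D w) ^ 2
              ≤ ((∫ o, F 0 o ^ 4 ∂P) - 3) / 3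
                * (rAvg ρ D (fun z => w z ^ 2) - rAvg ρ D w ^ 2) + ε) ∧
          ((∃ x y : ℂ, x ≠ y ∧
              ∫ o, F x o ^ 2 * F y o ^ 2 ∂P = 1 + 2 * waveK (x - y) ^ 2) ∨
            (∃ (r : ℕ) (c : Fin r → ℝ) (x : Fin r → ℂ), Function.Injective x ∧
              (∃ i j, i ≠ j ∧ c i ≠ 0 ∧ c j ≠ 0) ∧ ∫ o, (∑ i, c i * F (x i) o) ^ 4 ∂P
                = 3 * (∑ i, ∑ j, c i * c j * waveK (x i - x j)) ^ 2) →
            QE.QuantumErgodic ρ φ m ∧ PKM.Gauss4 P F)))) ∧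
    (BSL.Ergo P F → ∫ o, F 0 o ^ 2 ∂P = 1 → PKM.Gauss4 P F) := by
  obtain ⟨h1, h2, h3, h4⟩ := PKM.end_closed Γ ρ hρ hρΓ D hDm hD hK φ m hφ hs hn Ω P F hF hlaw
  refine ⟨h1, h2, fun hneg => ⟨h3 hneg, fun a1 => ?_⟩, h4⟩
  obtain ⟨g1, g2⟩ :=
    BSL.flm_closed Γ ρ hρ hρΓ hneg D hDm hD hK φ m hφ hs hn Ω P F hF hlaw a1
  refine ⟨g1, fun a2 => ?_⟩
  obtain ⟨b1, b2, b3, b4, b5, b6, b7⟩ := g2 a2
  refine ⟨b1, b2, b3, b4, b5, b6, fun h => ?_⟩
  obtain ⟨hQ, c4⟩ := b7 h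
  have i4 := (BSL.flq_closed Γ ρ hρ hρΓ D hDm hD hK φ m hφ hs hn hQ Ω P F hF hlaw a1).2 a2
  obtain ⟨-, -, e3, -⟩ := BSL.fle_closed Γ ρ hρ hρΓ D hDm hD hK φ m hφ hs hn Ω P F hF hlaw a1 a2
  exact ⟨hQ, b1, b2, b3, fun x₁ x₂ x₃ x₄ => ⟨e3 x₁ x₂ x₃ x₄, c4 x₁ x₂ x₃ x₄⟩⟩
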