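import Pool.Agent.PKM.St1
import Pool.Agent.BSL.ERG

/-!
# ER1: the mean ergodic theorem in `L¹` for the products `F(x) F(x + a)` (helper10)
-/

open Complex MeasureTheory Filter Topology Set
open UpperHalfPlane hiding I
open scoped ContDiff MatrixGroups ProbabilityTheory ENNReal

namespace PKM

open QE QE.NC QJ U3 NFP BSL

noncomputable section

namespace ER1

/-- truncation -/
def ch (Λ u : ℝ) : ℝ := max (-Λ) (min u Λ)

lemma ch_cont (Λ : ℝ) : Continuous (ch Λ) :=
  continuous_const.max (continuous_id.min continuous_const)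

lemma ch_abs {Λ : ℝ} (h : 0 ≤ Λ) (u : ℝ) : |ch Λ u| ≤ Λ :=
  abs_le.2 ⟨le_max_left _ _, max_le (by linarith) (min_le_right _ _)⟩

lemma ch_eq {Λ u : ℝ} (h : |u| ≤ Λ) : ch Λ u = u := by
  obtain ⟨h1, h2⟩ := abs_le.1 h
  unfold ch
  rw [min_eq_left h2, max_eq_right h1]

lemma ch_diff {Λ : ℝ} (h : 0 ≤ Λ) (u : ℝ) : |u - ch Λ u| ≤ |u| := by
  rcases le_or_gt |u| Λ with h1 | h1
  · rw [ch_eq h1, sub_self, abs_zero]
    exact abs_nonneg _
  · rcases le_total 0 u with h2 | h2
    · rw [abs_of_nonneg h2] at h1 ⊢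
      have h3 : ch Λ u = Λ := by
        unfold ch
        rw [min_eq_right h1.le, max_eq_right (by linarith)]
      rw [h3, abs_of_nonneg (by linarith)]
      linarith
    · rw [abs_of_nonpos h2] at h1 ⊢
      have h3 : ch Λ u = -Λ := by
        unfold ch
        rw [min_eq_left (by linarith), max_eq_left (by linarith)]
      rw [h3, abs_of_nonpos (by linarith)]
      linarith

/-- the truncation converges in `L¹` -/
lemma trunc {Ω : Type} [MeasurableSpace Ω] (P : Measure Ω) {p : Ω → ℝ} (hp : Measurable p)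
    (hi : Integrable p P) {δ : ℝ} (hδ : 0 < δ) :
    ∃ Λ : ℕ, ∫ o, |p o - ch Λ (p o)| ∂P ≤ δ := by
  have h1 : Tendsto (fun n : ℕ => ∫ o, |p o - ch n (p o)| ∂P) atTop (𝓝 (∫ _, (0 : ℝ) ∂P)) := by
    refine tendsto_integral_of_dominated_convergence (fun o => |p o|) ?_ hi.abs ?_ ?_
    · intro n
      exact ((hp.sub ((ch_cont n).measurable.comp hp)).abs).aestronglyMeasurable
    · intro n
      refine Eventually.of_forall fun o => ?_
      rw [Real.norm_eq_abs, abs_abs]
      exact ch_diff (Nat.cast_nonneg n) _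
    · refine Eventually.of_forall fun o => ?_
      refine tendsto_const_nhds.congr' ?_
      obtain ⟨N, hN⟩ := exists_nat_ge |p o|
      filter_upwards [eventually_ge_atTop N] with n hn
      rw [ch_eq (hN.trans (Nat.cast_le.2 hn)), sub_self, abs_zero]
  rw [integral_zero] at h1
  obtain ⟨n, hn⟩ := (h1.eventually (gt_mem_nhds hδ)).exists
  exact ⟨n, hn.le⟩

end ER1

open ER1 in
theorem t_ER1 : StmtEr1 := by
  intro Ω _ P _ F hF hE hI a ε hε
  have hprod : ∀ b c : ℂ, Integrable (fun o => F b o * F c o) P := by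
    intro b c
    have h1 := (memLp_two_iff_integrable_sq (hF b).aestronglyMeasurable).2 (hI b)
    have h2 := (memLp_two_iff_integrable_sq (hF c).aestronglyMeasurable).2 (hI c)
    exact h1.integrable_mul h2
  have hpm : ∀ b c : ℂ, Measurable (fun o => F b o * F c o) := fun b c => (hF b).mul (hF c)
  have hδ : 0 < ε / 3 := by positivity
  obtain ⟨Λ, hΛ⟩ := trunc P (hpm 0 a) (hprod 0 a) hδ
  have hΛ0 : (0 : ℝ) ≤ Λ := Nat.cast_nonneg Λ
  let Φ : Ω → ℂ → ℝ := fun o x => F x o
  have hΦ : Measurable Φ := measurable_pi_lambda _ hF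
  let T : ℂ → (ℂ → ℝ) → (ℂ → ℝ) := fun b u x => u (x + b)
  have hTm : ∀ b, Measurable (T b) := fun b => measurable_pi_lambda _ fun x => measurable_pi_apply (x + b)
  have hμ : IsProbabilityMeasure (Measure.map Φ P) := Measure.isProbabilityMeasure_map hΦ.aemeasurable
  have hT : ∀ b, MeasurePreserving (T b) (Measure.map Φ P) (Measure.map Φ P) := by
    intro b
    refine ⟨hTm b, ?_⟩
    rw [Measure.map_map (hTm b) hΦ]
    exact hE.stat b
  have hTT : ∀ x b, T x ∘ T b = T (x + b) := by
    intro x b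
    funext u y
    show u (y + x + b) = u (y + (x + b))
    rw [add_assoc]
  let g : (ℂ → ℝ) → ℝ := fun u => ch Λ (u 0 * u a)
  have hgm : Measurable g :=
    (ch_cont Λ).measurable.comp ((measurable_pi_apply _).mul (measurable_pi_apply _))
  have hg : MemLp g 2 (Measure.map Φ P) :=
    MemLp.of_bound hgm.aestronglyMeasurable Λ (Eventually.of_forall fun u => by
      rw [Real.norm_eq_abs]
      exact ch_abs hΛ0 _)
  obtain ⟨r, c, x, hc1, hc0, h⟩ := BSL.ERG.met (Measure.map Φ P) T hT hTT hg (by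
    intro A hA hinv
    have h1 := hE.erg A hA (fun b => ae_of_ae_map hΦ.aemeasurable (hinv b))
    have h2 : MeasurableSet (Φ ⁻¹' A) := hΦ hA
    have h3 : P (Φ ⁻¹' A) = 0 ∨ P (Φ ⁻¹' A) = 1 := h1
    rcases h3 with h3 | h3
    · right
      refine (ae_map_iff hΦ.aemeasurable (p := fun y => y ∉ A) hA.compl).2 ?_
      rw [ae_iff]
      have e : {o | ¬ Φ o ∉ A} = Φ ⁻¹' A := by
        ext o
        exact not_not
      rw [e]
      exact h3
    · left
      refine (ae_map_iff hΦ.aemeasurable (p := fun y => y ∈ A) hA).2 ?_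
      exact (prob_compl_eq_zero_iff h2).2 h3) ((ε / 3) ^ 2) (by positivity)
  refine ⟨r, c, x, hc0, hc1, ?_⟩
  set G0 : ℝ := ∫ o, ch Λ (F 0 o * F a o) ∂P with hG0
  set E0 : ℝ := ∫ o, F 0 o * F a o ∂P with hE0
  have e1 : ∫ y, g y ∂(Measure.map Φ P) = G0 :=
    integral_map hΦ.aemeasurable hgm.aestronglyMeasurable
  have hm : Measurable fun y : ℂ → ℝ => (∑ i, c i * g (T (x i) y) - G0) ^ 2 := by
    refine Measurable.pow_const ?_ 2
    refine Measurable.sub_const ?_ _
    exact Finset.measurable_fun_sum _ fun i _ => (hgm.comp (hTm (x i))).const_mul _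
  rw [e1, integral_map hΦ.aemeasurable hm.aestronglyMeasurable] at h
  -- the truncated average
  let q : Fin r → Ω → ℝ := fun i o => ch Λ (F (x i) o * F (x i + a) o)
  have hq : ∀ i o, g (T (x i) (Φ o)) = q i o := by
    intro i o
    show ch Λ (F (0 + x i) o * F (a + x i) o) = ch Λ (F (x i) o * F (x i + a) o)
    rw [zero_add, add_comm a]
  have hqm : ∀ i, Measurable (q i) := fun i => (ch_cont Λ).measurable.comp (hpm _ _)
  have hqi : ∀ i, Integrable (q i) P := fun i =>
    Integrable.of_bound (hqm i).aestronglyMeasurable Λ (Eventually.of_forall fun o => by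
      rw [Real.norm_eq_abs]
      exact ch_abs hΛ0 _)
  let D : Ω → ℝ := fun o => ∑ i, c i * q i o - G0
  have hDm : Measurable D :=
    (Finset.measurable_fun_sum _ fun i _ => (hqm i).const_mul _).sub_const _
  have hDi : Integrable D P :=
    (integrable_finsetSum _ fun i _ => (hqi i).const_mul _).sub (integrable_const _)
  have hGb : |G0| ≤ Λ := by
    have h1 := norm_integral_le_of_norm_le_const (μ := P) (C := (Λ : ℝ))
      (f := fun o => ch Λ (F 0 o * F a o)) (Eventually.of_forall fun o => by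
        rw [Real.norm_eq_abs]
        exact ch_abs hΛ0 _)
    rw [Real.norm_eq_abs, probReal_univ, mul_one] at h1
    exact h1
  have hDb : ∀ o, |D o| ≤ 2 * Λ := by
    intro o
    have h1 : |∑ i, c i * q i o| ≤ Λ := by
      refine (Finset.abs_sum_le_sum_abs _ _).trans ?_
      have h2 : ∀ i ∈ (Finset.univ : Finset (Fin r)), |c i * q i o| ≤ c i * Λ := by
        intro i _
        rw [abs_mul, abs_of_nonneg (hc0 i)]
        exact mul_le_mul_of_nonneg_left (ch_abs hΛ0 _) (hc0 i)
      refine (Finset.sum_le_sum h2).trans ?_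
      rw [← Finset.sum_mul, hc1, one_mul]
    calc |D o| ≤ |∑ i, c i * q i o| + |G0| := abs_sub _ _
      _ ≤ Λ + Λ := add_le_add h1 hGb
      _ = 2 * Λ := by ring
  have hD2i : Integrable (fun o => D o ^ 2) P :=
    Integrable.of_bound (hDm.pow_const 2).aestronglyMeasurable ((2 * Λ) ^ 2)
      (Eventually.of_forall fun o => by
        rw [Real.norm_eq_abs, abs_pow]
        exact pow_le_pow_left₀ (abs_nonneg _) (hDb o) 2)
  have hD2 : ∫ o, D o ^ 2 ∂P ≤ (ε / 3) ^ 2 := by
    refine le_trans (le_of_eq ?_) h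
    refine integral_congr_ae (Eventually.of_forall fun o => ?_)
    show (∑ i, c i * q i o - G0) ^ 2 = (∑ i, c i * g (T (x i) (Φ o)) - G0) ^ 2
    simp only [hq]
  have hD1 : ∫ o, |D o| ∂P ≤ ε / 3 := by
    have h1 : ∀ o, |D o| ≤ (ε / 3)⁻¹ / 2 * D o ^ 2 + ε / 3 / 2 := by
      intro o
      have h2 : 0 ≤ (|D o| - ε / 3) ^ 2 := sq_nonneg _
      have h3 : |D o| * (2 * (ε / 3)) ≤ D o ^ 2 + (ε / 3) ^ 2 := by
        rw [← sq_abs (D o)]
        nlinarith
      have h4 : (ε / 3)⁻¹ / 2 * D o ^ 2 + ε / 3 / 2 =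
          (D o ^ 2 + (ε / 3) ^ 2) / (2 * (ε / 3)) := by
        field_simp
      rw [h4, le_div_iff₀ (by positivity)]
      exact h3
    have h5 := integral_mono (μ := P) hDi.abs
      ((hD2i.const_mul ((ε / 3)⁻¹ / 2)).add (integrable_const (ε / 3 / 2))) h1
    refine h5.trans ?_
    rw [integral_add' (hD2i.const_mul _) (integrable_const _), integral_const_mul, integral_const,
      probReal_univ, one_smul]
    have h6 : (ε / 3)⁻¹ / 2 * ∫ o, D o ^ 2 ∂P ≤ (ε / 3)⁻¹ / 2 * (ε / 3) ^ 2 :=
      mul_le_mul_of_nonneg_left hD2 (by positivity)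
    have h7 : (ε / 3)⁻¹ / 2 * (ε / 3) ^ 2 + ε / 3 / 2 = ε / 3 := by
      field_simp
      ring
    linarith
  -- stationarity
  let k : (ℂ → ℝ) → ℝ := fun u => |u 0 * u a - ch Λ (u 0 * u a)|
  have hkm : Measurable k := by
    have h1 : Measurable fun u : ℂ → ℝ => u 0 * u a :=
      (measurable_pi_apply _).mul (measurable_pi_apply _)
    exact (h1.sub ((ch_cont Λ).measurable.comp h1)).abs
  have hstat : ∀ i, ∫ o, |F (x i) o * F (x i + a) o - q i o| ∂P ≤ ε / 3 := by
    intro i
    have h1 : ∫ u, k u ∂(Measure.map (fun o y => F (y + x i) o) P) =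
        ∫ u, k u ∂(Measure.map (fun o y => F y o) P) := by rw [hE.stat]
    have hm1 : Measurable (fun (o : Ω) (y : ℂ) => F (y + x i) o) :=
      measurable_pi_lambda _ fun y => hF _
    rw [integral_map hm1.aemeasurable hkm.aestronglyMeasurable,
      integral_map hΦ.aemeasurable hkm.aestronglyMeasurable] at h1
    refine le_trans (le_of_eq ?_) (h1.le.trans hΛ)
    refine integral_congr_ae (Eventually.of_forall fun o => ?_)
    show |F (x i) o * F (x i + a) o - ch Λ (F (x i) o * F (x i + a) o)| =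
      |F (0 + x i) o * F (a + x i) o - ch Λ (F (0 + x i) o * F (a + x i) o)|
    rw [zero_add, add_comm a]
  have hdi : ∀ i, Integrable (fun o => |F (x i) o * F (x i + a) o - q i o|) P := fun i =>
    ((hprod _ _).sub (hqi i)).abs
  -- the constants
  have hGE : |G0 - E0| ≤ ε / 3 := by
    have h0i : Integrable (fun o => ch Λ (F 0 o * F a o)) P :=
      Integrable.of_bound ((ch_cont Λ).measurable.comp (hpm 0 a)).aestronglyMeasurable Λ
        (Eventually.of_forall fun o => by
          rw [Real.norm_eq_abs]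
          exact ch_abs hΛ0 _)
    have h1 : E0 - G0 = ∫ o, (F 0 o * F a o - ch Λ (F 0 o * F a o)) ∂P := by
      rw [integral_sub (hprod 0 a) h0i]
    rw [abs_sub_comm, h1]
    exact (abs_integral_le_integral_abs).trans hΛ
  -- the end
  have hpt : ∀ o, |∑ i, c i * (F (x i) o * F (x i + a) o) - E0| ≤
      (∑ i, c i * |F (x i) o * F (x i + a) o - q i o|) + |D o| + ε / 3 := by
    intro o
    have h1 : ∑ i, c i * (F (x i) o * F (x i + a) o) - E0 =
        (∑ i, c i * (F (x i) o * F (x i + a) o - q i o)) + D o + (G0 - E0) := by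
      show _ = _ + (∑ i, c i * q i o - G0) + (G0 - E0)
      simp only [mul_sub, Finset.sum_sub_distrib]
      ring
    rw [h1]
    refine (abs_add_three _ _ _).trans ?_
    refine add_le_add (add_le_add ?_ le_rfl) hGE
    refine (Finset.abs_sum_le_sum_abs _ _).trans (le_of_eq ?_)
    refine Finset.sum_congr rfl fun i _ => ?_
    rw [abs_mul, abs_of_nonneg (hc0 i)]
  have hsi : Integrable (fun o => ∑ i, c i * |F (x i) o * F (x i + a) o - q i o|) P :=
    integrable_finsetSum _ fun i _ => (hdi i).const_mul _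
  have hLi : Integrable (fun o => |∑ i, c i * (F (x i) o * F (x i + a) o) - E0|) P :=
    ((integrable_finsetSum _ fun i _ => (hprod _ _).const_mul _).sub (integrable_const _)).abs
  refine (integral_mono hLi ((hsi.add hDi.abs).add (integrable_const (ε / 3))) hpt).trans ?_
  have hA : ∫ o, ∑ i, c i * |F (x i) o * F (x i + a) o - q i o| ∂P ≤ ε / 3 := by
    rw [integral_finsetSum _ fun i _ => (hdi i).const_mul _]
    have h1 : ∀ i ∈ (Finset.univ : Finset (Fin r)),
        ∫ o, c i * |F (x i) o * F (x i + a) o - q i o| ∂P ≤ c i * (ε / 3) := by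
      intro i _
      rw [integral_const_mul]
      exact mul_le_mul_of_nonneg_left (hstat i) (hc0 i)
    refine (Finset.sum_le_sum h1).trans ?_
    rw [← Finset.sum_mul, hc1, one_mul]
  have hfin : ∫ o, ((∑ i, c i * |F (x i) o * F (x i + a) o - q i o|) + |D o| + ε / 3) ∂P =
      ∫ o, ∑ i, c i * |F (x i) o * F (x i + a) o - q i o| ∂P + ∫ o, |D o| ∂P + ε / 3 := by
    have hA' : Integrable (fun o => (∑ i, c i * |F (x i) o * F (x i + a) o - q i o|) + |D o|) P :=
      hsi.add hDi.abs
    rw [integral_add hA' (integrable_const _), integral_add hsi hDi.abs,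
      integral_const, probReal_univ, one_smul]
  show ∫ o, ((∑ i, c i * |F (x i) o * F (x i + a) o - q i o|) + |D o| + ε / 3) ∂P ≤ ε
  rw [hfin]
  linarith

end

end PKM
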