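import Pool.Agent.BSL.St5
import Pool.Agent.BSL.StmtsT

/-!
# Planck scale equidistribution in measure (MP_4fa179_mp): definitions and statements

`Γ`, `D`, `ρ`, `φ`, `m`, `F` as in `BSL` (see `BSL/St2.lean` for `Sur`, `CutF`, `Sem`, `FLim`, `um`,
`ma`, `hh`, `ph`). `Fₙ` is the local wave `Berry.rWave ρ (φ n) (m n)` under `Berry.rFrameProb ρ D`, `K`
is `Berry.waveK`. **No bound for fourth moments and no conservation of mass is assumed.**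

Lemma FM (the key): if `1` is a limit in probability of convex combinations `∑ c_i F(x_i)²` then
`E F(0)² = 1` and `E F(0)⁴ < ∞`.

Each step is a `Prop`; a module proves one of them, possibly from others taken as hypotheses. The
proofs are given in the doc strings. `C` are constants which do not depend on `n`.
-/

open Complex MeasureTheory Filter Topology Set
open UpperHalfPlane hiding I
open scoped ContDiff MatrixGroups ProbabilityTheory ENNReal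

namespace PKM

open QE QE.NC QJ U3 NFP BSL

noncomputable section

/-! ### Definitions -/

/-- the law of large numbers, in probability, for the variables `F(x) F(x + a)`: the constant `K(a)` is
a limit in probability of convex combinations -/
def LLN {Ω : Type} [MeasurableSpace Ω] (P : Measure Ω) (F : ℂ → Ω → ℝ) (a : ℂ) : Prop :=
  ∀ ε > 0, ∃ (r : ℕ) (c : Fin r → ℝ) (x : Fin r → ℂ), (∀ i, 0 ≤ c i) ∧ ∑ i, c i = 1 ∧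
    P.real {o | ε < |∑ i, c i * (F (x i) o * F (x i + a) o) - Berry.waveK a|} ≤ ε

/-- **Planck scale equidistribution in measure**: for `n → ∞` and then `R → ∞` the averages of
`Fₙ(x) Fₙ(x + a)` over the discs of radius `R` (on the scale of the wavelength) tend to `K(a)` in
probability. For `a = 0`: the averages of `φₙ²` over almost all balls of radius `R / mₙ` tend to `1`. -/
def Planck (ρ : ℍ → ℝ) (D : Set ℍ) (φ : ℕ → ℍ → ℝ) (m : ℕ → ℝ) (a : ℂ) : Prop :=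
  ∀ ε > 0, ∃ R₀ : ℝ, ∀ R ≥ R₀, ∀ᶠ n in atTop, (Berry.rFrameProb ρ D).real
    {p | ε < |Berry.spatialAvg (Berry.rWave ρ (φ n) (m n)) a R p - Berry.waveK a|} ≤ ε

/-- the laws of the values of the field at a point do not depend on the point -/
def Same {Ω : Type} [MeasurableSpace Ω] (P : Measure Ω) (F : ℂ → Ω → ℝ) : Prop :=
  ∀ (x : ℂ) (G : ℝ → ℝ) (C : ℝ), (∀ s t, |G s - G t| ≤ C * |s - t|) → (∀ t, |G t| ≤ C) →
    ∫ o, G (F x o) ∂P = ∫ o, G (F 0 o) ∂P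

/-- the sum of the weights of the even jets in the mean square of the value at `x` -/
def wEv (N : ℕ) (x : ℂ) : ℝ :=
  ∑ j ∈ (Finset.Icc (-(N : ℤ)) N).filter (fun j => Even j), ‖kap1 N j x‖ ^ 2

/-! ### A. The key lemma -/

/-- PRB: from the law of large numbers for `F` to `Fₙ`.
Proof. Let `0 < ε ≤ 1`; LLN with `ε / 20` gives `r, c, x`. Put `Qₙ = ∑ c_i Fₙ(x_i)² ≥ 0` and
`G(t) = min |∑ c_i t_i² - 1| 1`, bounded and continuous. `FLim`: `Eₙ G(Fₙ(x)) → E G(F(x))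
≤ ε / 20 + P{|Q - 1| > ε / 20} ≤ ε / 10` (`F (x i + 0) = F (x i)`, `waveK_zero`), so `Eₙ G ≤ ε / 8` for
large `n`. `Eₙ Qₙ → 1`: `ORD.pts` (second part, `ψ = ζ`, `x = ![x i, x i]`, `waveK 0 = 1`), `ORD.mass`,
and `∫ ζ angProd = rAvg (angProd) = ∫ (product of the waves) d rFrameProb` (`CutF.int`, `angProd_inv`,
Fubini; compare `BSL/UIF.lean`). As `Qₙ ≥ 0`, `(1 - Qₙ)₊ ≤ min |Qₙ - 1| 1`, so
`Eₙ |Qₙ - 1| = Eₙ (Qₙ - 1) + 2 Eₙ (1 - Qₙ)₊ ≤ ε / 2 + ε / 4`. The waves are continuous and bounded for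
large `n` (`UIF.wc`, `φ n` is invariant and continuous, `Berry.bdd_of_cocompact`). Second claim: for the
CutF `ζ`, `∫ ζ |∑ c_i angProd(x_i, x_i) - 1| = rAvg |∑ c_i angProd(x_i, x_i) - 1| ≤ Eₙ |Qₙ - 1|`
(`|∫ f ∂ang - 1| ≤ ∫ |f - 1| ∂ang`). -/
def StmtPrb : Prop :=
  ∀ (Γ : Subgroup SL(2, ℝ)) [Countable Γ] (D : Set ℍ) (ρ : ℍ → ℝ) (φ : ℕ → ℍ → ℝ) (m : ℕ → ℝ),
    Sur Γ D ρ φ m → ∀ (Ω : Type) [MeasurableSpace Ω] (P : Measure Ω) [IsProbabilityMeasure P]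
    (F : ℂ → Ω → ℝ), (∀ x, Measurable (F x)) → FLim ρ D φ m P F → LLN P F 0 →
    ∀ ζ : ℂ → ℝ, CutF Γ D ρ ζ → ∀ ε > 0, ∃ (r : ℕ) (c : Fin r → ℝ) (x : Fin r → ℂ),
      (∀ i, 0 ≤ c i) ∧ ∑ i, c i = 1 ∧
      (∀ᶠ n in atTop, ∫ p, |∑ i, c i * Berry.rWave ρ (φ n) (m n) (x i) p ^ 2 - 1|
        ∂(Berry.rFrameProb ρ D) ≤ ε) ∧
      ∀ᶠ n in atTop, ∫ z, ζ z * |∑ i, c i * angProd ρ (φ n) (m n) (fun _ : Fin 2 => x i)
        (ofComplex z) - 1| ≤ ε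

/-- EQD: the mass is equidistributed.
Proof (from `StmtPrb`, `StmtCut` = `BSL.t_CUT`). Let `ψ` be given, `K` its support, `|ψ| ≤ B`. By `loc_le`
(C13:3156) or `bdd_of_rAvg` (C44:289) there is `C` with `∫_K f(ofComplex z) ≤ C rAvg f` for continuous
invariant `f ≥ 0`. For `ε > 0` take `r, c, x` from PRB and `f = |∑ c_i angProd(x_i, x_i) - 1|`
(continuous for large `n`, `angProd_continuous` C13:3217-3240; invariant, `angProd_inv`), for which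
`rAvg f = ∫ ζ f ≤ ε` (`CutF.int`). So `|∫ ψ ∑ c_i angProd(x_i, x_i) - ∫ ψ| ≤ B C ε` for large `n`. And
`∫ ψ angProd(x_i, x_i) - ∫ ψ φₙ² → 0` by `ORD.pts` for the test function `ψ`. Hence
`limsup |∫ ψ φₙ² - ∫ ψ| ≤ B C ε` for all `ε`. -/
def StmtEqd : Prop :=
  ∀ (Γ : Subgroup SL(2, ℝ)) [Countable Γ] (D : Set ℍ) (ρ : ℍ → ℝ) (φ : ℕ → ℍ → ℝ) (m : ℕ → ℝ),
    Sur Γ D ρ φ m → ∀ (Ω : Type) [MeasurableSpace Ω] (P : Measure Ω) [IsProbabilityMeasure P]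
    (F : ℂ → Ω → ℝ), (∀ x, Measurable (F x)) → FLim ρ D φ m P F → LLN P F 0 →
    ∀ ψ : ℂ → ℝ, Test UH (fun z => (ψ z : ℂ)) →
      Tendsto (fun n => ∫ z, ψ z * φ n (ofComplex z) ^ 2) atTop (𝓝 (∫ z, ψ z))

/-- DEN: the semiclassical measure of a sequence with equidistributed mass.
Proof. As `t_STR` (`BSL/STR.lean`) from the comment `the identity for test functions` on, with `u = 1`:
`STR.mass` gives `∫ ζ(p) (Im z)² e^{-2ρ(z)} dμ = lim ∫ ζ φₙ²` for complex test functions `ζ` on `UH`,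
which is `∫ ζ` by hypothesis (apply it to the real and imaginary parts of `ζ`). Then `NFP.marg`
(`StmtMarg`) and `NFP.ker` (`StmtKer`) give `s` with `μ = (area ρ) ⊗ₘ s` and `ma s z = u z = 1` a.e. -/
def StmtDen : Prop :=
  ∀ (ρ : ℍ → ℝ) (φ : ℕ → ℍ → ℝ) (m : ℕ → ℝ) (μ : Measure (ℍ × S1)),
    ContDiffOn ℝ ∞ (ro ρ) UH → LocU UH (gr ρ) (hh m) (ph φ) →
    (∀ ψ : ℂ → ℝ, Test UH (fun z => (ψ z : ℂ)) →
      Tendsto (fun n => ∫ z, ψ z * φ n (ofComplex z) ^ 2) atTop (𝓝 (∫ z, ψ z))) →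
    Semiclassical ρ φ m μ → ∃ s : ProbabilityTheory.Kernel ℍ S1, Sem ρ φ m s ∧
      μ = (Berry.area ρ) ⊗ₘ s ∧ ∀ᵐ z ∂((volume : Measure ℂ).restrict UH), ma s z = 1

/-- JBD: the differences `‖E_0‖² - ‖E_j‖²`, `j` even, are bounded in `L²`, although no bound for the
fourth moments is assumed.
Proof. Write `h = hh m`, `μ = (area ρ) ⊗ₘ s`. `‖E_j‖² = E_j E_{-j}` for even `j` (`conj_EB`), so the left
side is the real part of `E4 0 0 0 0 - 2 E4 0 0 j (-j) + E4 j (-j) j (-j)`. `CRM.main` (with `S.fac`,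
`S.loc`, `S.eig.invariant`, `Sem.sem`) gives `ϖ` with `Crossing ρ μ ϖ` and `LinkG`, and `CRN.stmtL`
gives `ϖ = crossS ρ s` (`(s z univ)²` is integrable for `area ρ` over compact sets: `Sem.loc`). In
`LinkG.lim` the values of `cl4` are `1` for the three quadruples (all entries are even), and
`1 - 2 + 1 = 0`, so the combination converges, to the integral of `ζ gr⁻¹ (4 gk j - gk (2 j)) ≤
4 ζ gr⁻¹ gk j` with respect to `ϖ` (`lk` at `(0,0,0,0)` is `0`, at `(0,0,j,-j)` is `-2 gk j`, at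
`(j,-j,j,-j)` is `- gk (2 j)`; `gk 0 = 0`, `gk (-j) = gk j ≥ 0`). Finally `s2 t * gk j t = 1 - ck j t ≤ 2`
for `‖t‖ = 1` (`StmtQuo`, first part, proof), `s2 t = (Im t)²`, so by the definition of `crossS`
(`lintegral_map`, `lintegral_withDensity`; compare `NFP.IDENT.crossS_le`, `pm_pre`)
`∫ ζ gr⁻¹ gk j dϖ ≤ 2 ∫ ζ gr⁻¹ (s z univ)² d(area) = 2 ∫ ζ (ma s)²` (`area = gr dx dy`; compare
`cof_comp`, `integral_plane` in `NFP/Struct.lean`). -/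
def StmtJbd : Prop :=
  ∀ (Γ : Subgroup SL(2, ℝ)) (D : Set ℍ) (ρ : ℍ → ℝ) (φ : ℕ → ℍ → ℝ) (m : ℕ → ℝ)
    (s : ProbabilityTheory.Kernel ℍ S1), Sur Γ D ρ φ m → Sem ρ φ m s →
    ∀ (V : Set ℂ) (σ : ℂ → ℝ) (φ' : ℕ → ℂ → ℂ), Agree V UH (gr ρ) (hh m) (ph φ) σ φ' →
    ∀ ζ : ℂ → ℝ, Test V (fun z => (ζ z : ℂ)) → (∀ z, 0 ≤ ζ z) → ∀ j : ℤ, Even j → ∀ ε > 0,
    ∀ᶠ n in atTop, ∫ z, ζ z * (‖E σ (hh m) φ' 0 n z‖ ^ 2 - ‖E σ (hh m) φ' j n z‖ ^ 2) ^ 2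
      ≤ 8 * (∫ z, ζ z * ma s z ^ 2) + ε

/-- ANG: the mean over the angle of `Fₙ(x)²` in terms of the jets, in `L¹`.
Proof. In the chart, for large `n`, `rWave(x)(z, t) = φ'(dp z ξ)`, `ξ = frXi (hh m) (em ρ) x n t z`,
`Dis K x ξ` (`PTF.dis`; the values are computed in the proof of `PTF.ang_eq`). By `StmtTay` (`BSL.tAY`) for
the radius `‖x‖ + 1` and `ROTP`'s lemmas `Tay_mod`, `Tay_bd` (`BSL/ROTP.lean`): for every `ε' > 0` and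
`N ≥ N₀`, for large `n`, `‖φ'(dp z ξ) - TayE N n z (uu t ^ 2 * x)‖ ≤ ε' √Mn` on `K`, and
`‖φ'(dp z ξ)‖ ≤ C √Mn` with `C` independent of `N` (TAY with `ε = 1` for one fixed `N`). So
`|‖φ'(dp z ξ)‖² - ‖TayE‖²| ≤ (2 C + ε') ε' Mn`, and `∫_K Mn ≤ C'` (`BSL/ROTG.lean`:191). `φ'` is real on
`V`, so `rWave² = ‖φ'(dp z ξ)‖²`. The mean over `t` of `‖TayE N n z (uu t ^ 2 * x)‖²
= ‖∑_j uu t ^ (2 j) kap1 N j x E_j‖²` (`CN_rot`) is `∑_j ‖kap1 N j x‖² ‖E_j‖²` (orthogonality,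
`QE.ang_zpow` and its variants). `angProd` for `fun _ : Fin 2 => x` is `∫ rWave(x)² ∂ang`. -/
def StmtAng : Prop :=
  ∀ (Γ : Subgroup SL(2, ℝ)) (D : Set ℍ) (ρ : ℍ → ℝ) (φ : ℕ → ℍ → ℝ) (m : ℕ → ℝ), Sur Γ D ρ φ m →
    ∀ (V : Set ℂ) (σ : ℂ → ℝ) (φ' : ℕ → ℂ → ℂ), Agree V UH (gr ρ) (hh m) (ph φ) σ φ' →
    ∀ K, IsCompact K → K ⊆ V → ∀ x : ℂ, ∀ ε > 0, ∃ N₀ : ℕ, ∀ N ≥ N₀, ∀ᶠ n in atTop,
      ∫ z in K, |angProd ρ (φ n) (m n) (fun _ : Fin 2 => x) (ofComplex z)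
        - ∑ j ∈ Finset.Icc (-(N : ℤ)) N, ‖kap1 N j x‖ ^ 2 * ‖E σ (hh m) φ' j n z‖ ^ 2| ≤ ε

/-- WEV: the weights of the even jets, and a lower bound for `K`.
Proof. (1) `‖kap1 N j x‖ = ‖CN N j x‖`. `tendsto_cS0` (C43:1450) for `r = 2`, `c = (1/2, 1/2)`,
`x = (x, -x)`: `tN c x N j = (1 + (-1)^j) / 2 * CN N j x` (`CN_neg`), and
`cS I t 0 = ∑_a (-1)^a t_a t_{-a} = ∑_a ‖t_a‖²` (`tN_conj`, `I = Icc (-N) N` is symmetric), so the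
left side is `wEv N x`; `statVar c x = (1 + K(2 x)) / 2`. (2) For `u = x`, the points `0`, `u`,
`e^{iπ/3} u` have the three differences `u`, `e^{iπ/3} u`, `e^{2iπ/3} u` (up to sign) of the same modulus,
`K` is radial (`Berry.waveK_eq_norm`) and even, so `0 ≤ ∑_{i,j} K(x_i - x_j) = 3 + 6 K(u)`; the sum is
`(2π)⁻¹ ∫ |∑_i e^{i Re(x_i conj w)}|² dw ≥ 0` (see `BSL/FUA.lean`). -/
def StmtWev : Prop :=
  (∀ x : ℂ, Tendsto (fun N : ℕ => wEv N x) atTop (𝓝 ((1 + Berry.waveK (2 * x)) / 2))) ∧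
  ∀ x : ℂ, -(1 / 2) ≤ Berry.waveK x

/-- DMN: `φₙ²` is dominated by the sum of a function which is bounded in `L²` and a function which is
small in `L¹`.
Proof (from `StmtPrb`, `StmtEqd`, `StmtDen`, `StmtJbd`, `StmtAng`, `StmtWev`). `StmtEqd` and `StmtDen`
give `s`, `Sem ρ φ m s`, `ma s = 1` a.e. Let `K = tsupport ζ`, `stmtLcz` gives the chart `V ⊇ K`, `σ`, `φ'`
(as in `t_FFL`, `BSL/FFL.lean`); `|ζ| ≤ B`; `∫ ζ = 1` (`CutF.int` for `f = 1`). Take `r, c, x` from PRB for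
`ε / 20`, and `N` so large that ANG holds for each `x i` with `ε / (20 (B + 1))` and
`1/5 ≤ W ≤ 2`, where `w_j = ∑_i c_i ‖kap1 N j (x i)‖²`, `W = ∑_{j even} w_j = ∑_i c_i wEv N (x i)
→ ∑_i c_i (1 + K(2 x_i)) / 2 ∈ [1/4, 1]` (WEV, `|K| ≤ 1`). Let `Q(z) = ∑_i c_i angProd(x_i, x_i)`,
`S(z) = ∑_{|j| ≤ N} w_j ‖E_j z‖²`, `T(z) = ∑_{j even} w_j (‖E_0‖² - ‖E_j‖²)`. On `K`:
`W φₙ² = W ‖E_0‖² = T + ∑_{j even} w_j ‖E_j‖² ≤ T + S ≤ |T| + 1 + |Q - 1| + |Q - S|`. So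
`φₙ² ≤ d + e` with `d = 5 (|T| + 1)`, `e = 5 (|Q - 1| + |Q - S|)` on `K` (put `e = 0` outside `K`). For
large `n`: `∫ ζ e ≤ 5 (ε / 20 + B ε / (20 (B + 1))) ≤ ε`, and by Cauchy-Schwarz and JBD (`∫ ζ (ma s)²
= 1`) `∫ ζ T² ≤ W ∑_{j even} w_j ∫ ζ (‖E_0‖² - ‖E_j‖²)² ≤ 4 (8 + 1) = 36`, so
`∫ ζ d² ≤ 50 (36 + 1) = 1850 =: C`. Everything is continuous on `K` for large `n`. -/
def StmtDmn : Prop :=
  ∀ (Γ : Subgroup SL(2, ℝ)) [Countable Γ] (D : Set ℍ) (ρ : ℍ → ℝ) (φ : ℕ → ℍ → ℝ) (m : ℕ → ℝ),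
    Sur Γ D ρ φ m → ∀ (Ω : Type) [MeasurableSpace Ω] (P : Measure Ω) [IsProbabilityMeasure P]
    (F : ℂ → Ω → ℝ), (∀ x, Measurable (F x)) → FLim ρ D φ m P F → LLN P F 0 →
    ∀ μ : Measure (ℍ × S1), Semiclassical ρ φ m μ →
    ∀ ζ : ℂ → ℝ, CutF Γ D ρ ζ → ∃ C : ℝ, ∀ ε > 0, ∀ᶠ n in atTop, ∃ d e : ℂ → ℝ,
      (∀ z, 0 ≤ d z) ∧ (∀ z, 0 ≤ e z) ∧ Integrable (fun z => ζ z * d z ^ 2) ∧
      Integrable (fun z => ζ z * e z) ∧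
      (∀ z ∈ tsupport (fun z => (ζ z : ℂ)), φ n (ofComplex z) ^ 2 ≤ d z + e z) ∧
      ∫ z, ζ z * d z ^ 2 ≤ C ∧ ∫ z, ζ z * e z ≤ ε

/-- MOM: **no loss of mass, and a finite fourth moment**.
Proof (from `StmtDmn`, `StmtCut`). `rAvg G(φₙ²) = ∫ ζ G(φₙ²)` (`CutF.int`), and
`rAvg G(φₙ²) → E G(F(0)²)` for bounded continuous `G` (`FLim` for `x = 0`; `rWave_origin`, see
`BSL/TRG.lean`). Let `Λ ≥ 1`, `ε > 0`, `d, e` as in DMN. (1) `min (φ²) Λ ≤ d + min e Λ`, so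
`min(φ²) Λ ^ 2 ≤ 2 d² + 2 Λ e` (`min e Λ ^ 2 ≤ Λ e`), `∫ ζ min(φₙ²) Λ ^ 2 ≤ 2 C + 2 Λ ε` for large `n`. Let
`n → ∞`, then `ε → 0`: `E min(F(0)²) Λ ^ 2 ≤ 2 C` for all `Λ`; monotone convergence: `F(0)⁴` is
integrable. (2) `(φ² - Λ)₊ ≤ e + (d - Λ)₊ ≤ e + d² / Λ`, so `∫ ζ min(φₙ²) Λ = 1 - ∫ ζ (φₙ² - Λ)₊
≥ 1 - ε - C / Λ` (`ORD.mass`); in the limit `E min(F(0)²) Λ ≥ 1 - C / Λ`, and it is at most `1`. So
`E F(0)² = 1`. -/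
def StmtMom : Prop :=
  ∀ (Γ : Subgroup SL(2, ℝ)) [Countable Γ] (D : Set ℍ) (ρ : ℍ → ℝ) (φ : ℕ → ℍ → ℝ) (m : ℕ → ℝ),
    Sur Γ D ρ φ m → ∀ (Ω : Type) [MeasurableSpace Ω] (P : Measure Ω) [IsProbabilityMeasure P]
    (F : ℂ → Ω → ℝ), (∀ x, Measurable (F x)) → FLim ρ D φ m P F → LLN P F 0 →
    ∀ μ : Measure (ℍ × S1), Semiclassical ρ φ m μ →
    ∫ o, F 0 o ^ 2 ∂P = 1 ∧ Integrable (fun o => F 0 o ^ 4) P

/-! ### B. From probability to the mean square -/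

/-- STA: the values of the limit field at all points have the same law.
Proof. Let `ζ` be a `CutF` (`BSL.t_CUT`), `K` its support, a chart `V ⊇ K` as in `t_FFL`. `FLim` with `r = 1`:
`E G(F(x)) = lim ∫ ζ(z) ∫ G(rWave(x)(z, t)) ∂ang dz` (`CutF.int`, `UIF.ang_inv` for `k = 1`, Fubini), and
`rWave(x)(z, t) = Re φ'(dp z ξ)`, `Dis K x ξ` as in `StmtAng`. (1) `‖φ'(dp z ξ) - φ'(dp z (uu t ^ 2 * x))‖
≤ ε √Mn` on `K` for large `n` (`StmtTay` twice and `Tay_mod`), `∫_K √Mn ≤ ∫_K Mn ≤ C'`, and `G` is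
Lipschitz. (2) Let `v` be a complex number, `|v| = |x|`, `Φ(z) = z + h e^{-σ(z)} v` (`= dp z v`, `h = hh m n`).
`σ` is smooth on the plane; on a large ball `B` around `K` the function `z ↦ h e^{-σ(z)} v` is Lipschitz
with the constant `C h`, so for small `h`, `Φ` is injective on `B`, `|det Φ' - 1| ≤ C h` there and
`Φ(B) ⊇ K` (contraction principle, or `ApproximatesLinearOn`), uniformly in `v`. Hence
(`integral_image_eq_integral_abs_det_fderiv_smul`), with `g = G(Re φ')`: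
`∫ ζ g = ∫_{Φ(B)} ζ g = ∫_B |det Φ'| ζ(Φ z) g(Φ z) dz = ∫ ζ(z) g(Φ z) dz + O(h)`, as `|g| ≤ C` and
`||det Φ'| ζ(Φ z) - ζ(z)| ≤ C h`. So `E G(F(x)) = lim ∫ ζ G(φₙ) = E G(F(0))`. -/
def StmtSta : Prop :=
  ∀ (Γ : Subgroup SL(2, ℝ)) [Countable Γ] (D : Set ℍ) (ρ : ℍ → ℝ) (φ : ℕ → ℍ → ℝ) (m : ℕ → ℝ),
    Sur Γ D ρ φ m → ∀ (Ω : Type) [MeasurableSpace Ω] (P : Measure Ω) [IsProbabilityMeasure P]
    (F : ℂ → Ω → ℝ), (∀ x, Measurable (F x)) → FLim ρ D φ m P F → Same P F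

/-- UPG: from probability to the mean square.
Proof. `F(x)⁴` is integrable and `E (F(x)⁴ - Λ)₊ = E (F(0)⁴ - Λ)₊` for all `x` (`Same` for
`G(t) = min (t⁴) Λ` and monotone convergence), which tends to zero as `Λ → ∞`. Let
`X = ∑ c_i F(x_i) F(x_i + a)`, `c_i ≥ 0`, `∑ c_i = 1`. By Jensen
`X² ≤ ∑ c_i (F(x_i)⁴ + F(x_i + a)⁴) / 2`, so `(X² - Λ)₊ ≤ ∑ c_i ((F(x_i)⁴ - Λ)₊ + (F(x_i + a)⁴ - Λ)₊) / 2`
and `E (X² - Λ)₊ ≤ E (F(0)⁴ - Λ)₊`. If `P{|X - K(a)| > ε'} ≤ ε'` then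
`E (X - K(a))² ≤ ε'² + 2 E [X²; |X - K(a)| > ε'] + 2 ε' ≤ ε'² + 2 Λ ε' + 2 E (F(0)⁴ - Λ)₊ + 2 ε'`. Choose
`Λ`, then `ε'`. -/
def StmtUpg : Prop :=
  ∀ (Ω : Type) [MeasurableSpace Ω] (P : Measure Ω) [IsProbabilityMeasure P] (F : ℂ → Ω → ℝ),
    (∀ x, Measurable (F x)) → Same P F → Integrable (fun o => F 0 o ^ 4) P →
    ∀ a : ℂ, LLN P F a → Hull P F a

/-- H00: the fourth moment is at most the Gaussian one.
Proof. As the part `the main step` of `t_FLE` (`BSL/FLE.lean`) with `a = 0`: along a subsequence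
`exists_dat` (`BSL.CORE`), `lfr_closed`, `kap_closed` give `Dat` and `DirE`; `var_eq` and `hul_closed` for
`a = 0` give `κ ≤ 3 rAvg p²` and `K(0)² (rAvg p² - 1) = 0`, `K(0) = 1`. -/
def StmtH00 : Prop :=
  ∀ (Γ : Subgroup SL(2, ℝ)) [Countable Γ] (ρ : ℍ → ℝ),
    ContDiffOn ℝ ∞ (fun w : ℂ => ρ (ofComplex w)) {w | 0 < w.im} →
    (∀ γ ∈ Γ, ∀ z, ρ (γ • z) = ρ z) →
    ∀ D : Set ℍ, MeasurableSet D → IsFundamentalDomain Γ D (volume : Measure ℍ) →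
    (∃ K : Set ℍ, IsCompact K ∧ ∀ z, ∃ γ ∈ Γ, γ • z ∈ K) →
    ∀ (φ : ℕ → ℍ → ℝ) (m : ℕ → ℝ), Berry.REigenSeq Γ ρ φ m →
    (∀ n, ContDiffOn ℝ ∞ (fun w : ℂ => φ n (ofComplex w)) {w | 0 < w.im}) →
    (∀ n, Berry.rAvg ρ D (fun z => φ n z ^ 2) = 1) →
    ∀ (Ω : Type) [MeasurableSpace Ω] (P : Measure Ω) [IsProbabilityMeasure P] (F : ℂ → Ω → ℝ),
    (∀ x, Measurable (F x)) → FLim ρ D φ m P F → ∫ o, F 0 o ^ 2 ∂P = 1 →
    Integrable (fun o => F 0 o ^ 4) P → Hull P F 0 → ∫ o, F 0 o ^ 4 ∂P ≤ 3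

/-! ### C. Averages over discs -/

/-- CTN: the local waves are equicontinuous in the mean square.
Proof. Let `ζ` be a `CutF` (`BSL.t_CUT`) with support `K` and a chart as in `t_FFL`, `|ζ| ≤ B`. `∫ (Fₙ(x)
- Fₙ(y))² d rFrameProb = ∫ ζ(z) ∫ (rWave(x) - rWave(y))² ∂ang dz` (expand in `angProd`s, `angProd_inv`,
`CutF.int`). In the chart `rWave(x)(z, t) = φ'(dp z ξ_x)`, `ξ_x = frXi (hh m) (em ρ) x n t z`, and from the
formula of `frXi`: `‖ξ_x - uu t ^ 2 * x‖ ≤ C_R h` for all `‖x‖ ≤ R`, `z ∈ K`, for large `n` (uniformly in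
`x`). `StmtTay` for the radius `R + 1`, `Tay_mod`, `Tay_bd` (`BSL/ROTP.lean`): for `ε'` choose `N`, then
`δ`; for large `n` and `‖x‖, ‖y‖ ≤ R`, `‖x - y‖ ≤ δ`: `‖φ'(dp z ξ_x) - φ'(dp z ξ_y)‖ ≤ 3 ε' √Mn`, so the
mean square is at most `9 ε'² B ∫_K Mn ≤ C ε'²`. The bound: `‖φ'(dp z ξ_x)‖ ≤ C √Mn` in the same way. -/
def StmtCtn : Prop :=
  ∀ (Γ : Subgroup SL(2, ℝ)) [Countable Γ] (D : Set ℍ) (ρ : ℍ → ℝ) (φ : ℕ → ℍ → ℝ) (m : ℕ → ℝ),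
    Sur Γ D ρ φ m → ∀ R : ℝ,
    (∃ C : ℝ, ∀ᶠ n in atTop, ∀ x : ℂ, ‖x‖ ≤ R →
      ∫ p, Berry.rWave ρ (φ n) (m n) x p ^ 2 ∂(Berry.rFrameProb ρ D) ≤ C) ∧
    ∀ η > 0, ∃ δ > 0, ∀ᶠ n in atTop, ∀ x y : ℂ, ‖x‖ ≤ R → ‖y‖ ≤ R → ‖x - y‖ ≤ δ →
      ∫ p, (Berry.rWave ρ (φ n) (m n) x p - Berry.rWave ρ (φ n) (m n) y p) ^ 2
        ∂(Berry.rFrameProb ρ D) ≤ η

/-- RIS: Riemann sums for the averages over a disc.
Proof (from `StmtCtn`). Let `B = ball 0 R`, `R > 0`, and let `s : ℂ → ℂ` be a measurable function with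
finitely many values with `‖s x - x‖ ≤ δ` on `B`, `δ ≤ 1` (e.g. rounding the coordinates down to
multiples of `δ / 2`, for `x ∈ B`). With the values `y_i` of `s` and `c_i = vol(B ∩ s⁻¹{y_i}) / vol B`,
`⨍_B f(s x) dx = ∑ c_i f(y_i)` for all `f`. By Fubini (the waves are jointly continuous and bounded for
large `n`: see `Berry`, `RFinal.lean`, `UIF.wc`) `E |spatialAvg a R - ∑ c_i Fₙ(y_i) Fₙ(y_i + a)|
≤ ⨍_B E |Fₙ(x) Fₙ(x + a) - Fₙ(s x) Fₙ(s x + a)| dx`, and `E |f g - f' g'| ≤ (E (f - f')²)^{1/2}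
(E g²)^{1/2} + (E f'²)^{1/2} (E (g - g')²)^{1/2}`, which is small by CTN for the radius `R + 1 + ‖a‖`. The
condition on the weights: `∑_{‖y_i - y_j‖ < T} c_i c_j = ⨍_B ⨍_B 1(‖s x - s y‖ < T)
≤ sup_x vol(ball x (T + 2)) / vol B = ((T + 2) / R)²`. -/
def StmtRis : Prop :=
  ∀ (Γ : Subgroup SL(2, ℝ)) [Countable Γ] (D : Set ℍ) (ρ : ℍ → ℝ) (φ : ℕ → ℍ → ℝ) (m : ℕ → ℝ),
    Sur Γ D ρ φ m → ∀ (a : ℂ) (R : ℝ), 0 < R → ∀ ε > 0,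
    ∃ (r : ℕ) (c : Fin r → ℝ) (x : Fin r → ℂ), (∀ i, 0 ≤ c i) ∧ ∑ i, c i = 1 ∧
      (∀ T : ℝ, 0 ≤ T → ∑ i, ∑ j, (if ‖x i - x j‖ < T then c i * c j else 0)
        ≤ ((T + 2) / R) ^ 2) ∧
      ∀ᶠ n in atTop, ∫ p, |Berry.spatialAvg (Berry.rWave ρ (φ n) (m n)) a R p
        - ∑ i, c i * (Berry.rWave ρ (φ n) (m n) (x i) p * Berry.rWave ρ (φ n) (m n) (x i + a) p)|
        ∂(Berry.rFrameProb ρ D) ≤ ε

/-- PLL: from the discs to the law of large numbers for `F`.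
Proof (from `StmtRis`). Let `0 < ε ≤ 1`. `Planck` with `ε / 4`: `R = max R₀ 1`; `StmtRis` with `ε² / 16`:
`r, c, x`. With `Xₙ = ∑ c_i Fₙ(x_i) Fₙ(x_i + a)`, for large `n`: `Pₙ{|Xₙ - K(a)| > ε / 2}
≤ Pₙ{|spatialAvg - K(a)| > ε / 4} + Pₙ{|spatialAvg - Xₙ| > ε / 4} ≤ ε / 4 + (4 / ε) ε² / 16 = ε / 2`
(Markov; everything is continuous and bounded for large `n`). Let `G(t) = min (max ((2 / ε) (|t - K(a)|
- ε / 2)) 0) 1`, bounded and continuous; `FLim`: `P{|X - K(a)| > ε} ≤ E G(X) = lim Eₙ G(Xₙ)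
≤ liminf Pₙ{|Xₙ - K(a)| > ε / 2} ≤ ε / 2`. -/
def StmtPll : Prop :=
  ∀ (Γ : Subgroup SL(2, ℝ)) [Countable Γ] (D : Set ℍ) (ρ : ℍ → ℝ) (φ : ℕ → ℍ → ℝ) (m : ℕ → ℝ),
    Sur Γ D ρ φ m → ∀ (Ω : Type) [MeasurableSpace Ω] (P : Measure Ω) [IsProbabilityMeasure P]
    (F : ℂ → Ω → ℝ), (∀ x, Measurable (F x)) → FLim ρ D φ m P F →
    ∀ a : ℂ, Planck ρ D φ m a → LLN P F a

/-- LLP: from the four-point function of `F` to the discs.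
Proof (from `StmtRis`). Let `0 < ε ≤ 1` and let `η > 0` be small; `T` with `|g(u)| ≤ η` for `‖u‖ ≥ T`,
`R₀` with `B ((T + 2) / R₀)² ≤ η`. Let `R ≥ R₀` (`R₀ ≥ 1`) and `r, c, x` from `StmtRis` with `η`. With
`X = ∑ c_i F(x_i) F(x_i + a)`: `E (X - K(a))² = ∑ c_i c_j (K(a)² + g(x_i - x_j)) - K(a)²
= ∑ c_i c_j g(x_i - x_j) ≤ η + B ∑_{‖x_i - x_j‖ < T} c_i c_j ≤ 2 η`. `G(t) = min ((t - K(a))²) 1` is bounded and
continuous, so `Eₙ G(Xₙ) ≤ 3 η` for large `n`, and `Pₙ{|Xₙ - K(a)| > ε / 2} ≤ (4 / ε²) Eₙ G(Xₙ)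
≤ 12 η / ε²`. `Pₙ{|spatialAvg - Xₙ| > ε / 2} ≤ 2 η / ε`. Choose `η = ε³ / 16`. -/
def StmtLlp : Prop :=
  ∀ (Γ : Subgroup SL(2, ℝ)) [Countable Γ] (D : Set ℍ) (ρ : ℍ → ℝ) (φ : ℕ → ℍ → ℝ) (m : ℕ → ℝ),
    Sur Γ D ρ φ m → ∀ (Ω : Type) [MeasurableSpace Ω] (P : Measure Ω) [IsProbabilityMeasure P]
    (F : ℂ → Ω → ℝ), (∀ x, Measurable (F x)) → FLim ρ D φ m P F →
    ∀ (a : ℂ) (g : ℂ → ℝ) (B : ℝ), (∀ u, |g u| ≤ B) → (∀ η > 0, ∃ T : ℝ, ∀ u, T ≤ ‖u‖ → |g u| ≤ η) →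
    (∀ x : ℂ, Integrable (fun o => F x o * F (x + a) o) P ∧
      ∫ o, F x o * F (x + a) o ∂P = Berry.waveK a) →
    (∀ x y : ℂ, Integrable (fun o => F x o * F (x + a) o * (F y o * F (y + a) o)) P ∧
      ∫ o, F x o * F (x + a) o * (F y o * F (y + a) o) ∂P = Berry.waveK a ^ 2 + g (x - y)) →
    Planck ρ D φ m a

/-- NWK: the covariances of waves without directional atoms tend to zero.
Proof (from `PWV.StmtZdi`, `Pool/Agent/PWV/St.lean`). `rAvg (dia (s z)) = 0`, `dia ≥ 0` is integrable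
(`DirE.di`), so `dia (s z) = 0` for a.e. `z ∈ D`, and then `(s z × s z) {w = -w'} = 0` (`BSL.t_WIE`, the
odd moments vanish a.e., `LimFamR.odd`; see `HUL.odd_zero`). For a finite measure `s` on the circle
(definition of `dirWick`, Fubini, `cos A cos B = (cos (A - B) + cos (A + B)) / 2`, and `K(v)` is the mean
over `θ` of `cos (Re (e^{iθ} v))`):
`dirWick s ![0, 0, u, u] - (s univ)² = ∬ (K(u conj(w - w')) + K(u conj(w + w'))) ds ds` up to a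
conjugation; `K` is radial, bounded by `1` and tends to zero at infinity (`Berry.waveK_vanishes`), so for
`‖u‖ → ∞` the integrand tends to zero unless `w = ± w'`, a null set. Dominated convergence for `s × s`
and then for the mean over `D` (bound `2 p²`, `DirE.sq`), along any sequence `u_k` with `‖u_k‖ → ∞`. -/
def StmtNwk : Prop :=
  ∀ (Γ : Subgroup SL(2, ℝ)) [Countable Γ] (D : Set ℍ) (ρ : ℍ → ℝ) (φ : ℕ → ℍ → ℝ) (m : ℕ → ℝ)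
    (s : ProbabilityTheory.Kernel ℍ S1) (κ : ℝ), Sur Γ D ρ φ m → Sem ρ φ m s → DirE Γ D ρ s κ →
    NoAt UH (um s) → ∀ η > 0, ∃ T : ℝ, ∀ u : ℂ, T ≤ ‖u‖ →
      |Berry.rAvg ρ D (fun z => dirWick (s z) ![0, 0, u, u])
        - Berry.rAvg ρ D (fun z => ((s z) univ).toReal ^ 2)| ≤ η

/-! ### D. Ergodic limit fields without moment assumptions -/

/-- OR2: the covariances of the limit field, if there is no loss of mass.
Proof (from `StmtSta`). `E F(x)² = E F(0)² = 1` (`Same` for `G(t) = min (t²) Λ`, monotone convergence).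
`Eₙ Fₙ(x)² → 1` (`ORD.pts`, `ORD.mass`, `CutF`), and `Eₙ min(Fₙ(x)²) Λ → E min(F(x)²) Λ`, so
`lim_n Eₙ (Fₙ(x)² - Λ)₊ = E (F(x)² - Λ)₊`, small for large `Λ`. For `|s t| ≤ (s² + t²) / 2` and
`χ_Λ(u) = max (-Λ) (min u Λ)`: `|s t - χ_Λ(s t)| ≤ ((s² - Λ)₊ + (t² - Λ)₊) / 2`. Hence
`Eₙ Fₙ(x) Fₙ(y) - Eₙ χ_Λ(Fₙ(x) Fₙ(y))` is small, uniformly in large `n`, the second tends to
`E χ_Λ(F(x) F(y))`, and `Eₙ Fₙ(x) Fₙ(y) → K(x - y)` (`ORD.pts`). -/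
def StmtOr2 : Prop :=
  ∀ (Γ : Subgroup SL(2, ℝ)) [Countable Γ] (D : Set ℍ) (ρ : ℍ → ℝ) (φ : ℕ → ℍ → ℝ) (m : ℕ → ℝ),
    Sur Γ D ρ φ m → ∀ (Ω : Type) [MeasurableSpace Ω] (P : Measure Ω) [IsProbabilityMeasure P]
    (F : ℂ → Ω → ℝ), (∀ x, Measurable (F x)) → FLim ρ D φ m P F → ∫ o, F 0 o ^ 2 ∂P = 1 →
    ∀ x y : ℂ, Integrable (fun o => F x o * F y o) P ∧
      ∫ o, F x o * F y o ∂P = Berry.waveK (x - y)

/-- ER1: the mean ergodic theorem in `L¹`.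
Proof. As `t_ERG` (`BSL/ERG.lean`), for the bounded function `χ_Λ(F(0) F(a))`,
`χ_Λ(u) = max (-Λ) (min u Λ)`, instead of `F(0) F(a)`: there are convex combinations
`∑ c_i χ_Λ(F(x_i) F(x_i + a))` which tend in `L²`, hence in `L¹`, to `E χ_Λ(F(0) F(a))`. By stationarity
(`Ergo.stat`) `E |F(x) F(x + a) - χ_Λ(F(x) F(x + a))| = E |F(0) F(a) - χ_Λ(F(0) F(a))| → 0` as `Λ → ∞`
(dominated convergence). -/
def StmtEr1 : Prop :=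
  ∀ (Ω : Type) [MeasurableSpace Ω] (P : Measure Ω) [IsProbabilityMeasure P] (F : ℂ → Ω → ℝ),
    (∀ x, Measurable (F x)) → Ergo P F → (∀ x, Integrable (fun o => F x o ^ 2) P) → ∀ a : ℂ,
    ∀ ε > 0, ∃ (r : ℕ) (c : Fin r → ℝ) (x : Fin r → ℂ), (∀ i, 0 ≤ c i) ∧ ∑ i, c i = 1 ∧
      ∫ o, |∑ i, c i * (F (x i) o * F (x i + a) o) - ∫ o, F 0 o * F a o ∂P| ∂P ≤ ε

/-! ### E. The theorem -/

/-- the Gaussian moments up to order four: `F` has the moments of order at most four of the random wave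
-/
def Gauss4 {Ω : Type} [MeasurableSpace Ω] (P : Measure Ω) (F : ℂ → Ω → ℝ) : Prop :=
  (∀ x : ℂ, Integrable (F x) P ∧ ∫ o, F x o ∂P = 0) ∧
  (∀ x y : ℂ, Integrable (fun o => F x o * F y o) P ∧
    ∫ o, F x o * F y o ∂P = Berry.waveK (x - y)) ∧
  (∀ x y z : ℂ, Integrable (fun o => F x o * F y o * F z o) P ∧
    ∫ o, F x o * F y o * F z o ∂P = 0) ∧
  ∀ x₁ x₂ x₃ x₄ : ℂ, Integrable (fun o => F x₁ o * F x₂ o * F x₃ o * F x₄ o) P ∧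
    ∫ o, F x₁ o * F x₂ o * F x₃ o * F x₄ o ∂P
      = Berry.waveK (x₁ - x₂) * Berry.waveK (x₃ - x₄)
        + Berry.waveK (x₁ - x₃) * Berry.waveK (x₂ - x₄)
        + Berry.waveK (x₁ - x₄) * Berry.waveK (x₂ - x₃)

/-- FIN: **Planck scale equidistribution in measure**, all closed surfaces of genus at least two.
Proof. Shift the sequence (`FLA.exists_sur`): `Sur`; `NFP.exist_closed`: a subsequence with a semiclassical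
measure (`FLim` passes to it, `LLN` concerns `F` only). (1) `StmtPll`, `StmtMom`, `StmtSta`, `StmtUpg`,
`StmtH00`; the equidistribution of the mass: `StmtEqd` (for continuous invariant `w`: `rAvg (w φₙ²)
= ∫ ζ w φₙ²`, approximate the continuous function `ζ w` of compact support uniformly by test functions;
`∫_K φₙ² ≤ C`). (2) `Gauss4 → all a`: `StmtLlp` with `g(u) = K(u)² + K(u - a) K(u + a)`
(`Berry.waveK_vanishes`). `all a → one a` trivial. `Planck 0` and `Planck a`, `a ≠ 0`: (1) gives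
`E F(0)² = 1`, `E F(0)⁴ < ∞`; `StmtPll`, `StmtUpg`: `Hull P F a`; `BSL.fle_closed` gives everything. Quantum
ergodic and `Planck 0`: (1) and `BSL.flq_closed`: `E F(0)⁴ = 3`, and `BSL.fle_closed`. (3) negative
curvature: `→` (1) and `BSL.flm_closed`; `←`: along a subsequence `κ = 3` gives `rAvg p² = 1` (`κ ≥ 3 rAvg p²
≥ 3`), `fourF ![x, x, y, y] = 1 + g(x - y)`, `StmtNwk`, `StmtLlp`. (4) `F` ergodic: `StmtEr1`, `StmtOr2`: `LLN P F a` for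
all `a`, then `StmtMom` etc. -/
def StmtFin : Prop :=
  ∀ (Γ : Subgroup SL(2, ℝ)) [Countable Γ] (ρ : ℍ → ℝ),
    ContDiffOn ℝ ∞ (fun w : ℂ => ρ (ofComplex w)) {w | 0 < w.im} →
    (∀ γ ∈ Γ, ∀ z, ρ (γ • z) = ρ z) →
    ∀ D : Set ℍ, MeasurableSet D → IsFundamentalDomain Γ D (volume : Measure ℍ) →
    (∃ K : Set ℍ, IsCompact K ∧ ∀ z, ∃ γ ∈ Γ, γ • z ∈ K) →
    ∀ (φ : ℕ → ℍ → ℝ) (m : ℕ → ℝ), Berry.REigenSeq Γ ρ φ m →
    (∀ n, ContDiffOn ℝ ∞ (fun w : ℂ => φ n (ofComplex w)) {w | 0 < w.im}) →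
    (∀ n, Berry.rAvg ρ D (fun z => φ n z ^ 2) = 1) →
    ∀ (Ω : Type) [MeasurableSpace Ω] (P : Measure Ω) [IsProbabilityMeasure P] (F : ℂ → Ω → ℝ),
    (∀ x, Measurable (F x)) → FLim ρ D φ m P F →
    (Planck ρ D φ m 0 → ∫ o, F 0 o ^ 2 ∂P = 1 ∧ Integrable (fun o => F 0 o ^ 4) P ∧
      ∫ o, F 0 o ^ 4 ∂P ≤ 3 ∧ ∀ w : ℍ → ℝ, Continuous w → (∀ γ ∈ Γ, ∀ z, w (γ • z) = w z) →
        Tendsto (fun n => Berry.rAvg ρ D (fun z => w z * φ n z ^ 2)) atTop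
          (𝓝 (Berry.rAvg ρ D w))) ∧
    List.TFAE [
      Gauss4 P F,
      ∀ a : ℂ, Planck ρ D φ m a,
      Planck ρ D φ m 0 ∧ ∃ a : ℂ, a ≠ 0 ∧ Planck ρ D φ m a,
      QE.QuantumErgodic ρ φ m ∧ Planck ρ D φ m 0,
      QE.QuantumErgodic ρ φ m ∧ ∫ o, F 0 o ^ 2 ∂P = 1 ∧ ∫ o, F 0 o ^ 4 ∂P = 3] ∧
    ((∀ z : ℍ, 0 < 1 + z.im ^ 2 * Laplacian.laplacian (fun w : ℂ => ρ (ofComplex w)) z) →
      (Planck ρ D φ m 0 ↔ ∫ o, F 0 o ^ 2 ∂P = 1 ∧ ∫ o, F 0 o ^ 4 ∂P = 3)) ∧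
    (Ergo P F → ∫ o, F 0 o ^ 2 ∂P = 1 → Gauss4 P F)

end

end PKM
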