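import Pool.Agent.BSL.AllE
import Pool.Agent.BSL.All
import Pool.Agent.PWV.St0
import Pool.Agent.PKM.St1

/-!
# Planck scale equidistribution in measure: the assembly
-/

set_option autoImplicit false

open Complex MeasureTheory Filter Topology Set
open UpperHalfPlane hiding I
open scoped ContDiff MatrixGroups ProbabilityTheory ENNReal

namespace PKM

open QE QE.NC QJ U3 NFP BSL

noncomputable section

/-- **Planck scale equidistribution in measure**, all closed oriented surfaces of genus at least two -/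
def StmtEnd : Prop :=
  ∀ (Γ : Subgroup SL(2, ℝ)) [Countable Γ] (ρ : ℍ → ℝ),
    ContDiffOn ℝ ∞ (fun w : ℂ => ρ (ofComplex w)) {w | 0 < w.im} →
    (∀ γ ∈ Γ, ∀ z, ρ (γ • z) = ρ z) →
    ∀ D : Set ℍ, MeasurableSet D → IsFundamentalDomain Γ D (volume : Measure ℍ) →
    (∃ K : Set ℍ, IsCompact K ∧ ∀ z, ∃ γ ∈ Γ, γ • z ∈ K) →
    ∀ (φ : ℕ → ℍ → ℝ) (m : ℕ → ℝ), Berry.REigenSeq Γ ρ φ m →
    (∀ n, ContDiffOn ℝ ∞ (fun w : ℂ => φ n (ofComplex w)) {w | 0 < w.im}) →
    (∀ n, Berry.rAvg ρ D (fun z => φ n z ^ 2) = 1) →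
    ∀ (Ω : Type) [MeasurableSpace Ω] (P : Measure Ω) [IsProbabilityMeasure P] (F : ℂ → Ω → ℝ),
    (∀ x, Measurable (F x)) → FLim ρ D φ m P F →
    (Planck ρ D φ m 0 → ∫ o, F 0 o ^ 2 ∂P = 1 ∧ Integrable (fun o => F 0 o ^ 4) P ∧
      ∫ o, F 0 o ^ 4 ∂P ≤ 3 ∧ PWV.Equi φ) ∧
    List.TFAE [
      Gauss4 P F,
      ∀ a : ℂ, Planck ρ D φ m a,
      Planck ρ D φ m 0 ∧ ∃ a : ℂ, a ≠ 0 ∧ Planck ρ D φ m a,
      QE.QuantumErgodic ρ φ m ∧ Planck ρ D φ m 0,
      QE.QuantumErgodic ρ φ m ∧ ∫ o, F 0 o ^ 2 ∂P = 1 ∧ ∫ o, F 0 o ^ 4 ∂P = 3] ∧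
    ((∀ z : ℍ, 0 < 1 + z.im ^ 2 * Laplacian.laplacian (fun w : ℂ => ρ (ofComplex w)) z) →
      (Planck ρ D φ m 0 ↔ ∫ o, F 0 o ^ 2 ∂P = 1 ∧ ∫ o, F 0 o ^ 4 ∂P = 3)) ∧
    (Ergo P F → ∫ o, F 0 o ^ 2 ∂P = 1 → Gauss4 P F)

namespace END

variable {Γ : Subgroup SL(2, ℝ)} {D : Set ℍ} {ρ : ℍ → ℝ} {φ : ℕ → ℍ → ℝ} {m : ℕ → ℝ}

/-- shifts -/
lemma ev_shift (N : ℕ) {p : ℕ → Prop} : (∀ᶠ n in atTop, p (n + N)) ↔ ∀ᶠ n in atTop, p n := by
  conv_rhs => rw [← Filter.map_add_atTop_eq_nat N]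
  rw [Filter.eventually_map]

lemma planck_shift (N : ℕ) (a : ℂ) : Planck ρ D (fun n => φ (n + N)) (fun n => m (n + N)) a
    ↔ Planck ρ D φ m a := by
  unfold Planck
  refine forall_congr' fun ε => forall_congr' fun _ => exists_congr fun R₀ =>
    forall_congr' fun R => forall_congr' fun _ => ?_
  exact ev_shift N (p := fun n => (Berry.rFrameProb ρ D).real
    {p | ε < |Berry.spatialAvg (Berry.rWave ρ (φ n) (m n)) a R p - Berry.waveK a|} ≤ ε)

lemma tend_shift (N : ℕ) {u : ℕ → ℝ} {l : ℝ} :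
    Tendsto (fun n => u (n + N)) atTop (𝓝 l) ↔ Tendsto u atTop (𝓝 l) :=
  tendsto_add_atTop_iff_nat N

/-- the covariance function at infinity -/
lemma g_lim (a : ℂ) : ∀ η > 0, ∃ T : ℝ, ∀ u : ℂ, T ≤ ‖u‖ →
    |Berry.waveK u ^ 2 + Berry.waveK (u - a) * Berry.waveK (u + a)| ≤ η := by
  intro η hη
  obtain ⟨T, hT⟩ := Berry.waveK_vanishes (min (η / 2) 1) (by positivity)
  refine ⟨T + ‖a‖, fun u hu => ?_⟩
  have h1 : |Berry.waveK u| ≤ min (η / 2) 1 := hT u (by have := norm_nonneg a; linarith)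
  have h2 : |Berry.waveK (u - a)| ≤ min (η / 2) 1 := hT _ (by
    have := norm_sub_norm_le u a
    linarith)
  have h3 := Berry.waveK_abs_le (u + a)
  have h4 := Berry.waveK_abs_le u
  have h5 : min (η / 2) 1 ≤ η / 2 := min_le_left _ _
  calc |Berry.waveK u ^ 2 + Berry.waveK (u - a) * Berry.waveK (u + a)|
      ≤ |Berry.waveK u| * |Berry.waveK u| + |Berry.waveK (u - a)| * |Berry.waveK (u + a)| := by
        refine (abs_add_le _ _).trans ?_
        rw [abs_mul, sq, abs_mul]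
    _ ≤ η / 2 * 1 + η / 2 * 1 := by
        refine add_le_add (mul_le_mul (h1.trans h5) h4 (abs_nonneg _) (by positivity))
          (mul_le_mul (h2.trans h5) h3 (abs_nonneg _) (by positivity))
    _ = η := by ring

lemma g_bdd (a u : ℂ) :
    |Berry.waveK u ^ 2 + Berry.waveK (u - a) * Berry.waveK (u + a)| ≤ 2 := by
  have h3 := Berry.waveK_abs_le (u + a)
  have h4 := Berry.waveK_abs_le u
  have h5 := Berry.waveK_abs_le (u - a)
  refine (abs_add_le _ _).trans ?_
  rw [abs_mul, sq, abs_mul]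
  nlinarith [abs_nonneg (Berry.waveK u), abs_nonneg (Berry.waveK (u - a)),
    abs_nonneg (Berry.waveK (u + a))]

lemma abs_dirWick (s : Measure S1) [IsFiniteMeasure s] (x : Fin 4 → ℂ) :
    |dirWick s x| ≤ 3 * (s univ).toReal ^ 2 := by
  have hpi := Real.pi_pos
  have hp : 0 ≤ (s univ).toReal := ENNReal.toReal_nonneg
  have hm : ∀ a b : ℂ, |dirK s a * dirK s b| ≤ (s univ).toReal ^ 2 := fun a b => by
    rw [abs_mul, sq]
    exact mul_le_mul (ONE.abs_dirK s a) (ONE.abs_dirK s b) (abs_nonneg _) hp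
  have h := intervalIntegral.norm_integral_le_of_norm_le_const (a := (0 : ℝ)) (b := 2 * Real.pi)
    (C := 3 * (s univ).toReal ^ 2)
    (f := fun θ : ℝ => dirK s (Complex.exp (θ * Complex.I) * (x 0 - x 1))
        * dirK s (Complex.exp (θ * Complex.I) * (x 2 - x 3))
      + dirK s (Complex.exp (θ * Complex.I) * (x 0 - x 2))
        * dirK s (Complex.exp (θ * Complex.I) * (x 1 - x 3))
      + dirK s (Complex.exp (θ * Complex.I) * (x 0 - x 3))
        * dirK s (Complex.exp (θ * Complex.I) * (x 1 - x 2))) (fun θ _ => by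
      rw [Real.norm_eq_abs]
      refine (abs_add_le _ _).trans ?_
      have h1 := abs_add_le (dirK s (Complex.exp (θ * Complex.I) * (x 0 - x 1))
        * dirK s (Complex.exp (θ * Complex.I) * (x 2 - x 3)))
        (dirK s (Complex.exp (θ * Complex.I) * (x 0 - x 2))
        * dirK s (Complex.exp (θ * Complex.I) * (x 1 - x 3)))
      have h2 := hm (Complex.exp (θ * Complex.I) * (x 0 - x 1))
        (Complex.exp (θ * Complex.I) * (x 2 - x 3))
      have h3 := hm (Complex.exp (θ * Complex.I) * (x 0 - x 2))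
        (Complex.exp (θ * Complex.I) * (x 1 - x 3))
      have h4 := hm (Complex.exp (θ * Complex.I) * (x 0 - x 3))
        (Complex.exp (θ * Complex.I) * (x 1 - x 2))
      linarith)
  unfold dirWick
  rw [abs_mul, abs_of_pos (by positivity)]
  rw [Real.norm_eq_abs, sub_zero, abs_of_pos (by positivity : (0 : ℝ) < 2 * Real.pi)] at h
  calc _ ≤ 1 / (2 * Real.pi) * (3 * (s univ).toReal ^ 2 * (2 * Real.pi)) :=
        mul_le_mul_of_nonneg_left h (by positivity)
    _ = _ := by field_simp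

end END

open CORE FLE END in
/-- **the assembly** -/
theorem t_END (h1 : StmtMom) (h2 : StmtSta) (h3 : StmtUpg) (h4 : StmtH00) (h5 : StmtEqd)
    (h6 : StmtPll) (h7 : StmtLlp) (h8 : StmtOr2) (h9 : StmtEr1) (h10 : StmtNwk) : StmtEnd := by
  intro Γ _ ρ hρ hρΓ D hDm hD hK φ m hφ hs hnorm Ω _ P _ F hFm hF
  have hfac : Fac Γ ρ := ⟨hρ, hρΓ, hK⟩
  obtain ⟨N, hS⟩ := FLA.exists_sur (Γ := Γ) (D := D) hρ hρΓ hDm hD hK hφ hs hnorm
  have hN : Tendsto (fun n : ℕ => n + N) atTop atTop := tendsto_add_atTop_nat N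
  have hF' := FLA.fLim_comp hF hN
  have hSame : Same P F := h2 Γ D ρ _ _ hS Ω P F hFm hF'
  have pll : ∀ a, Planck ρ D φ m a → LLN P F a := fun a ha =>
    h6 Γ D ρ _ _ hS Ω P F hFm hF' a ((planck_shift N a).2 ha)
  -- the key lemma
  have mom : LLN P F 0 → ∫ o, F 0 o ^ 2 ∂P = 1 ∧ Integrable (fun o => F 0 o ^ 4) P := by
    intro hL
    obtain ⟨j, μ, hj, hμ⟩ := NFP.exist_closed Γ ρ D (fun n => φ n) (fun n => m n)
      inferInstance ⟨hρ, hρΓ, hK⟩ hDm hD hφ hs hnorm
    obtain ⟨N', hS'⟩ := FLA.exists_sur (Γ := Γ) (D := D) hρ hρΓ hDm hD hK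
      (reig_comp hφ hj.tendsto_atTop) (fun n => hs _) (fun n => hnorm _)
    have hN' : Tendsto (fun n : ℕ => n + N') atTop atTop := tendsto_add_atTop_nat N'
    exact h1 Γ D ρ _ _ hS' Ω P F hFm (FLA.fLim_comp hF (hj.tendsto_atTop.comp hN')) hL μ
      (FLA.sem_comp hμ hN')
  have one : Planck ρ D φ m 0 → ∫ o, F 0 o ^ 2 ∂P = 1 ∧ Integrable (fun o => F 0 o ^ 4) P ∧
      ∫ o, F 0 o ^ 4 ∂P ≤ 3 := by
    intro hP
    have hL := pll 0 hP
    obtain ⟨a1, a2⟩ := mom hL
    exact ⟨a1, a2, h4 Γ ρ hρ hρΓ D hDm hD hK φ m hφ hs hnorm Ω P F hFm hF a1 a2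
      (h3 Ω P F hFm hSame a2 0 hL)⟩
  -- the theorem of the ergodic limit fields
  have fle := fun a1 a2 => fle_closed Γ ρ hρ hρΓ D hDm hD hK φ m hφ hs hnorm Ω P F hFm hF a1 a2
  have gauss : ∀ (_ : ∫ o, F 0 o ^ 2 ∂P = 1) (_ : Integrable (fun o => F 0 o ^ 4) P),
      ((∀ x₁ x₂ x₃ : ℂ, ∫ o, F x₁ o * F x₂ o * F x₃ o ∂P = 0) ∧
        ∀ x₁ x₂ x₃ x₄ : ℂ, ∫ o, F x₁ o * F x₂ o * F x₃ o * F x₄ o ∂P
          = Berry.waveK (x₁ - x₂) * Berry.waveK (x₃ - x₄)
            + Berry.waveK (x₁ - x₃) * Berry.waveK (x₂ - x₄)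
            + Berry.waveK (x₁ - x₄) * Berry.waveK (x₂ - x₃)) →
      QE.QuantumErgodic ρ φ m → Gauss4 P F := by
    intro a1 a2 g hQ
    obtain ⟨b1, b2, b3, -⟩ := fle a1 a2
    obtain ⟨q1, -⟩ := (flq_closed Γ ρ hρ hρΓ D hDm hD hK φ m hφ hs hnorm hQ Ω P F hFm hF a1).2 a2
    exact ⟨b1, b2, fun x y z => ⟨(q1 x y z).1, g.1 x y z⟩, fun x₁ x₂ x₃ x₄ =>
      ⟨b3 x₁ x₂ x₃ x₄, g.2 x₁ x₂ x₃ x₄⟩⟩
  have five : QE.QuantumErgodic ρ φ m → ∫ o, F 0 o ^ 2 ∂P = 1 →
      Integrable (fun o => F 0 o ^ 4) P → ∫ o, F 0 o ^ 4 ∂P = 3 → Gauss4 P F := by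
    intro hQ a1 a2 h3'
    have h := (fle a1 a2).2.2.2.1
    have h' := (h.out 3 0 (h₁ := rfl) (h₂ := rfl)).1 ⟨hQ, h3'⟩
    exact gauss a1 a2 h' hQ
  have hull : ∀ a : ℂ, a ≠ 0 → ∀ (_ : ∫ o, F 0 o ^ 2 ∂P = 1)
      (_ : Integrable (fun o => F 0 o ^ 4) P), LLN P F a → Gauss4 P F := by
    intro a ha a1 a2 hL
    have h := (fle a1 a2).2.2.2.1
    have h' := (h.out 2 3 (h₁ := rfl) (h₂ := rfl)).1 ⟨a, ha, h3 Ω P F hFm hSame a2 a hL⟩
    exact five h'.1 a1 a2 h'.2
  have int4 : ∫ o, F 0 o ^ 4 ∂P = 3 → Integrable (fun o => F 0 o ^ 4) P := by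
    intro h
    by_contra hne
    rw [integral_undef hne] at h
    norm_num at h
  have qe0 : QE.QuantumErgodic ρ φ m → ∫ o, F 0 o ^ 2 ∂P = 1 →
      Integrable (fun o => F 0 o ^ 4) P → 3 ≤ ∫ o, F 0 o ^ 4 ∂P := by
    intro hQ a1 a2
    have := (flq_closed Γ ρ hρ hρΓ D hDm hD hK φ m hφ hs hnorm hQ Ω P F hFm hF a1).1
    rw [← ofReal_integral_eq_lintegral_ofReal a2 (Eventually.of_forall fun o => by positivity)]
      at this
    have h3' : ENNReal.ofReal 3 ≤ ENNReal.ofReal (∫ o, F 0 o ^ 4 ∂P) := by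
      simpa using this
    exact (ENNReal.ofReal_le_ofReal_iff (integral_nonneg fun o => by positivity)).1 h3'
  refine ⟨fun hP => ?_, ?_, fun hneg => ⟨fun hP => ?_, ?_⟩, fun hE a1 => ?_⟩
  · obtain ⟨a1, a2, a3⟩ := one hP
    refine ⟨a1, a2, a3, fun ζ c1 c2 c3 => ?_⟩
    have := h5 Γ D ρ _ _ hS Ω P F hFm hF' (pll 0 hP) ζ ?_
    · exact (tend_shift N (u := fun n => ∫ z : ℂ, ζ z * φ n (ofComplex z) ^ 2)).1 this
    · have e : tsupport (fun z : ℂ => (ζ z : ℂ)) = tsupport ζ := ORD.tsup ζ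
      refine ⟨Complex.ofRealCLM.contDiff.comp c1, ?_, ?_⟩
      · unfold HasCompactSupport at c2 ⊢
        rwa [e]
      · rw [e]
        exact c3
  · tfae_have 1 → 2 := by
      rintro ⟨-, b2, -, b4⟩ a
      refine (planck_shift N a).1 (h7 Γ D ρ _ _ hS Ω P F hFm hF' a
        (fun u => Berry.waveK u ^ 2 + Berry.waveK (u - a) * Berry.waveK (u + a)) 2 (g_bdd a)
        (g_lim a) (fun x => ?_) fun x y => ?_)
      · obtain ⟨c1, c2⟩ := b2 x (x + a)
        refine ⟨c1, ?_⟩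
        rw [c2, show x - (x + a) = -a by ring, Berry.waveK_neg]
      · obtain ⟨c1, c2⟩ := b4 x (x + a) y (y + a)
        have e : (fun o => F x o * F (x + a) o * (F y o * F (y + a) o))
            = fun o => F x o * F (x + a) o * F y o * F (y + a) o := by
          funext o; ring
        rw [e]
        refine ⟨c1, ?_⟩
        rw [c2, show x - (x + a) = -a by ring, show y - (y + a) = -a by ring, Berry.waveK_neg,
          show x + a - (y + a) = x - y by ring, show x - (y + a) = x - y - a by ring,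
          show x + a - y = x - y + a by ring]
        ring
    tfae_have 2 → 3 := fun h => ⟨h 0, 1, one_ne_zero, h 1⟩
    tfae_have 3 → 4 := by
      rintro ⟨hP, a, ha, hPa⟩
      obtain ⟨a1, a2, -⟩ := one hP
      have h := (fle a1 a2).2.2.2.1
      have h' := (h.out 2 3 (h₁ := rfl) (h₂ := rfl)).1
        ⟨a, ha, h3 Ω P F hFm hSame a2 a (pll a hPa)⟩
      exact ⟨h'.1, hP⟩
    tfae_have 4 → 5 := by
      rintro ⟨hQ, hP⟩
      obtain ⟨a1, a2, a3⟩ := one hP
      exact ⟨hQ, a1, le_antisymm a3 (qe0 hQ a1 a2)⟩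
    tfae_have 5 → 1 := fun ⟨hQ, a1, a3⟩ => five hQ a1 (int4 a3) a3
    tfae_finish
  · obtain ⟨a1, a2, a3⟩ := one hP
    refine ⟨a1, le_antisymm a3 ?_⟩
    have := (flm_closed Γ ρ hρ hρΓ hneg D hDm hD hK φ m hφ hs hnorm Ω P F hFm hF a1).1
    rw [← ofReal_integral_eq_lintegral_ofReal a2 (Eventually.of_forall fun o => by positivity)]
      at this
    have h3' : ENNReal.ofReal 3 ≤ ENNReal.ofReal (∫ o, F 0 o ^ 4 ∂P) := by
      simpa using this
    exact (ENNReal.ofReal_le_ofReal_iff (integral_nonneg fun o => by positivity)).1 h3'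
  · rintro ⟨a1, a3⟩
    have a2 := int4 a3
    obtain ⟨l, s, hl, T⟩ := exists_dat ffl_closed hρ hρΓ hDm hD hK hφ hs hnorm hFm hF a1 a2
      (k := fun n => n) tendsto_id
    obtain ⟨d1, d2⟩ := kap_closed Γ D ρ _ _ T.sur Ω P F hFm (FLA.fLim_comp hF hl) a1 a2 s T.sem
    have d : DirE Γ D ρ s 3 := ⟨hDm, hD, hfac, T.sem.fin, lfr_closed Γ ρ _ _ s hfac T.sur.loc T.sem
      (fun n => T.sur.eig.invariant n), T.sq, T.one, T.dw, d1, d2.trans a3.le⟩
    have hno := noa_closed Γ D ρ _ _ s T.sur hneg T.sem UH subset_rfl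
    have hg : Berry.Geo Γ ρ D := geo_of hDm hD hK (continuous_of_smooth hρ) hρΓ
    have hP := ONE.prob_nu hg
    have js2 := ONE.int_nu hg T.sq
    have js1 := ONE.int_mass js2
    have hp : Berry.rAvg ρ D (fun z => ((s z) univ).toReal ^ 2) = 1 := by
      refine le_antisymm ?_ ?_
      · have := (T.noat hno).1
        rw [a3] at this
        linarith
      · have e : 0 ≤ ∫ z, (((s z) univ).toReal - 1) ^ 2
            ∂(ProbabilityTheory.cond (Berry.area ρ) D) := integral_nonneg fun z => sq_nonneg _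
        have e1 : ∀ z, (((s z) univ).toReal - 1) ^ 2
            = ((s z) univ).toReal ^ 2 - 2 * ((s z) univ).toReal + 1 := fun z => by ring
        simp only [e1] at e
        have e2 : ∫ z, (((s z) univ).toReal ^ 2 - 2 * ((s z) univ).toReal + 1)
            ∂(ProbabilityTheory.cond (Berry.area ρ) D)
            = (∫ z, ((s z) univ).toReal ^ 2 ∂(ProbabilityTheory.cond (Berry.area ρ) D))
              - 2 * (∫ z, ((s z) univ).toReal ∂(ProbabilityTheory.cond (Berry.area ρ) D))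
              + ∫ _, (1 : ℝ) ∂(ProbabilityTheory.cond (Berry.area ρ) D) := by
          have i1 : Integrable (fun z => ((s z) univ).toReal ^ 2 - 2 * ((s z) univ).toReal)
              (ProbabilityTheory.cond (Berry.area ρ) D) := js2.sub (js1.const_mul 2)
          rw [integral_add i1 (integrable_const _), integral_sub js2 (js1.const_mul 2),
            integral_const_mul]
        rw [e2] at e
        have h1 := T.one
        unfold Berry.rAvg at h1 ⊢
        rw [h1] at e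
        simp only [integral_const, probReal_univ, smul_eq_mul, one_mul] at e
        linarith
    have jw : ∀ x : Fin 4 → ℂ, Integrable (fun z => dirWick (s z) x)
      (ProbabilityTheory.cond (Berry.area ρ) D) := fun x => ONE.int_nu hg (T.dw x)
    obtain ⟨o1, o2, -⟩ := fle a1 a2
    refine (planck_shift N 0).1 (h7 Γ D ρ _ _ hS Ω P F hFm hF' 0
      (fun u => Berry.rAvg ρ D (fun z => dirWick (s z) ![0, 0, -u, -u]) - 1) 4 (fun u => ?_) ?_
      (fun x => ?_) fun x y => ?_)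
    · have e : |Berry.rAvg ρ D (fun z => dirWick (s z) ![0, 0, -u, -u])| ≤ 3 := by
        unfold Berry.rAvg
        refine (abs_integral_le_integral_abs).trans ?_
        refine (integral_mono (jw _).abs (js2.const_mul 3) fun z => ?_).trans ?_
        · have := T.sem.fin z
          exact abs_dirWick (s z) _
        · rw [integral_const_mul]
          unfold Berry.rAvg at hp
          rw [hp]
          norm_num
      have := abs_sub (Berry.rAvg ρ D (fun z => dirWick (s z) ![0, 0, -u, -u])) 1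
      rw [abs_one] at this
      linarith
    · intro η hη
      obtain ⟨T', hT'⟩ := h10 Γ D ρ _ _ s 3 T.sur T.sem d hno η hη
      refine ⟨T', fun u hu => ?_⟩
      have := hT' (-u) (by rwa [norm_neg])
      rwa [hp] at this
    · have := o2 x x
      simpa using this
    · obtain ⟨b1, b2⟩ := T.four ![x, x, y, y]
      have e : ∀ o, ∏ i, F ((![x, x, y, y] : Fin 4 → ℂ) i) o
          = F x o * F (x + 0) o * (F y o * F (y + 0) o) := by
        intro o
        simp only [Fin.prod_univ_four, Matrix.cons_val_zero, Matrix.cons_val_one, Matrix.cons_val,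
          add_zero]
        ring
      simp only [e] at b1 b2
      refine ⟨b1, b2.trans ?_⟩
      unfold fourF
      rw [hp, a3, Berry.waveK_zero]
      have e3 : ∀ z, dirWick (s z) ![x, x, y, y] = dirWick (s z) ![0, 0, -(x - y), -(x - y)] := by
        intro z
        unfold dirWick
        simp only [Matrix.cons_val_zero, Matrix.cons_val_one, Matrix.cons_val, sub_self, zero_sub,
          neg_neg]
      simp only [e3]
      ring
  · -- ergodic fields
    have i2 : ∀ x, Integrable (fun o => F x o ^ 2) P := fun x => by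
      have := (h8 Γ D ρ _ _ hS Ω P F hFm hF' a1 x x).1
      refine this.congr (Eventually.of_forall fun o => ?_)
      beta_reduce
      ring
    have lln : ∀ a, LLN P F a := by
      intro a ε hε
      obtain ⟨r, c, x, hc0, hc, hle⟩ := h9 Ω P F hFm hE i2 a (ε ^ 2) (by positivity)
      refine ⟨r, c, x, hc0, hc, ?_⟩
      have e : ∫ o, F 0 o * F a o ∂P = Berry.waveK a := by
        rw [(h8 Γ D ρ _ _ hS Ω P F hFm hF' a1 0 a).2, zero_sub, Berry.waveK_neg]
      rw [e] at hle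
      have hi : Integrable (fun o => ∑ i, c i * (F (x i) o * F (x i + a) o)) P :=
        integrable_finsetSum _ fun i _ =>
          (h8 Γ D ρ _ _ hS Ω P F hFm hF' a1 (x i) (x i + a)).1.const_mul _
      have hi2 : Integrable (fun o => |∑ i, c i * (F (x i) o * F (x i + a) o)
          - Berry.waveK a|) P := (hi.sub (integrable_const _)).abs
      have hm := mul_meas_ge_le_integral_of_nonneg (Eventually.of_forall fun o => abs_nonneg _)
        hi2 ε
      have hmono : P.real {o | ε < |∑ i, c i * (F (x i) o * F (x i + a) o) - Berry.waveK a|}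
          ≤ P.real {o | ε ≤ |∑ i, c i * (F (x i) o * F (x i + a) o) - Berry.waveK a|} :=
        measureReal_mono fun o ho => by
          have ho' : ε < |∑ i, c i * (F (x i) o * F (x i + a) o) - Berry.waveK a| := ho
          exact ho'.le
      have h11 : ε * P.real {o | ε ≤ |∑ i, c i * (F (x i) o * F (x i + a) o)
          - Berry.waveK a|} ≤ ε * ε := by
        rw [← sq]
        exact hm.trans hle
      exact hmono.trans (le_of_mul_le_mul_left h11 hε)
    obtain ⟨-, a2⟩ := mom (lln 0)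
    exact hull 1 one_ne_zero a1 a2 (lln 1)

end

end PKM
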