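import Pool.Agent.PKM.St2b
import Pool.Agent.BSL.JLG
import Pool.Agent.BSL.JLW
import Pool.Agent.BSL.MSD

/-!
# The jets of even order form a sequence `JM` (module JMG, helper68)
-/

set_option autoImplicit false

open Complex MeasureTheory Filter Topology Set
open UpperHalfPlane hiding I
open scoped ContDiff MatrixGroups ProbabilityTheory ENNReal

namespace PKM

open QE QE.NC QJ U3 NFP BSL

noncomputable section

namespace JMG

section Cut

variable {Γ : Subgroup SL(2, ℝ)} {D : Set ℍ} {ρ : ℍ → ℝ} {φ : ℕ → ℍ → ℝ} {m : ℕ → ℝ}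
  {ζ : ℂ → ℝ}

/-- the integral of the cut-off function -/
lemma int_one [Countable Γ] (h : Sur Γ D ρ φ m) (hζ : CutF Γ D ρ ζ) :
    Integrable ζ ∧ ∫ z, ζ z = 1 := by
  have hg := MSD.geo h
  have h0 : IntegrableOn (fun _ : ℍ => (1 : ℝ)) D (volume : Measure ℍ) := by
    refine integrableOn_const ?_ ?_
    · exact hg.fin
    · simp
  have h1 := hζ.int (fun _ => 1) measurable_const h0 (fun _ _ _ => rfl)
  simp only [mul_one] at h1
  refine ⟨h1.1, h1.2.trans ?_⟩
  have h2 : IsProbabilityMeasure (ProbabilityTheory.cond (Berry.area ρ) D) :=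
    ProbabilityTheory.cond_isProbabilityMeasure_of_finite (Berry.area_ne_zero hg)
      (Berry.area_ne_top hg)
  unfold Berry.rAvg
  simp

lemma cont (hζ : CutF Γ D ρ ζ) : Continuous ζ :=
  Complex.continuous_re.comp hζ.test.smooth.continuous

lemma supp (hζ : CutF Γ D ρ ζ) : HasCompactSupport ζ := by
  have h1 : HasCompactSupport (fun z => (ζ z : ℂ)) := hζ.test.supp
  exact h1.comp_left (g := Complex.re) Complex.zero_re

lemma zero_off {V : Set ℂ} (hsub : tsupport (fun z => (ζ z : ℂ)) ⊆ V) {z : ℂ} (hz : z ∉ V) :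
    ζ z = 0 := by
  by_contra hne
  have h1 : (ζ z : ℂ) ≠ 0 := by exact_mod_cast hne
  exact hz (hsub (subset_tsupport _ h1))

end Cut

/-! ### The measure `mz ζ` -/

section Mz

variable {ζ : ℂ → ℝ}

lemma int_mz {F : Type} [NormedAddCommGroup F] [NormedSpace ℝ F] (hm : Measurable ζ)
    (h0 : ∀ z, 0 ≤ ζ z) (f : ℂ → F) : ∫ z, f z ∂(mz ζ) = ∫ z, ζ z • f z := by
  unfold mz
  rw [integral_withDensity_eq_integral_toReal_smul (hm.ennreal_ofReal)
    (ae_of_all _ fun _ => ENNReal.ofReal_lt_top)]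
  refine integral_congr_ae (Eventually.of_forall fun z => ?_)
  beta_reduce
  rw [ENNReal.toReal_ofReal (h0 z)]

lemma integrable_mz {F : Type} [NormedAddCommGroup F] [NormedSpace ℝ F] (hm : Measurable ζ)
    (h0 : ∀ z, 0 ≤ ζ z) {f : ℂ → F} (h : Integrable fun z => ζ z • f z) :
    Integrable f (mz ζ) := by
  unfold mz
  rw [integrable_withDensity_iff_integrable_smul' (hm.ennreal_ofReal)
    (ae_of_all _ fun _ => ENNReal.ofReal_lt_top)]
  refine h.congr (Eventually.of_forall fun z => ?_)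
  beta_reduce
  rw [ENNReal.toReal_ofReal (h0 z)]

lemma prob_mz (hi : Integrable ζ) (h0 : ∀ z, 0 ≤ ζ z) (h1 : ∫ z, ζ z = 1) :
    IsProbabilityMeasure (mz ζ) := by
  refine ⟨?_⟩
  unfold mz
  rw [withDensity_apply _ MeasurableSet.univ, Measure.restrict_univ,
    ← ofReal_integral_eq_lintegral_ofReal hi (ae_of_all _ h0), h1, ENNReal.ofReal_one]

end Mz

/-! ### The jets -/

section Jets

variable {V : Set ℂ} {σ : ℂ → ℝ} {h : ℕ → ℝ} {φ : ℕ → ℂ → ℂ}

lemma cont_aJ (L : LocB V σ h φ) (n : ℕ) (k : ℤ) : Continuous fun z => aJ σ h φ n z k :=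
  continuous_const.mul (BSL.smE L (2 * k) n).continuous

lemma conj_aJ (L : LocB V σ h φ) (n : ℕ) (z : ℂ) (k : ℤ) :
    (starRingEnd ℂ) (aJ σ h φ n z k) = (-1) ^ k * QJ.E σ h φ (-(2 * k)) n z := by
  unfold aJ
  rw [map_mul, BSL.conj_EB L, map_zpow₀, map_neg, map_one, (even_two_mul k).neg_one_zpow, one_mul]

lemma sq_aJ (L : LocB V σ h φ) (n : ℕ) (z : ℂ) (k : ℤ) :
    ((‖aJ σ h φ n z k‖ ^ 2 : ℝ) : ℂ)
      = QJ.E σ h φ (2 * k) n z * QJ.E σ h φ (-(2 * k)) n z := by
  rw [← Complex.normSq_eq_norm_sq, ← Complex.mul_conj, conj_aJ L]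
  unfold aJ
  have h1 : ((-1 : ℂ) ^ k) * (-1) ^ k = 1 := by
    rw [← mul_zpow, neg_mul_neg, one_mul, one_zpow]
  linear_combination (QJ.E σ h φ (2 * k) n z * QJ.E σ h φ (-(2 * k)) n z) * h1

lemma four_aJ (L : LocB V σ h φ) (n : ℕ) (z : ℂ) :
    ((‖aJ σ h φ n z 0‖ ^ 4 : ℝ) : ℂ)
      = QJ.E σ h φ 0 n z * QJ.E σ h φ 0 n z * QJ.E σ h φ 0 n z * QJ.E σ h φ 0 n z := by
  have h1 := sq_aJ L n z 0
  have h2 : ((‖aJ σ h φ n z 0‖ ^ 4 : ℝ) : ℂ)
      = ((‖aJ σ h φ n z 0‖ ^ 2 : ℝ) : ℂ) * ((‖aJ σ h φ n z 0‖ ^ 2 : ℝ) : ℂ) := by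
    rw [← Complex.ofReal_mul]
    congr 1
    ring
  rw [h2, h1, mul_zero, neg_zero]
  ring

lemma prod_aJ (L : LocB V σ h φ) (n : ℕ) (z : ℂ) {j k j' k' : ℤ} (hjk : j + k = j' + k') :
    aJ σ h φ n z j * aJ σ h φ n z k * (starRingEnd ℂ) (aJ σ h φ n z j' * aJ σ h φ n z k')
      = QJ.E σ h φ (2 * j) n z * QJ.E σ h φ (2 * k) n z * QJ.E σ h φ (-(2 * j')) n z
        * QJ.E σ h φ (-(2 * k')) n z := by
  rw [map_mul, conj_aJ L, conj_aJ L]
  unfold aJ
  have h0 : (-1 : ℂ) ≠ 0 := by norm_num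
  have h1 : ((-1 : ℂ) ^ j) * (-1) ^ k * ((-1) ^ j' * (-1) ^ k') = 1 := by
    rw [← zpow_add₀ h0, ← zpow_add₀ h0, ← zpow_add₀ h0, ← hjk]
    exact Even.neg_one_zpow ⟨j + k, rfl⟩
  linear_combination (QJ.E σ h φ (2 * j) n z * QJ.E σ h φ (2 * k) n z
    * QJ.E σ h φ (-(2 * j')) n z * QJ.E σ h φ (-(2 * k')) n z) * h1

end Jets

lemma um_zero (s : ProbabilityTheory.Kernel ℍ S1) (z : ℂ) : um s 0 z = ((ma s z : ℝ) : ℂ) := by
  unfold um ma cof
  rw [zpow_zero, one_mul]
  simp only [neg_zero, zpow_zero]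
  rw [integral_const, Complex.real_smul, mul_one]
  rfl

end JMG

open JMG in
/-- **JMG**: the jets of even order form a sequence `JM`. -/
theorem t_JMG (hJ : StmtJfg) : StmtJmg := by
  intro Γ _ D ρ φ m s hS hs hma hna ζ hζ V σ φ' hA hsub
  obtain ⟨hi, h1⟩ := int_one hS hζ
  have hc := JMG.cont hζ
  have hsp := JMG.supp hζ
  have hmz : Measurable ζ := hc.measurable
  have h0 := hζ.nonneg
  have hL : LocB V σ (hh m) φ' := hA.loc
  have hzV : Test V (fun z => (ζ z : ℂ)) := ⟨hζ.test.smooth, hζ.test.supp, hsub⟩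
  -- the masses are one on the support of `ζ`
  have hae : ∀ᵐ z : ℂ, ζ z ≠ 0 → ma s z = 1 := by
    have h2 := (ae_restrict_iff' isOpen_UH.measurableSet).1 hma
    filter_upwards [h2] with z hz hne
    refine hz ?_
    by_contra hzU
    exact hne (zero_off hζ.test.sub hzU)
  have hum : ∀ k : ℤ, ∀ᵐ z : ℂ, ζ z * ‖um s k z‖ ^ 2 ≤ ζ z := by
    intro k
    filter_upwards [hae] with z hz
    by_cases hne : ζ z = 0
    · rw [hne, zero_mul]
    · have h3 : ‖um s k z‖ ≤ 1 := by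
        rw [JLG.norm_um]
        exact (NFP.STRUCT.norm_cof _ k).trans (hz hne).le
      have h4 : ‖um s k z‖ ^ 2 ≤ 1 := pow_le_one₀ (norm_nonneg _) h3
      exact mul_le_of_le_one_right (h0 z) h4
  have hvv0 : vv ζ s 0 = 1 := by
    unfold vv
    rw [← h1]
    refine integral_congr_ae ?_
    filter_upwards [hae] with z hz
    by_cases hne : ζ z = 0
    · rw [hne, zero_mul]
    · rw [um_zero, hz hne]
      simp
  refine ⟨prob_mz hi h0 h1, fun n k => (cont_aJ hL n k).measurable, fun n k => ?_, fun k => ?_,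
    fun j k j' k' hjk => ?_, hvv0, fun k => ?_, fun k => ?_, hna ζ hζ.test h0⟩
  · refine integrable_mz hmz h0 ?_
    have h2 : Continuous fun z => ζ z • ‖aJ σ (hh m) φ' n z k‖ ^ 4 :=
      hc.smul ((cont_aJ hL n k).norm.pow 4)
    exact h2.integrable_of_hasCompactSupport hsp.smul_right
  · have hlim := ((BSL.t_JLG ρ φ m s hS.fac.smooth hS.loc hs).1 V σ φ' hA).lim
      (2 * k) (-(2 * k)) (fun z => (ζ z : ℂ)) hzV
    have e1 : ∫ z, (ζ z : ℂ) * ((-1) ^ (-(2 * k)) * um s (2 * k + -(2 * k)) z) = ((1 : ℝ) : ℂ) := by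
      rw [← h1, ← integral_complex_ofReal]
      refine integral_congr_ae ?_
      filter_upwards [hae] with z hz
      rw [add_neg_cancel, (even_two_mul k).neg.neg_one_zpow, one_mul]
      by_cases hne : ζ z = 0
      · rw [hne, Complex.ofReal_zero, zero_mul]
      · rw [um_zero, hz hne, Complex.ofReal_one, mul_one]
    rw [e1] at hlim
    have e2 : ∀ n, ∫ z, (ζ z : ℂ) * (QJ.E σ (hh m) φ' (2 * k) n z * QJ.E σ (hh m) φ' (-(2 * k)) n z)
        = ((∫ x, ‖aJ σ (hh m) φ' n x k‖ ^ 2 ∂(mz ζ) : ℝ) : ℂ) := by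
      intro n
      rw [int_mz hmz h0, ← integral_complex_ofReal]
      refine integral_congr_ae (Eventually.of_forall fun z => ?_)
      beta_reduce
      rw [smul_eq_mul, Complex.ofReal_mul, sq_aJ hL]
    simp only [e2] at hlim
    have h3 := (Complex.continuous_re.tendsto _).comp hlim
    exact h3
  · have h2 := hJ Γ D ρ φ m s hS hs V σ φ' hA ζ hzV (2 * j) (2 * k) (-(2 * j')) (-(2 * k'))
      (even_two_mul j) (even_two_mul k) (even_two_mul j').neg (even_two_mul k').neg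
      (by linear_combination 2 * hjk)
    have e1 : 2 * j + 2 * k = 2 * (j + k) := by ring
    have e2 : 2 * j + -(2 * j') = 2 * (j - j') := by ring
    have e3 : 2 * j + -(2 * k') = 2 * (j - k') := by ring
    rw [e1, e2, e3, hvv0, mul_one] at h2
    refine h2.congr fun n => ?_
    congr 1
    · rw [int_mz hmz h0]
      unfold QJ.E4
      refine integral_congr_ae (Eventually.of_forall fun z => ?_)
      beta_reduce
      rw [prod_aJ hL n z hjk, Complex.real_smul]
    · rw [int_mz hmz h0, ← integral_complex_ofReal]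
      unfold QJ.E4
      refine integral_congr_ae (Eventually.of_forall fun z => ?_)
      beta_reduce
      rw [smul_eq_mul, Complex.ofReal_mul, four_aJ hL]
  · exact integral_nonneg fun z => mul_nonneg (h0 z) (sq_nonneg _)
  · rw [← h1]
    exact integral_mono_of_nonneg
      (Eventually.of_forall fun z => mul_nonneg (h0 z) (sq_nonneg _)) hi (hum k)

end

end PKM
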