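import Pool.Agent.PKM.St1
import Pool.Agent.PKM.St2a
import Pool.Agent.PKM.St3

/-!
# No plane waves in the mean square: statements, part 2 (surfaces)

Statements by helper92 and helper42 (MP_4fa179_mp). The theorem is `StmtNwm` (`PKM/St3.lean`): for
quantum ergodic sequences, and for all sequences with equidistributed mass in negative curvature,
**the absence of plane waves in the local waves `Fₙ`, in the mean square, implies that the limit field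
has second moment one and fourth moment at most three**. No bound for the fourth moments and no
conservation of mass is assumed. `Γ`, `D`, `ρ`, `φ`, `m`, `F`, `s` as in `BSL/St2.lean`; `Agree`, `LocB`,
`dp`, `TayE`, `Mn` as in `BSL/StmtsT.lean`; `pwc`, `sw`, `NoW` as in `PKM/St3.lean`; the binomial weights
`be`, the index sets `IM`, and `wv`, `xM`, `JM`, `NoJ` as in `PKM/St2a.lean`.
-/

open Complex MeasureTheory Filter Topology Set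
open UpperHalfPlane hiding I
open scoped ContDiff MatrixGroups ProbabilityTheory ENNReal

namespace PKM

open QE QE.NC QJ U3 NFP BSL

noncomputable section

/-! ### Definitions -/

/-- the point `p + i q` of the lattice -/
def lp (p q : ℤ) : ℂ := (p : ℂ) + (q : ℂ) * Complex.I

/-- the mean of the energies `sw` of the plane waves in the translates of `f` by the points of the
lattice, with the binomial weights -/
def sb (M : ℕ) {r : ℕ} (w : Fin r → ℝ) (x : Fin r → ℂ) (f : ℂ → ℝ) : ℝ :=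
  ∑ p ∈ IM M, ∑ q ∈ IM M, be M p * be M q * sw w x (fun i => f (x i + lp p q))

/-- no plane waves in the mean square, in the translates of `Fₙ` -/
def NoW2 (ρ : ℍ → ℝ) (D : Set ℍ) (φ : ℕ → ℍ → ℝ) (m : ℕ → ℝ) : Prop :=
  ∀ ε > 0, ∃ (r : ℕ) (w : Fin r → ℝ) (x : Fin r → ℂ), (∀ i, 0 ≤ w i) ∧ ∑ i, w i = 1 ∧
    ∀ M : ℕ, ∀ᶠ n in atTop, ∫ p, sb M w x (fun y => Berry.rWave ρ (φ n) (m n) y p)
      ∂(Berry.rFrameProb ρ D) ≤ ε

/-- the jets of even order, with the signs for which they are the Fourier coefficients of the local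
wave -/
def aJ (σ : ℂ → ℝ) (h : ℕ → ℝ) (φ : ℕ → ℂ → ℂ) (n : ℕ) (z : ℂ) (k : ℤ) : ℂ :=
  (-1) ^ k * E σ h φ (2 * k) n z

/-- the measure `ζ(z) dx dy` -/
def mz (ζ : ℂ → ℝ) : Measure ℂ := (volume : Measure ℂ).withDensity fun z => ENNReal.ofReal (ζ z)

/-- the means of the squares of the moments of the directional measures -/
def vv (ζ : ℂ → ℝ) (s : ProbabilityTheory.Kernel ℍ S1) (k : ℤ) : ℝ := ∫ z, ζ z * ‖um s k z‖ ^ 2

/-- the coefficients of the difference of the two kinds of windows, for the Taylor polynomials of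
order `2 N` -/
def gk (M N : ℕ) {r : ℕ} (w : Fin r → ℝ) (x : Fin r → ℂ) (v : ℂ) (k : ℤ) : ℂ :=
  (be M k : ℂ) * v ^ (2 * k) - ∑ p ∈ IM (4 * M), ∑ q ∈ IM (4 * M), ∑ i,
    ((be (4 * M) p * be (4 * M) q * (w i * (2 * Real.cos (PWV.ip v (x i + lp p q)))) : ℝ) : ℂ)
      * CN (2 * N) (2 * k) (x i + lp p q)

/-- the symmetrised coefficient of the plane wave in the direction `u v`, with the binomial window
convolved with `w`, in the values at the points displaced by `± u (x i + lp p q)` -/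
def tw (M : ℕ) {r : ℕ} (w : Fin r → ℝ) (x : Fin r → ℂ) (f : ℂ → ℂ) (u v : ℂ) : ℂ :=
  ∑ p ∈ IM (4 * M), ∑ q ∈ IM (4 * M), ∑ i,
    ((be (4 * M) p * be (4 * M) q * (w i * Real.cos (PWV.ip v (x i + lp p q))) : ℝ) : ℂ)
      * (f (u * (x i + lp p q)) + f (-(u * (x i + lp p q))))

/-! ### F. The moments of the jets -/

/-- JFG: **the four-jet integrals of even order, for general directional measures**. No bound for the
fourth moments is assumed.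
Proof: as `t_JBD` (`PKM/JBD.lean`, helper61), to be copied. `CRM.main` (with `S.fac`, `S.loc`,
`S.eig.invariant`, `Sem.sem`) gives `ϖ` with `Crossing ρ μ ϖ` and `LinkG`, and `CRN.stmtL` gives
`ϖ = crossS ρ s`. `LinkG.lim` for ` (a, b, c, d)`: `cl4 = 1` (all entries are even) and
`lk = -(gk (a+b) + gk (a+c) + gk (a+d))` (`CRM.lk`, `gk 0 = 0`, `gk (-j) = gk j` for even `j`). Finally
`∫ ζ gr⁻¹ gk j dϖ = ∫ ζ ((ma s)² - ‖um s j‖²)` for even `j`: by the definition of `crossS`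
(`JBD.cross_le`) it is the integral over `IDENT.pm ρ s` of `ζ gr⁻¹ s2(t) gk j (t)`, `t = w / w'`, and
`s2 t * gk j t = 1 - ck j t = 1 - Re (w/w')^j` for `‖t‖ = 1` (`CRN.QUO.key`), and
`∬ (w / w')^j ds ds = ‖∫ w^j ds‖²`, `‖um s j z‖ = ‖cof (s (ofComplex z)) j‖ = ‖∫ w^{-j} ds‖` (`JBD.pm_mass` is
the case `j = 0`). -/
def StmtJfg : Prop :=
  ∀ (Γ : Subgroup SL(2, ℝ)) (D : Set ℍ) (ρ : ℍ → ℝ) (φ : ℕ → ℍ → ℝ) (m : ℕ → ℝ)
    (s : ProbabilityTheory.Kernel ℍ S1), Sur Γ D ρ φ m → Sem ρ φ m s →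
    ∀ (V : Set ℂ) (σ : ℂ → ℝ) (φ' : ℕ → ℂ → ℂ), Agree V UH (gr ρ) (hh m) (ph φ) σ φ' →
    ∀ ζ : ℂ → ℝ, Test V (fun z => (ζ z : ℂ)) → ∀ a b c d : ℤ, Even a → Even b → Even c → Even d →
      a + b + c + d = 0 →
    Tendsto (fun n => E4 σ (hh m) φ' (fun z => (ζ z : ℂ)) a b c d n
      - E4 σ (hh m) φ' (fun z => (ζ z : ℂ)) 0 0 0 0 n) atTop
      (𝓝 ((vv ζ s (a + b) + vv ζ s (a + c) + vv ζ s (a + d) - 3 * vv ζ s 0 : ℝ) : ℂ))

/-- JMG: the jets of even order form a sequence `JM`.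
Proof (from JFG, `BSL.t_JLG`). `mz ζ` is a probability measure: `∫ ζ = rAvg 1 = 1` (`CutF.int`);
integrals with respect to `mz ζ`: `integral_withDensity_eq_integral_smul` or
`integral_withDensity_eq_integral_toReal_smul`, `ζ ≥ 0`. The jets are smooth on the plane (`smE`), `ζ` has
compact support in `V`. `conj (E_j) = (-1)^j E_{-j}` (`conj_EB`), so `conj (a_k) = a_{-k}` for
`a = aJ σ h φ' n z`. `two`: `‖a_k‖² = E_{2k} E_{-2k}` and `JL` (`StmtJlg`): the limit is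
`∫ ζ um s 0 = ∫ ζ ma s = ∫ ζ = 1`. `four`: `a_j a_k conj (a_j' a_k') = E_{2j} E_{2k} E_{-2j'} E_{-2k'}` (the sign is
` (-1)^(j+k-j'-k') = 1`) and `‖a_0‖⁴ = E_0⁴`; JFG. `‖um s k‖ ≤ ma s = 1` a.e. on `UH`; `vv ζ s 0 = 1`. `ces`:
`NoAt UH (um s)` for the test function `ζ`. -/
def StmtJmg : Prop :=
  ∀ (Γ : Subgroup SL(2, ℝ)) [Countable Γ] (D : Set ℍ) (ρ : ℍ → ℝ) (φ : ℕ → ℍ → ℝ) (m : ℕ → ℝ)
    (s : ProbabilityTheory.Kernel ℍ S1), Sur Γ D ρ φ m → Sem ρ φ m s →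
    (∀ᵐ z ∂((volume : Measure ℂ).restrict UH), ma s z = 1) → NoAt UH (um s) →
    ∀ ζ : ℂ → ℝ, CutF Γ D ρ ζ → ∀ (V : Set ℂ) (σ : ℂ → ℝ) (φ' : ℕ → ℂ → ℂ),
    Agree V UH (gr ρ) (hh m) (ph φ) σ φ' → tsupport (fun z => (ζ z : ℂ)) ⊆ V →
    JM (mz ζ) (aJ σ (hh m) φ') (vv ζ s)

/-! ### G. From the boxes to the jets -/

/-- FRM: means over the frames, on the plane.
Proof. As `STA.plane` (`PKM/STA.lean`) for `r` points. For large `n` the waves are continuous (`UIF.wc`) and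
bounded (`UIF`, lines 36-50: `Berry.bdd_of_cocompact`), `|rWave| ≤ b`; replace `G(t)` by
`G(i ↦ max (-b) (min (t i) b))`, which is bounded and continuous. Invariance of
`z ↦ ∫ G(i ↦ rWave (x i) (z, t)) ∂ang`: the proof of `UIF.ang_inv` word for word. `CutF.int`. -/
def StmtFrm : Prop :=
  ∀ (Γ : Subgroup SL(2, ℝ)) [Countable Γ] (D : Set ℍ) (ρ : ℍ → ℝ) (φ : ℕ → ℍ → ℝ) (m : ℕ → ℝ),
    Sur Γ D ρ φ m → ∀ ζ : ℂ → ℝ, CutF Γ D ρ ζ →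
    ∀ (r : ℕ) (x : Fin r → ℂ) (G : (Fin r → ℝ) → ℝ), Continuous G → ∀ᶠ n in atTop,
      Integrable (fun p => G fun i => Berry.rWave ρ (φ n) (m n) (x i) p) (Berry.rFrameProb ρ D) ∧
      Integrable (fun z => ζ z *
        ∫ t, G (fun i => Berry.rWave ρ (φ n) (m n) (x i) (ofComplex z, t)) ∂ang) ∧
      ∫ p, G (fun i => Berry.rWave ρ (φ n) (m n) (x i) p) ∂(Berry.rFrameProb ρ D)
        = ∫ z, ζ z * ∫ t, G (fun i => Berry.rWave ρ (φ n) (m n) (x i) (ofComplex z, t)) ∂ang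

/-- WIN: from the windows at the origin to all translates.
Proof (from BN1, SWC, STN). For `ε > 0` let `r`, `w`, `x` be from NoW with `ε / 2`. `G = sw w x` satisfies the
hypothesis of STN (SWC, third part), so for each of the finitely many `y = lp p q`,
`∫ sw w x (Fₙ(x_i + y)) ≤ ε` for large `n`. `∑_{p,q} be M p be M q = 1` (BN1). The integral of the finite sum is
the sum of the integrals: for large `n` the waves are continuous and bounded (`UIF.wc`,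
`OR2.wav`; compare `StmtFrm`) and `sw w x` is continuous. -/
def StmtWin : Prop :=
  ∀ (Γ : Subgroup SL(2, ℝ)) [Countable Γ] (D : Set ℍ) (ρ : ℍ → ℝ) (φ : ℕ → ℍ → ℝ) (m : ℕ → ℝ),
    Sur Γ D ρ φ m → NoW ρ D φ m → NoW2 ρ D φ m

/-- PWB: the symmetrised coefficient in terms of `sb`.
Proof (from BN1, SWC). Write `y = lp p q`, `Y = x i + y`, `β(y) = be (4M) p be (4M) q`. `2 cos α = e^{iα} + e^{-iα}`,
`ip (-v) = - ip v`, so the sum is ` (c(f, v) + c(f, -v) + c(f', v) + c(f', -v)) / 2` with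
`c(g, v) = ∑_y β(y) ∑_i w_i g(x_i + y) e^{-i v · Y} = ∑_y β(y) e^{-i v · y} pwc w x (g(x_i + y)) v`, of modulus at most
`∑_y β(y) √(sw w x (g(x_i + y))) ≤ √(sb (4M) w x g)` (Jensen, `∑ β = 1`). So the modulus of the sum is at most
`√(sb f) + √(sb f')`. -/
def StmtPwb : Prop :=
  ∀ (M : ℕ) (r : ℕ) (w : Fin r → ℝ) (x : Fin r → ℂ), (∀ i, 0 ≤ w i) → ∑ i, w i = 1 →
    ∀ (f f' : ℂ → ℝ) (v : ℂ), ‖v‖ = 1 →
    ‖∑ p ∈ IM (4 * M), ∑ q ∈ IM (4 * M), ∑ i,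
      ((be (4 * M) p * be (4 * M) q * (w i * Real.cos (PWV.ip v (x i + lp p q))) : ℝ) : ℂ)
        * ((f (x i + lp p q) + f' (x i + lp p q) : ℝ) : ℂ)‖ ^ 2
      ≤ 2 * (sb (4 * M) w x f + sb (4 * M) w x f')

/-- GKB: the coefficients `gk` are small, in the weighted mean square.
Proof (from BN1, PDS, SYM). The claim: `‖gk M N w x v k - ck M w x v k‖ ≤ 2 e^{R} R^{2N+1} / (2N+1)!` for
`‖v‖ = 1`, `|k| ≤ N`, `M ≤ N`, if `‖Y‖ ≤ R` for all `Y = x i + lp p q` (checked numerically for one point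
`x = 0`). Put `ω = e^{-iθ}`, `w₁ = e^{iθ}`, `ee Y w₁ = e^{i Re (Y w₁)}`, `Re (Y w₁) = ip ω Y`, `pp` its Taylor polynomial
(C13:534-565: `pp (2N) Y w₁ = ∑_{|j| ≤ 2N} CN (2N) j Y w₁^j`, so `CN (2N) (2k) Y` is the mean over `θ` of
`pp (2N) Y w₁ w₁^{-2k}`), `‖ee - pp‖ ≤ e^{‖Y‖} ‖Y‖^{2N+1} / (2N+1)!`. By PDS (`be` is even), for
`β(y) = be (4M) p be (4M) q`: `∑_y β(y) cos (ip ξ (x_i + y)) = pd (4M) ξ cos (ip ξ x_i)`, so
`∑ β w_i 2 cos(ip v Y) cos(ip ω Y) = (pd (4M) · pz w x)(ω - v) + (pd (4M) · pz w x)(ω + v)`; and the part of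
`ee Y w₁` of even order in `w₁` is `cos (ip ω Y)`. Finally `∑_k be M k v^{2k} w₁^{2k} = (Re (v w₁))^{2M}
= (Re (ω conj v))^{2M}` (PDS, first part, `v w₁ = e^{it/2}`). So
`∑_k be M k v^{2k} w₁^{2k} - ∑ β w_i 2 cos(ip v Y) cos (ip ω Y) = sy M w x v θ`; compare the coefficients of
`w₁^{2k}`. Then `∑_{k ∈ IM N} (1 + k²) ‖gk‖² ≤ 2 ∑ (1 + k²) ‖ck‖² + 2 (2N+1) (1 + N²) (2 e^{R} R^{2N+1} / (2N+1)!)²`:
SYM with `δ / 4`, and the last term tends to zero as `N → ∞`. -/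
def StmtGkb : Prop :=
  ∀ (r : ℕ) (w : Fin r → ℝ) (x : Fin r → ℂ), (∀ i, 0 ≤ w i) → ∑ i, w i = 1 →
    ∀ δ > 0, ∃ M₀ : ℕ, ∀ M ≥ M₀, ∃ N₀ : ℕ, ∀ N ≥ N₀, ∀ v : ℂ, ‖v‖ = 1 →
      ∑ k ∈ IM N, (1 + (k : ℝ) ^ 2) * ‖gk M N w x v k‖ ^ 2 ≤ δ

/-- LNK: the two kinds of windows.
Proof (from BN1). `StmtTay` (`BSL.tAY`) for a bound `R` of all `‖x i + lp p q‖` and `ε / 2`; take
`N ≥ M` with `2 N ≥` the `N₀` of `tAY`. `∑ be be w_i 2 |cos| ≤ 2` (BN1), so it suffices to prove that the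
expression vanishes if `φ n (dp z y)` is replaced by the Taylor polynomial `TayE σ h φ (2N) n z y`: for
`Y = x i + lp p q`, `TayE (u Y) + TayE (-(u Y)) = ∑_{|j| ≤ 2N} (1 + (-1)^j) (-I)^j u^j CN (2N) j Y E_j`
(`CN_rot`, `CN_neg`), only even `j = 2k` remain, with the factor `2`, and ` (-I)^{2k} E_{2k} = aJ k`. So `tw` becomes
`∑_{k ∈ IM N} aJ k u^{2k} ∑ be be w_i 2 cos CN (2N) (2k) Y`, and
`wv M (aJ) (u v) = ∑_{k ∈ IM N} be M k aJ k u^{2k} v^{2k}` (`be M k = 0` for `|k| > M`). -/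
def StmtLnk : Prop :=
  ∀ (V : Set ℂ) (σ : ℂ → ℝ) (h : ℕ → ℝ) (φ : ℕ → ℂ → ℂ), LocB V σ h φ → ∀ K, IsCompact K → K ⊆ V →
    ∀ (M : ℕ) (r : ℕ) (w : Fin r → ℝ) (x : Fin r → ℂ), (∀ i, 0 ≤ w i) → ∑ i, w i = 1 →
    ∃ L : ℝ, 0 < L ∧ ∀ ε > 0, ∃ N₀ : ℕ, ∀ N ≥ N₀, ∀ᶠ n in atTop, ∀ z ∈ K, ∀ u v : ℂ,
      ‖u‖ = 1 → ‖v‖ = 1 →
      ‖wv M (aJ σ h φ n z) (u * v) - tw M w x (fun y => φ n (dp σ h n z y)) u v
        - ∑ k ∈ IM N, gk M N w x v k * (aJ σ h φ n z k * u ^ (2 * k))‖ ≤ ε * √(Mn L h φ n z)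

/-- LNF: **from the windows to the jets**.
Proof (from BN1, SWC, FRM, PWB, GKB, LNK, `BSL.t_JLG`). Let `K = tsupport ζ`, `ε > 0`. `r`, `w`, `x` from NoW2 with
`ε' = ε / 100`; `δ` small; `M` large (GKB); `L` from LNK; `ε₁` small; `N` large. For `z ∈ K`, a real `t`,
`u = uu t ^ 2`, and `‖v₀‖ = 1`, LNK for `u` and `v = v₀ / u` gives `‖wv v₀‖² ≤ 3 ‖tw‖² + 3 ‖∑ gk a_k u^{2k}‖² + 3 ε₁² Mn`,
with `‖∑‖² ≤ (∑ (1 + k²) ‖gk‖²) (∑ ‖a_k‖² / (1 + k²)) ≤ δ ∑_{k ∈ IM N} ‖a_k‖² / (1 + k²)`. By `STA.vals`, `PTF.dis` and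
`STA.md` (`PKM/STA.lean`), for large `n`, `‖φ'(dp z (u Y)) - rWave(Y)(z, t)‖ ≤ ε₁ √Mn` and
`‖φ'(dp z (-(u Y))) - rWave(Y)(z, t + π/2)‖ ≤ ε₁ √Mn`, because `uu (t + π/2) ^ 2 = - uu t ^ 2` (take the larger of
the two `L`, `Mn` is monotone in `L`). So by PWB, with `S(z, t) = sb (4M) w x (Fₙ(·)(z, t))`:
`‖tw‖² ≤ 4 (S(z, t) + S(z, t + π/2)) + 8 ε₁² Mn`, and for every `t`
`⨆_{‖v₀‖=1} ofReal (‖wv v₀‖²) ≤ ofReal (12 (S(z, t) + S(z, t + π/2)) + 30 ε₁² Mn + 3 δ ∑ ‖a_k‖² / (1 + k²))`. Integrate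
over `t` (`ang`, which is invariant: `ang_shift` for `2π`-periodic functions, `Berry.frame_periodic`) and
`ζ(z) dz` (`lintegral_withDensity_le_lintegral_mul`): FRM for the finitely many `G = sw w x`, points
`x i + lp p q`: `∫ ζ ∫ S = ∫ S d rFrameProb ≤ ε'`; `∫_K Mn ≤ C` (`ROTG.Mn_bdd`), `ζ ≤ B`;
`∫ ζ ‖a_k‖² → ∫ ζ ma s` (`JL` for `E_{2k} E_{-2k}`), at most `∫ ζ ma s + 1` for large `n` and all `k ∈ IM N`;
`∑ 1 / (1 + k²) ≤ 5`. -/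
def StmtLnf : Prop :=
  ∀ (Γ : Subgroup SL(2, ℝ)) [Countable Γ] (D : Set ℍ) (ρ : ℍ → ℝ) (φ : ℕ → ℍ → ℝ) (m : ℕ → ℝ)
    (s : ProbabilityTheory.Kernel ℍ S1), Sur Γ D ρ φ m → Sem ρ φ m s →
    ∀ ζ : ℂ → ℝ, CutF Γ D ρ ζ → ∀ (V : Set ℂ) (σ : ℂ → ℝ) (φ' : ℕ → ℂ → ℂ),
    Agree V UH (gr ρ) (hh m) (ph φ) σ φ' → tsupport (fun z => (ζ z : ℂ)) ⊆ V →
    NoW2 ρ D φ m → NoJ (mz ζ) (aJ σ (hh m) φ')

/-! ### H. The limit field -/

/-- CMF: the moments of the limit field.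
Proof. As `StmtMom` (`PKM/MOM.lean`), second half. `FRM` for `r = 1`, `x = 0` and `G` (`rWave_origin`):
`∫ ζ G(φₙ²) = ∫ G(Fₙ(0)²) → E G(F(0)²)` for bounded continuous `G`. (1) `G(t) = min (t²) L ^ 2` (`t` the value):
`E min(F(0)²) L ^ 2 ≤ 3 + ε` for all `L`, `ε`; monotone convergence: `F(0)⁴` is integrable, `E F(0)⁴ ≤ 3`.
(2) `∫ ζ φₙ² = rAvg φₙ² = 1` (`CutF.int`), `min(φₙ²) Λ = φₙ² - max (φₙ² - Λ) 0`, so `E min(F(0)²) Λ ≥ 1 - ε` for the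
`Λ` of the hypothesis, and `E min(F(0)²) Λ ≤ 1` for all `Λ`; so `E F(0)² = 1`. -/
def StmtCmf : Prop :=
  ∀ (Γ : Subgroup SL(2, ℝ)) [Countable Γ] (D : Set ℍ) (ρ : ℍ → ℝ) (φ : ℕ → ℍ → ℝ) (m : ℕ → ℝ),
    Sur Γ D ρ φ m → ∀ (Ω : Type) [MeasurableSpace Ω] (P : Measure Ω) [IsProbabilityMeasure P]
    (F : ℂ → Ω → ℝ), (∀ x, Measurable (F x)) → FLim ρ D φ m P F → ∀ ζ : ℂ → ℝ, CutF Γ D ρ ζ →
    (∀ ε > 0, ∃ Λ : ℝ, 0 < Λ ∧ ∀ᶠ n in atTop,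
      ∫ z, ζ z * max (φ n (ofComplex z) ^ 2 - Λ) 0 ≤ ε) →
    (∀ L ≥ 0, ∀ ε > 0, ∀ᶠ n in atTop, ∫ z, ζ z * min (φ n (ofComplex z) ^ 2) L ^ 2 ≤ 3 + ε) →
    ∫ o, F 0 o ^ 2 ∂P = 1 ∧ Integrable (fun o => F 0 o ^ 4) P ∧ ∫ o, F 0 o ^ 4 ∂P ≤ 3

end

end PKM
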